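import Mathlib

namespace Pool.Agent.H67.AC

open Subgroup Function Relation Pointwise

variable {G Ω : Type} [Group G] [Group Ω] [MulDistribMulAction Ω G] {k : ℕ}

variable (Ω) in
def Step (a b : Fin k → G) : Prop :=
  (∃ i j : Fin k, i ≠ j ∧
    (b = Function.update a i (a i * a j) ∨
     b = Function.update a i (a i * (a j)⁻¹) ∨
     b = Function.update a i (a j * a i) ∨
     b = Function.update a i ((a j)⁻¹ * a i))) ∨
  (∃ i : Fin k, b = Function.update a i (a i)⁻¹) ∨
  (∃ (i : Fin k) (g : G), b = Function.update a i (g⁻¹ * a i * g)) ∨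
  (∃ (i : Fin k) (ω : Ω), b = Function.update a i (ω • a i))

theorem Step.symm {a b : Fin k → G} (h : Step Ω a b) : Step Ω b a := by
  rcases h with ⟨i, j, hij, rfl | rfl | rfl | rfl⟩ | ⟨i, rfl⟩ | ⟨i, g, rfl⟩ | ⟨i, ω, rfl⟩
  · exact Or.inl ⟨i, j, hij, Or.inr (Or.inl (by simp [hij.symm]))⟩
  · exact Or.inl ⟨i, j, hij, Or.inl (by simp [hij.symm])⟩
  · exact Or.inl ⟨i, j, hij, Or.inr (Or.inr (Or.inr (by simp [hij.symm])))⟩
  · exact Or.inl ⟨i, j, hij, Or.inr (Or.inr (Or.inl (by simp [hij.symm])))⟩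
  · exact Or.inr (Or.inl ⟨i, by simp⟩)
  · exact Or.inr (Or.inr (Or.inl ⟨i, g⁻¹, by simp [mul_assoc]⟩))
  · exact Or.inr (Or.inr (Or.inr ⟨i, ω⁻¹, by simp⟩))

variable (Ω) in
abbrev Eqv (a b : Fin k → G) : Prop := ReflTransGen (Step Ω) a b

theorem Eqv.symm {a b : Fin k → G} (h : Eqv Ω a b) : Eqv Ω b a := by
  induction h with
  | refl => exact ReflTransGen.refl
  | tail _ h ih => exact ReflTransGen.head h.symm ih

variable (Ω) in
def Inv (H : Subgroup G) : Prop := H.Normal ∧ ∀ ω : Ω, ∀ h ∈ H, ω • h ∈ H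

variable (Ω) in
def Gen (a : Fin k → G) : Prop := ∀ H : Subgroup G, Inv Ω H → (∀ i, a i ∈ H) → H = ⊤

theorem Step.mem {a b : Fin k → G} (h : Step Ω a b) {H : Subgroup G} (hH : Inv Ω H)
    (ha : ∀ i, a i ∈ H) : ∀ i, b i ∈ H := by
  have key : ∀ i x, x ∈ H → ∀ j, update a i x j ∈ H := by
    intro i x hx j
    by_cases h : j = i
    · subst h; simpa using hx
    · simpa [h] using ha j
  rcases h with ⟨i, j, hij, rfl | rfl | rfl | rfl⟩ | ⟨i, rfl⟩ | ⟨i, g, rfl⟩ | ⟨i, ω, rfl⟩ <;> apply key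
  · exact mul_mem (ha i) (ha j)
  · exact mul_mem (ha i) (inv_mem (ha j))
  · exact mul_mem (ha j) (ha i)
  · exact mul_mem (inv_mem (ha j)) (ha i)
  · exact inv_mem (ha i)
  · simpa using hH.1.conj_mem _ (ha i) g⁻¹
  · exact hH.2 _ _ (ha i)

theorem Eqv.gen {a b : Fin k → G} (h : Eqv Ω a b) (ha : Gen Ω a) : Gen Ω b := by
  induction h with
  | refl => exact ha
  | tail _ h ih => exact fun H hH hb => ih H hH (h.symm.mem hH hb)

variable (Ω) in
def gp (s : Set G) : Subgroup G := closure {y | ∃ x ∈ s, ∃ (ω : Ω) (g : G), y = g⁻¹ * ω • x * g}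

theorem sub_gp {s : Set G} {x : G} (hx : x ∈ s) : x ∈ gp Ω s :=
  subset_closure ⟨x, hx, 1, 1, by simp⟩

theorem gp_inv (s : Set G) : Inv Ω (gp Ω s) := by
  constructor
  · constructor
    intro n hn g
    induction hn using closure_induction with
    | mem y hy =>
      obtain ⟨x, hx, ω, h, rfl⟩ := hy
      exact subset_closure ⟨x, hx, ω, h * g⁻¹, by group⟩
    | one => simpa using one_mem _
    | mul a b _ _ h1 h2 =>
      have : g * (a * b) * g⁻¹ = g * a * g⁻¹ * (g * b * g⁻¹) := by group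
      rw [this]; exact mul_mem h1 h2
    | inv a _ h1 =>
      have : g * a⁻¹ * g⁻¹ = (g * a * g⁻¹)⁻¹ := by group
      rw [this]; exact inv_mem h1
  · intro σ n hn
    induction hn using closure_induction with
    | mem y hy =>
      obtain ⟨x, hx, ω, h, rfl⟩ := hy
      exact subset_closure ⟨x, hx, σ * ω, σ • h, by simp [smul_mul', mul_smul]⟩
    | one => simpa using one_mem _
    | mul a b _ _ h1 h2 => rw [smul_mul']; exact mul_mem h1 h2
    | inv a _ h1 => rw [smul_inv']; exact inv_mem h1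

theorem gp_le {s : Set G} {H : Subgroup G} (hH : Inv Ω H) (hs : ∀ x ∈ s, x ∈ H) : gp Ω s ≤ H := by
  rw [gp, closure_le]
  rintro _ ⟨x, hx, ω, g, rfl⟩
  simpa using hH.1.conj_mem _ (hH.2 ω x (hs x hx)) g⁻¹

theorem Inv.sup {A B : Subgroup G} (hA : Inv Ω A) (hB : Inv Ω B) : Inv Ω (A ⊔ B) := by
  haveI := hA.1
  haveI := hB.1
  refine ⟨inferInstance, fun ω h hh => ?_⟩
  obtain ⟨a, ha, b, hb, rfl⟩ : h ∈ (A : Set G) * (B : Set G) := by rw [← mul_normal]; exact hh
  show ω • (a * b) ∈ _
  rw [smul_mul']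
  exact mul_mem (mem_sup_left (hA.2 ω a ha)) (mem_sup_right (hB.2 ω b hb))

/-- the normal closure of the other entries -/
theorem move (a : Fin k → G) (i : Fin k) {c : G} (hc : c ∈ gp Ω {x | ∃ j, j ≠ i ∧ x = a j}) :
    ∀ y, Eqv Ω (update a i y) (update a i (y * c)) := by
  induction hc using closure_induction with
  | mem c hc =>
    obtain ⟨_, ⟨j, hj, rfl⟩, ω, g, rfl⟩ := hc
    intro y
    have key : ∀ z, Eqv Ω (update a i z) (update (update a i z) j (g⁻¹ * ω • a j * g)) := by
      intro z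
      refine ReflTransGen.head (b := update (update a i z) j (ω • a j))
        (Or.inr (Or.inr (Or.inr ⟨j, ω, by simp [hj]⟩))) (ReflTransGen.single ?_)
      exact Or.inr (Or.inr (Or.inl ⟨j, g, by simp⟩))
    refine (key y).trans (ReflTransGen.head ?_ (Eqv.symm (key _)))
    refine Or.inl ⟨i, j, hj.symm, Or.inl ?_⟩
    rw [update_comm hj.symm, update_comm hj.symm]
    simp [hj]
  | one => intro y; rw [mul_one]
  | mul b c _ _ h1 h2 => intro y; rw [← mul_assoc]; exact (h1 y).trans (h2 _)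
  | inv b _ h1 =>
    intro y
    have := Eqv.symm (h1 (y * b⁻¹))
    rwa [inv_mul_cancel_right] at this

theorem comm_le {N L S : Subgroup G} [N.Normal] [L.Normal] [S.Normal] (h1 : L ⊔ N = ⊤) (h2 : S ⊔ N = ⊤) :
    commutator G ≤ (L ⊓ S) ⊔ N := by
  have e : ∀ A : Subgroup G, A ⊔ N = ⊤ → A.map (QuotientGroup.mk' N) = ⊤ := by
    intro A hA
    apply comap_injective (QuotientGroup.mk'_surjective N)
    rw [comap_map_eq, QuotientGroup.ker_mk', hA, comap_top]
  have : (commutator G).map (QuotientGroup.mk' N) ≤ (L ⊓ S).map (QuotientGroup.mk' N) := by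
    refine le_trans ?_ (map_mono (commutator_le_inf L S))
    rw [map_commutator, e L h1, e S h2, commutator_def, map_commutator]
    exact commutator_mono le_top le_top
  have h3 := comap_mono (f := QuotientGroup.mk' N) this
  rw [comap_map_eq, comap_map_eq, QuotientGroup.ker_mk'] at h3
  exact le_sup_left.trans h3

theorem lemA [Finite G] (a : Fin k → G) (i j : Fin k) (hj : j ≠ i) (y z : G) (hy : Gen Ω (update a i y))
    (hz : Gen Ω (update a i z)) (hyz : y⁻¹ * z ∈ commutator G) :
    Eqv Ω (update a i y) (update a i z) := by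
  set N := gp Ω {x | ∃ j, j ≠ i ∧ x = a j} with hN
  have iN : Inv Ω N := gp_inv _
  haveI := iN.1
  obtain ⟨S, hS⟩ := exists_minimal_of_wellFoundedLT (fun S : Subgroup G => Inv Ω S ∧ S ⊔ N = ⊤)
    ⟨⊤, ⟨inferInstance, fun _ _ _ => trivial⟩, top_sup_eq _⟩
  haveI := hS.1.1.1
  have hg : ∀ w w', Gen Ω (update a i w) → w⁻¹ * w' ∈ N → ∀ H, Inv Ω H → w' ∈ H → H ⊔ N = ⊤ := by
    intro w w' hw h H hH hw'
    refine hw _ (hH.sup iN) fun l => ?_
    by_cases hl : l = i
    · subst hl
      rw [update_self]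
      have : w = w' * (w⁻¹ * w')⁻¹ := by group
      rw [this]; exact mul_mem (mem_sup_left hw') (mem_sup_right (inv_mem h))
    · rw [update_of_ne hl]; exact mem_sup_right (sub_gp ⟨l, hl, rfl⟩)
  obtain ⟨s, hs, n, hn, e⟩ : y ∈ (S : Set G) * (N : Set G) := by
    rw [← mul_normal, hS.1.2]; trivial
  replace e : s * n = y := e
  have hys : y⁻¹ * s ∈ N := by rw [← e]; simpa using hn
  let b := update a j (a j * s)
  let L := gp Ω {x | ∃ l, l ≠ i ∧ x = b l}
  have iL : Inv Ω L := gp_inv _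
  haveI := iL.1
  have hL : L ⊔ N = ⊤ := by
    have h1 := hg y s hy hys (L ⊔ N) (iL.sup iN) (by
      have : s = (a j)⁻¹ * (a j * s) := by group
      rw [this]
      exact mul_mem (mem_sup_right (inv_mem (sub_gp ⟨j, hj, rfl⟩)))
        (mem_sup_left (sub_gp ⟨j, hj, by simp [b]⟩)))
    rwa [sup_assoc, sup_idem] at h1
  have h1 : s⁻¹ * z ∈ (L ⊓ S) ⊔ N := by
    have : s⁻¹ * z = (y⁻¹ * s)⁻¹ * (y⁻¹ * z) := by group
    rw [this]
    exact mul_mem (mem_sup_right (inv_mem hys)) (comm_le hL hS.1.2 hyz)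
  obtain ⟨c, hc, m, hm, e'⟩ : s⁻¹ * z ∈ ((L ⊓ S : Subgroup G) : Set G) * (N : Set G) := by
    rw [← mul_normal]; exact h1
  replace e' : c * m = s⁻¹ * z := e'
  have hzs : z⁻¹ * (s * c) ∈ N := by
    have : z⁻¹ * (s * c) = m⁻¹ := by
      rw [eq_inv_mul_iff_mul_eq] at e'; rw [← e']; group
    rw [this]; exact inv_mem hm
  have hback : ∀ w w', Gen Ω (update a i w) → w⁻¹ * w' ∈ N → w' ∈ S →
      Eqv Ω (update a i w') (update b i w') := by
    intro w w' hw h hw'
    have h2 : S ≤ gp Ω {w'} := hS.2 ⟨gp_inv _, hg w w' hw h _ (gp_inv _) (sub_gp rfl)⟩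
      (gp_le hS.1.1 (by rintro _ rfl; exact hw'))
    have h3 : s ∈ gp Ω {x | ∃ l, l ≠ j ∧ x = update a i w' l} :=
      gp_le (gp_inv _) (by rintro _ rfl; exact sub_gp ⟨i, hj.symm, by simp⟩) (h2 hs)
    have h4 := move (Ω := Ω) _ j h3 (a j)
    rwa [update_comm hj.symm, update_comm hj.symm, update_eq_self] at h4
  have m1 := move (Ω := Ω) a i hys y
  have m2 := move (Ω := Ω) a i hzs z
  rw [mul_inv_cancel_left] at m1 m2
  exact m1.trans ((hback y s hy hys hs).trans ((move b i hc.1 s).trans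
    ((hback z _ hz hzs (mul_mem hs hc.2)).symm.trans m2.symm)))

theorem exists_good [Finite G] (u : G) : ∃ t, u⁻¹ * t ∈ commutator G ∧
    ∀ H : Subgroup G, Inv Ω H → H ⊔ commutator G = ⊤ → t ∈ H → H = ⊤ := by
  classical
  let P : Subgroup G → Prop := fun H => Inv Ω H ∧ H ≠ ⊤
  have key : ∀ F : Finset (Subgroup G), (∀ H ∈ F, Maximal P H ∧ H ⊔ commutator G = ⊤) →
      ∃ t, u⁻¹ * t ∈ commutator G ∧ ∀ H ∈ F, t ∉ H := by
    intro F
    induction F using Finset.induction_on with
    | empty => exact fun _ => ⟨u, by simp, by simp⟩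
    | insert H0 F h0 ih =>
      intro hF
      obtain ⟨t, ht, h⟩ := ih fun H hH => hF H (Finset.mem_insert_of_mem hH)
      by_cases ht0 : t ∈ H0
      · obtain ⟨m0, c0⟩ := hF H0 (Finset.mem_insert_self _ _)
        haveI := m0.1.1.1
        have k2 : ∀ E : Finset (Subgroup G), E ⊆ F → ∃ C : Subgroup G, C.Normal ∧ C ≤ commutator G ∧
            (∀ H ∈ E, C ≤ H) ∧ C ⊔ H0 = ⊤ := by
          intro E
          induction E using Finset.induction_on with
          | empty => exact fun _ => ⟨_, inferInstance, le_rfl, by simp, by rw [sup_comm, c0]⟩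
          | insert H E _ ih =>
            intro hE
            obtain ⟨C, n1, c1, c2, c3⟩ := ih ((Finset.subset_insert _ _).trans hE)
            have hH : H ∈ F := hE (Finset.mem_insert_self _ _)
            obtain ⟨m1, -⟩ := hF H (Finset.mem_insert_of_mem hH)
            haveI := m1.1.1.1
            have c4 : H ⊔ H0 = ⊤ := by
              by_contra hne
              have p1 : P (H ⊔ H0) := ⟨m1.1.1.sup m0.1.1, hne⟩
              have e1 : H = H0 := le_antisymm (le_sup_left.trans (m0.2 p1 le_sup_right))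
                (le_sup_right.trans (m1.2 p1 le_sup_left))
              exact h0 (e1 ▸ hH)
            refine ⟨C ⊓ H, inferInstance, inf_le_left.trans c1, fun K hK => ?_, ?_⟩
            · rcases Finset.mem_insert.1 hK with rfl | hK
              · exact inf_le_right
              · exact inf_le_left.trans (c2 K hK)
            · rw [eq_top_iff, ← c0]
              exact sup_le le_sup_right (comm_le c3 c4)
        obtain ⟨C, -, c1, c2, c3⟩ := k2 F le_rfl
        have : ¬ C ≤ H0 := fun h => m0.1.2 (by rw [← c3, sup_eq_right.2 h])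
        obtain ⟨c, hc, hc0⟩ := SetLike.not_le_iff_exists.1 this
        refine ⟨t * c, by rw [← mul_assoc]; exact mul_mem ht (c1 hc), fun H hH => ?_⟩
        rcases Finset.mem_insert.1 hH with rfl | hH
        · exact fun h => hc0 ((mul_mem_cancel_left ht0).1 h)
        · exact fun h' => h H hH ((mul_mem_cancel_right (c2 H hH hc)).1 h')
      · refine ⟨t, ht, fun H hH => ?_⟩
        rcases Finset.mem_insert.1 hH with rfl | hH
        · exact ht0
        · exact h H hH
  obtain ⟨t, ht, h⟩ := key (Set.toFinite {H | Maximal P H ∧ H ⊔ commutator G = ⊤}).toFinset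
    fun H hH => by simpa using hH
  refine ⟨t, ht, fun H hH hc htH => ?_⟩
  by_contra hne
  obtain ⟨M, hM, m⟩ := Finite.exists_le_maximal (p := P) ⟨hH, hne⟩
  refine h M ?_ (hM htH)
  simp only [Set.Finite.mem_toFinset, Set.mem_setOf_eq]
  exact ⟨m, eq_top_iff.2 (hc ▸ sup_le_sup_right hM _)⟩

theorem comm_inv : Inv Ω (commutator G) := by
  refine ⟨inferInstance, fun ω h hh => ?_⟩
  have := characteristic_iff_map_le.1 (inferInstance : (commutator G).Characteristic)
    (MulDistribMulAction.toMulAut Ω G ω)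
  exact this ⟨h, hh, rfl⟩

theorem main [Finite G] (hk : 2 ≤ k) (U V : Fin k → G) (hU : Gen Ω U) (hV : Gen Ω V)
    (h : ∀ i, (U i)⁻¹ * V i ∈ commutator G) : Eqv Ω U V := by
  classical
  let i0 : Fin k := ⟨0, by omega⟩
  let i1 : Fin k := ⟨1, by omega⟩
  have h01 : i1 ≠ i0 := by simp [i0, i1]
  obtain ⟨t, ht, hgood⟩ := exists_good (Ω := Ω) (U i0)
  have g1 : ∀ W : Fin k → G, W i0 = t → (∀ i, (U i)⁻¹ * W i ∈ commutator G) → Gen Ω W := by
    intro W h0 hW H hH hm
    refine hgood H hH (hU _ (hH.sup comm_inv) fun i => ?_) (h0 ▸ hm i0)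
    have : U i = W i * ((U i)⁻¹ * W i)⁻¹ := by group
    rw [this]
    exact mul_mem (mem_sup_left (hm i)) (mem_sup_right (inv_mem (hW i)))
  let W : Finset (Fin k) → Fin k → G := fun F i => if i = i0 then t else if i ∈ F then V i else U i
  have gW : ∀ F, Gen Ω (W F) := by
    intro F
    refine g1 _ (by simp [W]) fun i => ?_
    simp only [W]
    split_ifs with h1 h2
    · rw [h1]; exact ht
    · exact h i
    · simp
  have k1 : ∀ F, Eqv Ω (W ∅) (W F) := by
    intro F
    induction F using Finset.induction_on with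
    | empty => exact ReflTransGen.refl
    | insert i F hi ih =>
      by_cases h0 : i = i0
      · have : W (insert i F) = W F := by
          funext l; simp only [W]
          by_cases hl : l = i0 <;> simp [hl, h0]
        rwa [this]
      · have e1 : W F = update (W F) i (U i) := by
          rw [eq_comm, update_eq_self_iff]; simp [W, h0, hi]
        have e2 : W (insert i F) = update (W F) i (V i) := by
          funext l
          by_cases hl : l = i
          · subst hl; simp [W, h0]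
          · simp [W, hl]
        refine ih.trans ?_
        have := lemA (W F) i i0 (Ne.symm h0) (U i) (V i) (e1 ▸ gW F) (e2 ▸ gW _) (h i)
        rwa [← e1, ← e2] at this
  have e1 : W ∅ = update U i0 t := by
    funext l; by_cases hl : l = i0 <;> simp [W, hl]
  have e2 : W Finset.univ = update V i0 t := by
    funext l; by_cases hl : l = i0 <;> simp [W, hl]
  have a1 := lemA U i0 i1 h01 (U i0) t (by rwa [update_eq_self]) (e1 ▸ gW _) ht
  have a2 := lemA V i0 i1 h01 (V i0) t (by rwa [update_eq_self]) (e2 ▸ gW _) (by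
    have : (V i0)⁻¹ * t = ((U i0)⁻¹ * V i0)⁻¹ * ((U i0)⁻¹ * t) := by group
    rw [this]; exact mul_mem (inv_mem (h i0)) ht)
  rw [update_eq_self, ← e1] at a1
  rw [update_eq_self, ← e2] at a2
  exact a1.trans ((k1 _).trans a2.symm)

end Pool.Agent.H67.AC
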