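import Mathlib

set_option autoImplicit false

namespace H67.AntiGen

/-- codes: `a = 0` bottom, `1` is `p`, `2` is `q`, `n + 3` is `k n`; `b = i + 1` is `y i`;
`c = j + 1` is `c j`. -/
def Cl (a b c : ℕ) : Prop :=
  (a = 0 ∨ b = 0 ∨ (1 ≤ c ∧ c ≤ b + 1 ∧ (c + 2 ≤ a ∨ c ≤ b))) ∧
    (a < 2 ∨ 2 < a ∨ c = 0 ∨ (1 ≤ b ∧ b ≤ c)) ∧ (a = 0 ∨ c = 0 ∨ (2 ≤ a ∧ a ≤ c + 2))

def lA (a a' : ℕ) : Prop := a = 0 ∨ (a = 1 ∧ 1 ≤ a') ∨ (2 ≤ a ∧ 2 ≤ a' ∧ a' ≤ a)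
def lB (b b' : ℕ) : Prop := b = 0 ∨ (1 ≤ b' ∧ b' ≤ b)

def mA (a a' : ℕ) : ℕ := if a = 0 ∨ a' = 0 then 0 else if a = 1 ∨ a' = 1 then 1 else max a a'
def mB (b b' : ℕ) : ℕ := if b = 0 ∨ b' = 0 then 0 else max b b'
def jA (a a' : ℕ) : ℕ :=
  if a = 0 then a' else if a' = 0 then a else if a = 1 then a' else if a' = 1 then a else min a a'
def jB (b b' : ℕ) : ℕ := if b = 0 then b' else if b' = 0 then b else min b b'

def cC (a b c : ℕ) : ℕ :=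
  if a = 0 ∨ b = 0 then c else if a = 1 then jB c (b + 1) else jB c (min (b + 1) (max (a - 2) b))
def cB (a b c : ℕ) : ℕ := if a = 2 then jB b c else b
def cA (a b c : ℕ) : ℕ := if a = 0 ∨ cC a b c = 0 then a else jA a (cC a b c + 2)

theorem jA_s (a a' : ℕ) : (a = 0 ∧ jA a a' = a') ∨ (1 ≤ a ∧ a' = 0 ∧ jA a a' = a) ∨
    (a = 1 ∧ 1 ≤ a' ∧ jA a a' = a') ∨ (2 ≤ a ∧ a' = 1 ∧ jA a a' = a) ∨
    (2 ≤ a ∧ a ≤ a' ∧ jA a a' = a) ∨ (2 ≤ a' ∧ a' ≤ a ∧ jA a a' = a') := by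
  unfold jA; split_ifs <;> omega
theorem jB_s (a a' : ℕ) : (a = 0 ∧ jB a a' = a') ∨ (1 ≤ a ∧ a' = 0 ∧ jB a a' = a) ∨
    (1 ≤ a ∧ a ≤ a' ∧ jB a a' = a) ∨ (1 ≤ a' ∧ a' ≤ a ∧ jB a a' = a') := by
  unfold jB; split_ifs <;> omega
theorem cC_s (a b c : ℕ) : ((a = 0 ∨ b = 0) ∧ cC a b c = c) ∨
    (1 ≤ a ∧ 1 ≤ b ∧ (a = 1 ∨ b + 3 ≤ a) ∧
      ((c = 0 ∨ b + 1 ≤ c) ∧ cC a b c = b + 1 ∨ 1 ≤ c ∧ c ≤ b ∧ cC a b c = c)) ∨
    (2 ≤ a ∧ 1 ≤ b ∧ a ≤ b + 2 ∧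
      ((c = 0 ∨ b ≤ c) ∧ cC a b c = b ∨ 1 ≤ c ∧ c ≤ b ∧ cC a b c = c)) := by
  unfold cC jB; (repeat' split) <;> omega
theorem cB_s (a b c : ℕ) : (a = 2 ∧ cB a b c = jB b c) ∨ ((a < 2 ∨ 2 < a) ∧ cB a b c = b) := by
  unfold cB; split_ifs <;> omega
theorem cA_s (a b c : ℕ) : ((a = 0 ∨ cC a b c = 0) ∧ cA a b c = a) ∨
    (1 ≤ cC a b c ∧ ((a = 1 ∨ cC a b c + 2 ≤ a) ∧ cA a b c = cC a b c + 2 ∨
      2 ≤ a ∧ a ≤ cC a b c + 2 ∧ cA a b c = a)) := by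
  unfold cA jA; (repeat' split) <;> omega

theorem cl_cl (a b c : ℕ) : Cl (cA a b c) (cB a b c) (cC a b c) := by
  unfold Cl
  have := cA_s a b c
  have := cB_s a b c
  have := cC_s a b c
  have := jB_s b c
  omega

theorem cl_le {a b c a' b' c' : ℕ} (h : Cl a' b' c') :
    lA (cA a b c) a' ∧ lB (cB a b c) b' ∧ lB (cC a b c) c' ↔ lA a a' ∧ lB b b' ∧ lB c c' := by
  unfold Cl at h
  unfold lA lB
  have := cA_s a b c
  have := cB_s a b c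
  have := cC_s a b c
  have := jB_s b c
  constructor
  · intro h; refine ⟨?_, ?_, ?_⟩ <;> omega
  · intro h; refine ⟨?_, ?_, ?_⟩ <;> omega

theorem bd1 {a b c N : ℕ} (h : a ≠ 2 ∧ a ≤ N + 3 ∧ b ≤ N ∧ c ≤ N + 1) :
    cA a b c ≠ 2 ∧ cA a b c ≤ N + 3 ∧ cB a b c ≤ N ∧ cC a b c ≤ N + 1 := by
  have := cA_s a b c
  have := cB_s a b c
  have := cC_s a b c
  omega

theorem bd2 {a b c N : ℕ} (h : a ≠ 1 ∧ a ≤ N + 2 ∧ b ≤ N ∧ c ≤ N) :
    cA a b c ≠ 1 ∧ cA a b c ≤ N + 2 ∧ cB a b c ≤ N ∧ cC a b c ≤ N := by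
  have := cA_s a b c
  have := cB_s a b c
  have := cC_s a b c
  have := jB_s b c
  omega

theorem jA_le {a a' w : ℕ} : lA (jA a a') w ↔ lA a w ∧ lA a' w := by
  unfold lA jA; split_ifs <;> omega
theorem jB_le {a a' w : ℕ} : lB (jB a a') w ↔ lB a w ∧ lB a' w := by
  unfold lB jB; split_ifs <;> omega
theorem le_mA {a a' w : ℕ} : lA w (mA a a') ↔ lA w a ∧ lA w a' := by
  unfold lA mA; split_ifs <;> omega
theorem le_mB {a a' w : ℕ} : lB w (mB a a') ↔ lB w a ∧ lB w a' := by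
  unfold lB mB; split_ifs <;> omega
theorem cl_m {a b c a' b' c' : ℕ} (h : Cl a b c) (h' : Cl a' b' c') :
    Cl (mA a a') (mB b b') (mB c c') := by
  unfold Cl at *
  unfold mA mB
  split_ifs <;> omega

@[ext] structure T where
  a : ℕ
  b : ℕ
  c : ℕ
  h : Cl a b c

instance : PartialOrder T where
  le x y := lA x.a y.a ∧ lB x.b y.b ∧ lB x.c y.c
  le_refl x := by unfold lA lB; omega
  le_trans x y z := by unfold lA lB; omega
  le_antisymm x y h h' := by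
    unfold lA lB at h h'
    ext <;> omega

theorem le_def {x y : T} : x ≤ y ↔ lA x.a y.a ∧ lB x.b y.b ∧ lB x.c y.c := Iff.rfl

def sup (x y : T) : T := ⟨_, _, _, cl_cl (jA x.a y.a) (jB x.b y.b) (jB x.c y.c)⟩
def inf (x y : T) : T := ⟨_, _, _, cl_m x.h y.h⟩

theorem sup_iff {x y w : T} : sup x y ≤ w ↔ x ≤ w ∧ y ≤ w := by
  simp only [le_def, sup, cl_le w.h, jA_le, jB_le]; tauto
theorem inf_iff {x y w : T} : w ≤ inf x y ↔ w ≤ x ∧ w ≤ y := by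
  simp only [le_def, inf, le_mA, le_mB]; tauto

instance : Lattice T where
  sup := sup
  inf := inf
  le_sup_left _ _ := (sup_iff.1 le_rfl).1
  le_sup_right _ _ := (sup_iff.1 le_rfl).2
  sup_le _ _ _ h h' := sup_iff.2 ⟨h, h'⟩
  inf_le_left _ _ := (inf_iff.1 le_rfl).1
  inf_le_right _ _ := (inf_iff.1 le_rfl).2
  le_inf _ _ _ h h' := inf_iff.2 ⟨h, h'⟩

theorem sup_def (x y : T) : x ⊔ y = sup x y := rfl
theorem inf_def (x y : T) : x ⊓ y = inf x y := rfl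

def A (a : ℕ) : T := ⟨a, 0, 0, by unfold Cl; omega⟩
def B (b : ℕ) : T := ⟨0, b, 0, by unfold Cl; omega⟩
def C (c : ℕ) : T := ⟨0, 0, c, by unfold Cl; omega⟩

instance : Infinite T := Infinite.of_injective A fun _ _ h => congrArg T.a h

theorem gen (S : Set T) (h : {A 1, A 2, B 1, C 1} ⊆ S) (hs : SupClosed S) (hi : InfClosed S)
    (x : T) : x ∈ S := by
  have a1 : A 1 ∈ S := h (by simp)
  have a2 : A 2 ∈ S := h (by simp)
  have b1 : B 1 ∈ S := h (by simp)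
  have c1 : C 1 ∈ S := h (by simp)
  have e1 : ∀ n, B (n + 1) = (C (n + 1) ⊔ A 2) ⊓ B 1 := by
    intro n
    ext <;> simp [sup_def, inf_def, sup, inf, A, B, C, cA, cB, cC, jA, jB, mA, mB]
  have e2 : ∀ n, C (n + 2) = (B (n + 1) ⊔ A 1) ⊓ C 1 := by
    intro n
    ext <;> simp [sup_def, inf_def, sup, inf, A, B, C, cA, cB, cC, jA, jB, mA, mB]
  have e3 : ∀ n, A (n + 3) = (C (n + 1) ⊔ A 1) ⊓ A 2 := by
    intro n
    ext <;> simp [sup_def, inf_def, sup, inf, A, B, C, cA, cB, cC, jA, jB, mA, mB]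
  have e0 : A 0 = B 1 ⊓ C 1 := by
    ext <;> simp [inf_def, inf, A, B, C, mA, mB]
  have a0 : A 0 ∈ S := e0 ▸ hi b1 c1
  have hc : ∀ n, C (n + 1) ∈ S := by
    intro n
    induction n with
    | zero => exact c1
    | succ n ih => rw [e2, e1]; exact hi (hs (hi (hs ih a2) b1) a1) c1
  have hC : ∀ n, C n ∈ S
    | 0 => a0
    | n + 1 => hc n
  have hB : ∀ n, B n ∈ S
    | 0 => a0
    | n + 1 => e1 n ▸ hi (hs (hc n) a2) b1
  have hA : ∀ n, A n ∈ S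
    | 0 => a0
    | 1 => a1
    | 2 => a2
    | n + 3 => e3 n ▸ hi (hs (hc n) a1) a2
  have : x = A x.a ⊔ B x.b ⊔ C x.c := by
    refine eq_of_forall_ge_iff fun w => ?_
    rw [sup_le_iff, sup_le_iff]
    simp [le_def, A, B, C, lA, lB, and_assoc]
  rw [this]
  exact hs (hs (hA _) (hB _)) (hC _)

theorem fin (N : ℕ) : {x : T | x.a ≤ N ∧ x.b ≤ N ∧ x.c ≤ N}.Finite := by
  refine Set.Finite.of_finite_image (f := fun x => (x.a, x.b, x.c))
    (((Set.finite_Iic N).prod ((Set.finite_Iic N).prod (Set.finite_Iic N))).subset ?_) ?_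
  · rintro _ ⟨x, hx, rfl⟩; exact hx
  · intro x _ y _ h
    simp only [Prod.mk.injEq] at h
    ext <;> omega

theorem main (X : Set T) (hX : X.Finite) (ha : IsAntichain (· ≤ ·) X) :
    ∃ S : Set T, S.Finite ∧ X ⊆ S ∧ SupClosed S ∧ InfClosed S := by
  obtain ⟨N, hN⟩ := (hX.image fun x => x.a + x.b + x.c).bddAbove
  have hN' : ∀ x ∈ X, x.a + x.b + x.c ≤ N := fun x hx => hN ⟨x, hx, rfl⟩
  by_cases hp : A 1 ∈ X
  · refine ⟨{x | x.a ≠ 2 ∧ x.a ≤ N + 3 ∧ x.b ≤ N ∧ x.c ≤ N + 1}, (fin (N + 3)).subset ?_, ?_, ?_, ?_⟩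
    · intro x hx
      simp only [Set.mem_setOf_eq] at *
      omega
    · intro x hx
      have := hN' x hx
      refine ⟨fun h => ha hp hx (fun e => ?_) ?_, by omega, by omega, by omega⟩
      · have := congrArg T.a e
        simp only [A] at this
        omega
      · simp [le_def, A, lA, lB, h]
    · intro x hx y hy
      have := jA_s x.a y.a
      have := jB_s x.b y.b
      have := jB_s x.c y.c
      simp only [Set.mem_setOf_eq] at hx hy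
      exact bd1 (by omega)
    · intro x hx y hy
      simp only [Set.mem_setOf_eq, inf_def, inf, mA, mB] at *
      split_ifs <;> omega
  · have one : ∀ x : T, x.a = 1 → x = A 1 := by
      intro x h
      have := x.h
      unfold Cl at this
      ext <;> simp only [A] <;> omega
    refine ⟨{x | x.a ≠ 1 ∧ x.a ≤ N + 2 ∧ x.b ≤ N ∧ x.c ≤ N}, (fin (N + 2)).subset ?_, ?_, ?_, ?_⟩
    · intro x hx
      simp only [Set.mem_setOf_eq] at *
      omega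
    · intro x hx
      have := hN' x hx
      exact ⟨fun h => hp (one x h ▸ hx), by omega, by omega, by omega⟩
    · intro x hx y hy
      have := jA_s x.a y.a
      have := jB_s x.b y.b
      have := jB_s x.c y.c
      simp only [Set.mem_setOf_eq] at hx hy
      exact bd2 (by omega)
    · intro x hx y hy
      simp only [Set.mem_setOf_eq, inf_def, inf, mA, mB] at *
      split_ifs <;> omega

end H67.AntiGen
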