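import Mathlib

set_option autoImplicit false

namespace Pool.Agent.H67.ArcPart

open MulAction Subgroup

/-- An invariant finite set all of whose orbits have size divisible by `q` has size divisible by `q`. -/
theorem dvd_ncard_of_orbits {S Ω : Type*} [Group S] [MulAction S Ω] [Finite Ω] (q : ℕ) :
    ∀ (n : ℕ) (B : Set Ω), B.ncard = n → (∀ s : S, ∀ b ∈ B, s • b ∈ B) →
      (∀ b ∈ B, q ∣ (orbit S b).ncard) → q ∣ B.ncard := by
  intro n
  induction n using Nat.strong_induction_on with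
  | _ n ih =>
    intro B hn hinv hq
    rcases B.eq_empty_or_nonempty with h | ⟨b, hb⟩
    · simp [h]
    · have hsub : orbit S b ⊆ B := by
        rintro _ ⟨s, rfl⟩
        exact hinv s b hb
      have hadd := Set.ncard_sdiff_add_ncard_of_subset hsub
      have hpos : 0 < (orbit S b).ncard := by
        rw [Set.ncard_pos]
        exact ⟨b, mem_orbit_self b⟩
      have h1 : q ∣ (B \ orbit S b).ncard := by
        apply ih _ (by omega) _ rfl
        · rintro s x ⟨hx, hx'⟩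
          refine ⟨hinv s x hx, fun h => hx' ?_⟩
          obtain ⟨t, ht⟩ := h
          refine ⟨s⁻¹ * t, ?_⟩
          simp only at ht
          simp [mul_smul, ht]
        · intro x hx
          exact hq x hx.1
      rw [← hadd]
      exact dvd_add h1 (hq b hb)

variable {G Ω C : Type*} [Group G] [Finite G] [MulAction G Ω] [MulAction G C] [Finite Ω] [Finite C]

theorem keyA (c : Ω → Ω → C) (hc : ∀ (g : G) (a b : Ω), a ≠ b → c (g • a) (g • b) = g • c a b)
    (s e : ℕ) [hs : Fact s.Prime] (hq : s ^ e ∣ Nat.card C)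
    (H : Subgroup G) (hH : ∀ x y : C, ∃ h ∈ H, h • x = y)
    (A : Set Ω) (hA : ∀ h ∈ H, ∀ a ∈ A, h • a ∈ A) (hsA : ¬ s ∣ A.ncard) :
    ∃ α ∈ A, ∀ B : Set Ω, α ∈ B → (∀ h ∈ H, h • α = α → ∀ b ∈ B, h • b ∈ B) →
      B.ncard ≡ 1 [MOD s ^ e] := by
  classical
  obtain ⟨S⟩ : Nonempty (Sylow s H) := inferInstance
  let A' : SubMulAction S Ω :=
    { carrier := A
      smul_mem' := fun g a ha => hA _ (g : H).2 a ha }
  have hfix := IsPGroup.nonempty_fixed_point_of_prime_not_dvd_card S.2 A' (by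
    have : Nat.card A' = A.ncard := rfl
    rw [this]; exact hsA)
  obtain ⟨⟨α, hαA⟩, hα⟩ := hfix
  have hα' : ∀ g : S, ((g : H) : G) • α = α := by
    intro g
    have := hα g
    exact congrArg Subtype.val this
  refine ⟨α, hαA, fun B hαB hB => ?_⟩
  have h1 : s ^ e ∣ (B \ {α}).ncard := by
    apply dvd_ncard_of_orbits (S := S) (s ^ e) _ _ rfl
    · rintro g b ⟨hb, hb'⟩
      refine ⟨hB _ (g : H).2 (hα' g) b hb, ?_⟩
      intro h
      apply hb'
      have h2 : ((g : H) : G) • b = ((g : H) : G) • α := by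
        rw [hα' g]; exact h
      exact smul_left_cancel _ h2
    · rintro b ⟨hb, hb'⟩
      have hne : α ≠ b := fun h => hb' h.symm
      rw [← MulAction.index_stabilizer]
      have hle : stabilizer S b ≤ stabilizer S (c α b) := by
        intro g hg
        have hg' : ((g : H) : G) • b = b := hg
        show ((g : H) : G) • c α b = c α b
        rw [← hc _ _ _ hne, hα' g, hg']
      refine dvd_trans ?_ (index_dvd_of_le hle)
      haveI : IsPretransitive H C := ⟨fun x y => by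
        obtain ⟨h, hh, hxy⟩ := hH x y
        exact ⟨⟨h, hh⟩, hxy⟩⟩
      have hidx : (stabilizer H (c α b)).index = Nat.card C :=
        MulAction.index_stabilizer_of_transitive H (c α b)
      have hle2 : (stabilizer S (c α b)).map (S : Subgroup H).subtype ≤ stabilizer H (c α b) := by
        rintro _ ⟨g, hg, rfl⟩
        exact hg
      have h3 := index_dvd_of_le hle2
      rw [hidx, index_map_subtype] at h3
      have h4 : s ^ e ∣ (stabilizer S (c α b)).index * (S : Subgroup H).index := dvd_trans hq h3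
      have h5 : Nat.Coprime (s ^ e) (S : Subgroup H).index :=
        Nat.Coprime.pow_left _ ((Nat.Prime.coprime_iff_not_dvd hs.out).2 S.not_dvd_index)
      exact h5.dvd_of_dvd_mul_right h4
  have h2 := Set.ncard_sdiff_singleton_add_one hαB
  rw [← h2]
  obtain ⟨t, ht⟩ := h1
  rw [ht]
  simp [Nat.ModEq]

/-- Frattini argument inside a subgroup `H`. -/
theorem frattini (r : ℕ) [Fact r.Prime] (M H Q : Subgroup G) [M.Normal] (hQ : IsPGroup r Q)
    (hQM : Q ≤ M) (hQH : Q ≤ H) :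
    ∃ Q' : Subgroup G, Q ≤ Q' ∧ Q' ≤ M ∧ Q' ≤ H ∧
      Nat.card Q' = r ^ (Nat.card (M ⊓ H : Subgroup G)).factorization r ∧
      ∀ h ∈ H, ∃ m ∈ M, m ∈ H ∧ m⁻¹ * h ∈ normalizer (Q' : Set G) := by
  let N : Subgroup H := M.subgroupOf H
  have hQ1 : IsPGroup r ((Q.subgroupOf H).subgroupOf N) :=
    (hQ.comap_subtype).comap_subtype
  obtain ⟨P, hP⟩ := hQ1.exists_le_sylow
  have hF := Sylow.normalizer_sup_eq_top P
  refine ⟨((P : Subgroup N).map N.subtype).map H.subtype, ?_, ?_, ?_, ?_, ?_⟩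
  · intro q hq
    exact ⟨⟨q, hQH hq⟩, ⟨⟨⟨q, hQH hq⟩, hQM hq⟩, hP hq, rfl⟩, rfl⟩
  · rintro _ ⟨_, ⟨x, _, rfl⟩, rfl⟩
    exact x.2
  · rintro _ ⟨x, _, rfl⟩
    exact x.2
  · rw [Subgroup.card_map_of_injective H.subtype_injective,
      Subgroup.card_map_of_injective N.subtype_injective, P.card_eq_multiplicity]
    congr 2
    rw [← Subgroup.subgroupOf_map_subtype, Subgroup.card_map_of_injective H.subtype_injective]
  · intro h hh
    have h1 : (⟨h, hh⟩ : H) ∈ N ⊔ normalizer (((P : Subgroup N).map N.subtype : Subgroup H) : Set H) := by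
      rw [sup_comm, hF]; trivial
    rw [← SetLike.mem_coe, Subgroup.normal_mul] at h1
    obtain ⟨m, hm, y, hy, hmy⟩ := h1
    refine ⟨m, hm, m.2, ?_⟩
    have h2 : (m : G)⁻¹ * h = (y : G) := by
      have : (m : G) * y = h := congrArg Subtype.val hmy
      rw [← this]; simp
    rw [h2]
    have h3 := Subgroup.le_normalizer_map (H := (P : Subgroup N).map N.subtype) H.subtype
    exact h3 ⟨y, hy, rfl⟩

theorem card_inf_stab (Q : Subgroup G) (α : Ω) :
    Nat.card (Q ⊓ stabilizer G α : Subgroup G) * (orbit Q α).ncard = Nat.card Q := by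
  rw [← MulAction.index_stabilizer]
  have : Nat.card (Q ⊓ stabilizer G α : Subgroup G) = Nat.card (stabilizer Q α) := by
    rw [inf_comm, ← Subgroup.subgroupOf_map_subtype,
      Subgroup.card_map_of_injective Q.subtype_injective]
    rfl
  rw [this, Subgroup.card_mul_index]

theorem conj_card (Q : Subgroup G) (h : G) (hh : h ∈ normalizer (Q : Set G)) (β : Ω) :
    Nat.card (Q ⊓ stabilizer G (h • β) : Subgroup G) = Nat.card (Q ⊓ stabilizer G β : Subgroup G) := by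
  symm
  refine Nat.card_congr ⟨fun x => ⟨h * x * h⁻¹, (hh x).1 x.2.1, ?_⟩,
    fun x => ⟨h⁻¹ * x * h, ?_, ?_⟩, ?_, ?_⟩
  · have : (x : G) • β = β := x.2.2
    show (h * x * h⁻¹) • h • β = h • β
    simp [mul_smul, this]
  · apply (hh _).2
    have := x.2.1
    simpa [mul_assoc] using this
  · have : (x : G) • h • β = h • β := x.2.2
    show (h⁻¹ * x * h) • β = β
    simp [mul_smul, this]
  · intro x; ext; simp [mul_assoc]
  · intro x; ext; simp [mul_assoc]

theorem main_pp (c : Ω → Ω → C) (hc : ∀ (g : G) (a b : Ω), a ≠ b → c (g • a) (g • b) = g • c a b)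
    (hG : ∀ x y : C, ∃ g : G, g • x = y) (M : Subgroup G) [M.Normal]
    (hMC : ∀ m ∈ M, ∀ x : C, m • x = x) (hM : ∀ a b : Ω, ∃ m ∈ M, m • a = b) (α₀ : Ω)
    (r : ℕ) [hr : Fact r.Prime] (s e : ℕ) [hs : Fact s.Prime] (he : 0 < e)
    (hq : s ^ e ∣ Nat.card C) :
    r ^ (Nat.card Ω).factorization r ≡ 1 [MOD s ^ e] := by
  classical
  have hq1 : ∀ x : ℕ, x ≡ 1 [MOD s ^ e] → ¬ s ∣ x := by
    intro x hx hd
    have h1 : x ≡ 1 [MOD s] := hx.of_dvd (dvd_pow_self s he.ne')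
    have h2 : x ≡ 0 [MOD s] := (Nat.modEq_zero_iff_dvd).2 hd
    have h3 : s ∣ 1 := (Nat.modEq_zero_iff_dvd).1 (h1.symm.trans h2)
    exact hs.out.one_lt.ne' (Nat.dvd_one.1 h3)
  set u := Nat.card (M ⊓ stabilizer G α₀ : Subgroup G) with hu
  have hMcard : ∀ β : Ω, Nat.card (M ⊓ stabilizer G β : Subgroup G) = u := by
    intro β
    obtain ⟨m, hm, rfl⟩ := hM α₀ β
    exact conj_card M m (Subgroup.le_normalizer hm) α₀
  have hmu : u * Nat.card Ω = Nat.card M := by
    rw [← card_inf_stab M α₀]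
    congr 1
    have : orbit M α₀ = Set.univ := by
      ext b
      simp only [Set.mem_univ, iff_true]
      obtain ⟨m, hm, h⟩ := hM α₀ b
      exact ⟨⟨m, hm⟩, h⟩
    rw [this, Set.ncard_univ]
  set μ := r ^ u.factorization r with hμ
  have hu0 : u ≠ 0 := Nat.card_pos.ne'
  have hpdvd : ∀ (Q : Subgroup G), Q ≤ M → IsPGroup r Q → ∀ β : Ω,
      Nat.card (Q ⊓ stabilizer G β : Subgroup G) ∣ μ := by
    intro Q hQM hQ β
    obtain ⟨j, hj⟩ := (IsPGroup.iff_card).1 (hQ.to_inf_left (K := stabilizer G β))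
    have h1 : Nat.card (Q ⊓ stabilizer G β : Subgroup G) ∣ u := by
      rw [← hMcard β]
      exact Subgroup.card_dvd_of_le (inf_le_inf_right _ hQM)
    rw [hj] at h1 ⊢
    exact pow_dvd_pow r ((hr.out.pow_dvd_iff_le_factorization hu0).1 h1)
  let Ω1 : Subgroup G → Set Ω := fun Q => {β | μ ∣ Nat.card (Q ⊓ stabilizer G β : Subgroup G)}
  have hΩ1inv : ∀ (Q : Subgroup G), ∀ h ∈ normalizer (Q : Set G), ∀ b ∈ Ω1 Q, h • b ∈ Ω1 Q := by
    intro Q h hh b hb
    show μ ∣ _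
    rw [conj_card Q h hh b]
    exact hb
  let P : Subgroup G → Prop := fun Q => Q ≤ M ∧ IsPGroup r Q ∧
    (∀ x y : C, ∃ h ∈ normalizer (Q : Set G), h • x = y) ∧ ¬ s ∣ (Ω1 Q).ncard ∧
    ∃ t, Nat.card Q = μ * t ∧ t ≡ 1 [MOD s ^ e]
  have step : ∀ (H Q0 : Subgroup G) (A : Set Ω), (∀ x y : C, ∃ h ∈ H, h • x = y) →
      IsPGroup r Q0 → Q0 ≤ M → Q0 ≤ H → (∀ h ∈ H, ∀ a ∈ A, h • a ∈ A) → ¬ s ∣ A.ncard →
      (∀ Q' : Subgroup G, Q0 ≤ Q' → Q' ≤ H →
        Nat.card Q' = r ^ (Nat.card (M ⊓ H : Subgroup G)).factorization r → A ⊆ Ω1 Q') →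
      ∃ Q', P Q' ∧ Nat.card Q' = r ^ (Nat.card (M ⊓ H : Subgroup G)).factorization r := by
    intro H Q0 A hH hQ0 hQ0M hQ0H hA hsA hAΩ
    obtain ⟨Q', h1, h2, h3, h4, h5⟩ := frattini r M H Q0 hQ0 hQ0M hQ0H
    have hQ' : IsPGroup r Q' := IsPGroup.of_card h4
    have hH' : ∀ x y : C, ∃ h ∈ H ⊓ normalizer (Q' : Set G), h • x = y := by
      intro x y
      obtain ⟨h, hh, hxy⟩ := hH x y
      obtain ⟨m, hm, hmH, hmn⟩ := h5 h hh
      refine ⟨m⁻¹ * h, ⟨H.mul_mem (H.inv_mem hmH) hh, hmn⟩, ?_⟩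
      rw [mul_smul, hxy, hMC _ (M.inv_mem hm)]
    obtain ⟨α, hαA, hα⟩ := keyA c hc s e hq (H ⊓ normalizer (Q' : Set G)) hH' A
      (fun h hh a ha => hA h hh.1 a ha) hsA
    have hα1 : α ∈ Ω1 Q' := hAΩ Q' h1 h3 h4 hαA
    refine ⟨Q', ⟨h2, hQ', ?_, ?_, ?_⟩, h4⟩
    · intro x y
      obtain ⟨h, hh, hxy⟩ := hH' x y
      exact ⟨h, hh.2, hxy⟩
    · exact hq1 _ (hα _ hα1 (fun h hh _ b hb => hΩ1inv Q' h hh.2 b hb))
    · refine ⟨(orbit Q' α).ncard, ?_, ?_⟩
      · rw [← card_inf_stab Q' α, Nat.dvd_antisymm (hpdvd Q' h2 hQ' α) hα1]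
      · apply hα _ (mem_orbit_self α)
        rintro h hh hhα _ ⟨q, rfl⟩
        refine ⟨⟨h * q * h⁻¹, (hh.2 q).1 q.2⟩, ?_⟩
        show (h * q * h⁻¹) • α = h • (q : G) • α
        have : h⁻¹ • α = α := by rw [inv_smul_eq_iff, hhα]
        simp [mul_smul, this]
  have base : ∃ Q, P Q := by
    have b1 : ∀ x y : C, ∃ h ∈ stabilizer G α₀, h • x = y := by
      intro x y
      obtain ⟨g, hg⟩ := hG x y
      obtain ⟨m, hm, hmg⟩ := hM (g • α₀) α₀
      refine ⟨m * g, ?_, ?_⟩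
      · show (m * g) • α₀ = α₀
        rw [mul_smul, hmg]
      · rw [mul_smul, hg, hMC m hm]
    have b2 : ∀ h ∈ stabilizer G α₀, ∀ a ∈ ({α₀} : Set Ω), h • a ∈ ({α₀} : Set Ω) := by
      intro h hh a ha
      rw [Set.mem_singleton_iff] at ha ⊢
      rw [ha]; exact hh
    have b3 : ¬ s ∣ ({α₀} : Set Ω).ncard := by
      rw [Set.ncard_singleton]
      exact fun h => hs.out.one_lt.ne' (Nat.dvd_one.1 h)
    obtain ⟨Q', h, _⟩ := step (stabilizer G α₀) ⊥ {α₀} b1 IsPGroup.of_bot bot_le bot_le b2 b3 (by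
      intro Q' _ h3 h4 a ha
      rw [Set.mem_singleton_iff] at ha
      show μ ∣ _
      rw [ha, inf_of_le_left h3, h4])
    exact ⟨Q', h⟩
  obtain ⟨Q, hQ, hmax⟩ := Set.Finite.exists_maximalFor (fun Q : Subgroup G => Nat.card Q)
    {Q | P Q} (Set.toFinite _) base
  obtain ⟨hQM, hQp, hQC, hQs, t, ht, ht1⟩ := hQ
  obtain ⟨j, hj⟩ := (IsPGroup.iff_card).1 hQp
  have hM0 : Nat.card M ≠ 0 := Nat.card_pos.ne'
  have hjle : j ≤ (Nat.card M).factorization r := by
    rw [← hr.out.pow_dvd_iff_le_factorization hM0, ← hj]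
    exact Subgroup.card_dvd_of_le hQM
  have hjeq : j = (Nat.card M).factorization r := by
    by_contra hne
    have hlt : j + 1 ≤ (Nat.card M).factorization r := by omega
    have hd : r ^ (j + 1) ∣ Nat.card M := (hr.out.pow_dvd_iff_le_factorization hM0).2 hlt
    have hcard : Nat.card (Q.subgroupOf M) = r ^ j := by
      rw [← hj, ← Subgroup.card_map_of_injective M.subtype_injective,
        Subgroup.subgroupOf_map_subtype, inf_of_le_left hQM]
    have hd2 := Sylow.prime_pow_dvd_card_normalizer hd hcard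
    have hd3 : r ^ (j + 1) ∣ Nat.card (M ⊓ normalizer (Q : Set G) : Subgroup G) := by
      rw [← Subgroup.subgroupOf_normalizer_eq hQM] at hd2
      rw [inf_comm, ← Subgroup.subgroupOf_map_subtype,
        Subgroup.card_map_of_injective M.subtype_injective]
      exact hd2
    obtain ⟨Q', hQ', hc'⟩ := step (normalizer (Q : Set G)) Q (Ω1 Q) hQC hQp hQM
      Subgroup.le_normalizer (hΩ1inv Q) hQs (by
        intro Q' h1 _ _ a ha
        exact dvd_trans ha (Subgroup.card_dvd_of_le (inf_le_inf_right _ h1)))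
    have hle : j + 1 ≤ (Nat.card (M ⊓ normalizer (Q : Set G) : Subgroup G)).factorization r :=
      (hr.out.pow_dvd_iff_le_factorization Nat.card_pos.ne').1 hd3
    have h6 : r ^ (j + 1) ≤ Nat.card Q' := by
      rw [hc']; exact Nat.pow_le_pow_right hr.out.pos hle
    have h7 : r ^ j < r ^ (j + 1) := Nat.pow_lt_pow_right hr.out.one_lt (by omega)
    have h8 := hmax hQ' (by show Nat.card Q ≤ Nat.card Q'; omega)
    simp only at h8
    omega
  haveI : Nonempty Ω := ⟨α₀⟩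
  have hn0 : Nat.card Ω ≠ 0 := Nat.card_pos.ne'
  rw [← hmu, Nat.factorization_mul hu0 hn0, Finsupp.add_apply] at hjeq
  rw [hj, hjeq, pow_add] at ht
  have hμ0 : 0 < μ := pow_pos hr.out.pos _
  have := Nat.eq_of_mul_eq_mul_left hμ0 ht
  rw [this]; exact ht1

theorem main (c : Ω → Ω → C) (hc : ∀ (g : G) (a b : Ω), a ≠ b → c (g • a) (g • b) = g • c a b)
    (hG : ∀ x y : C, ∃ g : G, g • x = y) (M : Subgroup G) [M.Normal]
    (hMC : ∀ m ∈ M, ∀ x : C, m • x = x) (hM : ∀ a b : Ω, ∃ m ∈ M, m • a = b) (α₀ : Ω)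
    (r : ℕ) (hr : r.Prime) :
    r ^ (Nat.card Ω).factorization r ≡ 1 [MOD Nat.card C] := by
  haveI := Fact.mk hr
  have h1 : 1 ≤ r ^ (Nat.card Ω).factorization r := Nat.one_le_pow _ _ hr.pos
  apply Nat.ModEq.symm
  rw [Nat.modEq_iff_dvd' h1]
  apply (Nat.dvd_iff_prime_pow_dvd_dvd _ _).2
  intro s e hs hse
  rcases Nat.eq_zero_or_pos e with rfl | he
  · simp
  · haveI := Fact.mk hs
    rw [← Nat.modEq_iff_dvd' h1]
    exact (main_pp c hc hG M hMC hM α₀ r s e he hse).symm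

end Pool.Agent.H67.ArcPart
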