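import Pool.Agent.H67.SLn

namespace Pool.Agent.H67.Beta

open Matrix

instance : Fact (Nat.Prime 3) := ⟨by norm_num⟩

abbrev F := ZMod 3
abbrev SL4 := SpecialLinearGroup (Fin 4) F
abbrev S := ProjectiveSpecialLinearGroup (Fin 4) F

def π : SL4 →* S := QuotientGroup.mk' _

theorem π_surj : Function.Surjective π := QuotientGroup.mk'_surjective _

theorem π_eq_one (a : SL4) : π a = 1 ↔ a ∈ Subgroup.center SL4 := QuotientGroup.eq_one_iff a

instance : Finite S := Finite.of_surjective π π_surj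

instance : IsSimpleGroup S where
  eq_bot_or_eq_top_of_normal N hN := by
    rcases SLn.quasi (by simp) (N.comap π) with h | h
    · right
      rw [← Subgroup.map_comap_eq_self_of_surjective π_surj N, h,
        Subgroup.map_top_of_surjective _ π_surj]
    · left
      rw [eq_bot_iff]
      intro n hn
      obtain ⟨a, rfl⟩ := π_surj n
      exact (π_eq_one a).2 (h hn)

theorem S_perfect : commutator S = ⊤ := by
  have := map_commutator_eq SL4 π
  rw [SLn.perfect (by simp), MonoidHom.range_eq_top.2 π_surj,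
    Subgroup.map_top_of_surjective _ π_surj] at this
  exact this.symm

theorem S_noncomm : ∃ a b : S, a * b ≠ b * a := by
  by_contra h
  push Not at h
  have h1 : commutator S = ⊥ := by
    rw [commutator_def, Subgroup.commutator_eq_bot_iff_le_centralizer]
    intro a _ b _
    exact h b a
  rw [S_perfect] at h1
  exact top_ne_bot h1

theorem S_center : Subgroup.center S = ⊥ := by
  rcases (inferInstance : (Subgroup.center S).Normal).eq_bot_or_eq_top with h | h
  · exact h
  · obtain ⟨a, b, hab⟩ := S_noncomm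
    have : b ∈ Subgroup.center S := by rw [h]; trivial
    exact absurd (Subgroup.mem_center_iff.1 this a) hab

def Φ : SL4 →* MulAut S := MulAut.conj.comp π

theorem Φ_eq_one (a : SL4) (h : Φ a = 1) : ∀ i j, i ≠ j → a.1 i j = 0 := by
  have h1 : π a ∈ Subgroup.center S := by
    rw [Subgroup.mem_center_iff]
    intro b
    have h2 : π a * b * (π a)⁻¹ = b := DFunLike.congr_fun h b
    rw [mul_inv_eq_iff_eq_mul] at h2
    exact h2.symm
  rw [S_center, Subgroup.mem_bot, π_eq_one, Matrix.SpecialLinearGroup.mem_center_iff] at h1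
  obtain ⟨r, _, hr⟩ := h1
  intro i j hij
  rw [← hr, Matrix.scalar_apply, Matrix.diagonal_apply_ne _ hij]

def t : SL4 := ⟨!![1, 1, 0, 0; 0, 1, 0, 0; 0, 0, 1, 0; 0, 0, 0, 1], by decide +kernel⟩
def t1 : SL4 := ⟨!![1, 0, 0, 0; 0, 1, 1, 0; 0, 0, 1, 0; 0, 0, 0, 1], by decide +kernel⟩
def t2 : SL4 := ⟨!![1, 0, 0, 0; 0, 1, 0, 0; 0, 0, 1, 0; 1, 0, 0, 1], by decide +kernel⟩
def t3 : SL4 := ⟨!![1, 0, 0, 0; 0, 1, 0, 0; 0, 0, 1, 2; 0, 0, 0, 1], by decide +kernel⟩
def s1 : SL4 := ⟨!![0, 0, 1, 0; 1, 0, 0, 0; 0, 1, 0, 0; 0, 0, 0, 1], by decide +kernel⟩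
def s2 : SL4 := ⟨!![0, 1, 0, 0; 0, 0, 0, 1; 0, 0, 1, 0; 1, 0, 0, 0], by decide +kernel⟩
def s3 : SL4 := ⟨!![0, 0, 2, 0; 0, 0, 0, 1; 2, 0, 0, 0; 0, 1, 0, 0], by decide +kernel⟩
def w : SL4 := ⟨!![1, 1, 1, 2; 0, 1, 1, 2; 0, 0, 1, 2; 1, 0, 0, 1], by decide +kernel⟩
def u : SL4 := ⟨!![0, 2, 0, 2; 2, 1, 2, 0; 2, 0, 1, 1; 2, 1, 1, 0], by decide +kernel⟩
def u2 : SL4 := ⟨!![2, 1, 0, 0; 0, 2, 1, 0; 1, 2, 2, 2; 1, 2, 0, 2], by decide +kernel⟩
def u4 : SL4 := ⟨!![1, 1, 1, 0; 1, 0, 1, 2; 0, 1, 0, 2; 1, 0, 2, 1], by decide +kernel⟩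

theorem c1 : s1 * t * s1⁻¹ = t1 := by
  rw [mul_inv_eq_iff_eq_mul]; apply Subtype.ext; decide +kernel
theorem c2 : s2 * t * s2⁻¹ = t2 := by
  rw [mul_inv_eq_iff_eq_mul]; apply Subtype.ext; decide +kernel
theorem c3 : s3 * t * s3⁻¹ = t3 := by
  rw [mul_inv_eq_iff_eq_mul]; apply Subtype.ext; decide +kernel
theorem hw : t * t1 * t2 * t3 = w := by apply Subtype.ext; decide +kernel
theorem hu : w * w = u := by apply Subtype.ext; decide +kernel
theorem hu2 : u * u = u2 := by apply Subtype.ext; decide +kernel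
theorem hu4 : u2 * u2 = u4 := by apply Subtype.ext; decide +kernel
theorem hu5 : u4 * u = 1 := by apply Subtype.ext; decide +kernel

theorem u_pow : u ^ 5 = 1 := by
  rw [← hu5, ← hu4, ← hu2]
  simp only [pow_succ, pow_zero, one_mul, mul_assoc]

instance : Fact (Nat.Prime 5) := ⟨by norm_num⟩

theorem ord_u : orderOf (Φ u) = 5 := by
  apply orderOf_eq_prime
  · rw [← map_pow, u_pow, map_one]
  · intro h
    have := Φ_eq_one u h 0 1 (by decide)
    revert this
    decide

theorem ord_x : orderOf (Φ t) = 3 := by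
  apply orderOf_eq_prime
  · have : t ^ 3 = 1 := by
      simp only [pow_succ, pow_zero, one_mul]
      apply Subtype.ext; decide +kernel
    rw [← map_pow, this, map_one]
  · intro h
    have := Φ_eq_one t h 0 1 (by decide)
    revert this
    decide

theorem five_dvd : 5 ∣ Nat.card S := by
  have h1 : orderOf (Φ u) ∣ orderOf (π u) := orderOf_map_dvd MulAut.conj (π u)
  rw [ord_u] at h1
  exact h1.trans (orderOf_dvd_natCard _)

theorem amb (g : MulAut S) : g ∈ (MulAut.conj : S →* MulAut S).range ⊔ Subgroup.zpowers (Φ t) ↔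
    ∃ s, Φ s = g := by
  rw [sup_eq_left.2 (by rw [Subgroup.zpowers_le]; exact ⟨_, rfl⟩)]
  constructor
  · rintro ⟨a, rfl⟩
    obtain ⟨s, rfl⟩ := π_surj a
    exact ⟨s, rfl⟩
  · rintro ⟨s, rfl⟩
    exact ⟨_, rfl⟩

theorem four : ∃ g : Fin 4 → MulAut S,
    (∀ i, g i ∈ (MulAut.conj : S →* MulAut S).range ⊔ Subgroup.zpowers (Φ t)) ∧
    5 ∣ Nat.card (Subgroup.closure (Set.range fun i => g i * Φ t * (g i)⁻¹)) := by
  refine ⟨fun i => Φ (![1, s1, s2, s3] i), fun i => (amb _).2 ⟨_, rfl⟩, ?_⟩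
  rw [← ord_u]
  apply Subgroup.orderOf_dvd_natCard
  have h : Φ w ∈ Subgroup.closure (Set.range fun i : Fin 4 =>
      Φ (![1, s1, s2, s3] i) * Φ t * (Φ (![1, s1, s2, s3] i))⁻¹) := by
    rw [← hw, map_mul, map_mul, map_mul, ← c1, ← c2, ← c3]
    refine mul_mem (mul_mem (mul_mem ?_ ?_) ?_) ?_
    · exact Subgroup.subset_closure ⟨0, by simp⟩
    · exact Subgroup.subset_closure ⟨1, by simp⟩
    · exact Subgroup.subset_closure ⟨2, by simp⟩
    · exact Subgroup.subset_closure ⟨3, by simp⟩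
  rw [← hu, map_mul]
  exact mul_mem h h

theorem t_fix (v : Fin 4 → F) (h : v 1 = 0) : t • v = v := by
  rw [Matrix.SpecialLinearGroup.smul_def]
  funext i
  show (t.1 *ᵥ v) i = v i
  fin_cases i <;> simp [t, Matrix.mulVec, dotProduct, Fin.sum_univ_four, h]

theorem no_five (h : SL4) (v : Fin 4 → F) (hv : v ≠ 0) (hh : h • v = v) : orderOf h ≠ 5 := by
  intro h5
  have hp : IsPGroup 5 (Subgroup.zpowers h) :=
    IsPGroup.of_card (n := 1) (by rw [Nat.card_zpowers, h5, pow_one])
  have h1 := hp.card_modEq_card_fixedPoints (Fin 4 → F)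
  let U : Submodule F (Fin 4 → F) :=
    { carrier := {x | h • x = x}
      add_mem' := fun {a b} (ha : h • a = a) (hb : h • b = b) => by
        show h • (a + b) = a + b
        rw [smul_add, ha, hb]
      zero_mem' := smul_zero h
      smul_mem' := fun c a (ha : h • a = a) => by
        show h • (c • a) = c • a
        rw [smul_comm, ha] }
  have h2 : MulAction.fixedPoints (Subgroup.zpowers h) (Fin 4 → F) = U := by
    ext x
    constructor
    · intro hx
      exact hx ⟨h, Subgroup.mem_zpowers h⟩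
    · intro hx k
      exact (Subgroup.zpowers_le.2 (show h ∈ MulAction.stabilizer SL4 x from hx)) k.2
  have h3 : Nat.card U = 3 ^ Module.finrank F U := by
    rw [Module.natCard_eq_pow_finrank (K := F)]
    simp
  have h4 : Nat.card (Fin 4 → F) = 81 := by simp
  rw [h2, h4] at h1
  have h1' : 81 ≡ 3 ^ Module.finrank F U [MOD 5] := h3 ▸ h1
  have h6 : Module.finrank F U ≤ 4 := by simpa using U.finrank_le
  have h7 : Module.finrank F U ≠ 0 := by
    rw [Ne, Submodule.finrank_eq_zero]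
    intro hU
    have : v ∈ U := hh
    rw [hU] at this
    exact hv this
  have h8 : Module.finrank F U = 4 := by
    generalize Module.finrank F U = k at *
    interval_cases k <;> first | rfl | (exfalso; revert h1'; decide) | exact absurd rfl h7
  have h9 : U = ⊤ := Submodule.eq_top_of_finrank_eq (by simpa using h8)
  have h10 : h = 1 := by
    apply Subtype.ext
    refine Matrix.ext_iff_smul.2 fun x => ?_
    have : x ∈ U := by rw [h9]; trivial
    rw [Matrix.SpecialLinearGroup.coe_one, one_smul]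
    exact this
  rw [h10, orderOf_one] at h5
  omega

theorem low (m : ℕ) (g : Fin m → MulAut S)
    (hg : ∀ i, g i ∈ (MulAut.conj : S →* MulAut S).range ⊔ Subgroup.zpowers (Φ t))
    (h5 : 5 ∣ Nat.card (Subgroup.closure (Set.range fun i => g i * Φ t * (g i)⁻¹))) : 4 ≤ m := by
  by_contra hm
  choose s hs using fun i => (amb _).1 (hg i)
  let f : (Fin 4 → F) →ₗ[F] (Fin m → F) :=
    { toFun := fun v i => ((s i)⁻¹ • v) 1
      map_add' := fun a b => by funext i; simp [smul_add]
      map_smul' := fun c a => by funext i; simp [smul_comm] }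
  have hk : LinearMap.ker f ≠ ⊥ := LinearMap.ker_ne_bot_of_finrank_lt (by simp; omega)
  obtain ⟨v, hv, hv0⟩ := Submodule.exists_mem_ne_zero_of_ne_bot hk
  have h1 : Subgroup.closure (Set.range fun i => g i * Φ t * (g i)⁻¹)
      ≤ (MulAction.stabilizer SL4 v).map Φ := by
    rw [Subgroup.closure_le]
    rintro _ ⟨i, rfl⟩
    refine ⟨s i * t * (s i)⁻¹, ?_, by simp [hs]⟩
    show (s i * t * (s i)⁻¹) • v = v
    rw [mul_smul, mul_smul, t_fix _ (congrFun hv i), smul_inv_smul]
  haveI : Finite (MulAut S) := Finite.of_injective (fun e : MulAut S => (e : S → S))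
    DFunLike.coe_injective
  have h2 : 5 ∣ Nat.card (MulAction.stabilizer SL4 v) :=
    (h5.trans (Subgroup.card_dvd_of_le h1)).trans (Subgroup.card_map_dvd _ _)
  obtain ⟨h, hh⟩ := exists_prime_orderOf_dvd_card' 5 h2
  exact no_five h.1 v hv0 h.2 (by rw [Subgroup.orderOf_coe, hh])

end Pool.Agent.H67.Beta
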