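import Mathlib

namespace Pool.Agent.H67.Chiral

open Matrix

variable {F : Type} [Field F]

theorem core (φ ψ : F →+* F) (hc : ∀ z, ψ (φ z) = φ (ψ z)) (h2 : (2 : F) ≠ 0) (m1 m2 y a : F)
    (e1 : ψ m1 = m1) (e2 : φ m2 = m2) (n1 : φ m1 ≠ m1) (n2 : ψ m2 ≠ m2) (hy : ψ y = y)
    (ha : φ a = a) (h : (y + a) ^ 2 - (y + a) + m2 + m1 = 0) : False := by
  have h1 := congrArg φ h
  have h3 := congrArg ψ h
  simp only [map_add, map_sub, map_pow, map_zero, ha, e2] at h1
  have h4 := congrArg ψ h1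
  simp only [map_add, map_sub, map_pow, map_zero, hy, e1, hc] at h3 h4
  have h5 : 2 * ((y - φ y) * (a - ψ a)) = 0 := by linear_combination h - h1 - h3 + h4
  rcases mul_eq_zero.1 ((mul_eq_zero.1 h5).resolve_left h2) with h6 | h6
  · rw [← sub_eq_zero.1 h6] at h1
    exact n1 (by linear_combination h1 - h)
  · rw [← sub_eq_zero.1 h6] at h3
    exact n2 (by linear_combination h3 - h)

theorem core2 (φ ψ : F →+* F) (hc : ∀ z, ψ (φ z) = φ (ψ z)) (h2 : (2 : F) ≠ 0) (w1 w2 τ a b c d : F)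
    (z1 : w1 ≠ 0) (z2 : w2 ≠ 0)
    (e1 : ψ w1 = w1) (e2 : φ w2 = w2) (n1 : φ (w1 ^ 2) ≠ w1 ^ 2) (n2 : ψ (w2 ^ 2) ≠ w2 ^ 2)
    (hτ : τ ^ 2 - w1 * w2 * τ + w1 ^ 2 + w2 ^ 2 = 0)
    (ha : φ a = a) (hb : φ b = b) (hcc : φ c = c) (hd : φ d = d) (t0 u k1 k2 : F)
    (f0 : ψ t0 = t0) (fu : ψ u = u) (f1 : ψ k1 = k1) (f2 : ψ k2 = k2)
    (d0 : t0 = 2 * a + 2 * b + c * w2) (du : u = (c + d) * w2) (d1 : k1 = b * w1 + d * τ)
    (d2 : k2 = a * w1 + c * τ) : c = 0 ∧ d = 0 := by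
  have key : ∀ y a' : F, ψ y = y → φ a' = a' → τ / (w1 * w2) = y + a' → False := by
    intro y a' hy ha' h
    refine core φ ψ hc h2 (w1 ^ 2)⁻¹ (w2 ^ 2)⁻¹ y a' (by simp [e1]) (by simp [e2]) ?_ ?_ hy ha' ?_
    · rw [map_inv₀]; exact fun h => n1 (inv_injective h)
    · rw [map_inv₀]; exact fun h => n2 (inv_injective h)
    · rw [← h]
      field_simp
      linear_combination hτ
  have gu : φ u = u := by rw [du]; simp [hcc, hd, e2]
  by_cases hu : u = 0
  · have hcd : d = -c := by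
      rw [hu] at du
      linear_combination (mul_eq_zero.1 du.symm).resolve_right z2
    by_cases h0 : c = 0
    · exact ⟨h0, by rw [hcd, h0, neg_zero]⟩
    exfalso
    have hv : c * w2 = t0 - 2 * ((k1 + k2) / w1) := by
      rw [d0, d1, d2, hcd]; field_simp; ring
    have fv : ψ (c * w2) = c * w2 := by rw [hv]; simp [f0, f1, f2, e1, map_ofNat]
    refine key (k2 / (w1 * (c * w2))) (-(a / (c * w2))) (by rw [map_div₀, map_mul, fv, f2, e1])
      (by simp [ha, hcc, e2]) ?_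
    rw [d2]; field_simp; ring
  · exfalso
    refine key (((k1 + k2) / w1 - t0 / 2) / u) (c * w2 / (2 * u))
      (by simp [f0, f1, f2, e1, fu, map_ofNat]) (by simp [hcc, e2, gu, map_ofNat]) ?_
    have hcd : c + d ≠ 0 := by rintro h; rw [h, zero_mul] at du; exact hu du
    rw [d0, d1, d2, du]; field_simp; ring

theorem fix_gcd (p : ℕ) [Fact p.Prime] [CharP F p] (m n : ℕ) (h : Nat.Coprime m n) (z : F)
    (h1 : iterateFrobenius F p m z = z) (h2 : iterateFrobenius F p n z = z) : z ^ p = z := by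
  have a1 : Function.IsPeriodicPt (frobenius F p) m z := by
    rw [Function.IsPeriodicPt, Function.IsFixedPt, ← coe_iterateFrobenius]; exact h1
  have a2 : Function.IsPeriodicPt (frobenius F p) n z := by
    rw [Function.IsPeriodicPt, Function.IsFixedPt, ← coe_iterateFrobenius]; exact h2
  have := a1.gcd a2
  rw [h] at this
  exact this

theorem omega_facts (p : ℕ) [Fact p.Prime] [CharP F p] (e f : ℕ) (he : 1 < e) (ho : Odd e)
    (h : Nat.Coprime e f) (j : F) (hj : IsPrimitiveRoot j (p ^ e - 1)) :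
    iterateFrobenius F p e (j + j⁻¹) = j + j⁻¹ ∧
      iterateFrobenius F p f ((j + j⁻¹) ^ 2) ≠ (j + j⁻¹) ^ 2 := by
  have hp : 1 < p := (Fact.out : p.Prime).one_lt
  have hpe : p < p ^ e := by
    calc p = p ^ 1 := (pow_one p).symm
      _ < p ^ e := Nat.pow_lt_pow_right hp he
  have hj0 : j ≠ 0 := hj.ne_zero (by omega)
  have h1 : iterateFrobenius F p e j = j := by
    rw [iterateFrobenius_def]
    have : p ^ e = (p ^ e - 1) + 1 := by omega
    rw [this, pow_succ, hj.pow_eq_one, one_mul]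
  refine ⟨by rw [map_add, map_inv₀, h1], fun h2 => ?_⟩
  set φ := iterateFrobenius F p f
  have h3 : φ (φ (j + j⁻¹)) = j + j⁻¹ := by
    rw [map_pow, sq_eq_sq_iff_eq_or_eq_neg] at h2
    rcases h2 with h2 | h2
    · rw [h2, h2]
    · rw [h2, map_neg, h2, neg_neg]
  have h4 : φ (φ j) = j ∨ φ (φ j) = j⁻¹ := by
    have hz : φ (φ j) ≠ 0 := by simpa using hj0
    rw [map_add, map_add, map_inv₀, map_inv₀] at h3
    have : (φ (φ j) - j) * (φ (φ j) - j⁻¹) = 0 := by
      have e1 := mul_inv_cancel₀ hz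
      have e2 := mul_inv_cancel₀ hj0
      linear_combination (φ (φ j)) * h3 - e1 + e2
    rcases mul_eq_zero.1 this with h5 | h5
    · exact Or.inl (sub_eq_zero.1 h5)
    · exact Or.inr (sub_eq_zero.1 h5)
  have h5 : φ (φ (φ (φ j))) = j := by
    rcases h4 with h4 | h4
    · rw [h4, h4]
    · rw [h4, map_inv₀, map_inv₀, h4, inv_inv]
  have h6 : iterateFrobenius F p (f + (f + (f + f))) j = j := by
    rw [iterateFrobenius_add, iterateFrobenius_add, iterateFrobenius_add]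
    exact h5
  have h7 : Nat.Coprime e (f + (f + (f + f))) := by
    rw [show f + (f + (f + f)) = 2 ^ 2 * f by ring]
    exact Nat.Coprime.mul_right (Nat.Coprime.pow_right _ (Nat.coprime_two_right.2 ho)) h
  have h8 := fix_gcd p _ _ h7 j h1 h6
  have h9 : j ^ (p - 1) = 1 := by
    apply mul_right_cancel₀ hj0
    rw [← pow_succ, one_mul, Nat.sub_add_cancel hp.le, h8]
  have := Nat.le_of_dvd (by omega) (hj.dvd_of_pow_eq_one _ h9)
  omega

def Q (φ : F →+* F) (S T X : Matrix (Fin 2) (Fin 2) F) : Prop :=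
  ∃ a b c d : F, φ a = a ∧ φ b = b ∧ φ c = c ∧ φ d = d ∧ X = a • 1 + b • S + c • T + d • (S * T)

theorem Q_closure (φ : F →+* F) (w : F) (hw : φ w = w) (S T : SpecialLinearGroup (Fin 2) F)
    (h1 : S.1 * S.1 = (2 : F) • S.1 - 1) (h2 : T.1 * T.1 = w • T.1 - 1)
    (h3 : T.1 * S.1 = (2 : F) • T.1 + w • S.1 - (2 * w) • 1 - S.1 * T.1)
    (X : SpecialLinearGroup (Fin 2) F) (hX : X ∈ Subgroup.closure {S, T}) : Q φ S.1 T.1 X.1 := by
  have q2 : φ 2 = 2 := map_ofNat φ 2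
  have hS : ∀ Y, Q φ S.1 T.1 Y → Q φ S.1 T.1 (S.1 * Y) := by
    rintro _ ⟨a, b, c, d, ha, hb, hc, hd, rfl⟩
    refine ⟨-b, a + 2 * b, -d, c + 2 * d, by simp [hb], by simp [ha, hb, q2], by simp [hd],
      by simp [hc, hd, q2], ?_⟩
    simp only [mul_add, mul_smul_comm, mul_one, ← mul_assoc, h1, sub_mul, smul_mul_assoc, one_mul]
    module
  have hT : ∀ Y, Q φ S.1 T.1 Y → Q φ S.1 T.1 (T.1 * Y) := by
    rintro _ ⟨a, b, c, d, ha, hb, hc, hd, rfl⟩
    refine ⟨-(2 * w * b) - c - 2 * d, w * b + d, a + 2 * b + w * c, -b,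
      by simp [hb, hc, hd, hw, q2], by simp [hb, hd, hw], by simp [ha, hb, hc, hw, q2],
      by simp [hb], ?_⟩
    have h4 : T.1 * (S.1 * T.1) = S.1 - (2 : F) • 1 := by
      rw [← mul_assoc, h3]
      simp only [sub_mul, add_mul, smul_mul_assoc, one_mul, mul_assoc, h2, mul_sub, mul_smul_comm,
        mul_one]
      module
    simp only [mul_add, mul_smul_comm, mul_one, h4, h2, h3]
    module
  have hlin : ∀ (t : F) Y Z, φ t = t → Q φ S.1 T.1 Y → Q φ S.1 T.1 Z → Q φ S.1 T.1 (t • Y - Z) := by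
    rintro t _ _ ht ⟨a, b, c, d, ha, hb, hc, hd, rfl⟩ ⟨a', b', c', d', ha', hb', hc', hd', rfl⟩
    refine ⟨t * a - a', t * b - b', t * c - c', t * d - d', by simp [*], by simp [*], by simp [*],
      by simp [*], ?_⟩
    module
  have inv : ∀ (U : SpecialLinearGroup (Fin 2) F) (t : F), U.1 * U.1 = t • U.1 - 1 →
      ∀ Y : SpecialLinearGroup (Fin 2) F, (U⁻¹ * Y).1 = t • Y.1 - U.1 * Y.1 := by
    intro U t hU Y
    have e : Y.1 = U.1 * (U⁻¹ * Y).1 := by
      rw [← Matrix.SpecialLinearGroup.coe_mul, mul_inv_cancel_left]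
    conv_rhs => rw [e, ← mul_assoc, hU, sub_mul, smul_mul_assoc, one_mul]
    abel
  induction hX using Subgroup.closure_induction_left with
  | one => exact ⟨1, 0, 0, 0, by simp, by simp, by simp, by simp, by simp⟩
  | mul_left x hx y _ ih =>
    rcases hx with rfl | rfl
    · exact hS _ ih
    · exact hT _ ih
  | inv_mul_cancel x hx y _ ih =>
    rcases hx with rfl | rfl
    · rw [inv _ _ h1]; exact hlin _ _ _ q2 ih (hS _ ih)
    · rw [inv _ _ h2]; exact hlin _ _ _ hw ih (hT _ ih)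

theorem R_closure (ψ : F →+* F) (S T : SpecialLinearGroup (Fin 2) F)
    (hS : ∀ i j, ψ (S.1 i j) = S.1 i j) (hT : ∀ i j, ψ (T.1 i j) = T.1 i j)
    (X : SpecialLinearGroup (Fin 2) F) (hX : X ∈ Subgroup.closure {S, T}) :
    ∀ i j, ψ (X.1 i j) = X.1 i j := by
  have : Subgroup.closure {S, T} ≤ (SpecialLinearGroup.map ψ).eqLocus (MonoidHom.id _) := by
    rw [Subgroup.closure_le]
    rintro x (rfl | rfl)
    · exact Subtype.ext (Matrix.ext hS)
    · exact Subtype.ext (Matrix.ext hT)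
  intro i j
  exact congrFun (congrFun (congrArg Subtype.val (this hX)) i) j

end Pool.Agent.H67.Chiral
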