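import Mathlib

/-! Products of anticommuting elements; a permanent identity. -/

namespace Pool.Agent.H67.Cliff

open Equiv Finset Polynomial

variable {A : Type*} [Ring A]

/-- ordered product -/
def P {n : ℕ} (g : Fin n → A) : A := (List.ofFn g).prod

theorem P_succ {n : ℕ} (g : Fin (n + 1) → A) : P g = g 0 * P fun k => g k.succ := by
  simp [P, List.ofFn_succ]

theorem P_succ' {n : ℕ} (g : Fin (n + 1) → A) :
    P g = P (fun k => g k.castSucc) * g (Fin.last n) := by
  unfold P
  rw [List.ofFn_succ', List.prod_concat]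

def Anti {ι : Type*} (g : ι → A) : Prop := ∀ i j, i ≠ j → g i * g j = -(g j * g i)

theorem Anti.comp {ι κ : Type*} {g : ι → A} (h : Anti g) {f : κ → ι} (hf : Function.Injective f) :
    Anti fun k => g (f k) := fun _ _ hij => h _ _ (hf.ne hij)

theorem move {n : ℕ} (a : A) (g : Fin n → A) (h : ∀ k, a * g k = -(g k * a)) :
    a * P g = (-1 : ℤ) ^ n • (P g * a) := by
  induction n with
  | zero => simp [P]
  | succ n ih =>
    rw [P_succ, ← mul_assoc, h, neg_mul, mul_assoc, ih _ fun k => h _, pow_succ,
      mul_smul_comm, mul_neg_one, neg_smul, mul_assoc]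

theorem swap_adj {n : ℕ} (i : Fin n) (g : Fin (n + 1) → A) (h : Anti g) :
    P (fun k => g (swap i.castSucc i.succ k)) = -P g := by
  induction n with
  | zero => exact i.elim0
  | succ n ih =>
    refine Fin.cases ?_ (fun i => ?_) i
    · rw [P_succ, P_succ, P_succ g, P_succ fun k => g k.succ, ← mul_assoc, ← mul_assoc,
        h 0 (Fin.succ 0) (Fin.succ_ne_zero 0).symm, neg_mul, neg_neg]
      have e : ∀ k : Fin n, swap (Fin.castSucc (0 : Fin (n + 1))) (Fin.succ 0) k.succ.succ =
          k.succ.succ := fun k => swap_apply_of_ne_of_ne (Fin.succ_ne_zero _)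
        ((Fin.succ_injective _).ne (Fin.succ_ne_zero _))
      simp only [e]
      simp
    · rw [P_succ, P_succ g, ← mul_neg, ← ih i _ (h.comp (Fin.succ_injective _))]
      have e : swap i.succ.castSucc i.succ.succ 0 = 0 := by
        rw [swap_apply_of_ne_of_ne]
        · rw [← Fin.succ_castSucc]; exact (Fin.succ_ne_zero _).symm
        · exact (Fin.succ_ne_zero _).symm
      have e' : ∀ k, swap i.succ.castSucc i.succ.succ k.succ = (swap i.castSucc i.succ k).succ :=
        fun k => by rw [← Fin.succ_castSucc, (Fin.succ_injective _).swap_apply]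
      simp only [e, e']

theorem perm {n : ℕ} (σ : Perm (Fin (n + 1))) : ∀ g : Fin (n + 1) → A, Anti g →
    P (fun k => g (σ k)) = (Perm.sign σ : ℤ) • P g := by
  have hσ : σ ∈ Submonoid.closure (Set.range fun i : Fin n => swap i.castSucc i.succ) := by
    rw [Perm.mclosure_swap_castSucc_succ]; trivial
  induction hσ using Submonoid.closure_induction with
  | mem x hx =>
    obtain ⟨i, rfl⟩ := hx
    intro g hg
    rw [swap_adj i g hg, Perm.sign_swap (Fin.castSucc_lt_succ).ne]
    simp
  | one => intro g _; simp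
  | mul x y _ _ hx hy =>
    intro g hg
    have := hy (fun k => g (x k)) (hg.comp x.injective)
    simp only [Perm.mul_apply]
    rw [this, hx g hg, smul_smul, map_mul, mul_comm]
    rfl

theorem sq {n : ℕ} (g : Fin n → A) (h : Anti g) (h1 : ∀ k, g k * g k = 1) :
    ∃ m : ℕ, P g * P g = (-1 : ℤ) ^ m • (1 : A) := by
  induction n with
  | zero => exact ⟨0, by simp [P]⟩
  | succ n ih =>
    obtain ⟨m, hm⟩ := ih _ (h.comp (Fin.succ_injective _)) fun k => h1 _
    have h2 := move (g 0) (fun k => g k.succ) fun k => h _ _ (Fin.succ_ne_zero _).symm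
    refine ⟨n + m, ?_⟩
    rw [P_succ]
    nth_rewrite 1 [h2]
    rw [smul_mul_assoc, mul_assoc, ← mul_assoc (g 0), h1, one_mul, hm, smul_smul, pow_add]

theorem omit_one {n : ℕ} (g : Fin (n + 1) → A) (h : Anti g) (i : Fin (n + 1)) :
    g i * P (fun k => g (i.succAbove k)) = (-1 : ℤ) ^ (i : ℕ) • P g := by
  have := perm i.cycleRange.symm g h
  rw [P_succ] at this
  simpa [Fin.cycleRange_symm_zero, Fin.cycleRange_symm_succ, Fin.sign_cycleRange] using this

theorem prod_e {F : Type*} [Field F] [Algebra F A] (p q : A) (h1 : p + q = 1) (hp : p * p = p)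
    (hq : q * q = q) (hpq : p * q = 0) (hqp : q * p = 0) {n : ℕ} (γ : Fin n → A)
    (α β : Fin n → F) (h2 : ∀ k, p * γ k = γ k * q) (h3 : ∀ k, q * γ k = γ k * p) :
    P (fun k => γ k * (α k • p + β k • q)) =
      P γ * ((∏ k : Fin n, if Even (n + k) then β k else α k) • p +
        (∏ k : Fin n, if Even (n + k) then α k else β k) • q) := by
  induction n with
  | zero => simp [P, h1]
  | succ n ih =>
    have e1 : ∀ (k : Fin n) (x y : F), (if Even (n + 1 + (k.castSucc : ℕ)) then x else y) =
        if Even (n + k) then y else x := by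
      intro k x y
      rw [Fin.val_castSucc, add_right_comm]
      by_cases h : Even (n + k) <;> simp [h, Nat.even_add_one]
    have e2 : ¬ Even (n + 1 + (Fin.last n : ℕ)) := by
      rw [Fin.val_last, Nat.not_even_iff_odd]; exact ⟨n, by ring⟩
    rw [P_succ', ih _ _ _ (fun k => h2 _) fun k => h3 _, P_succ' γ, Fin.prod_univ_castSucc,
      Fin.prod_univ_castSucc, if_neg e2, if_neg e2, mul_assoc, mul_assoc]
    congr 1
    simp only [e1, add_mul, mul_add, smul_mul_assoc, mul_smul_comm, ← mul_assoc, h2, h3]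
    simp only [mul_assoc, hp, hq, hpq, hqp, mul_zero, smul_zero, add_zero, zero_add, smul_smul]
    rw [mul_comm (α _), mul_comm (β _)]

theorem per {F ι : Type*} [Field F] [Fintype ι] [DecidableEq ι] (α β : ι → F) (E : Finset ι) :
    ∑ σ : Perm ι, ∏ k, (if k ∈ E then α (σ k) else β (σ k)) =
      (#{σ : Perm ι | E.map σ.toEmbedding = E} : ℕ) *
        (∏ j, (C (α j) * X + C (β j))).coeff #E := by
  have h1 : ∀ σ : Perm ι, ∏ k, (if k ∈ E then α (σ k) else β (σ k)) =
      ∏ j, if j ∈ E.map σ.toEmbedding then α j else β j := by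
    intro σ
    exact Fintype.prod_equiv σ _ _ fun k => by simp
  have h2 : ∀ S : Finset ι, #S = #E → #{σ : Perm ι | E.map σ.toEmbedding = S} =
      #{σ : Perm ι | E.map σ.toEmbedding = E} := by
    intro S hS
    obtain ⟨ρ, hρ⟩ := Perm.exists_map_finset_eq S E hS
    refine card_bijective (fun σ => ρ * σ) (Group.mulLeft_bijective ρ) fun σ => ?_
    simp only [mem_filter, mem_univ, true_and]
    have : E.map (ρ * σ).toEmbedding = (E.map σ.toEmbedding).map ρ.toEmbedding := by
      rw [Finset.map_map]; rfl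
    rw [this]
    exact ⟨fun h => by rw [h, hρ], fun h => map_injective _ (h.trans hρ.symm)⟩
  have h3 : (∏ j, (C (α j) * X + C (β j))).coeff #E =
      ∑ S ∈ powersetCard #E univ, ∏ j, if j ∈ S then α j else β j := by
    rw [prod_add, finsetSum_coeff, powersetCard_eq_filter, sum_filter]
    refine sum_congr rfl fun S _ => ?_
    rw [prod_mul_distrib, prod_const, ← map_prod, ← map_prod, mul_right_comm, ← map_mul,
      coeff_C_mul_X_pow, prod_ite]
    simp only [eq_comm (a := #E), filter_univ_mem]
    congr 3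
    ext j; simp
  rw [h3, mul_sum, ← sum_fiberwise_of_maps_to (t := powersetCard #E univ)
    (g := fun σ : Perm ι => E.map σ.toEmbedding) (fun σ _ => by simp)]
  refine sum_congr rfl fun S hS => ?_
  rw [← h2 S (mem_powersetCard.1 hS).2, ← nsmul_eq_mul, ← sum_const]
  refine sum_congr rfl fun σ hσ => ?_
  rw [h1, (mem_filter.1 hσ).2]

end Pool.Agent.H67.Cliff
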