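import Mathlib

namespace Pool.Agent.H67.Clo

/-- A class of topological semigroups: a predicate on types with a topology and a semigroup
structure (it is only ever applied when the multiplication is continuous). -/
abbrev TSClass := ∀ (Y : Type), TopologicalSpace Y → Semigroup Y → Prop

/-- `X` is `C`-closed: for every topological semigroup `Y` in `C` and every homomorphism
`h : X → Y` that is a topological embedding of the discrete space `X`, the image is closed. -/
def CClosed (C : TSClass) (X : Type) [Semigroup X] : Prop :=
  ∀ (Y : Type) (t : TopologicalSpace Y) (s : Semigroup Y), ContinuousMul Y → C Y t s →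
    ∀ h : X →ₙ* Y, @Topology.IsEmbedding X Y ⊥ t h → IsClosed (Set.range h)

/-- `X / I` is `C`-closed for every ideal `I` (the empty ideal included); `X / I` is the quotient
by the congruence `(I × I) ∪ diagonal`. -/
def IdeallyClosed (C : TSClass) (X : Type) [Semigroup X] : Prop :=
  ∀ I : Set X, (∀ x ∈ I, ∀ a : X, a * x ∈ I ∧ x * a ∈ I) →
    ∀ c : Con X, (∀ x y, c x y ↔ (x ∈ I ∧ y ∈ I) ∨ x = y) → CClosed C c.Quotient

/-- every quotient of `X` by a congruence is `C`-closed -/
def ProjClosed (C : TSClass) (X : Type) [Semigroup X] : Prop :=
  ∀ c : Con X, CClosed C c.Quotient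

end Pool.Agent.H67.Clo
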