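import Pool.Agent.H67.Gen1

/-! Generic Latin squares, part 2: conditions, density, and the limit. -/

namespace H67.Gen

abbrev Slot := ℕ × Fin 3

structure Cond where
  n : ℕ
  C : Tri
  R : Slot → Rl
  good : Good n C
  pi : ∀ i, PI n C i.2 (R i)
  fresh : ∀ i : Slot, n ≤ i.1 → ∀ x y, ¬ R i x y

def Cond.LE (p q : Cond) : Prop :=
  p.n ≤ q.n ∧ (∀ a b c, p.C a b c → q.C a b c) ∧ ∀ i x y, p.R i x y → q.R i x y

instance : Preorder Cond where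
  le := Cond.LE
  le_refl := fun _ => ⟨le_rfl, fun _ _ _ h => h, fun _ _ _ h => h⟩
  le_trans := fun _ _ _ h1 h2 => ⟨h1.1.trans h2.1, fun _ _ _ h => h2.2.1 _ _ _ (h1.2.1 _ _ _ h),
    fun _ _ _ h => h2.2.2 _ _ _ (h1.2.2 _ _ _ h)⟩

theorem raise (p : Cond) (m : ℕ) : ∃ q, p ≤ q ∧ m ≤ q.n :=
  ⟨⟨max p.n m, p.C, p.R, p.good.mono (le_max_left _ _), fun i => (p.pi i).mono (le_max_left _ _),
    fun i h => p.fresh i ((le_max_left _ _).trans h)⟩,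
    ⟨le_max_left _ _, fun _ _ _ h => h, fun _ _ _ h => h⟩, le_max_right _ _⟩

/-- general update: new triples, one slot enlarged -/
theorem upd (p : Cond) (m : ℕ) (C' : Tri) (g : Good m C') (hm : p.n ≤ m)
    (hC : ∀ a b c, p.C a b c → C' a b c) (ho : ∀ k R, PI p.n p.C k R → PI m C' k R)
    (i : Slot) (hi : i.1 < m) (S : Rl) (hS : PI m C' i.2 S) (hR : ∀ x y, p.R i x y → S x y) :
    ∃ q, p ≤ q ∧ q.n = m ∧ q.C = C' ∧ q.R i = S ∧ ∀ j, j ≠ i → q.R j = p.R j := by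
  classical
  refine ⟨⟨m, C', Function.update p.R i S, g, fun j => ?_, fun j hj => ?_⟩,
    ⟨hm, hC, fun j x y h => ?_⟩, rfl, rfl, by simp, fun j hj => by simp [hj]⟩
  · by_cases e : j = i
    · subst e; simpa using hS
    · rw [Function.update_of_ne e]; exact ho _ _ (p.pi j)
  · have e : j ≠ i := fun e => by subst e; omega
    rw [Function.update_of_ne e]; exact p.fresh j (hm.trans hj)
  · by_cases e : j = i
    · subst e; simpa using hR x y h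
    · simpa [Function.update_of_ne e] using h

theorem dense_dom (p : Cond) (i : Slot) (x : X) : ∃ q, p ≤ q ∧ ∃ y, q.R i x y := by
  obtain ⟨p1, h1, hn⟩ := raise p (max (i.1 + 1) (lev x + 1))
  obtain ⟨q, h2, _, _, e, _⟩ := upd p1 (p1.n + 1) _ (cp_good p1.good (p1.pi i)) (Nat.le_succ _)
    (fun _ _ _ h => Or.inl h) (fun _ _ h => cp_other (p1.pi i) h) i (by omega) _
    (cp_PI p1.good (p1.pi i)) (fun _ _ h => cp_le (p1.pi i) h)
  exact ⟨q, h1.trans h2, ph p1.n i.2 (p1.R i) x, by rw [e]; exact ⟨by omega, rfl⟩⟩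

theorem dense_ran (p : Cond) (i : Slot) (x : X) : ∃ q, p ≤ q ∧ ∃ y, q.R i y x := by
  obtain ⟨p1, h1, hn⟩ := raise p (max (i.1 + 1) (lev x + 1))
  have hf := (p1.pi i).flip'
  have hf2 := (cp_PI p1.good hf).flip'
  rw [neg_neg] at hf2
  obtain ⟨q, h2, _, _, e, _⟩ := upd p1 (p1.n + 1) _ (cp_good p1.good hf) (Nat.le_succ _)
    (fun _ _ _ h => Or.inl h) (fun _ _ h => cp_other hf h) i (by omega) _
    hf2 (fun _ _ h => cp_le hf h)
  exact ⟨q, h1.trans h2, ph p1.n (-i.2) (flip (p1.R i)) x, by rw [e]; exact ⟨by omega, rfl⟩⟩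

theorem dense_join (p : Cond) (a b : X) : ∃ q, p ≤ q ∧ (b.1 = a.1 + 1 → ∃ c, q.C a b c) := by
  obtain ⟨p1, h1, hn⟩ := raise p (max (lev a + 1) (lev b + 1))
  refine ⟨⟨p1.n + 1, jC p1.n p1.C, fun i => jR p1.n p1.C (p1.R i), j_good p1.good,
    fun i => j_PI p1.good (p1.pi i), fun i hi x y h => ?_⟩,
    h1.trans ⟨Nat.le_succ _, fun _ _ _ h => Or.inl h, fun _ _ _ h => Or.inl h⟩, fun e => ?_⟩
  · rcases h with h | ⟨_, _, _, _, h, _⟩ <;> exact p1.fresh i (by omega) _ _ h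
  · by_cases h : ∃ c, p1.C a b c
    · obtain ⟨c, hc⟩ := h
      exact ⟨c, Or.inl hc⟩
    · exact ⟨_, Or.inr (Or.inl ⟨⟨by omega, by omega, e, h⟩, rfl⟩)⟩

theorem Cl.two {n C} (g : Good n C) {u v} (hu : Cl C u) (hv : Cl C v) (i : Fin 3)
    (h0 : u i = v i) (h1 : u (i + 1) = v (i + 1)) : u = v := by
  have h2 : u (i + 2) = v (i + 2) := by
    have := hu i
    rw [h0, h1] at this
    exact congrArg Prod.snd (g.uniq this (hv i))
  funext j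
  have : j = i ∨ j = i + 1 ∨ j = i + 2 :=
    (by decide : ∀ i j : Fin 3, j = i ∨ j = i + 1 ∨ j = i + 2) i j
  rcases this with rfl | rfl | rfl <;> assumption

def TA (C : Tri) (R : Slot → Rl) (u v : Fin 3 → N) : Prop :=
  Cl C u → Cl C v → u ≠ v → ∃ s : ℕ, ∃ w : Fin 3 → N,
    (∀ i, R (s, 1) (i, u i) (i + 1, u (i + 1))) ∧ (∀ i, R (s, 1) (i, v i) (i + 1, w (i + 1))) ∧
    ∀ i, w i ≠ v i

theorem dense_A (p : Cond) (u v : Fin 3 → N) : ∃ q, p ≤ q ∧ TA q.C q.R u v := by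
  by_cases H : Cl p.C u ∧ Cl p.C v ∧ u ≠ v
  swap
  · exact ⟨p, le_rfl, fun a b c => absurd ⟨a, b, c⟩ H⟩
  obtain ⟨hu, hv, hne⟩ := H
  have h0 := cR_PI p.good hu hu 1
  obtain ⟨q, h2, _, _, e, _⟩ := upd p (p.n + 1) _ (cp_good p.good h0) (Nat.le_succ _)
    (fun _ _ _ h => Or.inl h) (fun _ _ h => cp_other h0 h) (p.n, 1) (Nat.lt_succ_self _) _
    (cp_PI p.good h0) (fun _ _ h => absurd h (p.fresh _ le_rfl _ _))
  refine ⟨q, h2, fun _ _ _ => ⟨p.n, fun j => (ph p.n 1 (cR u u 1) (j - 1, v (j - 1))).2,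
    fun i => e ▸ cp_le h0 ⟨i, rfl, rfl⟩, fun i => e ▸ ⟨p.good.lv (hv i), ?_⟩, fun j hj => ?_⟩⟩
  · simp only [add_sub_cancel_right]
    exact Prod.ext (ph_so h0 (i, v i)).symm rfl
  · obtain ⟨i, rfl⟩ : ∃ i, j = i + 1 := ⟨j - 1, by rw [sub_add_cancel]⟩
    simp only [add_sub_cancel_right] at hj
    have hl : lev (ph p.n 1 (cR u u 1) (i, v i)) < p.n := by
      show (ph p.n 1 (cR u u 1) (i, v i)).2.1 < p.n
      rw [hj]; exact p.good.lv (hv (i + 1))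
    obtain ⟨i', e1, e2⟩ := ph_old h0 hl
    obtain rfl : i = i' := congrArg Prod.fst e1
    refine hne (Cl.two p.good hu hv i (congrArg Prod.snd e1).symm ?_)
    rw [← hj, e2]

def TB (C : Tri) (R : Slot → Rl) (c e d : Fin 3 → N) : Prop :=
  Cl C c → Cl C e → Cl C d → (∀ i, e i ≠ c i) → (∀ i, d i ≠ c i) → ∃ s t : ℕ, ∃ w : Fin 3 → N,
    (∀ i, R (s, 0) (i, c i) (i, c i)) ∧ (∀ i, R (s, 0) (i, e i) (i, w i)) ∧
    (∀ i, R (t, 0) (i, e i) (i, d i)) ∧ ∀ i, R (t, 0) (i, w i) (i, w i)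

theorem apart_new {n C} (g : Good n C) {c e : Fin 3 → N} (hc : Cl C c) (he : Cl C e)
    (hec : ∀ i, e i ≠ c i) {x : X} (hx : lev x < n) (hxc : x.2 ≠ c x.1) (i : Fin 3) :
    x ≠ ph n 0 (cR c c 0) (i, e i) ∧
    (∀ z, ¬ cpC n C 0 (cR c c 0) x (ph n 0 (cR c c 0) (i, e i)) z) ∧
    ∀ z, ¬ cpC n C 0 (cR c c 0) (ph n 0 (cR c c 0) (i, e i)) x z := by
  have h0 := cR_PI g hc hc 0
  have hl : ¬ lev (ph n 0 (cR c c 0) (i, e i)) < n := fun hl => by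
    obtain ⟨j, e1, _⟩ := ph_old h0 hl
    obtain rfl : i = j := congrArg Prod.fst e1
    exact hec i (congrArg Prod.snd e1)
  have hx' : ∀ y, x ≠ ph n 0 (cR c c 0) y := fun y ey => by
    obtain ⟨j, _, e2⟩ := ph_old h0 (ey ▸ hx : lev (ph n 0 (cR c c 0) y) < n)
    rw [← ey] at e2
    exact hxc (by rw [e2])
  refine ⟨hx' _, fun z hz => ?_, fun z hz => ?_⟩
  · rcases hz with hz | ⟨a, _, _, _, ea, _⟩
    · exact hl (g.lv2 hz)
    · exact hx' _ ea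
  · rcases hz with hz | ⟨_, b, _, _, _, eb, _⟩
    · exact hl (g.lv hz)
    · exact hx' _ eb

theorem dense_B (p : Cond) (c e d : Fin 3 → N) : ∃ q, p ≤ q ∧ TB q.C q.R c e d := by
  by_cases H : Cl p.C c ∧ Cl p.C e ∧ Cl p.C d ∧ (∀ i, e i ≠ c i) ∧ ∀ i, d i ≠ c i
  swap
  · exact ⟨p, le_rfl, fun a b c d e => absurd ⟨a, b, c, d, e⟩ H⟩
  obtain ⟨hc, he, hd, hec, hdc⟩ := H
  have h0 := cR_PI p.good hc hc 0
  have g1 := cp_good p.good h0
  obtain ⟨q, h2, qn, qC, e1, _⟩ := upd p (p.n + 1) _ g1 (Nat.le_succ _)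
    (fun _ _ _ h => Or.inl h) (fun _ _ h => cp_other h0 h) (p.n, 0) (Nat.lt_succ_self _) _
    (cp_PI p.good h0) (fun _ _ h => absurd h (p.fresh _ le_rfl _ _))
  let w : Fin 3 → N := fun i => (ph p.n 0 (cR c c 0) (i, e i)).2
  have hw : ∀ i, ((i, w i) : X) = ph p.n 0 (cR c c 0) (i, e i) := fun i =>
    Prod.ext (by rw [ph_so h0, add_zero]) rfl
  have cw : Cl (cpC p.n p.C 0 (cR c c 0)) w := fun i =>
    Or.inr ⟨_, _, _, he i, hw _, hw _, hw _⟩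
  have ce : Cl (cpC p.n p.C 0 (cR c c 0)) e := fun i => Or.inl (he i)
  have cd : Cl (cpC p.n p.C 0 (cR c c 0)) d := fun i => Or.inl (hd i)
  have hP : PI (p.n + 1) (cpC p.n p.C 0 (cR c c 0)) 0
      (fun x y => cR e d 0 x y ∨ cR w w 0 x y) := by
    refine un_PI (cR_PI g1 ce cd 0) (cR_PI g1 cw cw 0) ?_ ?_
    · rintro _ _ _ _ ⟨i, rfl, rfl⟩ ⟨j, rfl, rfl⟩
      rw [hw]
      exact apart_new p.good hc he hec (p.good.lv (he i)) (hec i) j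
    · rintro _ _ _ _ ⟨i, rfl, rfl⟩ ⟨j, rfl, rfl⟩
      rw [hw]
      exact apart_new p.good hc he hec (p.good.lv (hd _)) (hdc _) _
  obtain ⟨r, h3, _, _, e2, e3⟩ := upd q (q.n + 1) q.C (q.good.mono (Nat.le_succ _)) (Nat.le_succ _)
    (fun _ _ _ h => h) (fun _ _ h => h.mono (Nat.le_succ _)) (q.n, 0) (Nat.lt_succ_self _) _
    (by rw [qC, qn]; exact hP.mono (Nat.le_succ _))
    (fun _ _ h => absurd h (q.fresh _ le_rfl _ _))
  refine ⟨r, h2.trans h3, fun _ _ _ _ _ => ⟨p.n, q.n, w, fun i => h3.2.2 _ _ _ ?_,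
    fun i => h3.2.2 _ _ _ ?_, fun i => ?_, fun i => ?_⟩⟩
  · rw [e1]; exact cp_le h0 ⟨i, rfl, by rw [add_zero]⟩
  · rw [e1]; exact ⟨p.good.lv (he i), hw i⟩
  · rw [e2]; exact Or.inl ⟨i, rfl, by rw [add_zero]⟩
  · rw [e2]; exact Or.inr ⟨i, rfl, by rw [add_zero]⟩

theorem chain {P ι : Type} [Preorder P] [Countable ι] [Nonempty ι] (D : ι → P → Prop)
    (hD : ∀ i p, ∃ q, p ≤ q ∧ D i q) (p0 : P) :
    ∃ f : ℕ → P, Monotone f ∧ f 0 = p0 ∧ ∀ i s, ∃ t, s ≤ t ∧ D i (f t) := by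
  obtain ⟨e, he⟩ := exists_surjective_nat ι
  choose F h1 h2 using hD
  let f : ℕ → P := fun n => Nat.rec p0 (fun n p => F (e n.unpair.1) p) n
  refine ⟨f, monotone_nat_of_le_succ fun n => h1 _ _, rfl, fun i s => ?_⟩
  obtain ⟨a, rfl⟩ := he i
  refine ⟨a.pair s + 1, (Nat.right_le_pair a s).trans (Nat.le_succ _), ?_⟩
  have := h2 (e (a.pair s).unpair.1) (f (a.pair s))
  rw [Nat.unpair_pair] at this
  show D _ (F (e (a.pair s).unpair.1) (f (a.pair s)))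
  rw [Nat.unpair_pair]
  exact this

/-- the limit structure -/
structure Lim (C : Tri) (g : Slot → X ≃ X) : Prop where
  cyc : ∀ {a b c}, C a b c → C b c a
  uniq : ∀ {a b c d}, C a b c → C a b d → c = d
  so : ∀ {a b c}, C a b c → b.1 = a.1 + 1
  tot : ∀ a b : X, b.1 = a.1 + 1 → ∃ c, C a b c
  sh : ∀ i x, (g i x).1 = x.1 + i.2
  fw : ∀ i {a b c}, C a b c → C (g i a) (g i b) (g i c)
  bw : ∀ i {a b c}, C (g i a) (g i b) (g i c) → C a b c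
  ta : ∀ u v, TA C (fun i x y => g i x = y) u v
  tb : ∀ c e d, TB C (fun i x y => g i x = y) c e d

theorem exists_lim (p0 : Cond) : ∃ C g, Lim C g ∧ ∀ a b c, p0.C a b c → C a b c := by
  let ι := (Slot × X) ⊕ (Slot × X) ⊕ (X × X) ⊕ ((Fin 3 → N) × (Fin 3 → N)) ⊕
    ((Fin 3 → N) × (Fin 3 → N) × (Fin 3 → N))
  let D : ι → Cond → Prop := fun t q => match t with
    | .inl (i, x) => ∃ y, q.R i x y
    | .inr (.inl (i, x)) => ∃ y, q.R i y x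
    | .inr (.inr (.inl (a, b))) => b.1 = a.1 + 1 → ∃ c, q.C a b c
    | .inr (.inr (.inr (.inl (u, v)))) => TA q.C q.R u v
    | .inr (.inr (.inr (.inr (c, e, d)))) => TB q.C q.R c e d
  obtain ⟨f, hf, f0, hD⟩ := chain D (by
    rintro (⟨i, x⟩ | ⟨i, x⟩ | ⟨a, b⟩ | ⟨u, v⟩ | ⟨c, e, d⟩) p
    · exact dense_dom p i x
    · exact dense_ran p i x
    · exact dense_join p a b
    · exact dense_A p u v
    · exact dense_B p c e d) p0
  let C : Tri := fun a b c => ∃ s, (f s).C a b c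
  let R : Slot → Rl := fun i a b => ∃ s, (f s).R i a b
  have mC : ∀ {s t a b c}, s ≤ t → (f s).C a b c → (f t).C a b c := fun h x => (hf h).2.1 _ _ _ x
  have mR : ∀ {s t i a b}, s ≤ t → (f s).R i a b → (f t).R i a b := fun h x => (hf h).2.2 _ _ _ x
  have fn : ∀ i, Fn (R i) := fun i _ _ _ ⟨s, x⟩ ⟨t, y⟩ =>
    ((f (max s t)).pi i).fn (mR (le_max_left _ _) x) (mR (le_max_right _ _) y)
  have inj : ∀ i, Fn (flip (R i)) := fun i _ _ _ ⟨s, x⟩ ⟨t, y⟩ =>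
    ((f (max s t)).pi i).inj (mR (le_max_left _ _) x) (mR (le_max_right _ _) y)
  have tot : ∀ i x, ∃ y, R i x y := fun i x => by
    obtain ⟨t, _, y, h⟩ := hD (.inl (i, x)) 0
    exact ⟨y, t, h⟩
  have sur : ∀ i x, ∃ y, R i y x := fun i x => by
    obtain ⟨t, _, y, h⟩ := hD (.inr (.inl (i, x))) 0
    exact ⟨y, t, h⟩
  choose G hG using tot
  choose G' hG' using sur
  let g : Slot → X ≃ X := fun i => ⟨G i, G' i, fun x => inj i (hG' i _) (hG i x),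
    fun x => fn i (hG i _) (hG' i x)⟩
  have gR : ∀ {i x y s}, (f s).R i x y → g i x = y := fun h => fn _ (hG _ _) ⟨_, h⟩
  have clC : ∀ {u}, Cl C u → ∃ s, ∀ t, s ≤ t → Cl (f t).C u := fun {u} h => by
    choose s hs using h
    exact ⟨Finset.univ.sup s, fun t ht i => mC ((Finset.le_sup (Finset.mem_univ i)).trans ht) (hs i)⟩
  refine ⟨C, g, ⟨fun ⟨s, h⟩ => ⟨s, (f s).good.cyc h⟩, fun ⟨s, x⟩ ⟨t, y⟩ =>
    (f (max s t)).good.uniq (mC (le_max_left _ _) x) (mC (le_max_right _ _) y),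
    fun ⟨s, h⟩ => (f s).good.so h, fun a b e => ?_, fun i x => ?_, fun i a b c ⟨s, h⟩ => ?_,
    fun i a b c ⟨s, h⟩ => ?_, fun u v hu hv hne => ?_, fun c e d hc he hd h1 h2 => ?_⟩,
    fun a b c h => ⟨0, f0 ▸ h⟩⟩
  · obtain ⟨t, _, h⟩ := hD (.inr (.inr (.inl (a, b)))) 0
    obtain ⟨c, hc⟩ := h e
    exact ⟨c, t, hc⟩
  · obtain ⟨s, h⟩ := hG i x
    exact ((f s).pi i).sh h
  · obtain ⟨s1, h1⟩ := hG i a
    obtain ⟨s2, h2⟩ := hG i b
    obtain ⟨c', h3, h4⟩ := ((f (max s (max s1 s2))).pi i).fw (mR (by omega) h1) (mR (by omega) h2)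
      (mC (le_max_left _ _) h)
    rw [gR h3]
    exact ⟨_, h4⟩
  · obtain ⟨s1, h1⟩ := hG i a
    obtain ⟨s2, h2⟩ := hG i b
    obtain ⟨c', h3, h4⟩ := ((f (max s (max s1 s2))).pi i).bw (a' := a) (b' := b)
      (mR (by omega) h1) (mR (by omega) h2) (mC (le_max_left _ _) h)
    obtain rfl : c' = c := (g i).injective (gR h3)
    exact ⟨_, h4⟩
  · obtain ⟨s1, h1⟩ := clC hu
    obtain ⟨s2, h2⟩ := clC hv
    obtain ⟨t, ht, h⟩ := hD (.inr (.inr (.inr (.inl (u, v))))) (max s1 s2)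
    obtain ⟨s, w, a1, a2, a3⟩ := h (h1 t (by omega)) (h2 t (by omega)) hne
    exact ⟨s, w, fun i => gR (a1 i), fun i => gR (a2 i), a3⟩
  · obtain ⟨s1, k1⟩ := clC hc
    obtain ⟨s2, k2⟩ := clC he
    obtain ⟨s3, k3⟩ := clC hd
    obtain ⟨t, ht, h⟩ := hD (.inr (.inr (.inr (.inr (c, e, d))))) (max s1 (max s2 s3))
    obtain ⟨s, s', w, a1, a2, a3, a4⟩ :=
      h (k1 t (by omega)) (k2 t (by omega)) (k3 t (by omega)) h1 h2
    exact ⟨s, s', w, fun i => gR (a1 i), fun i => gR (a2 i), fun i => gR (a3 i), fun i => gR (a4 i)⟩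

/-! ### the starting configuration: a hexagon that does not close -/

def B : Finset (ℕ × ℕ × ℕ) := {(0,1,1), (1,0,1), (0,2,2), (1,1,2), (2,0,2), (1,2,3), (2,1,4)}

def b0 (x y z : X) : Prop := ∃ t ∈ B, x = (0, (0, t.1)) ∧ y = (1, (0, t.2.1)) ∧ z = (2, (0, t.2.2))

def C0 : Tri := fun x y z => b0 x y z ∨ b0 y z x ∨ b0 z x y

theorem B1 : ∀ s ∈ B, ∀ t ∈ B, (s.1 = t.1 → s.2.1 = t.2.1 → s.2.2 = t.2.2) ∧
    (s.1 = t.1 → s.2.2 = t.2.2 → s.2.1 = t.2.1) ∧ (s.2.1 = t.2.1 → s.2.2 = t.2.2 → s.1 = t.1) := by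
  decide

theorem good0 : Good 1 C0 where
  cyc := by
    rintro a b c (h | h | h)
    · exact Or.inr (Or.inr h)
    · exact Or.inl h
    · exact Or.inr (Or.inl h)
  uniq := by
    rintro a b c d (⟨s, hs, h1, h2, h3⟩ | ⟨s, hs, h1, h2, h3⟩ | ⟨s, hs, h1, h2, h3⟩)
      (⟨t, ht, k1, k2, k3⟩ | ⟨t, ht, k1, k2, k3⟩ | ⟨t, ht, k1, k2, k3⟩) <;>
    have := B1 s hs t ht <;> clear hs ht <;> subst h1 h2 h3 <;>
    simp only [Prod.mk.injEq, true_and] at k1 k2 k3 <;>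
    first
      | (obtain ⟨a1, a2, a3⟩ := this; simp_all; done)
      | (exact absurd k1.1 (by decide))
      | (exact absurd k2.1 (by decide))
      | (exact absurd k3.1 (by decide))
  so := by
    rintro a b c (⟨s, hs, h1, h2, h3⟩ | ⟨s, hs, h1, h2, h3⟩ | ⟨s, hs, h1, h2, h3⟩) <;>
    simp_all
  lv := by
    rintro a b c (⟨s, hs, h1, h2, h3⟩ | ⟨s, hs, h1, h2, h3⟩ | ⟨s, hs, h1, h2, h3⟩) <;>
    simp_all [lev]

def p0 : Cond := ⟨1, C0, fun _ _ _ => False, good0, fun _ => PI.empty _ _ _, fun _ _ _ _ h => h⟩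

end H67.Gen
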