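import Mathlib
import Pool.Agent.H67.Gen2

/-! The generic structure with coloured injective tuples (finitely many kinds of tuples of each
length): existence, universality, homogeneity. -/

namespace H67.Col

open Function

variable {I B : Type} {ar : I → ℕ}

abbrev Col (ar : I → ℕ) (B N : Type) := (κ : I) → (Fin (ar κ + 1) → N) → B

/-- extension property -/
def EP {N : Type} (d : Col ar B N) : Prop :=
  ∀ F : Set N, F.Finite → ∀ p : Col ar B (Option N), ∃ z, z ∉ F ∧
    ∀ κ (t : Fin (ar κ + 1) → Option N), Injective t → (∃ r, t r = none) →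
      (∀ r y, t r = some y → y ∈ F) → d κ (fun r => (t r).getD z) = p κ t

/-- partial isomorphism (no finiteness) -/
structure PIs {N N' : Type} (d : Col ar B N) (d' : Col ar B N') (R : Set (N × N')) : Prop where
  eq : ∀ p ∈ R, ∀ q ∈ R, p.1 = q.1 ↔ p.2 = q.2
  col : ∀ κ (t : Fin (ar κ + 1) → N × N'), (∀ r, t r ∈ R) → Injective t →
    d κ (fun r => (t r).1) = d' κ (fun r => (t r).2)

theorem PIs.swap {N N' : Type} {d : Col ar B N} {d' : Col ar B N'} {R : Set (N × N')}
    (h : PIs d d' R) : PIs d' d (Prod.swap ⁻¹' R) where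
  eq := fun p hp q hq => (h.eq _ hp _ hq).symm
  col := fun κ t ht hi => (h.col κ (fun r => (t r).swap) ht
    (Prod.swap_injective.comp hi)).symm

theorem forth {N N' : Type} {d : Col ar B N} {d' : Col ar B N'} (e : EP d') {R : Set (N × N')}
    (hf : R.Finite) (h : PIs d d' R) (x : N) :
    ∃ R', R ⊆ R' ∧ R'.Finite ∧ PIs d d' R' ∧ ∃ y, (x, y) ∈ R' := by
  classical
  by_cases hx : ∃ y, (x, y) ∈ R
  · exact ⟨R, subset_rfl, hf, h, hx⟩
  push Not at hx
  let inv : Option N' → N := fun o => match o with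
    | none => x
    | some y => if hy : ∃ a, (a, y) ∈ R then hy.choose else x
  have hinv : ∀ p ∈ R, inv (some p.2) = p.1 := by
    intro p hp
    have hy : ∃ a, (a, p.2) ∈ R := ⟨p.1, hp⟩
    simp only [inv, dif_pos hy]
    exact (h.eq _ hy.choose_spec _ hp).2 rfl
  obtain ⟨z, hz, hc⟩ := e (Prod.snd '' R) (hf.image _) (fun κ t => d κ (fun r => inv (t r)))
  have hz' : ∀ p ∈ R, p.2 ≠ z := fun p hp he => hz ⟨p, hp, he⟩
  have hx' : ∀ p ∈ R, p.1 ≠ x := fun p hp he => hx p.2 (by rw [← he]; exact hp)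
  refine ⟨insert (x, z) R, Set.subset_insert _ _, hf.insert _, ⟨?_, ?_⟩, z, Set.mem_insert _ _⟩
  · rintro p (rfl | hp) q (rfl | hq)
    · simp
    · simp [(hx' q hq).symm, (hz' q hq).symm]
    · simp [hx' p hp, hz' p hp]
    · exact h.eq p hp q hq
  · intro κ t ht hi
    by_cases ha : ∀ r, t r ∈ R
    · exact h.col κ t ha hi
    push Not at ha
    obtain ⟨r0, hr0⟩ := ha
    have hin : ∀ r, t r ≠ (x, z) → t r ∈ R := fun r hr => (ht r).resolve_left hr
    let t' : Fin (ar κ + 1) → Option N' := fun r => if t r = (x, z) then none else some (t r).2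
    have h1 : Injective t' := by
      intro r s hrs
      apply hi
      by_cases a : t r = (x, z) <;> by_cases b : t s = (x, z) <;> simp only [t', a, b, if_true,
        if_false] at hrs
      · rw [a, b]
      · exact absurd hrs (by simp)
      · exact absurd hrs (by simp)
      · have h2 := Option.some.inj hrs
        exact Prod.ext ((h.eq _ (hin r a) _ (hin s b)).2 h2) h2
    have h2 := hc κ t' h1 ⟨r0, by
      have : t r0 = (x, z) := (ht r0).resolve_right hr0
      simp [t', this]⟩ (by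
      intro r y hy
      by_cases a : t r = (x, z) <;> simp only [t', a, if_true, if_false] at hy
      · exact absurd hy (by simp)
      · exact ⟨t r, hin r a, Option.some.inj hy⟩)
    have e1 : (fun r => (t' r).getD z) = fun r => (t r).2 := by
      funext r
      by_cases a : t r = (x, z) <;> simp [t', a]
    have e2 : (fun r => inv (t' r)) = fun r => (t r).1 := by
      funext r
      by_cases a : t r = (x, z)
      · simp [t', a, inv]
      · simp only [t', a, if_false]; exact hinv _ (hin r a)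
    rw [e1, e2] at h2
    exact h2.symm

theorem back {N N' : Type} {d : Col ar B N} {d' : Col ar B N'} (e : EP d) {R : Set (N × N')}
    (hf : R.Finite) (h : PIs d d' R) (y : N') :
    ∃ R', R ⊆ R' ∧ R'.Finite ∧ PIs d d' R' ∧ ∃ x, (x, y) ∈ R' := by
  obtain ⟨R', h1, h2, h3, x, h4⟩ := forth e
    (hf.preimage Prod.swap_injective.injOn) h.swap y
  exact ⟨Prod.swap ⁻¹' R', fun p hp => h1 (by simpa using hp),
    h2.preimage Prod.swap_injective.injOn, h3.swap, x, h4⟩

theorem limit {N N' ι : Type} [Countable ι] [Nonempty ι] {d : Col ar B N} {d' : Col ar B N'}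
    (D : ι → Set (N × N')) (hD : ∀ i R, R.Finite → PIs d d' R →
      ∃ R', R ⊆ R' ∧ R'.Finite ∧ PIs d d' R' ∧ ∃ p ∈ R', p ∈ D i)
    {R : Set (N × N')} (hf : R.Finite) (h : PIs d d' R) :
    ∃ G, R ⊆ G ∧ PIs d d' G ∧ ∀ i, ∃ p ∈ G, p ∈ D i := by
  obtain ⟨f, hm, h0, hd⟩ := H67.Gen.chain (P := {R : Set (N × N') // R.Finite ∧ PIs d d' R})
    (fun i q => ∃ p ∈ q.1, p ∈ D i) (fun i q => by
      obtain ⟨R', a, b, c, e⟩ := hD i q.1 q.2.1 q.2.2
      exact ⟨⟨R', b, c⟩, a, e⟩) ⟨R, hf, h⟩
  refine ⟨⋃ n, (f n).1, ?_, ⟨?_, ?_⟩, fun i => ?_⟩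
  · intro p hp
    exact Set.mem_iUnion.2 ⟨0, by rw [h0]; exact hp⟩
  · intro p hp q hq
    obtain ⟨a, ha⟩ := Set.mem_iUnion.1 hp
    obtain ⟨b, hb⟩ := Set.mem_iUnion.1 hq
    exact (f (max a b)).2.2.eq p (hm (le_max_left a b) ha) q (hm (le_max_right a b) hb)
  · intro κ t ht hi
    choose a ha using fun r => Set.mem_iUnion.1 (ht r)
    exact (f (Finset.univ.sup a)).2.2.col κ t
      (fun r => hm (Finset.le_sup (f := a) (Finset.mem_univ r)) (ha r)) hi
  · obtain ⟨t, -, p, hp, hq⟩ := hd i 0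
    exact ⟨p, Set.mem_iUnion.2 ⟨t, hp⟩, hq⟩

theorem PIs.empty {N N' : Type} (d : Col ar B N) (d' : Col ar B N') : PIs d d' ∅ :=
  ⟨fun _ h => h.elim, fun _ _ h _ => (h 0).elim⟩

/-- universality -/
theorem univ {N N' : Type} [Countable N] [Nonempty N] (d : Col ar B N) {d' : Col ar B N'}
    (e : EP d') : ∃ E : N → N', Injective E ∧
      ∀ κ (t : Fin (ar κ + 1) → N), Injective t → d' κ (fun r => E (t r)) = d κ t := by
  obtain ⟨G, -, hG, hD⟩ := limit (d := d) (d' := d') (fun x : N => {p | p.1 = x})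
    (fun x R hf h => by
      obtain ⟨R', a, b, c, y, hy⟩ := forth e hf h x
      exact ⟨R', a, b, c, _, hy, rfl⟩) Set.finite_empty (PIs.empty d d')
  choose p hp hq using hD
  have hq' : ∀ x, (p x).1 = x := hq
  refine ⟨fun x => (p x).2, fun x y hxy => ?_, fun κ t ht => ?_⟩
  · rw [← hq' x, ← hq' y]; exact (hG.eq _ (hp x) _ (hp y)).2 hxy
  · have := hG.col κ (fun r => p (t r)) (fun r => hp _) (fun r s hrs => ht (by
      rw [← hq' (t r), ← hq' (t s)]; exact congrArg Prod.fst hrs))
    simp only [hq'] at this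
    exact this.symm

/-- homogeneity -/
theorem homog {N : Type} [Countable N] [Nonempty N] {d : Col ar B N} (e : EP d)
    {R : Set (N × N)} (hf : R.Finite) (h : PIs d d R) :
    ∃ σ : N ≃ N, (∀ p ∈ R, σ p.1 = p.2) ∧
      ∀ κ (t : Fin (ar κ + 1) → N), Injective t → d κ (fun r => σ (t r)) = d κ t := by
  obtain ⟨G, hR, hG, hD⟩ := limit (d := d) (d' := d)
    (fun x : N ⊕ N => {p | Sum.elim (fun a => p.1 = a) (fun b => p.2 = b) x})
    (fun x R hf h => by
      rcases x with x | y
      · obtain ⟨R', a, b, c, y, hy⟩ := forth e hf h x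
        exact ⟨R', a, b, c, _, hy, rfl⟩
      · obtain ⟨R', a, b, c, x, hx⟩ := back e hf h y
        exact ⟨R', a, b, c, _, hx, rfl⟩) hf h
  choose p hp hq using hD
  have h1 : ∀ x, (p (.inl x)).1 = x := fun x => hq (.inl x)
  have h2 : ∀ x, (p (.inr x)).2 = x := fun x => hq (.inr x)
  let σ : N ≃ N :=
    { toFun := fun x => (p (.inl x)).2
      invFun := fun y => (p (.inr y)).1
      left_inv := fun x => by
        have := (hG.eq _ (hp (.inr (p (.inl x)).2)) _ (hp (.inl x))).2 (h2 _)
        rw [h1] at this; exact this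
      right_inv := fun y => by
        have := (hG.eq _ (hp (.inl (p (.inr y)).1)) _ (hp (.inr y))).1 (h1 _)
        rw [h2] at this; exact this }
  refine ⟨σ, fun q hq => (hG.eq _ (hp (.inl q.1)) _ (hR hq)).1 (h1 _), fun κ t ht => ?_⟩
  have := hG.col κ (fun r => p (.inl (t r))) (fun r => hp _) (fun r s hrs => ht (by
      rw [← h1 (t r), ← h1 (t s)]; exact congrArg Prod.fst hrs))
  simp only [h1] at this
  exact this.symm

theorem fin_keys (hI : ∀ m, {κ | ar κ < m}.Finite) {N : Type} {F : Set N} (hF : F.Finite) :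
    {k : Σ κ : I, (Fin (ar κ + 1) → N) | Injective k.2 ∧ ∀ r, k.2 r ∈ F}.Finite := by
  haveI := hF.to_subtype
  haveI := (hI (Nat.card F)).to_subtype
  refine (Set.finite_range (fun k : Σ κ : {κ | ar κ < Nat.card F}, (Fin (ar κ.1 + 1) → F) =>
    (⟨k.1.1, fun r => (k.2 r).1⟩ : Σ κ : I, (Fin (ar κ + 1) → N)))).subset ?_
  rintro ⟨κ, t⟩ ⟨hi, ht⟩
  have : Nat.card (Fin (ar κ + 1)) ≤ Nat.card F :=
    Nat.card_le_card_of_injective (fun r => (⟨t r, ht r⟩ : F)) (fun r s h => hi (congrArg Subtype.val h))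
  rw [Nat.card_eq_fintype_card, Fintype.card_fin] at this
  exact ⟨⟨⟨κ, this⟩, fun r => ⟨t r, ht r⟩⟩, rfl⟩

/-- existence of the generic structure on the natural numbers -/
theorem exists_EP [Countable I] [Countable B] [Zero B] (hI : ∀ m, {κ | ar κ < m}.Finite) :
    ∃ d : Col ar B ℕ, EP d := by
  classical
  obtain ⟨dec, hdec⟩ := exists_surjective_nat
    ((Σ κ : I, (Fin (ar κ + 1) → Option ℕ)) →₀ B)
  refine ⟨fun κ t => dec (Finset.univ.sup t).unpair.1
    ⟨κ, fun r => if t r = Finset.univ.sup t then none else some (t r)⟩, fun F hF p => ?_⟩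
  have hK := fin_keys hI (F := insert none (some '' F)) ((hF.image _).insert _)
  obtain ⟨a, ha⟩ := hdec (Finsupp.indicator hK.toFinset (fun k _ => p k.1 k.2))
  obtain ⟨b, hb⟩ := hF.bddAbove
  have hlt : ∀ y ∈ F, y < a.pair (b + 1) := fun y hy =>
    lt_of_lt_of_le (Nat.lt_succ_of_le (hb hy)) (Nat.right_le_pair _ _)
  refine ⟨a.pair (b + 1), fun h => lt_irrefl _ (hlt _ h), fun κ t hi ⟨r0, hr0⟩ ht => ?_⟩
  have hs : Finset.univ.sup (fun r => (t r).getD (a.pair (b + 1))) = a.pair (b + 1) := by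
    apply le_antisymm
    · apply Finset.sup_le
      intro r _
      cases h : t r with
      | none => simp
      | some y => exact (hlt y (ht r y h)).le
    · have := Finset.le_sup (f := fun r => (t r).getD (a.pair (b + 1))) (Finset.mem_univ r0)
      simpa [hr0] using this
  simp only [hs, Nat.unpair_pair, ha]
  have : (fun r => if (t r).getD (a.pair (b + 1)) = a.pair (b + 1) then none
      else some ((t r).getD (a.pair (b + 1)))) = t := by
    funext r
    cases h : t r with
    | none => simp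
    | some y => simp [(hlt y (ht r y h)).ne]
  rw [this, Finsupp.indicator_of_mem]
  rw [Set.Finite.mem_toFinset]
  refine ⟨hi, fun r => ?_⟩
  cases h : t r with
  | none => simp [h]
  | some y => exact Or.inr ⟨y, ht r y h, h.symm⟩

end H67.Col
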