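import Mathlib
import Pool.Agent.H67.Col1

/-! A closed oligomorphic clone with a homomorphism to the projections, part 1. -/

namespace H67.Col

open Function

abbrev Z := ZMod 2
abbrev J (n : ℕ) := {φ : Fin (n + 1) → Z // φ ≠ 0}
abbrev Idx := Σ n, J n
abbrev ar0 (κ : Idx) : ℕ := κ.1
abbrev B0 := Z × Z
abbrev Op (k : ℕ) := (Fin k → ℕ) → ℕ
abbrev Dat (n k : ℕ) := J n → (Fin k → B0) → B0

def Good (n k : ℕ) (F : Dat n k) : Prop :=
  ∀ v : Fin k → Fin (n + 1) → Z, ∃ w : Fin (n + 1) → Z, ∀ φ s, ∃ i, ∀ b : Fin k → Z,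
    F φ (fun j => (s + φ.1 ⬝ᵥ v j, b j)) = (s + φ.1 ⬝ᵥ w, b i)

def Data (c : Col ar0 B0 ℕ) {k : ℕ} (f : Op k) (n : ℕ) (F : Dat n k) : Prop :=
  ∀ φ (a : Fin k → Fin (n + 1) → ℕ), (∀ j, Injective (a j)) →
    c ⟨n, φ⟩ (fun r => f (fun j => a j r)) = F φ (fun j => c ⟨n, φ⟩ (a j))

def NeP {k : ℕ} (f : Op k) : Prop := ∀ x y, (∀ j, x j ≠ y j) → f x ≠ f y

def Cl (c : Col ar0 B0 ℕ) (k : ℕ) : Set (Op k) :=
  {f | NeP f ∧ ∀ n, ∃ F, Good n k F ∧ Data c f n F}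

variable {c : Col ar0 B0 ℕ}

theorem NeP.inj {k m : ℕ} {f : Op k} (h : NeP f) {a : Fin k → Fin m → ℕ}
    (ha : ∀ j, Injective (a j)) : Injective (fun r => f (fun j => a j r)) := by
  intro r s hrs
  by_contra hne
  exact h _ _ (fun j hj => hne (ha j hj)) hrs

theorem good_proj (n k : ℕ) (i : Fin k) : Good n k (fun _ y => y i) :=
  fun v => ⟨v i, fun _ _ => ⟨i, fun _ => rfl⟩⟩

theorem proj_mem (k : ℕ) (i : Fin k) : (fun x : Fin k → ℕ => x i) ∈ Cl c k :=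
  ⟨fun _ _ h => h i, fun n => ⟨_, good_proj n k i, fun _ _ _ => rfl⟩⟩

theorem Data.comp {k m n : ℕ} {f : Op k} {g : Fin k → Op m} {F : Dat n k}
    {G : Fin k → Dat n m}
    (hf : Data c f n F) (hg : ∀ i, Data c (g i) n (G i)) (hn : ∀ i, NeP (g i)) :
    Data c (fun x => f (fun i => g i x)) n (fun φ y => F φ (fun i => G i φ y)) := by
  intro φ a ha
  have := hf φ (fun i r => g i (fun j => a j r)) (fun i => (hn i).inj ha)
  refine this.trans ?_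
  congr 1
  funext i
  exact hg i φ a ha

theorem comp_mem (k m : ℕ) (f : Op k) (g : Fin k → Op m) (hf : f ∈ Cl c k)
    (hg : ∀ i, g i ∈ Cl c m) : (fun x : Fin m → ℕ => f (fun i => g i x)) ∈ Cl c m := by
  refine ⟨fun x y h => hf.1 _ _ fun i => (hg i).1 x y h, fun n => ?_⟩
  obtain ⟨F, hF, hd⟩ := hf.2 n
  choose G hG hd' using fun i => (hg i).2 n
  refine ⟨_, fun v => ?_, hd.comp hd' fun i => (hg i).1⟩
  choose w hw using fun i => hG i v
  obtain ⟨u, hu⟩ := hF w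
  refine ⟨u, fun φ s => ?_⟩
  obtain ⟨i, hi⟩ := hu φ s
  choose j hj using fun l => hw l φ s
  refine ⟨j i, fun b => ?_⟩
  simp only [hj]
  exact hi fun l => b (j l)

theorem closed (k : ℕ) : IsClosed (Cl c k) := by
  have e : Cl c k = (⋂ x : Fin k → ℕ, ⋂ y : Fin k → ℕ, ⋂ _ : ∀ j, x j ≠ y j,
      (fun f : Op k => (f x, f y)) ⁻¹' {p | p.1 ≠ p.2}) ∩
      ⋂ n, ⋃ F : {F : Dat n k // Good n k F}, ⋂ φ : J n, ⋂ a : Fin k → Fin (n + 1) → ℕ,
        ⋂ _ : ∀ j, Injective (a j), (fun (f : Op k) r => f (fun j => a j r)) ⁻¹'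
          {t | c ⟨n, φ⟩ t = F.1 φ (fun j => c ⟨n, φ⟩ (a j))} := by
    ext f
    simp only [Cl, NeP, Data, Set.mem_setOf_eq, Set.mem_inter_iff, Set.mem_iInter, Set.mem_iUnion,
      Set.mem_preimage, Subtype.exists, exists_prop]
  rw [e]
  refine IsClosed.inter (isClosed_iInter fun x => isClosed_iInter fun y => isClosed_iInter fun _ =>
    (isClosed_discrete _).preimage (by fun_prop)) (isClosed_iInter fun n =>
    isClosed_iUnion_of_finite fun F => isClosed_iInter fun φ => isClosed_iInter fun a =>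
    isClosed_iInter fun _ => (isClosed_discrete _).preimage (by fun_prop))

theorem un_mem {σ : ℕ → ℕ} (hi : Injective σ)
    (h : ∀ κ (t : Fin (ar0 κ + 1) → ℕ), Injective t → c κ (fun r => σ (t r)) = c κ t) :
    (fun y : Fin 1 → ℕ => σ (y 0)) ∈ Cl c 1 :=
  ⟨fun _ _ hx he => hx 0 (hi he), fun n => ⟨_, good_proj n 1 0, fun φ a ha => h ⟨n, φ⟩ (a 0) (ha 0)⟩⟩

theorem oligo (e : EP c) (k : ℕ) : ∃ S : Finset (Fin k → ℕ), ∀ x : Fin k → ℕ, ∃ s ∈ S,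
    ∃ σ τ : ℕ → ℕ, (fun y : Fin 1 → ℕ => σ (y 0)) ∈ Cl c 1 ∧
      (fun y : Fin 1 → ℕ => τ (y 0)) ∈ Cl c 1 ∧
      LeftInverse τ σ ∧ RightInverse τ σ ∧ σ ∘ s = x := by
  classical
  let tp : (Fin k → ℕ) → (Fin k → Fin k → Prop) ×
      ((n : Fin k) → J n → (Fin (n + 1) → Fin k) → B0) :=
    fun x => (fun i j => x i = x j, fun n φ u => c ⟨n, φ⟩ (fun r => x (u r)))
  refine ⟨(Set.finite_range (fun y => invFun tp y)).toFinset, fun x => ⟨invFun tp (tp x), by simp, ?_⟩⟩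
  set s := invFun tp (tp x) with hs
  have h : tp s = tp x := invFun_eq ⟨x, rfl⟩
  have h1 : ∀ i j, s i = s j ↔ x i = x j := fun i j =>
    iff_of_eq (congrFun (congrFun (congrArg Prod.fst h) i) j)
  obtain ⟨σ, hσ, hc⟩ := homog e (R := Set.range fun i => (s i, x i)) (Set.finite_range _) ⟨by
    rintro _ ⟨i, rfl⟩ _ ⟨j, rfl⟩
    exact h1 i j, by
    rintro ⟨n, φ⟩ t ht hi
    choose u hu using ht
    have hu' : Injective u := fun r r' hr => hi (by rw [← hu r, ← hu r', hr])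
    have hn : n + 1 ≤ k := by simpa using Fintype.card_le_of_injective u hu'
    have := congrFun (congrFun (congrFun (congrArg Prod.snd h) ⟨n, hn⟩) φ) u
    simp only [← hu]
    exact this⟩
  refine ⟨σ, σ.symm, un_mem σ.injective hc, un_mem σ.symm.injective fun κ t ht => ?_,
    σ.left_inv, σ.right_inv, funext fun i => hσ _ ⟨i, rfl⟩⟩
  have := hc κ (fun r => σ.symm (t r)) (σ.symm.injective.comp ht)
  simpa using this.symm

theorem real (e : EP c) (n : ℕ) (φ : J n) (b : B0) :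
    ∃ t : Fin (n + 1) → ℕ, Injective t ∧ c ⟨n, φ⟩ t = b := by
  obtain ⟨E, h1, h2⟩ := univ (N := Fin (n + 1)) (fun _ _ => b) e
  exact ⟨E, h1, h2 ⟨n, φ⟩ id injective_id⟩

def Sel (c : Col ar0 B0 ℕ) {k : ℕ} (f : Op k) (x : Idx) (i : Fin k) : Prop :=
  ∀ a : Fin k → Fin (x.1 + 1) → ℕ, (∀ j, Injective (a j)) → (∀ j, (c x (a j)).1 = 0) →
    (c x (fun r => f (fun j => a j r))).2 = (c x (a i)).2

theorem Sel.uniq (e : EP c) {k : ℕ} {f : Op k} {x : Idx} {i j : Fin k} (hi : Sel c f x i)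
    (hj : Sel c f x j) : i = j := by
  classical
  by_contra hne
  obtain ⟨n, φ⟩ := x
  choose t h1 h2 using real e n φ
  have a1 : ∀ l : Fin k, (c ⟨n, φ⟩ (t (0, if l = i then 1 else 0))).1 = 0 := fun l => by rw [h2]
  have := (hi (fun l => t (0, if l = i then 1 else 0)) (fun l => h1 _) a1).symm.trans
    (hj (fun l => t (0, if l = i then 1 else 0)) (fun l => h1 _) a1)
  rw [h2, h2] at this
  simp [Ne.symm hne] at this

theorem sel_pos {k : ℕ} {f : Op k} (hf : f ∈ Cl c k) :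
    (∀ x, ∃ i, Sel c f x i) ∧ ∃ w : (n : ℕ) → Fin (n + 1) → Z, ∀ x : Idx, x.2.1 ⬝ᵥ w x.1 = 0 →
      ∀ a : Fin k → Fin (x.1 + 1) → ℕ, (∀ j, Injective (a j)) → (∀ j, (c x (a j)).1 = 0) →
      (c x (fun r => f (fun j => a j r))).1 = 0 := by
  choose F hF hd using hf.2
  choose w hw using fun n => hF n 0
  have key : ∀ n φ, ∃ i, ∀ a : Fin k → Fin (n + 1) → ℕ, (∀ j, Injective (a j)) →
      (∀ j, (c ⟨n, φ⟩ (a j)).1 = 0) →
      c ⟨n, φ⟩ (fun r => f (fun j => a j r)) = (φ.1 ⬝ᵥ w n, (c ⟨n, φ⟩ (a i)).2) := by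
    intro n φ
    obtain ⟨i, hi⟩ := hw n φ 0
    refine ⟨i, fun a ha h0 => ?_⟩
    have := hi fun j => (c ⟨n, φ⟩ (a j)).2
    simp only [Pi.zero_apply, dotProduct_zero, zero_add, add_zero] at this
    rw [hd n φ a ha, ← this]
    congr 1
    funext j
    exact Prod.ext (h0 j) rfl
  refine ⟨fun ⟨n, φ⟩ => ?_, w, fun ⟨n, φ⟩ hx a ha h0 => ?_⟩
  · obtain ⟨i, hi⟩ := key n φ
    exact ⟨i, fun a ha h0 => by rw [hi a ha h0]⟩
  · obtain ⟨i, hi⟩ := key n φ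
    exact (congrArg Prod.fst (hi a ha h0)).trans hx

theorem exists_ultra : ∃ W : Ultrafilter Idx, ∀ w : (n : ℕ) → Fin (n + 1) → Z,
    {x : Idx | x.2.1 ⬝ᵥ w x.1 = 0} ∈ W := by
  classical
  obtain ⟨W, hW⟩ := Ultrafilter.exists_ultrafilter_of_finite_inter_nonempty
    (Set.range fun w : (n : ℕ) → Fin (n + 1) → Z => {x : Idx | x.2.1 ⬝ᵥ w x.1 = 0}) (by
      intro T hT
      choose w hw using fun s : T => hT s.2
      obtain ⟨φ, ψ, hne, he⟩ := Fintype.exists_ne_map_eq_of_card_lt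
        (fun (φ : Fin (T.card + 1) → Z) (s : T) => φ ⬝ᵥ w s T.card)
        (by simp [Nat.pow_lt_pow_iff_right])
      refine ⟨⟨T.card, φ - ψ, sub_ne_zero.2 hne⟩, fun s hs => ?_⟩
      have := hw ⟨s, hs⟩
      simp only at this
      rw [← this]
      show (φ - ψ) ⬝ᵥ w ⟨s, hs⟩ T.card = 0
      rw [sub_dotProduct, sub_eq_zero]
      exact congrFun he ⟨s, hs⟩)
  exact ⟨W, fun w => hW ⟨w, rfl⟩⟩

theorem exists_hom (e : EP c) : ∃ ξ : ∀ n : ℕ, Op n → ℕ,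
    (∀ (n : ℕ) (f : Op n), f ∈ Cl c n → ξ n f < n) ∧
    (∀ (n : ℕ) (i : Fin n), ξ n (fun x : Fin n → ℕ => x i) = (i : ℕ)) ∧
    (∀ (n m : ℕ) (f : Op n) (g : Fin n → Op m),
      f ∈ Cl c n → (∀ i, g i ∈ Cl c m) → ∀ i : Fin n, ξ n f = (i : ℕ) →
      ξ m (fun x : Fin m → ℕ => f (fun j => g j x)) = ξ m (g i)) := by
  classical
  obtain ⟨W, hW⟩ := exists_ultra
  let ξ : ∀ n : ℕ, Op n → ℕ := fun n f =>
    if h : ∃ i : Fin n, {x | Sel c f x i} ∈ W then h.choose else 0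
  have h1 : ∀ n (f : Op n) (i : Fin n), {x | Sel c f x i} ∈ W → ξ n f = i := by
    intro n f i hi
    have h : ∃ i : Fin n, {x | Sel c f x i} ∈ W := ⟨i, hi⟩
    simp only [ξ, dif_pos h]
    obtain ⟨x, hx, hy⟩ := W.nonempty_of_mem (Filter.inter_mem h.choose_spec hi)
    exact congrArg Fin.val (Sel.uniq e hx hy)
  have h2 : ∀ n (f : Op n), f ∈ Cl c n → ∃ i : Fin n, {x | Sel c f x i} ∈ W := by
    intro n f hf
    have : (⋃ i ∈ (Set.univ : Set (Fin n)), {x | Sel c f x i}) ∈ W := by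
      refine Filter.mem_of_superset Filter.univ_mem fun x _ => ?_
      simpa using (sel_pos hf).1 x
    obtain ⟨i, -, hi⟩ := (Ultrafilter.finite_biUnion_mem_iff Set.finite_univ).1 this
    exact ⟨i, hi⟩
  refine ⟨ξ, fun n f hf => ?_, fun n i => h1 _ _ _ (Filter.univ_mem' fun x a _ _ => rfl),
    fun n m f g hf hg i hi => ?_⟩
  · obtain ⟨i, hi⟩ := h2 n f hf
    rw [h1 n f i hi]; exact i.2
  · obtain ⟨i', hi'⟩ := h2 n f hf
    obtain rfl : i' = i := Fin.ext ((h1 _ _ _ hi').symm.trans hi)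
    obtain ⟨j, hj⟩ := h2 m _ (hg i')
    rw [h1 _ _ _ hj]
    apply h1
    choose w hw using fun l => (sel_pos (hg l)).2
    have h3 : (⋂ l, {x : Idx | x.2.1 ⬝ᵥ w l x.1 = 0}) ∈ W :=
      Filter.iInter_mem.2 fun l => hW (w l)
    refine Filter.mem_of_superset (Filter.inter_mem h3 (Filter.inter_mem hi' hj)) ?_
    rintro x ⟨a1, a2, a3⟩ a ha h0
    exact (a2 (fun l r => g l (fun j => a j r)) (fun l => (hg l).1.inj ha)
      (fun l => hw l x (Set.mem_iInter.1 a1 l) a ha h0)).trans (a3 a ha h0)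

end H67.Col
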