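import Mathlib
import Pool.Agent.H67.Col2

/-! A closed oligomorphic clone with a homomorphism to the projections, part 2: there is no
continuous one. -/

namespace H67.Col

open Function

variable {c : Col ar0 B0 ℕ}

structure CH (c : Col ar0 B0 ℕ) (ξ : ∀ n : ℕ, Op n → ℕ) : Prop where
  lt : ∀ (n : ℕ) (f : Op n), f ∈ Cl c n → ξ n f < n
  pr : ∀ (n : ℕ) (i : Fin n), ξ n (fun x : Fin n → ℕ => x i) = (i : ℕ)
  cp : ∀ (n m : ℕ) (f : Op n) (g : Fin n → Op m),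
      f ∈ Cl c n → (∀ i, g i ∈ Cl c m) → ∀ i : Fin n, ξ n f = (i : ℕ) →
      ξ m (fun x : Fin m → ℕ => f (fun j => g j x)) = ξ m (g i)
  ct : ∀ n : ℕ, ContinuousOn (ξ n) (Cl c n)

variable {ξ : ∀ n : ℕ, Op n → ℕ}

theorem CH.un (h : CH c ξ) {u : Op 1} (hu : u ∈ Cl c 1) {k : ℕ} {f : Op k} (hf : f ∈ Cl c k) :
    ξ k (fun x => u (fun _ => f x)) = ξ k f :=
  h.cp 1 k u (fun _ => f) hu (fun _ => hf) 0 (by have := h.lt 1 u hu; simp; omega)

theorem un_comp {u : Op 1} (hu : u ∈ Cl c 1) {k : ℕ} {f : Op k} (hf : f ∈ Cl c k) :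
    (fun x => u (fun _ => f x)) ∈ Cl c k := comp_mem 1 k u (fun _ => f) hu (fun _ => hf)

/-- continuity and homogeneity -/
theorem CH.loc (e : EP c) (h : CH c ξ) {k : ℕ} {g : Op k} (hg : g ∈ Cl c k) (gi : Injective g) :
    ∃ m, ∀ f ∈ Cl c k, Injective f → (∀ n < m, ∀ φ (t : Fin (n + 1) → Fin k → ℕ), Injective t →
      c ⟨n, φ⟩ (fun r => f (t r)) = c ⟨n, φ⟩ (fun r => g (t r))) → ξ k f = ξ k g := by
  classical
  have h1 := h.ct k g hg
  have h2 : (ξ k) ⁻¹' {ξ k g} ∈ nhdsWithin g (Cl c k) :=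
    h1 ((isOpen_discrete _).mem_nhds rfl)
  rw [mem_nhdsWithin_iff_exists_mem_nhds_inter] at h2
  obtain ⟨U, hU, hU'⟩ := h2
  rw [nhds_pi, Filter.mem_pi'] at hU
  obtain ⟨E, V, hV, hE⟩ := hU
  refine ⟨E.card, fun f hf fi hc => ?_⟩
  obtain ⟨σ, hσ, hs⟩ := homog e (R := (fun x => (f x, g x)) '' E) (E.finite_toSet.image _) ⟨by
    rintro _ ⟨i, -, rfl⟩ _ ⟨j, -, rfl⟩
    simp [fi.eq_iff, gi.eq_iff], by
    rintro ⟨n, φ⟩ t ht hi
    choose u hu hu2 using ht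
    have hu' : Injective u := fun r r' hr => hi (by rw [← hu2 r, ← hu2 r', hr])
    have hn : n + 1 ≤ E.card := by
      simpa using Fintype.card_le_of_injective (fun r => (⟨u r, hu r⟩ : E))
        (fun r s hrs => hu' (congrArg Subtype.val hrs))
    simp only [← hu2]
    exact hc n hn φ u hu'⟩
  have hm := un_mem σ.injective hs
  rw [← h.un hm hf]
  refine hU' ⟨hE fun x hx => ?_, un_comp hm hf⟩
  have : σ (f x) = g x := hσ _ ⟨x, hx, rfl⟩
  show σ (f x) ∈ V x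
  rw [this]
  exact mem_of_mem_nhds (hV x)

def Same (c : Col ar0 B0 ℕ) {k : ℕ} (f g : Op k) : Prop :=
  ∀ n φ (a : Fin k → Fin (n + 1) → ℕ), (∀ j, Injective (a j)) →
    c ⟨n, φ⟩ (fun r => f (fun j => a j r)) = c ⟨n, φ⟩ (fun r => g (fun j => a j r))

theorem neP_of_inj {k : ℕ} {f : Op (k + 1)} (h : Injective f) : NeP f :=
  fun _ _ hx he => hx 0 (congrFun (h he) 0)

theorem inj_of {k m : ℕ} {a : Fin (k + 1) → Fin m → ℕ} (h : ∀ j, Injective (a j)) :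
    Injective (fun r j => a j r) := fun _ _ hr => h 0 (congrFun hr 0)

theorem CH.glue (e : EP c) (h : CH c ξ) {k : ℕ} {f1 f2 g1 g2 : Op k} (hf1 : f1 ∈ Cl c k)
    (hf2 : f2 ∈ Cl c k) (hg1 : g1 ∈ Cl c k) (hg2 : g2 ∈ Cl c k) (i1 : Injective f1)
    (i2 : Injective f2) (s1 : Same c f1 g1) (s2 : Same c f2 g2) :
    ξ k f1 = ξ k f2 ∨ (ξ k f1 = ξ k g1 ∧ ξ k f2 = ξ k g2) := by
  classical
  obtain ⟨E, hE, hEc⟩ := univ (N := ℕ × Bool) (fun κ t => c κ (fun r => (t r).1)) e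
  have eb : ∀ b κ (t : Fin (ar0 κ + 1) → ℕ), Injective t → c κ (fun r => E (t r, b)) = c κ t :=
    fun b κ t ht => hEc κ (fun r => (t r, b)) fun r s hrs => ht (congrArg Prod.fst hrs)
  have em : ∀ b, (fun y : Fin 1 → ℕ => E (y 0, b)) ∈ Cl c 1 := fun b =>
    un_mem (σ := fun x => E (x, b)) (fun x y hxy => congrArg Prod.fst (hE hxy)) (eb b)
  obtain ⟨S, hS, hSc⟩ := univ (N := Fin (k + 1) → ℕ) (fun κ t =>
    if ∀ r, t r 0 = E (g1 (Fin.tail (t r)), false) then c κ (fun r => f1 (Fin.tail (t r)))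
    else if ∀ r, t r 0 = E (g2 (Fin.tail (t r)), true) then c κ (fun r => f2 (Fin.tail (t r)))
    else c κ (fun r => t r 0)) e
  have Sm : S ∈ Cl c (k + 1) := by
    refine ⟨neP_of_inj hS, fun n => ⟨_, good_proj n _ 0, fun φ a ha => ?_⟩⟩
    rw [hSc ⟨n, φ⟩ _ (inj_of ha)]
    split_ifs with b1 b2
    · have : a 0 = fun r => E (g1 (fun j => a j.succ r), false) := funext b1
      show _ = c ⟨n, φ⟩ (a 0)
      rw [this, eb false ⟨n, φ⟩ _ (hg1.1.inj fun j => ha j.succ)]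
      exact s1 n φ (fun j => a j.succ) fun j => ha j.succ
    · have : a 0 = fun r => E (g2 (fun j => a j.succ r), true) := funext b2
      show _ = c ⟨n, φ⟩ (a 0)
      rw [this, eb true ⟨n, φ⟩ _ (hg2.1.inj fun j => ha j.succ)]
      exact s2 n φ (fun j => a j.succ) fun j => ha j.succ
    · rfl
  let G : Op k → Bool → Fin (k + 1) → Op k := fun g b =>
    Fin.cons (fun x => E (g x, b)) (fun j x => x j)
  have Gm : ∀ g ∈ Cl c k, ∀ b j, G g b j ∈ Cl c k := fun g hg b j =>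
    Fin.cases (un_comp (em b) hg) (fun j => proj_mem k j) j
  have Gt : ∀ g b x, Fin.tail (fun j => G g b j x) = x := fun g b x => rfl
  have Gi : ∀ g b, Injective (fun x j => G g b j x) := fun g b x y hxy => by
    rw [← Gt g b x, ← Gt g b y]; exact congrArg Fin.tail hxy
  have a1 : ξ k (fun x => S (fun j => G g1 false j x)) = ξ k f1 := by
    obtain ⟨m, hm⟩ := h.loc e hf1 i1
    refine hm _ (comp_mem _ _ _ _ Sm (Gm g1 hg1 false)) (hS.comp (Gi g1 false)) fun n _ φ t ht => ?_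
    rw [hSc ⟨n, φ⟩ (fun r j => G g1 false j (t r)) ((Gi g1 false).comp ht), if_pos (by intro r; rfl)]
    rfl
  have a2 : ξ k (fun x => S (fun j => G g2 true j x)) = ξ k f2 := by
    obtain ⟨m, hm⟩ := h.loc e hf2 i2
    refine hm _ (comp_mem _ _ _ _ Sm (Gm g2 hg2 true)) (hS.comp (Gi g2 true)) fun n _ φ t ht => ?_
    rw [hSc ⟨n, φ⟩ (fun r j => G g2 true j (t r)) ((Gi g2 true).comp ht), if_neg (fun hh => by
      have := hE (hh 0)
      simp at this), if_pos (by intro r; rfl)]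
    rfl
  have b1 := h.cp _ _ S _ Sm (Gm g1 hg1 false) ⟨_, h.lt _ S Sm⟩ rfl
  have b2 := h.cp _ _ S _ Sm (Gm g2 hg2 true) ⟨_, h.lt _ S Sm⟩ rfl
  rw [a1] at b1
  rw [a2] at b2
  generalize (⟨_, h.lt _ S Sm⟩ : Fin (k + 1)) = j at b1 b2
  induction j using Fin.cases with
  | zero => exact Or.inr ⟨b1.trans (h.un (em false) hg1), b2.trans (h.un (em true) hg2)⟩
  | succ j => exact Or.inl (b1.trans b2.symm)

theorem CH.same (e : EP c) (h : CH c ξ) {k : ℕ} {f g : Op k} (hf : f ∈ Cl c k)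
    (hg : g ∈ Cl c k) (i1 : Injective f) (i2 : Injective g) (s : Same c f g) : ξ k f = ξ k g :=
  (h.glue e hf hg hg hg i1 i2 s (fun _ _ _ _ => rfl)).elim id And.left

open Classical in
theorem lift (e : EP c) {k : ℕ} (F : ∀ n, Dat n (k + 1)) :
    ∃ f : Op (k + 1), Injective f ∧ (∀ n, Data c f n (F n)) ∧
      ∀ n φ (t : Fin (n + 1) → Fin (k + 1) → ℕ), Injective t → c ⟨n, φ⟩ (fun r => f (t r)) =
        if ∀ j, Injective (fun r => t r j) then F n φ (fun j => c ⟨n, φ⟩ (fun r => t r j))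
        else 0 := by
  obtain ⟨S, hS, hSc⟩ := univ (N := Fin (k + 1) → ℕ) (ar := ar0) (fun (κ : Idx) t =>
    if ∀ j, Injective (fun r => t r j) then F κ.1 κ.2 (fun j => c κ (fun r => t r j)) else 0) e
  refine ⟨S, hS, fun n φ a ha => ?_, fun n φ t ht => hSc ⟨n, φ⟩ t ht⟩
  rw [hSc ⟨n, φ⟩ _ (inj_of ha), if_pos ha]

abbrev Pos := Σ n, J n × Z

open Classical in
noncomputable def PD (S : Set Pos) (n : ℕ) : Dat n 2 :=
  fun φ y => ((y 0).1, if (⟨n, φ, (y 0).1⟩ : Pos) ∈ S then (y 0).2 else (y 1).2)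

theorem good_PD (S : Set Pos) (n : ℕ) : Good n 2 (PD S n) := by
  intro v
  refine ⟨v 0, fun φ s => ?_⟩
  by_cases h : (⟨n, φ, s + φ.1 ⬝ᵥ v 0⟩ : Pos) ∈ S
  · exact ⟨0, fun b => by simp [PD, h]⟩
  · exact ⟨1, fun b => by simp [PD, h]⟩

theorem same_of {k : ℕ} {f g : Op k} {F G : ∀ n, Dat n k} (hf : ∀ n, Data c f n (F n))
    (hg : ∀ n, Data c g n (G n)) (h : ∀ n φ y, F n φ y = G n φ y) : Same c f g :=
  fun n φ a ha => (hf n φ a ha).trans ((h _ _ _).trans (hg n φ a ha).symm)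

theorem data_proj {k : ℕ} (i : Fin k) (n : ℕ) :
    Data c (fun x : Fin k → ℕ => x i) n (fun _ y => y i) := fun _ _ _ => rfl

theorem no_cont (e : EP c) (h : CH c ξ) : False := by
  classical
  choose p pi pd pc using fun S : Set Pos => lift e (k := 1) (PD S)
  have pm : ∀ S, p S ∈ Cl c 2 := fun S => ⟨neP_of_inj (pi S), fun n => ⟨_, good_PD S n, pd S n⟩⟩
  have two : ∀ S, ξ 2 (p S) ≠ 0 → ξ 2 (p S) = 1 := fun S hS => by
    have := h.lt 2 _ (pm S); omega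
  let x0 : Op 2 := fun x => x 0
  let x1 : Op 2 := fun x => x 1
  have m0 : x0 ∈ Cl c 2 := proj_mem 2 0
  have m1 : x1 ∈ Cl c 2 := proj_mem 2 1
  have v0 : ξ 2 x0 = 0 := h.pr 2 0
  have v1 : ξ 2 x1 = 1 := h.pr 2 1
  -- binary compositions
  have bm : ∀ S, ∀ a ∈ Cl c 2, ∀ b ∈ Cl c 2, (fun x => p S (fun j => ![a, b] j x)) ∈ Cl c 2 :=
    fun S a ha b hb => comp_mem _ _ _ _ (pm S) (Fin.forall_fin_two.2 ⟨ha, hb⟩)
  have b0 : ∀ S, ∀ a ∈ Cl c 2, ∀ b ∈ Cl c 2, ξ 2 (p S) = 0 →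
      ξ 2 (fun x => p S (fun j => ![a, b] j x)) = ξ 2 a := fun S a ha b hb hS =>
    h.cp 2 2 _ ![a, b] (pm S) (Fin.forall_fin_two.2 ⟨ha, hb⟩) 0 hS
  have b1 : ∀ S, ∀ a ∈ Cl c 2, ∀ b ∈ Cl c 2, ξ 2 (p S) = 1 →
      ξ 2 (fun x => p S (fun j => ![a, b] j x)) = ξ 2 b := fun S a ha b hb hS =>
    h.cp 2 2 _ ![a, b] (pm S) (Fin.forall_fin_two.2 ⟨ha, hb⟩) 1 hS
  have bd : ∀ S, ∀ a ∈ Cl c 2, ∀ b ∈ Cl c 2, ∀ A B : ∀ n, Dat n 2, (∀ n, Data c a n (A n)) →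
      (∀ n, Data c b n (B n)) → ∀ n, Data c (fun x => p S (fun j => ![a, b] j x)) n
        (fun φ y => PD S n φ (fun j => ![A n, B n] j φ y)) := fun S a ha b hb A B hA hB n =>
    (pd S n).comp (g := ![a, b]) (G := ![A n, B n]) (Fin.forall_fin_two.2 ⟨hA n, hB n⟩)
      (Fin.forall_fin_two.2 ⟨ha.1, hb.1⟩)
  have bi : ∀ S (a b : Op 2), (∀ x y, a x = a y → b x = b y → x = y) →
      Injective (fun x => p S (fun j => ![a, b] j x)) := fun S a b hab x y hxy =>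
    hab x y (congrFun (pi S hxy) 0) (congrFun (pi S hxy) 1)
  have e2 : ∀ x y : Fin 2 → ℕ, x 0 = y 0 → x 1 = y 1 → x = y := fun x y a b =>
    funext (Fin.forall_fin_two.2 ⟨a, b⟩)
  -- (1)
  have sw := bd Set.univ x1 m1 x0 m0 _ _ (data_proj 1) (data_proj 0)
  have swi := bi Set.univ x1 x0 fun x y a b => e2 x y b a
  have u1 : ξ 2 (p Set.univ) = 0 := by
    rcases h.glue e (pm Set.univ) (bm Set.univ x1 m1 x0 m0) m0 m1 (pi _) swi
      (same_of (pd _) (data_proj 0) (fun n φ y => by simp [PD]))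
      (same_of sw (data_proj 1) (fun n φ y => by simp [PD])) with a | a
    · by_contra hne
      rw [b1 _ _ m1 _ m0 (two _ hne), v0] at a
      exact hne a
    · exact a.1.trans v0
  -- (2)
  have u2 : ξ 2 (p ∅) ≠ 0 := by
    obtain ⟨M, Mi, Md, -⟩ := lift e (k := 2)
      (fun n φ y => ((y 0).1 + (y 1).1 + (y 2).1, (y 1).2))
    have Mm : M ∈ Cl c 3 := ⟨neP_of_inj Mi, fun n => ⟨_, fun v => ⟨v 0 + v 1 + v 2,
      fun φ s => ⟨1, fun b => by
        simp only [dotProduct_add, Prod.mk.injEq, and_true]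
        generalize φ.1 ⬝ᵥ v 0 = a; generalize φ.1 ⬝ᵥ v 1 = b; generalize φ.1 ⬝ᵥ v 2 = d
        revert s a b d; decide⟩⟩, Md n⟩⟩
    have zz : ∀ a b : Z, a + b + b = a ∧ a + b + a = b := by decide
    have g1 : ∀ j, ![x0, x1, x0] j ∈ Cl c 2 := fun j => by fin_cases j <;> assumption
    have g2 : ∀ j, ![x0, x1, x1] j ∈ Cl c 2 := fun j => by fin_cases j <;> assumption
    have c1 : ξ 2 (fun x => M (fun j => ![x0, x1, x0] j x)) = 1 := by
      rw [h.same e (comp_mem _ _ _ _ Mm g1) (bm Set.univ x1 m1 x0 m0)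
        (fun x y hxy => e2 x y (congrFun (Mi hxy) 0) (congrFun (Mi hxy) 1)) swi
        (same_of (fun n => (Md n).comp (G := ![fun _ y => y 0, fun _ y => y 1, fun _ y => y 0])
          (fun j => by fin_cases j <;> exact data_proj _ _) (fun j => (g1 j).1)) sw
          (fun n φ y => by simp [PD, (zz _ _).2])), b0 _ _ m1 _ m0 u1, v1]
    have c2 : ξ 2 (fun x => M (fun j => ![x0, x1, x1] j x)) = ξ 2 (p ∅) :=
      h.same e (comp_mem _ _ _ _ Mm g2) (pm _)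
        (fun x y hxy => e2 x y (congrFun (Mi hxy) 0) (congrFun (Mi hxy) 1)) (pi _)
        (same_of (fun n => (Md n).comp (G := ![fun _ y => y 0, fun _ y => y 1, fun _ y => y 1])
          (fun j => by fin_cases j <;> exact data_proj _ _) (fun j => (g2 j).1)) (pd _)
          (fun n φ y => by simp [PD, (zz _ _).1]))
    have d1 := h.cp _ _ M _ Mm g1 ⟨_, h.lt _ M Mm⟩ rfl
    have d2 := h.cp _ _ M _ Mm g2 ⟨_, h.lt _ M Mm⟩ rfl
    rw [c1] at d1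
    rw [c2] at d2
    generalize (⟨_, h.lt _ M Mm⟩ : Fin 3) = j at d1 d2
    fin_cases j <;> simp [v0, v1] at d1 d2 <;> omega
  -- (3)
  have u3 : ∀ S T, ξ 2 (p S) = 0 → ξ 2 (p T) = 0 → ξ 2 (p (S ∩ T)) = 0 := by
    intro S T hS hT
    rw [← h.same e (bm S _ (pm T) x1 m1) (pm _) (bi _ _ _ fun x y a _ => pi T a) (pi _)
      (same_of (bd S _ (pm T) x1 m1 _ _ (pd T) (data_proj 1)) (pd (S ∩ T)) fun n φ y => by
        by_cases a : (⟨n, φ, (y 0).1⟩ : Pos) ∈ S <;> by_cases b : (⟨n, φ, (y 0).1⟩ : Pos) ∈ T <;>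
          simp [PD, a, b]), b0 _ _ (pm T) _ m1 hS, hT]
  -- (4)
  have u4 : ∀ S T, ξ 2 (p S) ≠ 0 → ξ 2 (p T) ≠ 0 → ξ 2 (p (S ∪ T)) ≠ 0 := by
    intro S T hS hT
    rw [← h.same e (bm S x0 m0 _ (pm T)) (pm _) (bi _ _ _ fun x y _ a => pi T a) (pi _)
      (same_of (bd S x0 m0 _ (pm T) _ _ (data_proj 0) (pd T)) (pd (S ∪ T)) fun n φ y => by
        by_cases a : (⟨n, φ, (y 0).1⟩ : Pos) ∈ S <;> by_cases b : (⟨n, φ, (y 0).1⟩ : Pos) ∈ T <;>
          simp [PD, a, b]), b1 _ _ m0 _ (pm T) (two _ hS)]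
    exact hT
  -- (5)
  have u5 : ∀ (w : (n : ℕ) → Fin (n + 1) → Z) S, ξ 2 (p S) = 0 →
      ξ 2 (p {x | (⟨x.1, x.2.1, x.2.2 + x.2.1.1 ⬝ᵥ w x.1⟩ : Pos) ∈ S}) = 0 := by
    intro w S hS
    obtain ⟨T, Ti, Td, -⟩ := lift e (k := 0) (fun n φ y => ((y 0).1 + φ.1 ⬝ᵥ w n, (y 0).2))
    have Tm : T ∈ Cl c 1 := ⟨neP_of_inj Ti, fun n => ⟨_, fun v => ⟨v 0 + w n,
      fun φ s => ⟨0, fun b => by simp [dotProduct_add, add_assoc]⟩⟩, Td n⟩⟩
    have t0 := un_comp Tm m0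
    rw [← h.un Tm (pm _), ← h.same e (bm S _ t0 x1 m1) (un_comp Tm (pm _))
      (bi _ _ _ fun x y a b => e2 x y (congrFun (Ti a) 0) b)
      (fun x y a => pi _ (congrFun (Ti a) 0))
      (same_of (bd S _ t0 x1 m1 _ _ (fun n => (Td n).comp (g := fun _ => x0)
        (fun _ => data_proj 0 n) (fun _ => m0.1)) (data_proj 1))
        (fun n => (Td n).comp (g := fun _ => p _) (fun _ => pd _ n) (fun _ => (pm _).1))
        fun n φ y => by simp [PD]), b0 _ _ t0 _ m1 hS, h.un Tm m0, v0]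
  -- singletons
  have u6 : ∀ x : Pos, ξ 2 (p {x}) ≠ 0 := by
    rintro ⟨n, φ, s⟩ hx
    obtain ⟨i, hi⟩ := Function.ne_iff.1 φ.2
    have := u3 _ _ hx (u5 (fun m => if hm : m = n then Pi.single (i.cast (by rw [hm])) 1 else 0) _ hx)
    apply u2
    convert this using 3
    symm
    rw [Set.eq_empty_iff_forall_notMem]
    rintro _ ⟨rfl, h2⟩
    simp at h2
    exact hi h2
  have u7 : ∀ S : Set Pos, S.Finite → ξ 2 (p S) ≠ 0 := by
    intro S hS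
    induction S, hS using Set.Finite.induction_on with
    | empty => exact u2
    | insert _ _ ih => rw [Set.insert_eq]; exact u4 _ _ (u6 _) ih
  obtain ⟨m, hm⟩ := h.loc e (pm Set.univ) (pi _)
  refine u7 {x | x.1 < m} ?_ ((hm _ (pm _) (pi _) fun n hn φ t ht => ?_).trans u1)
  · refine (Set.finite_range (fun y : Σ n : Fin m, J n × Z => (⟨y.1, y.2⟩ : Pos))).subset ?_
    rintro ⟨n, y⟩ hn
    exact ⟨⟨⟨n, hn⟩, y⟩, rfl⟩
  · rw [pc _ n φ t ht, pc _ n φ t ht]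
    simp [PD, hn]

theorem exists_c : ∃ c : Col ar0 B0 ℕ, EP c := by
  refine exists_EP fun m => ?_
  refine (Set.finite_range (fun y : Σ n : Fin m, J n => (⟨y.1, y.2⟩ : Idx))).subset ?_
  rintro ⟨n, y⟩ hn
  exact ⟨⟨⟨n, hn⟩, y⟩, rfl⟩

end H67.Col
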