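import Mathlib

namespace Pool.Agent.H67.Coset

open MulAction

theorem PM {Γ Y1 Y2 : Type} [Group Γ] [MulAction Γ Y1] [MulAction Γ Y2] [Fintype Y1] [Fintype Y2]
    [DecidableEq Y1] [DecidableEq Y2] (K : Matrix Y1 Y2 ℤ) (L : Matrix Y2 Y1 ℤ)
    (h1 : K * L = 1) (h2 : L * K = 1) (hK : ∀ (g : Γ) a b, K (g • a) (g • b) = K a b) :
    ∃ e : (Y1 →₀ ℤ) ≃ₗ[ℤ] (Y2 →₀ ℤ), ∀ (g : Γ) (x : Y1 →₀ ℤ),
      e (Finsupp.mapDomain (g • ·) x) = Finsupp.mapDomain (g • ·) (e x) := by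
  have h1' : L.transpose * K.transpose = 1 := by rw [← Matrix.transpose_mul, h1, Matrix.transpose_one]
  have h2' : K.transpose * L.transpose = 1 := by rw [← Matrix.transpose_mul, h2, Matrix.transpose_one]
  let e := (Finsupp.linearEquivFunOnFinite ℤ ℤ Y1).trans
    ((Matrix.toLin'OfInv h1' h2').trans (Finsupp.linearEquivFunOnFinite ℤ ℤ Y2).symm)
  have he : ∀ x b, e x b = ∑ a, K a b * x a := fun x b => rfl
  refine ⟨e, fun g x => ?_⟩
  ext b
  obtain ⟨b, rfl⟩ := MulAction.surjective g b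
  rw [Finsupp.mapDomain_apply (MulAction.injective g), he, he]
  refine (Fintype.sum_equiv (MulAction.toPerm g) _ _ fun a => ?_).symm
  rw [MulAction.toPerm_apply, hK, Finsupp.mapDomain_apply (MulAction.injective g)]

theorem PM' {Γ X1 X2 : Type} [Group Γ] [MulAction Γ X1] [MulAction Γ X2] [Fintype X1] [Fintype X2]
    [DecidableEq X1] [DecidableEq X2] (K : Matrix X1 X2 ℤ) (L : Matrix X2 X1 ℤ)
    (h1 : K * L = 1) (h2 : L * K = 1) (hK : ∀ (g : Γ) a b, K (g • a) (g • b) = K a b)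
    (x1 : X1) (x2 : X2) (t1 : ∀ y, ∃ g : Γ, g • x1 = y) (t2 : ∀ y, ∃ g : Γ, g • x2 = y) :
    ∃ e : ((Γ ⧸ stabilizer Γ x1) →₀ ℤ) ≃ₗ[ℤ] ((Γ ⧸ stabilizer Γ x2) →₀ ℤ), ∀ (g : Γ) x,
      e (Finsupp.mapDomain (g • ·) x) = Finsupp.mapDomain (g • ·) (e x) := by
  classical
  let φ1 : (Γ ⧸ stabilizer Γ x1) ≃ X1 := Equiv.ofBijective (ofQuotientStabilizer Γ x1)
    ⟨injective_ofQuotientStabilizer Γ x1, fun y => by
      obtain ⟨g, hg⟩ := t1 y
      exact ⟨g, hg⟩⟩
  let φ2 : (Γ ⧸ stabilizer Γ x2) ≃ X2 := Equiv.ofBijective (ofQuotientStabilizer Γ x2)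
    ⟨injective_ofQuotientStabilizer Γ x2, fun y => by
      obtain ⟨g, hg⟩ := t2 y
      exact ⟨g, hg⟩⟩
  letI := Fintype.ofEquiv _ φ1.symm
  letI := Fintype.ofEquiv _ φ2.symm
  refine PM (K.submatrix φ1 φ2) (L.submatrix φ2 φ1) ?_ ?_ ?_
  · rw [Matrix.submatrix_mul_equiv, h1, Matrix.submatrix_one_equiv]
  · rw [Matrix.submatrix_mul_equiv, h2, Matrix.submatrix_one_equiv]
  · intro g a b
    have e1 : φ1 (g • a) = g • φ1 a := ofQuotientStabilizer_smul Γ x1 g a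
    have e2 : φ2 (g • b) = g • φ2 b := ofQuotientStabilizer_smul Γ x2 g b
    simp only [Matrix.submatrix_apply, e1, e2, hK]

def kr (T : Type) [DecidableEq T] {Ω1 Ω2 : Type} (K : Matrix Ω1 Ω2 ℤ) :
    Matrix (T × Ω1) (T × Ω2) ℤ := fun a b => if a.1 = b.1 then K a.2 b.2 else 0

theorem kr_mul (T : Type) [DecidableEq T] [Fintype T] {Ω1 Ω2 : Type} [Fintype Ω2] [DecidableEq Ω1]
    (K : Matrix Ω1 Ω2 ℤ) (L : Matrix Ω2 Ω1 ℤ) (h : K * L = 1) : kr T K * kr T L = 1 := by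
  ext ⟨a, i⟩ ⟨b, j⟩
  rw [Matrix.mul_apply, Fintype.sum_prod_type, Finset.sum_eq_single a]
  · have := congrFun (congrFun h i) j
    rw [Matrix.mul_apply] at this
    by_cases h : a = b
    · subst h
      simp [kr, this, Matrix.one_apply]
    · simp [kr, h, Matrix.one_apply]
  · intro c _ hc
    refine Finset.sum_eq_zero fun y _ => ?_
    simp [kr, hc.symm]
  · simp

section Ind
variable (A : Type) [Group A]

abbrev Gam := Equiv.Perm (Option A)

def io : A →* Gam A := MulAction.toPermHom A (Option A)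

theorem io_inj : Function.Injective (io A) := MulAction.toPerm_injective

abbrev Q := Gam A ⧸ (io A).range

variable {A}

noncomputable def β (γ : Gam A) (c : Q A) : A :=
  (MonoidHom.ofInjective (io_inj A)).symm ⟨(γ • c).out⁻¹ * γ * c.out, by
    rw [mul_assoc, ← QuotientGroup.eq, QuotientGroup.out_eq', ← smul_eq_mul,
      MulAction.Quotient.mk_smul_out]⟩

theorem io_β (γ : Gam A) (c : Q A) : io A (β γ c) = (γ • c).out⁻¹ * γ * c.out := by
  rw [β, MonoidHom.apply_ofInjective_symm]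

theorem β_one (c : Q A) : β 1 c = 1 := by
  apply io_inj
  rw [io_β]; simp

theorem β_mul (γ γ' : Gam A) (c : Q A) : β (γ * γ') c = β γ (γ' • c) * β γ' c := by
  apply io_inj
  rw [map_mul, io_β, io_β, io_β, mul_smul]; group

variable (A) in
def X (Ω : Type) := Q A × Ω

variable {Ω : Type} [MulAction A Ω]

noncomputable instance : MulAction (Gam A) (X A Ω) where
  smul γ x := (γ • x.1, β γ x.1 • x.2)
  one_smul x := by
    show ((1 : Gam A) • x.1, β 1 x.1 • x.2) = x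
    rw [one_smul, β_one, one_smul]; rfl
  mul_smul γ γ' x := by
    show ((γ * γ') • x.1, β (γ * γ') x.1 • x.2) = (γ • γ' • x.1, β γ (γ' • x.1) • β γ' x.1 • x.2)
    rw [mul_smul, β_mul, mul_smul]

theorem smul_X (γ : Gam A) (x : X A Ω) : γ • x = (γ • x.1, β γ x.1 • x.2) := rfl

theorem move (c c' : Q A) (a : A) : (c'.out * io A a * c.out⁻¹) • c = c' := by
  conv_lhs => rw [← QuotientGroup.out_eq' c]
  rw [MulAction.Quotient.smul_mk, QuotientGroup.out_eq', smul_eq_mul, inv_mul_cancel_right,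
    QuotientGroup.mk_mul_of_mem _ (MonoidHom.mem_range.2 ⟨a, rfl⟩), QuotientGroup.out_eq']

theorem β_move (c c' : Q A) (a : A) : β (c'.out * io A a * c.out⁻¹) c = a := by
  apply io_inj
  rw [io_β, move]; group

theorem X_trans (x : X A Ω) (t : ∀ y, ∃ a : A, a • x.2 = y) (y : X A Ω) :
    ∃ γ : Gam A, γ • x = y := by
  obtain ⟨a, ha⟩ := t y.2
  refine ⟨y.1.out * io A a * x.1.out⁻¹, ?_⟩
  rw [smul_X, move, β_move, ha]; rfl

noncomputable def stabEquiv (x : X A Ω) : stabilizer (Gam A) x ≃* stabilizer A x.2 where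
  toFun γ := ⟨β γ.1 x.1, congrArg Prod.snd γ.2⟩
  invFun a := ⟨x.1.out * io A a.1 * x.1.out⁻¹, by
    rw [mem_stabilizer_iff, smul_X, move, β_move, a.2]; rfl⟩
  left_inv γ := by
    apply Subtype.ext
    have h : γ.1 • x.1 = x.1 := congrArg Prod.fst γ.2
    show x.1.out * io A (β γ.1 x.1) * x.1.out⁻¹ = γ.1
    rw [io_β, h]; group
  right_inv a := Subtype.ext (β_move _ _ _)
  map_mul' γ γ' := by
    apply Subtype.ext
    have h : γ'.1 • x.1 = x.1 := congrArg Prod.fst γ'.2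
    show β (γ.1 * γ'.1) x.1 = β γ.1 x.1 * β γ'.1 x.1
    rw [β_mul, h]

theorem corefree (x : X A Ω) (N : Subgroup (Gam A)) (hN : N.Normal)
    (h : N ≤ stabilizer (Gam A) x) : N = ⊥ := by
  classical
  have h1 : ∀ n ∈ N, n none = none := by
    intro n hn
    have h2 := h (hN.conj_mem n hn x.1.out)
    have h3 : (x.1.out * n * x.1.out⁻¹) • x.1 = x.1 := congrArg Prod.fst h2
    have h4 := io_β (x.1.out * n * x.1.out⁻¹) x.1
    rw [h3] at h4
    have h5 : n = io A (β (x.1.out * n * x.1.out⁻¹) x.1) := by rw [h4]; group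
    rw [h5]
    rfl
  rw [eq_bot_iff]
  intro n hn
  rw [Subgroup.mem_bot]
  ext1 y
  have h2 := h1 _ (hN.conj_mem n hn (Equiv.swap none y))
  simp only [Equiv.Perm.mul_apply, Equiv.swap_inv, Equiv.swap_apply_left] at h2
  have h3 := congrArg (Equiv.swap none y) h2
  simpa using h3

theorem IND [Finite A] {Ω1 Ω2 : Type} [MulAction A Ω1] [MulAction A Ω2] [Fintype Ω1] [Fintype Ω2]
    [DecidableEq Ω1] [DecidableEq Ω2] (K : Matrix Ω1 Ω2 ℤ) (L : Matrix Ω2 Ω1 ℤ)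
    (h1 : K * L = 1) (h2 : L * K = 1) (hK : ∀ (g : A) a b, K (g • a) (g • b) = K a b)
    (x1 : Ω1) (x2 : Ω2) (t1 : ∀ y, ∃ g : A, g • x1 = y) (t2 : ∀ y, ∃ g : A, g • x2 = y) :
    ∃ H1 H2 : Subgroup (Gam A), (∀ N : Subgroup (Gam A), N.Normal → N ≤ H1 → N = ⊥) ∧
      (∀ N : Subgroup (Gam A), N.Normal → N ≤ H2 → N = ⊥) ∧
      (∃ e : ((Gam A ⧸ H1) →₀ ℤ) ≃ₗ[ℤ] ((Gam A ⧸ H2) →₀ ℤ), ∀ (g : Gam A) x,
        e (Finsupp.mapDomain (g • ·) x) = Finsupp.mapDomain (g • ·) (e x)) ∧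
      Nonempty (H1 ≃* stabilizer A x1) ∧ Nonempty (H2 ≃* stabilizer A x2) := by
  classical
  letI : Fintype (Q A) := Fintype.ofFinite _
  letI : Fintype (X A Ω1) := (inferInstance : Fintype (Q A × Ω1))
  letI : Fintype (X A Ω2) := (inferInstance : Fintype (Q A × Ω2))
  letI : DecidableEq (X A Ω1) := (inferInstance : DecidableEq (Q A × Ω1))
  letI : DecidableEq (X A Ω2) := (inferInstance : DecidableEq (Q A × Ω2))
  let c0 : Q A := ((1 : Gam A) : Q A)
  let y1 : X A Ω1 := (c0, x1)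
  let y2 : X A Ω2 := (c0, x2)
  refine ⟨stabilizer _ y1, stabilizer _ y2, corefree y1, corefree y2, ?_, ⟨stabEquiv y1⟩,
    ⟨stabEquiv y2⟩⟩
  refine PM' (X1 := X A Ω1) (X2 := X A Ω2) (kr (Q A) K) (kr (Q A) L) (kr_mul _ K L h1)
    (kr_mul _ L K h2) ?_ y1 y2 (X_trans y1 t1) (X_trans y2 t2)
  intro g a b
  show (if (g • a).1 = (g • b).1 then K (g • a).2 (g • b).2 else 0) = if a.1 = b.1 then K a.2 b.2 else 0
  simp only [smul_X, smul_left_cancel_iff]
  split_ifs with h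
  · rw [h, hK]
  · rfl

end Ind

def P (H : Type) [Group H] : Prop :=
  ∃ x : H, x ≠ 1 ∧ x ^ 3 = 1 ∧ ∀ h : H, h * x * h⁻¹ = x ∨ h * x * h⁻¹ = x⁻¹

theorem P_map {H H' : Type} [Group H] [Group H'] (e : H ≃* H') (h : P H) : P H' := by
  obtain ⟨x, h1, h2, h3⟩ := h
  refine ⟨e x, by simpa using h1, by rw [← map_pow, h2, map_one], fun y => ?_⟩
  obtain ⟨y, rfl⟩ := e.surjective y
  rw [← map_inv, ← map_mul, ← map_mul, ← map_inv]
  exact (h3 y).imp (congrArg e) (congrArg e)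

section Wr
variable (G Ω1 : Type) [Group G] [MulAction G Ω1]

abbrev S3 := Equiv.Perm (Fin 3)

def Wr := SemidirectProduct (Ω1 → S3) G mulAutArrow

instance : Group (Wr G Ω1) := inferInstanceAs (Group (SemidirectProduct (Ω1 → S3) G mulAutArrow))

instance [Finite G] [Finite Ω1] : Finite (Wr G Ω1) :=
  Finite.of_equiv _ (SemidirectProduct.equivProd (N := Ω1 → S3) (G := G) (φ := mulAutArrow)).symm

instance (Ω : Type) [MulAction G Ω] : MulAction (Wr G Ω1) Ω :=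
  MulAction.compHom Ω (SemidirectProduct.rightHom (N := Ω1 → S3) (G := G) (φ := mulAutArrow))

variable {G Ω1}

theorem Wr_smul {Ω : Type} [MulAction G Ω] (a : Wr G Ω1) (x : Ω) : a • x = a.right • x := rfl
theorem mul_l (a b : Wr G Ω1) (i : Ω1) : (a * b).left i = a.left i * b.left (a.right⁻¹ • i) := rfl
theorem mul_r (a b : Wr G Ω1) : (a * b).right = a.right * b.right := rfl
theorem inv_l (a : Wr G Ω1) (i : Ω1) : (a⁻¹).left i = (a.left (a.right⁻¹⁻¹ • i))⁻¹ := rfl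
theorem inv_r (a : Wr G Ω1) : (a⁻¹).right = a.right⁻¹ := rfl
theorem Wr_ext {a b : Wr G Ω1} (h1 : ∀ i, a.left i = b.left i) (h2 : a.right = b.right) : a = b :=
  SemidirectProduct.ext (funext h1) h2

theorem P1 [DecidableEq Ω1] (x1 : Ω1) : P (stabilizer (Wr G Ω1) x1) := by
  let c : S3 := finRotate 3
  let x : Wr G Ω1 := ⟨Pi.mulSingle x1 c, 1⟩
  refine ⟨⟨x, one_smul G x1⟩, ?_, ?_, ?_⟩
  · intro h
    have h1 : (Pi.mulSingle x1 c : Ω1 → S3) x1 = 1 :=
      congrArg (fun z : stabilizer (Wr G Ω1) x1 => z.1.left x1) h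
    rw [Pi.mulSingle_eq_same] at h1
    revert h1
    decide
  · apply Subtype.ext
    show x ^ 3 = 1
    rw [pow_succ, pow_two]
    refine Wr_ext (fun i => ?_) (by simp [mul_r, x]; rfl)
    simp only [mul_l, mul_r, x, mul_one, inv_one, one_smul]
    show _ = 1
    by_cases h : i = x1
    · rw [h, Pi.mulSingle_eq_same]; decide
    · simp [Pi.mulSingle_eq_of_ne h]
  · rintro ⟨h, hh⟩
    have hh' : h.right • x1 = x1 := hh
    have hh2 : h.right⁻¹ • x1 = x1 := by rw [inv_smul_eq_iff, hh']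
    have key : ∀ d : S3, h.left x1 * c * (h.left x1)⁻¹ = d →
        h * x * h⁻¹ = (⟨Pi.mulSingle x1 d, 1⟩ : Wr G Ω1) := by
      intro d hd
      refine Wr_ext (fun i => ?_) (by simp [mul_r, inv_r, x])
      simp only [mul_l, mul_r, inv_l, x, mul_one, inv_inv, smul_inv_smul]
      by_cases hi : i = x1
      · rw [hi, hh2, Pi.mulSingle_eq_same, Pi.mulSingle_eq_same, hd]
      · rw [Pi.mulSingle_eq_of_ne hi, Pi.mulSingle_eq_of_ne, mul_one, mul_inv_cancel]
        intro h3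
        apply hi
        rw [inv_smul_eq_iff, hh'] at h3
        exact h3
    have h3 : ∀ s : S3, s * c * s⁻¹ = c ∨ s * c * s⁻¹ = c⁻¹ := by decide
    rcases h3 (h.left x1) with h4 | h4
    · left
      exact Subtype.ext (key c h4)
    · right
      refine Subtype.ext ((key _ h4).trans ?_)
      refine Wr_ext (fun i => ?_) inv_one.symm
      show _ = (x⁻¹).left i
      simp only [inv_l, x, inv_one, one_smul]
      by_cases hi : i = x1
      · rw [hi, Pi.mulSingle_eq_same, Pi.mulSingle_eq_same]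
      · rw [Pi.mulSingle_eq_of_ne hi, Pi.mulSingle_eq_of_ne hi, inv_one]

theorem P2 [DecidableEq Ω1] {Ω2 : Type} [MulAction G Ω2] (x2 : Ω2)
    (hf : ∀ g : G, (∀ i : Ω1, g • i = i) → g = 1)
    (hfix : ∀ i : Ω1, ∃ g : G, g • x2 = x2 ∧ g • i ≠ i) : ¬ P (stabilizer (Wr G Ω1) x2) := by
  rintro ⟨⟨x, hx⟩, h1, h2, h3⟩
  have h2' : x ^ 3 = 1 := congrArg Subtype.val h2
  have h3' : ∀ h : Wr G Ω1, h.right • x2 = x2 → h * x * h⁻¹ = x ∨ h * x * h⁻¹ = x⁻¹ := fun h hh =>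
    (h3 ⟨h, hh⟩).imp (congrArg Subtype.val) (congrArg Subtype.val)
  have hr3 : x.right * x.right * x.right = 1 := by
    have := congrArg SemidirectProduct.right h2'
    rw [pow_succ, pow_two] at this
    exact this
  have hr : x.right = 1 := by
    by_contra hne
    apply hne
    apply hf
    intro i
    by_contra hi
    rcases h3' ⟨Pi.mulSingle i (finRotate 3), 1⟩ (one_smul G x2) with h | h
    · have h4 := congrArg (fun z : Wr G Ω1 => z.left i) h
      simp only [mul_l, mul_r, inv_l, inv_one, one_smul, one_mul, Pi.mulSingle_eq_same] at h4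
      rw [Pi.mulSingle_eq_of_ne (by rw [Ne, inv_smul_eq_iff]; exact fun h => hi h.symm), inv_one,
        mul_one, mul_eq_right] at h4
      revert h4
      decide
    · have h4 := congrArg SemidirectProduct.right h
      simp only [mul_r, inv_r, inv_one, one_mul, mul_one] at h4
      apply hne
      rw [← hr3]
      nth_rewrite 3 [h4]
      simp
  obtain ⟨i, hi⟩ : ∃ i, x.left i ≠ 1 := by
    by_contra hcon
    push Not at hcon
    exact h1 (Subtype.ext (Wr_ext hcon hr))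
  obtain ⟨g, hg, hgi⟩ := hfix i
  have h5 : x.left (g • i) ≠ 1 := by
    intro h6
    apply hi
    rcases h3' ⟨1, g⟩ hg with h | h
    · have h4 := congrArg (fun z : Wr G Ω1 => z.left (g • i)) h
      simpa [mul_l, mul_r, inv_l, h6] using h4
    · have h4 := congrArg (fun z : Wr G Ω1 => z.left (g • i)) h
      simpa [mul_l, mul_r, inv_l, h6, hr] using h4
  have h7 : ∀ c : S3, c ≠ 1 → ∃ s : S3, s * c * s⁻¹ ≠ c := by decide
  obtain ⟨s, hs⟩ := h7 _ hi
  rcases h3' ⟨Pi.mulSingle i s, 1⟩ (one_smul G x2) with h | h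
  · have h4 := congrArg (fun z : Wr G Ω1 => z.left i) h
    simp only [mul_l, mul_r, inv_l, inv_one, one_smul, one_mul, Pi.mulSingle_eq_same, hr] at h4
    exact hs h4
  · have h4 := congrArg (fun z : Wr G Ω1 => z.left (g • i)) h
    simp only [mul_l, mul_r, inv_l, inv_one, one_smul, one_mul, Pi.mulSingle_eq_of_ne hgi, hr,
      mul_one] at h4
    have h8 := congrArg (fun z : Wr G Ω1 => z.left (g • i)) h2'
    simp only [pow_succ, pow_zero, one_mul, mul_l, mul_r, hr, inv_one, one_smul, mul_one] at h8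
    apply h5
    have h9 : (1 : Wr G Ω1).left (g • i) = 1 := rfl
    rw [h9] at h8
    rw [← h8]
    nth_rewrite 3 [h4]
    simp

end Wr

theorem main {G Ω1 Ω2 : Type} [Group G] [Finite G] [MulAction G Ω1] [MulAction G Ω2]
    [Fintype Ω1] [Fintype Ω2] [DecidableEq Ω1] [DecidableEq Ω2]
    (K : Matrix Ω1 Ω2 ℤ) (L : Matrix Ω2 Ω1 ℤ)
    (h1 : K * L = 1) (h2 : L * K = 1) (hK : ∀ (g : G) a b, K (g • a) (g • b) = K a b)
    (x1 : Ω1) (x2 : Ω2) (t1 : ∀ y, ∃ g : G, g • x1 = y) (t2 : ∀ y, ∃ g : G, g • x2 = y)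
    (hf : ∀ g : G, (∀ i : Ω1, g • i = i) → (∀ i : Ω2, g • i = i) → g = 1)
    (hfix : ∀ i : Ω1, ∃ g : G, g • x2 = x2 ∧ g • i ≠ i) :
    ∃ (Γ : Type) (_ : Group Γ) (_ : Finite Γ) (H1 H2 : Subgroup Γ),
      (∀ N : Subgroup Γ, N.Normal → N ≤ H1 → N = ⊥) ∧
      (∀ N : Subgroup Γ, N.Normal → N ≤ H2 → N = ⊥) ∧
      (∃ e : ((Γ ⧸ H1) →₀ ℤ) ≃ₗ[ℤ] ((Γ ⧸ H2) →₀ ℤ), ∀ (g : Γ) x,
        e (Finsupp.mapDomain (g • ·) x) = Finsupp.mapDomain (g • ·) (e x)) ∧
      IsEmpty (H1 ≃* H2) := by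
  obtain ⟨H1, H2, a1, a2, a3, ⟨e1⟩, ⟨e2⟩⟩ := IND (A := Wr G Ω1) K L h1 h2
    (fun g a b => hK g.right a b) x1 x2
    (fun y => (t1 y).imp' (fun g => ⟨1, g⟩) fun _ h => h)
    (fun y => (t2 y).imp' (fun g => ⟨1, g⟩) fun _ h => h)
  refine ⟨_, inferInstance, inferInstance, H1, H2, a1, a2, a3, ⟨fun e => ?_⟩⟩
  refine P2 x2 (fun g hg => hf g hg fun j => ?_) hfix (P_map ((e1.symm.trans e).trans e2) (P1 x1))
  by_contra hj
  have h3 := congrFun (congrFun h2 j) (g • j)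
  have h4 := congrFun (congrFun h2 j) j
  rw [Matrix.mul_apply] at h3 h4
  rw [Matrix.one_apply_ne (fun h => hj h.symm)] at h3
  rw [Matrix.one_apply_eq] at h4
  have h5 : ∀ i, K i (g • j) = K i j := fun i => by rw [← hK g i j, hg]
  simp only [h5] at h3
  omega

end Pool.Agent.H67.Coset
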