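import Pool.Agent.H67.SD

namespace Pool.Agent.H67.DerLen

open Pool.Agent.H67.SD
open scoped commutatorElement TensorProduct

section D
variable {G G' : Type*} [Group G] [Group G']

def D (H : Subgroup G) : ℕ → Subgroup G
  | 0 => H
  | n + 1 => ⁅D H n, D H n⁆

theorem D_map (f : G →* G') (H : Subgroup G) (n : ℕ) : (D H n).map f = D (H.map f) n := by
  induction n with
  | zero => rfl
  | succ n ih => simp only [D, Subgroup.map_commutator, ih]

theorem D_mono {H K : Subgroup G} (h : H ≤ K) (n : ℕ) : D H n ≤ D K n := by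
  induction n with
  | zero => exact h
  | succ n ih => exact Subgroup.commutator_mono ih ih

theorem D_add (H : Subgroup G) (m n : ℕ) : D H (m + n) = D (D H m) n := by
  induction n with
  | zero => rfl
  | succ n ih => rw [← add_assoc]; simp only [D, ih]

theorem D_le (H : Subgroup G) (n : ℕ) : D H n ≤ H := by
  induction n with
  | zero => exact le_rfl
  | succ n ih =>
    refine Subgroup.commutator_le.2 fun a ha b hb => ?_
    rw [commutatorElement_def]
    exact mul_mem (mul_mem (mul_mem (ih ha) (ih hb)) (inv_mem (ih ha))) (inv_mem (ih hb))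

theorem D_anti (H : Subgroup G) {m n : ℕ} (h : m ≤ n) : D H n ≤ D H m := by
  obtain ⟨k, rfl⟩ := Nat.exists_eq_add_of_le h
  rw [D_add]
  exact D_le _ _

theorem D_top (n : ℕ) : derivedSeries G n = D ⊤ n := by
  induction n with
  | zero => rfl
  | succ n ih => rw [derivedSeries_succ, ih]; rfl

theorem D_sub (H : Subgroup G) (n : ℕ) : (D (⊤ : Subgroup H) n).map H.subtype = D H n := by
  rw [D_map, ← MonoidHom.range_eq_map, Subgroup.range_subtype]

theorem der_iff (H : Subgroup G) (n : ℕ) : derivedSeries H n = ⊥ ↔ D H n = ⊥ := by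
  rw [D_top, ← D_sub H n, Subgroup.map_eq_bot_iff_of_injective _ H.subtype_injective]

theorem D_hom (N : Subgroup G) (φ : G → G') (hφ : ∀ x ∈ N, ∀ y ∈ N, φ (x * y) = φ x * φ y)
    (S : Subgroup G') (hS : ∀ x ∈ N, φ x ∈ S) (n : ℕ) : ∀ x ∈ D N n, φ x ∈ D S n := by
  intro x hx
  let f : N →* G' := MonoidHom.mk' (fun x => φ x) (fun a b => hφ a a.2 b b.2)
  rw [← D_sub] at hx
  obtain ⟨y, hy, rfl⟩ := hx
  have h1 : f y ∈ (D (⊤ : Subgroup N) n).map f := ⟨y, hy, rfl⟩
  rw [D_map] at h1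
  refine D_mono ?_ n h1
  rintro _ ⟨z, _, rfl⟩
  exact hS z z.2

theorem D_hom' (f : G →* G') (N : Subgroup G) (S : Subgroup G') (hS : ∀ x ∈ N, f x ∈ S) (n : ℕ) :
    ∀ x ∈ D N n, f x ∈ D S n := D_hom N f (fun x _ y _ => map_mul f x y) S hS n

theorem D_surj (N : Subgroup G) (φ : G → G') (hφ : ∀ x ∈ N, ∀ y ∈ N, φ (x * y) = φ x * φ y)
    (hs : ∀ w, ∃ x ∈ N, φ x = w) (n : ℕ) (h : D N n = ⊥) : D (⊤ : Subgroup G') n = ⊥ := by
  let f : N →* G' := MonoidHom.mk' (fun x => φ x) (fun a b => hφ a a.2 b b.2)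
  have h1 : (⊤ : Subgroup N).map f = ⊤ := Subgroup.map_top_of_surjective f fun w => by
    obtain ⟨x, hx, rfl⟩ := hs w
    exact ⟨⟨x, hx⟩, rfl⟩
  rw [← h1, ← D_map, ← D_top, (der_iff N n).2 h, Subgroup.map_bot]

theorem D_conj (H : Subgroup G) (n : ℕ) (z : G) (hz : z ∈ H) (x : G) (hx : x ∈ D H n) :
    z * x * z⁻¹ ∈ D H n :=
  D_hom' (MulAut.conj z).toMonoidHom H H (fun y hy => mul_mem (mul_mem hz hy) (inv_mem hz)) n x hx

theorem D_succ_bot (H : Subgroup G) (n : ℕ) (h : ∀ x ∈ D H n, ∀ y ∈ D H n, x * y = y * x) :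
    D H (n + 1) = ⊥ := by
  refine eq_bot_iff.2 (Subgroup.commutator_le.2 fun a ha b hb => ?_)
  rw [Subgroup.mem_bot, commutatorElement_eq_one_iff_mul_comm]
  exact h a ha b hb

end D

theorem strong_weak {V K : Type} [AddCommGroup V] [Group K] [DistribMulAction K V]
    (T : Subgroup K) (j : ℕ) (h : D T j = ⊥) :
    D (T.comap (proj : Aff V K →* K)) (j + 1) = ⊥ := by
  have h1 : ∀ x ∈ D (T.comap (proj : Aff V K →* K)) j, x.g = 1 := by
    intro x hx
    have := D_hom' proj _ T (fun _ h => h) j x hx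
    rwa [h, Subgroup.mem_bot] at this
  apply D_succ_bot
  intro x hx y hy
  ext
  · simp [h1 x hx, h1 y hy, add_comm]
  · simp [h1 x hx, h1 y hy]

abbrev k := ZMod 2

structure Obj where
  A : Type
  X0 : Type
  [i1 : AddCommGroup A]
  [i2 : Module k A]
  [i3 : Finite A]
  [i4 : Group X0]
  [i5 : Finite X0]
  [i6 : DistribMulAction X0 A]
  [i7 : SMulCommClass X0 k A]

attribute [instance] Obj.i1 Obj.i2 Obj.i3 Obj.i4 Obj.i5 Obj.i6 Obj.i7

abbrev Obj.G (X : Obj) := Aff X.A X.X0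

def tau (X : Obj) : X.G →* Module.End k (X.A × k) where
  toFun x :=
    { toFun := fun p => (x.g • p.1 + p.2 • x.v, p.2)
      map_add' := fun p q => by ext <;> simp [add_smul]; abel
      map_smul' := fun c p => by ext <;> simp [smul_comm x.g c, mul_smul] }
  map_one' := by refine LinearMap.ext fun p => ?_; simp
  map_mul' x y := by
    refine LinearMap.ext fun p => ?_
    ext
    · simp [mul_smul, smul_comm x.g p.2]; abel
    · simp

theorem tau_apply (X : Obj) (x : X.G) (p : X.A × k) :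
    tau X x p = (x.g • p.1 + p.2 • x.v, p.2) := rfl

def U (X Y : Obj) := (X.A × k) ⊗[k] Y.A

noncomputable instance (X Y : Obj) : AddCommGroup (U X Y) :=
  inferInstanceAs (AddCommGroup ((X.A × k) ⊗[k] Y.A))
noncomputable instance (X Y : Obj) : Module k (U X Y) :=
  inferInstanceAs (Module k ((X.A × k) ⊗[k] Y.A))
instance (X Y : Obj) : Finite (U X Y) := by
  haveI : Module.Finite k ((X.A × k) ⊗[k] Y.A) := inferInstance
  exact Module.finite_of_finite k (M := (X.A × k) ⊗[k] Y.A)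

noncomputable def rho (X Y : Obj) : X.G × Y.X0 →* Module.End k (U X Y) where
  toFun z := TensorProduct.map (tau X z.1) (DistribMulAction.toModuleEnd k Y.A z.2)
  map_one' := by
    rw [Prod.fst_one, Prod.snd_one, map_one, map_one]
    exact TensorProduct.map_one
  map_mul' a b := by
    rw [Prod.fst_mul, Prod.snd_mul, map_mul, map_mul]
    exact TensorProduct.map_mul _ _ _ _

noncomputable instance (X Y : Obj) : DistribMulAction (X.G × Y.X0) (U X Y) :=
  DistribMulAction.compHom _ (rho X Y)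

instance (X Y : Obj) : SMulCommClass (X.G × Y.X0) k (U X Y) :=
  ⟨fun z c u => map_smul (rho X Y z) c u⟩

noncomputable def join (X Y : Obj) : Obj where
  A := U X Y
  X0 := X.G × Y.X0

variable {X Y : Obj}

noncomputable def tm (p : X.A × k) (b : Y.A) : U X Y := p ⊗ₜ[k] b

theorem smul_tm (z : X.G × Y.X0) (p : X.A × k) (b : Y.A) :
    z • tm p b = tm (tau X z.1 p) (z.2 • b) := rfl

noncomputable def pi (X Y : Obj) : U X Y →ₗ[k] Y.A :=
  (TensorProduct.lid k Y.A).toLinearMap.comp (TensorProduct.map (LinearMap.snd k X.A k) LinearMap.id)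

theorem pi_tm (p : X.A × k) (b : Y.A) : pi X Y (tm p b) = p.2 • b := rfl

theorem U_ind {P : U X Y → Prop} (h0 : P 0) (h1 : ∀ p b, P (tm p b))
    (h2 : ∀ u v, P u → P v → P (u + v)) (u : U X Y) : P u :=
  TensorProduct.induction_on (motive := P) u h0 h1 h2

theorem tm_add (p : X.A × k) (b c : Y.A) : tm p (b + c) = tm p b + tm p c :=
  TensorProduct.tmul_add _ _ _
theorem add_tm (p q : X.A × k) (b : Y.A) : tm (p + q) b = tm p b + tm q b :=
  TensorProduct.add_tmul _ _ _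
theorem tm_zero (p : X.A × k) : tm p (0 : Y.A) = 0 := TensorProduct.tmul_zero _ _
theorem tm_smul (p : X.A × k) (c : k) (b : Y.A) : tm p (c • b) = tm (c • p) b :=
  (TensorProduct.smul_tmul _ _ _).symm

theorem pi_smul (z : X.G × Y.X0) (u : U X Y) : pi X Y (z • u) = z.2 • pi X Y u := by
  induction u using U_ind with
  | h0 => simp
  | h1 p b => rw [smul_tm, pi_tm, pi_tm, tau_apply, smul_comm z.2]
  | h2 u v hu hv => rw [smul_add, map_add, map_add, smul_add, hu, hv]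

theorem smul_A (z : X.G × Y.X0) (h1 : z.1.g = 1) (h2 : z.2 = 1) (u : U X Y) :
    z • u = u + tm (z.1.v, 0) (pi X Y u) := by
  induction u using U_ind with
  | h0 => simp [tm_zero]
  | h1 p b =>
    rw [smul_tm, pi_tm, tau_apply, h1, h2, one_smul, one_smul, tm_smul, ← add_tm]
    congr 1
    ext <;> simp
  | h2 u v hu hv => rw [smul_add, map_add, tm_add, hu, hv]; abel

theorem tm_ne (a : X.A) (b : Y.A) (ha : a ≠ 0) (hb : b ≠ 0) : tm (a, 0) b ≠ 0 := by
  obtain ⟨f, hf⟩ := Module.Projective.exists_dual_eq_one k ha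
  intro h
  let φ : U X Y →ₗ[k] Y.A := (TensorProduct.lid k Y.A).toLinearMap.comp
    (TensorProduct.map (f.comp (LinearMap.fst k X.A k)) LinearMap.id)
  have := congrArg φ h
  rw [map_zero] at this
  apply hb
  rw [← this]
  show b = f a • b
  rw [hf, one_smul]

def Good (X : Obj) (E : ℕ) : Prop := D (⊤ : Subgroup X.X0) E = ⊥ ∧
  ∃ a : X.A, a ≠ 0 ∧ (∀ x : X.X0, x • a = a) ∧ (⟨a, 1⟩ : X.G) ∈ D (⊤ : Subgroup X.G) E

theorem Good.top {E : ℕ} (h : Good X E) : D (⊤ : Subgroup X.G) (E + 1) = ⊥ :=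
  strong_weak (V := X.A) ⊤ E h.1

theorem D_prod {G G' : Type*} [Group G] [Group G'] (S : Subgroup G) (T : Subgroup G') (n : ℕ)
    (S' : Subgroup G) (T' : Subgroup G') (h1 : D S n ≤ S') (h2 : D T n ≤ T') :
    D (S.prod T) n ≤ S'.prod T' := fun x hx =>
  ⟨h1 (D_hom' (MonoidHom.fst G G') (S.prod T) S (fun _ h => h.1) n x hx),
    h2 (D_hom' (MonoidHom.snd G G') (S.prod T) T (fun _ h => h.2) n x hx)⟩

theorem D_prod_bot {G G' : Type*} [Group G] [Group G'] (S : Subgroup G) (T : Subgroup G') (n : ℕ)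
    (h1 : D S n = ⊥) (h2 : D T n = ⊥) : D (S.prod T) n = ⊥ := by
  rw [eq_bot_iff, ← Subgroup.bot_prod_bot]
  exact D_prod S T n ⊥ ⊥ h1.le h2.le

noncomputable def iX (X Y : Obj) : X.G →* Aff (U X Y) (X.G × Y.X0) :=
  inr.comp (MonoidHom.inl _ _)

noncomputable def iY (X Y : Obj) : Y.G →* Aff (U X Y) (X.G × Y.X0) :=
  MonoidHom.mk' (fun y => ⟨tm (0, 1) y.v, (1, y.g)⟩) (by
    intro a b
    ext
    · simp [tm_add, smul_tm]
    · simp
    · simp
    · simp)

noncomputable def pY (X Y : Obj) : Aff (U X Y) (X.G × Y.X0) →* Y.G :=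
  MonoidHom.mk' (fun w => ⟨pi X Y w.v, w.g.2⟩) (by
    intro a b
    ext
    · simp [pi_smul]
    · simp)

theorem good_join {E : ℕ} (hX : Good X E) (hY : Good Y E) : Good (join X Y) (E + 1) := by
  refine ⟨?_, ?_⟩
  · show D (⊤ : Subgroup (X.G × Y.X0)) (E + 1) = ⊥
    rw [← Subgroup.top_prod_top]
    exact D_prod_bot _ _ _ hX.top (eq_bot_iff.2 ((D_anti _ (Nat.le_succ E)).trans hY.1.le))
  · obtain ⟨a, ha, ha1, ha2⟩ := hX.2
    obtain ⟨b, hb, hb1, hb2⟩ := hY.2
    refine ⟨tm (a, 0) b, tm_ne a b ha hb, ?_, ?_⟩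
    · show ∀ z : X.G × Y.X0, z • tm (a, 0) b = tm (a, 0) b
      intro z
      rw [smul_tm, tau_apply, hb1]
      simp [ha1]
    · have h1 := D_hom' (iX X Y) ⊤ ⊤ (fun _ _ => trivial) E _ ha2
      have h2 := D_hom' (iY X Y) ⊤ ⊤ (fun _ _ => trivial) E _ hb2
      have h3 := Subgroup.commutator_mem_commutator h1 h2
      have h4 : ⁅iX X Y ⟨a, 1⟩, iY X Y ⟨b, 1⟩⁆ = ⟨tm (a, 0) b, 1⟩ := by
        rw [commutatorElement_def, mul_inv_eq_iff_eq_mul, mul_inv_eq_iff_eq_mul]
        ext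
        · simp [iX, iY, smul_tm, tau_apply, ← add_tm]
        · simp [iX, iY]
        · simp [iX, iY]
        · simp [iX, iY]
      rw [h4] at h3
      exact h3

def P (X : Obj) (T : Subgroup X.X0) (E l : ℕ) : Prop := ∀ j κ, E ≤ j + κ →
  (2 * κ ≤ l → D T j = ⊥) ∧ (2 * κ ≤ l + 1 → D (T.comap (proj : X.G →* X.X0)) (j + 1) = ⊥)

def jT (S : Subgroup X.X0) (T : Subgroup Y.X0) : Subgroup (X.G × Y.X0) :=
  (S.comap (proj : X.G →* X.X0)).prod T

theorem P_join {S : Subgroup X.X0} {T : Subgroup Y.X0} {E l lX lY : ℕ} (hX : P X S E lX)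
    (hY : P Y T E lY) (hl : l ≤ 2 * E) (h1 : l ≤ lX + 1) (h2 : l ≤ lY + 1)
    (h3 : l ≤ lX ∨ l ≤ lY) : P (join X Y) (jT S T) (E + 1) l := by
  have st : ∀ j κ, E + 1 ≤ j + κ → κ ≤ E → 2 * κ ≤ lX + 1 → 2 * (κ - 1) ≤ lY →
      D (jT S T) j = ⊥ := by
    intro j κ a1 a2 a3 a4
    obtain ⟨j, rfl⟩ : ∃ j', j = j' + 1 := ⟨j - 1, by omega⟩
    exact D_prod_bot _ _ _ ((hX j κ (by omega)).2 a3) ((hY (j + 1) (κ - 1) (by omega)).1 a4)
  intro j κ hj
  refine ⟨fun h => st j κ hj (by omega) (by omega) (by omega), fun h => ?_⟩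
  rcases h3 with h3 | h3
  · exact strong_weak (V := U X Y) (jT S T) _ (st j κ hj (by omega) (by omega) (by omega))
  · obtain ⟨j, rfl⟩ : ∃ j', j = j' + 1 := ⟨j - 1, by omega⟩
    have b1 := (hX (j + 1) (κ - 1) (by omega)).1 (by omega)
    have b2 := (hY j κ (by omega)).2 (by omega)
    show D ((jT S T).comap (proj : Aff (U X Y) (X.G × Y.X0) →* _)) (j + 1 + 1) = ⊥
    have c : ∀ w ∈ D ((jT S T).comap (proj : Aff (U X Y) (X.G × Y.X0) →* _)) (j + 1),
        w.g.1.g = 1 ∧ w.g.2 = 1 ∧ pi X Y w.v = 0 := by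
      intro w hw
      have c1 := D_hom' ((proj : X.G →* X.X0).comp ((MonoidHom.fst X.G Y.X0).comp
        (proj : Aff (U X Y) (X.G × Y.X0) →* _)))
        ((jT S T).comap (proj : Aff (U X Y) (X.G × Y.X0) →* _)) S (fun _ h => h.1) _ w hw
      have c2 := D_hom' (pY X Y) ((jT S T).comap (proj : Aff (U X Y) (X.G × Y.X0) →* _))
        (T.comap (proj : Y.G →* Y.X0)) (fun _ h => h.2) _ w hw
      rw [b1, Subgroup.mem_bot] at c1
      rw [b2, Subgroup.mem_bot] at c2
      exact ⟨c1, congrArg Aff.g c2, congrArg Aff.v c2⟩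
    apply D_succ_bot
    intro x hx y hy
    obtain ⟨x1, x2, x3⟩ := c x hx
    obtain ⟨y1, y2, y3⟩ := c y hy
    ext
    · simp [smul_A _ x1 x2, smul_A _ y1 y2, x3, y3, tm_zero, add_comm]
    · simp [x1, y1, add_comm]
    · simp [x1, y1]
    · simp [x2, y2]

end Pool.Agent.H67.DerLen
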