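import Pool.Agent.H67.DerLen

namespace Pool.Agent.H67.DerLen

open Pool.Agent.H67.SD
open scoped commutatorElement

theorem P_mono {X : Obj} {T : Subgroup X.X0} {E l l' : ℕ} (h : P X T E l) (hl : l' ≤ l) :
    P X T E l' := fun j κ hj => ⟨fun h1 => (h j κ hj).1 (by omega), fun h1 => (h j κ hj).2 (by omega)⟩

def base : Obj where
  A := k
  X0 := Unit
  i6 :=
    { smul := fun _ a => a
      one_smul := fun _ => rfl
      mul_smul := fun _ _ _ => rfl
      smul_zero := fun _ => rfl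
      smul_add := fun _ _ _ => rfl }
  i7 := ⟨fun _ _ _ => rfl⟩

theorem exists_good (E : ℕ) : ∃ X : Obj, Good X E := by
  induction E with
  | zero =>
    refine ⟨base, ?_, (1 : k), (by decide : (1 : k) ≠ 0), fun _ => rfl, trivial⟩
    exact Subsingleton.elim (α := Subgroup Unit) _ _
  | succ E ih =>
    obtain ⟨X, hX⟩ := ih
    exact ⟨join X X, good_join hX hX⟩

def Col {C : Type} (t E : ℕ) (l : C → ℕ) : Prop :=
  ∃ (X : Obj) (T : C → Subgroup X.X0), Good X E ∧ (∀ c, (T c).Normal) ∧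
    (∀ w : C → X.X0, ∃ x, ∀ c, (w c)⁻¹ * x ∈ T c) ∧ (∀ c, D ⊤ t ≤ T c) ∧ ∀ c, P X (T c) E (l c)

theorem col_join {C : Type} {t E : ℕ} {l lX lY : C → ℕ} (hX : Col t E lX) (hY : Col t E lY)
    (hl : ∀ c, l c ≤ 2 * E) (h : ∀ c, l c ≤ lX c + 1 ∧ l c ≤ lY c + 1 ∧ (l c ≤ lX c ∨ l c ≤ lY c)) :
    Col t (E + 1) l := by
  obtain ⟨X, S, x1, x2, x3, x4, x5⟩ := hX
  obtain ⟨Y, T, y1, y2, y3, y4, y5⟩ := hY
  refine ⟨join X Y, fun c => jT (S c) (T c), good_join x1 y1, fun c => ?_, ?_, fun c => ?_,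
    fun c => P_join (x5 c) (y5 c) (hl c) (h c).1 (h c).2.1 (h c).2.2⟩
  · haveI := x2 c
    haveI := y2 c
    exact Subgroup.prod_normal ((S c).comap (proj : X.G →* X.X0)) (T c)
  · show ∀ w : C → X.G × Y.X0, ∃ x : X.G × Y.X0, ∀ c, (w c)⁻¹ * x ∈ jT (S c) (T c)
    intro w
    obtain ⟨x, hx⟩ := x3 fun c => (w c).1.g
    obtain ⟨y, hy⟩ := y3 fun c => (w c).2
    exact ⟨(inr x, y), fun c => ⟨hx c, hy c⟩⟩
  · show D (⊤ : Subgroup (X.G × Y.X0)) t ≤ jT (S c) (T c)
    rw [← Subgroup.top_prod_top]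
    exact D_prod _ _ _ _ _ (fun x hx => x4 c (D_hom' proj ⊤ ⊤ (fun _ _ => trivial) t x hx)) (y4 c)

theorem col_pad {C : Type} {t E : ℕ} {l : C → ℕ} (h : Col t E l) (hl : ∀ c, l c ≤ 2 * E) {E' : ℕ}
    (hE : E ≤ E') : Col t E' l := by
  induction E', hE using Nat.le_induction with
  | base => exact h
  | succ n hn ih => exact col_join ih ih (fun c => by have := hl c; omega) (fun c => by omega)

theorem col_exists {C : Type} [Fintype C] (c1 : C) (t : ℕ) (l : C → ℕ) (hl : ∀ c, l c ≤ 2 * t) :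
    ∃ E, t ≤ E ∧ Col t E l := by
  classical
  induction hn : ∑ c, l c using Nat.strong_induction_on generalizing l with
  | _ n ih =>
    by_cases h : ∃ a b, a ≠ b ∧ l a ≠ 0 ∧ l b ≠ 0
    · obtain ⟨a, b, hab, ha, hb⟩ := h
      have key : ∀ a, l a ≠ 0 → ∃ E, t ≤ E ∧ Col t E (Function.update l a (l a - 1)) := by
        intro a ha
        refine ih _ ?_ _ (fun c => ?_) rfl
        · rw [← hn]
          refine Finset.sum_lt_sum (fun c _ => ?_) ⟨a, Finset.mem_univ _, ?_⟩
          · rw [Function.update_apply]; split_ifs with h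
            · rw [h]; omega
            · exact le_rfl
          · rw [Function.update_self]; omega
        · rw [Function.update_apply]; split_ifs with h
          · have := hl a; omega
          · exact hl c
      have bd : ∀ a c, Function.update l a (l a - 1) c ≤ l c := by
        intro a c
        rw [Function.update_apply]; split_ifs with h
        · rw [h]; omega
        · exact le_rfl
      obtain ⟨E1, e1, h1⟩ := key a ha
      obtain ⟨E2, e2, h2⟩ := key b hb
      refine ⟨max E1 E2 + 1, by omega, col_join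
        (col_pad h1 (fun c => by have := bd a c; have := hl c; omega) (le_max_left _ _))
        (col_pad h2 (fun c => by have := bd b c; have := hl c; omega) (le_max_right _ _))
        (fun c => by have := hl c; omega) fun c => ?_⟩
      simp only [Function.update_apply]
      split_ifs with h3 h4 h4
      · exact absurd (h3.symm.trans h4) hab
      · rw [h3]; omega
      · rw [h4]; omega
      · omega
    · obtain ⟨c0, hc0⟩ : ∃ c0, ∀ c, c ≠ c0 → l c = 0 := by
        by_cases h2 : ∃ a, l a ≠ 0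
        · obtain ⟨a, ha⟩ := h2
          refine ⟨a, fun c hc => ?_⟩
          by_contra h3
          exact h ⟨c, a, hc, h3, ha⟩
        · push Not at h2
          exact ⟨c1, fun c _ => h2 c⟩
      obtain ⟨X, hX⟩ := exists_good t
      refine ⟨t, le_rfl, X, fun c => if c = c0 then ⊥ else ⊤, hX, fun c => ?_, fun w => ?_,
        fun c => by rw [hX.1]; exact bot_le, fun c j κ hj => ?_⟩
      · dsimp only
        split_ifs <;> infer_instance
      · refine ⟨w c0, fun c => ?_⟩
        dsimp only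
        split_ifs with h1
        · rw [h1, inv_mul_cancel]; exact one_mem _
        · trivial
      · have : 2 * κ ≤ l c + 1 → D (if c = c0 then (⊥ : Subgroup X.X0) else ⊤) j = ⊥ := by
          intro h1
          split_ifs with h2
          · exact eq_bot_iff.2 (D_le _ _)
          · have := hc0 c h2
            exact eq_bot_iff.2 ((D_anti _ (by omega)).trans hX.1.le)
        exact ⟨fun h1 => this (by omega), fun h1 => strong_weak _ _ (this h1)⟩

theorem exists_W (C : Type) [Fintype C] (c1 : C) (t : ℕ) :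
    ∃ (W : Type) (_ : Group W) (_ : Finite W) (T : C → Subgroup W) (E : ℕ), t ≤ E ∧
      D (⊤ : Subgroup W) E ≠ ⊥ ∧ D (⊤ : Subgroup W) (E + 1) = ⊥ ∧ (∀ c, (T c).Normal) ∧
      (∀ w : C → W, ∃ x, ∀ c, (w c)⁻¹ * x ∈ T c) ∧ (∀ c, D ⊤ t ≤ T c) ∧
      ∀ c, D (T c) (E - t + 1) = ⊥ := by
  obtain ⟨E, hE, X, T, h1, h2, h3, h4, h5⟩ := col_exists c1 t (fun _ => 2 * t) (fun _ => le_rfl)
  refine ⟨X.G, inferInstance, inferInstance, fun c => (T c).comap proj, E, hE, ?_, h1.top,
    fun c => (h2 c).comap _, fun w => ?_,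
    fun c x hx => h4 c (D_hom' proj ⊤ ⊤ (fun _ _ => trivial) t x hx),
    fun c => (h5 c (E - t) t (by omega)).2 (Nat.le_succ _)⟩
  · obtain ⟨a, ha, _, h⟩ := h1.2
    intro h6
    rw [h6, Subgroup.mem_bot] at h
    exact ha (congrArg Aff.v h)
  · obtain ⟨x, hx⟩ := h3 fun c => (w c).g
    exact ⟨inr x, hx⟩

def V3 (L : Type) := L → ZMod 3

instance (L : Type) : AddCommGroup (V3 L) := inferInstanceAs (AddCommGroup (L → ZMod 3))
instance (L : Type) [Finite L] : Finite (V3 L) := inferInstanceAs (Finite (L → ZMod 3))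
instance (L : Type) [Group L] : DistribMulAction L (V3 L) where
  smul g v := fun x => v (g⁻¹ * x)
  one_smul v := funext fun x => congrArg v (by simp)
  mul_smul a b v := funext fun x => congrArg v (by simp [mul_assoc])
  smul_zero _ := rfl
  smul_add _ _ _ := rfl

theorem three (L : Type) (v : V3 L) : v + v + v = 0 := by
  funext x
  show v x + v x + v x = 0
  generalize v x = z
  revert z
  decide

theorem exists_G0 (t : ℕ) : ∃ (G : Type) (_ : Group G) (_ : Finite G) (H : Subgroup G) (x : G),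
    IsCoatom H ∧ x ∈ D (⊤ : Subgroup G) (t + 1) ∧ D (⊤ : Subgroup G) (t + 2) = ⊥ ∧
      ∀ c : G ⧸ H, x • c ≠ c := by
  classical
  obtain ⟨X, hX⟩ := exists_good t
  obtain ⟨a, ha, ha1, ha2⟩ := hX.2
  set z : X.G := ⟨a, 1⟩ with hz
  have hz1 : z ≠ 1 := fun h => ha (congrArg Aff.v h)
  have hzc : ∀ g : X.G, g * z = z * g := by
    intro g
    ext
    · simp [hz, ha1, add_comm]
    · simp [hz]
  have hzz : z * z = 1 := by
    ext
    · simp only [hz, mul_v, one_smul, one_v]
      rw [← two_smul k a, show (2 : k) = 0 from rfl, zero_smul]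
    · simp [hz]
  let S : Subgroup (Aff (V3 X.G) X.G) :=
    { carrier := {w | z • w.v = w.v}
      one_mem' := smul_zero z
      mul_mem' := by
        intro p q (hp : z • p.v = p.v) (hq : z • q.v = q.v)
        show z • (p.v + p.g • q.v) = p.v + p.g • q.v
        rw [smul_add, hp, smul_smul, ← hzc, mul_smul, hq]
      inv_mem' := by
        intro p (hp : z • p.v = p.v)
        show z • (-(p.g⁻¹ • p.v)) = -(p.g⁻¹ • p.v)
        rw [smul_neg, smul_smul, ← hzc, mul_smul, hp] }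
  have hS : S ≠ ⊤ := by
    intro h
    have h1 : (⟨Pi.single (M := fun _ : X.G => ZMod 3) 1 1, 1⟩ : Aff (V3 X.G) X.G) ∈ S := by
      rw [h]; trivial
    have h2 : (Pi.single (M := fun _ : X.G => ZMod 3) 1 1) (z⁻¹ * 1)
        = (Pi.single (M := fun _ : X.G => ZMod 3) 1 1) 1 := congrFun h1 1
    rw [Pi.single_eq_same, Pi.single_eq_of_ne (by simpa using hz1)] at h2
    revert h2
    decide
  obtain ⟨H, hH, hSH⟩ := (eq_top_or_exists_le_coatom S).resolve_left hS
  have hinr : ∀ g, (inr g : Aff (V3 X.G) X.G) ∈ H := fun g => hSH (smul_zero z)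
  obtain ⟨u, hu, huH⟩ : ∃ u : V3 X.G, z • u = -u ∧ (⟨u, 1⟩ : Aff (V3 X.G) X.G) ∉ H := by
    by_contra hcon
    push Not at hcon
    apply hH.1
    rw [eq_top_iff]
    intro w _
    have h1 : w = ⟨z • w.v - w.v, 1⟩ * ⟨-(w.v + z • w.v), w.g⟩ := by
      refine Aff.ext ?_ ?_
      · simp only [mul_v, one_smul]
        have := three _ w.v
        rw [← sub_eq_zero, ← this]
        abel
      · simp
    rw [h1]
    refine mul_mem (hcon _ ?_) (hSH ?_)
    · rw [smul_sub, smul_smul, hzz, one_smul, neg_sub]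
    · show z • (-(w.v + z • w.v)) = -(w.v + z • w.v)
      rw [smul_neg, smul_add, smul_smul, hzz, one_smul, add_comm]
  have hc : ⁅(inr z : Aff (V3 X.G) X.G), (⟨u, 1⟩ : Aff (V3 X.G) X.G)⁆ = ⟨u, 1⟩ := by
    refine Aff.ext ?_ ?_
    · simp only [commutatorElement_def, mul_v, mul_g, inv_v, inv_g, inr_v, inr_g, hu, mul_one,
        inv_one, one_smul, smul_zero, neg_zero, add_zero, zero_add, mul_inv_cancel]
      have := three _ u
      rw [← sub_eq_zero, ← neg_eq_zero, ← this]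
      abel
    · simp [commutatorElement_def]
  have h1 : (inr z : Aff (V3 X.G) X.G) ∈ D ⊤ t := D_hom' inr ⊤ ⊤ (fun _ _ => trivial) t _ ha2
  have h2 : (⟨u, 1⟩ : Aff (V3 X.G) X.G) ∈ D ⊤ t := by
    rw [← hc, commutatorElement_def, mul_assoc, mul_assoc]
    refine mul_mem h1 ?_
    rw [← mul_assoc]
    exact D_conj ⊤ t _ trivial _ (inv_mem h1)
  refine ⟨Aff (V3 X.G) X.G, inferInstance, inferInstance, H, ⟨u, 1⟩, hH, ?_,
    strong_weak ⊤ _ hX.top, ?_⟩
  · rw [← hc]
    exact Subgroup.commutator_mem_commutator h1 h2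
  · intro c hc
    obtain ⟨g, rfl⟩ := QuotientGroup.mk_surjective c
    rw [MulAction.Quotient.smul_mk, eq_comm, QuotientGroup.eq, smul_eq_mul] at hc
    apply huH
    have h3 : (⟨u, 1⟩ : Aff (V3 X.G) X.G) = inr g.g * (g⁻¹ * (⟨u, 1⟩ * g)) * (inr g.g)⁻¹ := by
      refine Aff.ext ?_ ?_
      · simp
      · simp
    rw [h3]
    exact mul_mem (mul_mem (hinr _) hc) (inv_mem (hinr _))


theorem symm {G W : Type} [Group G] [Finite G] [Group W] [Finite W] (H : Subgroup G) (x0 : G)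
    (hH : IsCoatom H) (a E s : ℕ) (hx : x0 ∈ D (⊤ : Subgroup G) a)
    (hG : D (⊤ : Subgroup G) (a + 1) = ⊥) (hfp : ∀ c : G ⧸ H, x0 • c ≠ c)
    (T : G ⧸ H → Subgroup W) (w1 : D (⊤ : Subgroup W) E ≠ ⊥) (w2 : D (⊤ : Subgroup W) (E + 1) = ⊥)
    (hn : ∀ c, (T c).Normal) (js : ∀ w : G ⧸ H → W, ∃ x, ∀ c, (w c)⁻¹ * x ∈ T c)
    (w3 : ∀ c, D ⊤ (a + 1) ≤ T c) (w4 : ∀ c, D (T c) s = ⊥) :
    ∃ (Γ : Type) (_ : Group Γ) (_ : Finite Γ) (M : Subgroup Γ), IsCoatom M ∧
      derivedSeries Γ (a + 1 + (E + 1)) = ⊥ ∧ derivedSeries Γ (a + E) ≠ ⊥ ∧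
      derivedSeries M (a + 1 + s) = ⊥ := by
  classical
  let Γ := SemidirectProduct (G → W) G mulAutArrow
  have ml : ∀ (p q : Γ) (g : G), (p * q).left g = p.left g * q.left (p.right⁻¹ * g) :=
    fun _ _ _ => rfl
  have mr : ∀ (p q : Γ), (p * q).right = p.right * q.right := fun _ _ => rfl
  have il : ∀ (p : Γ) (g : G), (p⁻¹).left g = (p.left (p.right⁻¹⁻¹ * g))⁻¹ := fun _ _ => rfl
  haveI : Finite Γ := Finite.of_equiv _ (SemidirectProduct.equivProd).symm
  let 𝒢 : Subgroup Γ :=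
    { carrier := {p | ∀ (g g' : G) (c : G ⧸ H), g • c = g' • c → (p.left g)⁻¹ * p.left g' ∈ T c}
      one_mem' := by
        intro g g' c _
        show (1 : W)⁻¹ * 1 ∈ T c
        simp
      mul_mem' := by
        intro p q hp hq g g' c h
        have h1 := hp g g' c h
        have h2 := hq (p.right⁻¹ * g) (p.right⁻¹ * g') c (by rw [mul_smul, mul_smul, h])
        rw [ml, ml]
        have h3 := mul_mem ((hn c).conj_mem' _ h1 (q.left (p.right⁻¹ * g))) h2
        convert h3 using 1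
        group
      inv_mem' := by
        intro p hp g g' c h
        have h1 := hp (p.right⁻¹⁻¹ * g') (p.right⁻¹⁻¹ * g) c (by rw [mul_smul, mul_smul, h])
        rw [il, il]
        have h3 := (hn c).conj_mem _ h1 (p.left (p.right⁻¹⁻¹ * g))
        have h4 := (hn c).mem_comm h1
        convert h4 using 1
        group }
  have hinr : ∀ g : G, (SemidirectProduct.inr g : Γ) ∈ 𝒢 := by
    intro x g g' c _
    show (1 : W)⁻¹ * 1 ∈ T c
    simp
  let π : 𝒢 →* G := SemidirectProduct.rightHom.comp 𝒢.subtype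
  have hπ : Function.Surjective π := fun g => ⟨⟨_, hinr g⟩, rfl⟩
  have kill : ∀ (N : Subgroup Γ) (S : G → Subgroup W) (n : ℕ), (∀ p ∈ N, p.right = 1) →
      (∀ p ∈ N, ∀ g, p.left g ∈ S g) → (∀ g, D (S g) n = ⊥) → D N n = ⊥ := by
    intro N S n h1 h2 h3
    rw [eq_bot_iff]
    intro p hp
    rw [Subgroup.mem_bot]
    refine SemidirectProduct.ext (funext fun g => ?_) (h1 p (D_le _ _ hp))
    have := D_hom N (fun p => p.left g) (fun x hx y _ => by rw [ml, h1 x hx, inv_one, one_mul])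
      (S g) (fun p hp => h2 p hp g) n p hp
    rwa [h3, Subgroup.mem_bot] at this
  have hr : ∀ (N : Subgroup Γ), ∀ p ∈ D N (a + 1), p.right = 1 := by
    intro N p hp
    have := D_hom' SemidirectProduct.rightHom N ⊤ (fun _ _ => trivial) _ p hp
    rwa [hG, Subgroup.mem_bot] at this
  refine ⟨𝒢, inferInstance, inferInstance, H.comap π, Subgroup.isCoatom_comap_of_surjective hπ hH,
    ?_, ?_, ?_⟩
  · rw [der_iff, D_add]
    exact kill _ (fun _ => ⊤) _ (hr _) (fun _ _ _ => trivial) (fun _ => w2)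
  · rw [Ne, der_iff, D_add]
    intro h
    apply w1
    refine D_surj (D 𝒢 a ⊓ (SemidirectProduct.rightHom).ker) (fun p => p.left 1) ?_ ?_ E
      (eq_bot_iff.2 ((D_mono inf_le_left E).trans h.le))
    · intro x hx y _
      have h1 : x.right = 1 := hx.2
      rw [ml, h1, inv_one, one_mul]
    · intro w
      have hx1 : x0⁻¹ ≠ 1 := by
        intro h1
        apply hfp ((1 : G) : G ⧸ H)
        rw [inv_eq_one.1 h1, one_smul]
      have : ∀ g : G, ∃ y : W, (∀ c, (if g • c = c then w else 1)⁻¹ * y ∈ T c) ∧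
          (g = 1 → y = w) ∧ (g = x0⁻¹ → y = 1) := by
        intro g
        by_cases h1 : g = 1
        · refine ⟨w, fun c => ?_, fun _ => rfl, fun h => absurd (h1 ▸ h).symm hx1⟩
          simp [h1]
        by_cases h2 : g = x0⁻¹
        · refine ⟨1, fun c => ?_, fun h => absurd h h1, fun _ => rfl⟩
          rw [if_neg]
          · simp
          · rw [h2, inv_smul_eq_iff]
            exact (hfp c).symm
        obtain ⟨y, hy⟩ := js fun c => if g • c = c then w else 1
        exact ⟨y, hy, fun h => absurd h h1, fun h => absurd h h2⟩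
      choose f hf hf1 hf2 using this
      have hz : (SemidirectProduct.inl f : Γ) ∈ 𝒢 := by
        intro g g' c h
        have h1 := hf g c
        have h2 := hf g' c
        rw [← h] at h2
        have h3 := mul_mem (inv_mem h1) h2
        convert h3 using 1
        show (f g)⁻¹ * f g' = _
        group
      have hx' : (SemidirectProduct.inr x0 : Γ) ∈ D 𝒢 a :=
        D_hom' SemidirectProduct.inr ⊤ 𝒢 (fun g _ => hinr g) a _ hx
      refine ⟨SemidirectProduct.inl f * SemidirectProduct.inr x0 * (SemidirectProduct.inl f)⁻¹ *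
        (SemidirectProduct.inr x0)⁻¹, ⟨(D 𝒢 a).mul_mem (D_conj _ _ _ hz _ hx') ((D 𝒢 a).inv_mem hx'), ?_⟩, ?_⟩
      · show (1 : G) * x0 * 1⁻¹ * x0⁻¹ = 1
        simp
      · simp only [ml, mr, il]
        simp [hf1 1 rfl, hf2 _ rfl]
  · rw [der_iff, ← Subgroup.map_eq_bot_iff_of_injective _ 𝒢.subtype_injective, D_map, D_add]
    set M := (H.comap π).map 𝒢.subtype
    have hM : ∀ p ∈ M, p ∈ 𝒢 ∧ p.right ∈ H := by
      rintro _ ⟨p, hp, rfl⟩
      exact ⟨p.2, hp⟩
    refine kill _ (fun g => T ((g⁻¹ : G) : G ⧸ H)) _ (hr _) ?_ (fun g => w4 _)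
    intro p hp g
    haveI := hn ((g⁻¹ : G) : G ⧸ H)
    have h1 := D_hom M (fun p => (p.left g : W ⧸ T ((g⁻¹ : G) : G ⧸ H))) (by
      intro x hx y hy
      rw [ml, QuotientGroup.mk_mul]
      congr 1
      rw [QuotientGroup.eq]
      apply (hM y hy).1
      rw [MulAction.Quotient.smul_mk, MulAction.Quotient.smul_mk, QuotientGroup.eq]
      simpa using (hM x hx).2) ⊤ (fun _ _ => trivial) _ p hp
    have h2 : D (⊤ : Subgroup (W ⧸ T ((g⁻¹ : G) : G ⧸ H))) (a + 1) = ⊥ := by
      rw [← Subgroup.map_top_of_surjective _ (QuotientGroup.mk'_surjective _), ← D_map,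
        Subgroup.map_eq_bot_iff, QuotientGroup.ker_mk']
      exact w3 _
    rwa [h2, Subgroup.mem_bot, QuotientGroup.eq_one_iff] at h1

theorem final (k : ℕ) : ∃ (Γ : Type) (_ : Group Γ) (_ : Finite Γ) (M : Subgroup Γ),
    IsSolvable Γ ∧ IsCoatom M ∧
      sInf {n : ℕ | derivedSeries M n = ⊥} + k < sInf {n : ℕ | derivedSeries Γ n = ⊥} := by
  obtain ⟨G, _, _, H, x, h1, h2, h3, h4⟩ := exists_G0 (k + 2)
  letI : Fintype (G ⧸ H) := Fintype.ofFinite _
  obtain ⟨W, _, _, T, E, hE, w1, w2, w3, w4, w5, w6⟩ := exists_W (G ⧸ H) ((1 : G) : G ⧸ H) (k + 2)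
  obtain ⟨Γ, _, _, M, a1, a2, a3, a4⟩ := symm H x h1 (k + 2 + 1) E _ h2 h3 h4 T w1 w2 w3 w4
    (fun c => (D_anti _ (by omega)).trans (w5 c)) w6
  refine ⟨Γ, inferInstance, inferInstance, M, ⟨⟨_, a2⟩⟩, a1, ?_⟩
  have b1 : sInf {n : ℕ | derivedSeries M n = ⊥} ≤ _ := Nat.sInf_le a4
  have b2 : sInf {n : ℕ | derivedSeries Γ n = ⊥} ∈ {n : ℕ | derivedSeries Γ n = ⊥} :=
    Nat.sInf_mem ⟨_, a2⟩
  have b3 : k + 2 + 1 + E < sInf {n : ℕ | derivedSeries Γ n = ⊥} := by
    by_contra hcon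
    apply a3
    rw [eq_bot_iff, ← (show derivedSeries Γ _ = ⊥ from b2), D_top, D_top]
    exact D_anti _ (by omega)
  omega

end Pool.Agent.H67.DerLen
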