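import Mathlib

set_option autoImplicit false

namespace H67.Dual

open Finset

abbrev V := Fin 5 → ZMod 2

def e (k : Fin 5) : V := fun i => if i = k then 1 else 0

theorem z2 (x : ZMod 2) : x = 0 ∨ x = 1 := by revert x; decide

def Zm (u : V) : AddSubgroup V where
  carrier := {w | ∀ i, u i * w i = 0}
  zero_mem' := fun i => mul_zero _
  add_mem' := by intro a b ha hb i; simp [mul_add, ha i, hb i]
  neg_mem' := by intro a ha i; simp [ha i]

def kr (u : V) : AddSubgroup V where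
  carrier := {w | ∑ i, u i * w i = 0}
  zero_mem' := by simp
  add_mem' := by
    intro a b ha hb
    simp only [Set.mem_setOf_eq, Pi.add_apply, mul_add, sum_add_distrib] at *
    rw [ha, hb, add_zero]
  neg_mem' := by
    intro a ha
    simp only [Set.mem_setOf_eq, Pi.neg_apply, mul_neg, sum_neg_distrib] at *
    rw [ha, neg_zero]

theorem addself (u : V) : u + u = 0 := by revert u; decide
theorem negself (u : V) : -u = u := by revert u; decide

def sp (u : V) : AddSubgroup V where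
  carrier := {w | w = 0 ∨ w = u}
  zero_mem' := Or.inl rfl
  add_mem' := by
    rintro a b (rfl | rfl) (rfl | rfl) <;> simp [addself]
  neg_mem' := by rintro a (rfl | rfl) <;> simp [negself]

theorem mem_Zm {u w : V} : w ∈ Zm u ↔ ∀ i, u i * w i = 0 := Iff.rfl
theorem mem_kr {u w : V} : w ∈ kr u ↔ ∑ i, u i * w i = 0 := Iff.rfl
theorem mem_sp {u w : V} : w ∈ sp u ↔ w = 0 ∨ w = u := Iff.rfl

instance (u : V) : DecidablePred (· ∈ Zm u) := fun _ => decidable_of_iff _ mem_Zm.symm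
instance (u : V) : DecidablePred (· ∈ kr u) := fun _ => decidable_of_iff _ mem_kr.symm
instance (u : V) : DecidablePred (· ∈ sp u) := fun _ => decidable_of_iff _ mem_sp.symm

theorem le_sup_of {S T U : AddSubgroup V} (h : ∀ w ∈ S, ∃ a ∈ T, w + a ∈ U) : S ≤ T ⊔ U := by
  intro w hw
  obtain ⟨a, ha, hb⟩ := h w hw
  have : w = a + (w + a) := by rw [add_comm w, ← add_assoc, addself, zero_add]
  rw [this]
  exact AddSubgroup.add_mem_sup ha hb

/-- order reversing lattice map into normal subgroups -/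
structure Anti (H : Type) [Group H] where
  φ : AddSubgroup V → Subgroup H
  nor : ∀ S, (φ S).Normal
  inf : ∀ S T, φ (S ⊓ T) = φ S ⊔ φ T
  sup : ∀ S T, φ (S ⊔ T) = φ S ⊓ φ T

namespace Anti
variable {H : Type} [Group H] (F : Anti H)

theorem anti {S T : AddSubgroup V} (h : S ≤ T) : F.φ T ≤ F.φ S := by
  have := F.sup S T
  rw [sup_eq_right.2 h] at this
  rw [this]; exact inf_le_left

theorem le_sup {S T U : AddSubgroup V} (h : T ⊓ U ≤ S) : F.φ S ≤ F.φ T ⊔ F.φ U := by
  rw [← F.inf]; exact F.anti h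

theorem inf_le {S T U : AddSubgroup V} (h : S ≤ T ⊔ U) : F.φ T ⊓ F.φ U ≤ F.φ S := by
  rw [← F.sup]; exact F.anti h

theorem mem_top {x : H} (h : ∀ k, x ∈ F.φ (sp (e k))) : x ∈ F.φ ⊤ := by
  have : (⊤ : AddSubgroup V) ≤ sp (e 0) ⊔ (sp (e 1) ⊔ (sp (e 2) ⊔ (sp (e 3) ⊔ sp (e 4)))) := by
    rintro w -
    have hw : w = w 0 • e 0 + (w 1 • e 1 + (w 2 • e 2 + (w 3 • e 3 + w 4 • e 4))) := by
      revert w; decide
    have hs : ∀ (c : ZMod 2) (u : V), c • u ∈ sp u := by
      intro c u; rcases z2 c with rfl | rfl <;> simp [mem_sp]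
    rw [hw]
    exact AddSubgroup.add_mem_sup (hs _ _) (AddSubgroup.add_mem_sup (hs _ _)
      (AddSubgroup.add_mem_sup (hs _ _) (AddSubgroup.add_mem_sup (hs _ _) (hs _ _))))
  apply F.anti this
  simp only [F.sup, Subgroup.mem_inf]
  exact ⟨h 0, h 1, h 2, h 3, h 4⟩

end Anti

theorem comm_sup {H : Type} [Group H] {X Y Z O : Subgroup H} [O.Normal]
    (h1 : ⁅X, Z⁆ ≤ O) (h2 : ⁅Y, Z⁆ ≤ O) : ⁅X ⊔ Y, Z⁆ ≤ O := by
  have key : ∀ X : Subgroup H, ⁅X, Z⁆ ≤ O ↔ X.map (QuotientGroup.mk' O) ≤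
      Subgroup.centralizer (Z.map (QuotientGroup.mk' O) : Set (H ⧸ O)) := by
    intro X
    rw [← Subgroup.commutator_eq_bot_iff_le_centralizer, ← Subgroup.map_commutator,
      Subgroup.map_eq_bot_iff, QuotientGroup.ker_mk']
  rw [key] at *
  rw [Subgroup.map_sup]
  exact sup_le h1 h2

theorem Anti.comm {H : Type} [Group H] (F : Anti H) : ⁅F.φ ⊥, F.φ ⊥⁆ ≤ F.φ ⊤ := by
  haveI := F.nor
  have c0 : ∀ S T : AddSubgroup V, ⊤ ≤ S ⊔ T → ⁅F.φ S, F.φ T⁆ ≤ F.φ ⊤ := fun S T h =>
    (Subgroup.commutator_le_inf _ _).trans (F.inf_le h)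
  have c1 : ∀ i, ⁅F.φ (Zm (e i)), F.φ (Zm (e i))⁆ ≤ F.φ ⊤ := by
    intro i
    refine (Subgroup.commutator_mono (F.le_sup (T := Zm (e (i + 1))) (U := kr (e i + e (i + 1))) ?_)
      le_rfl).trans (comm_sup (c0 _ _ (le_sup_of ?_)) (c0 _ _ (le_sup_of ?_)))
    · intro w hw
      have h1 : w ∈ Zm (e (i + 1)) := hw.1
      have h2 : w ∈ kr (e i + e (i + 1)) := hw.2
      clear hw
      revert i w; decide
    · rintro w -; revert i w; decide
    · rintro w -; revert i w; decide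
  have c2 : ∀ i, ⁅F.φ (Zm (e i)), F.φ ⊥⁆ ≤ F.φ ⊤ := by
    intro i
    rw [Subgroup.commutator_comm]
    refine (Subgroup.commutator_mono (F.le_sup (T := Zm (e i)) (U := Zm (1 + e i)) ?_)
      le_rfl).trans (comm_sup (c1 i) (c0 _ _ (le_sup_of ?_)))
    · intro w hw
      have h1 : w ∈ Zm (e i) := hw.1
      have h2 : w ∈ Zm (1 + e i) := hw.2
      rw [AddSubgroup.mem_bot]
      clear hw
      revert i w; decide
    · rintro w -; revert i w; decide
  have : Zm (e 0) ⊓ (Zm (e 1) ⊓ (Zm (e 2) ⊓ (Zm (e 3) ⊓ Zm (e 4)))) ≤ (⊥ : AddSubgroup V) := by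
    intro w hw
    simp only [AddSubgroup.mem_inf] at hw
    rw [AddSubgroup.mem_bot]
    revert w; decide
  refine (Subgroup.commutator_mono (F.anti this) le_rfl).trans ?_
  simp only [F.inf]
  exact comm_sup (c2 0) (comm_sup (c2 1) (comm_sup (c2 2) (comm_sup (c2 3) (c2 4))))

section comm
variable {A : Type} [CommGroup A] (F : Anti A) (ht : F.φ ⊤ = ⊥) (hb : F.φ ⊥ = ⊤)
include ht hb

theorem exists_proj : ∃ p : Fin 5 → A →* A, (∀ k a, p k a ∈ F.φ (Zm (e k))) ∧
    (∀ k a, a ∈ F.φ (Zm (e k)) → p k a = a) ∧ (∀ k a, a ∈ F.φ (Zm (1 + e k)) → p k a = 1) ∧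
    ∀ a, ∏ k, p k a = a := by
  have ex : ∀ k a, ∃ x ∈ F.φ (Zm (e k)), a / x ∈ F.φ (Zm (1 + e k)) := by
    intro k a
    have : a ∈ F.φ (Zm (e k)) ⊔ F.φ (Zm (1 + e k)) := by
      apply F.le_sup (S := ⊥) _ (hb ▸ Subgroup.mem_top a)
      intro w hw
      have h1 : w ∈ Zm (e k) := hw.1
      have h2 : w ∈ Zm (1 + e k) := hw.2
      rw [AddSubgroup.mem_bot]
      clear hw
      revert k w; decide
    obtain ⟨x, hx, y, hy, rfl⟩ := Subgroup.mem_sup.1 this
    exact ⟨x, hx, by simpa using hy⟩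
  have un : ∀ k x, x ∈ F.φ (Zm (e k)) → x ∈ F.φ (Zm (1 + e k)) → x = 1 := by
    intro k x h1 h2
    rw [← Subgroup.mem_bot, ← ht]
    refine F.inf_le (le_sup_of ?_) ⟨h1, h2⟩
    rintro w -; clear h1 h2; revert k w; decide
  choose d hd1 hd2 using ex
  have hu : ∀ k a x, x ∈ F.φ (Zm (e k)) → a / x ∈ F.φ (Zm (1 + e k)) → d k a = x := by
    intro k a x h1 h2
    rw [← div_eq_one]
    refine un k _ (div_mem (hd1 k a) h1) ?_
    have := div_mem h2 (hd2 k a)
    rwa [div_div_div_cancel_left] at this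
  refine ⟨fun k => MonoidHom.mk' (d k) (fun a b => hu k _ _ (mul_mem (hd1 k a) (hd1 k b)) ?_),
    hd1, fun k a h => hu k a a h (by simp), fun k a h => hu k a 1 (one_mem _) (by simpa using h), ?_⟩
  · rw [mul_div_mul_comm]; exact mul_mem (hd2 k a) (hd2 k b)
  · intro a
    symm
    rw [← div_eq_one, ← Subgroup.mem_bot, ← ht]
    apply F.mem_top
    intro l
    apply F.anti (T := Zm (1 + e l)) (by intro w hw; revert l w; decide)
    rw [← mul_prod_erase _ _ (mem_univ l), ← div_div]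
    refine div_mem (hd2 l a) (prod_mem fun k hk => F.anti ?_ (hd1 k a))
    have := ne_of_mem_erase hk
    intro w hw
    clear hk
    revert k l w; decide

variable {p : Fin 5 → A →* A} (h1 : ∀ k a, p k a ∈ F.φ (Zm (e k))) (h4 : ∀ a, ∏ k, p k a = a)
include h1 h4

omit ht hb in
theorem part_mem (u : V) (a : A) {S T : AddSubgroup V} (ha : a ∈ F.φ S)
    (h : T ≤ Zm u ⊔ (S ⊓ Zm (1 + u))) : ∏ k, (if u k = 1 then p k a else 1) ∈ F.φ T := by
  have m : ∀ u : V, ∏ k, (if u k = 1 then p k a else 1) ∈ F.φ (Zm u) := by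
    intro u
    refine prod_mem fun k _ => ?_
    split_ifs with hk
    · refine F.anti ?_ (h1 k a)
      intro w hw
      revert k u w; decide
    · exact one_mem _
  refine F.inf_le h ⟨m u, ?_⟩
  rw [F.inf]
  have : ∏ k, (if u k = 1 then p k a else 1) = a * (∏ k, (if (1 + u) k = 1 then p k a else 1))⁻¹ := by
    rw [eq_mul_inv_iff_mul_eq, ← prod_mul_distrib]
    conv_rhs => rw [← h4 a]
    refine prod_congr rfl fun k _ => ?_
    rcases z2 (u k) with h | h <;> simp [h]
  rw [this]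
  exact Subgroup.mul_mem_sup ha (inv_mem (m _))

omit ht hb in
theorem L1 (u : V) (a : A) (ha : a ∈ F.φ (kr 1)) :
    ∏ k, (if u k = 1 then p k a else 1) ∈ F.φ (kr u) := by
  refine part_mem F h1 h4 u a ha (le_sup_of fun w hw => ⟨(1 + u) * w, ?_, ?_, ?_⟩)
  · clear hw; revert u w; decide
  · show w + (1 + u) * w ∈ kr 1
    revert u w; decide
  · show w + (1 + u) * w ∈ Zm (1 + u)
    clear hw; revert u w; decide

omit ht hb in
theorem L2 (u : V) (a : A) (ha : a ∈ F.φ (sp u)) :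
    ∏ k, (if u k = 1 then p k a else 1) ∈ F.φ (sp 1) := by
  refine part_mem F h1 h4 u a ha (le_sup_of fun w hw => ⟨(1 + u) * w, ?_, ?_, ?_⟩)
  · clear hw ha; revert u w; decide
  · show w + (1 + u) * w ∈ sp u
    clear ha; revert u w; decide
  · show w + (1 + u) * w ∈ Zm (1 + u)
    clear hw ha; revert u w; decide

omit h1 h4 in
theorem L3 (a : A) : a * a = 1 := by
  obtain ⟨p, h1, h2, h3, h4⟩ := exists_proj F ht hb
  have key : ∀ j x, x ∈ F.φ (Zm (e j)) → x * x = 1 := by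
    intro j x hx
    have : x ∈ F.φ (kr 1) ⊔ F.φ (Zm (1 + e j)) := by
      refine F.le_sup ?_ hx
      intro w hw
      have h1 : w ∈ kr 1 := hw.1
      have h2 : w ∈ Zm (1 + e j) := hw.2
      clear hw hx
      revert j w; decide
    obtain ⟨y, hy, z, hz, rfl⟩ := Subgroup.mem_sup.1 this
    clear this
    have e1 : p j y = y * z := by rw [← h2 j _ hx, map_mul, h3 j z hz, mul_one]
    have two : ∀ i l : Fin 5, i ≠ l → p i y * p l y ∈ F.φ (kr (e i + e l)) := by
      intro i l hil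
      have := L1 F h1 h4 (e i + e l) y hy
      rwa [← prod_filter, show univ.filter (fun k => (e i + e l) k = 1) = {i, l} by
        clear this hx e1; revert i l; decide, prod_pair hil] at this
    have t1 := two (j + 1) j (by clear hx e1 hz; revert j; decide)
    have t2 := two j (j + 2) (by clear hx e1 hz t1; revert j; decide)
    have t3 := two (j + 1) (j + 2) (by clear hx e1 hz t1 t2; revert j; decide)
    have hJ : p j y * p j y ∈ F.φ (kr (e (j + 1) + e j) ⊓ kr (e j + e (j + 2))) := by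
      have : p j y * p j y = (p (j + 1) y * p j y) * (p j y * p (j + 2) y)
          / (p (j + 1) y * p (j + 2) y) := by
        rw [eq_div_iff_mul_eq']
        simp only [mul_assoc, mul_comm, mul_left_comm]
      rw [this]
      refine div_mem (mul_mem (F.anti inf_le_left t1) (F.anti inf_le_right t2)) (F.anti ?_ t3)
      intro w hw
      have h1 : w ∈ kr (e (j + 1) + e j) := hw.1
      have h2 : w ∈ kr (e j + e (j + 2)) := hw.2
      clear hw this t1 t2 t3 hx e1 hz
      revert j w; decide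
    rw [← e1, ← Subgroup.mem_bot, ← ht]
    refine F.inf_le (le_sup_of ?_) ⟨hJ, mul_mem (h1 j y) (h1 j y)⟩
    rintro w -
    refine ⟨fun _ => w j, ⟨?_, ?_⟩, ?_⟩
    · show (fun _ => w j) ∈ kr (e (j + 1) + e j)
      clear hJ t1 t2 t3 hx e1 hz
      revert j w; decide
    · show (fun _ => w j) ∈ kr (e j + e (j + 2))
      clear hJ t1 t2 t3 hx e1 hz
      revert j w; decide
    · clear hJ t1 t2 t3 hx e1 hz
      revert j w; decide
  rw [← h4 a, ← prod_mul_distrib]
  exact prod_eq_one fun k _ => key k _ (h1 k a)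

end comm

end H67.Dual
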