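import Pool.Agent.H67.Dual1

set_option autoImplicit false

namespace H67.Dual

open Finset
open scoped commutatorElement

theorem exists_sec {H : Type} [Group H] (F : Anti H) :
    ∃ (A : Type) (_ : CommGroup A) (m : F.φ ⊥ →* A) (E : Anti A), Function.Surjective m ∧
      E.φ ⊤ = ⊥ ∧ E.φ ⊥ = ⊤ ∧ ∀ S (x : F.φ ⊥), m x ∈ E.φ S ↔ (x : H) ∈ F.φ S := by
  haveI := F.nor
  let N : Subgroup (F.φ ⊥) := (F.φ ⊤).subgroupOf (F.φ ⊥)
  let m := QuotientGroup.mk' N
  have ms : Function.Surjective m := QuotientGroup.mk'_surjective N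
  have m1 : ∀ x : F.φ ⊥, m x = 1 ↔ (x : H) ∈ F.φ ⊤ := fun x => QuotientGroup.eq_one_iff x
  letI cg : CommGroup (F.φ ⊥ ⧸ N) := { (inferInstance : Group (F.φ ⊥ ⧸ N)) with
    mul_comm := by
      intro x y
      obtain ⟨x, rfl⟩ := ms x
      obtain ⟨y, rfl⟩ := ms y
      rw [← commutatorElement_eq_one_iff_mul_comm, ← map_commutatorElement, m1]
      exact F.comm (Subgroup.commutator_mem_commutator x.2 y.2) }
  have mem : ∀ S (x : F.φ ⊥), m x ∈ ((F.φ S).subgroupOf (F.φ ⊥)).map m ↔ (x : H) ∈ F.φ S := by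
    intro S x
    refine ⟨?_, fun h => ⟨x, h, rfl⟩⟩
    rintro ⟨y, hy, h⟩
    have : ((y⁻¹ * x : F.φ ⊥) : H) ∈ F.φ ⊤ := by rw [← m1, map_mul, map_inv, h, inv_mul_cancel]
    have := mul_mem (show (y : H) ∈ F.φ S from hy) (F.anti le_top this)
    simpa using this
  refine ⟨F.φ ⊥ ⧸ N, cg, m, ⟨fun S => ((F.φ S).subgroupOf (F.φ ⊥)).map m, fun S => inferInstance,
    ?_, ?_⟩, ms, ?_, ?_, mem⟩
  · intro S T
    rw [F.inf, Subgroup.subgroupOf_sup (F.anti bot_le) (F.anti bot_le), Subgroup.map_sup]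
  · intro S T
    ext x
    obtain ⟨x, rfl⟩ := ms x
    rw [Subgroup.mem_inf, mem, mem, mem, F.sup, Subgroup.mem_inf]
  · ext x
    obtain ⟨x, rfl⟩ := ms x
    rw [Subgroup.mem_bot, m1]; exact mem _ _
  · ext x
    obtain ⟨x, rfl⟩ := ms x
    simp only [Subgroup.mem_top, iff_true]
    exact (mem _ _).2 x.2

def f (u : V) : V := fun a => u (a + 1) * u (a + 3)

theorem cube {A B : Type} [CommGroup A] [CommGroup B] (hB : ∀ b : B, b * b = 1) (Q : A → B)
    (K : A → A → B) (hQ : ∀ x y, Q (x * y) = K y x * Q x * Q y)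
    (hK : ∀ x y z, K x (y * z) = K x y * K x z) (a b c d : A) :
    [Q a, Q (a * d), Q (a * b), Q (a * b * d), Q (a * c), Q (a * c * d), Q (a * b * c),
      Q (a * b * c * d)].prod = 1 := by
  have h : ∀ x, Q x * Q (x * d) = K d x * Q d := by
    intro x
    rw [hQ, ← mul_one (K d x * Q d), ← hB (Q x)]
    simp only [mul_assoc, mul_comm, mul_left_comm]
  have : [Q a, Q (a * d), Q (a * b), Q (a * b * d), Q (a * c), Q (a * c * d), Q (a * b * c),
      Q (a * b * c * d)].prod = (Q a * Q (a * d)) * (Q (a * b) * Q (a * b * d)) *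
      (Q (a * c) * Q (a * c * d)) * (Q (a * b * c) * Q (a * b * c * d)) := by
    simp only [List.prod_cons, List.prod_nil, mul_one, mul_assoc]
  rw [this, h, h, h, h]
  simp only [hK]
  calc _ = (K d a * K d a) * (K d a * K d a) * (K d b * K d b) * (K d c * K d c) * (Q d * Q d) *
      (Q d * Q d) := by simp only [mul_assoc, mul_comm, mul_left_comm]
    _ = 1 := by simp only [hB, mul_one]

theorem stage1 {H : Type} [Group H] (W Y : Anti H) (hB : W.φ ⊤ = Y.φ ⊥)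
    (n : V → ZMod 2 → Subgroup H) (nn : ∀ u ε, (n u ε).Normal)
    (n1 : ∀ u, u ≠ 1 → f u ≠ 0 → W.φ (kr u) ≤ n u 0 ⊔ W.φ ⊤)
    (n2 : ∀ u ε, u ≠ 1 → n u ε ⊓ W.φ ⊤ ≤ Y.φ (sp (f u)))
    (n3 : ∀ u, u ≠ 1 → W.φ ⊤ ≤ n u 0 ⊔ n u 1)
    (n4 : ∀ u ε, u ≠ 1 → n u ε ≤ W.φ ⊥)
    (a : H) (ha : a ∈ W.φ (kr 1)) : a * a ∈ Y.φ (sp 1) := by
  haveI := W.nor
  haveI := Y.nor
  obtain ⟨A, _, m, E, ms, Et, Eb, hm⟩ := exists_sec W
  obtain ⟨B, _, m', E', ms', Et', Eb', hm'⟩ := exists_sec Y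
  have m1 : ∀ x, m x = 1 ↔ (x : H) ∈ Y.φ ⊥ := fun x => by
    rw [← hB, ← hm, Et, Subgroup.mem_bot]
  have m1' : ∀ x, m' x = 1 ↔ (x : H) ∈ Y.φ ⊤ := fun x => by rw [← hm', Et', Subgroup.mem_bot]
  have eA := L3 E Et Eb
  have eB := L3 E' Et' Eb'
  have sqm : ∀ x : W.φ ⊥, (x : H) * x ∈ Y.φ ⊥ := fun x => (m1 (x * x)).1 (by rw [map_mul, eA])
  have cm : ∀ x y : W.φ ⊥, ⁅(x : H), (y : H)⁆ ∈ Y.φ ⊥ := fun x y =>
    hB ▸ W.comm (Subgroup.commutator_mem_commutator x.2 y.2)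
  have cen : ⁅Y.φ ⊥, W.φ ⊥⁆ ≤ Y.φ ⊤ := by
    intro x hx
    refine Y.mem_top fun k => ?_
    have hu : e (k + 1) + e (k + 3) ≠ 1 := by clear hx; revert k; decide
    have hf : f (e (k + 1) + e (k + 3)) = e k := by clear hx hu; revert k; decide
    have c : ∀ ε, ⁅n (e (k + 1) + e (k + 3)) ε, W.φ ⊥⁆ ≤ Y.φ (sp (e k)) := by
      intro ε
      rw [← hf]
      refine le_trans (le_inf (Subgroup.commutator_le_left _ _) ?_) (n2 _ ε hu)
      exact (Subgroup.commutator_mono (n4 _ ε hu) le_rfl).trans W.comm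
    exact comm_sup (c 0) (c 1) (Subgroup.commutator_mono (hB ▸ n3 _ hu) le_rfl hx)
  let sq : W.φ ⊥ → B := fun x => m' ⟨x * x, sqm x⟩
  let kp : W.φ ⊥ → W.φ ⊥ → B := fun x y => m' ⟨_, cm x y⟩
  have cj : ∀ (b : Y.φ ⊥) (x : W.φ ⊥) (h : (x : H) * b * (x : H)⁻¹ ∈ Y.φ ⊥),
      m' ⟨_, h⟩ = m' b := by
    intro b x h
    rw [← mul_inv_eq_one, ← map_inv, ← map_mul, m1']
    have := cen (Subgroup.commutator_mem_commutator b.2 x.2)
    have := inv_mem this
    simpa [commutatorElement_def, mul_assoc] using this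
  have kp2 : ∀ x y z, kp x (y * z) = kp x y * kp x z := by
    intro x y z
    have h := (Y.nor ⊥).conj_mem _ (cm x z) y
    simp only [kp]
    rw [← cj ⟨_, cm x z⟩ y h, ← map_mul]
    congr 1
    apply Subtype.ext
    simp only [commutatorElement_def, Subgroup.coe_mul]
    group
  have kp1 : ∀ x y z, kp (x * y) z = kp x z * kp y z := by
    intro x y z
    have h := (Y.nor ⊥).conj_mem _ (cm y z) x
    rw [mul_comm (kp x z)]
    simp only [kp]
    rw [← cj ⟨_, cm y z⟩ x h, ← map_mul]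
    congr 1
    apply Subtype.ext
    simp only [commutatorElement_def, Subgroup.coe_mul]
    group
  have sq2 : ∀ x y, sq (x * y) = kp y x * sq x * sq y := by
    intro x y
    have h := (Y.nor ⊥).conj_mem _ (cm y x) x
    simp only [kp, sq]
    rw [← cj ⟨_, cm y x⟩ x h, ← map_mul, ← map_mul]
    congr 1
    apply Subtype.ext
    simp only [commutatorElement_def, Subgroup.coe_mul]
    group
  have k0 : ∀ x y, m x = 1 → kp x y = 1 := fun x y h =>
    (m1' _).2 (cen (Subgroup.commutator_mem_commutator ((m1 x).1 h) y.2))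
  have k0' : ∀ x y, m y = 1 → kp x y = 1 := fun x y h => (m1' _).2 (by
    have := inv_mem (cen (Subgroup.commutator_mem_commutator ((m1 y).1 h) x.2))
    rwa [commutatorElement_inv] at this)
  have s0 : ∀ x, m x = 1 → sq x = 1 := fun x h => by
    have := eB (m' ⟨x, (m1 x).1 h⟩)
    rwa [← map_mul] at this
  have dv : ∀ x y, m x = m y → ∃ b, m b = 1 ∧ y = x * b := fun x y h =>
    ⟨x⁻¹ * y, by rw [map_mul, map_inv, h, inv_mul_cancel], by group⟩
  have sqi : ∀ x y, m x = m y → sq x = sq y := by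
    intro x y h
    obtain ⟨b, hb, rfl⟩ := dv x y h
    rw [sq2, k0 _ _ hb, s0 _ hb, one_mul, mul_one]
  have kpi : ∀ x y x' y', m x = m x' → m y = m y' → kp x y = kp x' y' := by
    intro x y x' y' h h'
    obtain ⟨b, hb, rfl⟩ := dv x x' h
    obtain ⟨c, hc, rfl⟩ := dv y y' h'
    rw [kp1, k0 _ _ hb, kp2, k0' _ _ hc, mul_one, mul_one]
  choose s hs using ms
  let Q : A → B := fun x => sq (s x)
  let K : A → A → B := fun x y => kp (s x) (s y)
  have hQ : ∀ x y, Q (x * y) = K y x * Q x * Q y := fun x y => by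
    rw [← sq2]; exact sqi _ _ (by rw [map_mul, hs, hs, hs])
  have hK : ∀ x y z, K x (y * z) = K x y * K x z := fun x y z => by
    rw [← kp2]; exact kpi _ _ _ _ rfl (by rw [map_mul, hs, hs, hs])
  obtain ⟨p, p1, -, -, p4⟩ := exists_proj E Et Eb
  obtain ⟨q, q1, -, -, q4⟩ := exists_proj E' Et' Eb'
  let a' : W.φ ⊥ := ⟨a, W.anti bot_le ha⟩
  have ha' : m a' ∈ E.φ (kr 1) := (hm _ _).2 ha
  let r : V → A := fun u => ∏ k, if u k = 1 then p k (m a') else 1
  have r1 : r 1 = m a' := by simp only [r, Pi.one_apply, if_true, p4]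
  have ra : ∀ u u', r (u + u') = r u * r u' := by
    intro u u'
    rw [← prod_mul_distrib]
    refine prod_congr rfl fun k _ => ?_
    rcases z2 (u k) with h | h <;> rcases z2 (u' k) with h' | h' <;> simp [h, h', eA]
  have tm : ∀ u, u ≠ 1 → f u ≠ 0 → Q (r u) ∈ E'.φ (sp (f u)) := by
    intro u hu hf
    have h1 : (s (r u) : H) ∈ W.φ (kr u) := (hm _ _).1 (by rw [hs]; exact L1 E p1 p4 u _ ha')
    have h2 := n1 u hu hf h1
    rw [← SetLike.mem_coe, Subgroup.mul_normal] at h2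
    obtain ⟨x, hx, b, hb, h⟩ := h2
    have : Q (r u) = sq ⟨x, n4 u 0 hu hx⟩ := by
      refine sqi _ _ ?_
      have : s (r u) = ⟨x, n4 u 0 hu hx⟩ * ⟨b, W.anti bot_le hb⟩ := Subtype.ext h.symm
      rw [this, map_mul, (m1 ⟨b, _⟩).2 (hB ▸ hb), mul_one]
    rw [this]
    exact (hm' _ _).2 (n2 u 0 hu ⟨mul_mem hx hx, hB.ge (sqm ⟨x, n4 u 0 hu hx⟩)⟩)
  let g : V → B := fun u => ∏ k, if f u k = 1 then q k (Q (r u)) else 1
  have gm : ∀ u, u ≠ 1 → g u ∈ E'.φ (sp 1) := by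
    intro u hu
    by_cases hf : f u = 0
    · simp only [g, hf, Pi.zero_apply, zero_ne_one, if_false, prod_const_one]; exact one_mem _
    · exact L2 E' q1 q4 (f u) _ (tm u hu hf)
  have gp : ∏ u, g u = 1 := by
    rw [prod_comm]
    refine prod_eq_one fun k _ => ?_
    rw [← prod_filter, ← map_prod]
    let a := e (k + 1) + e (k + 3)
    let b := e k
    let c := e (k + 2)
    let d := e (k + 4)
    have h1 : univ.filter (fun u => f u k = 1) =
        [a, a + d, a + b, a + b + d, a + c, a + c + d, a + b + c, a + b + c + d].toFinset := by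
      simp only [a, b, c, d]; revert k; decide
    have h2 : [a, a + d, a + b, a + b + d, a + c, a + c + d, a + b + c, a + b + c + d].Nodup := by
      simp only [a, b, c, d]; clear h1; revert k; decide
    rw [h1, List.prod_toFinset _ h2]
    simp only [List.map_cons, List.map_nil, ra _ d, ra _ b, ra _ c]
    rw [cube eB Q K hQ hK, map_one]
  rw [← mul_prod_erase _ _ (mem_univ 1), mul_eq_one_iff_eq_inv] at gp
  have g1 : g 1 = Q (m a') := by
    simp only [g, show f 1 = 1 by decide, Pi.one_apply, if_true, q4, r1]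
  have : sq a' ∈ E'.φ (sp 1) := by
    rw [← sqi _ _ (hs (m a'))]
    show Q (m a') ∈ _
    rw [← g1, gp]
    exact inv_mem (prod_mem fun u hu => gm u (ne_of_mem_erase hu))
  exact (hm' _ _).1 this

theorem stage2 {H : Type} [Group H] (U Y O a b c ab bc ac abc : Subgroup H) [a.Normal] [b.Normal]
    [c.Normal] [ab.Normal] [bc.Normal] [abc.Normal]
    (sq : ∀ x ∈ U, x * x ∈ Y) (h1 : b ≤ U) (h2 : b ⊓ Y ≤ O) (h3 : O ≤ ab)
    (h4 : ac ≤ a ⊔ c) (h5 : ac ≤ abc ⊔ b) (h6 : (a ⊔ b) ⊓ (abc ⊔ c) ≤ ab)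
    (h7 : (c ⊔ b) ⊓ (abc ⊔ a) ≤ bc) : ac ≤ ab ⊔ bc := by
  intro y hy
  have e1 := h4 hy
  have e2 := h5 hy
  rw [← SetLike.mem_coe, Subgroup.mul_normal] at e1 e2
  obtain ⟨x, hx, z, hz, rfl⟩ := e1
  obtain ⟨t, ht, u, hu, h⟩ := e2
  have hu' : u⁻¹ ∈ b := inv_mem hu
  have ht' : t = x * z * u⁻¹ := by rw [eq_mul_inv_iff_mul_eq]; exact h
  have k1 : x * u⁻¹ ∈ ab := by
    refine h6 ⟨Subgroup.mul_mem_sup hx hu', ?_⟩
    have : x * u⁻¹ = t * (u * z⁻¹ * u⁻¹) := by rw [ht']; group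
    rw [this]
    exact Subgroup.mul_mem_sup ht (Subgroup.Normal.conj_mem inferInstance _ (inv_mem hz) _)
  have k2 : z * u⁻¹ ∈ bc := by
    refine h7 ⟨Subgroup.mul_mem_sup hz hu', ?_⟩
    have : z * u⁻¹ = t * (t⁻¹ * x⁻¹ * t⁻¹⁻¹) := by rw [ht']; group
    rw [this]
    exact Subgroup.mul_mem_sup ht (Subgroup.Normal.conj_mem inferInstance _ (inv_mem hx) _)
  have k3 : u * u ∈ ab := h3 (h2 ⟨mul_mem hu hu, sq u (h1 hu)⟩)
  have : x * z = (x * u⁻¹ * (u * u)) * (u⁻¹ * (z * u⁻¹) * u⁻¹⁻¹) := by group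
  show x * z ∈ _
  rw [this]
  exact Subgroup.mul_mem_sup (mul_mem k1 k3) (Subgroup.Normal.conj_mem inferInstance _ k2 _)

end H67.Dual
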