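import Pool.Agent.H67.Dual2

set_option autoImplicit false

namespace H67.Dual

open Finset

@[ext] structure G where
  v : V
  w : V
  x : ZMod 4
  y : ZMod 4

def be (u v : V) : V := fun i => u i * v (i + 1)

theorem be_add_l (u u' v : V) : be (u + u') v = be u v + be u' v := by
  funext i; simp [be, add_mul]
theorem be_add_r (u v v' : V) : be u (v + v') = be u v + be u v' := by
  funext i; simp [be, mul_add]
@[simp] theorem be_zero_l (v : V) : be 0 v = 0 := by funext i; simp [be]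
@[simp] theorem be_zero_r (v : V) : be v 0 = 0 := by funext i; simp [be]

instance : Mul G := ⟨fun g h => ⟨g.v + h.v, g.w + h.w + be g.v h.v, g.x + h.x, g.y + h.y⟩⟩
instance : One G := ⟨⟨0, 0, 0, 0⟩⟩
instance : Inv G := ⟨fun g => ⟨g.v, g.w + be g.v g.v, -g.x, -g.y⟩⟩

@[simp] theorem mv (g h : G) : (g * h).v = g.v + h.v := rfl
@[simp] theorem mw (g h : G) : (g * h).w = g.w + h.w + be g.v h.v := rfl
@[simp] theorem mx (g h : G) : (g * h).x = g.x + h.x := rfl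
@[simp] theorem my (g h : G) : (g * h).y = g.y + h.y := rfl
@[simp] theorem ov : (1 : G).v = 0 := rfl
@[simp] theorem ow : (1 : G).w = 0 := rfl
@[simp] theorem ox : (1 : G).x = 0 := rfl
@[simp] theorem oy : (1 : G).y = 0 := rfl
@[simp] theorem iv (g : G) : g⁻¹.v = g.v := rfl
@[simp] theorem iw (g : G) : g⁻¹.w = g.w + be g.v g.v := rfl
@[simp] theorem ix (g : G) : g⁻¹.x = -g.x := rfl
@[simp] theorem iy (g : G) : g⁻¹.y = -g.y := rfl

theorem aux1 (a b : V) : a + b + a + b = 0 := by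
  rw [add_assoc (a + b), addself]

instance : Group G := Group.ofLeftAxioms
  (by
    intro a b c
    ext1 <;> simp only [mv, mw, mx, my, be_add_l, be_add_r] <;> abel)
  (by intro a; ext1 <;> simp)
  (by intro a; ext1 <;> simp [addself, aux1])

theorem cv (g h : G) : (g * h * g⁻¹).v = h.v := by
  simp only [mv, iv]; rw [add_right_comm, addself, zero_add]
theorem cw (g h : G) : (g * h * g⁻¹).w = h.w + (be g.v h.v + be h.v g.v) := by
  simp only [mv, mw, iv, iw, be_add_l]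
  have := aux1 g.w (be g.v g.v)
  linear_combination (exp := 1) this
theorem cx (g h : G) : (g * h * g⁻¹).x = h.x := by simp
theorem cy (g h : G) : (g * h * g⁻¹).y = h.y := by simp

def L : Sublattice (Subgroup G) where
  carrier := {S | S.Normal}
  supClosed' := fun _ h _ h' => by
    haveI : _ := (show Subgroup.Normal _ from h)
    haveI : _ := (show Subgroup.Normal _ from h')
    exact Subgroup.sup_normal _ _
  infClosed' := fun _ h _ h' => by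
    haveI : _ := (show Subgroup.Normal _ from h)
    haveI : _ := (show Subgroup.Normal _ from h')
    exact Subgroup.normal_inf_normal _ _

def cW' (S : AddSubgroup V) : Subgroup G where
  carrier := {g | g.v = 0 ∧ g.w ∈ S ∧ g.x = 0 ∧ g.y = 0}
  one_mem' := ⟨rfl, S.zero_mem, rfl, rfl⟩
  mul_mem' := by
    rintro a b ⟨h1, h2, h3, h4⟩ ⟨k1, k2, k3, k4⟩
    simp [h1, h3, h4, k1, k3, k4, S.add_mem h2 k2]
  inv_mem' := by
    rintro a ⟨h1, h2, h3, h4⟩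
    simp [h1, h2, h3, h4]

def cW (S : AddSubgroup V) : L := ⟨cW' S, ⟨by
  rintro h ⟨h1, h2, h3, h4⟩ g
  exact ⟨by rw [cv, h1], by rw [cw]; simpa [h1] using h2, by rw [cx, h3], by rw [cy, h4]⟩⟩⟩

def cV' (S : AddSubgroup V) : Subgroup G where
  carrier := {g | g.v ∈ S ∧ g.x = 0 ∧ g.y = 0}
  one_mem' := ⟨S.zero_mem, rfl, rfl⟩
  mul_mem' := by
    rintro a b ⟨h2, h3, h4⟩ ⟨k2, k3, k4⟩
    simp [h3, h4, k3, k4, S.add_mem h2 k2]
  inv_mem' := by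
    rintro a ⟨h2, h3, h4⟩
    simp [h2, h3, h4]

def cV (S : AddSubgroup V) : L := ⟨cV' S, ⟨by
  rintro h ⟨h2, h3, h4⟩ g
  exact ⟨by rwa [cv], by rw [cx, h3], by rw [cy, h4]⟩⟩⟩

def dot (u w : V) : ZMod 2 := ∑ i, u i * w i

theorem dot_add (u w w' : V) : dot u (w + w') = dot u w + dot u w' := by
  simp [dot, mul_add, sum_add_distrib]
@[simp] theorem dot_zero (u : V) : dot u 0 = 0 := by simp [dot]
theorem dot_q : ∀ u : V, u ≠ 1 → dot u (be (f u) (f u)) = 0 := by decide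
theorem dot_k : ∀ u v : V, dot u (be v (f u) + be (f u) v) = 0 := by decide +kernel
theorem z22 (a : ZMod 2) : a + a = 0 := by revert a; decide

def N' (u : V) (ε : ZMod 2) : Subgroup G where
  carrier := {g | u = 1 ∨ (g.x = 0 ∧ g.y = 0 ∧
    ((g.v = 0 ∧ dot u g.w = 0) ∨ (g.v = f u ∧ dot u g.w = ε)))}
  one_mem' := Or.inr ⟨rfl, rfl, Or.inl ⟨rfl, dot_zero u⟩⟩
  mul_mem' := by
    rintro a b ha hb
    by_cases hu : u = 1
    · exact Or.inl hu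
    obtain ⟨h3, h4, h⟩ := ha.resolve_left hu
    obtain ⟨k3, k4, k⟩ := hb.resolve_left hu
    refine Or.inr ⟨by simp [h3, k3], by simp [h4, k4], ?_⟩
    rcases h with ⟨h1, h2⟩ | ⟨h1, h2⟩ <;> rcases k with ⟨k1, k2⟩ | ⟨k1, k2⟩ <;>
      simp [h1, h2, k1, k2, dot_add, addself, dot_q u hu, z22]
  inv_mem' := by
    rintro a ha
    by_cases hu : u = 1
    · exact Or.inl hu
    obtain ⟨h3, h4, h⟩ := ha.resolve_left hu
    refine Or.inr ⟨by simp [h3], by simp [h4], ?_⟩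
    rcases h with ⟨h1, h2⟩ | ⟨h1, h2⟩ <;> simp [h1, h2, dot_add, dot_q u hu]

def N (u : V) (ε : ZMod 2) : L := ⟨N' u ε, ⟨by
  rintro h (hu | ⟨h3, h4, h⟩) g
  · exact Or.inl hu
  refine Or.inr ⟨by rw [cx, h3], by rw [cy, h4], ?_⟩
  rw [cv, cw, dot_add]
  rcases h with ⟨h1, h2⟩ | ⟨h1, h2⟩
  · left; simp [h1, h2]
  · right; simp [h1, h2, dot_k]⟩⟩

def hh (a b : ZMod 2) : ZMod 4 := (if a = 1 then 1 else 0) + (if b = 1 then 2 else 0)
def hG (g : G) : ZMod 4 := hh (g.v 0) (dot 1 g.w)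

theorem hG_mul (g h : G) (hg : g.v ∈ sp 1) (hh' : h.v ∈ sp 1) : hG (g * h) = hG g + hG h := by
  simp only [hG, mv, mw, dot_add]
  generalize dot 1 g.w = s
  generalize dot 1 h.w = t
  rcases hg with hg | hg <;> rcases hh' with k | k <;> rw [hg, k] <;> revert s t <;> decide

theorem dot_k1 : ∀ v : V, ∀ u ∈ sp 1, dot 1 (be v u + be u v) = 0 := by decide +kernel

theorem hG_conj (g h : G) (hh' : h.v ∈ sp 1) : hG (g * h * g⁻¹) = hG h := by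
  simp only [hG, cv, cw, dot_add _ h.w, dot_k1 _ _ hh', add_zero]

theorem hG_zero (x y : ZMod 4) : hG ⟨0, 0, x, y⟩ = 0 := by
  simp only [hG, dot_zero]; decide

def K' (a b c : ZMod 4) : Subgroup G where
  carrier := {g | g.v ∈ sp 1 ∧ a * g.x + b * hG g + c * g.y = 0}
  one_mem' := ⟨(sp 1).zero_mem, by rw [show hG 1 = 0 from hG_zero 0 0]; simp⟩
  mul_mem' := by
    rintro g h ⟨h1, h2⟩ ⟨k1, k2⟩
    refine ⟨(sp 1).add_mem h1 k1, ?_⟩
    rw [hG_mul g h h1 k1, mx, my]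
    linear_combination h2 + k2
  inv_mem' := by
    rintro g ⟨h1, h2⟩
    refine ⟨h1, ?_⟩
    have := hG_mul g⁻¹ g h1 h1
    rw [inv_mul_cancel, show hG 1 = 0 from hG_zero 0 0] at this
    rw [ix, iy]
    linear_combination -h2 - b * this

def K (a b c : ZMod 4) : L := ⟨K' a b c, ⟨by
  rintro h ⟨h1, h2⟩ g
  exact ⟨by rwa [cv], by rwa [cx, cy, hG_conj g h h1]⟩⟩⟩

theorem lsup {X Y Z : L} (h : ∀ g ∈ X.1, ∃ a ∈ Y.1, ∃ b ∈ Z.1, a * b = g) : X ≤ Y ⊔ Z := by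
  intro g hg
  obtain ⟨a, ha, b, hb, rfl⟩ := h g hg
  exact Subgroup.mul_mem_sup ha hb

theorem cW_mono {S T : AddSubgroup V} (h : S ≤ T) : cW S ≤ cW T :=
  fun _ ⟨h1, h2, h3⟩ => ⟨h1, h h2, h3⟩
theorem cV_mono {S T : AddSubgroup V} (h : S ≤ T) : cV S ≤ cV T :=
  fun _ ⟨h1, h3⟩ => ⟨h h1, h3⟩

theorem cW_inf (S T : AddSubgroup V) : cW (S ⊓ T) = cW S ⊓ cW T :=
  le_antisymm (le_inf (cW_mono inf_le_left) (cW_mono inf_le_right))
    fun _ ⟨⟨h1, h2, h3⟩, ⟨_, k2, _⟩⟩ => ⟨h1, ⟨h2, k2⟩, h3⟩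
theorem cV_inf (S T : AddSubgroup V) : cV (S ⊓ T) = cV S ⊓ cV T :=
  le_antisymm (le_inf (cV_mono inf_le_left) (cV_mono inf_le_right))
    fun _ ⟨⟨h2, h3⟩, ⟨k2, _⟩⟩ => ⟨⟨h2, k2⟩, h3⟩

theorem cW_sup (S T : AddSubgroup V) : cW (S ⊔ T) = cW S ⊔ cW T := by
  refine le_antisymm (lsup ?_) (sup_le (cW_mono le_sup_left) (cW_mono le_sup_right))
  rintro g ⟨h1, h2, h3, h4⟩
  obtain ⟨a, ha, b, hb, h⟩ := AddSubgroup.mem_sup.1 h2
  exact ⟨⟨0, a, 0, 0⟩, ⟨rfl, ha, rfl, rfl⟩, ⟨0, b, 0, 0⟩, ⟨rfl, hb, rfl, rfl⟩, by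
    ext1 <;> simp [h, h1, h3, h4]⟩
theorem cV_sup (S T : AddSubgroup V) : cV (S ⊔ T) = cV S ⊔ cV T := by
  refine le_antisymm (lsup ?_) (sup_le (cV_mono le_sup_left) (cV_mono le_sup_right))
  rintro g ⟨h2, h3, h4⟩
  obtain ⟨a, ha, b, hb, h⟩ := AddSubgroup.mem_sup.1 h2
  exact ⟨⟨a, 0, 0, 0⟩, ⟨ha, rfl, rfl⟩, ⟨b, g.w + be a b, 0, 0⟩, ⟨hb, rfl, rfl⟩, by
    ext1 <;> simp [h, h3, h4, add_assoc, addself]⟩

theorem cWV : cW ⊤ = cV ⊥ :=
  le_antisymm (fun _ ⟨h1, _, h3⟩ => ⟨h1, h3⟩) fun _ ⟨h1, h3⟩ => ⟨h1, trivial, h3⟩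

theorem main {H : Type} [Group H] (ψ : L → Subgroup H) (inj : Function.Injective ψ)
    (nor : ∀ x, (ψ x).Normal) (hi : ∀ x y, ψ (x ⊓ y) = ψ x ⊔ ψ y)
    (hs : ∀ x y, ψ (x ⊔ y) = ψ x ⊓ ψ y) : False := by
  have an : ∀ {x y}, x ≤ y → ψ y ≤ ψ x := fun {x y} h => by
    have := hs x y
    rw [sup_eq_right.2 h] at this
    rw [this]; exact inf_le_left
  have re : ∀ {x y}, ψ y ≤ ψ x → x ≤ y := fun {x y} h =>
    sup_eq_right.1 (inj (by rw [hs, inf_eq_right.2 h]))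
  let W : Anti H := ⟨fun S => ψ (cW S), fun _ => nor _, fun S T => by rw [cW_inf, hi],
    fun S T => by rw [cW_sup, hs]⟩
  let Y : Anti H := ⟨fun S => ψ (cV S), fun _ => nor _, fun S T => by rw [cV_inf, hi],
    fun S T => by rw [cV_sup, hs]⟩
  have s1 := stage1 W Y (congrArg ψ cWV) (fun u ε => ψ (N u ε)) (fun _ _ => nor _)
    (fun u hu hf => by
      show ψ _ ≤ ψ _ ⊔ ψ _
      rw [← hi]; apply an
      rintro g ⟨h | ⟨h3, h4, h⟩, k1, -⟩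
      · exact absurd h hu
      rcases h with ⟨-, h⟩ | ⟨h, -⟩
      · exact ⟨k1, h, h3, h4⟩
      · exact absurd (h.symm.trans k1) hf)
    (fun u ε hu => by
      show ψ _ ⊓ ψ _ ≤ ψ _
      rw [← hs]; apply an; apply lsup
      rintro g ⟨h | h, h3, h4⟩
      · exact ⟨1, one_mem _, g, ⟨h, trivial, h3, h4⟩, one_mul g⟩
      have : ∀ u : V, ∀ ε, f u = 0 ∨ ∃ w, dot u w = ε := by decide +kernel
      rcases this u ε with h0 | ⟨w, hw⟩
      · exact ⟨1, one_mem _, g, ⟨h.trans h0, trivial, h3, h4⟩, one_mul g⟩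
      · exact ⟨⟨f u, w, 0, 0⟩, Or.inr ⟨rfl, rfl, Or.inr ⟨rfl, hw⟩⟩, ⟨0, w + g.w, 0, 0⟩,
          ⟨rfl, trivial, rfl, rfl⟩, by ext1 <;> simp [h, h3, h4, ← add_assoc, addself]⟩)
    (fun u hu => by
      show ψ _ ≤ ψ _ ⊔ ψ _
      rw [← hi]; apply an
      rintro g ⟨h | ⟨h3, h4, h⟩, k | ⟨-, -, k⟩⟩
      · exact absurd h hu
      · exact absurd h hu
      · exact absurd k hu
      rcases h with ⟨h, -⟩ | ⟨-, h⟩
      · exact ⟨h, trivial, h3, h4⟩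
      rcases k with ⟨k, -⟩ | ⟨-, k⟩
      · exact ⟨k, trivial, h3, h4⟩
      · exact absurd (h.symm.trans k) zero_ne_one)
    (fun u ε hu => by
      apply an
      rintro g ⟨h1, h2, h3, h4⟩
      exact Or.inr ⟨h3, h4, Or.inl ⟨h1, by rw [show g.w = 0 from h2, dot_zero]⟩⟩)
  have s2 := stage2 _ _ (ψ (K 0 0 0)) (ψ (K 1 0 0)) (ψ (K 0 1 0)) (ψ (K 0 0 1)) (ψ (K 1 1 0))
    (ψ (K 0 1 1)) (ψ (K 1 0 1)) (ψ (K 1 1 1)) s1
    (an (by
      rintro g ⟨h1, h2, h3, h4⟩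
      refine ⟨Or.inl h1, ?_⟩
      rw [hG, h1, show dot 1 g.w = 0 from h2, h3, h4]; decide))
    (by
      show ψ _ ⊓ ψ _ ≤ ψ _
      rw [← hs]; apply an; apply lsup
      rintro g ⟨h, -⟩
      exact ⟨⟨0, 0, g.x, g.y⟩, ⟨Or.inl rfl, by simp [hG_zero]⟩, ⟨g.v, g.w, 0, 0⟩, ⟨h, rfl, rfl⟩,
        by ext1 <;> simp⟩)
    (an fun g h => ⟨h.1, by simp⟩)
    (by
      rw [← hi]; apply an
      rintro g ⟨⟨h, h1⟩, -, h2⟩
      exact ⟨h, by linear_combination h1 + h2⟩)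
    (by
      rw [← hi]; apply an
      rintro g ⟨⟨h, h1⟩, -, h2⟩
      exact ⟨h, by linear_combination h1 - h2⟩)
    (by
      rw [← hi, ← hi, ← hs]; apply an; apply lsup
      rintro g ⟨h, h1⟩
      have e : hG ⟨g.v, g.w, g.x, 0⟩ = hG g := rfl
      exact ⟨⟨0, 0, 0, g.y⟩, ⟨⟨Or.inl rfl, by simp⟩, Or.inl rfl, by simp [hG_zero]⟩,
        ⟨g.v, g.w, g.x, 0⟩, ⟨⟨h, by rw [e]; linear_combination h1⟩, h, by simp⟩, by ext1 <;> simp⟩)
    (by
      rw [← hi, ← hi, ← hs]; apply an; apply lsup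
      rintro g ⟨h, h1⟩
      have e : hG ⟨g.v, g.w, 0, g.y⟩ = hG g := rfl
      exact ⟨⟨0, 0, g.x, 0⟩, ⟨⟨Or.inl rfl, by simp⟩, Or.inl rfl, by simp [hG_zero]⟩,
        ⟨g.v, g.w, 0, g.y⟩, ⟨⟨h, by rw [e]; linear_combination h1⟩, h, by simp⟩, by ext1 <;> simp⟩)
  rw [← hi] at s2
  have h : hG ⟨1, 0, -1, -1⟩ = 1 := by simp only [hG, dot_zero]; decide
  have := (re s2 (show (⟨1, 0, -1, -1⟩ : G) ∈ (K 1 1 0 ⊓ K 0 1 1).1 from
    ⟨⟨Or.inr rfl, by rw [h]; decide⟩, Or.inr rfl, by rw [h]; decide⟩)).2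
  rw [h] at this
  revert this; decide

end H67.Dual
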