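import Mathlib

namespace Pool.Agent.H67.EndQ

open MvPolynomial

theorem exists_indep : ∃ t : ℝ → ℝ, AlgebraicIndependent ℚ t := by
  obtain ⟨ι, x, hx⟩ := exists_isTranscendenceBasis' ℚ ℝ
  have htr : Algebra.Transcendental ℚ ℝ := by
    rw [Algebra.transcendental_iff_not_isAlgebraic]
    intro h
    have := Algebra.IsAlgebraic.cardinalMk_le_max ℚ ℝ
    rw [Cardinal.mk_real, Cardinal.mk_eq_aleph0 ℚ, max_self] at this
    exact absurd this (not_le.2 Cardinal.aleph0_lt_continuum)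
  have hne : Nonempty ι := hx.nonempty_iff_transcendental.2 htr
  have h := hx.lift_cardinalMk_eq_max_lift
  simp only [Cardinal.lift_id, Cardinal.mk_eq_aleph0 ℚ] at h
  have h2 : Cardinal.mk ℝ ≤ Cardinal.mk ι := by
    by_contra hlt
    have hlt := not_le.1 hlt
    have h3 : Cardinal.aleph0 < Cardinal.mk ℝ := by
      rw [Cardinal.mk_real]; exact Cardinal.aleph0_lt_continuum
    have : Cardinal.aleph0 ⊔ Cardinal.mk ι ⊔ Cardinal.aleph0 < Cardinal.mk ℝ :=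
      max_lt (max_lt h3 hlt) h3
    exact absurd h (ne_of_gt this)
  obtain ⟨e⟩ := (Cardinal.le_def _ _).1 h2
  exact ⟨x ∘ e, hx.1.comp e e.injective⟩

/-- The rational span of `1` and the `t a`, `a ∈ A`. -/
noncomputable def G (t : ℝ → ℝ) (A : Set ℝ) : Submodule ℚ ℝ := Submodule.span ℚ (insert 1 (t '' A))

theorem one_mem (t : ℝ → ℝ) (A : Set ℝ) : (1 : ℝ) ∈ G t A :=
  Submodule.subset_span (Set.mem_insert _ _)

theorem t_mem (t : ℝ → ℝ) {A : Set ℝ} {a : ℝ} (ha : a ∈ A) : t a ∈ G t A :=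
  Submodule.subset_span (Set.mem_insert_of_mem _ ⟨a, ha, rfl⟩)

theorem rep_poly (t : ℝ → ℝ) (A : Set ℝ) {x : ℝ} (hx : x ∈ G t A) :
    ∃ P : MvPolynomial ℝ ℚ, aeval t P = x ∧ P.totalDegree ≤ 1 ∧
      ∀ a, a ∉ A → coeff (Finsupp.single a 1) P = 0 := by
  classical
  induction hx using Submodule.span_induction with
  | mem y hy =>
    rcases hy with rfl | ⟨b, hb, rfl⟩
    · refine ⟨1, by simp, by simp, fun a _ => ?_⟩
      rw [coeff_one, if_neg]
      exact fun h => by simpa using congrArg (fun f => f a) h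
    · refine ⟨X b, by simp, by simp, fun a ha => ?_⟩
      rw [coeff_X, if_neg]
      intro h
      have := Finsupp.single_left_injective (one_ne_zero) h
      exact ha (this ▸ hb)
  | zero => exact ⟨0, by simp, by simp, by simp⟩
  | add y z _ _ hy hz =>
    obtain ⟨P, h1, h2, h3⟩ := hy
    obtain ⟨Q, k1, k2, k3⟩ := hz
    refine ⟨P + Q, by simp [h1, k1], (totalDegree_add _ _).trans (max_le h2 k2), fun a ha => ?_⟩
    simp [h3 a ha, k3 a ha]
  | smul q y _ hy =>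
    obtain ⟨P, h1, h2, h3⟩ := hy
    refine ⟨q • P, by simp [h1], (totalDegree_smul_le _ _).trans h2, fun a ha => ?_⟩
    simp [h3 a ha]

theorem mult_self {t : ℝ → ℝ} (ht : AlgebraicIndependent ℚ t) (A : Set ℝ) (c : ℝ)
    (hc : ∀ x ∈ G t A, c * x ∈ G t A) : ∃ q : ℚ, c = q := by
  have h1 : c ∈ G t A := by simpa using hc 1 (one_mem t A)
  rcases A.eq_empty_or_nonempty with rfl | ⟨a, ha⟩
  · have : c ∈ Submodule.span ℚ ({1} : Set ℝ) := by simpa [G] using h1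
    obtain ⟨q, hq⟩ := Submodule.mem_span_singleton.1 this
    exact ⟨q, by simp [← hq]⟩
  · obtain ⟨P, p1, -, -⟩ := rep_poly t A h1
    obtain ⟨Q, q1, q2, -⟩ := rep_poly t A (hc _ (t_mem t ha))
    have hPQ : P * X a = Q := ht (by simp [p1, q1])
    by_cases hP : P = 0
    · exact ⟨0, by simp [← p1, hP]⟩
    have hd := totalDegree_mul_of_isDomain hP (X_ne_zero (R := ℚ) a)
    rw [hPQ, totalDegree_X] at hd
    have h0 : P.totalDegree = 0 := by omega
    refine ⟨coeff 0 P, ?_⟩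
    rw [← p1, totalDegree_eq_zero_iff_eq_C.1 h0]
    simp

theorem mult_sub {t : ℝ → ℝ} (ht : AlgebraicIndependent ℚ t) (A B : Set ℝ) (c d : ℝ)
    (hc : ∀ x ∈ G t A, c * x ∈ G t B) (hd : d ∈ G t A) (hcd : c * d = 1) : A ⊆ B := by
  classical
  have h1 : c ∈ G t B := by simpa using hc 1 (one_mem t A)
  obtain ⟨P, p1, -, -⟩ := rep_poly t B h1
  obtain ⟨Q, q1, -, -⟩ := rep_poly t A hd
  have hPQ : P * Q = 1 := ht (by simp [p1, q1, hcd])
  have hP : P ≠ 0 := left_ne_zero_of_mul_eq_one hPQ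
  have hQ : Q ≠ 0 := right_ne_zero_of_mul_eq_one hPQ
  have hdeg := totalDegree_mul_of_isDomain hP hQ
  rw [hPQ, totalDegree_one] at hdeg
  have h0 : P.totalDegree = 0 := by omega
  have hPC := totalDegree_eq_zero_iff_eq_C.1 h0
  intro a ha
  by_contra hB
  obtain ⟨R, r1, -, r3⟩ := rep_poly t B (hc _ (t_mem t ha))
  have hR : P * X a = R := ht (by simp [p1, r1])
  have := r3 a hB
  rw [← hR, hPC, coeff_C_mul, coeff_X, if_pos rfl, mul_one] at this
  exact hP (by rw [hPC, this]; simp)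

theorem key (H : Submodule ℚ ℝ) (h1 : (1 : ℝ) ∈ H) (f : ℝ → ℝ)
    (hadd : ∀ x y, x ∈ H → y ∈ H → 0 < x → 0 < y → f (x + y) = f x + f y)
    (hpos : ∀ x ∈ H, 0 < x → 0 ≤ f x) : ∀ x ∈ H, 0 < x → f x = x * f 1 := by
  have hn : ∀ (n : ℕ) x, x ∈ H → 0 < x → f (((n : ℝ) + 1) * x) = ((n : ℝ) + 1) * f x := by
    intro n x hx h0
    induction n with
    | zero => simp
    | succ n ih =>
      have hm : ((n : ℝ) + 1) * x ∈ H := by
        have := H.smul_mem ((n : ℚ) + 1) hx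
        simpa [Rat.smul_def] using this
      have e : (((n + 1 : ℕ) : ℝ) + 1) * x = ((n : ℝ) + 1) * x + x := by push_cast; ring
      rw [e, hadd _ _ hm hx (by positivity) h0, ih]
      push_cast; ring
  have hq : ∀ q : ℚ, (q : ℝ) ∈ H := fun q => by
    simpa [Rat.smul_def] using H.smul_mem q h1
  have hrat : ∀ q : ℚ, 0 < q → f q = q * f 1 := by
    intro q h0
    obtain ⟨n, hn'⟩ : ∃ n : ℕ, q.den = n + 1 := ⟨q.den - 1, by have := q.den_pos; omega⟩
    obtain ⟨m, hm'⟩ : ∃ m : ℕ, q.num = m + 1 :=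
      ⟨(q.num - 1).toNat, by have := Rat.num_pos.2 h0; omega⟩
    have e : ((n : ℝ) + 1) * q = ((m : ℝ) + 1) * 1 := by
      have h := Rat.mul_den_eq_num q
      rw [hn', hm'] at h
      have h' := congrArg (fun r : ℚ => (r : ℝ)) h
      push_cast at h'
      linarith
    have a1 := hn n q (hq q) (by exact_mod_cast h0)
    have a2 := hn m 1 h1 one_pos
    rw [e, a2] at a1
    have hpos' : (0 : ℝ) < (n : ℝ) + 1 := by positivity
    apply mul_left_cancel₀ hpos'.ne'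
    rw [← a1, ← mul_assoc, e, mul_one]
  have hmono : ∀ x y, x ∈ H → y ∈ H → 0 < x → x < y → f x ≤ f y := by
    intro x y hx hy h0 hxy
    have := hadd x (y - x) hx (H.sub_mem hy hx) h0 (sub_pos.2 hxy)
    rw [add_sub_cancel] at this
    have := hpos (y - x) (H.sub_mem hy hx) (sub_pos.2 hxy)
    linarith
  intro x hx h0
  have hc : 0 ≤ f 1 := hpos 1 h1 one_pos
  have up : ∀ q : ℚ, x < q → f x ≤ q * f 1 := fun q hlt => by
    rw [← hrat q (by exact_mod_cast h0.trans hlt)]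
    exact hmono _ _ hx (hq q) h0 hlt
  have lo : ∀ q : ℚ, 0 < q → (q : ℝ) < x → q * f 1 ≤ f x := fun q h hlt => by
    rw [← hrat q h]
    exact hmono _ _ (hq q) hx (by exact_mod_cast h) hlt
  rcases hc.eq_or_lt with h | h
  · obtain ⟨q, hq'⟩ := exists_rat_gt x
    have := up q hq'
    have := hpos x hx h0
    rw [← h] at *
    linarith
  · apply le_antisymm
    · by_contra hlt
      have hlt := not_le.1 hlt
      obtain ⟨q, q1, q2⟩ := exists_rat_btwn ((lt_div_iff₀ h).2 hlt)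
      have := up q q1
      have := (lt_div_iff₀ h).1 q2
      linarith
    · by_contra hlt
      have hlt := not_le.1 hlt
      obtain ⟨q, q1, q2⟩ := exists_rat_btwn ((div_lt_iff₀ h).2 hlt)
      have hq0 : (0 : ℝ) < q := lt_of_le_of_lt (div_nonneg (hpos x hx h0) h.le) q1
      have := lo q (by exact_mod_cast hq0) q2
      have := (div_lt_iff₀ h).1 q1
      linarith

theorem scale (H : Submodule ℚ ℝ) (h1 : (1 : ℝ) ∈ H) (U V : AddSubsemigroup ℝ)
    (hU : ∀ x ∈ H, 0 < x → x ∈ U) (hU' : ∀ x ∈ U, x ∈ H ∧ 0 ≤ x) (hV : ∀ y ∈ V, 0 ≤ y)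
    (φ : U →ₙ+ V) (x : U) : (φ x : ℝ) = x * φ ⟨1, hU 1 h1 one_pos⟩ := by
  classical
  let f : ℝ → ℝ := fun x => if h : x ∈ U then (φ ⟨x, h⟩ : ℝ) else 0
  have hf : ∀ x (h : x ∈ U), f x = φ ⟨x, h⟩ := fun x h => dif_pos h
  have hk := key H h1 f (fun x y hx hy h0 h0' => by
      rw [hf x (hU x hx h0), hf y (hU y hy h0'), hf _ (U.add_mem (hU x hx h0) (hU y hy h0'))]
      exact congrArg Subtype.val (map_add φ ⟨x, hU x hx h0⟩ ⟨y, hU y hy h0'⟩))
    (fun x hx h0 => by rw [hf x (hU x hx h0)]; exact hV _ (φ _).2)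
  obtain ⟨x, hx⟩ := x
  rcases (hU' x hx).2.eq_or_lt with h | h
  · subst h
    have := congrArg Subtype.val (map_add φ ⟨0, hx⟩ ⟨0, hx⟩)
    have e : (⟨0, hx⟩ : U) + ⟨0, hx⟩ = ⟨0, hx⟩ := Subtype.ext (by simp)
    rw [e] at this
    simp only [AddMemClass.coe_add] at this
    simp only [zero_mul]
    linarith
  · have := hk x (hU' x hx).1 h
    rwa [hf x hx, hf 1 (hU 1 h1 one_pos)] at this

theorem scale_mem (H K : Submodule ℚ ℝ) (h1 : (1 : ℝ) ∈ H) (U V : AddSubsemigroup ℝ)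
    (hU : ∀ x ∈ H, 0 < x → x ∈ U) (hU' : ∀ x ∈ U, x ∈ H ∧ 0 ≤ x) (hV : ∀ y ∈ V, y ∈ K ∧ 0 ≤ y)
    (φ : U →ₙ+ V) : ∀ x ∈ H, (φ ⟨1, hU 1 h1 one_pos⟩ : ℝ) * x ∈ K := by
  have hp : ∀ x ∈ H, 0 < x → (φ ⟨1, hU 1 h1 one_pos⟩ : ℝ) * x ∈ K := fun x hx h0 => by
    have := scale H h1 U V hU hU' (fun y hy => (hV y hy).2) φ ⟨x, hU x hx h0⟩
    rw [mul_comm, ← this]
    exact (hV _ (φ _).2).1
  intro x hx
  rcases lt_trichotomy x 0 with h | h | h
  · have := K.neg_mem (hp (-x) (H.neg_mem hx) (neg_pos.2 h))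
    simpa using this
  · simp [h]
  · exact hp x hx h

theorem not_iso {t : ℝ → ℝ} (ht : AlgebraicIndependent ℚ t) (A B : Set ℝ)
    (U V : AddSubsemigroup ℝ)
    (hU : ∀ x ∈ G t A, 0 < x → x ∈ U) (hU' : ∀ x ∈ U, x ∈ G t A ∧ 0 ≤ x)
    (hV : ∀ x ∈ G t B, 0 < x → x ∈ V) (hV' : ∀ x ∈ V, x ∈ G t B ∧ 0 ≤ x)
    (e : U ≃+ V) : A ⊆ B := by
  have h1 := scale_mem _ _ (one_mem t A) U V hU hU' hV' (e : U →ₙ+ V)
  have h2 := scale _ (one_mem t B) V U hV hV' (fun y hy => (hU' y hy).2) (e.symm : V →ₙ+ U)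
    (e ⟨1, hU 1 (one_mem t A) one_pos⟩)
  refine mult_sub ht A B _ _ h1 (hU' _ (e.symm ⟨1, hV 1 (one_mem t B) one_pos⟩).2).1 ?_
  simpa using h2.symm

/-- The positive part of a rational subspace of the reals. -/
def pos (H : Submodule ℚ ℝ) : AddSubsemigroup ℝ where
  carrier := {x | x ∈ H ∧ 0 < x}
  add_mem' := fun ha hb => ⟨H.add_mem ha.1 hb.1, add_pos ha.2 hb.2⟩

/-- The non-negative part of a rational subspace of the reals. -/
def nneg (H : Submodule ℚ ℝ) : AddSubsemigroup ℝ where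
  carrier := {x | x ∈ H ∧ 0 ≤ x}
  add_mem' := fun ha hb => ⟨H.add_mem ha.1 hb.1, add_nonneg ha.2 hb.2⟩

theorem ratmul_mem (H : Submodule ℚ ℝ) (q : ℚ) {x : ℝ} (hx : x ∈ H) : (q : ℝ) * x ∈ H := by
  simpa [Rat.smul_def] using H.smul_mem q hx

theorem end_pos (H : Submodule ℚ ℝ) (h1 : (1 : ℝ) ∈ H)
    (hm : ∀ c : ℝ, (∀ x ∈ H, c * x ∈ H) → ∃ q : ℚ, c = q) :
    Nonempty ((pos H →ₙ+ pos H) ≃+ {q : ℚ // 0 < q}) := by
  let F : {q : ℚ // 0 < q} →ₙ+ (pos H →ₙ+ pos H) :=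
    { toFun := fun q =>
        { toFun := fun x => ⟨(q.1 : ℝ) * x, ratmul_mem _ _ x.2.1,
            mul_pos (by exact_mod_cast q.2) x.2.2⟩
          map_add' := fun x y => Subtype.ext (by simp [mul_add]) }
      map_add' := fun p q => by
        ext x
        simp [add_mul] }
  refine ⟨(AddEquiv.ofBijective F ⟨fun p q h => ?_, fun φ => ?_⟩).symm⟩
  · have := congrArg (fun φ : pos H →ₙ+ pos H =>
      (φ ⟨1, h1, one_pos⟩ : ℝ)) h
    simpa [F, Subtype.ext_iff] using this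
  · have hU : ∀ x ∈ H, 0 < x → x ∈ pos H := fun x hx h0 => ⟨hx, h0⟩
    have hU' : ∀ x ∈ pos H, x ∈ H ∧ 0 ≤ x := fun x hx => ⟨hx.1, hx.2.le⟩
    obtain ⟨q, hq⟩ := hm _ (scale_mem _ _ h1 _ _ hU hU' hU' φ)
    have h0 : (0 : ℝ) < q := hq ▸ (φ _).2.2
    refine ⟨⟨q, by exact_mod_cast h0⟩, ?_⟩
    ext x
    rw [scale _ h1 _ _ hU hU' (fun y hy => (hU' y hy).2) φ x, hq, mul_comm]
    rfl

theorem end_nneg (H : Submodule ℚ ℝ) (h1 : (1 : ℝ) ∈ H)
    (hm : ∀ c : ℝ, (∀ x ∈ H, c * x ∈ H) → ∃ q : ℚ, c = q) :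
    Nonempty ((nneg H →ₙ+ nneg H) ≃+ ℚ≥0) := by
  let F : ℚ≥0 →ₙ+ (nneg H →ₙ+ nneg H) :=
    { toFun := fun q =>
        { toFun := fun x => ⟨((q : ℚ) : ℝ) * x, ratmul_mem _ _ x.2.1,
            mul_nonneg (by exact_mod_cast q.2) x.2.2⟩
          map_add' := fun x y => Subtype.ext (by simp [mul_add]) }
      map_add' := fun p q => by
        ext x
        simp [add_mul] }
  refine ⟨(AddEquiv.ofBijective F ⟨fun p q h => ?_, fun φ => ?_⟩).symm⟩
  · have := congrArg (fun φ : nneg H →ₙ+ nneg H =>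
      (φ ⟨1, h1, zero_le_one⟩ : ℝ)) h
    simpa [F, Subtype.ext_iff] using this
  · have hU : ∀ x ∈ H, 0 < x → x ∈ nneg H := fun x hx h0 => ⟨hx, h0.le⟩
    have hU' : ∀ x ∈ nneg H, x ∈ H ∧ 0 ≤ x := fun x hx => hx
    obtain ⟨q, hq⟩ := hm _ (scale_mem _ _ h1 _ _ hU hU' hU' φ)
    have h0 : (0 : ℝ) ≤ q := hq ▸ (φ _).2.2
    refine ⟨⟨q, by exact_mod_cast h0⟩, ?_⟩
    ext x
    rw [scale _ h1 _ _ hU hU' (fun y hy => (hU' y hy).2) φ x, hq, mul_comm]
    rfl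

theorem G_countable (t : ℝ → ℝ) {A : Set ℝ} (hA : A.Countable) :
    (G t A : Set ℝ).Countable := by
  have h : (insert 1 (t '' A) : Set ℝ).Countable := (hA.image t).insert 1
  have := h.to_subtype
  have h2 : Countable (Submodule.span ℚ (Set.range (Subtype.val : (insert 1 (t '' A) : Set ℝ) → ℝ))) :=
    inferInstance
  rw [Subtype.range_coe] at h2
  exact h2

/-- `rep n a` is the sum of `n + 1` copies of `a`. -/
def rep {S : Type*} [Add S] : ℕ → S → S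
  | 0, a => a
  | n + 1, a => rep n a + a

section general
variable {S : Type*} [AddCommSemigroup S]

theorem rep_apply (φ : S →ₙ+ S) (n : ℕ) (a : S) : (rep n φ) a = rep n (φ a) := by
  induction n with
  | zero => rfl
  | succ n ih => simp [rep, ih]

theorem map_rep {T : Type*} [Add T] (φ : S →ₙ+ T) (n : ℕ) (a : S) :
    φ (rep n a) = rep n (φ a) := by
  induction n with
  | zero => rfl
  | succ n ih => simp [rep, ih]

theorem e_rep {M : Type*} [Add M] (e : M → ℚ) (he : ∀ x y, e (x + y) = e x + e y) (n : ℕ)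
    (x : M) : e (rep n x) = ((n : ℚ) + 1) * e x := by
  induction n with
  | zero => simp [rep]
  | succ n ih => simp only [rep, he, ih]; push_cast; ring

theorem coe_rep (n : ℕ) (a : S) : ((rep n a : S) : WithZero S) = (n + 1) • (a : WithZero S) := by
  induction n with
  | zero => simp [rep]
  | succ n ih => rw [rep, WithZero.coe_add, ih, succ_nsmul _ (n + 1)]

theorem rep_add (n : ℕ) (a b : S) : rep n (a + b) = rep n a + rep n b := by
  apply WithZero.coe_injective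
  simp only [coe_rep, WithZero.coe_add, smul_add]

theorem pos_rat (q : ℚ) (h0 : 0 < q) : ∃ m n : ℕ, ((n : ℚ) + 1) * q = (m : ℚ) + 1 := by
  obtain ⟨n, hn'⟩ : ∃ n : ℕ, q.den = n + 1 := ⟨q.den - 1, by have := q.den_pos; omega⟩
  obtain ⟨m, hm'⟩ : ∃ m : ℕ, q.num = m + 1 :=
    ⟨(q.num - 1).toNat, by have := Rat.num_pos.2 h0; omega⟩
  have h := Rat.mul_den_eq_num q
  rw [hn', hm'] at h
  push_cast at h
  exact ⟨m, n, by linarith⟩

theorem gen (e : (S →ₙ+ S) → ℚ) (hadd : ∀ x y, e (x + y) = e x + e y)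
    (hinj : Function.Injective e) (hsurj : ∀ q, 0 < q → ∃ φ, e φ = q) (hnn : ∀ φ, 0 ≤ e φ) :
    (∀ n, Function.Bijective (rep n : S → S)) ∧
      ∀ φ, 0 < e φ → ∃ m n, ∀ a, rep n (φ a) = rep m a := by
  have h0 : 0 < e (AddHom.id S) := by
    refine (hnn _).lt_of_ne fun h => ?_
    have h1 : AddHom.id S + AddHom.id S = AddHom.id S := hinj (by rw [hadd, ← h]; simp)
    obtain ⟨φ, hφ⟩ := hsurj 1 one_pos
    have h2 : φ + φ = φ := by
      ext a
      exact DFunLike.congr_fun h1 (φ a)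
    have := hadd φ φ
    rw [h2, hφ] at this
    norm_num at this
  refine ⟨fun n => ?_, fun φ hφ => ?_⟩
  · obtain ⟨ψ, hψ⟩ := hsurj (e (AddHom.id S) / (n + 1)) (by positivity)
    have h1 : rep n ψ = AddHom.id S := hinj (by rw [e_rep e hadd, hψ]; field_simp)
    have h2 : ∀ a, rep n (ψ a) = a := fun a => by
      rw [← rep_apply, h1]; rfl
    exact ⟨Function.LeftInverse.injective (g := ψ) fun a => by rw [map_rep, h2],
      fun a => ⟨ψ a, h2 a⟩⟩
  · obtain ⟨m, n, h⟩ := pos_rat (e φ / e (AddHom.id S)) (by positivity)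
    have h1 : rep n φ = rep m (AddHom.id S) := hinj (by
      rw [e_rep e hadd, e_rep e hadd, ← h]; field_simp)
    refine ⟨m, n, fun a => ?_⟩
    rw [← rep_apply, h1, rep_apply]; rfl

theorem idem_of (a : S) (k l : ℕ) (hkl : k < l)
    (h : (k + 1) • (a : WithZero S) = (l + 1) • (a : WithZero S)) :
    ∃ N, rep N a + rep N a = rep N a := by
  obtain ⟨d, rfl⟩ := Nat.exists_eq_add_of_lt hkl
  have h1 : ∀ j : ℕ, (k + 1 + j * (d + 1)) • (a : WithZero S) = (k + 1) • (a : WithZero S) := by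
    intro j
    induction j with
    | zero => simp
    | succ j ih =>
      rw [show k + 1 + (j + 1) * (d + 1) = (k + 1 + j * (d + 1)) + (d + 1) by ring, add_nsmul, ih,
        ← add_nsmul, h]
      congr 1; ring
  refine ⟨k * d + k + d, WithZero.coe_injective ?_⟩
  rw [WithZero.coe_add, coe_rep, ← add_nsmul,
    show k * d + k + d + 1 + (k * d + k + d + 1) = (k + 1 + (k + 1) * (d + 1)) + (k + 1) * d by ring,
    add_nsmul, h1, ← add_nsmul]
  congr 1; ring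

theorem conv (c : S) (hid : ∀ N, rep N c + rep N c ≠ rep N c)
    (hb : ∀ n, Function.Bijective (rep n : S → S)) :
    ∃ F : {q : ℚ // 0 < q} →ₙ+ (S →ₙ+ S), Function.Injective F ∧
      ∀ φ : S →ₙ+ S, (∃ m n, ∀ a, rep n (φ a) = rep m a) → ∃ q, F q = φ := by
  have hc : ∀ (n : ℕ) (a b : S),
      (n + 1) • (a : WithZero S) = (n + 1) • (b : WithZero S) → a = b := fun n a b h =>
    (hb n).1 (WithZero.coe_injective (by rw [coe_rep, coe_rep, h]))
  have ex : ∀ q : {q : ℚ // 0 < q}, ∃ φ : S →ₙ+ S, ∀ m n : ℕ, ((n : ℚ) + 1) * q = m + 1 →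
      ∀ a, (n + 1) • (φ a : WithZero S) = (m + 1) • (a : WithZero S) := by
    intro q
    obtain ⟨m, n, h⟩ := pos_rat q.1 q.2
    let E := Equiv.ofBijective _ (hb n)
    have hE : ∀ a, rep n (E.symm a) = a := E.apply_symm_apply
    refine ⟨⟨fun a => E.symm (rep m a), fun a b => (hb n).1 ?_⟩, fun m' n' h' a => ?_⟩
    · rw [rep_add n, hE, hE, hE, rep_add]
    · have h1 : (n + 1) • ((E.symm (rep m a) : S) : WithZero S) = (m + 1) • (a : WithZero S) := by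
        rw [← coe_rep, hE, coe_rep]
      have h2 : (n' + 1) * (m + 1) = (n + 1) * (m' + 1) := by
        have : ((n' : ℚ) + 1) * (m + 1) = (n + 1) * (m' + 1) := by rw [← h, ← h']; ring
        exact_mod_cast this
      rw [← coe_rep, ← coe_rep]
      congr 1
      apply hc n
      simp only [coe_rep, AddHom.coe_mk]
      rw [smul_comm, h1, smul_smul, smul_smul, h2]
  choose F hF using ex
  refine ⟨⟨F, fun p q => ?_⟩, fun p q h => ?_, fun φ ⟨m, n, h⟩ => ?_⟩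
  · obtain ⟨m, n, h⟩ := pos_rat p.1 p.2
    obtain ⟨m', n', h'⟩ := pos_rat q.1 q.2
    ext a
    apply hc (n * n' + n + n')
    have h1 := hF p (m * n' + m + n') (n * n' + n + n') (by push_cast; linear_combination (n' + 1 : ℚ) * h) a
    have h2 := hF q (m' * n + m' + n) (n * n' + n + n') (by push_cast; linear_combination (n + 1 : ℚ) * h') a
    have h3 := hF (p + q) (m * n' + m + n' + (m' * n + m' + n) + 1) (n * n' + n + n') (by
      rw [Positive.coe_add]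
      push_cast; linear_combination (n' + 1 : ℚ) * h + (n + 1 : ℚ) * h') a
    rw [h3, AddHom.add_apply, WithZero.coe_add, smul_add, h1, h2, ← add_nsmul]
    congr 1; ring
  · obtain ⟨m, n, hp⟩ := pos_rat p.1 p.2
    obtain ⟨m', n', hq⟩ := pos_rat q.1 q.2
    have h1 := hF p (m * n' + m + n') (n * n' + n + n') (by push_cast; linear_combination (n' + 1 : ℚ) * hp) c
    have h2 := hF q (m' * n + m' + n) (n * n' + n + n') (by push_cast; linear_combination (n + 1 : ℚ) * hq) c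
    have h' : F p = F q := h
    rw [h', h2] at h1
    have h3 : m' * n + m' + n = m * n' + m + n' := by
      rcases lt_trichotomy (m' * n + m' + n) (m * n' + m + n') with k | k | k
      · obtain ⟨b, hb⟩ := idem_of c _ _ k h1
        exact absurd hb (hid b)
      · exact k
      · obtain ⟨b, hb⟩ := idem_of c _ _ k h1.symm
        exact absurd hb (hid b)
    have h4 : (m' : ℚ) * n + m' + n = m * n' + m + n' := by exact_mod_cast h3
    apply Subtype.ext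
    have hpos : (0 : ℚ) < (n + 1) * (n' + 1) := by positivity
    apply mul_left_cancel₀ hpos.ne'
    linear_combination (n' + 1 : ℚ) * hp - (n + 1 : ℚ) * hq - h4
  · refine ⟨⟨((m : ℚ) + 1) / (n + 1), by positivity⟩, ?_⟩
    ext a
    apply hc n
    have := hF ⟨((m : ℚ) + 1) / (n + 1), by positivity⟩ m n (by field_simp) a
    simp only [AddHom.coe_mk]
    rw [this, ← coe_rep, ← coe_rep, h]

theorem char1 [Nonempty S] : Nonempty ((S →ₙ+ S) ≃+ {q : ℚ // 0 < q}) ↔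
    (∀ a : S, a + a ≠ a) ∧ (∀ n, Function.Bijective (rep n : S → S)) ∧
      ∀ φ : S →ₙ+ S, ∃ m n, ∀ a, rep n (φ a) = rep m a := by
  constructor
  · rintro ⟨e⟩
    have := gen (fun φ => (e φ).1) (fun x y => by rw [map_add]; rfl)
      (Subtype.val_injective.comp e.injective) (fun q hq => ⟨e.symm ⟨q, hq⟩, by simp⟩)
      (fun φ => (e φ).2.le)
    refine ⟨fun a ha => ?_, this.1, fun φ => this.2 φ (e φ).2⟩
    let k : S →ₙ+ S := ⟨fun _ => a, fun _ _ => ha.symm⟩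
    have hk : k + k = k := by ext; exact ha
    have h1 := congrArg Subtype.val (map_add e k k)
    rw [hk, Positive.coe_add] at h1
    have := (e k).2
    linarith
  · rintro ⟨h1, h2, h3⟩
    obtain ⟨F, hF, hF'⟩ := conv (Classical.arbitrary S) (fun N => h1 _) h2
    exact ⟨(AddEquiv.ofBijective F ⟨hF, fun φ => hF' φ (h3 φ)⟩).symm⟩

theorem char2 [Nonempty S] : Nonempty ((S →ₙ+ S) ≃+ ℚ≥0) ↔
    ∃ o : S, (∀ a, o + a = a) ∧ (∀ a : S, a + a = a → a = o) ∧ (∃ a, a ≠ o) ∧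
      (∀ n, Function.Bijective (rep n : S → S)) ∧
      ∀ φ : S →ₙ+ S, (∀ a, φ a = o) ∨ ∃ m n, ∀ a, rep n (φ a) = rep m a := by
  classical
  constructor
  · rintro ⟨e⟩
    have := gen (fun φ => ((e φ : ℚ≥0) : ℚ)) (fun x y => by rw [map_add]; rfl)
      (NNRat.coe_injective.comp e.injective) (fun q hq => ⟨e.symm ⟨q, hq.le⟩, by simp⟩)
      (fun φ => (e φ).2)
    have hz : ∀ φ, e.symm 0 + φ = φ := fun φ => e.injective (by simp)
    have hk : ∀ b : S, b + b = b → ∀ a, e.symm 0 a = b := fun b hb a => by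
      let k : S →ₙ+ S := ⟨fun _ => b, fun _ _ => hb.symm⟩
      have hk : k + k = k := by ext; exact hb
      have h1 := map_add e k k
      rw [hk] at h1
      have h2 : e k = 0 := by simpa using h1
      rw [← h2, e.symm_apply_apply]; rfl
    let a0 := Classical.arbitrary S
    have ho : e.symm 0 a0 + e.symm 0 a0 = e.symm 0 a0 := DFunLike.congr_fun (hz (e.symm 0)) a0
    refine ⟨e.symm 0 a0, fun a => ?_, fun a ha => (hk a ha a0).symm, ?_, this.1, fun φ => ?_⟩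
    · rw [← hk _ ho a]
      exact DFunLike.congr_fun (hz (AddHom.id S)) a
    · by_contra hn
      push Not at hn
      have : e.symm 0 = e.symm 1 := by ext a; rw [hn (e.symm 0 a), hn (e.symm 1 a)]
      simpa using e.symm.injective this
    · rcases eq_or_ne (e φ) 0 with h | h
      · left
        intro a
        rw [← hk _ ho a, ← h, e.symm_apply_apply]
      · right
        exact this.2 φ (by exact_mod_cast pos_iff_ne_zero.2 h)
  · rintro ⟨o, h0, h1, ⟨c, hc⟩, h2, h3⟩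
    have hro : ∀ N, rep N o = o := fun N => by
      induction N with
      | zero => rfl
      | succ N ih => rw [rep, ih, h0]
    obtain ⟨F, hF, hF'⟩ := conv c (fun N h => hc ((h2 N).1 ((h1 _ h).trans (hro N).symm))) h2
    let k : S →ₙ+ S := ⟨fun _ => o, fun _ _ => (h0 o).symm⟩
    have hk : ∀ φ, k + φ = φ := fun φ => by ext a; exact h0 _
    have hk' : ∀ φ, φ + k = φ := fun φ => by ext a; exact (add_comm _ _).trans (h0 _)
    have hFk : ∀ q, F q ≠ k := fun q h => by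
      have : F (q + q) = F q := by rw [map_add, h, hk]
      have h1 := congrArg Subtype.val (hF this)
      rw [Positive.coe_add] at h1
      have := q.2
      linarith
    let f : ℚ≥0 → (S →ₙ+ S) := fun q => if h : 0 < (q : ℚ) then F ⟨q, h⟩ else k
    have f0 : f 0 = k := dif_neg (by simp)
    have fp : ∀ (q : ℚ≥0) (h : 0 < (q : ℚ)), f q = F ⟨q, h⟩ := fun q h => dif_pos h
    have cs : ∀ q : ℚ≥0, q = 0 ∨ 0 < (q : ℚ) := fun q =>
      (eq_or_ne q 0).imp id fun h => by exact_mod_cast pos_iff_ne_zero.2 h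
    let F' : ℚ≥0 →ₙ+ (S →ₙ+ S) := ⟨f, fun p q => by
      rcases cs p with rfl | hp
      · rw [zero_add, f0, hk]
      rcases cs q with rfl | hq
      · rw [add_zero, f0, hk']
      rw [fp p hp, fp q hq, fp (p + q) (by push_cast; positivity), ← map_add]
      rfl⟩
    refine ⟨(AddEquiv.ofBijective F' ⟨fun p q h => ?_, fun φ => ?_⟩).symm⟩
    · have h : f p = f q := h
      rcases cs p with rfl | hp <;> rcases cs q with rfl | hq
      · rfl
      · rw [f0, fp q hq] at h; exact absurd h.symm (hFk _)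
      · rw [f0, fp p hp] at h; exact absurd h (hFk _)
      · rw [fp p hp, fp q hq] at h
        have h' : (p : ℚ) = (q : ℚ) :=
          congrArg (fun r : {q : ℚ // 0 < q} => r.1) (hF h)
        exact NNRat.coe_injective h'
    · rcases h3 φ with h | h
      · exact ⟨0, f0.trans (by ext a; exact (h a).symm)⟩
      · obtain ⟨q, hq⟩ := hF' φ h
        exact ⟨⟨q.1, q.2.le⟩, (fp _ q.2).trans hq⟩

/-- Transport of endomorphisms along an isomorphism. -/
def conj {T : Type*} [AddCommSemigroup T] (e : S ≃+ T) : (S →ₙ+ S) ≃+ (T →ₙ+ T) where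
  toFun φ := ((e : S →ₙ+ T).comp φ).comp (e.symm : T →ₙ+ S)
  invFun φ := ((e.symm : T →ₙ+ S).comp φ).comp (e : S →ₙ+ T)
  left_inv φ := by ext; simp
  right_inv φ := by ext; simp
  map_add' φ ψ := by ext; simp

end general


section ordered
variable {Γ : Type*} [AddCommGroup Γ] [LinearOrder Γ]

/-- `Γ` is order-isomorphic to a subgroup `H` of the reals containing `1` such that the real
numbers `c` with `c H ⊆ H` are exactly the rational numbers. -/
def RatMult (Γ : Type*) [AddCommGroup Γ] [LinearOrder Γ] : Prop :=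
  ∃ f : Γ →+ ℝ, StrictMono f ∧ (∃ u, f u = 1) ∧
    ∀ c : ℝ, (∀ x, ∃ y, f y = c * f x) ↔ ∃ q : ℚ, c = q

variable [IsOrderedAddMonoid Γ]

theorem arch (hdiv : ∀ (n : ℕ) (g : Γ), ∃ h, (n + 1) • h = g)
    (hrat : ∀ φ : Γ →+ Γ, (∀ x, 0 < x → 0 < φ x) →
      ∃ m n : ℕ, ∀ x, 0 < x → (n + 1) • φ x = (m + 1) • x) : Archimedean Γ := by
  refine ⟨fun x y hy => ?_⟩
  let C : AddSubgroup Γ :=
    { carrier := {g | ∃ n : ℕ, |g| ≤ n • y}
      zero_mem' := ⟨0, by simp⟩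
      add_mem' := fun ⟨n, hn⟩ ⟨m, hm⟩ =>
        ⟨n + m, (abs_add_le _ _).trans (by rw [add_nsmul]; exact add_le_add hn hm)⟩
      neg_mem' := fun ⟨n, hn⟩ => ⟨n, by rwa [abs_neg]⟩ }
  have hconv : ∀ g c, c ∈ C → |g| ≤ |c| → g ∈ C := fun g c ⟨n, hn⟩ h => ⟨n, h.trans hn⟩
  letI : DivisibleBy C ℕ := divisibleByOfSMulRightSurj C ℕ fun {n} hn c => by
    obtain ⟨k, rfl⟩ := Nat.exists_eq_succ_of_ne_zero hn
    obtain ⟨h, hh⟩ := hdiv k c
    refine ⟨⟨h, hconv h c c.2 ?_⟩, Subtype.ext hh⟩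
    rw [← hh, abs_nsmul, succ_nsmul]
    exact le_add_of_nonneg_left (nsmul_nonneg (abs_nonneg _) _)
  letI : DivisibleBy C ℤ := AddGroup.divisibleByIntOfDivisibleByNat C
  obtain ⟨r, hr⟩ := (Module.Baer.of_divisible C).extension_property_addMonoidHom C.subtype
    C.subtype_injective (AddMonoidHom.id C)
  have hr' : ∀ c ∈ C, (r c : Γ) = c := fun c hc =>
    congrArg Subtype.val (DFunLike.congr_fun hr ⟨c, hc⟩)
  obtain ⟨m, n, h⟩ := hrat (AddMonoidHom.id Γ + C.subtype.comp r) fun x hx => by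
    show 0 < x + (r x : Γ)
    by_cases hC : x ∈ C
    · rw [hr' x hC]; exact add_pos hx hx
    · by_contra hle
      apply hC
      apply hconv x _ (r x).2
      rw [abs_of_pos hx]
      exact (le_neg_iff_add_nonpos_right.2 (not_lt.1 hle)).trans (neg_le_abs _)
  have h' : ∀ x, 0 < x → (n + 1) • (x + (r x : Γ)) = (m + 1) • x := h
  have hyC : y ∈ C := ⟨1, by rw [abs_of_pos hy, one_nsmul]⟩
  have h1 := h' y hy
  rw [hr' y hyC, ← two_nsmul, smul_smul] at h1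
  have h2 : (n + 1) * 2 = m + 1 := (nsmul_left_strictMono hy).injective h1
  rcases le_or_gt x 0 with hx | hx
  · exact ⟨0, by simpa using hx⟩
  · have h3 := h' x hx
    rw [← h2, ← smul_smul, two_nsmul] at h3
    have h4 : x + (r x : Γ) = x + x := nsmul_right_injective (Nat.succ_ne_zero n) h3
    have h5 : (r x : Γ) = x := add_left_cancel h4
    obtain ⟨k, hk⟩ : x ∈ C := h5 ▸ (r x).2
    exact ⟨k, (le_abs_self x).trans hk⟩

theorem core [Nontrivial Γ] (hdiv0 : ∀ (n : ℕ) (g : Γ), 0 < g → ∃ h, (n + 1) • h = g)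
    (hrat : ∀ φ : Γ →+ Γ, (∀ x, 0 < x → 0 < φ x) →
      ∃ m n : ℕ, ∀ x, 0 < x → (n + 1) • φ x = (m + 1) • x) : RatMult Γ := by
  have hdiv : ∀ (n : ℕ) (g : Γ), ∃ h, (n + 1) • h = g := fun n g => by
    rcases lt_trichotomy g 0 with h | h | h
    · obtain ⟨k, hk⟩ := hdiv0 n (-g) (neg_pos.2 h)
      exact ⟨-k, by rw [smul_neg, hk, neg_neg]⟩
    · exact ⟨0, by simp [h]⟩
    · exact hdiv0 n g h
  have := arch hdiv hrat
  obtain ⟨f0, hf0⟩ := Archimedean.exists_orderAddMonoidHom_real_injective Γ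
  have hs : StrictMono f0 := (OrderHomClass.monotone f0).strictMono_of_injective hf0
  obtain ⟨a, ha⟩ := exists_ne (0 : Γ)
  have hu : 0 < |a| := abs_pos.2 ha
  have hfu : 0 < f0 |a| := by simpa using hs hu
  let f : Γ →+ ℝ := (AddMonoidHom.mulLeft (f0 |a|)⁻¹).comp (f0 : Γ →+ ℝ)
  have hf : StrictMono f := fun x y h => mul_lt_mul_of_pos_left (hs h) (inv_pos.2 hfu)
  have h1 : f |a| = 1 := inv_mul_cancel₀ hfu.ne'
  have hp : ∀ c : ℝ, 0 < c → (∀ x, ∃ y, f y = c * f x) → ∃ q : ℚ, c = q := fun c hc h => by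
    choose ψ hψ using h
    let ψ' : Γ →+ Γ := AddMonoidHom.mk' ψ fun x y => hf.injective (by
      rw [map_add, hψ, hψ, hψ, map_add, mul_add])
    obtain ⟨m, n, h⟩ := hrat ψ' fun x hx => hf.lt_iff_lt.1 (by
      rw [map_zero]
      show 0 < f (ψ x)
      rw [hψ]
      exact mul_pos hc (by simpa using hf hx))
    have h2 := congrArg f (h _ hu)
    rw [map_nsmul, map_nsmul] at h2
    have h3 : f (ψ' |a|) = c := by
      show f (ψ |a|) = c
      rw [hψ, h1, mul_one]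
    rw [h3, h1, nsmul_eq_mul, nsmul_eq_mul] at h2
    refine ⟨((m : ℚ) + 1) / (n + 1), ?_⟩
    push_cast at h2 ⊢
    field_simp
    linarith
  refine ⟨f, hf, ⟨_, h1⟩, fun c => ⟨fun h => ?_, ?_⟩⟩
  · rcases lt_trichotomy c 0 with hc | hc | hc
    · obtain ⟨q, hq⟩ := hp (-c) (neg_pos.2 hc) fun x => by
        obtain ⟨y, hy⟩ := h x
        exact ⟨-y, by rw [map_neg, hy, neg_mul]⟩
      exact ⟨-q, by push_cast; linarith⟩
    · exact ⟨0, by simp [hc]⟩
    · exact hp c hc h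
  · rintro ⟨q, rfl⟩ x
    obtain ⟨n, hn⟩ : ∃ n : ℕ, q.den = n + 1 := ⟨q.den - 1, by have := q.den_pos; omega⟩
    obtain ⟨h, rfl⟩ := hdiv n x
    refine ⟨q.num • h, ?_⟩
    rw [map_zsmul, map_nsmul, ← hn, zsmul_eq_mul, nsmul_eq_mul, ← mul_assoc]
    congr 1
    exact_mod_cast (Rat.mul_den_eq_num q).symm

theorem sub_of (h : RatMult Γ) : ∃ H : Submodule ℚ ℝ, (1 : ℝ) ∈ H ∧
    (∀ c : ℝ, (∀ x ∈ H, c * x ∈ H) → ∃ q : ℚ, c = q) ∧
    Nonempty ({x : Γ // 0 < x} ≃+ pos H) ∧ Nonempty ({x : Γ // 0 ≤ x} ≃+ nneg H) := by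
  obtain ⟨f, hf, hu, hm⟩ := h
  let H : Submodule ℚ ℝ :=
    { carrier := Set.range f
      zero_mem' := ⟨0, map_zero f⟩
      add_mem' := by rintro _ _ ⟨x, rfl⟩ ⟨y, rfl⟩; exact ⟨x + y, map_add f x y⟩
      smul_mem' := by
        rintro q _ ⟨x, rfl⟩
        rw [Rat.smul_def]
        exact (hm q).2 ⟨q, rfl⟩ x }
  refine ⟨H, hu, fun c hc => (hm c).1 fun x => hc _ ⟨x, rfl⟩, ?_, ?_⟩
  · let F : {x : Γ // 0 < x} →ₙ+ pos H :=
      ⟨fun x => ⟨f x, ⟨x, rfl⟩, by simpa using hf x.2⟩, fun x y => Subtype.ext (map_add f _ _)⟩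
    refine ⟨AddEquiv.ofBijective F ⟨fun x y h => Subtype.ext (hf.injective
      (congrArg Subtype.val h)), ?_⟩⟩
    rintro ⟨_, ⟨x, rfl⟩, h⟩
    exact ⟨⟨x, hf.lt_iff_lt.1 (by simpa using h)⟩, rfl⟩
  · let F : {x : Γ // 0 ≤ x} →ₙ+ nneg H :=
      ⟨fun x => ⟨f x, ⟨x, rfl⟩, by simpa using hf.monotone x.2⟩,
        fun x y => Subtype.ext (map_add f _ _)⟩
    refine ⟨AddEquiv.ofBijective F ⟨fun x y h => Subtype.ext (hf.injective
      (congrArg Subtype.val h)), ?_⟩⟩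
    rintro ⟨_, ⟨x, rfl⟩, h⟩
    exact ⟨⟨x, hf.le_iff_le.1 (by simpa using h)⟩, rfl⟩

theorem val_rep1 (n : ℕ) (x : {x : Γ // 0 < x}) : (rep n x).1 = (n + 1) • x.1 := by
  induction n with
  | zero => simp [rep]
  | succ n ih => rw [rep, Positive.coe_add, ih, succ_nsmul _ (n + 1)]

theorem val_rep2 (n : ℕ) (x : {x : Γ // 0 ≤ x}) : (rep n x).1 = (n + 1) • x.1 := by
  induction n with
  | zero => simp [rep]
  | succ n ih => rw [rep, Nonneg.coe_add, ih, succ_nsmul _ (n + 1)]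

theorem ord1 [Nontrivial Γ] :
    Nonempty (({x : Γ // 0 < x} →ₙ+ {x : Γ // 0 < x}) ≃+ {q : ℚ // 0 < q}) ↔ RatMult Γ := by
  constructor
  · intro h
    obtain ⟨a, ha⟩ := exists_ne (0 : Γ)
    have : Nonempty {x : Γ // 0 < x} := ⟨⟨_, abs_pos.2 ha⟩⟩
    obtain ⟨-, h2, h3⟩ := char1.1 h
    refine core (fun n g hg => ?_) fun φ hφ => ?_
    · obtain ⟨k, hk⟩ := (h2 n).2 ⟨g, hg⟩
      exact ⟨k.1, by rw [← val_rep1, hk]⟩
    · obtain ⟨m, n, h⟩ := h3 ⟨fun x => ⟨φ x, hφ x x.2⟩, fun x y => Subtype.ext (map_add φ _ _)⟩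
      refine ⟨m, n, fun x hx => ?_⟩
      have := congrArg Subtype.val (h ⟨x, hx⟩)
      rwa [val_rep1, val_rep1] at this
  · intro h
    obtain ⟨H, h1, hm, ⟨e⟩, -⟩ := sub_of h
    obtain ⟨e'⟩ := end_pos H h1 hm
    exact ⟨(conj e).trans e'⟩

theorem ord2 [Nontrivial Γ] :
    Nonempty (({x : Γ // 0 ≤ x} →ₙ+ {x : Γ // 0 ≤ x}) ≃+ ℚ≥0) ↔ RatMult Γ := by
  constructor
  · intro h
    obtain ⟨a, ha⟩ := exists_ne (0 : Γ)
    obtain ⟨o, h0, -, -, h2, h3⟩ := char2.1 h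
    have ho : o.1 = 0 := by simpa using congrArg Subtype.val (h0 0)
    refine core (fun n g hg => ?_) fun φ hφ => ?_
    · obtain ⟨k, hk⟩ := (h2 n).2 ⟨g, hg.le⟩
      exact ⟨k.1, by rw [← val_rep2, hk]⟩
    · have hn : ∀ x, 0 ≤ x → 0 ≤ φ x := fun x hx => by
        rcases hx.eq_or_lt with rfl | hx
        · simp
        · exact (hφ x hx).le
      rcases h3 ⟨fun x => ⟨φ x, hn x x.2⟩, fun x y => Subtype.ext (map_add φ _ _)⟩ with
        h | ⟨m, n, h⟩
      · have h1 : φ |a| = o.1 := congrArg Subtype.val (h ⟨|a|, abs_nonneg a⟩)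
        exact absurd (h1.trans ho) (hφ _ (abs_pos.2 ha)).ne'
      refine ⟨m, n, fun x hx => ?_⟩
      have := congrArg Subtype.val (h ⟨x, hx.le⟩)
      rwa [val_rep2, val_rep2] at this
  · intro h
    obtain ⟨H, h1, hm, -, ⟨e⟩⟩ := sub_of h
    obtain ⟨e'⟩ := end_nneg H h1 hm
    exact ⟨(conj e).trans e'⟩

end ordered

theorem iso_iff (H K : Submodule ℚ ℝ) (hH : (1 : ℝ) ∈ H) (hK : (1 : ℝ) ∈ K)
    (U V : AddSubsemigroup ℝ)
    (hU : ∀ x ∈ H, 0 < x → x ∈ U) (hU' : ∀ x ∈ U, x ∈ H ∧ 0 ≤ x)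
    (hV : ∀ x ∈ K, 0 < x → x ∈ V) (hV' : ∀ x ∈ V, x ∈ K ∧ 0 ≤ x)
    (e : U ≃+ V) : ∃ c : ℝ, 0 < c ∧ ∀ x, x ∈ H ↔ c * x ∈ K := by
  have h1 := scale_mem _ _ hH U V hU hU' hV' (e : U →ₙ+ V)
  have h1' := scale_mem _ _ hK V U hV hV' hU' (e.symm : V →ₙ+ U)
  have h2 := scale _ hK V U hV hV' (fun y hy => (hU' y hy).2) (e.symm : V →ₙ+ U)
    (e ⟨1, hU 1 hH one_pos⟩)
  have h3 : ((e ⟨1, hU 1 hH one_pos⟩ : V) : ℝ) * (e.symm ⟨1, hV 1 hK one_pos⟩ : U) = 1 := by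
    simpa using h2.symm
  refine ⟨(e ⟨1, hU 1 hH one_pos⟩ : V), (hV' _ (e _).2).2.lt_of_ne fun h => ?_,
    fun x => ⟨h1 x, fun hx => ?_⟩⟩
  · rw [← h, zero_mul] at h3
    exact zero_ne_one h3
  · have := h1' _ hx
    rw [← mul_assoc, mul_comm _ ((e ⟨1, hU 1 hH one_pos⟩ : V) : ℝ)] at this
    have h4 : ((e ⟨1, hU 1 hH one_pos⟩ : V) : ℝ) *
      ((e.symm : V →ₙ+ U) ⟨1, hV 1 hK one_pos⟩ : U) = 1 := h3
    rwa [h4, one_mul] at this

theorem iso1 (H K : Submodule ℚ ℝ) (hH : (1 : ℝ) ∈ H) (hK : (1 : ℝ) ∈ K) :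
    Nonempty (pos H ≃+ pos K) ↔ ∃ c : ℝ, 0 < c ∧ ∀ x, x ∈ H ↔ c * x ∈ K := by
  constructor
  · rintro ⟨e⟩
    exact iso_iff H K hH hK (pos H) (pos K)
      (fun x hx h0 => ⟨hx, h0⟩) (fun x hx => ⟨hx.1, hx.2.le⟩)
      (fun x hx h0 => ⟨hx, h0⟩) (fun x hx => ⟨hx.1, hx.2.le⟩) e
  · rintro ⟨c, hc, h⟩
    let F : pos H →ₙ+ pos K :=
      ⟨fun x => ⟨c * x, (h _).1 x.2.1, mul_pos hc x.2.2⟩, fun x y => Subtype.ext (mul_add _ _ _)⟩
    refine ⟨AddEquiv.ofBijective F ⟨fun x y k => Subtype.ext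
      (mul_left_cancel₀ hc.ne' (Subtype.ext_iff.1 k)), fun y => ?_⟩⟩
    have e : c * (y / c) = y := by field_simp
    exact ⟨⟨y / c, (h _).2 (e.symm ▸ y.2.1), div_pos y.2.2 hc⟩, Subtype.ext e⟩

theorem iso2 (H K : Submodule ℚ ℝ) (hH : (1 : ℝ) ∈ H) (hK : (1 : ℝ) ∈ K) :
    Nonempty (nneg H ≃+ nneg K) ↔ ∃ c : ℝ, 0 < c ∧ ∀ x, x ∈ H ↔ c * x ∈ K := by
  constructor
  · rintro ⟨e⟩
    exact iso_iff H K hH hK (nneg H) (nneg K)
      (fun x hx h0 => ⟨hx, h0.le⟩) (fun x hx => hx)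
      (fun x hx h0 => ⟨hx, h0.le⟩) (fun x hx => hx) e
  · rintro ⟨c, hc, h⟩
    let F : nneg H →ₙ+ nneg K :=
      ⟨fun x => ⟨c * x, (h _).1 x.2.1, mul_nonneg hc.le x.2.2⟩,
        fun x y => Subtype.ext (mul_add _ _ _)⟩
    refine ⟨AddEquiv.ofBijective F ⟨fun x y k => Subtype.ext
      (mul_left_cancel₀ hc.ne' (Subtype.ext_iff.1 k)), fun y => ?_⟩⟩
    have e : c * (y / c) = y := by field_simp
    exact ⟨⟨y / c, (h _).2 (e.symm ▸ y.2.1), div_nonneg y.2.2 hc.le⟩, Subtype.ext e⟩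

theorem family : ∃ H : Set ℝ → Submodule ℚ ℝ, (∀ A, (1 : ℝ) ∈ H A) ∧
    (∀ A, A.Countable → Countable (H A)) ∧
    (∀ A, Nonempty ((pos (H A) →ₙ+ pos (H A)) ≃+ {q : ℚ // 0 < q})) ∧
    (∀ A, Nonempty ((nneg (H A) →ₙ+ nneg (H A)) ≃+ ℚ≥0)) ∧
    (∀ A B, Nonempty (pos (H A) ≃+ pos (H B)) → A = B) ∧
    ∀ A B, Nonempty (nneg (H A) ≃+ nneg (H B)) → A = B := by
  obtain ⟨t, ht⟩ := exists_indep
  refine ⟨G t, one_mem t, fun A hA => G_countable t hA,
    fun A => end_pos _ (one_mem t A) (mult_self ht A),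
    fun A => end_nneg _ (one_mem t A) (mult_self ht A), fun A B ⟨e⟩ => ?_, fun A B ⟨e⟩ => ?_⟩
  · exact Set.Subset.antisymm
      (not_iso ht A B (pos (G t A)) (pos (G t B))
        (fun x hx h0 => ⟨hx, h0⟩) (fun x hx => ⟨hx.1, hx.2.le⟩)
        (fun x hx h0 => ⟨hx, h0⟩) (fun x hx => ⟨hx.1, hx.2.le⟩) e)
      (not_iso ht B A (pos (G t B)) (pos (G t A))
        (fun x hx h0 => ⟨hx, h0⟩) (fun x hx => ⟨hx.1, hx.2.le⟩)
        (fun x hx h0 => ⟨hx, h0⟩) (fun x hx => ⟨hx.1, hx.2.le⟩) e.symm)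
  · exact Set.Subset.antisymm
      (not_iso ht A B (nneg (G t A)) (nneg (G t B))
        (fun x hx h0 => ⟨hx, h0.le⟩) (fun x hx => hx)
        (fun x hx h0 => ⟨hx, h0.le⟩) (fun x hx => hx) e)
      (not_iso ht B A (nneg (G t B)) (nneg (G t A))
        (fun x hx h0 => ⟨hx, h0.le⟩) (fun x hx => hx)
        (fun x hx h0 => ⟨hx, h0.le⟩) (fun x hx => hx) e.symm)

end Pool.Agent.H67.EndQ
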