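import Mathlib

namespace Pool.Agent.H67.ExtHom

variable {K A I : Type*} [Field K] [Ring A] [Algebra K A] [DecidableEq I]

/-- canonical anticommutation data -/
structure CAR (K A I : Type*) [Field K] [Ring A] [Algebra K A] [DecidableEq I] where
  x : I → A
  b : I → A →ₗ[K] A
  xx : ∀ i, x i * x i = 0
  xc : ∀ i j, x i * x j = -(x j * x i)
  bx : ∀ i j u, b i (x j * u) = (if i = j then u else 0) - x j * b i u
  b1 : ∀ i, b i 1 = 0
  bb : ∀ i j u, b i (b j u) = -b j (b i u)

namespace CAR
variable (c : CAR K A I)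

def m (l : List I) : A := (l.map c.x).prod

def D : List I → A →ₗ[K] A
  | [] => LinearMap.id
  | i :: l => (D l).comp (c.b i)

@[simp] theorem m_nil : c.m [] = 1 := rfl
@[simp] theorem m_cons (i : I) (l : List I) : c.m (i :: l) = c.x i * c.m l := by simp [m]
@[simp] theorem D_nil (u : A) : c.D [] u = u := rfl
@[simp] theorem D_cons (i : I) (l : List I) (u : A) : c.D (i :: l) u = c.D l (c.b i u) := rfl

theorem m_append (l l' : List I) : c.m (l ++ l') = c.m l * c.m l' := by simp [m]

theorem L1 (i : I) (l : List I) (h : i ∉ l) (u : A) :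
    c.b i (c.m l * u) = (-1 : K) ^ l.length • (c.m l * c.b i u) := by
  induction l with
  | nil => simp
  | cons j l ih =>
    rw [List.mem_cons, not_or] at h
    rw [m_cons, mul_assoc, c.bx, if_neg h.1, ih h.2, List.length_cons, pow_succ, mul_assoc]
    simp

theorem x_m (i : I) (l : List I) : c.x i * c.m l = (-1 : K) ^ l.length • (c.m l * c.x i) := by
  induction l with
  | nil => simp
  | cons j l ih =>
    rw [m_cons, ← mul_assoc, c.xc, neg_mul, mul_assoc, ih, List.length_cons, pow_succ, mul_assoc]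
    simp

theorem L4 (i : I) (l : List I) (h : i ∈ l) (u : A) (hu : c.x i * u = 0) : c.m l * u = 0 := by
  induction l with
  | nil => simp at h
  | cons j l ih =>
    rcases List.mem_cons.1 h with rfl | h
    · rw [m_cons, x_m, smul_mul_assoc, mul_assoc, hu, mul_zero, smul_zero]
    · rw [m_cons, mul_assoc, ih h, mul_zero]

theorem L2 (i : I) (l : List I) (h : i ∈ l) : c.x i * c.m l = 0 := by
  rw [x_m, c.L4 i l h _ (c.xx i), smul_zero]

theorem L2' (i : I) (l : List I) (h : i ∉ l) : c.b i (c.m l) = 0 := by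
  have := c.L1 i l h 1
  rwa [mul_one, c.b1, mul_zero, smul_zero] at this

theorem L3 (l : List I) (hl : l.Nodup) (u : A) (hu : ∀ i ∈ l, c.b i u = 0) :
    c.D l (c.m l * u) = u := by
  induction l with
  | nil => simp
  | cons j l ih =>
    rw [List.nodup_cons] at hl
    rw [D_cons, m_cons, mul_assoc, c.bx, if_pos rfl, c.L1 j l hl.1, hu j List.mem_cons_self,
      mul_zero, smul_zero, mul_zero, sub_zero]
    exact ih hl.2 fun i hi => hu i (List.mem_cons_of_mem _ hi)

theorem L5 (i : I) (l : List I) (h : i ∈ l) (u : A) (hu : c.b i u = 0) : c.D l u = 0 := by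
  induction l generalizing u with
  | nil => simp at h
  | cons j l ih =>
    rcases List.mem_cons.1 h with rfl | h
    · rw [D_cons, hu, map_zero]
    · rw [D_cons]
      apply ih h
      rw [c.bb, hu, map_zero, neg_zero]

theorem L6 (l : List I) (hl : l.Nodup) (u : A) (hu : ∀ i ∈ l, c.x i * u = 0) :
    c.m l * c.D l u = u := by
  induction l generalizing u with
  | nil => simp
  | cons j l ih =>
    rw [List.nodup_cons] at hl
    rw [D_cons, m_cons, mul_assoc, ih hl.2]
    · have := c.bx j j u
      rw [hu j List.mem_cons_self, map_zero, if_pos rfl] at this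
      exact (sub_eq_zero.1 this.symm).symm
    · intro i hi
      have := c.bx j i u
      rw [hu i (List.mem_cons_of_mem _ hi), map_zero, if_neg (by rintro rfl; exact hl.1 hi),
        zero_sub] at this
      exact neg_eq_zero.1 this.symm

theorem L7 (l l' : List I) (h : ∀ i ∈ l, i ∉ l') (u : A) :
    c.D l (c.m l' * u) = (-1 : K) ^ (l.length * l'.length) • (c.m l' * c.D l u) := by
  induction l generalizing u with
  | nil => simp
  | cons j l ih =>
    rw [D_cons, c.L1 j l' (h j List.mem_cons_self), map_smul,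
      ih (fun i hi => h i (List.mem_cons_of_mem _ hi)), smul_smul, D_cons, ← pow_add,
      List.length_cons]
    congr 2
    ring

theorem L8 (l : List I) (hl : l.Nodup) (w : List I) : ∃ k : ℕ, ((∀ i ∈ l, i ∉ w) → 0 < k) ∧
    c.D l (c.m l * c.m w) + c.m l * c.D l (c.m w) = k • c.m w := by
  have h1 : ∃ k : ℕ, ((∀ i ∈ l, i ∉ w) → 0 < k) ∧ c.D l (c.m l * c.m w) = k • c.m w := by
    by_cases h : ∀ i ∈ l, i ∉ w
    · exact ⟨1, fun _ => one_pos, by rw [c.L3 l hl _ fun i hi => c.L2' i w (h i hi), one_smul]⟩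
    · refine ⟨0, fun h' => absurd h' h, ?_⟩
      push Not at h
      obtain ⟨i, hi, hw⟩ := h
      rw [c.L4 i l hi _ (c.L2 i w hw), map_zero, zero_smul]
  have h2 : ∃ k : ℕ, c.m l * c.D l (c.m w) = k • c.m w := by
    by_cases h : ∀ i ∈ l, i ∈ w
    · exact ⟨1, by rw [c.L6 l hl _ fun i hi => c.L2 i w (h i hi), one_smul]⟩
    · push Not at h
      obtain ⟨i, hi, hw⟩ := h
      exact ⟨0, by rw [c.L5 i l hi _ (c.L2' i w hw), mul_zero, zero_smul]⟩
  obtain ⟨k1, h1, h1'⟩ := h1
  obtain ⟨k2, h2⟩ := h2
  exact ⟨k1 + k2, fun h => by have := h1 h; omega, by rw [h1', h2, add_smul]⟩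

def words (n : ℤ) : Set A := {a | ∃ l : List I, (l.length : ℤ) = n ∧ c.m l = a}

def Wz (n : ℤ) : Submodule ℤ A := Submodule.span ℤ (c.words n)

def WK (n : ℤ) : Submodule K A := Submodule.span K (c.words n)

theorem Wz_le (n : ℤ) (u : A) (h : u ∈ c.Wz n) : u ∈ c.WK n :=
  Submodule.span_le_restrictScalars ℤ K _ h

theorem m_Wz (l : List I) (n : ℤ) (u : A) (h : u ∈ c.Wz n) : c.m l * u ∈ c.Wz (n + l.length) := by
  induction h using Submodule.span_induction with
  | mem a ha =>
    obtain ⟨w, hw, rfl⟩ := ha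
    exact Submodule.subset_span ⟨l ++ w, by simp [← hw, add_comm], c.m_append l w⟩
  | zero => simp
  | add a b _ _ ha hb => rw [mul_add]; exact add_mem ha hb
  | smul z a _ ha => rw [mul_smul_comm]; exact Submodule.smul_mem _ _ ha

theorem b_word (i : I) (w : List I) : c.b i (c.m w) ∈ c.Wz (w.length - 1) := by
  induction w with
  | nil => simp [c.b1]
  | cons j w ih =>
    rw [m_cons, c.bx]
    apply sub_mem
    · split_ifs
      · exact Submodule.subset_span ⟨w, by simp, rfl⟩
      · exact zero_mem _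
    · have := c.m_Wz [j] _ _ ih
      simpa using this

theorem b_Wz (i : I) (n : ℤ) (u : A) (h : u ∈ c.Wz n) : c.b i u ∈ c.Wz (n - 1) := by
  induction h using Submodule.span_induction with
  | mem a ha =>
    obtain ⟨w, rfl, rfl⟩ := ha
    exact c.b_word i w
  | zero => simp
  | add a b _ _ ha hb => rw [map_add]; exact add_mem ha hb
  | smul z a _ ha => rw [map_zsmul]; exact Submodule.smul_mem _ _ ha

theorem D_Wz (l : List I) (n : ℤ) (u : A) (h : u ∈ c.Wz n) : c.D l u ∈ c.Wz (n - l.length) := by
  induction l generalizing u n with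
  | nil => simpa using h
  | cons j l ih =>
    have := ih _ _ (c.b_Wz j n u h)
    rw [D_cons, List.length_cons]
    convert this using 2
    push_cast; ring

theorem D_WK (l : List I) (n : ℤ) (u : A) (h : u ∈ c.WK n) : c.D l u ∈ c.WK (n - l.length) := by
  induction h using Submodule.span_induction with
  | mem a ha => exact c.Wz_le _ _ (c.D_Wz l n a (Submodule.subset_span ha))
  | zero => simp
  | add a b _ _ ha hb => rw [map_add]; exact add_mem ha hb
  | smul z a _ ha => rw [map_smul]; exact Submodule.smul_mem _ _ ha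

theorem pigeon {k : ℕ} (B : Fin k → List I) (hB : ∀ t t', t ≠ t' → ∀ i ∈ B t, i ∉ B t')
    (w : List I) (hw : w.length < k) : ∃ t, ∀ i ∈ B t, i ∉ w := by
  by_contra hcon
  push Not at hcon
  choose g hg hgw using hcon
  have hinj : Function.Injective g := by
    intro t t' h
    by_contra hne
    exact hB t t' hne _ (hg t) (h ▸ hg t')
  have h1 : (Finset.univ.image g).card ≤ w.toFinset.card :=
    Finset.card_le_card (by
      intro a ha
      obtain ⟨t, _, rfl⟩ := Finset.mem_image.1 ha
      exact List.mem_toFinset.2 (hgw t))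
  rw [Finset.card_image_of_injective _ hinj, Finset.card_univ, Fintype.card_fin] at h1
  have := List.toFinset_card_le w
  omega

theorem m_anti (l l' : List I) (hl : Odd l.length) (hl' : Odd l'.length) :
    c.m l * c.m l' = -(c.m l' * c.m l) := by
  have : ∀ l : List I, c.m l * c.m l' = (-1 : K) ^ (l.length * l'.length) • (c.m l' * c.m l) := by
    intro l
    induction l with
    | nil => simp
    | cons j l ih =>
      rw [m_cons, mul_assoc, ih, mul_smul_comm, ← mul_assoc, x_m, smul_mul_assoc, smul_smul,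
        ← pow_add, List.length_cons, mul_assoc]
      congr 2
      ring
  rw [this, (hl.mul hl').neg_one_pow, neg_one_smul]

theorem main [CharZero K] [Fintype I] {σ : Type*} [Fintype σ] (d r : ℕ) (hd : Odd d)
    (mon : σ → List I) (hlen : ∀ s, (mon s).length = d) (β : Fin (r + 1) → σ)
    (hnd : ∀ t, (mon (β t)).Nodup) (hB : ∀ t t', t ≠ t' → ∀ i ∈ mon (β t), i ∉ mon (β t'))
    (a : σ → K) (ha : AlgebraicIndependent ℚ a) (z : A) (hz : z ∈ c.WK r)
    (hfz : (∑ s, a s • c.m (mon s)) * z = 0) :
    ∃ y ∈ c.WK (r - d), z = (∑ s, a s • c.m (mon s)) * y := by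
  classical
  set f := ∑ s, a s • c.m (mon s) with hf
  let DD : A →ₗ[K] A := ∑ t, c.D (mon (β t))
  let T : A → A →ₗ[K] A := fun g => DD.comp (LinearMap.mulLeft K g) + (LinearMap.mulLeft K g).comp DD
  have hT : ∀ g u, T g u = DD (g * u) + g * DD u := fun _ _ => rfl
  have hDD : ∀ u, DD u = ∑ t, c.D (mon (β t)) u := fun u => by simp [DD, LinearMap.sum_apply]
  let J := List.Vector I r
  let u : J → A := fun j => c.m j.1
  have hw : c.words r = Set.range u := by
    ext v
    constructor
    · rintro ⟨l, hl, rfl⟩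
      exact ⟨⟨l, by exact_mod_cast hl⟩, rfl⟩
    · rintro ⟨j, rfl⟩
      exact ⟨j.1, by exact_mod_cast j.2, rfl⟩
  have huz : ∀ j, u j ∈ c.Wz r := fun j => Submodule.subset_span (hw ▸ ⟨j, rfl⟩)
  have hTs : ∀ s j, ∃ M : J → ℤ, ∑ k, M k • u k = T (c.m (mon s)) (u j) := by
    intro s j
    rw [← Submodule.mem_span_range_iff_exists_fun, ← hw, hT, hDD, hDD]
    apply add_mem
    · refine sum_mem fun t _ => ?_
      have := c.D_Wz (mon (β t)) _ _ (c.m_Wz (mon s) _ _ (huz j))
      rwa [hlen, hlen, add_sub_cancel_right] at this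
    · rw [Finset.mul_sum]
      refine sum_mem fun t _ => ?_
      have := c.m_Wz (mon s) _ _ (c.D_Wz (mon (β t)) _ _ (huz j))
      rwa [hlen, hlen, sub_add_cancel] at this
  choose M hM using hTs
  have hT0 : ∀ j, ∃ k : ℕ, 0 < k ∧ ∑ t, T (c.m (mon (β t))) (u j) = k • u j := by
    intro j
    choose k hk hk' using fun t => c.L8 (mon (β t)) (hnd t) j.1
    obtain ⟨t0, ht0⟩ := pigeon (fun t => mon (β t)) hB j.1 (by rw [j.2]; omega)
    refine ⟨∑ t, k t, Finset.sum_pos' (fun _ _ => Nat.zero_le _) ⟨t0, Finset.mem_univ _, hk t0 ht0⟩, ?_⟩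
    rw [Finset.sum_smul]
    refine Finset.sum_congr rfl fun t _ => ?_
    rw [hT, hDD, hDD, Finset.mul_sum, ← Finset.sum_add_distrib, Finset.sum_eq_single t]
    · exact hk' t
    · intro t' _ ht'
      rw [c.L7 _ _ (hB t' t ht'), hlen, hlen, (hd.mul hd).neg_one_pow, neg_one_smul, neg_add_cancel]
    · simp
  choose lam hlam hlam' using hT0
  let N : Matrix J J (MvPolynomial σ ℚ) := fun k j =>
    (if k = j then (lam j : MvPolynomial σ ℚ) else 0) - ∑ t, (M (β t) j k : MvPolynomial σ ℚ)
      + ∑ s, MvPolynomial.X s * (M s j k : MvPolynomial σ ℚ)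
  have hN : N.det ≠ 0 := by
    intro h0
    have h1 := congrArg (MvPolynomial.aeval (R := ℚ) (fun s => ∑ t, if β t = s then (1 : ℚ) else 0)) h0
    rw [map_zero, AlgHom.map_det] at h1
    have h2 : (MvPolynomial.aeval (R := ℚ) (fun s => ∑ t, if β t = s then (1 : ℚ) else 0)).mapMatrix N
        = Matrix.diagonal (fun j => (lam j : ℚ)) := by
      ext k j
      simp only [N, AlgHom.mapMatrix_apply, Matrix.map_apply, map_add, map_sub, map_sum, map_mul,
        MvPolynomial.aeval_X, map_intCast, Matrix.diagonal_apply, Finset.sum_mul]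
      rw [Finset.sum_comm]
      simp only [ite_mul, one_mul, zero_mul, Finset.sum_ite_eq, Finset.mem_univ, if_true,
        sub_add_cancel]
      split_ifs with h
      · simp [h]
      · simp
    rw [h2, Matrix.det_diagonal, Finset.prod_eq_zero_iff] at h1
    obtain ⟨j, _, hj⟩ := h1
    have := hlam j
    have h3 : lam j = 0 := by exact_mod_cast hj
    omega
  let N' : Matrix J J K := (MvPolynomial.aeval (R := ℚ) a).mapMatrix N
  have hN' : N'.det ≠ 0 := by
    rw [← AlgHom.map_det]
    intro h
    exact hN (ha (h.trans (map_zero _).symm))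
  have hTf : ∀ v, T f v = ∑ s, a s • T (c.m (mon s)) v := by
    intro v
    simp only [hT, hf, Finset.sum_mul, map_sum, smul_mul_assoc, map_smul, smul_add,
      Finset.sum_add_distrib]
  have hTN : ∀ j, T f (u j) = ∑ k, N' k j • u k := by
    intro j
    simp only [N', N, AlgHom.mapMatrix_apply, Matrix.map_apply, map_add, map_sub, map_sum, map_mul,
      MvPolynomial.aeval_X, map_intCast, add_smul, sub_smul, Finset.sum_add_distrib,
      Finset.sum_sub_distrib, Finset.sum_smul]
    have e1 : ∑ k, (MvPolynomial.aeval (R := ℚ) a)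
        (if k = j then (lam j : MvPolynomial σ ℚ) else 0) • u k = lam j • u j := by
      rw [Finset.sum_eq_single j]
      · simp [Nat.cast_smul_eq_nsmul]
      · intro k _ hk
        simp [hk]
      · simp
    have e2 : ∑ k, ∑ t, (M (β t) j k : K) • u k = lam j • u j := by
      rw [Finset.sum_comm, ← hlam']
      refine Finset.sum_congr rfl fun t _ => ?_
      rw [← hM]
      simp only [Int.cast_smul_eq_zsmul]
    rw [e1, e2, sub_self, zero_add, hTf, Finset.sum_comm]
    refine Finset.sum_congr rfl fun s _ => ?_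
    rw [← hM, Finset.smul_sum]
    simp only [mul_smul, Int.cast_smul_eq_zsmul]
  have hU : c.WK r = Submodule.span K (Set.range u) := by rw [WK, hw]
  have hmaps : ∀ v ∈ c.WK r, T f v ∈ c.WK r := by
    intro v hv
    rw [hU] at hv
    obtain ⟨p, rfl⟩ := (Submodule.mem_span_range_iff_exists_fun K).1 hv
    rw [map_sum]
    refine sum_mem fun j _ => ?_
    rw [map_smul, hTN]
    exact Submodule.smul_mem _ _ (sum_mem fun k _ => Submodule.smul_mem _ _ (c.Wz_le _ _ (huz k)))
  have hsurj : ∀ v ∈ c.WK r, ∃ v' ∈ c.WK r, T f v' = v := by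
    intro v hv
    rw [hU] at hv
    obtain ⟨p, rfl⟩ := (Submodule.mem_span_range_iff_exists_fun K).1 hv
    let q := N'⁻¹.mulVec p
    refine ⟨∑ j, q j • u j, sum_mem fun k _ => Submodule.smul_mem _ _ (c.Wz_le _ _ (huz k)), ?_⟩
    have hq : N'.mulVec q = p := by
      rw [Matrix.mulVec_mulVec, Matrix.mul_nonsing_inv _ (isUnit_iff_ne_zero.2 hN'),
        Matrix.one_mulVec]
    rw [map_sum]
    simp only [map_smul, hTN, Finset.smul_sum, smul_smul]
    rw [Finset.sum_comm, ← hq]
    refine Finset.sum_congr rfl fun k _ => ?_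
    rw [← Finset.sum_smul, Matrix.mulVec, dotProduct]
    simp only [mul_comm]
  haveI : FiniteDimensional K (c.WK r) := by
    rw [hU]; exact FiniteDimensional.span_of_finite K (Set.finite_range u)
  have hinj : ∀ v ∈ c.WK r, T f v = 0 → v = 0 := by
    have h1 : Function.Surjective ((T f).restrict hmaps) := by
      rintro ⟨v, hv⟩
      obtain ⟨v', hv', h⟩ := hsurj v hv
      exact ⟨⟨v', hv'⟩, Subtype.ext h⟩
    have h2 := LinearMap.injective_iff_surjective.2 h1
    intro v hv h
    have : (⟨v, hv⟩ : c.WK r) = 0 := h2 (by rw [map_zero]; exact Subtype.ext h)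
    exact congrArg Subtype.val this
  have hff : f * f = 0 := by
    have h1 : f * f = -(f * f) := by
      conv_lhs => rw [hf, Finset.sum_mul_sum]
      conv_rhs => rw [hf, Finset.sum_mul_sum, Finset.sum_comm]
      rw [← Finset.sum_neg_distrib]
      refine Finset.sum_congr rfl fun s _ => ?_
      rw [← Finset.sum_neg_distrib]
      refine Finset.sum_congr rfl fun s' _ => ?_
      rw [smul_mul_smul_comm, smul_mul_smul_comm, c.m_anti _ _ (by rw [hlen]; exact hd)
        (by rw [hlen]; exact hd), smul_neg, mul_comm (a s)]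
    have h2 : (2 : K) • (f * f) = 0 := by
      rw [two_smul]; nth_rewrite 1 [h1]; exact neg_add_cancel _
    exact (smul_eq_zero.1 h2).resolve_left two_ne_zero
  let Z : Submodule K A := c.WK r ⊓ LinearMap.ker (LinearMap.mulLeft K f)
  have hZ : ∀ v ∈ Z, T f v ∈ Z := by
    intro v hv
    refine ⟨hmaps v hv.1, ?_⟩
    have h1 : f * v = 0 := hv.2
    show f * T f v = 0
    rw [hT, h1, map_zero, zero_add, ← mul_assoc, hff, zero_mul]
  haveI : FiniteDimensional K Z := Submodule.finiteDimensional_inf_left _ _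
  have h1 : Function.Injective ((T f).restrict hZ) := by
    rw [injective_iff_map_eq_zero]
    intro v hv
    exact Subtype.ext (hinj v.1 v.2.1 (congrArg Subtype.val hv))
  obtain ⟨y, hy⟩ := LinearMap.injective_iff_surjective.1 h1 ⟨z, hz, hfz⟩
  have hy1 : T f y.1 = z := congrArg Subtype.val hy
  have hy2 : f * y.1 = 0 := y.2.2
  refine ⟨DD y.1, ?_, ?_⟩
  · rw [hDD]
    refine sum_mem fun t _ => ?_
    have := c.D_WK (mon (β t)) _ _ y.2.1
    rwa [hlen] at this
  · rw [← hy1, hT, hy2, map_zero, zero_add]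

end CAR

end Pool.Agent.H67.ExtHom
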