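import Pool.Agent.H67.ExtHom

namespace Pool.Agent.H67.ExtHom

variable {K V : Type*} [Field K] [AddCommGroup V] [Module K V] {n : ℕ}

noncomputable def extCAR (b : Module.Basis (Fin n) K V) : CAR K (ExteriorAlgebra K V) (Fin n) where
  x i := ExteriorAlgebra.ι K (b i)
  b i := CliffordAlgebra.contractLeft (Q := (0 : QuadraticForm K V)) (b.coord i)
  xx i := ExteriorAlgebra.ι_sq_zero _
  xc i j := eq_neg_of_add_eq_zero_left (ExteriorAlgebra.ι_add_mul_swap _ _)
  bx i j u := by
    have := CliffordAlgebra.contractLeft_ι_mul (Q := (0 : QuadraticForm K V)) (b.coord i) (b j) u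
    refine this.trans ?_
    congr 1
    rw [Module.Basis.coord_apply, Module.Basis.repr_self, Finsupp.single_apply]
    by_cases h : i = j
    · simp [h]
    · simp [h, Ne.symm h]
  b1 i := CliffordAlgebra.contractLeft_one _ _
  bb i j u := CliffordAlgebra.contractLeft_comm _ _ _

theorem WK_eq (b : Module.Basis (Fin n) K V) (r : ℕ) : (extCAR b).WK r = ⋀[K]^r V := by
  have h1 : LinearMap.range (ExteriorAlgebra.ι K : V →ₗ[K] ExteriorAlgebra K V)
      = Submodule.span K (Set.range (extCAR b).x) := by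
    rw [← Submodule.map_top, ← b.span_eq, Submodule.map_span, ← Set.range_comp]
    rfl
  rw [ExteriorAlgebra.exteriorPower, h1, Submodule.span_pow, CAR.WK]
  congr 1
  ext a
  rw [Set.mem_pow]
  constructor
  · rintro ⟨l, hl, rfl⟩
    have hl' : l.length = r := by exact_mod_cast hl
    subst hl'
    refine ⟨fun i => ⟨(extCAR b).x (l.get i), _, rfl⟩, ?_⟩
    rw [CAR.m]
    congr 1
    conv_rhs => rw [← List.ofFn_get l, List.map_ofFn]
    rfl
  · rintro ⟨f, rfl⟩
    choose g hg using fun i => (f i).2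
    refine ⟨List.ofFn g, by simp, ?_⟩
    rw [CAR.m, List.map_ofFn]
    congr 2
    exact funext hg

theorem WK_neg (b : Module.Basis (Fin n) K V) (k : ℤ) (hk : k < 0) : (extCAR b).WK k = ⊥ := by
  rw [CAR.WK, Submodule.span_eq_bot]
  rintro _ ⟨l, hl, rfl⟩
  omega

def block (d r : ℕ) (hn : (r + 1) * d ≤ n) (t : Fin (r + 1)) : {s : Finset (Fin n) // s.card = d} :=
  ⟨Finset.univ.map ⟨fun j : Fin d => ⟨t.val * d + j.val, by
      have h1 := t.2
      have h2 := j.2
      calc t.val * d + j.val < t.val * d + d := by omega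
        _ = (t.val + 1) * d := by ring
        _ ≤ (r + 1) * d := Nat.mul_le_mul_right _ (by omega)
        _ ≤ n := hn⟩, fun j j' h => Fin.ext (by simpa using h)⟩, by simp⟩

theorem block_disj (d r : ℕ) (hn : (r + 1) * d ≤ n) (t t' : Fin (r + 1)) (h : t ≠ t')
    (i : Fin n) (hi : i ∈ (block d r hn t).1) : i ∉ (block d r hn t').1 := by
  intro hi'
  simp only [block, Finset.mem_map, Finset.mem_univ, true_and, Function.Embedding.coeFn_mk] at hi hi'
  obtain ⟨j, rfl⟩ := hi
  obtain ⟨j', hj⟩ := hi'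
  have h1 : t'.val * d + j'.val = t.val * d + j.val := congrArg Fin.val hj
  have hd : 0 < d := lt_of_le_of_lt (Nat.zero_le _) j.2
  have h2 := congrArg (· / d) h1
  simp only [mul_comm _ d, Nat.mul_add_div hd, Nat.div_eq_of_lt j.2, Nat.div_eq_of_lt j'.2,
    add_zero] at h2
  exact h (Fin.ext h2.symm)

end Pool.Agent.H67.ExtHom
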