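import Mathlib

/-! Filters and ideals on the lattice of subspaces of a vector space. -/

namespace Pool.Agent.H67.FT

variable {F V : Type*} [Field F] [AddCommGroup V] [Module F V]

/-- A filter on the set of subspaces. -/
def IsFilt (S : Set (Submodule F V)) : Prop :=
  ⊤ ∈ S ∧ ⊥ ∉ S ∧ (∀ U ∈ S, ∀ W, U ≤ W → W ∈ S) ∧ ∀ U ∈ S, ∀ W ∈ S, U ⊓ W ∈ S

/-- An ideal of the set of subspaces. -/
def IsIdl (S : Set (Submodule F V)) : Prop :=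
  ⊥ ∈ S ∧ ⊤ ∉ S ∧ (∀ U ∈ S, ∀ W, W ≤ U → W ∈ S) ∧ ∀ U ∈ S, ∀ W ∈ S, U ⊔ W ∈ S

end Pool.Agent.H67.FT
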