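import Mathlib
import Pool.Agent.H67.FTDefs

/-! Linear algebra lemmas for the degree of transitivity on maximal filters and ideals. -/

namespace Pool.Agent.H67.FT

open Pointwise MulAction Submodule Cardinal

universe u v
variable {F : Type u} {V : Type v} [Field F] [AddCommGroup V] [Module F V]

lemma mem_tr (g : V ≃ₗ[F] V) (S : Set (Submodule F V)) (W : Submodule F V) :
    W ∈ g • S ↔ W.comap (g : V →ₗ[F] V) ∈ S := by
  rw [Set.mem_smul_set_iff_inv_smul_mem]
  have : g⁻¹ • W = W.comap (g : V →ₗ[F] V) := by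
    ext x
    rw [mem_smul_pointwise_iff_exists]
    constructor
    · rintro ⟨b, hb, rfl⟩
      simpa using hb
    · intro hx
      exact ⟨g x, hx, by simp⟩
  rw [this]

lemma final {G Y : Type*} [Group G] [MulAction G Y] (y : Y)
    (h2 : ∀ a ∈ orbit G y, ∀ b ∈ orbit G y, ∀ g h : G, a ≠ b → g • a ≠ h • b →
      ∃ k : G, k • a = g • a ∧ k • b = h • b)
    (hinf : (orbit G y).Infinite) (R : Y → Y → Y → Prop)
    (hR : ∀ (g : G) a b c, R a b c → R (g • a) (g • b) (g • c))
    (a b c d : Y) (ha : a ∈ orbit G y) (hb : b ∈ orbit G y) (hc : c ∈ orbit G y)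
    (hd : d ∈ orbit G y) (hab : a ≠ b) (hac : a ≠ c) (hbc : b ≠ c) (had : a ≠ d) (hbd : b ≠ d)
    (r1 : R a b c) (r2 : ¬ R a b d) (k : ℕ) :
    IsMultiplyPretransitive G (orbit G y) k ↔ k ≤ 2 := by
  haveI : Infinite (orbit G y) := hinf.to_subtype
  constructor
  · intro hk
    by_contra hlt
    have h3 : IsMultiplyPretransitive G (orbit G y) 3 :=
      isMultiplyPretransitive_of_le' (n := k) (by omega) (by simp)
    let e : ∀ c : Y, c ∈ orbit G y → a ≠ c → b ≠ c → (Fin 3 ↪ orbit G y) := fun c hc h1 h2 =>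
      ⟨![⟨a, ha⟩, ⟨b, hb⟩, ⟨c, hc⟩], by
        intro i j
        fin_cases i <;> fin_cases j <;> simp [hab, h1, h2, hab.symm, h1.symm, h2.symm]⟩
    obtain ⟨g, hg⟩ := exists_smul_eq G (e c hc hac hbc) (e d hd had hbd)
    have k0 : g • a = a := congrArg Subtype.val (DFunLike.congr_fun hg 0)
    have k1 : g • b = b := congrArg Subtype.val (DFunLike.congr_fun hg 1)
    have k2 : g • c = d := congrArg Subtype.val (DFunLike.congr_fun hg 2)
    have := hR g _ _ _ r1
    rw [k0, k1, k2] at this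
    exact r2 this
  · intro hk
    have : IsMultiplyPretransitive G (orbit G y) 2 := by
      rw [is_two_pretransitive_iff]
      intro a b c d hab hcd
      obtain ⟨g, rfl⟩ := exists_smul_eq G a c
      obtain ⟨h, rfl⟩ := exists_smul_eq G b d
      obtain ⟨k, k1, k2⟩ := h2 a a.2 b b.2 g h (fun e => hab (Subtype.ext e))
        (fun e => hcd (Subtype.ext e))
      exact ⟨k, Subtype.ext k1, Subtype.ext k2⟩
    exact isMultiplyPretransitive_of_le' (n := 2) hk (by simp)

lemma split (hV : ℵ₀ ≤ Module.rank F V) (U : Submodule F V)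
    (hU : Module.rank F U = Module.rank F V) :
    ∃ A B : Submodule F V, A ≤ U ∧ B ≤ U ∧ Disjoint A B ∧ Module.rank F A = Module.rank F V ∧
      Module.rank F B = Module.rank F V := by
  obtain ⟨e⟩ : Nonempty ((V × V) ≃ₗ[F] U) := by
    apply nonempty_linearEquiv_of_rank_eq
    rw [rank_prod', hU, add_eq_self hV]
  let φ : (V × V) →ₗ[F] V := U.subtype ∘ₗ (e : (V × V) →ₗ[F] U)
  have hφ : Function.Injective φ := U.injective_subtype.comp e.injective
  refine ⟨LinearMap.range (φ ∘ₗ LinearMap.inl F V V), LinearMap.range (φ ∘ₗ LinearMap.inr F V V),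
    ?_, ?_, ?_, ?_, ?_⟩
  · rintro _ ⟨x, rfl⟩
    exact (e _).2
  · rintro _ ⟨x, rfl⟩
    exact (e _).2
  · rw [disjoint_def]
    rintro _ ⟨x, rfl⟩ ⟨y, hy⟩
    have := hφ hy
    simp only [LinearMap.inr_apply, LinearMap.inl_apply, Prod.mk.injEq] at this
    rw [← this.1]
    exact map_zero _
  · exact rank_range_of_injective _ (hφ.comp LinearMap.inl_injective)
  · exact rank_range_of_injective _ (hφ.comp LinearMap.inr_injective)

lemma rank_le_of_disj {P Y Z : Submodule F V} (h : Disjoint P Y) (hZ : Y ≤ P ⊔ Z) :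
    Module.rank F Y ≤ Module.rank F Z := by
  have h1 : Module.rank F Y = Module.rank F (Y.map P.mkQ) := by
    have hinj : Function.Injective (P.mkQ ∘ₗ Y.subtype) := by
      rw [injective_iff_map_eq_zero]
      intro y hy
      have : (y : V) ∈ P := by simpa using hy
      exact Subtype.ext (disjoint_def.1 h _ this y.2)
    rw [← rank_range_of_injective _ hinj, LinearMap.range_comp, range_subtype]
  rw [h1]
  refine le_trans (Submodule.rank_mono ?_) (rank_map_le P.mkQ Z)
  rintro _ ⟨y, hy, rfl⟩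
  obtain ⟨p, hp, z, hz, rfl⟩ := mem_sup.1 (hZ hy)
  refine ⟨z, hz, ?_⟩
  simp [(Quotient.mk_eq_zero P).2 hp]

lemma rank_compl {P Y U : Submodule F V} (h : Disjoint P Y)
    (hY : Module.rank F Y = Module.rank F V) (hc : IsCompl P U) :
    Module.rank F U = Module.rank F V :=
  le_antisymm (rank_le U) (hY ▸ rank_le_of_disj h (by rw [hc.sup_eq_top]; exact le_top))

lemma ext1 {M : Type v} [AddCommGroup M] [Module F M] (f : M →ₗ[F] V) (hf : Function.Injective f)
    {Y : Submodule F V} (h : Disjoint (LinearMap.range f) Y)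
    (hY : Module.rank F Y = Module.rank F V) :
    ∃ e : (M × V) ≃ₗ[F] V, ∀ m, e (m, 0) = f m := by
  obtain ⟨C, hC⟩ := (LinearMap.range f).exists_isCompl
  obtain ⟨e⟩ := nonempty_linearEquiv_of_rank_eq (rank_compl h hY hC).symm
  refine ⟨((LinearEquiv.ofInjective f hf).prodCongr e).trans (prodEquivOfIsCompl _ _ hC), ?_⟩
  intro m
  simp

lemma ext2 {M : Type v} [AddCommGroup M] [Module F M] (f : V →ₗ[F] M)
    (hf : Function.Surjective f) (hk : Module.rank F (LinearMap.ker f) = Module.rank F V) :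
    ∃ e : V ≃ₗ[F] (V × M), ∀ v, (e v).2 = f v := by
  obtain ⟨s, hs⟩ := f.exists_rightInverse_of_surjective (LinearMap.range_eq_top.2 hf)
  have hs' : ∀ m, f (s m) = m := fun m => LinearMap.congr_fun hs m
  obtain ⟨e⟩ := nonempty_linearEquiv_of_rank_eq hk
  let φ : V →ₗ[F] (LinearMap.ker f × M) :=
    (LinearMap.codRestrict (LinearMap.ker f) (LinearMap.id - s ∘ₗ f) (by simp [hs'])).prod f
  have hφ : Function.Bijective φ := by
    constructor
    · rw [injective_iff_map_eq_zero]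
      intro v hv
      have h1 : v - s (f v) = 0 := congrArg Subtype.val (congrArg Prod.fst hv)
      have h2 : f v = 0 := congrArg Prod.snd hv
      simpa [h2] using h1
    · rintro ⟨⟨z, hz⟩, m⟩
      have hz' : f z = 0 := hz
      refine ⟨z + s m, Prod.ext (Subtype.ext ?_) ?_⟩
      · simp [φ, hz', hs']
      · simp [φ, hz', hs']
  exact ⟨(LinearEquiv.ofBijective φ hφ).trans (e.prodCongr (LinearEquiv.refl F M)), fun v => rfl⟩

lemma data (hV : ℵ₀ ≤ Module.rank F V) {C U : Submodule F V} (hc : IsCompl C U)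
    (hU : Module.rank F U = Module.rank F V) :
    ∃ (p : V →ₗ[F] V) (j r : ℕ → V →ₗ[F] V), (∀ c ∈ C, p c = c) ∧ (∀ u ∈ U, p u = 0) ∧
      (∀ v, p v ∈ C) ∧ (∀ v, v - p v ∈ U) ∧ (∀ n v, j n v ∈ U) ∧ (∀ n, ∀ c ∈ C, r n c = 0) ∧
      (∀ n v, r n (j n v) = v) ∧ (∀ n m v, n ≠ m → r n (j m v) = 0) := by
  obtain ⟨e⟩ : Nonempty ((ℕ →₀ V) ≃ₗ[F] U) := by
    apply nonempty_linearEquiv_of_rank_eq
    rw [rank_finsupp, hU]
    simp only [mk_eq_aleph0, lift_aleph0, lift_uzero]
    exact aleph0_mul_eq hV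
  obtain ⟨p, p1, p2, p3, p4⟩ : ∃ p : V →ₗ[F] V, (∀ c ∈ C, p c = c) ∧ (∀ u ∈ U, p u = 0) ∧
      (∀ v, p v ∈ C) ∧ (∀ v, v - p v ∈ U) := by
    let E := (prodEquivOfIsCompl C U hc).symm
    have hE : ∀ (c : C) (u : U), E (c + u) = (c, u) := by
      intro c u
      simp only [E]
      rw [LinearEquiv.symm_apply_eq]
      simp
    refine ⟨C.subtype ∘ₗ LinearMap.fst F C U ∘ₗ (E : V →ₗ[F] C × U), ?_, ?_, ?_, ?_⟩
    · intro c h
      have := hE ⟨c, h⟩ 0
      simp only [ZeroMemClass.coe_zero, add_zero] at this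
      simp [this]
    · intro c h
      have := hE 0 ⟨c, h⟩
      simp only [ZeroMemClass.coe_zero, zero_add] at this
      simp [this]
    · intro v
      exact (E v).1.2
    · intro v
      obtain ⟨c, hc', u, hu, rfl⟩ := mem_sup.1 (show v ∈ C ⊔ U by rw [hc.sup_eq_top]; trivial)
      have := hE ⟨c, hc'⟩ ⟨u, hu⟩
      simp only at this
      simp [this, hu]
  let q : V →ₗ[F] U := LinearMap.codRestrict U (LinearMap.id - p) p4
  have hq : ∀ u : U, q u = u := fun u => Subtype.ext (by simp [q, p2 u u.2])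
  have hq' : ∀ c ∈ C, q c = 0 := fun c h => Subtype.ext (by simp [q, p1 c h])
  refine ⟨p, fun n => U.subtype ∘ₗ (e : (ℕ →₀ V) →ₗ[F] U) ∘ₗ Finsupp.lsingle n,
    fun n => Finsupp.lapply n ∘ₗ (e.symm : U →ₗ[F] (ℕ →₀ V)) ∘ₗ q, p1, p2, p3, p4, ?_, ?_, ?_, ?_⟩
  · intro n v
    exact (e _).2
  · intro n c h
    simp [hq' c h]
  · intro n v
    simp [hq]
  · intro n m v h
    simp [hq, h]

/-- `1 + N` for `N * N = 0`. -/
def shear (N : V →ₗ[F] V) (h : ∀ v, N (N v) = 0) : V ≃ₗ[F] V :=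
  LinearEquiv.ofLinear (LinearMap.id + N) (LinearMap.id - N) (by ext v; simp [h]) (by ext v; simp [h])

lemma shear_apply (N : V →ₗ[F] V) (h : ∀ v, N (N v) = 0) (v : V) : shear N h v = v + N v := rfl

end Pool.Agent.H67.FT
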