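import Mathlib
import Pool.Agent.H67.FT1

/-! Maximal filters: the degree of transitivity is two. -/

namespace Pool.Agent.H67.FT

open Pointwise MulAction Submodule Cardinal

universe u v
variable {F : Type u} {V : Type v} [Field F] [AddCommGroup V] [Module F V]

def MF (S : Set (Submodule F V)) : Prop := IsFilt S ∧ ∀ W, W ∈ S ∨ ∃ U ∈ S, Disjoint U W

lemma MF_of_max {S : Set (Submodule F V)} (h : Maximal IsFilt S) : MF S := by
  refine ⟨h.1, fun W => ?_⟩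
  by_contra hne
  push Not at hne
  obtain ⟨h1, h2, h3, h4⟩ := h.1
  have hG : IsFilt {Z | ∃ U ∈ S, U ⊓ W ≤ Z} := by
    refine ⟨⟨⊤, h1, le_top⟩, ?_, ?_, ?_⟩
    · rintro ⟨U, hU, hle⟩
      exact hne.2 U hU (disjoint_iff.2 (le_bot_iff.1 hle))
    · rintro Z ⟨U, hU, hle⟩ Z' hZ
      exact ⟨U, hU, hle.trans hZ⟩
    · rintro Z ⟨U, hU, hle⟩ Z' ⟨U', hU', hle'⟩
      exact ⟨U ⊓ U', h4 _ hU _ hU', le_inf ((inf_le_inf_right _ inf_le_left).trans hle)
        ((inf_le_inf_right _ inf_le_right).trans hle')⟩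
  exact hne.1 (h.2 hG (fun U hU => ⟨U, hU, inf_le_left⟩) ⟨⊤, h1, inf_le_right⟩)

lemma MF.smul {S : Set (Submodule F V)} (h : MF S) (g : V ≃ₗ[F] V) : MF (g • S) := by
  obtain ⟨⟨h1, h2, h3, h4⟩, h5⟩ := h
  refine ⟨⟨?_, ?_, ?_, ?_⟩, ?_⟩
  · simpa [mem_tr] using h1
  · simpa [mem_tr] using h2
  · intro U hU W hW
    rw [mem_tr] at hU ⊢
    exact h3 _ hU _ (comap_mono hW)
  · intro U hU W hW
    rw [mem_tr] at hU hW ⊢
    rw [comap_inf]
    exact h4 _ hU _ hW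
  · intro W
    rcases h5 (W.comap (g : V →ₗ[F] V)) with h | ⟨U, hU, hd⟩
    · exact Or.inl ((mem_tr _ _ _).2 h)
    · refine Or.inr ⟨U.map (g : V →ₗ[F] V), ?_, ?_⟩
      · rw [mem_tr, comap_map_eq_of_injective g.injective]
        exact hU
      · rw [disjoint_def] at hd ⊢
        rintro _ ⟨x, hx, rfl⟩ hW
        rw [hd x hx hW, map_zero]

lemma MF.orbit {S T : Set (Submodule F V)} (h : MF S) (hT : T ∈ orbit (V ≃ₗ[F] V) S) : MF T := by
  obtain ⟨g, rfl⟩ := hT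
  exact h.smul g

lemma MF.not_disj {S : Set (Submodule F V)} (h : MF S) {U W : Submodule F V} (hU : U ∈ S)
    (hW : W ∈ S) : ¬ Disjoint U W := fun hd => h.1.2.1 (disjoint_iff.1 hd ▸ h.1.2.2.2 _ hU _ hW)

lemma MF.small (hV : ℵ₀ ≤ Module.rank F V) {S : Set (Submodule F V)} (h : MF S)
    {D Y : Submodule F V} (hd : Disjoint D Y) (hY : Module.rank F Y = Module.rank F V) :
    ∃ W ∈ S, ∃ Y' : Submodule F V, Disjoint (W ⊔ D) Y' ∧ Module.rank F Y' = Module.rank F V := by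
  obtain ⟨A, B, hA, hB, hAB, rA, rB⟩ := split hV Y hY
  rw [disjoint_def] at hd hAB
  rcases h.2 (D ⊔ A) with h1 | ⟨W, hW, h1⟩
  · refine ⟨_, h1, B, ?_, rB⟩
    rw [sup_comm, ← sup_assoc, sup_idem, disjoint_def]
    intro x hx hxB
    obtain ⟨d, hd', a, ha, rfl⟩ := mem_sup.1 hx
    have : d = 0 := hd d hd' (by simpa using sub_mem (hB hxB) (hA ha))
    subst this
    exact hAB _ (by simpa using ha) hxB
  · refine ⟨W, hW, A, ?_, rA⟩
    rw [disjoint_def] at h1 ⊢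
    intro x hx hxA
    obtain ⟨w, hw, d, hd', rfl⟩ := mem_sup.1 hx
    have : w = 0 := h1 w hw (by simpa using sub_mem (mem_sup_right hxA) (mem_sup_left (T := A) hd'))
    subst this
    exact hd _ (by simpa using hd') (hA hxA)

lemma MF.pair (hV : ℵ₀ ≤ Module.rank F V) {S T : Set (Submodule F V)} (hS : MF S) (hT : MF T)
    (hne : S ≠ T) : ∃ X ∈ S, ∃ Z ∈ T, Disjoint X Z ∧ ∃ Y : Submodule F V,
      Disjoint (X ⊔ Z) Y ∧ Module.rank F Y = Module.rank F V := by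
  obtain ⟨U, hU, U', hU', hd⟩ : ∃ U ∈ S, ∃ U' ∈ T, Disjoint U U' := by
    by_contra hc
    push Not at hc
    apply hne
    ext W
    constructor
    · intro hW
      exact (hT.2 W).resolve_right (fun ⟨U, hU, hd⟩ => hc W hW U hU hd.symm)
    · intro hW
      exact (hS.2 W).resolve_right (fun ⟨U, hU, hd⟩ => hc U hU W hW hd)
  obtain ⟨W, hW, Y, hd1, hY⟩ := hS.small hV (D := ⊥) (Y := ⊤) disjoint_bot_left (rank_top F V)
  obtain ⟨W', hW', Y', hd2, hY'⟩ := hT.small hV hd1 hY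
  refine ⟨U ⊓ W, hS.1.2.2.2 _ hU _ hW, U' ⊓ W', hT.1.2.2.2 _ hU' _ hW',
    hd.mono inf_le_left inf_le_left, Y', hd2.mono_left ?_, hY'⟩
  exact sup_le (inf_le_right.trans (le_sup_left.trans le_sup_right)) (inf_le_right.trans le_sup_left)

lemma MF.agree {S : Set (Submodule F V)} (h : MF S) {X : Submodule F V} (hX : X ∈ S)
    {g k : V →ₗ[F] V} (hgk : ∀ x ∈ X, g x = k x) (W : Submodule F V) :
    W.comap g ∈ S ↔ W.comap k ∈ S := by
  constructor
  · intro hW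
    refine h.1.2.2.1 _ (h.1.2.2.2 _ hW _ hX) _ (fun x hx => ?_)
    have : g x ∈ W := hx.1
    rw [hgk x hx.2] at this
    exact this
  · intro hW
    refine h.1.2.2.1 _ (h.1.2.2.2 _ hW _ hX) _ (fun x hx => ?_)
    have : k x ∈ W := hx.1
    rw [← hgk x hx.2] at this
    exact this

lemma MF.two (hV : ℵ₀ ≤ Module.rank F V) {S T : Set (Submodule F V)} (hS : MF S) (hT : MF T)
    (g h : V ≃ₗ[F] V) (h1 : S ≠ T) (h2 : g • S ≠ h • T) :
    ∃ k : V ≃ₗ[F] V, k • S = g • S ∧ k • T = h • T := by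
  obtain ⟨X, hX, Z, hZ, hd, Y, hY, rY⟩ := hS.pair hV hT h1
  obtain ⟨X', hX', Z', hZ', hd', Y', hY', rY'⟩ := (hS.smul g).pair hV (hT.smul h) h2
  rw [mem_tr] at hX' hZ'
  let A := X ⊓ X'.comap (g : V →ₗ[F] V)
  let B := Z ⊓ Z'.comap (h : V →ₗ[F] V)
  rw [disjoint_def] at hd hd'
  obtain ⟨e, he⟩ := ext1 (A.subtype.coprod B.subtype) (by
      rw [injective_iff_map_eq_zero]
      rintro ⟨a, b⟩ hab
      simp only [LinearMap.coprod_apply, subtype_apply] at hab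
      have ha : (a : V) = 0 := hd _ a.2.1 (by
        rw [eq_neg_of_add_eq_zero_left hab]; exact neg_mem b.2.1)
      rw [ha, zero_add] at hab
      exact Prod.ext (Subtype.ext ha) (Subtype.ext hab))
    (hY.mono_left (by
      rintro _ ⟨⟨a, b⟩, rfl⟩
      exact add_mem_sup a.2.1 b.2.1)) rY
  obtain ⟨e', he'⟩ := ext1 (((g : V →ₗ[F] V) ∘ₗ A.subtype).coprod ((h : V →ₗ[F] V) ∘ₗ B.subtype)) (by
      rw [injective_iff_map_eq_zero]
      rintro ⟨a, b⟩ hab
      have hab' : g a + h b = 0 := hab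
      have ha : g a = 0 := hd' _ a.2.2 (by
        rw [eq_neg_of_add_eq_zero_left hab']; exact neg_mem b.2.2)
      rw [ha, zero_add] at hab'
      exact Prod.ext (Subtype.ext (by simpa using ha)) (Subtype.ext (by simpa using hab')))
    (hY'.mono_left (by
      rintro _ ⟨⟨a, b⟩, rfl⟩
      exact add_mem_sup a.2.2 b.2.2)) rY'
  have key : ∀ (a : A) (b : B), (e.symm.trans e') (a + b) = g a + h b := by
    intro a b
    have : e.symm (a + b) = ((a, b), 0) := by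
      rw [LinearEquiv.symm_apply_eq, he]
      rfl
    rw [LinearEquiv.trans_apply, this, he']
    rfl
  refine ⟨e.symm.trans e', ?_, ?_⟩
  · ext W
    rw [mem_tr, mem_tr]
    refine hS.agree (hS.1.2.2.2 _ hX _ hX') (fun x hx => ?_) W
    simpa using key ⟨x, hx⟩ 0
  · ext W
    rw [mem_tr, mem_tr]
    refine hT.agree (hT.1.2.2.2 _ hZ _ hZ') (fun x hx => ?_) W
    simpa using key 0 ⟨x, hx⟩

theorem filt_result (hV : ℵ₀ ≤ Module.rank F V) {S : Set (Submodule F V)} (hS : MF S) (k : ℕ) :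
    IsMultiplyPretransitive (V ≃ₗ[F] V) (orbit (V ≃ₗ[F] V) S) k ↔ k ≤ 2 := by
  obtain ⟨C, hC, Y, hd, hY⟩ := hS.small hV (D := ⊥) (Y := ⊤) disjoint_bot_left (rank_top F V)
  obtain ⟨U, hU⟩ := C.exists_isCompl
  obtain ⟨p, j, r, p1, p2, p3, p4, j1, r1, rj, rj'⟩ :=
    data hV hU (rank_compl (hd.mono_left le_sup_left) hY hU)
  let A : ℕ → V ≃ₗ[F] V := fun n => shear (j n ∘ₗ p) (fun v => by simp [p2 _ (j1 n _)])
  let B : ℕ → V ≃ₗ[F] V := fun n => shear (-(p ∘ₗ r n)) (fun v => by simp [r1 n _ (p3 _)])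
  have hA : ∀ n W, W ∈ A n • S ↔ W.comap (LinearMap.id + j n) ∈ S := by
    intro n W
    rw [mem_tr]
    refine hS.agree hC (fun x hx => ?_) W
    simp [A, shear_apply, p1 x hx]
  have hB : ∀ n W, W ∈ ((A n).trans (B n)) • S ↔ W.comap (j n) ∈ S := by
    intro n W
    rw [mem_tr]
    refine hS.agree hC (fun x hx => ?_) W
    simp [A, B, shear_apply, p1 x hx, r1 n x hx, rj]
  have hbot : ∀ W : Submodule F V, (∀ x ∈ W, x = 0) → W ∉ S := by
    intro W hW h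
    exact hS.1.2.1 ((eq_bot_iff.2 hW : W = ⊥) ▸ h)
  have hr : ∀ n, LinearMap.range (j n) ∈ ((A n).trans (B n)) • S := by
    intro n
    rw [hB]
    exact hS.1.2.2.1 _ hS.1.1 _ (fun x _ => ⟨x, rfl⟩)
  have hinj : Function.Injective (fun n => ((A n).trans (B n)) • S) := by
    intro n m hnm
    by_contra hne
    have h1 := hr n
    simp only at hnm
    rw [hnm, hB] at h1
    refine hbot _ ?_ h1
    rintro x ⟨y, hy⟩
    rw [← rj m x, ← hy, rj' m n y (Ne.symm hne)]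
  have hCn : ∀ n, S ≠ ((A n).trans (B n)) • S := by
    intro n h
    have h1 := hC
    rw [h, hB] at h1
    refine hbot _ (fun x hx => ?_) h1
    rw [← rj n x, r1 n _ hx]
  refine final S (fun a ha b hb g h => (hS.orbit ha).two hV (hS.orbit hb) g h)
    (Set.infinite_of_injective_forall_mem hinj (fun n => mem_orbit _ _))
    (fun a b c => ∀ W ∈ a, ∀ W' ∈ b, W ⊔ W' ∈ c) ?_
    S (((A 0).trans (B 0)) • S) (A 0 • S) (((A 1).trans (B 1)) • S) (mem_orbit_self _)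
    (mem_orbit _ _) (mem_orbit _ _) (mem_orbit _ _) (hCn 0) ?_ ?_ (hCn 1)
    (fun h => absurd (hinj h) (by decide)) ?_ ?_ k
  · intro g a b c h W hW W' hW'
    obtain ⟨W, hW, rfl⟩ := hW
    obtain ⟨W', hW', rfl⟩ := hW'
    exact ⟨W ⊔ W', h _ hW _ hW', smul_sup' _ _ _⟩
  · intro h
    have h1 := hC
    rw [h, hA] at h1
    refine hbot _ (fun x hx => ?_) (hS.1.2.2.2 _ h1 _ hC)
    have := r1 0 _ hx.1
    simpa [r1 0 x hx.2, rj] using this
  · intro h
    have h1 := hr 0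
    rw [h, hA] at h1
    refine hbot _ (fun x hx => ?_) (hS.1.2.2.2 _ h1 _ hC)
    obtain ⟨y, hy⟩ := hx.1
    have := congrArg p hy
    simpa [p2 _ (j1 0 _), p1 x hx.2] using this.symm
  · intro W hW W' hW'
    rw [hB] at hW'
    rw [hA]
    exact hS.1.2.2.1 _ (hS.1.2.2.2 _ hW _ hW') _ (fun x hx => add_mem_sup hx.1 hx.2)
  · intro h
    have h1 := h _ hC _ (hr 0)
    rw [hB] at h1
    refine hbot _ (fun x hx => ?_) h1
    obtain ⟨c, hc, _, ⟨y, rfl⟩, hy⟩ := mem_sup.1 hx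
    rw [← rj 1 x, ← hy, map_add, r1 1 c hc, rj' 1 0 y (by decide), add_zero]

end Pool.Agent.H67.FT
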