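import Mathlib
import Pool.Agent.H67.FT1

/-! Maximal ideals: the degree of transitivity is two. -/

namespace Pool.Agent.H67.FT

open Pointwise MulAction Submodule Cardinal

universe u v
variable {F : Type u} {V : Type v} [Field F] [AddCommGroup V] [Module F V]

def MI (S : Set (Submodule F V)) : Prop := IsIdl S ∧ ∀ W, W ∈ S ∨ ∃ U ∈ S, U ⊔ W = ⊤

lemma MI_of_max {S : Set (Submodule F V)} (h : Maximal IsIdl S) : MI S := by
  refine ⟨h.1, fun W => ?_⟩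
  by_contra hne
  push Not at hne
  obtain ⟨h1, h2, h3, h4⟩ := h.1
  have hG : IsIdl {Z | ∃ U ∈ S, Z ≤ U ⊔ W} := by
    refine ⟨⟨⊥, h1, bot_le⟩, ?_, ?_, ?_⟩
    · rintro ⟨U, hU, hle⟩
      exact hne.2 U hU (top_le_iff.1 hle)
    · rintro Z ⟨U, hU, hle⟩ Z' hZ
      exact ⟨U, hU, hZ.trans hle⟩
    · rintro Z ⟨U, hU, hle⟩ Z' ⟨U', hU', hle'⟩
      exact ⟨U ⊔ U', h4 _ hU _ hU', sup_le (hle.trans (sup_le_sup_right le_sup_left _))
        (hle'.trans (sup_le_sup_right le_sup_right _))⟩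
  exact hne.1 (h.2 hG (fun U hU => ⟨U, hU, le_sup_left⟩) ⟨⊥, h1, le_sup_right⟩)

lemma comap_sup_equiv (g : V ≃ₗ[F] V) (U W : Submodule F V) :
    (U ⊔ W).comap (g : V →ₗ[F] V) = U.comap (g : V →ₗ[F] V) ⊔ W.comap (g : V →ₗ[F] V) := by
  simp only [comap_equiv_eq_map_symm, Submodule.map_sup]

lemma MI.smul {S : Set (Submodule F V)} (h : MI S) (g : V ≃ₗ[F] V) : MI (g • S) := by
  obtain ⟨⟨h1, h2, h3, h4⟩, h5⟩ := h
  refine ⟨⟨?_, ?_, ?_, ?_⟩, ?_⟩
  · simpa [mem_tr] using h1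
  · simpa [mem_tr] using h2
  · intro U hU W hW
    rw [mem_tr] at hU ⊢
    exact h3 _ hU _ (comap_mono hW)
  · intro U hU W hW
    rw [mem_tr] at hU hW ⊢
    rw [comap_sup_equiv]
    exact h4 _ hU _ hW
  · intro W
    rcases h5 (W.comap (g : V →ₗ[F] V)) with h | ⟨U, hU, hd⟩
    · exact Or.inl ((mem_tr _ _ _).2 h)
    · refine Or.inr ⟨U.map (g : V →ₗ[F] V), ?_, ?_⟩
      · rw [mem_tr, comap_map_eq_of_injective g.injective]
        exact hU
      · rw [eq_top_iff]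
        intro x _
        obtain ⟨a, ha, b, hb, hab⟩ := mem_sup.1 (show g.symm x ∈ U ⊔ _ by rw [hd]; trivial)
        have : x = g a + g b := by rw [← map_add, hab]; simp
        rw [this]
        exact add_mem_sup ⟨a, ha, rfl⟩ hb

lemma MI.orbit {S T : Set (Submodule F V)} (h : MI S) (hT : T ∈ orbit (V ≃ₗ[F] V) S) : MI T := by
  obtain ⟨g, rfl⟩ := hT
  exact h.smul g

lemma MI.big (hV : ℵ₀ ≤ Module.rank F V) {S : Set (Submodule F V)} (h : MI S)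
    {C : Submodule F V} (hC : Module.rank F C = Module.rank F V) :
    ∃ W ∈ S, Module.rank F (W ⊓ C : Submodule F V) = Module.rank F V := by
  obtain ⟨A, B, hA, hB, hAB, rA, rB⟩ := split hV C hC
  rcases h.2 A with h1 | ⟨W, hW, h1⟩
  · exact ⟨A, h1, by rw [inf_eq_left.2 hA, rA]⟩
  · refine ⟨W, hW, le_antisymm (rank_le _) (rB ▸ rank_le_of_disj hAB ?_)⟩
    intro b hb
    obtain ⟨w, hw, a, ha, hab⟩ := mem_sup.1 (show b ∈ W ⊔ A by rw [h1]; trivial)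
    rw [← hab, add_comm]
    refine add_mem_sup ha ⟨hw, ?_⟩
    rw [eq_sub_of_add_eq hab]
    exact sub_mem (hB hb) (hA ha)

lemma MI.pair (hV : ℵ₀ ≤ Module.rank F V) {S T : Set (Submodule F V)} (hS : MI S) (hT : MI T)
    (hne : S ≠ T) : ∃ X ∈ S, ∃ Z ∈ T, X ⊔ Z = ⊤ ∧
      Module.rank F (X ⊓ Z : Submodule F V) = Module.rank F V := by
  obtain ⟨U, hU, U', hU', hd⟩ : ∃ U ∈ S, ∃ U' ∈ T, U ⊔ U' = ⊤ := by
    by_contra hc
    push Not at hc
    apply hne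
    ext W
    constructor
    · intro hW
      exact (hT.2 W).resolve_right (fun ⟨U, hU, hd⟩ => hc W hW U hU (by rw [sup_comm, hd]))
    · intro hW
      exact (hS.2 W).resolve_right (fun ⟨U, hU, hd⟩ => hc U hU W hW hd)
  obtain ⟨W, hW, r1⟩ := hS.big hV (C := ⊤) (rank_top F V)
  obtain ⟨W', hW', r2⟩ := hT.big hV r1
  refine ⟨U ⊔ W, hS.1.2.2.2 _ hU _ hW, U' ⊔ W', hT.1.2.2.2 _ hU' _ hW', ?_, ?_⟩
  · rw [eq_top_iff, ← hd]
    exact sup_le_sup le_sup_left le_sup_left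
  · refine le_antisymm (rank_le _) (r2 ▸ Submodule.rank_mono ?_)
    exact le_inf (inf_le_right.trans (inf_le_left.trans le_sup_right))
      (inf_le_left.trans le_sup_right)

lemma MI.agree {S : Set (Submodule F V)} (h : MI S) {X : Submodule F V} (hX : X ∈ S)
    {g k : V →ₗ[F] V} (hgk : ∀ x, g x - k x ∈ X) (W : Submodule F V) :
    W.map g ∈ S ↔ W.map k ∈ S := by
  constructor
  · intro hW
    refine h.1.2.2.1 _ (h.1.2.2.2 _ hW _ hX) _ ?_
    rintro _ ⟨x, hx, rfl⟩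
    have : k x = g x + -(g x - k x) := by abel
    rw [this]
    exact add_mem_sup ⟨x, hx, rfl⟩ (neg_mem (hgk x))
  · intro hW
    refine h.1.2.2.1 _ (h.1.2.2.2 _ hW _ hX) _ ?_
    rintro _ ⟨x, hx, rfl⟩
    have : g x = k x + (g x - k x) := by abel
    rw [this]
    exact add_mem_sup ⟨x, hx, rfl⟩ (hgk x)

lemma mem_tr' (g : V ≃ₗ[F] V) (S : Set (Submodule F V)) (W : Submodule F V) :
    W ∈ g • S ↔ W.map (g.symm : V →ₗ[F] V) ∈ S := by
  rw [mem_tr, comap_equiv_eq_map_symm]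

lemma prod_surj {X Z : Submodule F V} (g h : V ≃ₗ[F] V) {X' Z' : Submodule F V}
    (h1 : ∀ x ∈ X', g x ∈ X) (h2 : ∀ x ∈ Z', h x ∈ Z) (ht : X' ⊔ Z' = ⊤) :
    Function.Surjective ((X.mkQ ∘ₗ (g : V →ₗ[F] V)).prod (Z.mkQ ∘ₗ (h : V →ₗ[F] V))) := by
  rw [← LinearMap.range_eq_top, LinearMap.range_prod_eq]
  · have e1 : LinearMap.range (X.mkQ ∘ₗ (g : V →ₗ[F] V)) = ⊤ :=
      LinearMap.range_eq_top.2 ((mkQ_surjective X).comp g.surjective)
    have e2 : LinearMap.range (Z.mkQ ∘ₗ (h : V →ₗ[F] V)) = ⊤ :=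
      LinearMap.range_eq_top.2 ((mkQ_surjective Z).comp h.surjective)
    rw [e1, e2, prod_top]
  · rw [eq_top_iff, ← ht]
    refine sup_le_sup (fun x hx => ?_) (fun x hx => ?_)
    · simpa using h1 x hx
    · simpa using h2 x hx

lemma prod_ker {X Z : Submodule F V} (g h : V ≃ₗ[F] V) {X' Z' : Submodule F V}
    (h1 : ∀ x ∈ X', g x ∈ X) (h2 : ∀ x ∈ Z', h x ∈ Z)
    (ht : Module.rank F (X' ⊓ Z' : Submodule F V) = Module.rank F V) :
    Module.rank F (LinearMap.ker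
      ((X.mkQ ∘ₗ (g : V →ₗ[F] V)).prod (Z.mkQ ∘ₗ (h : V →ₗ[F] V)))) = Module.rank F V := by
  refine le_antisymm (rank_le _) (ht ▸ Submodule.rank_mono (fun x hx => ?_))
  simpa using ⟨h1 x hx.1, h2 x hx.2⟩

lemma MI.two (hV : ℵ₀ ≤ Module.rank F V) {S T : Set (Submodule F V)} (hS : MI S) (hT : MI T)
    (g h : V ≃ₗ[F] V) (h1 : S ≠ T) (h2 : g • S ≠ h • T) :
    ∃ k : V ≃ₗ[F] V, k • S = g • S ∧ k • T = h • T := by
  obtain ⟨X, hX, Z, hZ, hd, rY⟩ := hS.pair hV hT h1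
  obtain ⟨X', hX', Z', hZ', hd', rY'⟩ := (hS.smul g).pair hV (hT.smul h) h2
  rw [mem_tr'] at hX' hZ'
  let A := X ⊔ X'.map (g.symm : V →ₗ[F] V)
  let B := Z ⊔ Z'.map (h.symm : V →ₗ[F] V)
  have a1 : ∀ x ∈ X, LinearEquiv.refl F V x ∈ A := fun x hx => mem_sup_left hx
  have a2 : ∀ x ∈ Z, LinearEquiv.refl F V x ∈ B := fun x hx => mem_sup_left hx
  have a3 : ∀ x ∈ X', g.symm x ∈ A := fun x hx => mem_sup_right ⟨x, hx, rfl⟩
  have a4 : ∀ x ∈ Z', h.symm x ∈ B := fun x hx => mem_sup_right ⟨x, hx, rfl⟩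
  obtain ⟨e, he⟩ := ext2 _ (prod_surj _ _ a1 a2 hd) (prod_ker _ _ a1 a2 rY)
  obtain ⟨e', he'⟩ := ext2 _ (prod_surj _ _ a3 a4 hd') (prod_ker _ _ a3 a4 rY')
  have key : ∀ v, e.symm (e' v) - g.symm v ∈ A ∧ e.symm (e' v) - h.symm v ∈ B := by
    intro v
    have := he (e.symm (e' v))
    rw [LinearEquiv.apply_symm_apply, he'] at this
    have t1 := congrArg Prod.fst this
    have t2 := congrArg Prod.snd this
    exact ⟨(Submodule.Quotient.eq _).1 t1.symm, (Submodule.Quotient.eq _).1 t2.symm⟩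
  refine ⟨e.trans e'.symm, ?_, ?_⟩
  · ext W
    rw [mem_tr', mem_tr']
    exact hS.agree (hS.1.2.2.2 _ hX _ hX') (fun x => (key x).1) W
  · ext W
    rw [mem_tr', mem_tr']
    exact hT.agree (hT.1.2.2.2 _ hZ _ hZ') (fun x => (key x).2) W

theorem idl_result (hV : ℵ₀ ≤ Module.rank F V) {S : Set (Submodule F V)} (hS : MI S) (k : ℕ) :
    IsMultiplyPretransitive (V ≃ₗ[F] V) (orbit (V ≃ₗ[F] V) S) k ↔ k ≤ 2 := by
  obtain ⟨U, hU, rU⟩ := hS.big hV (C := ⊤) (rank_top F V)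
  rw [inf_top_eq] at rU
  obtain ⟨C, hC⟩ := U.exists_isCompl
  obtain ⟨p, j, r, p1, p2, p3, p4, j1, r1, rj, rj'⟩ := data hV hC.symm rU
  let A : ℕ → V ≃ₗ[F] V := fun n => shear (-(j n ∘ₗ p)) (fun v => by simp [p2 _ (j1 n _)])
  let B : ℕ → V ≃ₗ[F] V := fun n => shear (p ∘ₗ r n) (fun v => by simp [r1 n _ (p3 _)])
  have h0 : ∀ W, W ∈ S ↔ W.map p ∈ S := by
    intro W
    have := hS.agree hU (g := LinearMap.id) (k := p) p4 W
    rwa [map_id] at this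
  have hA : ∀ n W, W ∈ (B n).symm • S ↔ W.map (p + p ∘ₗ r n) ∈ S := by
    intro n W
    rw [mem_tr']
    refine hS.agree hU (fun x => ?_) W
    simpa [B, shear_apply] using p4 x
  have hB : ∀ n W, W ∈ ((A n).trans (B n)).symm • S ↔ W.map (p ∘ₗ r n) ∈ S := by
    intro n W
    rw [mem_tr']
    refine hS.agree hU (fun x => ?_) W
    have : ((A n).trans (B n)) x - p (r n x) = (x - p x) - j n (p x) := by
      simp only [A, B, shear_apply, LinearEquiv.trans_apply, LinearMap.neg_apply,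
        LinearMap.comp_apply, map_add, map_neg, rj, p1 _ (p3 x)]
      abel
    exact this ▸ sub_mem (p4 x) (j1 n _)
  have htop : ∀ W : Submodule F V, W ∈ S → (∀ c ∈ C, c ∈ W) → False := by
    intro W h hW
    apply hS.1.2.1
    refine hS.1.2.2.1 _ (hS.1.2.2.2 _ hU _ h) _ ?_
    rw [← hC.sup_eq_top]
    exact sup_le_sup_left hW _
  have hr : ∀ n, LinearMap.ker (r n) ∈ ((A n).trans (B n)).symm • S := by
    intro n
    rw [hB]
    refine hS.1.2.2.1 _ hS.1.1 _ ?_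
    rintro _ ⟨x, hx, rfl⟩
    have : r n x = 0 := hx
    simp [this]
  have hinj : Function.Injective (fun n => ((A n).trans (B n)).symm • S) := by
    intro n m hnm
    by_contra hne
    have h1 := hr n
    simp only at hnm
    rw [hnm, hB] at h1
    exact htop _ h1 (fun c hc => ⟨j m c, rj' n m c hne, by simp [rj, p1 c hc]⟩)
  have hCn : ∀ n, S ≠ ((A n).trans (B n)).symm • S := by
    intro n h
    have h1 := hU
    rw [h, hB] at h1
    exact htop _ h1 (fun c hc => ⟨j n c, j1 n c, by simp [rj, p1 c hc]⟩)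
  refine final S (fun a ha b hb g h => (hS.orbit ha).two hV (hS.orbit hb) g h)
    (Set.infinite_of_injective_forall_mem hinj (fun n => mem_orbit _ _))
    (fun a b c => ∀ W ∈ a, ∀ W' ∈ b, W ⊓ W' ∈ c) ?_
    S (((A 0).trans (B 0)).symm • S) ((B 0).symm • S) (((A 1).trans (B 1)).symm • S)
    (mem_orbit_self _)
    (mem_orbit _ _) (mem_orbit _ _) (mem_orbit _ _) (hCn 0) ?_ ?_ (hCn 1)
    (fun h => absurd (hinj h) (by decide)) ?_ ?_ k
  · intro g a b c h W hW W' hW'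
    rw [mem_tr] at hW hW' ⊢
    rw [comap_inf]
    exact h _ hW _ hW'
  · intro h
    have h1 := hU
    rw [h, hA] at h1
    exact htop _ h1 (fun c hc => ⟨j 0 c, j1 0 c, by simp [rj, p1 c hc, p2 _ (j1 0 c)]⟩)
  · intro h
    have h1 := hr 0
    rw [h, hA] at h1
    exact htop _ h1 (fun c hc => ⟨c, r1 0 c hc, by simp [r1 0 c hc, p1 c hc]⟩)
  · intro W hW W' hW'
    rw [hB] at hW'
    rw [h0] at hW
    rw [hA]
    refine hS.1.2.2.1 _ (hS.1.2.2.2 _ hW _ hW') _ ?_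
    rintro _ ⟨x, hx, rfl⟩
    exact add_mem_sup ⟨x, hx.1, rfl⟩ ⟨x, hx.2, rfl⟩
  · intro h
    have h1 := h _ hU _ (hr 0)
    rw [hB] at h1
    exact htop _ h1 (fun c hc => ⟨j 1 c, ⟨j1 1 c, rj' 0 1 c (by decide)⟩, by simp [rj, p1 c hc]⟩)

end Pool.Agent.H67.FT
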