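import Mathlib

/-! Generic Latin squares, part 1: incomplete three-sorted triple systems and closed
isomorphisms between pieces of them; the copy step and the join step. -/

namespace H67.Gen

abbrev N := ℕ × ℕ
abbrev X := Fin 3 × N
def lev (x : X) : ℕ := x.2.1

abbrev Tri := X → X → X → Prop
abbrev Rl := X → X → Prop

structure Good (n : ℕ) (C : Tri) : Prop where
  cyc : ∀ {a b c}, C a b c → C b c a
  uniq : ∀ {a b c d}, C a b c → C a b d → c = d
  so : ∀ {a b c}, C a b c → b.1 = a.1 + 1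
  lv : ∀ {a b c}, C a b c → lev a < n

def Fn (R : Rl) : Prop := ∀ ⦃a b c⦄, R a b → R a c → b = c
def Fwd (C : Tri) (R : Rl) : Prop :=
  ∀ ⦃a b c a' b'⦄, R a a' → R b b' → C a b c → ∃ c', R c c' ∧ C a' b' c'

structure PI (n : ℕ) (C : Tri) (k : Fin 3) (R : Rl) : Prop where
  fn : Fn R
  inj : Fn (flip R)
  fw : Fwd C R
  bw : Fwd C (flip R)
  sh : ∀ {a b}, R a b → b.1 = a.1 + k
  l1 : ∀ {a b}, R a b → lev a < n
  l2 : ∀ {a b}, R a b → lev b < n

theorem PI.flip' {n C k R} (h : PI n C k R) : PI n C (-k) (flip R) where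
  fn := h.inj
  inj := h.fn
  fw := h.bw
  bw := h.fw
  sh := fun {a b} hab => by
    have : a.1 = b.1 + k := h.sh hab
    rw [this]; abel
  l1 := fun hab => h.l2 hab
  l2 := fun hab => h.l1 hab

theorem Good.lv2 {n C} (h : Good n C) {a b c} (x : C a b c) : lev b < n := h.lv (h.cyc x)
theorem Good.lv3 {n C} (h : Good n C) {a b c} (x : C a b c) : lev c < n := h.lv (h.cyc (h.cyc x))

theorem Good.mono {n m C} (h : Good n C) (hm : n ≤ m) : Good m C :=
  ⟨h.cyc, h.uniq, h.so, fun x => (h.lv x).trans_le hm⟩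

theorem PI.mono {n m C k R} (h : PI n C k R) (hm : n ≤ m) : PI m C k R :=
  ⟨h.fn, h.inj, h.fw, h.bw, h.sh, fun x => (h.l1 x).trans_le hm, fun x => (h.l2 x).trans_le hm⟩

theorem PI.empty (n C k) : PI n C k (fun _ _ => False) :=
  ⟨fun _ _ _ h => h.elim, fun _ _ _ h => h.elim, fun _ _ _ _ _ h => h.elim,
   fun _ _ _ _ _ h => h.elim, fun h => h.elim, fun h => h.elim, fun h => h.elim⟩

/-- an old closed isomorphism survives an extension in which the old part is closed -/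
theorem PI.ext {n C C' k R} (h : PI n C k R) (hle : ∀ {a b c}, C a b c → C' a b c)
    (hcl : ∀ {a b c}, C' a b c → lev a < n → lev b < n → C a b c) : PI n C' k R where
  fn := h.fn
  inj := h.inj
  fw := fun _ _ _ _ _ ha hb hc => by
    obtain ⟨c', h1, h2⟩ := h.fw ha hb (hcl hc (h.l1 ha) (h.l1 hb))
    exact ⟨c', h1, hle h2⟩
  bw := fun _ _ _ _ _ ha hb hc => by
    obtain ⟨c', h1, h2⟩ := h.bw ha hb (hcl hc (h.l2 ha) (h.l2 hb))
    exact ⟨c', h1, hle h2⟩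
  sh := h.sh
  l1 := h.l1
  l2 := h.l2

/-! ### the copy step -/

open Classical in
noncomputable def ph (n : ℕ) (k : Fin 3) (R : Rl) (x : X) : X :=
  if h : ∃ y, R x y then h.choose else (x.1 + k, (n, Encodable.encode x))

section copy
variable {n : ℕ} {C : Tri} {k : Fin 3} {R : Rl}

theorem ph_eq (h : PI n C k R) {x y} (hx : R x y) : ph n k R x = y := by
  have e : ∃ y, R x y := ⟨y, hx⟩
  rw [ph, dif_pos e]
  exact h.fn e.choose_spec hx

theorem ph_new {x} (hx : ¬ ∃ y, R x y) : ph n k R x = (x.1 + k, (n, Encodable.encode x)) := by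
  rw [ph, dif_neg hx]

theorem ph_old (h : PI n C k R) {x} (hx : lev (ph n k R x) < n) : R x (ph n k R x) := by
  by_cases e : ∃ y, R x y
  · obtain ⟨y, hy⟩ := e
    rw [ph_eq h hy]; exact hy
  · rw [ph_new e] at hx
    exact absurd hx (lt_irrefl _)

theorem ph_lev (h : PI n C k R) (x) : lev (ph n k R x) < n + 1 := by
  by_cases e : ∃ y, R x y
  · obtain ⟨y, hy⟩ := e
    rw [ph_eq h hy]; exact (h.l2 hy).trans (Nat.lt_succ_self _)
  · rw [ph_new e]; exact Nat.lt_succ_self _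

theorem ph_so (h : PI n C k R) (x) : (ph n k R x).1 = x.1 + k := by
  by_cases e : ∃ y, R x y
  · obtain ⟨y, hy⟩ := e
    rw [ph_eq h hy]; exact h.sh hy
  · rw [ph_new e]

theorem ph_inj (h : PI n C k R) {x y} (e : ph n k R x = ph n k R y) : x = y := by
  by_cases hl : lev (ph n k R x) < n
  · have h1 := ph_old h hl
    have h2 := ph_old h (e ▸ hl)
    rw [← e] at h2
    exact h.inj h1 h2
  · have hx : ¬ ∃ z, R x z := fun ⟨z, hz⟩ => hl (by rw [ph_eq h hz]; exact h.l2 hz)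
    have hy : ¬ ∃ z, R y z := fun ⟨z, hz⟩ => hl (by rw [e, ph_eq h hz]; exact h.l2 hz)
    rw [ph_new hx, ph_new hy] at e
    exact Encodable.encode_injective (congrArg (fun p : X => p.2.2) e)

def cpC (n : ℕ) (C : Tri) (k : Fin 3) (R : Rl) : Tri := fun a b c =>
  C a b c ∨ ∃ x y z, C x y z ∧ a = ph n k R x ∧ b = ph n k R y ∧ c = ph n k R z

def cpR (n : ℕ) (k : Fin 3) (R : Rl) : Rl := fun x y => lev x < n ∧ y = ph n k R x

theorem cp_cl (h : PI n C k R) {a b c} (hc : cpC n C k R a b c) (ha : lev a < n)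
    (hb : lev b < n) : C a b c := by
  rcases hc with hc | ⟨x, y, z, hc, rfl, rfl, rfl⟩
  · exact hc
  · obtain ⟨c', h1, h2⟩ := h.fw (ph_old h ha) (ph_old h hb) hc
    rw [ph_eq h h1]; exact h2

theorem cp_good (g : Good n C) (h : PI n C k R) : Good (n + 1) (cpC n C k R) where
  cyc := by
    rintro a b c (hc | ⟨x, y, z, hc, rfl, rfl, rfl⟩)
    · exact Or.inl (g.cyc hc)
    · exact Or.inr ⟨y, z, x, g.cyc hc, rfl, rfl, rfl⟩
  uniq := by
    intro a b c d h1 h2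
    rcases h1 with h1 | ⟨x, y, z, hc, rfl, rfl, rfl⟩
    · exact g.uniq h1 (cp_cl h h2 (g.lv h1) (g.lv2 h1))
    · rcases h2 with h2 | ⟨x', y', z', hc', e1, e2, rfl⟩
      · exact g.uniq (cp_cl h (Or.inr ⟨x, y, z, hc, rfl, rfl, rfl⟩) (g.lv h2) (g.lv2 h2)) h2
      · obtain rfl := ph_inj h e1
        obtain rfl := ph_inj h e2
        rw [g.uniq hc hc']
  so := by
    rintro a b c (hc | ⟨x, y, z, hc, rfl, rfl, rfl⟩)
    · exact g.so hc
    · rw [ph_so h, ph_so h, g.so hc]; abel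
  lv := by
    rintro a b c (hc | ⟨x, y, z, hc, rfl, rfl, rfl⟩)
    · exact (g.lv hc).trans (Nat.lt_succ_self _)
    · exact ph_lev h _

theorem cp_PI (g : Good n C) (h : PI n C k R) : PI (n + 1) (cpC n C k R) k (cpR n k R) where
  fn := fun _ _ _ h1 h2 => h1.2.trans h2.2.symm
  inj := fun _ _ _ h1 h2 => ph_inj h (h1.2.symm.trans h2.2)
  fw := by
    rintro a b c _ _ ⟨ha, rfl⟩ ⟨hb, rfl⟩ hc
    have hc := cp_cl h hc ha hb
    exact ⟨_, ⟨g.lv3 hc, rfl⟩, Or.inr ⟨a, b, c, hc, rfl, rfl, rfl⟩⟩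
  bw := by
    rintro _ _ c' a b ⟨ha, rfl⟩ ⟨hb, rfl⟩ hc
    rcases hc with hc | ⟨x, y, z, hc, e1, e2, rfl⟩
    · obtain ⟨c, h1, h2⟩ := h.bw (a' := a) (b' := b) (ph_old h (g.lv hc)) (ph_old h (g.lv2 hc)) hc
      exact ⟨c, ⟨g.lv3 h2, (ph_eq h h1).symm⟩, Or.inl h2⟩
    · obtain rfl := ph_inj h e1
      obtain rfl := ph_inj h e2
      exact ⟨z, ⟨g.lv3 hc, rfl⟩, Or.inl hc⟩
  sh := by
    rintro a _ ⟨_, rfl⟩
    exact ph_so h _
  l1 := fun x => x.1.trans (Nat.lt_succ_self _)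
  l2 := by
    rintro a _ ⟨_, rfl⟩
    exact ph_lev h _

theorem cp_other (h : PI n C k R) {k' R'} (h' : PI n C k' R') :
    PI (n + 1) (cpC n C k R) k' R' :=
  (h'.ext (fun x => Or.inl x) (fun x => cp_cl h x)).mono (Nat.le_succ _)

theorem cp_le (h : PI n C k R) {x y} (hx : R x y) : cpR n k R x y :=
  ⟨h.l1 hx, (ph_eq h hx).symm⟩

end copy

/-! ### the join step -/

def jn (n : ℕ) (a b : X) : X := (a.1 + 2, (n, Encodable.encode (a, b)))

theorem jn_inj {n a b a' b'} (e : jn n a b = jn n a' b') : a = a' ∧ b = b' :=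
  Prod.ext_iff.1 (Encodable.encode_injective (congrArg (fun p : X => p.2.2) e))

theorem jn_lev {n a b} : ¬ lev (jn n a b) < n := lt_irrefl _

def Nw (n : ℕ) (C : Tri) (a b : X) : Prop :=
  lev a < n ∧ lev b < n ∧ b.1 = a.1 + 1 ∧ ¬ ∃ c, C a b c

def jC (n : ℕ) (C : Tri) : Tri := fun x y z =>
  C x y z ∨ (Nw n C x y ∧ z = jn n x y) ∨ (Nw n C z x ∧ y = jn n z x) ∨ (Nw n C y z ∧ x = jn n y z)

def jR (n : ℕ) (C : Tri) (R : Rl) : Rl := fun x y =>
  R x y ∨ ∃ a b a' b', R a a' ∧ R b b' ∧ Nw n C a b ∧ Nw n C a' b' ∧ x = jn n a b ∧ y = jn n a' b'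

section join
variable {n : ℕ} {C : Tri} {k : Fin 3} {R : Rl}

theorem j_good (g : Good n C) : Good (n + 1) (jC n C) where
  cyc := by
    rintro a b c (h | h | h | h)
    · exact Or.inl (g.cyc h)
    · exact Or.inr (Or.inr (Or.inl h))
    · exact Or.inr (Or.inr (Or.inr h))
    · exact Or.inr (Or.inl h)
  uniq := by
    rintro a b c d (h | ⟨h, e⟩ | ⟨h, e⟩ | ⟨h, e⟩) (h' | ⟨h', e'⟩ | ⟨h', e'⟩ | ⟨h', e'⟩)
    · exact g.uniq h h'
    · exact absurd ⟨_, h⟩ h'.2.2.2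
    · exact absurd (e' ▸ g.lv2 h) jn_lev
    · exact absurd (e' ▸ g.lv h) jn_lev
    · exact absurd ⟨_, h'⟩ h.2.2.2
    · rw [e, e']
    · exact absurd (e' ▸ h.2.1) jn_lev
    · exact absurd (e' ▸ h.1) jn_lev
    · exact absurd (e ▸ g.lv2 h') jn_lev
    · exact absurd (e ▸ h'.2.1) jn_lev
    · exact (jn_inj (e.symm.trans e')).1
    · exact absurd (e' ▸ h.2.1) jn_lev
    · exact absurd (e ▸ g.lv h') jn_lev
    · exact absurd (e ▸ h'.1) jn_lev
    · exact absurd (e ▸ h'.2.1) jn_lev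
    · exact (jn_inj (e.symm.trans e')).2
  so := by
    rintro a b c (h | ⟨h, e⟩ | ⟨h, e⟩ | ⟨h, e⟩)
    · exact g.so h
    · exact h.2.2.1
    · rw [e, h.2.2.1]
      show c.1 + 2 = c.1 + 1 + 1
      generalize c.1 = t
      revert t; decide
    · rw [e]
      show b.1 = b.1 + 2 + 1
      generalize b.1 = t
      revert t; decide
  lv := by
    rintro a b c (h | ⟨h, e⟩ | ⟨h, e⟩ | ⟨h, e⟩)
    · exact (g.lv h).trans (Nat.lt_succ_self _)
    · exact h.1.trans (Nat.lt_succ_self _)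
    · exact h.2.1.trans (Nat.lt_succ_self _)
    · rw [e]; exact Nat.lt_succ_self _

theorem jR_old {x y} (h : jR n C R x y) (hx : lev x < n) : R x y := by
  rcases h with h | ⟨a, b, a', b', _, _, _, _, rfl, _⟩
  · exact h
  · exact absurd hx jn_lev

theorem jR_new (h : PI n C k R) {a b y} (hy : jR n C R (jn n a b) y) :
    ∃ a' b', R a a' ∧ R b b' ∧ Nw n C a' b' ∧ y = jn n a' b' := by
  rcases hy with hy | ⟨a1, b1, a', b', h1, h2, _, h4, e, rfl⟩
  · exact absurd (h.l1 hy) jn_lev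
  · obtain ⟨rfl, rfl⟩ := jn_inj e
    exact ⟨a', b', h1, h2, h4, rfl⟩

theorem Nw_map (h : PI n C k R) {a b a' b'} (ha : R a a') (hb : R b b') (w : Nw n C a b) :
    Nw n C a' b' := by
  refine ⟨h.l2 ha, h.l2 hb, ?_, fun ⟨c', hc⟩ => ?_⟩
  · rw [h.sh ha, h.sh hb, w.2.2.1]; abel
  · obtain ⟨c, _, h2⟩ := h.bw (a' := a) (b' := b) ha hb hc
    exact w.2.2.2 ⟨c, h2⟩

theorem j_half (g : Good n C) (h : PI n C k R) : Fn (jR n C R) ∧ Fwd (jC n C) (jR n C R) := by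
  constructor
  · intro x y z h1 h2
    rcases h1 with h1 | ⟨a, b, a', b', ha, hb, _, _, rfl, rfl⟩
    · exact h.fn h1 (jR_old h2 (h.l1 h1))
    · obtain ⟨a2, b2, ha2, hb2, _, rfl⟩ := jR_new h h2
      rw [h.fn ha ha2, h.fn hb hb2]
  · rintro x y z x' y' hx hy (hc | ⟨w, rfl⟩ | ⟨w, rfl⟩ | ⟨w, rfl⟩)
    · obtain ⟨c', h1, h2⟩ := h.fw (jR_old hx (g.lv hc)) (jR_old hy (g.lv2 hc)) hc
      exact ⟨c', Or.inl h1, Or.inl h2⟩
    · have hx := jR_old hx w.1
      have hy := jR_old hy w.2.1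
      have w' := Nw_map h hx hy w
      exact ⟨_, Or.inr ⟨_, _, _, _, hx, hy, w, w', rfl, rfl⟩, Or.inr (Or.inl ⟨w', rfl⟩)⟩
    · have hx := jR_old hx w.2.1
      obtain ⟨a', b', h1, h2, w', rfl⟩ := jR_new h hy
      obtain rfl := h.fn hx h2
      exact ⟨a', Or.inl h1, Or.inr (Or.inr (Or.inl ⟨w', rfl⟩))⟩
    · have hy := jR_old hy w.1
      obtain ⟨a', b', h1, h2, w', rfl⟩ := jR_new h hx
      obtain rfl := h.fn hy h1
      exact ⟨b', Or.inl h2, Or.inr (Or.inr (Or.inr ⟨w', rfl⟩))⟩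

theorem jR_flip : flip (jR n C R) = jR n C (flip R) := by
  funext x y
  apply propext
  constructor
  · rintro (h | ⟨a, b, a', b', h1, h2, h3, h4, h5, h6⟩)
    · exact Or.inl h
    · exact Or.inr ⟨a', b', a, b, h1, h2, h4, h3, h6, h5⟩
  · rintro (h | ⟨a, b, a', b', h1, h2, h3, h4, h5, h6⟩)
    · exact Or.inl h
    · exact Or.inr ⟨a', b', a, b, h1, h2, h4, h3, h6, h5⟩

theorem j_PI (g : Good n C) (h : PI n C k R) : PI (n + 1) (jC n C) k (jR n C R) where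
  fn := (j_half g h).1
  inj := jR_flip ▸ (j_half g h.flip').1
  fw := (j_half g h).2
  bw := jR_flip ▸ (j_half g h.flip').2
  sh := by
    rintro x y (hx | ⟨a, b, a', b', ha, _, _, _, rfl, rfl⟩)
    · exact h.sh hx
    · show a'.1 + 2 = a.1 + 2 + k
      rw [h.sh ha]; abel
  l1 := by
    rintro x y (hx | ⟨a, b, a', b', ha, _, _, _, rfl, rfl⟩)
    · exact (h.l1 hx).trans (Nat.lt_succ_self _)
    · exact Nat.lt_succ_self _
  l2 := by
    rintro x y (hx | ⟨a, b, a', b', ha, _, _, _, rfl, rfl⟩)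
    · exact (h.l2 hx).trans (Nat.lt_succ_self _)
    · exact Nat.lt_succ_self _

end join

/-! ### isomorphisms between single cells and pairs of cells -/

def Cl (C : Tri) (v : Fin 3 → N) : Prop :=
  ∀ i, C (i, v i) (i + 1, v (i + 1)) (i + 2, v (i + 2))

def cR (u w : Fin 3 → N) (k : Fin 3) : Rl := fun x y =>
  ∃ i, x = (i, u i) ∧ y = (i + k, w (i + k))

theorem cR_flip (u w k) : flip (cR u w k) = cR w u (-k) := by
  funext x y
  apply propext
  constructor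
  · rintro ⟨i, rfl, rfl⟩
    exact ⟨i + k, rfl, by rw [add_neg_cancel_right]⟩
  · rintro ⟨i, rfl, rfl⟩
    exact ⟨i + -k, rfl, by rw [neg_add_cancel_right]⟩

theorem cR_half {n C} (g : Good n C) {u w} (hu : Cl C u) (hw : Cl C w) (k) :
    Fn (cR u w k) ∧ Fwd C (cR u w k) := by
  constructor
  · rintro _ _ _ ⟨i, rfl, rfl⟩ ⟨j, e, rfl⟩
    obtain rfl : i = j := congrArg Prod.fst e
    rfl
  · rintro _ _ c _ _ ⟨i, rfl, rfl⟩ ⟨j, rfl, rfl⟩ hc
    obtain rfl : j = i + 1 := g.so hc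
    obtain rfl := g.uniq hc (hu i)
    refine ⟨_, ⟨i + 2, rfl, rfl⟩, ?_⟩
    rw [add_right_comm i 1 k, add_right_comm i 2 k]
    exact hw _

theorem cR_PI {n C} (g : Good n C) {u w} (hu : Cl C u) (hw : Cl C w) (k) :
    PI n C k (cR u w k) where
  fn := (cR_half g hu hw k).1
  inj := cR_flip u w k ▸ (cR_half g hw hu _).1
  fw := (cR_half g hu hw k).2
  bw := cR_flip u w k ▸ (cR_half g hw hu _).2
  sh := by rintro _ _ ⟨i, rfl, rfl⟩; rfl
  l1 := by rintro _ _ ⟨i, rfl, rfl⟩; exact g.lv (hu i)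
  l2 := by rintro _ _ ⟨i, rfl, rfl⟩; exact g.lv (hw _)

/-- no contact between the domains of two relations -/
def Apart (C : Tri) (R S : Rl) : Prop :=
  ∀ ⦃a a' b b'⦄, R a a' → S b b' → a ≠ b ∧ (∀ c, ¬ C a b c) ∧ ∀ c, ¬ C b a c

theorem un_half {C R S} (h1 : Fn R) (h2 : Fwd C R) (h3 : Fn S) (h4 : Fwd C S)
    (ap : Apart C R S) :
    Fn (fun x y => R x y ∨ S x y) ∧ Fwd C (fun x y => R x y ∨ S x y) := by
  constructor
  · rintro a b c (x | x) (y | y)
    · exact h1 x y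
    · exact absurd rfl (ap x y).1
    · exact absurd rfl (ap y x).1
    · exact h3 x y
  · rintro a b c a' b' (x | x) (y | y) hc
    · obtain ⟨c', p, q⟩ := h2 x y hc
      exact ⟨c', Or.inl p, q⟩
    · exact absurd hc ((ap x y).2.1 c)
    · exact absurd hc ((ap y x).2.2 c)
    · obtain ⟨c', p, q⟩ := h4 x y hc
      exact ⟨c', Or.inr p, q⟩

theorem un_PI {n C k R S} (h : PI n C k R) (h' : PI n C k S) (ap : Apart C R S)
    (ap' : Apart C (flip R) (flip S)) : PI n C k (fun x y => R x y ∨ S x y) where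
  fn := (un_half h.fn h.fw h'.fn h'.fw ap).1
  inj := (un_half h.inj h.bw h'.inj h'.bw ap').1
  fw := (un_half h.fn h.fw h'.fn h'.fw ap).2
  bw := (un_half h.inj h.bw h'.inj h'.bw ap').2
  sh := fun x => x.elim h.sh h'.sh
  l1 := fun x => x.elim h.l1 h'.l1
  l2 := fun x => x.elim h.l2 h'.l2

end H67.Gen
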