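import Mathlib

set_option autoImplicit false

namespace H67.Geo

open Finset

variable {L : Type} [CompleteLattice L] [IsAtomistic L] [IsUpperModularLattice L]

omit [IsAtomistic L] in
theorem cov_sup {b d x : L} (hbd : b ≤ d) (hx : b ⋖ x) (hn : ¬ x ≤ d) : d ⋖ d ⊔ x := by
  have h1 : d ⊓ x = b := by
    rcases hx.eq_or_eq (c := d ⊓ x) (le_inf hbd hx.le) inf_le_right with h | h
    · exact h
    · exact absurd (h ▸ inf_le_left) hn
  exact covBy_sup_of_inf_covBy_right (by rw [h1]; exact hx)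

theorem rel_atom {b c d : L} (hbc : b ≤ c) (hbd : b ≤ d) (hn : ¬ c ≤ d) :
    ∃ x, b ⋖ x ∧ x ≤ c ∧ ¬ x ≤ d := by
  rw [le_iff_atom_le_imp] at hn
  push Not at hn
  obtain ⟨p, hp, hpc, hpd⟩ := hn
  refine ⟨b ⊔ p, cov_sup bot_le hp.bot_covBy (fun h => hpd (h.trans hbd)), sup_le hbc hpc,
    fun h => hpd (le_sup_right.trans h)⟩

omit [IsAtomistic L] [IsUpperModularLattice L] in
theorem cov_eq {d u v : L} (hu : d ⋖ u) (hv : d ⋖ v) (h : u ≤ v) : u = v := by
  rcases hv.eq_or_eq hu.le h with h' | h'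
  · exact absurd h' hu.ne'
  · exact h'

omit [IsAtomistic L] [IsUpperModularLattice L] in
theorem exists_max (ρ : L → ℕ) (hρ : StrictMono ρ) (Q : L → Prop) (d : L) (hd : Q d) :
    ∃ h, Q h ∧ ∀ h', Q h' → h ≤ h' → h' = h := by
  have hwf : WellFounded (InvImage (· < ·) (fun a : L => ρ ⊤ - ρ a)) :=
    InvImage.wf _ Nat.lt_wfRel.wf
  obtain ⟨h, hh, hmin⟩ := hwf.has_min {a | Q a} ⟨d, hd⟩
  refine ⟨h, hh, fun h' hq hle => ?_⟩
  by_contra hne
  have hlt : h < h' := lt_of_le_of_ne hle (Ne.symm hne)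
  apply hmin h' hq
  have h1 := hρ hlt
  have h2 : ρ h' ≤ ρ ⊤ := hρ.monotone le_top
  show ρ ⊤ - ρ h' < ρ ⊤ - ρ h
  omega

theorem coatom (ρ : L → ℕ) (hρ : StrictMono ρ) {b d t x : L} (hbd : b ≤ d) (hdt : d ≤ t)
    (hx : b ⋖ x) (hxt : x ≤ t) (hn : ¬ x ≤ d) : ∃ h, d ≤ h ∧ h ⋖ t ∧ ¬ x ≤ h := by
  obtain ⟨h, ⟨h1, h2, h3⟩, hmax⟩ :=
    exists_max ρ hρ (fun h => d ≤ h ∧ h ≤ t ∧ ¬ x ≤ h) d ⟨le_rfl, hdt, hn⟩
  have hc : h ⋖ h ⊔ x := cov_sup (hbd.trans h1) hx h3
  refine ⟨h, h1, ?_, h3⟩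
  have : h ⊔ x = t := by
    apply le_antisymm (sup_le h2 hxt)
    by_contra hne
    obtain ⟨y, hy, hyt, hyn⟩ := rel_atom ((hbd.trans h1).trans h2)
      ((hbd.trans h1).trans le_sup_left) hne
    have hyh : ¬ y ≤ h := fun hh => hyn (hh.trans le_sup_left)
    have hc' : h ⋖ h ⊔ y := cov_sup (hbd.trans h1) hy hyh
    have hxy : x ≤ h ⊔ y := by
      by_contra hxy
      have := hmax (h ⊔ y) ⟨h1.trans le_sup_left, sup_le h2 hyt, hxy⟩ le_sup_left
      exact hc'.ne' this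
    have := cov_eq hc hc' (sup_le le_sup_left hxy)
    exact hyn (this ▸ le_sup_right)
  exact this ▸ hc

/-- span of a finite set over `b` -/
noncomputable def sp (b : L) (T : Finset L) : L := b ⊔ T.sup id

open Classical in
/-- hyperplane traces -/
noncomputable def Hyp (b : L) (S : Finset L) : Finset (Finset L) :=
  S.powerset.filter (fun T => sp b T ⋖ sp b S ∧ ∀ a ∈ S, a ≤ sp b T → a ∈ T)

omit [IsAtomistic L] [IsUpperModularLattice L] in
theorem le_sp {b a : L} {T : Finset L} (h : a ∈ T) : a ≤ sp b T :=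
  (Finset.le_sup (f := id) h).trans le_sup_right

omit [IsAtomistic L] [IsUpperModularLattice L] in
theorem sp_le {b c : L} {T : Finset L} (hb : b ≤ c) (h : ∀ a ∈ T, a ≤ c) : sp b T ≤ c :=
  sup_le hb (Finset.sup_le h)

omit [IsAtomistic L] [IsUpperModularLattice L] in
theorem b_le_sp {b : L} {T : Finset L} : b ≤ sp b T := le_sup_left

omit [IsAtomistic L] [IsUpperModularLattice L] in
theorem sp_mono {b : L} {T U : Finset L} (h : T ⊆ U) : sp b T ≤ sp b U :=
  sp_le b_le_sp (fun _ ha => le_sp (h ha))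

omit [IsAtomistic L] [IsUpperModularLattice L] in
theorem mem_Hyp {b : L} {S T : Finset L} :
    T ∈ Hyp b S ↔ T ⊆ S ∧ sp b T ⋖ sp b S ∧ ∀ a ∈ S, a ≤ sp b T → a ∈ T := by
  classical
  simp [Hyp]

omit [IsAtomistic L] in
theorem exists_hyp {b : L} {S U : Finset L} (hS : ∀ a ∈ S, b ⋖ a) (hU : U ⊆ S) {a : L}
    (ha : a ∈ S) (hn : ¬ a ≤ sp b U) : ∃ T ∈ Hyp b S, U ⊆ T ∧ a ∉ T := by
  classical
  obtain ⟨T, hT, hmax⟩ := Finset.exists_max_image
    (S.powerset.filter (fun T => U ⊆ T ∧ ¬ a ≤ sp b T)) Finset.card ⟨U, by simp [hU, hn]⟩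
  simp only [mem_filter, mem_powerset] at hT hmax
  obtain ⟨hTS, hUT, haT⟩ := hT
  have hins : ∀ c ∈ S, c ∉ T → a ≤ sp b T ⊔ c := by
    intro c hc hcT
    by_contra hcon
    have := hmax (insert c T) ⟨insert_subset hc hTS, hUT.trans (subset_insert _ _), fun h =>
      hcon (h.trans (sp_le (b_le_sp.trans le_sup_left) (fun z hz => by
        rcases mem_insert.1 hz with rfl | hz
        · exact le_sup_right
        · exact (le_sp hz).trans le_sup_left)))⟩
    rw [card_insert_of_notMem hcT] at this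
    omega
  have hcl : ∀ c ∈ S, c ≤ sp b T → c ∈ T := by
    intro c hc hle
    by_contra hcT
    have := hins c hc hcT
    rw [sup_eq_left.2 hle] at this
    exact haT this
  have hcov : sp b T ⋖ sp b T ⊔ a := cov_sup b_le_sp (hS a ha) haT
  refine ⟨T, mem_Hyp.2 ⟨hTS, ?_, hcl⟩, hUT, fun h => haT (le_sp h)⟩
  have : sp b T ⊔ a = sp b S := by
    apply le_antisymm (sup_le (sp_mono hTS) (le_sp ha))
    refine sp_le (b_le_sp.trans le_sup_left) (fun c hc => ?_)
    by_cases hcT : c ∈ T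
    · exact (le_sp hcT).trans le_sup_left
    · have hc' : sp b T ⋖ sp b T ⊔ c := cov_sup b_le_sp (hS c hc) (fun h => hcT (hcl c hc h))
      have := cov_eq hcov hc' (sup_le le_sup_left (hins c hc hcT))
      exact this ▸ le_sup_right
  exact this ▸ hcov

theorem motzkin {α : Type} [DecidableEq α] (S : Finset α) (H : Finset (Finset α))
    (hne : S.Nonempty) (hsub : ∀ T ∈ H, T ⊆ S) (hT : ∀ T ∈ H, ∃ x ∈ S, x ∉ T)
    (hx : ∀ x ∈ S, ∃ T ∈ H, x ∉ T) (hx' : ∀ x ∈ S, ∃ T ∈ H, x ∈ T)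
    (hd : ∀ x ∈ S, ∀ T ∈ H, x ∉ T → T.card ≤ (H.filter (fun T' => x ∈ T')).card) :
    S.card ≤ H.card := by
  by_contra hlt
  push Not at hlt
  set n := S.card with hn
  set m := H.card with hm
  have hn0 : 0 < n := card_pos.2 hne
  obtain ⟨x0, hx0⟩ := hne
  obtain ⟨T0, hT0, hxT0⟩ := hx x0 hx0
  have hm0 : 0 < m := card_pos.2 ⟨T0, hT0⟩
  have e1 : ∀ x ∈ S, (H.filter (fun T => x ∉ T)).card + (H.filter (fun T => x ∈ T)).card = m := by
    intro x _
    rw [add_comm]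
    exact card_filter_add_card_filter_not _
  have e2 : ∀ T ∈ H, (S.filter (fun x => x ∉ T)).card + T.card = n := by
    intro T hTH
    have : S.filter (fun x => x ∉ T) = S \ T := by ext; simp
    rw [this, card_sdiff_of_subset (hsub T hTH)]
    have := card_le_card (hsub T hTH)
    omega
  have p1 : ∀ x ∈ S, 0 < (H.filter (fun T => x ∉ T)).card := fun x hxS => by
    obtain ⟨T, h1, h2⟩ := hx x hxS
    exact card_pos.2 ⟨T, mem_filter.2 ⟨h1, h2⟩⟩
  have p2 : ∀ T ∈ H, 0 < (S.filter (fun x => x ∉ T)).card := fun T hTH => by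
    obtain ⟨x, h1, h2⟩ := hT T hTH
    exact card_pos.2 ⟨x, mem_filter.2 ⟨h1, h2⟩⟩
  have s1 : ∑ x ∈ S, ∑ T ∈ H, (if x ∉ T then
      (1 : ℚ) / (n * (H.filter (fun T => x ∉ T)).card) else 0) = 1 := by
    rw [Finset.sum_congr rfl (g := fun _ => (1 : ℚ) / n)]
    · rw [sum_const, nsmul_eq_mul]; field_simp; rfl
    · intro x hxS
      rw [← sum_filter, sum_const, nsmul_eq_mul]
      have := p1 x hxS
      field_simp
  have s2 : ∑ x ∈ S, ∑ T ∈ H, (if x ∉ T then
      (1 : ℚ) / (m * (S.filter (fun x => x ∉ T)).card) else 0) = 1 := by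
    rw [sum_comm, Finset.sum_congr rfl (g := fun _ => (1 : ℚ) / m)]
    · rw [sum_const, nsmul_eq_mul]; field_simp; rfl
    · intro T hTH
      rw [← sum_filter, sum_const, nsmul_eq_mul]
      have := p2 T hTH
      field_simp
  have key : ∀ x ∈ S, ∀ T ∈ H, x ∉ T → (1 : ℚ) / (m * (S.filter (fun x => x ∉ T)).card) <
      (1 : ℚ) / (n * (H.filter (fun T => x ∉ T)).card) := by
    intro x hxS T hTH hxT
    have a1 := e1 x hxS
    have a2 := e2 T hTH
    have a3 := p1 x hxS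
    have a4 := hd x hxS T hTH hxT
    have a5 : 0 < (H.filter (fun T => x ∈ T)).card := by
      obtain ⟨T, h1, h2⟩ := hx' x hxS
      exact card_pos.2 ⟨T, mem_filter.2 ⟨h1, h2⟩⟩
    apply one_div_lt_one_div_of_lt
    · positivity
    · have : n * (H.filter (fun T => x ∉ T)).card < m * (S.filter (fun x => x ∉ T)).card := by
        nlinarith
      exact_mod_cast this
  have : ∑ x ∈ S, ∑ T ∈ H, (if x ∉ T then
      (1 : ℚ) / (m * (S.filter (fun x => x ∉ T)).card) else 0) <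
      ∑ x ∈ S, ∑ T ∈ H, (if x ∉ T then
      (1 : ℚ) / (n * (H.filter (fun T => x ∉ T)).card) else 0) := by
    apply sum_lt_sum_of_nonempty ⟨x0, hx0⟩
    intro x hxS
    obtain ⟨T1, h1, h2⟩ := hx x hxS
    apply sum_lt_sum
    · intro T hTH
      split_ifs with h
      · exact le_rfl
      · exact (key x hxS T hTH h).le
    · exact ⟨T1, h1, by simp only [h2, not_false_eq_true, if_true]; exact key x hxS T1 h1 h2⟩
  rw [s1, s2] at this
  exact lt_irrefl _ this

omit [IsAtomistic L] in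
theorem card_le_hyp (b : L) (S : Finset L) (hS : ∀ a ∈ S, b ⋖ a) (h2 : 2 ≤ S.card) :
    S.card ≤ (Hyp b S).card := by
  classical
  induction S using Finset.strongInduction with
  | H S ih =>
  have hx' : ∀ x ∈ S, ∃ T ∈ Hyp b S, x ∈ T := by
    intro x hx
    obtain ⟨a, ha, hax⟩ := exists_mem_ne (by omega : 1 < S.card) x
    obtain ⟨T, h1, h3, -⟩ := exists_hyp hS (U := {x}) (by simpa using hx) ha (by
      intro h
      have : sp b {x} = x := by simp [sp, (hS x hx).le]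
      rw [this] at h
      exact hax (cov_eq (hS a ha) (hS x hx) h))
    exact ⟨T, h1, h3 (mem_singleton_self x)⟩
  apply motzkin S (Hyp b S) (card_pos.1 (by omega)) (fun T hT => (mem_Hyp.1 hT).1)
  · intro T hT
    obtain ⟨h1, h3, -⟩ := mem_Hyp.1 hT
    by_contra hcon
    push Not at hcon
    exact h3.lt.not_ge (sp_mono hcon)
  · intro x hx
    obtain ⟨T, h1, -, h3⟩ := exists_hyp hS (U := ∅) (empty_subset _) hx (by
      intro h
      have : sp b ∅ = b := by simp [sp]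
      rw [this] at h
      exact (hS x hx).lt.not_ge h)
    exact ⟨T, h1, h3⟩
  · exact hx'
  · intro x hx T hT hxT
    obtain ⟨hTS, hcov, hcl⟩ := mem_Hyp.1 hT
    by_cases hT2 : T.card ≤ 1
    · obtain ⟨T', h1, h3⟩ := hx' x hx
      exact hT2.trans (card_pos.2 ⟨T', mem_filter.2 ⟨h1, h3⟩⟩)
    have hss : T ⊂ S := ⟨hTS, fun h => hxT (h hx)⟩
    refine (ih T hss (fun a ha => hS a (hTS ha)) (by omega)).trans ?_
    have hxn : ¬ x ≤ sp b T := fun h => hxT (hcl x hx h)
    have hS' : sp b T ⊔ x = sp b S :=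
      cov_eq (cov_sup b_le_sp (hS x hx) hxn) hcov (sup_le hcov.le (le_sp hx))
    have hinf : ∀ G ∈ Hyp b T, (sp b G ⊔ x) ⊓ sp b T = sp b G := by
      intro G hG
      obtain ⟨hGT, hcG, -⟩ := mem_Hyp.1 hG
      rcases hcG.eq_or_eq (c := (sp b G ⊔ x) ⊓ sp b T) (le_inf le_sup_left hcG.le) inf_le_right
        with h | h
      · exact h
      · exfalso
        have h' : sp b T ≤ sp b G ⊔ x := h ▸ inf_le_left
        have := cov_eq hcG (cov_sup b_le_sp (hS x hx) (fun h => hxn (h.trans hcG.le))) h'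
        exact hxn (this ▸ le_sup_right)
    apply card_le_card_of_injOn (fun G => S.filter (fun a => a ≤ sp b G ⊔ x))
    · intro G hG
      have hG' : G ∈ Hyp b T := hG
      obtain ⟨hGT, hcG, -⟩ := mem_Hyp.1 hG'
      have hsp : sp b (S.filter (fun a => a ≤ sp b G ⊔ x)) = sp b G ⊔ x := by
        apply le_antisymm (sp_le (b_le_sp.trans le_sup_left) (fun a ha => (mem_filter.1 ha).2))
        refine sup_le (sp_mono (fun a ha => mem_filter.2
          ⟨hTS (hGT ha), (le_sp ha).trans le_sup_left⟩)) (le_sp (mem_filter.2 ⟨hx, le_sup_right⟩))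
      simp only [coe_filter, Set.mem_setOf_eq]
      refine ⟨mem_Hyp.2 ⟨filter_subset _ _, ?_, fun a ha h => mem_filter.2 ⟨ha, hsp ▸ h⟩⟩,
        mem_filter.2 ⟨hx, le_sup_right⟩⟩
      rw [hsp]
      have h1 : (sp b G ⊔ x) ⋖ (sp b G ⊔ x) ⊔ sp b T :=
        covBy_sup_of_inf_covBy_right (by rw [hinf G hG']; exact hcG)
      have h3 : (sp b G ⊔ x) ⊔ sp b T = sp b S := by
        rw [← hS', sup_right_comm, sup_eq_right.2 hcG.le]
      exact h3 ▸ h1
    · intro G hG G' hG' heq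
      have hG1 : G ∈ Hyp b T := hG
      have hG2 : G' ∈ Hyp b T := hG'
      have aux : ∀ G ∈ Hyp b T, G = (S.filter (fun a => a ≤ sp b G ⊔ x)) ∩ T := by
        intro G hG
        obtain ⟨hGT, hcG, hGcl⟩ := mem_Hyp.1 hG
        ext a
        simp only [mem_inter, mem_filter]
        constructor
        · intro ha
          exact ⟨⟨hTS (hGT ha), (le_sp ha).trans le_sup_left⟩, hGT ha⟩
        · rintro ⟨⟨-, h1⟩, h3⟩
          exact hGcl a h3 (hinf G hG ▸ le_inf h1 (le_sp h3))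
      rw [aux G hG1, aux G' hG2]
      exact congrArg (· ∩ T) heq

/-- points of the interval -/
def At (b t : L) : Set L := {x | b ⋖ x ∧ x ≤ t}

theorem fin_of_At {b t : L} (hf : (At b t).Finite) : {c | b ≤ c ∧ c ≤ t}.Finite := by
  apply Set.Finite.of_finite_image (f := fun c => {x ∈ At b t | x ≤ c})
  · exact hf.finite_subsets.subset (by rintro _ ⟨c, -, rfl⟩; exact Set.sep_subset _ _)
  · have aux : ∀ c c' : L, b ≤ c → c ≤ t → b ≤ c' →
        {x ∈ At b t | x ≤ c} = {x ∈ At b t | x ≤ c'} → c ≤ c' := by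
      intro c c' h1 h2 h3 heq
      by_contra hn
      obtain ⟨x, hx, hxc, hxn⟩ := rel_atom h1 h3 hn
      have : x ∈ {x ∈ At b t | x ≤ c} := ⟨⟨hx, hxc.trans h2⟩, hxc⟩
      rw [heq] at this
      exact hxn this.2
    intro c hc c' hc' heq
    exact le_antisymm (aux c c' hc.1 hc.2 hc'.1 heq) (aux c' c hc'.1 hc'.2 hc.1 heq.symm)

theorem fin_mat (ρ : L → ℕ) (hρ : StrictMono ρ) {b t : L} (hf : (At b t).Finite)
    (hnt : (At b t).Nontrivial) :
    ∃ g : L → L, (∀ x ∈ At b t, x ≤ g x ∧ g x ⋖ t) ∧ Set.InjOn g (At b t) := by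
  classical
  let Co : Finset L := (fin_of_At hf).toFinset.filter (fun h => h ⋖ t)
  have mCo : ∀ h, h ∈ Co ↔ b ≤ h ∧ h ⋖ t := by
    intro h
    simp only [Co, mem_filter, Set.Finite.mem_toFinset, Set.mem_setOf_eq]
    exact ⟨fun h => ⟨h.1.1, h.2⟩, fun h => ⟨⟨h.1, h.2.le⟩, h.2⟩⟩
  let F : At b t → Finset L := fun i => Co.filter (fun h => i.1 ≤ h)
  have hall : ∀ s : Finset (At b t), s.card ≤ (s.biUnion F).card := by
    intro s
    let S : Finset L := s.map (Function.Embedding.subtype _)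
    have hcard : S.card = s.card := card_map _
    have hS : ∀ a ∈ S, a ∈ At b t := by
      intro a ha
      obtain ⟨i, -, rfl⟩ := mem_map.1 ha
      exact i.2
    have hmem : ∀ a ∈ S, ∀ h, a ≤ h → h ⋖ t → h ∈ s.biUnion F := by
      intro a ha h h1 h2
      obtain ⟨i, hi, rfl⟩ := mem_map.1 ha
      exact mem_biUnion.2 ⟨i, hi, mem_filter.2 ⟨(mCo h).2 ⟨i.2.1.le.trans h1, h2⟩, h1⟩⟩
    rw [← hcard]
    by_cases h2 : 2 ≤ S.card
    · refine (card_le_hyp b S (fun a ha => (hS a ha).1) h2).trans ?_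
      have hex : ∀ T ∈ Hyp b S, ∃ h, sp b T ≤ h ∧ h ⋖ t ∧ ∃ a ∈ S, ¬ a ≤ h := by
        intro T hT
        obtain ⟨h1, h3, h4⟩ := mem_Hyp.1 hT
        obtain ⟨a, ha, haT⟩ : ∃ a ∈ S, a ∉ T := by
          by_contra hcon
          push Not at hcon
          exact h3.lt.not_ge (sp_mono hcon)
        obtain ⟨h, a1, a2, a3⟩ := coatom ρ hρ (b := b) (d := sp b T) (t := t) b_le_sp
          (sp_le ((hS a ha).1.le.trans (hS a ha).2) (fun c hc => (hS c (h1 hc)).2))
          (hS a ha).1 (hS a ha).2 (fun h => haT (h4 a ha h))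
        exact ⟨h, a1, a2, a, ha, a3⟩
      choose! k hk1 hk2 hk3 using hex
      have hT' : ∀ T ∈ Hyp b S, T = S.filter (fun a => a ≤ k T) := by
        intro T hT
        obtain ⟨h1, h3, h4⟩ := mem_Hyp.1 hT
        ext a
        simp only [mem_filter]
        refine ⟨fun ha => ⟨h1 ha, (le_sp ha).trans (hk1 T hT)⟩, fun ⟨ha, hle⟩ => h4 a ha ?_⟩
        rcases h3.eq_or_eq (c := k T ⊓ sp b S) (le_inf (hk1 T hT) h3.le) inf_le_right with h | h
        · exact h ▸ le_inf hle (le_sp ha)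
        · obtain ⟨a', ha', hn⟩ := hk3 T hT
          exact absurd ((le_sp ha').trans (h ▸ inf_le_left)) hn
      apply card_le_card_of_injOn k
      · intro T hT
        have hT0 : T ∈ Hyp b S := hT
        obtain ⟨h1, h3, h4⟩ := mem_Hyp.1 hT0
        obtain ⟨a, ha⟩ : T.Nonempty := by
          rw [nonempty_iff_ne_empty]
          rintro rfl
          obtain ⟨u, hu, v, hv, huv⟩ := one_lt_card.1 (by omega : 1 < S.card)
          have e : sp b ∅ = b := by simp [sp]
          rw [e] at h3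
          exact huv ((cov_eq (hS u hu).1 h3 (le_sp hu)).trans (cov_eq (hS v hv).1 h3 (le_sp hv)).symm)
        exact hmem a (h1 ha) _ ((le_sp ha).trans (hk1 T hT0)) (hk2 T hT0)
      · intro T hT T' hT2 heq
        rw [hT' T hT, hT' T' hT2, heq]
    · rcases S.eq_empty_or_nonempty with h | ⟨a, ha⟩
      · simp [h]
      · obtain ⟨z, hz, hza⟩ := hnt.exists_ne a
        obtain ⟨h, a1, a2, -⟩ := coatom ρ hρ (hS a ha).1.le (hS a ha).2 hz.1 hz.2
          (fun h => hza (cov_eq hz.1 (hS a ha).1 h))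
        have := card_pos.2 ⟨h, hmem a ha h a1 a2⟩
        omega
  obtain ⟨f, hf1, hf2⟩ := (Finset.all_card_le_biUnion_card_iff_exists_injective F).1 hall
  refine ⟨fun x => if h : x ∈ At b t then f ⟨x, h⟩ else x, fun x hx => ?_, fun x hx y hy h => ?_⟩
  · simp only [hx, dif_pos]
    have := mem_filter.1 (hf2 ⟨x, hx⟩)
    exact ⟨this.2, ((mCo _).1 this.1).2⟩
  · simp only [hx, hy, dif_pos] at h
    exact congrArg Subtype.val (hf1 h)

end H67.Geo
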