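import Pool.Agent.H67.Geo1

set_option autoImplicit false

namespace H67.Geo

open Cardinal

theorem greedy {ι α : Type} (κ : Cardinal) (hκ : ℵ₀ ≤ κ) (hι : #ι ≤ κ) (O : ι → Type)
    (c : ∀ i, O i → Set α) (hfin : ∀ i o, (c i o).Finite)
    (hdis : ∀ i o o', o ≠ o' → Disjoint (c i o) (c i o')) (hO : ∀ i, κ ≤ #(O i))
    (U : Set α) (hU : U.Finite) :
    ∃ f : ∀ i, O i, (∀ i, Disjoint (c i (f i)) U) ∧
      ∀ i j, i ≠ j → Disjoint (c i (f i)) (c j (f j)) := by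
  classical
  obtain ⟨r, wo, hr⟩ := Cardinal.exists_ord_eq ι
  have step : ∀ i (B : Set α), #B < κ → ∃ o, Disjoint (c i o) B := by
    intro i B hB
    by_contra hcon
    push Not at hcon
    have : ∀ o : O i, ∃ z : B, z.1 ∈ c i o := by
      intro o
      obtain ⟨z, h1, h2⟩ := Set.not_disjoint_iff.1 (hcon o)
      exact ⟨⟨z, h2⟩, h1⟩
    choose g hg using this
    have hinj : Function.Injective g := by
      intro o o' h
      by_contra hne
      exact Set.disjoint_left.1 (hdis i o o' hne) (hg o) (h ▸ hg o')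
    exact absurd ((hO i).trans (mk_le_of_injective hinj)) (not_le.2 hB)
  have small : ∀ i (p : ∀ j, r j i → O j),
      #((U ∪ ⋃ j : {j // r j i}, c j.1 (p j.1 j.2) : Set α)) < κ := by
    intro i p
    refine (mk_union_le _ _).trans_lt (add_lt_of_lt hκ (hU.lt_aleph0.trans_le hκ) ?_)
    have h1 : #{j // r j i} < κ := (card_typein_lt i hr).trans_le hι
    rcases hκ.eq_or_lt with h | h
    · rw [← h] at h1 ⊢
      have : Finite {j // r j i} := lt_aleph0_iff_finite.1 h1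
      exact (Set.finite_iUnion (fun j => hfin _ _)).lt_aleph0
    · refine (mk_iUnion_le_sum_mk).trans_lt ?_
      refine (sum_le_sum _ (fun _ => ℵ₀) (fun j => (hfin _ _).lt_aleph0.le)).trans_lt ?_
      rw [sum_const']
      exact mul_lt_of_lt hκ h1 h
  let F : ∀ i, (∀ j, r j i → O j) → O i := fun i p => (step i _ (small i p)).choose
  have hF : ∀ i p, Disjoint (c i (F i p)) (U ∪ ⋃ j : {j // r j i}, c j.1 (p j.1 j.2)) :=
    fun i p => (step i _ (small i p)).choose_spec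
  let f : ∀ i, O i := wo.wf.fix F
  have hf : ∀ i, f i = F i (fun j _ => f j) := fun i => wo.wf.fix_eq F i
  have h1 : ∀ i j, r j i → Disjoint (c i (f i)) (c j (f j)) := by
    intro i j hji
    have := hF i (fun j _ => f j)
    rw [← hf i] at this
    exact this.mono_right ((Set.subset_iUnion
      (fun j : {j // r j i} => c j.1 (f j.1)) ⟨j, hji⟩).trans Set.subset_union_right)
  refine ⟨f, fun i => ?_, fun i j hij => ?_⟩
  · have := hF i (fun j _ => f j)
    rw [← hf i] at this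
    exact this.mono_right Set.subset_union_left
  · rcases trichotomous_of r i j with h | h | h
    · exact (h1 j i h).symm
    · exact absurd h hij
    · exact h1 i j h

variable {L : Type} [CompleteLattice L] [IsAtomistic L] [IsUpperModularLattice L]

/-- maximal chain of a closed interval -/
def Sat (a c : L) (m : Set L) : Prop :=
  a ∈ m ∧ c ∈ m ∧ (∀ y ∈ m, a ≤ y ∧ y ≤ c) ∧ IsChain (· ≤ ·) m ∧
    ∀ z, a ≤ z → z ≤ c → (∀ y ∈ m, z ≤ y ∨ y ≤ z) → z ∈ m

omit [IsAtomistic L] [IsUpperModularLattice L] in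
theorem sat_refl (a : L) : Sat a a {a} := by
  refine ⟨rfl, rfl, ?_, Set.subsingleton_singleton.isChain, fun z h1 h2 _ => le_antisymm h2 h1⟩
  rintro y rfl
  exact ⟨le_rfl, le_rfl⟩

omit [IsAtomistic L] [IsUpperModularLattice L] in
theorem sat_bot {a a' c : L} {m : Set L} (h : a ⋖ a') (hm : Sat a' c m) :
    Sat a c (insert a m) := by
  obtain ⟨h1, h2, h3, h4, h5⟩ := hm
  refine ⟨Or.inl rfl, Or.inr h2, ?_, h4.insert (fun y hy _ => Or.inl (h.le.trans (h3 y hy).1)), ?_⟩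
  · rintro y (rfl | hy)
    · exact ⟨le_rfl, h.le.trans (h3 _ h1).2⟩
    · exact ⟨h.le.trans (h3 y hy).1, (h3 y hy).2⟩
  · intro z hz1 hz2 hz3
    rcases hz3 a' (Or.inr h1) with h' | h'
    · rcases h.eq_or_eq hz1 h' with e | e
      · exact Or.inl e
      · exact Or.inr (e ▸ h1)
    · exact Or.inr (h5 z h' hz2 (fun y hy => hz3 y (Or.inr hy)))

omit [IsAtomistic L] [IsUpperModularLattice L] in
theorem sat_top {a c c' : L} {m : Set L} (h : c ⋖ c') (hm : Sat a c m) :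
    Sat a c' (insert c' m) := by
  obtain ⟨h1, h2, h3, h4, h5⟩ := hm
  refine ⟨Or.inr h1, Or.inl rfl, ?_, h4.insert (fun y hy _ => Or.inr ((h3 y hy).2.trans h.le)), ?_⟩
  · rintro y (rfl | hy)
    · exact ⟨(h3 _ h1).2.trans h.le, le_rfl⟩
    · exact ⟨(h3 y hy).1, (h3 y hy).2.trans h.le⟩
  · intro z hz1 hz2 hz3
    rcases hz3 c (Or.inr h2) with h' | h'
    · exact Or.inr (h5 z hz1 h' (fun y hy => hz3 y (Or.inr hy)))
    · rcases h.eq_or_eq h' hz2 with e | e
      · exact Or.inr (e ▸ h2)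
      · exact Or.inl e

theorem exists_sat (ρ : L → ℕ) (hρ : StrictMono ρ) (c : L) :
    ∀ (n : ℕ) (a : L), ρ c - ρ a ≤ n → a ≤ c → ∃ m, Sat a c m := by
  intro n
  induction n with
  | zero =>
    intro a h1 h2
    rcases h2.eq_or_lt with rfl | h
    · exact ⟨_, sat_refl a⟩
    · have := hρ h; omega
  | succ n ih =>
    intro a h1 h2
    rcases h2.eq_or_lt with rfl | h
    · exact ⟨_, sat_refl a⟩
    · obtain ⟨x, hx, hxc, -⟩ := rel_atom h2 le_rfl h.not_ge
      have := hρ hx.lt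
      obtain ⟨m, hm⟩ := ih x (by omega) hxc
      exact ⟨_, sat_bot hx hm⟩

theorem ex_sat (ρ : L → ℕ) (hρ : StrictMono ρ) {a c : L} (h : a ≤ c) : ∃ m, Sat a c m :=
  exists_sat ρ hρ c _ a le_rfl h

omit [IsAtomistic L] [IsUpperModularLattice L] in
theorem sat_fin (ρ : L → ℕ) (hρ : StrictMono ρ) {a c : L} {m : Set L} (hm : Sat a c m) :
    m.Finite := by
  apply Set.Finite.of_finite_image (f := ρ)
  · exact (Set.finite_Iic (ρ ⊤)).subset (by rintro _ ⟨y, -, rfl⟩; exact hρ.monotone le_top)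
  · intro y hy z hz h
    by_contra hne
    rcases hm.2.2.2.1 hy hz hne with h' | h'
    · exact (hρ (lt_of_le_of_ne h' hne)).ne h
    · exact (hρ (lt_of_le_of_ne h' (Ne.symm hne))).ne h.symm

/-- family of disjoint maximal chains through all points -/
def Fam (b t : L) : Prop :=
  ∃ (m : L → Set L) (h : L → L), (∀ x ∈ At b t, Sat x (h x) (m x) ∧ h x ⋖ t) ∧
    ∀ x ∈ At b t, ∀ y ∈ At b t, x ≠ y → Disjoint (m x) (m y)

theorem case_one (ρ : L → ℕ) (hρ : StrictMono ρ) {b t : L} (hinf : (At b t).Infinite)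
    (ih : ∀ x ∈ At b t, (At x t).Infinite → Fam x t)
    (hbad : ∀ y ∈ At b t, ∀ z ∈ At b t, #(At y t) < #(At b t) → #(At z t) < #(At b t) → y = z) :
    Fam b t := by
  classical
  have hκ : ℵ₀ ≤ #(At b t) := infinite_iff.1 hinf.to_subtype
  have base : ∀ x ∈ At b t, ∃ m h, Sat x h m ∧ h ⋖ t := by
    intro x hx
    obtain ⟨z, hz, hzx⟩ := hinf.nontrivial.exists_ne x
    obtain ⟨h, a1, a2, -⟩ := coatom ρ hρ hx.1.le hx.2 hz.1 hz.2
      (fun h => hzx (cov_eq hz.1 hx.1 h))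
    obtain ⟨m, hm⟩ := ex_sat ρ hρ a1
    exact ⟨m, h, hm, a2⟩
  choose! m0 h0 hm0 hh0 using base
  let ι := {x // x ∈ At b t ∧ #(At b t) ≤ #(At x t)}
  have hfam : ∀ i : ι, Fam i.1 t := fun i =>
    ih i.1 i.2.1 (Set.infinite_coe_iff.1 (infinite_iff.2 (hκ.trans i.2.2)))
  choose m1 h1 hm1 hd1 using hfam
  let U : Set L := ⋃ y ∈ {y | y ∈ At b t ∧ #(At y t) < #(At b t)}, m0 y
  have hU : U.Finite := by
    apply Set.Finite.biUnion
    · apply Set.Subsingleton.finite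
      intro y hy z hz
      exact hbad y hy.1 z hz.1 hy.2 hz.2
    · intro y hy
      exact sat_fin ρ hρ (hm0 y hy.1)
  obtain ⟨f, hf1, hf2⟩ := greedy (ι := ι) (α := L) _ hκ
    (mk_le_mk_of_subset (s := {x | x ∈ At b t ∧ #(At b t) ≤ #(At x t)}) (fun x hx => hx.1))
    (fun i => At i.1 t) (fun i o => m1 i o.1) (fun i o => sat_fin ρ hρ (hm1 i o.1 o.2).1)
    (fun i o o' h => hd1 i o.1 o.2 o'.1 o'.2 (fun e => h (Subtype.ext e))) (fun i => i.2.2) U hU
  have nocov : ∀ i : ι, ∀ z ∈ m1 i (f i).1, ¬ b ⋖ z := by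
    intro i z hz hc
    have a1 := ((hm1 i _ (f i).2).1.2.2.1 z hz).1
    have a2 := (f i).2.1
    exact (a2.lt.trans_le a1).ne (cov_eq i.2.1.1 hc (a2.le.trans a1))
  refine ⟨fun x => if h : x ∈ At b t ∧ #(At b t) ≤ #(At x t) then
      insert x (m1 ⟨x, h⟩ (f ⟨x, h⟩).1) else m0 x,
    fun x => if h : x ∈ At b t ∧ #(At b t) ≤ #(At x t) then h1 ⟨x, h⟩ (f ⟨x, h⟩).1 else h0 x,
    fun x hx => ?_, fun x hx y hy hxy => ?_⟩
  · simp only
    split_ifs with h
    · exact ⟨sat_bot (f ⟨x, h⟩).2.1 (hm1 ⟨x, h⟩ _ (f ⟨x, h⟩).2).1, (hm1 ⟨x, h⟩ _ (f ⟨x, h⟩).2).2⟩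
    · exact ⟨hm0 x hx, hh0 x hx⟩
  · have mix : ∀ x y (h : x ∈ At b t ∧ #(At b t) ≤ #(At x t)), y ∈ At b t →
        ¬ (y ∈ At b t ∧ #(At b t) ≤ #(At y t)) → x ≠ y →
        Disjoint (insert x (m1 ⟨x, h⟩ (f ⟨x, h⟩).1)) (m0 y) := by
      intro x y h hy h' hxy
      rw [Set.disjoint_left]
      rintro z (rfl | hz) hz'
      · exact hxy (cov_eq hy.1 h.1.1 ((hm0 y hy).2.2.1 z hz').1).symm
      · exact Set.disjoint_left.1 (hf1 ⟨x, h⟩) hz
          (Set.mem_biUnion (s := {y | y ∈ At b t ∧ #(At y t) < #(At b t)})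
            ⟨hy, not_le.1 (fun e => h' ⟨hy, e⟩)⟩ hz')
    simp only
    split_ifs with h h' h'
    · rw [Set.disjoint_left]
      rintro z (rfl | hz) (e | hz')
      · exact hxy e
      · exact nocov ⟨y, h'⟩ z hz' hx.1
      · exact nocov ⟨x, h⟩ z hz (e ▸ hy.1)
      · exact Set.disjoint_left.1 (hf2 ⟨x, h⟩ ⟨y, h'⟩ (fun e => hxy (congrArg Subtype.val e))) hz hz'
    · exact mix x y h hy h' hxy
    · exact (mix y x h' hx h hxy.symm).symm
    · exact absurd (hbad x hx y hy (not_le.1 (fun e => h ⟨hx, e⟩)) (not_le.1 (fun e => h' ⟨hy, e⟩)))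
        hxy

end H67.Geo
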