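import Pool.Agent.H67.Geo2

set_option autoImplicit false

namespace H67.Geo

open Cardinal

variable {L : Type} [CompleteLattice L] [IsAtomistic L] [IsUpperModularLattice L]

omit [IsAtomistic L] in
theorem line_cov {b y z x : L} (hy : b ⋖ y) (hz : b ⋖ z) (hyz : y ≠ z) (hx : x ∈ At b (y ⊔ z)) :
    x ⋖ y ⊔ z := by
  have c1 : y ⋖ y ⊔ z := cov_sup hy.le hz (fun h => hyz (cov_eq hz hy h).symm)
  by_cases hxy : x = y
  · exact hxy ▸ c1
  · have c2 : y ⋖ y ⊔ x := cov_sup hy.le hx.1 (fun h => hxy (cov_eq hx.1 hy h))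
    have c3 : x ⋖ x ⊔ y := cov_sup hx.1.le hy (fun h => hxy (cov_eq hy hx.1 h).symm)
    have := cov_eq c2 c1 (sup_le le_sup_left hx.2)
    rw [← this, sup_comm]
    exact c3

/-- two chains inside the region reserved for `w` -/
def Pair (t l w x : L) (Q : L → Prop) : Prop :=
  ∃ (D C : Set L) (hD hC : L), Sat w hD D ∧ hD ⋖ t ∧ Sat x hC C ∧ hC ⋖ t ∧ Disjoint D C ∧
    ∀ F ∈ D ∪ C, F = w ∨ (x ≤ F ∧ ¬ l ≤ F) ∨ Q F

omit [IsAtomistic L] in
theorem assemble {b t l : L} (hlt : l ≤ t) (hl : ∀ x ∈ At b l, x ⋖ l) (hne : (At b l).Nonempty)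
    (x sp : L → L) (Z : Set L) (hx : ∀ w ∈ At b t, ¬ w ≤ l → x w ∈ At b l)
    (hxi : ∀ w ∈ At b t, ¬ w ≤ l → ∀ w' ∈ At b t, ¬ w' ≤ l → x w = x w' → w = w')
    (hsp : ∀ w ∈ Z, l ≤ sp w) (hspi : Set.InjOn sp Z)
    (hp : ∀ w ∈ At b t, ¬ w ≤ l → Pair t l w (x w) (fun F => w ∈ Z ∧ F = sp w))
    (hE : ∀ u ∈ At b l, ∃ m h, Sat u h m ∧ h ⋖ t ∧ ¬ l ≤ h) : Fam b t := by
  classical
  choose! D C hD hC p1 p2 p3 p4 p5 p6 using hp
  let T : L → Set L := fun w => {F | F = w ∨ (x w ≤ F ∧ ¬ l ≤ F) ∨ (w ∈ Z ∧ F = sp w)}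
  have zz : ∀ u ∈ At b l, ∀ v ∈ At b l, ∀ F, u ≤ F → v ≤ F → ¬ l ≤ F → u = v := by
    intro u hu v hv F h1 h2 h3
    by_contra hne
    have c : u ⋖ u ⊔ v := cov_sup hu.1.le hv.1 (fun h => hne (cov_eq hv.1 hu.1 h).symm)
    exact h3 (cov_eq c (hl u hu) (sup_le hu.2 hv.2) ▸ sup_le h1 h2)
  have wz : ∀ w ∈ At b t, ¬ w ≤ l → ∀ u ∈ At b l, ¬ u ≤ w := by
    intro w hw hn u hu h
    exact hn (cov_eq hu.1 hw.1 h ▸ hu.2)
  have wl : ∀ w ∈ At b t, ¬ w ≤ l → ¬ l ≤ w := by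
    intro w hw hn h
    obtain ⟨u, hu⟩ := hne
    exact wz w hw hn u hu (hu.2.trans h)
  have TZ : ∀ w ∈ At b t, ¬ w ≤ l → ∀ u ∈ At b l, x w ≠ u → ∀ F ∈ T w, u ≤ F → l ≤ F := by
    rintro w hw hn u hu hxu F (rfl | h | h) huF
    · exact absurd huF (wz _ hw hn u hu)
    · exact absurd (zz _ (hx w hw hn) u hu F h.1 huF h.2) hxu
    · exact h.2 ▸ hsp w h.1
  have TT : ∀ w ∈ At b t, ¬ w ≤ l → ∀ w' ∈ At b t, ¬ w' ≤ l → w ≠ w' → Disjoint (T w) (T w') := by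
    intro w hw hn w' hw' hn' hne
    have hxx : x w ≠ x w' := fun e => hne (hxi w hw hn w' hw' hn' e)
    rw [Set.disjoint_left]
    intro F h h'
    rcases h' with rfl | h' | h'
    · rcases h with e | h | h
      · exact hne e.symm
      · exact wz _ hw' hn' _ (hx w hw hn) h.1
      · exact wl _ hw' hn' (h.2 ▸ hsp w h.1)
    · exact h'.2 (TZ w hw hn _ (hx w' hw' hn') hxx F h h'.1)
    · rcases h with e | h | h
      · exact wl _ hw hn (e ▸ h'.2 ▸ hsp w' h'.1)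
      · exact h.2 (h'.2 ▸ hsp w' h'.1)
      · exact hne (hspi h.1 h'.1 (h.2.symm.trans h'.2))
  have DT : ∀ w ∈ At b t, ¬ w ≤ l → D w ⊆ T w := fun w hw hn F hF => p6 w hw hn F (Or.inl hF)
  have CT : ∀ w ∈ At b t, ¬ w ≤ l → C w ⊆ T w := fun w hw hn F hF => p6 w hw hn F (Or.inr hF)
  have hC' : ∀ u ∈ At b l, ∃ m h, (Sat u h m ∧ h ⋖ t) ∧
      ((∃ w ∈ At b t, ¬ w ≤ l ∧ x w = u ∧ m = C w) ∨
        ((∀ w ∈ At b t, ¬ w ≤ l → x w ≠ u) ∧ ∀ F ∈ m, u ≤ F ∧ ¬ l ≤ F)) := by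
    intro u hu
    by_cases h : ∃ w ∈ At b t, ¬ w ≤ l ∧ x w = u
    · obtain ⟨w, hw, hn, e⟩ := h
      exact ⟨C w, hC w, ⟨e ▸ p3 w hw hn, p4 w hw hn⟩, Or.inl ⟨w, hw, hn, e, rfl⟩⟩
    · push Not at h
      obtain ⟨m, k, a1, a2, a3⟩ := hE u hu
      exact ⟨m, k, ⟨a1, a2⟩, Or.inr ⟨h, fun F hF =>
        ⟨(a1.2.2.1 F hF).1, fun e => a3 (e.trans (a1.2.2.1 F hF).2)⟩⟩⟩
  choose! E hE' q1 q2 using hC'
  have mix : ∀ u ∈ At b l, ∀ w ∈ At b t, ¬ w ≤ l → Disjoint (E u) (D w) := by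
    intro u hu w hw hn
    rcases q2 u hu with ⟨w', hw', hn', e1, e2⟩ | ⟨a1, a2⟩
    · rw [e2]
      by_cases e : w' = w
      · rw [e]; exact (p5 w hw hn).symm
      · exact (TT w' hw' hn' w hw hn e).mono (CT w' hw' hn') (DT w hw hn)
    · rw [Set.disjoint_left]
      intro F h h'
      exact (a2 F h).2 (TZ w hw hn u hu (a1 w hw hn) F (DT w hw hn h') (a2 F h).1)
  refine ⟨fun u => if u ≤ l then E u else D u, fun u => if u ≤ l then hE' u else hD u,
    fun u hu => ?_, fun u hu v hv huv => ?_⟩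
  · simp only
    split_ifs with h
    · exact q1 u ⟨hu.1, h⟩
    · exact ⟨p1 u hu h, p2 u hu h⟩
  · simp only
    split_ifs with h h' h'
    · have hu' : u ∈ At b l := ⟨hu.1, h⟩
      have hv' : v ∈ At b l := ⟨hv.1, h'⟩
      rcases q2 u hu' with ⟨w, hw, hn, e1, e2⟩ | ⟨a1, a2⟩
      · rcases q2 v hv' with ⟨w', hw', hn', e1', e2'⟩ | ⟨a1', a2'⟩
        · rw [e2, e2']
          exact (TT w hw hn w' hw' hn' (fun e => huv (by rw [← e1, ← e1', e]))).mono
            (CT w hw hn) (CT w' hw' hn')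
        · rw [e2, Set.disjoint_left]
          intro F h h'
          exact (a2' F h').2 (TZ w hw hn v hv' (a1' w hw hn) F (CT w hw hn h) (a2' F h').1)
      · rcases q2 v hv' with ⟨w', hw', hn', e1', e2'⟩ | ⟨a1', a2'⟩
        · rw [e2', Set.disjoint_left]
          intro F h h'
          exact (a2 F h).2 (TZ w' hw' hn' u hu' (a1 w' hw' hn') F (CT w' hw' hn' h') (a2 F h).1)
        · rw [Set.disjoint_left]
          intro F h h'
          exact huv (zz u hu' v hv' F (a2 F h).1 (a2' F h').1 (a2 F h).2)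
    · exact mix u ⟨hu.1, h⟩ v hv h'
    · exact (mix v ⟨hv.1, h'⟩ u hu h).symm
    · exact (TT u hu h v hv h' huv).mono (DT u hu h) (DT v hv h')

omit [IsAtomistic L] [IsUpperModularLattice L] in
theorem inj_two {b t y z : L} (hcov : ∀ {d x : L}, b ≤ d → b ⋖ x → ¬ x ≤ d → d ⋖ d ⊔ x)
    (hinf : (At b t).Infinite) (hy : y ∈ At b t) (hz : z ∈ At b t)
    (hyz : y ≠ z) (h1 : #(At y t) < #(At b t)) (h2 : #(At z t) < #(At b t)) :
    ∃ φ : L → Bool → L, (∀ w ∈ At b t, ¬ w ≤ y ⊔ z → ∀ i, φ w i ∈ At b (y ⊔ z)) ∧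
      ∀ w ∈ At b t, ¬ w ≤ y ⊔ z → ∀ w' ∈ At b t, ¬ w' ≤ y ⊔ z → ∀ i j, φ w i = φ w' j →
        w = w' ∧ i = j := by
  classical
  have hκ : ℵ₀ ≤ #(At b t) := infinite_iff.1 hinf.to_subtype
  let Y : Set L := {w | w ∈ At b t ∧ ¬ w ≤ y ⊔ z}
  have c1 : y ⋖ y ⊔ z := hcov hy.1.le hz.1 (fun h => hyz (cov_eq hz.1 hy.1 h).symm)
  have hyw : ∀ w : Y, y ⋖ y ⊔ w.1 := fun w =>
    hcov hy.1.le w.2.1.1 (fun h => w.2.2 (h.trans le_sup_left))
  have hzw : ∀ w : Y, z ⋖ z ⊔ w.1 := fun w =>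
    hcov hz.1.le w.2.1.1 (fun h => w.2.2 (h.trans le_sup_right))
  let f : Y → At y t × At z t := fun w =>
    (⟨y ⊔ w.1, hyw w, sup_le hy.2 w.2.1.2⟩, ⟨z ⊔ w.1, hzw w, sup_le hz.2 w.2.1.2⟩)
  have hf : Function.Injective f := by
    intro w w' h
    by_contra hne
    have e1 : y ⊔ w.1 = y ⊔ w'.1 := congrArg (fun p => p.1.1) h
    have e2 : z ⊔ w.1 = z ⊔ w'.1 := congrArg (fun p => p.2.1) h
    have a0 : w.1 ⋖ w.1 ⊔ w'.1 := hcov w.2.1.1.le w'.2.1.1
      (fun e => hne (Subtype.ext (cov_eq w'.2.1.1 w.2.1.1 e).symm))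
    have a1 : w.1 ⋖ w.1 ⊔ y := hcov w.2.1.1.le hy.1
      (fun e => w.2.2 (cov_eq hy.1 w.2.1.1 e ▸ le_sup_left))
    have a2 : w.1 ⋖ w.1 ⊔ z := hcov w.2.1.1.le hz.1
      (fun e => w.2.2 (cov_eq hz.1 w.2.1.1 e ▸ le_sup_right))
    have b1 := cov_eq a0 a1 (sup_le le_sup_left (by rw [sup_comm, e1]; exact le_sup_right))
    have b2 := cov_eq a0 a2 (sup_le le_sup_left (by rw [sup_comm, e2]; exact le_sup_right))
    have b3 : z ≤ y ⊔ w.1 := by rw [sup_comm, ← b1, b2]; exact le_sup_right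
    have := cov_eq c1 (hyw w) (sup_le le_sup_left b3)
    exact w.2.2 (this ▸ le_sup_right)
  have hY : #Y < #(At b t) := by
    refine (mk_le_of_injective hf).trans_lt ?_
    rw [mk_prod, lift_id, lift_id]
    exact mul_lt_of_lt hκ h1 h2
  have hA : #(At b t) ≤ #(At b (y ⊔ z)) := by
    by_contra hlt
    have : At b t ⊆ Y ∪ At b (y ⊔ z) := by
      intro w hw
      by_cases h : w ≤ y ⊔ z
      · exact Or.inr ⟨hw.1, h⟩
      · exact Or.inl ⟨hw, h⟩
    exact absurd ((mk_le_mk_of_subset this).trans (mk_union_le _ _))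
      (not_le.2 (add_lt_of_lt hκ hY (not_le.1 hlt)))
  have hB : #(Y × Bool) ≤ #(At b (y ⊔ z)) := by
    refine le_trans (le_of_lt ?_) hA
    rw [mk_prod, lift_id, lift_id]
    exact mul_lt_of_lt hκ hY ((lt_aleph0_of_finite Bool).trans_le hκ)
  obtain ⟨e⟩ := hB
  refine ⟨fun w i => if h : w ∈ Y then (e (⟨w, h⟩, i)).1 else w, fun w hw hn i => ?_,
    fun w hw hn w' hw' hn' i j h => ?_⟩
  · have hm : w ∈ Y := ⟨hw, hn⟩
    simp only [hm, dif_pos]
    exact (e _).2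
  · have hm : w ∈ Y := ⟨hw, hn⟩
    have hm' : w' ∈ Y := ⟨hw', hn'⟩
    simp only [hm, hm', dif_pos] at h
    have := e.injective (Subtype.ext h)
    exact ⟨congrArg (fun p => p.1.1) this, congrArg (fun p => p.2) this⟩

theorem case_two (ρ : L → ℕ) (hρ : StrictMono ρ) {b t y z : L} (hinf : (At b t).Infinite)
    (ih : ∀ P, b ≤ P → P < t → (At b P).Infinite → Fam b P)
    (hy : y ∈ At b t) (hz : z ∈ At b t)
    (hyz : y ≠ z) (h1 : #(At y t) < #(At b t)) (h2 : #(At z t) < #(At b t)) : Fam b t := by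
  classical
  obtain ⟨φ, hφ, hφi⟩ := inj_two (fun a1 a2 a3 => cov_sup a1 a2 a3) hinf hy hz hyz h1 h2
  set l := y ⊔ z with hl
  have hlt : l ≤ t := sup_le hy.2 hz.2
  have hlc : ∀ x ∈ At b l, x ⋖ l := fun x hx => line_cov hy.1 hz.1 hyz hx
  have hyl : y ∈ At b l := ⟨hy.1, le_sup_left⟩
  have hzl : z ∈ At b l := ⟨hz.1, le_sup_right⟩
  have join : ∀ u ∈ At b l, ∀ v ∈ At b l, u ≠ v → u ⊔ v = l := by
    intro u hu v hv hne
    have c : u ⋖ u ⊔ v := cov_sup hu.1.le hv.1 (fun h => hne (cov_eq hv.1 hu.1 h).symm)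
    exact cov_eq c (hlc u hu) (sup_le hu.2 hv.2)
  have other : ∀ u, ∃ v ∈ At b l, u ≠ v := by
    intro u
    by_cases h : u = y
    · exact ⟨z, hzl, h ▸ hyz⟩
    · exact ⟨y, hyl, h⟩
  obtain ⟨H0, a1, a2, a3⟩ := coatom ρ hρ hy.1.le hy.2 hz.1 hz.2
    (fun h => hyz (cov_eq hz.1 hy.1 h).symm)
  obtain ⟨P, b1, b2, b3⟩ := coatom ρ hρ (b := b) (d := b) (t := H0) le_rfl (hy.1.le.trans a1)
    hy.1 a1 hy.1.lt.not_ge
  have e1 : P ⊔ y = H0 := cov_eq (cov_sup b1 hy.1 b3) b2 (sup_le b2.le a1)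
  have e2 : P ⊔ l = t := by
    rw [hl, ← sup_assoc, e1]
    exact cov_eq (cov_sup (hy.1.le.trans a1) hz.1 a3) a2 (sup_le a2.le hz.2)
  have hPt : P ≤ t := b2.le.trans a2.le
  have xP : ∀ x ∈ At b l, ¬ x ≤ P := by
    intro x hx h
    have : x ≠ y := fun e => b3 (e ▸ h)
    apply a3
    refine hzl.2.trans ?_
    rw [← join x hx y hyl this, ← e1]
    exact sup_le_sup_right h y
  have PH : ∀ x ∈ At b l, P ⋖ P ⊔ x := fun x hx => cov_sup b1 hx.1 (xP x hx)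
  have Ht : ∀ x ∈ At b l, P ⊔ x ⋖ t := by
    intro x hx
    by_cases h : x = y
    · rw [h, e1]; exact a2
    · have : ¬ y ≤ P ⊔ x := by
        intro hh
        have := cov_eq (PH y hyl) (PH x hx) (sup_le le_sup_left hh)
        apply a3
        refine hzl.2.trans ?_
        rw [← join x hx y hyl h, ← e1]
        exact sup_le (this ▸ le_sup_right) le_sup_right
      have c := cov_sup (b1.trans le_sup_left) hy.1 this
      rwa [sup_assoc, join x hx y hyl h, e2] at c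
  have lH : ∀ x ∈ At b l, ¬ l ≤ P ⊔ x := by
    intro x hx h
    exact (Ht x hx).lt.not_ge (e2 ▸ sup_le le_sup_left h)
  have wx : ∀ w ∈ At b t, ¬ w ≤ l → ∀ x ∈ At b l, w ⋖ w ⊔ x := by
    intro w hw hn x hx
    exact cov_sup hw.1.le hx.1 (fun h => hn (cov_eq hx.1 hw.1 h ▸ hx.2))
  -- points outside `P`
  have caseA : ∀ w ∈ At b t, ¬ w ≤ l → ∀ x ∈ At b l, ¬ w ≤ P ⊔ x → ∀ Q, Pair t l w x Q := by
    intro w hw hn x hx hwx Q
    obtain ⟨v, hv, hxv⟩ := other x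
    have c : x ⋖ x ⊔ w := cov_sup hx.1.le hw.1 (fun h => hn (h.trans hx.2))
    have hv' : ¬ v ≤ w ⊔ x := by
      intro h
      have := cov_eq (hlc x hx) c (by
        rw [← join x hx v hv hxv]; exact sup_le le_sup_left (by rwa [sup_comm]))
      exact hn (this ▸ le_sup_right)
    obtain ⟨k, k1, k2, k3⟩ := coatom ρ hρ (hw.1.le.trans le_sup_left)
      (sup_le hw.2 (hx.2.trans hlt)) hv.1 (hv.2.trans hlt) hv'
    obtain ⟨m, hm⟩ := ex_sat ρ hρ k1
    obtain ⟨m', hm'⟩ := ex_sat ρ hρ (le_sup_right : x ≤ P ⊔ x)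
    have hD := sat_bot (wx w hw hn x hx) hm
    refine ⟨_, _, _, _, hD, k2, hm', Ht x hx, ?_, ?_⟩
    · rw [Set.disjoint_left]
      intro F h h'
      exact hwx ((hD.2.2.1 F h).1.trans (hm'.2.2.1 F h').2)
    · rintro F ((rfl | h) | h)
      · exact Or.inl rfl
      · exact Or.inr (Or.inl ⟨le_sup_right.trans (hm.2.2.1 F h).1,
          fun e => k3 (hv.2.trans (e.trans (hm.2.2.1 F h).2))⟩)
      · exact Or.inr (Or.inl ⟨(hm'.2.2.1 F h).1, fun e => lH x hx (e.trans (hm'.2.2.1 F h).2)⟩)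
  have wl : ∀ w ∈ At b P, ¬ w ≤ l := fun w hw h => xP w ⟨hw.1, h⟩ hw.2
  -- points inside `P`
  have caseB : ∃ sp : L → L, (∀ w ∈ At b P, l ≤ sp w) ∧ Set.InjOn sp (At b P) ∧
      ∀ w ∈ At b P, ∀ x ∈ At b l, Pair t l w x (fun F => w ∈ At b P ∧ F = sp w) := by
    rcases (At b P).subsingleton_or_nontrivial with hs | hs
    · refine ⟨fun _ => l, fun _ _ => le_rfl, hs.injOn _, fun w hw x hx => ?_⟩
      have hw' : w ∈ At b t := ⟨hw.1, hw.2.trans hPt⟩
      have e : P = w := by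
        refine le_antisymm ?_ hw.2
        by_contra hn
        obtain ⟨u, u1, u2, u3⟩ := rel_atom b1 hw.1.le hn
        exact u3 (hs ⟨u1, u2⟩ hw).le
      have c : l ⋖ t := by
        have := cov_sup (hyl.1.le.trans hyl.2) hw.1 (wl w hw)
        rwa [sup_comm, ← e, e2] at this
      have hD := sat_bot (wx w hw' (wl w hw) x hx) (sat_refl _)
      have hC := sat_bot (hlc x hx) (sat_refl _)
      refine ⟨_, _, _, _, hD, e ▸ Ht x hx, hC, c, ?_, ?_⟩
      · rw [Set.disjoint_left]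
        intro F h h'
        exact wl w hw ((hD.2.2.1 F h).1.trans (hC.2.2.1 F h').2)
      · rintro F ((rfl | rfl) | (rfl | rfl))
        · exact Or.inl rfl
        · exact Or.inr (Or.inl ⟨le_sup_right, e ▸ lH x hx⟩)
        · exact Or.inr (Or.inl ⟨le_rfl, (hlc _ hx).lt.not_ge⟩)
        · exact Or.inr (Or.inr ⟨hw, rfl⟩)
    · obtain ⟨g, hg, hgi⟩ : ∃ g : L → L, (∀ x ∈ At b P, x ≤ g x ∧ g x ⋖ P) ∧
          Set.InjOn g (At b P) := by
        rcases (At b P).finite_or_infinite with hf | hf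
        · exact fin_mat ρ hρ hf hs
        · obtain ⟨m, h, c1, c2⟩ := ih P b1 (b2.lt.trans a2.lt) hf
          refine ⟨h, fun x hx => ⟨((c1 x hx).1.2.2.1 _ (c1 x hx).1.1).2, (c1 x hx).2⟩, ?_⟩
          intro u hu v hv e
          by_contra hne
          exact Set.disjoint_left.1 (c2 u hu v hv hne) (c1 u hu).1.2.1 (e ▸ (c1 v hv).1.2.1)
      have gx : ∀ w ∈ At b P, ∀ x ∈ At b l, g w ⊔ x ⋖ g w ⊔ l := by
        intro w hw x hx
        obtain ⟨v, hv, hxv⟩ := other x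
        have : ¬ v ≤ g w ⊔ x := by
          intro h
          apply lH x hx
          rw [← join x hx v hv hxv]
          exact sup_le le_sup_right (h.trans (sup_le_sup_right (hg w hw).2.le x))
        have c := cov_sup (hx.1.le.trans le_sup_right) hv.1 this
        rwa [sup_assoc, join x hx v hv hxv] at c
      have Pg : ∀ w ∈ At b P, ¬ P ≤ g w ⊔ l := by
        intro w hw h
        have e3 : g w ⊔ l = t := le_antisymm (sup_le ((hg w hw).2.le.trans hPt) hlt)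
          (e2 ▸ sup_le h le_sup_right)
        have c := gx w hw y hyl
        rw [e3] at c
        have c' : g w ⋖ g w ⊔ y := cov_sup (hw.1.le.trans (hg w hw).1) hy.1
          (fun e => b3 (e.trans (hg w hw).2.le))
        rcases c.eq_or_eq (sup_le_sup_right (hg w hw).2.le y) (Ht y hyl).le with e | e
        · have := cov_eq (hg w hw).2 c' (e ▸ le_sup_left)
          exact b3 (this ▸ le_sup_right)
        · exact (Ht y hyl).ne e
      have gi : ∀ w ∈ At b P, (g w ⊔ l) ⊓ P = g w := by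
        intro w hw
        rcases (hg w hw).2.eq_or_eq (c := (g w ⊔ l) ⊓ P) (le_inf le_sup_left (hg w hw).2.le)
          inf_le_right with e | e
        · exact e
        · exact absurd (e ▸ inf_le_left) (Pg w hw)
      refine ⟨fun w => g w ⊔ l, fun _ _ => le_sup_right, fun u hu v hv e => hgi hu hv ?_,
        fun w hw x hx => ?_⟩
      · rw [← gi u hu, ← gi v hv]
        exact congrArg (· ⊓ P) e
      have hw' : w ∈ At b t := ⟨hw.1, hw.2.trans hPt⟩
      have hbg : b ≤ g w := hw.1.le.trans (hg w hw).1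
      obtain ⟨p, p1, p2, p3⟩ := rel_atom b1 hbg (hg w hw).2.lt.not_ge
      have e3 : g w ⊔ p = P := cov_eq (cov_sup hbg p1 p3) (hg w hw).2 (sup_le (hg w hw).2.le p2)
      have pn : ¬ p ≤ g w ⊔ l := fun h => Pg w hw (e3 ▸ sup_le le_sup_left h)
      have c : g w ⊔ l ⋖ t := by
        have := cov_sup (hbg.trans le_sup_left) p1 pn
        rwa [sup_right_comm, e3, e2] at this
      obtain ⟨m, hm⟩ := ex_sat ρ hρ (sup_le_sup_right (hg w hw).1 x)
      obtain ⟨m', hm'⟩ := ex_sat ρ hρ (sup_le_sup_right p2 x)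
      have cx : x ⋖ p ⊔ x := by
        rw [sup_comm]
        exact cov_sup hx.1.le p1 (fun h => xP x hx (cov_eq p1 hx.1 h ▸ p2))
      have hD := sat_top (gx w hw x hx) (sat_bot (wx w hw' (wl w hw) x hx) hm)
      have hC := sat_bot cx hm'
      refine ⟨_, _, _, _, hD, c, hC, Ht x hx, ?_, ?_⟩
      · rw [Set.disjoint_left]
        rintro F h (rfl | h')
        · exact wl w hw ((hD.2.2.1 F h).1.trans hx.2)
        · exact pn ((le_sup_left.trans (hm'.2.2.1 F h').1).trans (hD.2.2.1 F h).2)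
      · rintro F ((rfl | rfl | h) | h)
        · exact Or.inr (Or.inr ⟨hw, rfl⟩)
        · exact Or.inl rfl
        · exact Or.inr (Or.inl ⟨le_sup_right.trans (hm.2.2.1 F h).1, fun e => lH x hx
            (e.trans ((hm.2.2.1 F h).2.trans (sup_le_sup_right (hg w hw).2.le x)))⟩)
        · exact Or.inr (Or.inl ⟨(hC.2.2.1 F h).1, fun e => lH x hx (e.trans (hC.2.2.1 F h).2)⟩)
  obtain ⟨sp, s1, s2, s3⟩ := caseB
  have pick : ∀ w ∈ At b t, ¬ w ≤ l → ∃ i, Pair t l w (φ w i) (fun F => w ∈ At b P ∧ F = sp w) := by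
    intro w hw hn
    by_cases hP : w ≤ P
    · exact ⟨true, s3 w ⟨hw.1, hP⟩ _ (hφ w hw hn true)⟩
    · by_cases h : w ≤ P ⊔ φ w true
      · refine ⟨false, caseA w hw hn _ (hφ w hw hn false) (fun h' => ?_) _⟩
        have c := cov_sup b1 hw.1 hP
        have f1 := cov_eq c (PH _ (hφ w hw hn true)) (sup_le le_sup_left h)
        have f2 := cov_eq c (PH _ (hφ w hw hn false)) (sup_le le_sup_left h')
        apply lH _ (hφ w hw hn true)
        rw [← join _ (hφ w hw hn true) _ (hφ w hw hn false)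
          (fun e => by simpa using (hφi w hw hn w hw hn _ _ e).2)]
        exact sup_le le_sup_right (by rw [← f1, f2]; exact le_sup_right)
      · exact ⟨true, caseA w hw hn _ (hφ w hw hn true) h _⟩
  choose! i hi using pick
  refine assemble hlt hlc ⟨y, hyl⟩ (fun w => φ w (i w)) sp (At b P) (fun w hw hn => hφ w hw hn _)
    (fun w hw hn w' hw' hn' e => (hφi w hw hn w' hw' hn' _ _ e).1) s1 s2 hi (fun u hu => ?_)
  obtain ⟨m, hm⟩ := ex_sat ρ hρ (le_sup_right : u ≤ P ⊔ u)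
  exact ⟨m, _, hm, Ht u hu, lH u hu⟩

theorem fam_all (ρ : L → ℕ) (hρ : StrictMono ρ) :
    ∀ (n : ℕ) (b t : L), ρ t - ρ b ≤ n → (At b t).Infinite → Fam b t := by
  intro n
  induction n with
  | zero =>
    intro b t h hinf
    obtain ⟨x, hx⟩ := hinf.nonempty
    have := hρ (hx.1.lt.trans_le hx.2)
    omega
  | succ n ih =>
    intro b t h hinf
    by_cases hbad : ∀ y ∈ At b t, ∀ z ∈ At b t, #(At y t) < #(At b t) → #(At z t) < #(At b t) →
        y = z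
    · refine case_one ρ hρ hinf (fun x hx hi => ih x t ?_ hi) hbad
      have := hρ hx.1.lt
      omega
    · push Not at hbad
      obtain ⟨y, hy, z, hz, h1, h2, hyz⟩ := hbad
      refine case_two ρ hρ hinf (fun P a1 a2 hi => ih b P ?_ hi) hy hz hyz h1 h2
      have := hρ a2
      omega

end H67.Geo
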