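import Pool.Agent.H67.SD

namespace Pool.Agent.H67.HallTower

open Pool.Agent.H67.SD Matrix

instance : Fact (Nat.Prime 23) := ⟨by norm_num⟩

abbrev K := Multiplicative (ZMod 5)

def s (k : K) (i : Fin 6) : Fin 6 :=
  if i.val < 5 then ⟨(i.val + (Multiplicative.toAdd k).val) % 5, by omega⟩ else i

theorem s_one : ∀ i, s 1 i = i := by decide
theorem s_mul : ∀ a b i, s (a * b) i = s a (s b i) := by decide
theorem s_inv : ∀ a i j, i = s a j ↔ s a⁻¹ i = j := by decide
theorem s_five : ∀ a, s a 5 = 5 := by decide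
theorem s_fix : ∀ a i, i = s a i → a = 1 ∨ i = 5 := by decide
theorem s_zero : ∀ a, 0 = s a 0 → a = 1 := by decide

def V := Fin 6 → ZMod 11

instance : AddCommGroup V := inferInstanceAs (AddCommGroup (Fin 6 → ZMod 11))
instance : Finite V := inferInstanceAs (Finite (Fin 6 → ZMod 11))

instance : DistribMulAction K V where
  smul k v := fun i => v (s k⁻¹ i)
  one_smul v := funext fun i => congrArg v (s_one i)
  mul_smul a b v := funext fun i => congrArg v (by rw [_root_.mul_inv_rev, s_mul])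
  smul_zero _ := rfl
  smul_add _ _ _ := rfl

theorem smul_app (k : K) (v : V) (i : Fin 6) : (k • v) i = v (s k⁻¹ i) := rfl
theorem add_app (u v : V) (i : Fin 6) : (u + v) i = u i + v i := rfl

def w (a : ZMod 11) : ZMod 23 := 2 ^ a.val

theorem w_add : ∀ a b, w (a + b) = w a * w b := by decide
theorem w_inj : ∀ a, w a = 1 → a = 0 := by decide
theorem w_ne : ∀ a, w a ≠ 0 := by decide

def mono (a : Aff V K) : Matrix (Fin 6) (Fin 6) (ZMod 23) :=
  fun i j => if i = s a.g j then w (a.v i) else 0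

def φ0 : Aff V K →* Matrix (Fin 6) (Fin 6) (ZMod 23) where
  toFun := mono
  map_one' := by
    ext i j
    simp only [mono, one_g, s_one, one_v, Matrix.one_apply]
    rfl
  map_mul' a b := by
    ext i k
    rw [Matrix.mul_apply, Finset.sum_eq_single (s b.g k)]
    · simp only [mono, mul_g, mul_v, s_mul, if_true, add_app, smul_app, w_add]
      split_ifs with h
      · rw [(s_inv _ _ _).1 h]
      · simp
    · intro j _ hj
      simp [mono, hj]
    · simp

abbrev G := GL (Fin 6) (ZMod 23)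

def φ : Aff V K →* G := φ0.toHomUnits

theorem φ_val (a : Aff V K) : (φ a).val = mono a := rfl

theorem φ_inj : Function.Injective φ := by
  rw [injective_iff_map_eq_one]
  intro a ha
  have h1 : mono a = 1 := congrArg Units.val ha
  have h2 : ∀ i, i = s a.g i ∧ a.v i = 0 := by
    intro i
    have h3 := congrFun (congrFun h1 i) i
    simp only [mono, Matrix.one_apply_eq] at h3
    split_ifs at h3 with h
    · exact ⟨h, w_inj _ h3⟩
    · exact absurd h3 (by decide)
  ext
  · exact funext fun i => (h2 i).2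
  · exact congrArg Multiplicative.toAdd (s_zero _ (h2 0).1)

theorem cardV : Nat.card V = 11 ^ 6 := by
  show Nat.card (Fin 6 → ZMod 11) = _
  simp [Nat.card_eq_fintype_card]

theorem cardA : Nat.card (Aff V K) = 11 ^ 6 * 5 := by
  rw [card_eq, cardV]
  simp [Nat.card_eq_fintype_card]

def H : Subgroup G := φ.range

theorem cardH : Nat.card H = 11 ^ 6 * 5 := by
  rw [← cardA]
  exact (Nat.card_congr (MonoidHom.ofInjective φ_inj).toEquiv).symm

theorem cardG : Nat.card G = ∏ i : Fin 6, (23 ^ 6 - 23 ^ i.val) := by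
  rw [Matrix.card_GL_field]
  simp

theorem hall : Nat.Coprime (Nat.card H) H.index := by
  have h1 := Subgroup.card_mul_index H
  rw [cardG, cardH] at h1
  have h2 : H.index = (∏ i : Fin 6, (23 ^ 6 - 23 ^ i.val)) / (11 ^ 6 * 5) := by
    rw [← h1, Nat.mul_div_cancel_left _ (by norm_num)]
  rw [cardH, h2]
  decide +kernel

def N1 : Subgroup H := (proj : Aff V K →* K).ker.map φ.rangeRestrict

theorem N1_normal : N1.Normal :=
  Subgroup.Normal.map inferInstance _ φ.rangeRestrict_surjective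

theorem cardN1 : Nat.card N1 = 11 ^ 6 := by
  have h0 : Function.Injective φ.rangeRestrict := by
    intro a b h
    exact φ_inj (congrArg Subtype.val h)
  have h1 : Nat.card N1 = Nat.card (proj : Aff V K →* K).ker :=
    Subgroup.card_map_of_injective h0
  have h2 := Subgroup.card_mul_index (proj : Aff V K →* K).ker
  have h3 : (proj : Aff V K →* K).range = ⊤ :=
    MonoidHom.range_eq_top.2 fun k => ⟨inr k, rfl⟩
  rw [Subgroup.index_ker, h3, cardA, Subgroup.card_top] at h2
  have h4 : Nat.card K = 5 := by simp [Nat.card_eq_fintype_card]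
  rw [h4] at h2
  rw [h1]
  omega

theorem tower : ∃ (n : ℕ) (N : ℕ → Subgroup H), N 0 = ⊥ ∧ N n = ⊤ ∧
    (∀ i, i < n → N i ≤ N (i + 1) ∧ (N (i + 1)).Normal ∧
      ∃ p : ℕ, p.Prime ∧
        Nat.card (N (i + 1)) = Nat.card (N i) * p ^ (Nat.card H).factorization p) := by
  have f1 : (11 ^ 6 * 5).factorization 11 = 6 := by
    rw [Nat.factorization_mul (by norm_num) (by norm_num), Nat.Prime.factorization_pow (by norm_num),
      Nat.Prime.factorization (by norm_num)]
    simp
  have f2 : (11 ^ 6 * 5).factorization 5 = 1 := by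
    rw [Nat.factorization_mul (by norm_num) (by norm_num), Nat.Prime.factorization_pow (by norm_num),
      Nat.Prime.factorization (by norm_num)]
    simp
  refine ⟨2, fun i => match i with | 0 => ⊥ | 1 => N1 | _ => ⊤, rfl, rfl, ?_⟩
  intro i hi
  interval_cases i
  · refine ⟨bot_le, N1_normal, 11, by norm_num, ?_⟩
    show Nat.card N1 = Nat.card (⊥ : Subgroup H) * _
    rw [cardN1, cardH, f1, Subgroup.card_bot, one_mul]
  · refine ⟨le_top, Subgroup.normal_top, 5, by norm_num, ?_⟩
    show Nat.card (⊤ : Subgroup H) = Nat.card N1 * _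
    rw [cardN1, Subgroup.card_top, cardH, f2, pow_one]

def e : Fin 6 → ZMod 23 := Pi.single 5 1

def Stab : Subgroup G where
  carrier := {A | ∃ l : ZMod 23, l ≠ 0 ∧ A.val *ᵥ e = l • e}
  one_mem' := ⟨1, one_ne_zero, by simp⟩
  mul_mem' := by
    rintro A B ⟨l, hl, hA⟩ ⟨m, hm, hB⟩
    refine ⟨m * l, mul_ne_zero hm hl, ?_⟩
    rw [Units.val_mul, ← Matrix.mulVec_mulVec, hB, Matrix.mulVec_smul, hA, smul_smul]
  inv_mem' := by
    rintro A ⟨l, hl, hA⟩
    refine ⟨l⁻¹, inv_ne_zero hl, ?_⟩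
    have : (A⁻¹).val *ᵥ (A.val *ᵥ e) = e := by
      rw [Matrix.mulVec_mulVec, ← Units.val_mul, inv_mul_cancel, Units.val_one, Matrix.one_mulVec]
    rw [hA, Matrix.mulVec_smul] at this
    conv_rhs => rw [← this]
    rw [smul_smul, inv_mul_cancel₀ hl, one_smul]

theorem mono_e (a : Aff V K) : mono a *ᵥ e = w (a.v 5) • e := by
  funext i
  simp only [e, Matrix.mulVec_single_one, Matrix.col_apply, mono, s_five, Pi.smul_apply,
    Pi.single_apply, smul_eq_mul]
  split_ifs with h
  · rw [h, mul_one]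
  · rw [mul_zero]

theorem H_le : H ≤ Stab := by
  rintro _ ⟨a, rfl⟩
  exact ⟨_, w_ne _, mono_e a⟩

theorem trace_mono (a : Aff V K) (h : a.g ≠ 1) : (mono a).trace = w (a.v 5) := by
  rw [Matrix.trace, Finset.sum_eq_single 5]
  · simp [mono, s_five]
  · intro i _ hi
    simp only [Matrix.diag, mono]
    rw [if_neg]
    intro h2
    rcases s_fix _ _ h2 with h3 | h3
    · exact h h3
    · exact hi h3
  · simp

def gm : Matrix (Fin 6) (Fin 6) (ZMod 23) :=
  !![10, 9, 9, 9, 9, 1; 9, 10, 9, 9, 9, 1; 9, 9, 10, 9, 9, 1; 9, 9, 9, 10, 9, 1;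
    9, 9, 9, 9, 10, 1; 14, 14, 14, 14, 14, 0]

theorem gm_sq : gm * gm = 1 := by decide +kernel

def g : G := ⟨gm, gm, gm_sq, gm_sq⟩

def a0 : Aff V K := ⟨Pi.single (M := fun _ : Fin 6 => ZMod 11) 5 1, Multiplicative.ofAdd 1⟩

theorem y_e : (g * φ a0 * g⁻¹).val *ᵥ e = e := by
  show (gm * mono a0 * gm) *ᵥ e = e
  decide +kernel

theorem pow11 (a : Aff V K) (h : a.g = 1) : a ^ 11 = 1 := by
  have : ∀ n : ℕ, a ^ n = ⟨n • a.v, 1⟩ := by
    intro n
    induction n with
    | zero => ext <;> simp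
    | succ n ih => rw [pow_succ, ih]; ext <;> simp [h, succ_nsmul]
  rw [this]
  ext
  · funext i
    show 11 • a.v i = 0
    generalize a.v i = z
    revert z
    decide
  · rfl

theorem not_strong : ¬ ∃ x ∈ H ⊔ (Subgroup.zpowers (φ a0)).map (MulAut.conj g).toMonoidHom,
    (Subgroup.zpowers (φ a0)).map (MulAut.conj (x * g)).toMonoidHom ≤ H := by
  rintro ⟨x, hx, hle⟩
  have hxS : x ∈ Stab := by
    refine (sup_le H_le ?_ : _ ≤ Stab) hx
    rw [MonoidHom.map_zpowers, Subgroup.zpowers_le]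
    exact ⟨1, one_ne_zero, by rw [one_smul]; exact y_e⟩
  obtain ⟨b, hb⟩ : (x * g) * φ a0 * (x * g)⁻¹ ∈ H := hle ⟨_, Subgroup.mem_zpowers _, rfl⟩
  obtain ⟨l, hl, hxe⟩ := hxS
  have h1 : φ b * x = x * (g * φ a0 * g⁻¹) := by rw [hb]; group
  have h2 : (φ b * x).val *ᵥ e = l • e := by
    rw [h1, Units.val_mul, ← Matrix.mulVec_mulVec, y_e, hxe]
  rw [Units.val_mul, ← Matrix.mulVec_mulVec, hxe, Matrix.mulVec_smul, φ_val, mono_e] at h2
  have h3 : w (b.v 5) = 1 := by
    have := congrFun h2 5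
    simp only [e, Pi.smul_apply, Pi.single_eq_same, smul_eq_mul, mul_one] at this
    exact mul_left_cancel₀ hl (this.trans (mul_one l).symm)
  by_cases hbg : b.g = 1
  · have h4 : (x * g) * φ (a0 ^ 11) * (x * g)⁻¹ = 1 := by
      rw [map_pow, ← conj_pow, ← hb, ← map_pow, pow11 b hbg, map_one]
    have h5 : φ (a0 ^ 11) = 1 := by
      have : φ (a0 ^ 11) = (x * g)⁻¹ * ((x * g) * φ (a0 ^ 11) * (x * g)⁻¹) * (x * g) := by group
      rw [this, h4]; group
    have h6 : a0 ^ 11 = 1 := φ_inj (h5.trans (map_one φ).symm)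
    have h7 := congrArg (proj : Aff V K →* K) h6
    rw [map_pow, map_one] at h7
    revert h7
    decide
  · have h4 : (φ b).val.trace = (φ a0).val.trace := by
      rw [hb, Units.val_mul, Units.val_mul, Matrix.trace_units_conj]
    rw [φ_val, φ_val, trace_mono b hbg, trace_mono a0 (by decide), h3] at h4
    revert h4
    decide

theorem K_le : Subgroup.zpowers (φ a0) ≤ H := by
  rw [Subgroup.zpowers_le]
  exact ⟨a0, rfl⟩

end Pool.Agent.H67.HallTower
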