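import Mathlib

set_option autoImplicit false

namespace H67.Hunt

universe u v w

abbrev J : Type := (Cardinal.aleph 1).ord.ToType
abbrev Nm : Type 1 := Σ T : Type, T
abbrev I : Type 1 := List (J × Nm)
abbrev Cd : Type 1 := Set (I × ℕ)

def cp (p q : Cd) : Prop := ∀ i m n, (i, m) ∈ p → (i, n) ∈ q → m = n

theorem cp.symm {p q : Cd} (h : cp p q) : cp q p := fun i m n a b => (h i n m b a).symm
theorem cp.mono {p q p' q' : Cd} (h : cp p q) (h1 : p' ⊆ p) (h2 : q' ⊆ q) : cp p' q' :=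
  fun i m n a b => h i m n (h1 a) (h2 b)

theorem J_Iio (a : J) : (Set.Iio a).Countable := by
  have := (Cardinal.mk_Iio_toType_ord_lt a).trans_eq Cardinal.succ_aleph0.symm
  rwa [Order.lt_succ_iff, Cardinal.le_aleph0_iff_set_countable] at this

instance : Uncountable J := by
  rw [← Cardinal.aleph0_lt_mk_iff, Cardinal.mk_toType, Cardinal.card_ord]
  exact Cardinal.aleph0_lt_aleph_one

theorem J_bdd {A : Set J} (hA : A.Countable) : ∃ b, ∀ a ∈ A, a < b := by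
  have : (⋃ a ∈ A, insert a (Set.Iio a)).Countable := hA.biUnion fun a _ => (J_Iio a).insert a
  obtain ⟨b, hb⟩ : ∃ b, b ∉ ⋃ a ∈ A, insert a (Set.Iio a) := by
    by_contra h
    push Not at h
    exact Set.not_countable_univ (this.mono fun b _ => h b)
  refine ⟨b, fun a ha => lt_of_not_ge fun h => hb ?_⟩
  simp only [Set.mem_iUnion]
  exact ⟨a, ha, h.eq_or_lt⟩

theorem ccc_aux (n : ℕ) : ∀ (A : Set J) (p : J → Cd),
    (∀ a ∈ A, (p a).Finite ∧ (p a).ncard ≤ n ∧ cp (p a) (p a)) →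
    (∀ a ∈ A, ∀ b ∈ A, a ≠ b → ¬ cp (p a) (p b)) → A.Countable := by
  induction n with
  | zero =>
    intro A p h1 h2
    refine Set.Subsingleton.countable fun a ha b hb => by_contra fun h => h2 a ha b hb h ?_
    intro i m n hm
    rw [(Set.ncard_eq_zero (h1 a ha).1).1 (Nat.le_zero.1 (h1 a ha).2.1)] at hm
    exact hm.elim
  | succ n ih =>
    intro A p h1 h2
    rcases A.eq_empty_or_nonempty with rfl | ⟨a0, h0⟩
    · exact Set.countable_empty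
    have key : ∀ x : I × ℕ, {a ∈ A | x ∈ p a}.Countable := by
      intro x
      refine ih _ (fun a => p a \ {x}) ?_ ?_
      · rintro a ⟨ha, hx⟩
        refine ⟨(h1 a ha).1.diff, ?_, (h1 a ha).2.2.mono Set.diff_subset Set.diff_subset⟩
        have := Set.ncard_diff_singleton_lt_of_mem hx (h1 a ha).1
        have := (h1 a ha).2.1
        omega
      · rintro a ⟨ha, hx⟩ b ⟨hb, hy⟩ hab h
        refine h2 a ha b hb hab fun i m k hm hk => ?_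
        by_cases e1 : (i, m) = x
        · exact (h1 b hb).2.2 i m k (e1 ▸ hy) hk
        by_cases e2 : (i, k) = x
        · exact (h1 a ha).2.2 i m k hm (e2 ▸ hx)
        exact h i m k ⟨hm, e1⟩ ⟨hk, e2⟩
    refine (((h1 a0 h0).1.countable.biUnion fun x _ =>
      Set.countable_iUnion fun k : ℕ => key (x.1, k)).insert a0).mono fun a ha => ?_
    by_cases e : a = a0
    · exact Or.inl e
    have := h2 a0 h0 a ha (Ne.symm e)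
    simp only [cp, not_forall] at this
    obtain ⟨i, m, k, hm, hk, -⟩ := this
    right
    simp only [Set.mem_iUnion]
    exact ⟨(i, m), hm, k, ha, hk⟩

theorem ccc (p : J → Cd) (h : ∀ a, (p a).Finite ∧ cp (p a) (p a)) :
    ∃ a b, a < b ∧ cp (p a) (p b) := by
  by_contra hc
  push Not at hc
  refine Set.not_countable_univ ((Set.countable_iUnion fun n : ℕ =>
    ccc_aux n {a | (p a).ncard ≤ n} p (fun a ha => ⟨(h a).1, ha, (h a).2⟩) ?_).mono fun a _ => ?_)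
  · intro a _ b _ hab e
    rcases lt_or_gt_of_ne hab with l | l
    · exact hc a b l e
    · exact hc b a l e.symm
  · exact Set.mem_iUnion.2 ⟨_, le_refl (p a).ncard⟩

structure Str (Ω : Type u) where
  M : Set Ω
  le : Ω → Ω → Prop
  o : Ω
  t : Ω
  Pa : Ω → Ω → Prop
  pr : Ω → Ω → Prop
  F : Ω → Ω → Cd → Prop

variable {Ω : Type u} {Ω' : Type v} {Ω'' : Type w}

def Str.dual (S : Str Ω) : Str Ω :=
  ⟨S.M, fun x y => S.le y x, S.t, S.o, S.Pa, S.pr, fun x y => S.F y x⟩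

def Str.Rs (S : Str Ω) (u x y : Ω) : Prop :=
  ∃ a, S.Pa u a ∧ S.le u y ∧ (y = u → S.le a x) ∧ ∀ w b, S.Pa w b → S.le x w → S.pr w u

structure Half (S : Str Ω) : Prop where
  mem : ∀ {x y}, S.le x y → x ∈ S.M
  top : ∀ {x}, x ∈ S.M → S.le x S.t
  tm : S.t ∈ S.M
  sup : ∀ {x y}, x ∈ S.M → y ∈ S.M → ∃ s ∈ S.M, ∀ z, S.le s z ↔ S.le x z ∧ S.le y z
  gne : ∀ {u a}, S.Pa u a → u ≠ S.t
  cpl : ∀ {u a z}, S.Pa u a → S.le u z → S.le a z → z = S.t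
  rs : ∀ {x y}, x ∈ S.M → y ∈ S.M → x ≠ S.t → y ≠ S.t → (∀ z, S.le x z → S.le y z → z = S.t) →
    ∃ u, S.Rs u x y ∨ S.Rs u y x
  fin : ∀ {x}, x ∈ S.M → x ≠ S.t → {u | (∃ a, S.Pa u a) ∧ S.le u x}.Finite

structure Good (S : Str Ω) : Prop where
  h1 : Half S
  h2 : Half S.dual
  refl : ∀ {x}, x ∈ S.M → S.le x x
  trans : ∀ {x y z}, S.le x y → S.le y z → S.le x z
  anti : ∀ {x y}, S.le x y → S.le y x → x = y
  ot : S.o ≠ S.t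
  pm : ∀ {u a}, S.Pa u a → u ∈ S.M ∧ a ∈ S.M
  fn : ∀ {u a b}, S.Pa u a → S.Pa u b → a = b
  inj : ∀ {u v a}, S.Pa u a → S.Pa v a → u = v
  ng : ∀ {u a b}, S.Pa u a → S.Pa a b → False
  inc : ∀ {u v a b}, S.Pa u a → S.Pa v b → S.le u v → u = v
  asy : ∀ {u v}, S.pr u v → S.pr v u → False
  prm : ∀ {u v}, S.pr u v → u ∈ S.M ∧ v ∈ S.M
  Fm : ∀ {x y p}, S.F x y p → x ∈ S.M ∧ y ∈ S.M
  Fex : ∀ {x y}, x ∈ S.M → y ∈ S.M → ¬ S.le x y → ∃ p, S.F x y p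
  Ff : ∀ {x y p}, S.F x y p → p.Finite ∧ cp p p
  Fk : ∀ {x y p x' y' p'}, S.F x y p → S.F x' y' p' → cp p p' → ¬ S.le x y'

theorem Good.dual {S : Str Ω} (h : Good S) : Good S.dual :=
  ⟨h.h2, h.h1, h.refl, fun a b => h.trans b a, fun a b => h.anti b a, h.ot.symm, h.pm, h.fn, h.inj,
    h.ng, fun a b c => (h.inc b a c).symm, h.asy, h.prm, fun a => (h.Fm a).symm,
    fun a b c => h.Fex b a c, h.Ff, fun a b c => h.Fk b a c.symm⟩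

theorem Good.rs_mono {S : Str Ω} (h : Good S) {u x y x' y' : Ω} (r : S.Rs u x y) (hx : S.le x x')
    (hy : S.le y y') : S.Rs u x' y' := by
  obtain ⟨a, h1, h2, h3, h4⟩ := r
  exact ⟨a, h1, h.trans h2 hy, fun e => h.trans (h3 (h.anti (e ▸ hy) h2)) hx,
    fun w b hw l => h4 w b hw (h.trans hx l)⟩

theorem Good.cub {S : Str Ω} (h : Good S) {A : Set Ω} (hA : A ⊆ S.M) :
    ∃ B ⊆ A, B.Countable ∧ ∀ z ∈ S.M, (∀ x ∈ B, S.le x z) → ∀ x ∈ A, S.le x z := by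
  by_contra hc
  push Not at hc
  have : ∀ B : Set Ω, ∃ z x, B ⊆ A → B.Countable →
      z ∈ S.M ∧ (∀ x ∈ B, S.le x z) ∧ x ∈ A ∧ ¬ S.le x z := by
    intro B
    by_cases hB : B ⊆ A ∧ B.Countable
    · obtain ⟨z, h1, h2, x, h3⟩ := hc B hB.1 hB.2
      exact ⟨z, x, fun _ _ => ⟨h1, h2, h3⟩⟩
    · exact ⟨S.o, S.o, fun a b => absurd ⟨a, b⟩ hB⟩
  choose Z X hX using this
  let x : J → Ω := WellFoundedLT.fix fun a ih => X (Set.range fun b : Set.Iio a => ih b b.2)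
  have hx : ∀ a, x a = X (Set.range fun b : Set.Iio a => x b) := fun a =>
    WellFoundedLT.fix_eq _ a
  have hcn : ∀ a : J, (Set.range fun b : Set.Iio a => x b).Countable := fun a =>
    haveI := (J_Iio a).to_subtype
    Set.countable_range _
  have hxa : ∀ a, x a ∈ A := by
    intro a
    induction a using WellFoundedLT.induction with
    | ind a ih =>
      rw [hx]
      exact (hX _ (by rintro _ ⟨b, rfl⟩; exact ih b b.2) (hcn a)).2.2.1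
  have H := fun a : J => hX _ (by rintro _ ⟨b, rfl⟩; exact hxa b) (hcn a)
  choose p hp using fun a => h.Fex (hA (H a).2.2.1) (H a).1 (H a).2.2.2
  obtain ⟨a, b, hab, hcp⟩ := ccc p fun a => h.Ff (hp a)
  refine h.Fk (hp a) (hp b) hcp ?_
  rw [← hx]
  exact (H b).2.1 _ ⟨⟨a, hab⟩, rfl⟩

structure Ext (i : Ω → Ω') (S : Str Ω) (T : Str Ω') : Prop where
  mem : ∀ {x}, x ∈ S.M → i x ∈ T.M
  le : ∀ {x y}, x ∈ S.M → y ∈ S.M → (T.le (i x) (i y) ↔ S.le x y)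
  o : i S.o = T.o
  t : i S.t = T.t
  Pa : ∀ {u a}, S.Pa u a → T.Pa (i u) (i a)
  pr : ∀ {u a}, S.pr u a → T.pr (i u) (i a)
  F : ∀ {x y p}, S.F x y p → T.F (i x) (i y) p
  new : ∀ {u' a'}, T.Pa u' a' → (∃ u a, S.Pa u a ∧ u' = i u ∧ a' = i a) ∨
    ∀ x ∈ S.M, (T.le u' (i x) → x = S.t) ∧ (T.le (i x) u' → x = S.o)
  lub : ∀ A ⊆ S.M, ∀ s ∈ S.M, (∀ z ∈ S.M, (∀ x ∈ A, S.le x z) → S.le s z) →
    ∀ z ∈ T.M, (∀ x ∈ A, T.le (i x) z) → T.le (i s) z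
  glb : ∀ A ⊆ S.M, ∀ s ∈ S.M, (∀ z ∈ S.M, (∀ x ∈ A, S.le z x) → S.le z s) →
    ∀ z ∈ T.M, (∀ x ∈ A, T.le z (i x)) → T.le z (i s)

theorem Ext.dual {i : Ω → Ω'} {S : Str Ω} {T : Str Ω'} (h : Ext i S T) : Ext i S.dual T.dual :=
  ⟨h.mem, fun a b => h.le b a, h.t, h.o, h.Pa, h.pr, h.F,
    fun a => (h.new a).imp id fun k x hx => (k x hx).symm, h.glb, h.lub⟩

theorem Ext.refl (S : Str Ω) : Ext id S S :=
  ⟨id, fun _ _ => Iff.rfl, rfl, rfl, id, id, id, fun a => Or.inl ⟨_, _, a, rfl, rfl⟩,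
    fun _ _ _ _ h => h, fun _ _ _ _ h => h⟩

theorem Ext.inj {i : Ω → Ω'} {S : Str Ω} {T : Str Ω'} (h : Ext i S T) (hS : Good S) (hT : Good T)
    {x y : Ω} (hx : x ∈ S.M) (hy : y ∈ S.M) (e : i x = i y) : x = y :=
  hS.anti ((h.le hx hy).1 (e ▸ hT.refl (h.mem hx))) ((h.le hy hx).1 (e ▸ hT.refl (h.mem hx)))

theorem Ext.le' {i : Ω → Ω'} {S : Str Ω} {T : Str Ω'} (h : Ext i S T) (hS : Good S) {x y : Ω}
    (l : S.le x y) : T.le (i x) (i y) := (h.le (hS.h1.mem l) (hS.h2.mem l)).2 l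

theorem Ext.comp {i : Ω → Ω'} {j : Ω' → Ω''} {S : Str Ω} {T : Str Ω'} {R : Str Ω''}
    (h : Ext i S T) (k : Ext j T R) (hS : Good S) (hT : Good T) : Ext (fun x => j (i x)) S R := by
  refine ⟨fun a => k.mem (h.mem a), fun a b => (k.le (h.mem a) (h.mem b)).trans (h.le a b),
    by rw [h.o, k.o], by rw [h.t, k.t], fun a => k.Pa (h.Pa a), fun a => k.pr (h.pr a),
    fun a => k.F (h.F a), ?_, ?_, ?_⟩
  · intro u' a' hu
    rcases k.new hu with ⟨u, a, h1, rfl, rfl⟩ | h1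
    · rcases h.new h1 with ⟨u, a, h2, rfl, rfl⟩ | h2
      · exact Or.inl ⟨u, a, h2, rfl, rfl⟩
      · refine Or.inr fun x hx => ?_
        rw [k.le (hT.pm h1).1 (h.mem hx), k.le (h.mem hx) (hT.pm h1).1]
        exact h2 x hx
    · exact Or.inr fun x hx =>
        ⟨fun l => h.inj hS hT hx hS.h1.tm (((h1 _ (h.mem hx)).1 l).trans h.t.symm),
          fun l => h.inj hS hT hx hS.h2.tm (((h1 _ (h.mem hx)).2 l).trans h.o.symm)⟩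
  · intro A hA s hs H z hz hz'
    refine k.lub (i '' A) (by rintro _ ⟨x, hx, rfl⟩; exact h.mem (hA hx)) _ (h.mem hs)
      (fun y hy hy' => h.lub A hA s hs H y hy fun x hx => hy' _ ⟨x, hx, rfl⟩) z hz ?_
    rintro _ ⟨x, hx, rfl⟩; exact hz' x hx
  · intro A hA s hs H z hz hz'
    refine k.glb (i '' A) (by rintro _ ⟨x, hx, rfl⟩; exact h.mem (hA hx)) _ (h.mem hs)
      (fun y hy hy' => h.glb A hA s hs H y hy fun x hx => hy' _ ⟨x, hx, rfl⟩) z hz ?_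
    rintro _ ⟨x, hx, rfl⟩; exact hz' x hx

theorem Ext.congr {i : Ω → Ω} {S T : Str Ω} (h : Ext i S T) (hS : Good S)
    (e : ∀ x ∈ S.M, i x = x) : Ext id S T := by
  refine ⟨fun a => e _ a ▸ h.mem a, fun a b => by rw [← h.le a b, e _ a, e _ b]; rfl,
    by rw [← h.o, e S.o hS.h2.tm]; rfl, by rw [← h.t, e _ hS.h1.tm]; rfl, fun a => ?_, fun a => ?_,
    fun a => ?_, fun a => ?_, ?_, ?_⟩
  · have := h.Pa a; rwa [e _ (hS.pm a).1, e _ (hS.pm a).2] at this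
  · have := h.pr a; rwa [e _ (hS.prm a).1, e _ (hS.prm a).2] at this
  · have := h.F a; rwa [e _ (hS.Fm a).1, e _ (hS.Fm a).2] at this
  · rcases h.new a with ⟨u, b, h1, rfl, rfl⟩ | h1
    · exact Or.inl ⟨u, b, h1, e _ (hS.pm h1).1, e _ (hS.pm h1).2⟩
    · refine Or.inr fun x hx => ?_
      have := h1 x hx
      rwa [e _ hx] at this
  · intro A hA s hs H z hz hz'
    have := h.lub A hA s hs H z hz fun x hx => by rw [e _ (hA hx)]; exact hz' x hx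
    rwa [e _ hs] at this
  · intro A hA s hs H z hz hz'
    have := h.glb A hA s hs H z hz fun x hx => by rw [e _ (hA hx)]; exact hz' x hx
    rwa [e _ hs] at this

def im (j : Ω → Ω') (r : Ω → Ω → Prop) (x y : Ω') : Prop := ∃ a b, r a b ∧ x = j a ∧ y = j b

theorem im_iff {j : Ω → Ω'} (hj : Function.Injective j) {r : Ω → Ω → Prop} {a b : Ω} :
    im j r (j a) (j b) ↔ r a b :=
  ⟨fun ⟨_, _, h, e1, e2⟩ => hj e1 ▸ hj e2 ▸ h, fun h => ⟨a, b, h, rfl, rfl⟩⟩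

theorem im_swap {j : Ω → Ω'} {r : Ω → Ω → Prop} {x y : Ω'} :
    im j (fun a b => r b a) x y ↔ im j r y x :=
  ⟨fun ⟨a, b, h, e1, e2⟩ => ⟨b, a, h, e2, e1⟩, fun ⟨a, b, h, e1, e2⟩ => ⟨b, a, h, e2, e1⟩⟩

def Str.map (j : Ω → Ω') (S : Str Ω) : Str Ω' :=
  ⟨j '' S.M, im j S.le, j S.o, j S.t, im j S.Pa, im j S.pr,
    fun x y p => im j (fun a b => S.F a b p) x y⟩

theorem map_dual (j : Ω → Ω') (S : Str Ω) : (S.map j).dual = S.dual.map j := by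
  simp only [Str.map, Str.dual, Str.mk.injEq, true_and]
  exact ⟨by funext x y; exact propext im_swap.symm, by funext x y p; exact propext im_swap.symm⟩

theorem Half.map {j : Ω → Ω'} (hj : Function.Injective j) {S : Str Ω} (h : Half S) :
    Half (S.map j) := by
  refine ⟨?_, ?_, ⟨_, h.tm, rfl⟩, ?_, ?_, ?_, ?_, ?_⟩
  · rintro _ _ ⟨a, b, l, rfl, rfl⟩; exact ⟨a, h.mem l, rfl⟩
  · rintro _ ⟨a, ha, rfl⟩; exact ⟨_, _, h.top ha, rfl, rfl⟩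
  · rintro _ _ ⟨a, ha, rfl⟩ ⟨b, hb, rfl⟩
    obtain ⟨s, hs, H⟩ := h.sup ha hb
    refine ⟨j s, ⟨s, hs, rfl⟩, fun z => ⟨?_, ?_⟩⟩
    · rintro ⟨c, d, l, e, rfl⟩
      rw [← hj e, H] at l
      exact ⟨(im_iff hj).2 l.1, (im_iff hj).2 l.2⟩
    · rintro ⟨⟨c, d, l, e, rfl⟩, l'⟩
      exact (im_iff hj).2 ((H d).2 ⟨hj e ▸ l, (im_iff hj).1 l'⟩)
  · rintro _ _ ⟨u, a, l, rfl, rfl⟩ e; exact h.gne l (hj e)
  · rintro _ _ _ ⟨u, a, l, rfl, rfl⟩ ⟨c, d, l', e, rfl⟩ l''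
    exact congrArg j (h.cpl l (hj e ▸ l') ((im_iff hj).1 l''))
  · rintro _ _ ⟨x, hx, rfl⟩ ⟨y, hy, rfl⟩ n1 n2 H
    have key : ∀ u x y, S.Rs u x y → (S.map j).Rs (j u) (j x) (j y) := by
      rintro u x y ⟨a, h1, h2, h3, h4⟩
      refine ⟨j a, (im_iff hj).2 h1, (im_iff hj).2 h2, fun e => (im_iff hj).2 (h3 (hj e)), ?_⟩
      rintro _ _ ⟨w, b, l, rfl, rfl⟩ l'
      exact (im_iff hj).2 (h4 w b l ((im_iff hj).1 l'))
    obtain ⟨u, hu⟩ := h.rs hx hy (fun e => n1 (congrArg j e)) (fun e => n2 (congrArg j e))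
      fun z l l' => hj (H (j z) ((im_iff hj).2 l) ((im_iff hj).2 l'))
    exact ⟨j u, hu.imp (key _ _ _) (key _ _ _)⟩
  · rintro _ ⟨x, hx, rfl⟩ n
    refine ((h.fin hx fun e => n (congrArg j e)).image j).subset ?_
    rintro _ ⟨⟨_, u, a, l, rfl, rfl⟩, l'⟩
    exact ⟨u, ⟨⟨a, l⟩, (im_iff hj).1 l'⟩, rfl⟩

theorem Good.map {j : Ω → Ω'} (hj : Function.Injective j) {S : Str Ω} (h : Good S) :
    Good (S.map j) := by
  refine ⟨h.h1.map hj, map_dual j S ▸ h.h2.map hj, ?_, ?_, ?_, fun e => h.ot (hj e), ?_, ?_, ?_,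
    ?_, ?_, ?_, ?_, ?_, ?_, ?_, ?_⟩
  · rintro _ ⟨a, ha, rfl⟩; exact (im_iff hj).2 (h.refl ha)
  · rintro _ _ _ ⟨a, b, l, rfl, rfl⟩ ⟨c, d, l', e, rfl⟩
    exact (im_iff hj).2 (h.trans l (hj e ▸ l'))
  · rintro _ _ ⟨a, b, l, rfl, rfl⟩ l'; rw [h.anti l ((im_iff hj).1 l')]
  · rintro _ _ ⟨a, b, l, rfl, rfl⟩; exact ⟨⟨_, (h.pm l).1, rfl⟩, ⟨_, (h.pm l).2, rfl⟩⟩
  · rintro _ _ _ ⟨a, b, l, rfl, rfl⟩ ⟨c, d, l', e, rfl⟩; rw [h.fn l (hj e ▸ l')]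
  · rintro _ _ _ ⟨a, b, l, rfl, rfl⟩ ⟨c, d, l', rfl, e⟩; rw [h.inj l (hj e ▸ l')]
  · rintro _ _ _ ⟨a, b, l, rfl, rfl⟩ ⟨c, d, l', e, rfl⟩; exact h.ng l (hj e ▸ l')
  · rintro _ _ _ _ ⟨a, b, l, rfl, rfl⟩ ⟨c, d, l', rfl, rfl⟩ k
    rw [h.inc l l' ((im_iff hj).1 k)]
  · rintro _ _ ⟨a, b, l, rfl, rfl⟩ l'; exact h.asy l ((im_iff hj).1 l')
  · rintro _ _ ⟨a, b, l, rfl, rfl⟩; exact ⟨⟨_, (h.prm l).1, rfl⟩, ⟨_, (h.prm l).2, rfl⟩⟩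
  · rintro _ _ _ ⟨a, b, l, rfl, rfl⟩; exact ⟨⟨_, (h.Fm l).1, rfl⟩, ⟨_, (h.Fm l).2, rfl⟩⟩
  · rintro _ _ ⟨a, ha, rfl⟩ ⟨b, hb, rfl⟩ n
    obtain ⟨p, hp⟩ := h.Fex ha hb fun l => n ((im_iff hj).2 l)
    exact ⟨p, a, b, hp, rfl, rfl⟩
  · rintro _ _ _ ⟨a, b, l, rfl, rfl⟩; exact h.Ff l
  · rintro _ _ _ _ _ _ ⟨a, b, l, rfl, rfl⟩ ⟨c, d, l', rfl, rfl⟩ k m
    exact h.Fk l l' k ((im_iff hj).1 m)

theorem Ext.map {j : Ω → Ω'} (hj : Function.Injective j) (S : Str Ω) : Ext j S (S.map j) := by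
  refine ⟨fun a => ⟨_, a, rfl⟩, fun _ _ => im_iff hj, rfl, rfl, (im_iff hj).2, (im_iff hj).2,
    fun a => ⟨_, _, a, rfl, rfl⟩, Or.inl, ?_, ?_⟩
  · rintro A - s - H _ ⟨z, hz, rfl⟩ l
    exact (im_iff hj).2 (H z hz fun x hx => (im_iff hj).1 (l x hx))
  · rintro A - s - H _ ⟨z, hz, rfl⟩ l
    exact (im_iff hj).2 (H z hz fun x hx => (im_iff hj).1 (l x hx))

section union
variable {ι : Type} (S : Option ι → Str Ω)

def Un : Str Ω :=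
  ⟨{x | ∃ i, x ∈ (S i).M}, fun x y => ∃ i, (S i).le x y, (S none).o, (S none).t,
    fun x y => ∃ i, (S i).Pa x y, fun x y => ∃ i, (S i).pr x y, fun x y p => ∃ i, (S i).F x y p⟩

variable {S} (hg : ∀ i, Good (S i)) (hc : ∀ i j, Ext id (S i) (S j) ∨ Ext id (S j) (S i))
include hc

theorem up2 (i j : Option ι) : ∃ k, Ext id (S i) (S k) ∧ Ext id (S j) (S k) := by
  rcases hc i j with h | h
  · exact ⟨j, h, Ext.refl _⟩
  · exact ⟨i, Ext.refl _, h⟩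

include hg

theorem up3 (i j l : Option ι) :
    ∃ k, Ext id (S i) (S k) ∧ Ext id (S j) (S k) ∧ Ext id (S l) (S k) := by
  obtain ⟨k, h1, h2⟩ := up2 hc i j
  obtain ⟨k', h3, h4⟩ := up2 hc k l
  exact ⟨k', h1.comp h3 (hg _) (hg _), h2.comp h3 (hg _) (hg _), h4⟩

theorem ext_un (i : Option ι) : Ext id (S i) (Un S) := by
  have hle : ∀ i {x y}, x ∈ (S i).M → y ∈ (S i).M → ((Un S).le x y ↔ (S i).le x y) := by
    intro i x y hx hy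
    refine ⟨fun ⟨j, l⟩ => ?_, fun l => ⟨i, l⟩⟩
    obtain ⟨k, h1, h2⟩ := up2 hc i j
    exact (h1.le hx hy).1 (h2.le' (hg j) l)
  obtain ⟨k, h1, h2⟩ := up2 hc i none
  refine ⟨fun a => ⟨i, a⟩, hle i, h1.o.trans h2.o.symm, h1.t.trans h2.t.symm, fun a => ⟨i, a⟩,
    fun a => ⟨i, a⟩, fun a => ⟨i, a⟩, ?_, ?_, ?_⟩
  · rintro u a ⟨j, l⟩
    obtain ⟨k, h1, h2⟩ := up2 hc i j
    refine (h1.new (h2.Pa l)).imp id fun H x hx => ?_
    have hu := ((hg k).pm (h2.Pa l)).1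
    exact ⟨fun m => (H x hx).1 ((hle k hu (h1.mem hx)).1 m),
      fun m => (H x hx).2 ((hle k (h1.mem hx) hu).1 m)⟩
  · rintro A hA s hs H z ⟨j, hz⟩ l
    obtain ⟨k, h1, h2⟩ := up2 hc i j
    exact ⟨k, h1.lub A hA s hs H z (h2.mem hz) fun x hx =>
      (hle k (h1.mem (hA hx)) (h2.mem hz)).1 (l x hx)⟩
  · rintro A hA s hs H z ⟨j, hz⟩ l
    obtain ⟨k, h1, h2⟩ := up2 hc i j
    exact ⟨k, h1.glb A hA s hs H z (h2.mem hz) fun x hx =>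
      (hle k (h2.mem hz) (h1.mem (hA hx))).1 (l x hx)⟩

theorem half_un : Half (Un S) := by
  have E := ext_un hg hc
  have m2 : ∀ {x y}, (Un S).le x y → y ∈ (Un S).M := fun ⟨i, l⟩ => ⟨i, (hg i).h2.mem l⟩
  have et : ∀ i, (S i).t = (Un S).t := fun i => (E i).t
  refine ⟨fun ⟨i, l⟩ => ⟨i, (hg i).h1.mem l⟩, fun ⟨i, l⟩ => ⟨i, et i ▸ (hg i).h1.top l⟩,
    ⟨none, (hg none).h1.tm⟩, ?_, fun ⟨i, l⟩ => et i ▸ (hg i).h1.gne l, ?_, ?_, ?_⟩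
  · rintro x y ⟨i, hx⟩ ⟨j, hy⟩
    obtain ⟨k, h1, h2⟩ := up2 hc i j
    obtain ⟨s, hs, H⟩ := (hg k).h1.sup (h1.mem hx) (h2.mem hy)
    have h0 := (H s).1 ((hg k).refl hs)
    refine ⟨s, ⟨k, hs⟩, fun z => ⟨fun ⟨m, l⟩ => ?_, fun l => ?_⟩⟩
    · obtain ⟨n, h3, h4⟩ := up2 hc k m
      exact ⟨⟨n, (hg n).trans (h3.le' (hg k) h0.1) (h4.le' (hg m) l)⟩,
        ⟨n, (hg n).trans (h3.le' (hg k) h0.2) (h4.le' (hg m) l)⟩⟩
    · refine (E k).lub {x, y} ?_ s hs (fun z _ l => (H z).2 ⟨l x (by simp), l y (by simp)⟩) z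
        (m2 l.1) ?_
      · rintro _ (rfl | rfl); exacts [h1.mem hx, h2.mem hy]
      · rintro _ (rfl | rfl); exacts [l.1, l.2]
  · rintro u a z ⟨i, l1⟩ ⟨j, l2⟩ ⟨m, l3⟩
    obtain ⟨k, h1, h2, h3⟩ := up3 hg hc i j m
    exact et k ▸ (hg k).h1.cpl (h1.Pa l1) (h2.le' (hg _) l2) (h3.le' (hg _) l3)
  · rintro x y ⟨i, hx⟩ ⟨j, hy⟩ n1 n2 H
    obtain ⟨k, h1, h2⟩ := up2 hc i j
    have key : ∀ u x y, x ∈ (S k).M → y ∈ (S k).M → y ≠ (Un S).t →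
        (∀ z, (Un S).le x z → (Un S).le y z → z = (Un S).t) → (S k).Rs u x y → (Un S).Rs u x y := by
      rintro u x y hx hy n H ⟨a, l1, l2, l3, l4⟩
      refine ⟨a, ⟨k, l1⟩, ⟨k, l2⟩, fun e => ⟨k, l3 e⟩, fun w b hw l => ?_⟩
      rcases (E k).new hw with ⟨w, b, hw, rfl, rfl⟩ | hw
      · exact ⟨k, l4 w b hw (((E k).le hx ((hg k).pm hw).1).1 l)⟩
      · exact absurd (H y ⟨k, (hw x hx).2 l ▸ (hg k).h2.top hy⟩ ⟨k, (hg k).refl hy⟩) n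
    obtain ⟨u, hu⟩ := (hg k).h1.rs (h1.mem hx) (h2.mem hy) (et k ▸ n1) (et k ▸ n2)
      fun z l l' => et k ▸ H z ⟨k, l⟩ ⟨k, l'⟩
    exact ⟨u, hu.imp (key u x y (h1.mem hx) (h2.mem hy) n2 H)
      (key u y x (h2.mem hy) (h1.mem hx) n1 fun z l l' => H z l' l)⟩
  · rintro x ⟨i, hx⟩ n
    refine ((hg i).h1.fin hx (et i ▸ n)).subset ?_
    rintro u ⟨⟨a, hu⟩, l⟩
    rcases (E i).new hu with ⟨w, b, hw, rfl, -⟩ | hw
    · exact ⟨⟨b, hw⟩, ((E i).le ((hg i).pm hw).1 hx).1 l⟩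
    · exact absurd (((hw x hx).1 l).trans (et i)) n

theorem good_un : Good (Un S) := by
  have E := ext_un hg hc
  refine ⟨half_un hg hc, half_un (S := fun i => (S i).dual) (fun i => (hg i).dual)
    fun i j => (hc i j).imp Ext.dual Ext.dual, fun ⟨i, h⟩ => ⟨i, (hg i).refl h⟩, ?_, ?_,
    (hg none).ot, fun ⟨i, h⟩ => ⟨⟨i, ((hg i).pm h).1⟩, ⟨i, ((hg i).pm h).2⟩⟩, ?_, ?_, ?_, ?_, ?_,
    fun ⟨i, h⟩ => ⟨⟨i, ((hg i).prm h).1⟩, ⟨i, ((hg i).prm h).2⟩⟩,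
    fun ⟨i, h⟩ => ⟨⟨i, ((hg i).Fm h).1⟩, ⟨i, ((hg i).Fm h).2⟩⟩, ?_, fun ⟨i, h⟩ => (hg i).Ff h, ?_⟩
  · rintro x y z ⟨i, l⟩ ⟨j, l'⟩
    obtain ⟨k, h1, h2⟩ := up2 hc i j
    exact ⟨k, (hg k).trans (h1.le' (hg _) l) (h2.le' (hg _) l')⟩
  · rintro x y ⟨i, l⟩ ⟨j, l'⟩
    obtain ⟨k, h1, h2⟩ := up2 hc i j
    exact (hg k).anti (h1.le' (hg _) l) (h2.le' (hg _) l')
  · rintro x y z ⟨i, l⟩ ⟨j, l'⟩
    obtain ⟨k, h1, h2⟩ := up2 hc i j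
    exact (hg k).fn (h1.Pa l) (h2.Pa l')
  · rintro x y z ⟨i, l⟩ ⟨j, l'⟩
    obtain ⟨k, h1, h2⟩ := up2 hc i j
    exact (hg k).inj (h1.Pa l) (h2.Pa l')
  · rintro x y z ⟨i, l⟩ ⟨j, l'⟩
    obtain ⟨k, h1, h2⟩ := up2 hc i j
    exact (hg k).ng (h1.Pa l) (h2.Pa l')
  · rintro u v a b ⟨i, l⟩ ⟨j, l'⟩ ⟨m, l''⟩
    obtain ⟨k, h1, h2, h3⟩ := up3 hg hc i j m
    exact (hg k).inc (h1.Pa l) (h2.Pa l') (h3.le' (hg _) l'')
  · rintro x y ⟨i, l⟩ ⟨j, l'⟩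
    obtain ⟨k, h1, h2⟩ := up2 hc i j
    exact (hg k).asy (h1.pr l) (h2.pr l')
  · rintro x y ⟨i, l⟩ ⟨j, l'⟩ n
    obtain ⟨k, h1, h2⟩ := up2 hc i j
    obtain ⟨p, hp⟩ := (hg k).Fex (h1.mem l) (h2.mem l') fun e => n ⟨k, e⟩
    exact ⟨p, k, hp⟩
  · rintro x y p x' y' p' ⟨i, l⟩ ⟨j, l'⟩ c ⟨m, l''⟩
    obtain ⟨k, h1, h2, h3⟩ := up3 hg hc i j m
    exact (hg k).Fk (h1.F l) (h2.F l') c (h3.le' (hg _) l'')

end union

end H67.Hunt
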