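import Pool.Agent.H67.Hunt1

set_option autoImplicit false

namespace H67.Hunt

universe u v

variable {Ω : Type u} {K : Type v} [Lattice K] [BoundedOrder K]

def std (Pa pr : K → K → Prop) (F : K → K → Cd → Prop) : Str K :=
  ⟨Set.univ, (· ≤ ·), ⊥, ⊤, Pa, pr, F⟩

def den (S : Str Ω) (i : Ω → K) : Str K :=
  std (im i S.Pa) (im i S.pr) fun c d p => ∃ x y, S.F x y p ∧ i x ≤ c ∧ d ≤ i y

structure Dense (S : Str Ω) (i : Ω → K) : Prop where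
  le : ∀ {x y}, x ∈ S.M → y ∈ S.M → (i x ≤ i y ↔ S.le x y)
  o : i S.o = ⊥
  t : i S.t = ⊤
  d : ∀ {c d}, ¬ c ≤ d → ∃ x ∈ S.M, ∃ y ∈ S.M, i x ≤ c ∧ d ≤ i y ∧ ¬ S.le x y

theorem Dense.dual {S : Str Ω} {i : Ω → K} (h : Dense S i) : Dense (K := Kᵒᵈ) S.dual i :=
  ⟨fun a b => h.le b a, h.t, h.o, fun n =>
    let ⟨x, hx, y, hy, a, b, c⟩ := h.d n; ⟨y, hy, x, hx, b, a, c⟩⟩

theorem dir_common {α β : Type*} (P : Set α) (r : α → α → Prop) (a0 : α) (h0 : a0 ∈ P)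
    (dir : ∀ a ∈ P, ∀ b ∈ P, ∃ c ∈ P, r c a ∧ r c b) (tr : ∀ a b c, r a b → r b c → r a c)
    {T : Set β} (hT : T.Finite) (R : β → α → Prop) (mono : ∀ u a b, r a b → R u a → R u b)
    (ex : ∀ a ∈ P, ∃ u ∈ T, R u a) : ∃ u, ∀ a ∈ P, R u a := by
  by_contra hc
  push Not at hc
  choose f hf1 hf2 using hc
  have : ∃ c ∈ P, ∀ u ∈ T, r c (f u) := by
    clear ex
    induction T, hT using Set.Finite.induction_on with
    | empty => exact ⟨a0, h0, fun _ h => h.elim⟩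
    | @insert u T _ _ ih =>
      obtain ⟨c, hc, H⟩ := ih
      obtain ⟨d, hd, h1, h2⟩ := dir c hc (f u) (hf1 u)
      refine ⟨d, hd, ?_⟩
      rintro v (rfl | hv)
      exacts [h2, tr _ _ _ h1 (H v hv)]
  obtain ⟨c, hc, H⟩ := this
  obtain ⟨u, hu, h⟩ := ex c hc
  exact hf2 u (mono u _ _ (H u hu) h)

section dense
variable {S : Str Ω} {i : Ω → K} (g : Good S) (h : Dense S i)
include g h

theorem Dense.inj {x y : Ω} (hx : x ∈ S.M) (hy : y ∈ S.M) (e : i x = i y) : x = y :=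
  g.anti ((h.le hx hy).1 e.le) ((h.le hy hx).1 e.ge)

theorem Dense.glb {A : Set Ω} (hA : A ⊆ S.M) {s : Ω} (hs : s ∈ S.M)
    (H : ∀ z ∈ S.M, (∀ x ∈ A, S.le z x) → S.le z s) {c : K} (hc : ∀ x ∈ A, c ≤ i x) : c ≤ i s := by
  by_contra n
  obtain ⟨x, hx, y, hy, h1, h2, h3⟩ := h.d n
  exact h3 (g.trans (H x hx fun a ha => (h.le hx (hA ha)).1 (h1.trans (hc a ha))) ((h.le hs hy).1 h2))

theorem Dense.inf {p q : Ω} {c : K} (hp : p ∈ S.M) (hq : q ∈ S.M) (h1 : c ≤ i p) (h2 : c ≤ i q) :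
    ∃ s ∈ S.M, c ≤ i s ∧ S.le s p ∧ S.le s q := by
  obtain ⟨s, hs, H⟩ := g.h2.sup hp hq
  refine ⟨s, hs, h.glb g (A := {p, q}) ?_ hs (fun z _ l => (H z).2 ⟨l p (by simp), l q (by simp)⟩) ?_,
    (H s).1 (g.refl hs)⟩
  · rintro _ (rfl | rfl); exacts [hp, hq]
  · rintro _ (rfl | rfl); exacts [h1, h2]

theorem Dense.below {x p : Ω} {c : K} (hx : x ∈ S.M) (hp : p ∈ S.M) (h1 : c ≤ i p)
    (H : ∀ q ∈ S.M, c ≤ i q → S.le q p → S.le x q) : i x ≤ c := by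
  by_contra n
  obtain ⟨a, ha, b, hb, h2, h3, h4⟩ := h.d n
  obtain ⟨s, hs, k1, k2, k3⟩ := h.inf g hp hb h1 h3
  exact h4 (g.trans ((h.le ha hx).1 h2) (g.trans (H s hs k1 k2) k3))

theorem Dense.ub {c : K} (hc : c ≠ ⊤) : ∃ p ∈ S.M, p ≠ S.t ∧ c ≤ i p := by
  obtain ⟨a, ha, b, hb, -, h3, h4⟩ := h.d (mt top_le_iff.1 hc)
  exact ⟨b, hb, fun e => h4 (e ▸ g.h1.top ha), h3⟩

theorem Dense.half : Half (den S i) := by
  refine ⟨fun _ => trivial, fun _ => le_top, trivial,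
    fun {x y} _ _ => ⟨x ⊔ y, trivial, fun z => sup_le_iff⟩, ?_, ?_, ?_, ?_⟩
  · rintro _ _ ⟨u, a, l, rfl, rfl⟩ e
    exact g.h1.gne l (h.inj g (g.pm l).1 g.h1.tm (e.trans h.t.symm))
  · rintro _ _ z ⟨u, a, l, rfl, rfl⟩ l1 l2
    by_contra n
    obtain ⟨p, hp, n', l3⟩ := h.ub g n
    exact n' (g.h1.cpl l ((h.le (g.pm l).1 hp).1 (le_trans l1 l3))
      ((h.le (g.pm l).2 hp).1 (le_trans l2 l3)))
  · intro c d _ _ n1 n2 H
    obtain ⟨p0, hp0, np, lp⟩ := h.ub g n1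
    obtain ⟨q0, hq0, nq, lq⟩ := h.ub g n2
    have key : ∀ {c d : K} {p0 q0 : Ω} (u : Ω), p0 ∈ S.M → q0 ∈ S.M → c ≤ i p0 → d ≤ i q0 →
        (∀ p ∈ S.M, ∀ q ∈ S.M, c ≤ i p → d ≤ i q → S.le p p0 → S.le q q0 → S.Rs u p q) →
        (den S i).Rs (i u) c d := by
      intro c d p0 q0 u hp0 hq0 lp lq R
      obtain ⟨a, l, -⟩ := R p0 hp0 q0 hq0 lp lq (g.refl hp0) (g.refl hq0)
      have hu := (g.pm l).1
      refine ⟨i a, ⟨u, a, l, rfl, rfl⟩, h.below g hu hq0 lq fun q hq l1 l2 => ?_,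
        fun e => h.below g (g.pm l).2 hp0 lp fun p hp l1 l2 => ?_, ?_⟩
      · obtain ⟨_, -, k, -⟩ := R p0 hp0 q hq lp l1 (g.refl hp0) l2
        exact k
      · obtain ⟨b, k1, -, k, -⟩ := R p hp u hu l1 e.le l2 ((h.le hu hq0).1 (e ▸ lq))
        exact g.fn k1 l ▸ k rfl
      · rintro _ _ ⟨w, b, k, rfl, rfl⟩ l1
        obtain ⟨s, hs, k1, k2, k3⟩ := h.inf g hp0 (g.pm k).1 lp l1
        obtain ⟨_, -, -, -, k4⟩ := R s hs q0 hq0 k1 lq k2 (g.refl hq0)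
        exact ⟨w, u, k4 w b k k3, rfl, rfl⟩
    obtain ⟨⟨u, e⟩, hu⟩ := dir_common
      {x : Ω × Ω | x.1 ∈ S.M ∧ x.2 ∈ S.M ∧ c ≤ i x.1 ∧ d ≤ i x.2 ∧ S.le x.1 p0 ∧ S.le x.2 q0}
      (fun x y => S.le x.1 y.1 ∧ S.le x.2 y.2) (p0, q0) ⟨hp0, hq0, lp, lq, g.refl hp0, g.refl hq0⟩
      (by
        rintro x ⟨a1, a2, a3, a4, a5, a6⟩ y ⟨b1, b2, b3, b4, -, -⟩
        obtain ⟨s, hs, k1, k2, k3⟩ := h.inf g a1 b1 a3 b3
        obtain ⟨r, hr, m1, m2, m3⟩ := h.inf g a2 b2 a4 b4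
        exact ⟨(s, r), ⟨hs, hr, k1, m1, g.trans k2 a5, g.trans m2 a6⟩, ⟨k2, m2⟩, k3, m3⟩)
      (fun _ _ _ a b => ⟨g.trans a.1 b.1, g.trans a.2 b.2⟩)
      (((g.h1.fin hp0 np).union (g.h1.fin hq0 nq)).prod (Set.finite_univ (α := Bool)))
      (fun u x => cond u.2 (S.Rs u.1 x.1 x.2) (S.Rs u.1 x.2 x.1))
      (by
        rintro ⟨u, _ | _⟩ x y l r
        exacts [g.rs_mono r l.2 l.1, g.rs_mono r l.1 l.2])
      (by
        rintro ⟨p, q⟩ ⟨a1, a2, a3, a4, a5, a6⟩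
        obtain ⟨u, r | r⟩ := g.h1.rs a1 a2 (fun e => np (g.anti (g.h1.top hp0) (e ▸ a5)))
          (fun e => nq (g.anti (g.h1.top hq0) (e ▸ a6))) fun z l1 l2 =>
            h.inj g (g.h2.mem l1) g.h1.tm ((H (i z) (a3.trans ((h.le a1 (g.h2.mem l1)).2 l1))
              (a4.trans ((h.le a2 (g.h2.mem l1)).2 l2))).trans h.t.symm)
        · exact ⟨(u, true), ⟨Or.inr (let ⟨a, k1, k2, _⟩ := r; ⟨⟨a, k1⟩, g.trans k2 a6⟩), trivial⟩, r⟩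
        · exact ⟨(u, false), ⟨Or.inl (let ⟨a, k1, k2, _⟩ := r; ⟨⟨a, k1⟩, g.trans k2 a5⟩), trivial⟩, r⟩)
    refine ⟨i u, ?_⟩
    cases e
    · exact Or.inr (key u hq0 hp0 lq lp fun p a q b c d e f => hu (q, p) ⟨b, a, d, c, f, e⟩)
    · exact Or.inl (key u hp0 hq0 lp lq fun p a q b c d e f => hu (p, q) ⟨a, b, c, d, e, f⟩)
  · intro c _ n
    obtain ⟨p, hp, np, lp⟩ := h.ub g n
    refine ((g.h1.fin hp np).image i).subset ?_
    rintro _ ⟨⟨_, u, a, l, rfl, rfl⟩, l'⟩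
    exact ⟨u, ⟨⟨a, l⟩, (h.le (g.pm l).1 hp).1 (le_trans l' lp)⟩, rfl⟩

theorem Dense.good : Good (den S i) := by
  have d := h.dual.half g.dual
  refine ⟨h.half g, ⟨d.mem, d.top, d.tm, d.sup, d.gne, d.cpl, d.rs, d.fin⟩, fun _ => le_rfl,
    le_trans, le_antisymm, fun e => g.ot (h.inj g g.h2.tm g.h1.tm (h.o.trans (e.trans h.t.symm))),
    fun _ => ⟨trivial, trivial⟩, ?_, ?_, ?_, ?_, ?_, fun _ => ⟨trivial, trivial⟩,
    fun _ => ⟨trivial, trivial⟩, ?_, fun ⟨_, _, l, _⟩ => g.Ff l, ?_⟩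
  · rintro _ _ _ ⟨a, b, l, rfl, rfl⟩ ⟨c, d, l', e, rfl⟩
    rw [g.fn l (h.inj g (g.pm l).1 (g.pm l').1 e ▸ l')]
  · rintro _ _ _ ⟨a, b, l, rfl, rfl⟩ ⟨c, d, l', rfl, e⟩
    rw [g.inj l (h.inj g (g.pm l).2 (g.pm l').2 e ▸ l')]
  · rintro _ _ _ ⟨a, b, l, rfl, rfl⟩ ⟨c, d, l', e, rfl⟩
    exact g.ng l (h.inj g (g.pm l).2 (g.pm l').1 e ▸ l')
  · rintro _ _ _ _ ⟨a, b, l, rfl, rfl⟩ ⟨c, d, l', rfl, rfl⟩ k
    rw [g.inc l l' ((h.le (g.pm l).1 (g.pm l').1).1 k)]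
  · rintro _ _ ⟨a, b, l, rfl, rfl⟩ ⟨c, d, l', e, e'⟩
    exact g.asy l (h.inj g (g.prm l).2 (g.prm l').1 e ▸ h.inj g (g.prm l).1 (g.prm l').2 e' ▸ l')
  · intro c d _ _ n
    obtain ⟨x, hx, y, hy, h1, h2, h3⟩ := h.d n
    obtain ⟨p, hp⟩ := g.Fex hx hy h3
    exact ⟨p, x, y, hp, h1, h2⟩
  · rintro c d p c' d' p' ⟨x, y, l, h1, -⟩ ⟨x', y', l', -, h2⟩ k m
    exact g.Fk l l' k ((h.le (g.Fm l).1 (g.Fm l').2).1 (h1.trans (le_trans m h2)))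

theorem Dense.ext : Ext i S (den S i) :=
  ⟨fun _ => trivial, h.le, h.o, h.t, fun a => ⟨_, _, a, rfl, rfl⟩, fun a => ⟨_, _, a, rfl, rfl⟩,
    fun a => ⟨_, _, a, le_rfl, le_rfl⟩, Or.inl,
    fun _ hA _ hs H _ _ l => h.dual.glb g.dual hA hs H l, fun _ hA _ hs H _ _ l => h.glb g hA hs H l⟩

end dense

theorem exists_dm {S : Str Ω} (g : Good S) : ∃ (K : Type u) (_ : CompleteLattice K) (i : Ω → K),
    Dense S i ∧ (Small.{0} S.M → Small.{0} K) := by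
  classical
  letI : Preorder S.M :=
    { le := fun x y => S.le x y, le_refl := fun x => g.refl x.2, le_trans := fun _ _ _ => g.trans }
  let i : Ω → DedekindCut S.M := fun x => if h : x ∈ S.M then .principal ⟨x, h⟩ else ⊥
  have hi : ∀ x (h : x ∈ S.M), i x = .principal ⟨x, h⟩ := fun x h => dif_pos h
  refine ⟨DedekindCut S.M, inferInstance, i, ⟨fun a b => ?_, ?_, ?_, fun {c d} n => ?_⟩, fun _ => ?_⟩
  · rw [hi _ a, hi _ b, DedekindCut.principal_le_principal]; rfl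
  · rw [hi S.o g.h2.tm, eq_bot_iff, DedekindCut.principal_le_iff, ← DedekindCut.lowerBounds_right]
    exact fun y _ => g.h2.top y.2
  · rw [hi _ g.h1.tm, eq_top_iff, DedekindCut.le_principal_iff, ← DedekindCut.upperBounds_left]
    exact fun y _ => g.h1.top y.2
  · rw [← Concept.extent_subset_extent_iff, Set.not_subset] at n
    obtain ⟨x, h1, h2⟩ := n
    have : x ∉ lowerBounds d.right := by rwa [DedekindCut.lowerBounds_right]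
    simp only [mem_lowerBounds, not_forall] at this
    obtain ⟨y, h3, h4⟩ := this
    exact ⟨x, x.2, y, y.2, by rwa [hi _ x.2, DedekindCut.principal_le_iff],
      by rwa [hi _ y.2, DedekindCut.le_principal_iff], h4⟩
  · exact small_of_injective (f := fun c : DedekindCut S.M => c.left) fun _ _ => DedekindCut.ext

end H67.Hunt
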