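import Pool.Agent.H67.Hunt2

set_option autoImplicit false

namespace H67.Hunt

universe v

variable {K : Type v} [Lattice K] [BoundedOrder K]

def N (K : Type v) [Lattice K] [BoundedOrder K] : Set K := {a | ¬ ∃ b, IsCompl a b}

theorem N_bot {a : K} (h : a ∈ N K) : a ≠ ⊥ := fun e => h ⟨⊤, e ▸ isCompl_bot_top⟩
theorem N_top {a : K} (h : a ∈ N K) : a ≠ ⊤ := fun e => h ⟨⊥, e ▸ isCompl_top_bot⟩

@[ext] structure Sq (K : Type v) [Lattice K] [BoundedOrder K] where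
  lo : K
  up : K
  ge : Set K
  le : Set K
  h1 : lo ≤ up
  g2 : ∀ a ∈ ge, up = ⊤
  l2 : ∀ a ∈ le, lo = ⊥
  g3 : lo = ⊤ → N K ⊆ ge
  l3 : up = ⊥ → N K ⊆ le
  g4 : ∀ a ∈ ge, a ≤ lo → lo = ⊤
  l4 : ∀ a ∈ le, up ≤ a → up = ⊥
  h5 : ∀ a ∈ ge, ∀ b ∈ le, a = b
  g6 : lo ≠ ⊤ → ge.Finite
  l6 : up ≠ ⊥ → le.Finite
  g7 : ge ⊆ N K
  l7 : le ⊆ N K

def sle (k m : Sq K) : Prop := k.lo ≤ m.lo ∧ k.up ≤ m.up ∧ k.ge ⊆ m.ge ∧ m.le ⊆ k.le

variable [Nontrivial K]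

def ii (x : K) : Sq K where
  lo := x
  up := x
  ge := {a ∈ N K | x = ⊤}
  le := {a ∈ N K | x = ⊥}
  h1 := le_rfl
  g2 _ h := h.2
  l2 _ h := h.2
  g3 h _ k := ⟨k, h⟩
  l3 h _ k := ⟨k, h⟩
  g4 _ h _ := h.2
  l4 _ h _ := h.2
  h5 _ h _ k := absurd (k.2.symm.trans h.2) bot_ne_top
  g6 h := Set.finite_empty.subset fun _ k => h k.2
  l6 h := Set.finite_empty.subset fun _ k => h k.2
  g7 _ h := h.1
  l7 _ h := h.1

def uu (a : N K) : Sq K where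
  lo := ⊥
  up := ⊤
  ge := {a.1}
  le := {a.1}
  h1 := bot_le
  g2 _ _ := rfl
  l2 _ _ := rfl
  g3 h := absurd h bot_ne_top
  l3 h := absurd h top_ne_bot
  g4 b h k := absurd (le_bot_iff.1 k) (h ▸ N_bot a.2)
  l4 b h k := absurd (top_le_iff.1 k) (h ▸ N_top a.2)
  h5 _ h _ k := h.trans k.symm
  g6 _ := Set.finite_singleton _
  l6 _ := Set.finite_singleton _
  g7 _ h := h ▸ a.2
  l7 _ h := h ▸ a.2

theorem ii_le {x : K} {k : Sq K} : sle (ii x) k ↔ x ≤ k.lo :=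
  ⟨fun h => h.1, fun h => ⟨h, h.trans k.h1, fun _ e => k.g3 (top_le_iff.1 (e.2 ▸ h)) e.1,
    fun a e => ⟨k.l7 e, le_bot_iff.1 (k.l2 a e ▸ h)⟩⟩⟩
theorem le_ii {x : K} {k : Sq K} : sle k (ii x) ↔ k.up ≤ x :=
  ⟨fun h => h.2.1, fun h => ⟨k.h1.trans h, h, fun a e => ⟨k.g7 e, top_le_iff.1 (k.g2 a e ▸ h)⟩,
    fun _ e => k.l3 (le_bot_iff.1 (e.2 ▸ h)) e.1⟩⟩
theorem uu_le {a : N K} {k : Sq K} : sle (uu a) k ↔ a.1 ∈ k.ge :=
  ⟨fun h => h.2.2.1 rfl, fun h => ⟨bot_le, (k.g2 _ h).ge, fun _ e => e ▸ h,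
    fun b e => (k.h5 _ h b e).symm⟩⟩
theorem le_uu {a : N K} {k : Sq K} : sle k (uu a) ↔ a.1 ∈ k.le :=
  ⟨fun h => h.2.2.2 rfl, fun h => ⟨(k.l2 _ h).le, le_top, fun b e => k.h5 b e _ h,
    fun _ e => e ▸ h⟩⟩

omit [Nontrivial K] in
theorem sle_refl (k : Sq K) : sle k k := ⟨le_rfl, le_rfl, le_rfl, le_rfl⟩
omit [Nontrivial K] in
theorem sle_trans {k m n : Sq K} (a : sle k m) (b : sle m n) : sle k n :=
  ⟨a.1.trans b.1, a.2.1.trans b.2.1, a.2.2.1.trans b.2.2.1, b.2.2.2.trans a.2.2.2⟩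
omit [Nontrivial K] in
theorem sle_anti {k m : Sq K} (a : sle k m) (b : sle m k) : k = m :=
  Sq.ext (a.1.antisymm b.1) (a.2.1.antisymm b.2.1) (a.2.2.1.antisymm b.2.2.1)
    (b.2.2.2.antisymm a.2.2.2)

theorem eq_top {k : Sq K} : k = ii ⊤ ↔ k.lo = ⊤ :=
  ⟨fun h => h ▸ rfl, fun h => sle_anti (le_ii.2 le_top) (ii_le.2 h.ge)⟩
theorem eq_bot {k : Sq K} : k = ii ⊥ ↔ k.up = ⊥ :=
  ⟨fun h => h ▸ rfl, fun h => sle_anti (le_ii.2 h.le) (ii_le.2 bot_le)⟩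
theorem ii_inj : Function.Injective (ii : K → Sq K) := fun _ _ h => congrArg Sq.lo h
theorem ii_ne {x : K} {a : N K} : ii x ≠ uu a := fun h =>
  bot_ne_top ((congrArg Sq.lo h).symm.trans (congrArg Sq.up h))
theorem uu_inj {a b : N K} (h : uu a = uu b) : a = b :=
  Subtype.ext (Set.singleton_injective (congrArg Sq.ge h))

def h0 (α : J) : J × Nm := (α, ⟨Unit, ()⟩)
def glue (α : J) (p : Cd) (c : ℕ) (q : Cd) : Cd :=
  p ∪ {([h0 α], c)} ∪ (fun x => (h0 α :: h0 α :: x.1, x.2)) '' q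
def bits (α : J) (nm : K → Nm) (a : K) (B : Set K) : Cd :=
  {([(α, nm a)], 1)} ∪ (fun b => ([(α, nm b)], 0)) '' B
def Tg (P : J → Prop) (p : Cd) : Prop := ∀ h i n, (h :: i, n) ∈ p → P h.1

variable (α : J) (nm : K → Nm) (Pa pr : K → K → Prop) (F : K → K → Cd → Prop)

def Gc (k m : Sq K) (c : ℕ) (q : Cd) : Prop :=
  (c = 0 ∧ F k.lo m.lo q) ∨ (c = 1 ∧ F k.up m.up q) ∨
    (c = 2 ∧ ∃ a ∈ k.ge, a ∉ m.ge ∧ m.ge.Finite ∧ q = bits α nm a m.ge) ∨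
    (c = 3 ∧ ∃ a ∈ m.le, a ∉ k.le ∧ k.le.Finite ∧ q = bits α nm a k.le)

def sq : Str (Sq K) :=
  ⟨Set.univ, sle, ii ⊥, ii ⊤,
    fun u a => im ii Pa u a ∨ ∃ b : N K, u = uu b ∧ a = ii b.1,
    fun v w => im ii pr v w ∨ (∃ x, v = ii x) ∧ ∃ b : N K, w = uu b,
    fun k m p => im ii (fun x y => F x y p) k m ∨
      ∃ p0 c q, F k.up m.lo p0 ∧ Gc α nm F k m c q ∧ p = glue α p0 c q⟩

variable {Pa pr F} (g : Good (std Pa pr F))

theorem sq_sup (k m : Sq K) : (∀ z, sle k z → sle m z → z = ii ⊤) ∧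
      (k.lo ⊔ m.lo = ⊤ ∨ ∃ a, (a ∈ k.ge ∨ a ∈ m.ge) ∧ a ≤ k.lo ⊔ m.lo) ∨
    ∃ s, s ≠ ii ⊤ ∧ ∀ z, sle s z ↔ sle k z ∧ sle m z := by
  by_cases h : k.lo ⊔ m.lo = ⊤ ∨ ∃ a, (a ∈ k.ge ∨ a ∈ m.ge) ∧ a ≤ k.lo ⊔ m.lo
  · refine Or.inl ⟨fun z l1 l2 => eq_top.2 ?_, h⟩
    have l : k.lo ⊔ m.lo ≤ z.lo := sup_le (l1.1) (l2.1)
    rcases h with h | ⟨a, h, l'⟩
    · exact top_le_iff.1 (h ▸ l)
    · exact z.g4 a (h.elim (fun e => l1.2.2.1 e) fun e => l2.2.2.1 e) (le_trans l' l)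
  push Not at h
  have nk : k.lo ≠ ⊤ := fun e => h.1 (by rw [e, top_sup_eq])
  have nm : m.lo ≠ ⊤ := fun e => h.1 (by rw [e, sup_top_eq])
  refine Or.inr ⟨{
      lo := k.lo ⊔ m.lo
      up := k.up ⊔ m.up
      ge := k.ge ∪ m.ge
      le := k.le ∩ m.le
      h1 := sup_le_sup k.h1 m.h1
      g2 := fun a e => e.elim (fun e => by rw [k.g2 a e, top_sup_eq]) fun e => by
        rw [m.g2 a e, sup_top_eq]
      l2 := fun a e => by rw [k.l2 a e.1, m.l2 a e.2, sup_idem]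
      g3 := fun e => absurd e h.1
      l3 := fun e a ha => ⟨k.l3 (sup_eq_bot_iff.1 e).1 ha, m.l3 (sup_eq_bot_iff.1 e).2 ha⟩
      g4 := fun a e l => absurd l (h.2 a e)
      l4 := fun a e l => by
        rw [k.l4 a e.1 (sup_le_iff.1 l).1, m.l4 a e.2 (sup_le_iff.1 l).2, sup_idem]
      h5 := fun a e b e2 => e.elim (fun e => k.h5 a e b e2.1) fun e => m.h5 a e b e2.2
      g6 := fun _ => (k.g6 nk).union (m.g6 nm)
      l6 := fun e => by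
        by_cases e1 : k.up = ⊥
        · exact (m.l6 fun e2 => e (by rw [e1, e2, sup_idem])).subset Set.inter_subset_right
        · exact (k.l6 e1).subset Set.inter_subset_left
      g7 := Set.union_subset k.g7 m.g7
      l7 := Set.inter_subset_left.trans k.l7 }, fun e => h.1 (eq_top.1 e), fun z => ?_⟩
  simp only [sle, sup_le_iff, Set.union_subset_iff, Set.subset_inter_iff]
  tauto

include g in
theorem sq_h1 : Half (sq α nm Pa pr F) := by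
  refine ⟨fun _ => trivial, fun _ => le_ii.2 le_top, trivial, fun {k m} _ _ => ?_, ?_, ?_, ?_, ?_⟩
  · rcases sq_sup k m with ⟨h, -⟩ | ⟨s, -, h⟩
    · refine ⟨ii ⊤, trivial, fun z => ⟨fun l => ?_, fun l => h z l.1 l.2 ▸ sle_refl _⟩⟩
      exact ⟨sle_trans (le_ii.2 le_top) l, sle_trans (le_ii.2 le_top) l⟩
    · exact ⟨s, trivial, h⟩
  · rintro _ _ (⟨u, a, l, rfl, rfl⟩ | ⟨b, rfl, rfl⟩) e
    exacts [g.h1.gne l (ii_inj e), ii_ne e.symm]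
  · rintro _ _ z (⟨u, a, l, rfl, rfl⟩ | ⟨b, rfl, rfl⟩) l1 l2
    exacts [eq_top.2 (g.h1.cpl l (ii_le.1 l1) (ii_le.1 l2)),
      eq_top.2 (z.g4 _ (uu_le.1 l1) (ii_le.1 l2))]
  · intro k m _ _ n1 n2 H
    have n1' := mt eq_top.2 n1
    have n2' := mt eq_top.2 n2
    rcases sq_sup k m with ⟨-, h | ⟨a, h, l⟩⟩ | ⟨s, n, h⟩
    · have key : ∀ (u : K) (k m : Sq K), m.lo ≠ ⊤ → k.lo ⊔ m.lo = ⊤ →
          (std Pa pr F).Rs u k.lo m.lo → (sq α nm Pa pr F).Rs (ii u) k m := by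
        rintro u k m n h ⟨a, l1, l2, l3, l4⟩
        refine ⟨ii a, Or.inl ⟨u, a, l1, rfl, rfl⟩, ii_le.2 l2,
          fun e => ii_le.2 (l3 (congrArg Sq.lo e)), ?_⟩
        rintro _ _ (⟨w, b, l, rfl, rfl⟩ | ⟨b, rfl, rfl⟩) l'
        · exact Or.inl ⟨w, u, l4 w b l (l'.1), rfl, rfl⟩
        · rw [k.l2 _ (le_uu.1 l'), bot_sup_eq] at h
          exact absurd h n
      obtain ⟨u, hu⟩ := g.h1.rs (x := k.lo) (y := m.lo) trivial trivial n1' n2'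
        fun z l1 l2 => top_le_iff.1 (h ▸ sup_le l1 l2)
      exact ⟨ii u, hu.imp (key u k m n2' h) (key u m k n1' (sup_comm k.lo m.lo ▸ h))⟩
    · have key : ∀ (k m : Sq K) (e : a ∈ m.ge), m.lo ≠ ⊤ → a ≤ k.lo ⊔ m.lo →
          (sq α nm Pa pr F).Rs (uu ⟨a, m.g7 e⟩) k m := by
        intro k m e n l
        refine ⟨ii a, Or.inr ⟨_, rfl, rfl⟩, uu_le.2 e, fun e' => ii_le.2 ?_, ?_⟩
        · rwa [show m.lo = ⊥ from congrArg Sq.lo e', sup_bot_eq] at l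
        rintro _ _ (⟨w, b, -, rfl, rfl⟩ | ⟨b, rfl, rfl⟩) l'
        · exact Or.inr ⟨⟨w, rfl⟩, _, rfl⟩
        · rw [k.l2 _ (le_uu.1 l'), bot_sup_eq] at l
          exact absurd (m.g4 a e l) n
      rcases h with e | e
      · exact ⟨_, Or.inr (key m k e n1' (sup_comm k.lo m.lo ▸ l))⟩
      · exact ⟨_, Or.inl (key k m e n2' l)⟩
    · exact absurd (H s ((h s).1 (sle_refl s)).1 ((h s).1 (sle_refl s)).2) n
  · intro k _ n
    have n' := mt eq_top.2 n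
    refine (((g.h1.fin (x := k.lo) trivial n').image ii).union
      (((k.g6 n').preimage Subtype.val_injective.injOn).image uu)).subset ?_
    rintro _ ⟨⟨_, ⟨u, a, l, rfl, rfl⟩ | ⟨b, rfl, rfl⟩⟩, l'⟩
    exacts [Or.inl ⟨u, ⟨⟨a, l⟩, ii_le.1 l'⟩, rfl⟩, Or.inr ⟨b, uu_le.1 l', rfl⟩]

theorem sq_inf (k m : Sq K) : (∀ z, sle z k → sle z m → z = ii ⊥) ∧
      (k.up ⊓ m.up = ⊥ ∨ ∃ a, (a ∈ k.le ∨ a ∈ m.le) ∧ k.up ⊓ m.up ≤ a) ∨
    ∃ s, s ≠ ii ⊥ ∧ ∀ z, sle z s ↔ sle z k ∧ sle z m := by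
  by_cases h : k.up ⊓ m.up = ⊥ ∨ ∃ a, (a ∈ k.le ∨ a ∈ m.le) ∧ k.up ⊓ m.up ≤ a
  · refine Or.inl ⟨fun z l1 l2 => eq_bot.2 ?_, h⟩
    have l : z.up ≤ k.up ⊓ m.up := le_inf (l1.2.1) (l2.2.1)
    rcases h with h | ⟨a, h, l'⟩
    · exact le_bot_iff.1 (h ▸ l)
    · exact z.l4 a (h.elim (fun e => l1.2.2.2 e) fun e => l2.2.2.2 e) (le_trans l l')
  push Not at h
  have nk : k.up ≠ ⊥ := fun e => h.1 (by rw [e, bot_inf_eq])
  have nm : m.up ≠ ⊥ := fun e => h.1 (by rw [e, inf_bot_eq])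
  refine Or.inr ⟨{
      up := k.up ⊓ m.up
      lo := k.lo ⊓ m.lo
      le := k.le ∪ m.le
      ge := k.ge ∩ m.ge
      h1 := inf_le_inf k.h1 m.h1
      l2 := fun a e => e.elim (fun e => by rw [k.l2 a e, bot_inf_eq]) fun e => by
        rw [m.l2 a e, inf_bot_eq]
      g2 := fun a e => by rw [k.g2 a e.1, m.g2 a e.2, inf_idem]
      l3 := fun e => absurd e h.1
      g3 := fun e a ha => ⟨k.g3 (inf_eq_top_iff.1 e).1 ha, m.g3 (inf_eq_top_iff.1 e).2 ha⟩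
      l4 := fun a e l => absurd l (h.2 a e)
      g4 := fun a e l => by
        rw [k.g4 a e.1 (le_inf_iff.1 l).1, m.g4 a e.2 (le_inf_iff.1 l).2, inf_idem]
      h5 := fun a e b e2 => e2.elim (fun e2 => k.h5 a e.1 b e2) fun e2 => m.h5 a e.2 b e2
      l6 := fun _ => (k.l6 nk).union (m.l6 nm)
      g6 := fun e => by
        by_cases e1 : k.lo = ⊤
        · exact (m.g6 fun e2 => e (by rw [e1, e2, inf_idem])).subset Set.inter_subset_right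
        · exact (k.g6 e1).subset Set.inter_subset_left
      l7 := Set.union_subset k.l7 m.l7
      g7 := Set.inter_subset_left.trans k.g7 }, fun e => h.1 (eq_bot.1 e), fun z => ?_⟩
  simp only [sle, le_inf_iff, Set.union_subset_iff, Set.subset_inter_iff]
  tauto

include g in
theorem sq_h2 : Half (sq α nm Pa pr F).dual := by
  refine ⟨fun _ => trivial, fun _ => ii_le.2 bot_le, trivial, fun {k m} _ _ => ?_, ?_, ?_, ?_, ?_⟩
  · rcases sq_inf k m with ⟨h, -⟩ | ⟨s, -, h⟩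
    · refine ⟨ii ⊥, trivial, fun z => ⟨fun l => ?_, fun l => h z l.1 l.2 ▸ sle_refl _⟩⟩
      exact ⟨sle_trans l (ii_le.2 bot_le), sle_trans l (ii_le.2 bot_le)⟩
    · exact ⟨s, trivial, h⟩
  · rintro _ _ (⟨u, a, l, rfl, rfl⟩ | ⟨b, rfl, rfl⟩) e
    exacts [g.h2.gne l (ii_inj e), ii_ne e.symm]
  · rintro _ _ z (⟨u, a, l, rfl, rfl⟩ | ⟨b, rfl, rfl⟩) l1 g2
    exacts [eq_bot.2 (g.h2.cpl l (le_ii.1 l1) (le_ii.1 g2)),
      eq_bot.2 (z.l4 _ (le_uu.1 l1) (le_ii.1 g2))]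
  · intro k m _ _ n1 n2 H
    have n1' := mt eq_bot.2 n1
    have n2' := mt eq_bot.2 n2
    rcases sq_inf k m with ⟨-, h | ⟨a, h, l⟩⟩ | ⟨s, n, h⟩
    · have key : ∀ (u : K) (k m : Sq K), m.up ≠ ⊥ → k.up ⊓ m.up = ⊥ →
          (std Pa pr F).dual.Rs u k.up m.up → (sq α nm Pa pr F).dual.Rs (ii u) k m := by
        rintro u k m n h ⟨a, l1, g2, g3, g4⟩
        refine ⟨ii a, Or.inl ⟨u, a, l1, rfl, rfl⟩, le_ii.2 g2,
          fun e => le_ii.2 (g3 (congrArg Sq.up e)), ?_⟩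
        rintro _ _ (⟨w, b, l, rfl, rfl⟩ | ⟨b, rfl, rfl⟩) l'
        · exact Or.inl ⟨w, u, g4 w b l (l'.2.1), rfl, rfl⟩
        · rw [k.g2 _ (uu_le.1 l'), top_inf_eq] at h
          exact absurd h n
      obtain ⟨u, hu⟩ := g.h2.rs (x := k.up) (y := m.up) trivial trivial n1' n2'
        fun z l1 g2 => le_bot_iff.1 (h ▸ le_inf l1 g2)
      exact ⟨ii u, hu.imp (key u k m n2' h) (key u m k n1' (inf_comm k.up m.up ▸ h))⟩
    · have key : ∀ (k m : Sq K) (e : a ∈ m.le), m.up ≠ ⊥ → k.up ⊓ m.up ≤ a →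
          (sq α nm Pa pr F).dual.Rs (uu ⟨a, m.l7 e⟩) k m := by
        intro k m e n l
        refine ⟨ii a, Or.inr ⟨_, rfl, rfl⟩, le_uu.2 e, fun e' => le_ii.2 ?_, ?_⟩
        · rwa [show m.up = ⊤ from congrArg Sq.up e', inf_top_eq] at l
        rintro _ _ (⟨w, b, -, rfl, rfl⟩ | ⟨b, rfl, rfl⟩) l'
        · exact Or.inr ⟨⟨w, rfl⟩, _, rfl⟩
        · rw [k.g2 _ (uu_le.1 l'), top_inf_eq] at l
          exact absurd (m.l4 a e l) n
      rcases h with e | e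
      · exact ⟨_, Or.inr (key m k e n1' (inf_comm k.up m.up ▸ l))⟩
      · exact ⟨_, Or.inl (key k m e n2' l)⟩
    · exact absurd (H s ((h s).1 (sle_refl s)).1 ((h s).1 (sle_refl s)).2) n
  · intro k _ n
    have n' := mt eq_bot.2 n
    refine (((g.h2.fin (x := k.up) trivial n').image ii).union
      (((k.l6 n').preimage Subtype.val_injective.injOn).image uu)).subset ?_
    rintro _ ⟨⟨_, ⟨u, a, l, rfl, rfl⟩ | ⟨b, rfl, rfl⟩⟩, l'⟩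
    exacts [Or.inl ⟨u, ⟨⟨a, l⟩, le_ii.1 l'⟩, rfl⟩, Or.inr ⟨b, le_uu.1 l', rfl⟩]

omit [Nontrivial K] in
include g in
theorem compl_of {u a : K} (l : Pa u a) : IsCompl u a :=
  ⟨disjoint_iff.2 (g.h2.cpl l inf_le_left inf_le_right),
    codisjoint_iff.2 (g.h1.cpl l le_sup_left le_sup_right)⟩

theorem glue_cp {p p' q q' : Cd} {c c' : ℕ} (h : cp (glue α p c q) (glue α p' c' q')) :
    c = c' ∧ cp q q' :=
  ⟨h [h0 α] c c' (Or.inl (Or.inr rfl)) (Or.inl (Or.inr rfl)), fun i m n a b =>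
    h (h0 α :: h0 α :: i) m n (Or.inr ⟨_, a, rfl⟩) (Or.inr ⟨_, b, rfl⟩)⟩

omit [Lattice K] [BoundedOrder K] [Nontrivial K] in
theorem bits_cp {a a' : K} {B B' : Set K} (h : cp (bits α nm a B) (bits α nm a' B')) : a ∉ B' :=
  fun e => one_ne_zero (h [(α, nm a)] 1 0 (Or.inl rfl) (Or.inr ⟨a, e, rfl⟩))

include g in
theorem sq_good (hn : Function.Injective nm) (tg : ∀ x y p, F x y p → Tg (· < α) p) :
    Good (sq α nm Pa pr F) := by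
  refine ⟨sq_h1 α nm g, sq_h2 α nm g, fun _ => sle_refl _, sle_trans, sle_anti,
    fun e => bot_ne_top (ii_inj e), fun _ => ⟨trivial, trivial⟩, ?_, ?_, ?_, ?_, ?_,
    fun _ => ⟨trivial, trivial⟩, fun _ => ⟨trivial, trivial⟩, ?_, ?_, ?_⟩
  · rintro _ _ _ (⟨u, a, l, rfl, rfl⟩ | ⟨b, rfl, rfl⟩) (⟨u', a', l', e, rfl⟩ | ⟨b', e, rfl⟩)
    · rw [g.fn l (ii_inj e ▸ l')]
    · exact absurd e ii_ne
    · exact absurd e.symm ii_ne
    · rw [uu_inj e]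
  · rintro _ _ _ (⟨u, a, l, rfl, rfl⟩ | ⟨b, rfl, rfl⟩) (⟨u', a', l', rfl, e⟩ | ⟨b', rfl, e⟩)
    · rw [g.inj l (ii_inj e ▸ l')]
    · exact absurd ⟨u, ii_inj e ▸ (compl_of g l).symm⟩ b'.2
    · exact absurd ⟨u', ii_inj e ▸ (compl_of g l').symm⟩ b.2
    · rw [Subtype.ext (ii_inj e)]
  · rintro _ _ _ (⟨u, a, l, rfl, rfl⟩ | ⟨b, rfl, rfl⟩) (⟨u', a', l', e, rfl⟩ | ⟨b', e, rfl⟩)
    · exact g.ng l (ii_inj e ▸ l')
    · exact ii_ne e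
    · exact b.2 ⟨a', ii_inj e ▸ compl_of g l'⟩
    · exact ii_ne e
  · rintro _ _ _ _ (⟨u, a, l, rfl, rfl⟩ | ⟨b, rfl, rfl⟩) (⟨u', a', l', rfl, rfl⟩ | ⟨b', rfl, rfl⟩) e
    · rw [g.inc l l' e.1]
    · exact absurd (le_bot_iff.1 e.1) (g.h2.gne l)
    · exact absurd (top_le_iff.1 e.2.1) (g.h1.gne l')
    · rw [Subtype.ext (uu_le.1 e)]
  · rintro _ _ (⟨u, a, l, rfl, rfl⟩ | ⟨⟨x, rfl⟩, b, rfl⟩) (l' | ⟨⟨y, e⟩, b', e'⟩)
    · exact g.asy l ((im_iff ii_inj).1 l')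
    · exact ii_ne e'
    · obtain ⟨_, _, -, e, -⟩ := l'; exact ii_ne e.symm
    · exact ii_ne e'
  · intro k m _ _ n
    obtain ⟨p0, hp⟩ := g.Fex (x := k.up) (y := m.lo) trivial trivial fun l =>
      n (sle_trans (le_ii.2 le_rfl) (ii_le.2 l))
    suffices ∃ c q, Gc α nm F k m c q from
      let ⟨c, q, h⟩ := this; ⟨_, Or.inr ⟨p0, c, q, hp, h, rfl⟩⟩
    simp only [sq, sle, not_and_or, Set.not_subset] at n
    rcases n with n | n | ⟨a, h1, h2⟩ | ⟨a, h1, h2⟩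
    · obtain ⟨q, hq⟩ := g.Fex trivial trivial n
      exact ⟨0, q, Or.inl ⟨rfl, hq⟩⟩
    · obtain ⟨q, hq⟩ := g.Fex trivial trivial n
      exact ⟨1, q, Or.inr (Or.inl ⟨rfl, hq⟩)⟩
    · exact ⟨2, _, Or.inr (Or.inr (Or.inl
        ⟨rfl, a, h1, h2, m.g6 fun e => h2 (m.g3 e (k.g7 h1)), rfl⟩))⟩
    · exact ⟨3, _, Or.inr (Or.inr (Or.inr
        ⟨rfl, a, h1, h2, k.l6 fun e => h2 (k.l3 e (m.l7 h1)), rfl⟩))⟩
  · rintro k m p (⟨x, y, l, -⟩ | ⟨p0, c, q, l, h, rfl⟩)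
    · exact g.Ff l
    have hb : ∀ a B, a ∉ B → B.Finite → (bits α nm a B).Finite ∧ cp (bits α nm a B) (bits α nm a B) := by
      refine fun a B nB f => ⟨(Set.finite_singleton _).union (f.image _), ?_⟩
      rintro i m n (e | ⟨b, hb, e⟩) (e' | ⟨b', hb', e'⟩) <;>
        simp only [Set.mem_singleton_iff, Prod.mk.injEq] at e e'
      · omega
      · have := e.1.symm.trans e'.1.symm
        simp only [List.cons.injEq, Prod.mk.injEq, true_and, and_true] at this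
        exact absurd (hn this ▸ hb') nB
      · have := e'.1.symm.trans e.1.symm
        simp only [List.cons.injEq, Prod.mk.injEq, true_and, and_true] at this
        exact absurd (hn this ▸ hb) nB
      · omega
    have hq : q.Finite ∧ cp q q := by
      rcases h with ⟨-, h⟩ | ⟨-, h⟩ | ⟨-, a, -, h1, h2, rfl⟩ | ⟨-, a, -, h1, h2, rfl⟩
      exacts [g.Ff h, g.Ff h, hb _ _ h1 h2, hb _ _ h1 h2]
    refine ⟨((g.Ff l).1.union (Set.finite_singleton _)).union (hq.1.image _), ?_⟩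
    have fr : ∀ i n, (h0 α :: i, n) ∉ p0 := fun i n e => lt_irrefl α (tg _ _ _ l _ _ _ e)
    rintro i m n ((e | e) | ⟨x, hx, e⟩) ((e' | e') | ⟨y, hy, e'⟩) <;>
      try simp only [Set.mem_singleton_iff, Prod.mk.injEq] at e e'
    · exact (g.Ff l).2 i m n e e'
    · exact absurd (e'.1 ▸ e) (fr _ _)
    · exact absurd (e'.1 ▸ e) (fr _ _)
    · exact absurd (e.1 ▸ e') (fr _ _)
    · omega
    · exact absurd (e'.1.trans e.1) (by simp)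
    · exact absurd (e.1 ▸ e') (fr _ _)
    · exact absurd (e.1.trans e'.1) (by simp)
    · have := e.1.trans e'.1.symm
      simp only [List.cons.injEq, true_and] at this
      exact e.2 ▸ e'.2 ▸ hq.2 x.1 x.2 y.2 hx (this ▸ hy)
  · rintro k m p k' m' p' (⟨x, y, l, rfl, rfl⟩ | ⟨p0, c, q, l, h, rfl⟩)
      (⟨x', y', l', rfl, rfl⟩ | ⟨p0', c', q', l', h', rfl⟩) e s
    · exact g.Fk l l' e s.1
    · exact g.Fk l l' (e.mono le_rfl fun _ a => Or.inl (Or.inl a)) s.1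
    · exact g.Fk l l' (e.mono (fun _ a => Or.inl (Or.inl a)) le_rfl) s.2.1
    obtain ⟨rfl, e2⟩ := glue_cp α e
    clear e
    rename' e2 => e
    rcases h with ⟨rfl, h⟩ | ⟨rfl, h⟩ | ⟨rfl, a, h1, -, -, rfl⟩ | ⟨rfl, a, -, -, -, rfl⟩ <;>
      rcases h' with ⟨c, h'⟩ | ⟨c, h'⟩ | ⟨c, a', -, -, -, rfl⟩ | ⟨c, a', h1', -, -, rfl⟩ <;>
      try omega
    exacts [g.Fk h h' e s.1, g.Fk h h' e s.2.1, bits_cp α nm e (s.2.2.1 h1),
      bits_cp α nm e.symm (s.2.2.2 h1')]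

theorem sq_ext : Ext ii (std Pa pr F) (sq α nm Pa pr F) := by
  refine ⟨fun _ => trivial, fun _ _ => ii_le, rfl, rfl, fun a => Or.inl ⟨_, _, a, rfl, rfl⟩,
    fun a => Or.inl ⟨_, _, a, rfl, rfl⟩, fun a => Or.inl ⟨_, _, a, rfl, rfl⟩, ?_,
    fun A _ s _ H z _ l => ii_le.2 (H _ trivial fun x hx => ii_le.1 (l x hx)),
    fun A _ s _ H z _ l => le_ii.2 (H _ trivial fun x hx => le_ii.1 (l x hx))⟩
  rintro _ _ (h | ⟨b, rfl, rfl⟩)
  · exact Or.inl h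
  · exact Or.inr fun x _ => ⟨fun l => top_le_iff.1 l.2.1, fun l => le_bot_iff.1 l.1⟩

omit [Nontrivial K] in
theorem sq_tg (tg : ∀ x y p, F x y p → Tg (· < α) p) [Nontrivial K] {k m : Sq K} {p : Cd}
    (h : (sq α nm Pa pr F).F k m p) : Tg (· ≤ α) p := by
  rcases h with ⟨x, y, l, -⟩ | ⟨p0, c, q, l, -, rfl⟩
  · exact fun h i n e => (tg _ _ _ l h i n e).le
  · rintro h i n ((e | e) | ⟨x, -, e⟩)
    · exact (tg _ _ _ l h i n e).le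
    · simp only [Set.mem_singleton_iff, Prod.mk.injEq, List.cons.injEq] at e
      rw [e.1.1]; exact le_rfl
    · simp only [Prod.mk.injEq, List.cons.injEq] at e
      rw [← e.1.1]; exact le_rfl

theorem sq_compl (x : K) : ∃ y : Sq K, (∀ z, sle (ii x) z → sle y z → z = ii ⊤) ∧
    ∀ z, sle z (ii x) → sle z y → z = ii ⊥ := by
  by_cases h : x ∈ N K
  · exact ⟨uu ⟨x, h⟩, fun z a b => eq_top.2 (z.g4 _ (uu_le.1 b) (ii_le.1 a)),
      fun z a b => eq_bot.2 (z.l4 _ (le_uu.1 b) (le_ii.1 a))⟩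
  · obtain ⟨y, hy⟩ := not_not.1 h
    exact ⟨ii y, fun z a b => eq_top.2 (top_le_iff.1 (hy.sup_eq_top ▸ sup_le (ii_le.1 a) (ii_le.1 b))),
      fun z a b => eq_bot.2 (le_bot_iff.1 (hy.inf_eq_bot ▸ le_inf (le_ii.1 a) (le_ii.1 b)))⟩

omit [Nontrivial K] in
theorem sq_small [Small.{0} K] : Small.{0} (Sq K) :=
  small_of_injective (f := fun k : Sq K => (k.lo, k.up, k.ge, k.le)) fun _ _ h => by
    simp only [Prod.mk.injEq] at h
    exact Sq.ext h.1 h.2.1 h.2.2.1 h.2.2.2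

end H67.Hunt
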