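import Pool.Agent.H67.Hunt3

set_option autoImplicit false

namespace H67.Hunt

abbrev Om : Type 1 := Option J × Nm

def Bd (P : J → Prop) (S : Str Om) : Prop :=
  (∀ x ∈ S.M, ∀ b, x.1 = some b → P b) ∧ ∀ x y p, S.F x y p → Tg P p

def HasAll (S T : Str Om) : Prop :=
  (∀ A ⊆ S.M, ∃ s ∈ T.M, (∀ x ∈ A, T.le x s) ∧ ∀ z ∈ T.M, (∀ x ∈ A, T.le x z) → T.le s z) ∧
    ∀ x ∈ S.M, ∃ y ∈ T.M, (∀ z, T.le x z → T.le y z → z = T.t) ∧
      ∀ z, T.le z x → T.le z y → z = T.o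

def Step (α : J) (S T : Str Om) : Prop :=
  Good T ∧ Ext id S T ∧ Bd (· ≤ α) T ∧ Small.{0} T.M ∧ HasAll S T

theorem step (α : J) {S : Str Om} (g : Good S) (b : Bd (· < α) S) (sm : Small.{0} S.M) :
    ∃ T, Step α S T := by
  classical
  obtain ⟨K, _, i, d, hs⟩ := exists_dm g
  haveI := hs sm
  have g1 := d.good g
  haveI : Nontrivial K := ⟨⟨_, _, g1.ot⟩⟩
  haveI : Small.{0} (Sq K) := sq_small
  let nm : K → Nm := fun k => ⟨Shrink K, equivShrink K k⟩
  have hn : Function.Injective nm := fun _ _ h =>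
    (equivShrink K).injective (sigma_mk_injective (β := fun T : Type => T) h)
  have tg : ∀ x y p, (den S i).F x y p → Tg (· < α) p := fun _ _ _ ⟨_, _, l, _⟩ => b.2 _ _ _ l
  have g2 := sq_good α nm g1 hn tg
  have e1 := d.ext g
  have e2 := sq_ext α nm (Pa := (den S i).Pa) (pr := (den S i).pr) (F := (den S i).F)
  let j : Sq K → Om := fun k => if h : ∃ x ∈ S.M, ii (i x) = k then h.choose else
    (some α, ⟨Shrink (Sq K), equivShrink _ k⟩)
  have ji : ∀ x ∈ S.M, j (ii (i x)) = x := fun x hx => by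
    have h : ∃ y ∈ S.M, ii (i y) = ii (i x) := ⟨x, hx, rfl⟩
    rw [show j _ = h.choose from dif_pos h]
    exact d.inj g h.choose_spec.1 hx (ii_inj h.choose_spec.2)
  have jc : ∀ k, (∃ x ∈ S.M, k = ii (i x)) ∨ j k = (some α, ⟨Shrink (Sq K), equivShrink _ k⟩) :=
    fun k => by
      by_cases h : ∃ x ∈ S.M, ii (i x) = k
      · exact Or.inl (let ⟨x, hx, e⟩ := h; ⟨x, hx, e.symm⟩)
      · exact Or.inr (dif_neg h)
  have hj : Function.Injective j := by
    intro k m e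
    rcases jc k with ⟨x, hx, rfl⟩ | h <;> rcases jc m with ⟨y, hy, rfl⟩ | h'
    · rw [ji x hx, ji y hy] at e; rw [e]
    · rw [ji x hx, h'] at e
      exact absurd (b.1 x hx α (congrArg Prod.fst e)) (lt_irrefl α)
    · rw [ji y hy, h] at e
      exact absurd (b.1 y hy α (congrArg Prod.fst e.symm)) (lt_irrefl α)
    · rw [h, h'] at e
      exact (equivShrink _).injective (sigma_mk_injective (β := fun T : Type => T) (congrArg Prod.snd e))
  have e3 := e2.comp (Ext.map hj _) g1 g2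
  refine ⟨_, g2.map hj, (e1.comp e3 g g1).congr g ji, ⟨?_, ?_⟩, small_image _ _, ?_, ?_⟩
  · rintro _ ⟨k, -, rfl⟩ c e
    rcases jc k with ⟨x, hx, rfl⟩ | h
    · rw [ji x hx] at e; exact (b.1 x hx c e).le
    · rw [h] at e; exact (Option.some.inj e).ge
  · rintro _ _ p ⟨k, m, l, -⟩
    exact sq_tg α nm tg l
  · intro A hA
    refine ⟨j (ii (sSup (i '' A))), e3.mem trivial, fun x hx => ?_, fun z hz l => ?_⟩
    · rw [← ji x (hA hx)]
      exact e3.le' g1 (le_sSup ⟨x, hx, rfl⟩)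
    · refine e3.lub (i '' A) (fun _ _ => trivial) _ trivial (fun z _ l => sSup_le l) z hz ?_
      rintro _ ⟨x, hx, rfl⟩
      rw [ji x (hA hx)]; exact l x hx
  · intro x hx
    obtain ⟨y, h1, h2⟩ := sq_compl (i x)
    refine ⟨j y, ⟨y, trivial, rfl⟩, ?_, ?_⟩
    · rintro _ l ⟨a, z, l', e, rfl⟩
      rw [← ji x hx] at l
      exact congrArg j (h1 z ((im_iff hj).1 l) (hj e ▸ l'))
    · rintro _ l ⟨z, a, l', rfl, e⟩
      rw [← ji x hx] at l
      exact congrArg j (h2 z ((im_iff hj).1 l) (hj e ▸ l'))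

def B0 : Str (Fin 5) :=
  std (fun _ _ => False) (fun _ _ => False) fun x y p => ¬ x ≤ y ∧ p = {([], 5 * x.1 + y.1)}

theorem B0_good : Good B0 := by
  refine ⟨⟨fun _ => trivial, fun _ => le_top, trivial,
      fun {x y} _ _ => ⟨x ⊔ y, trivial, fun _ => sup_le_iff⟩, fun h => h.elim, fun h => h.elim,
      fun {x y} _ _ n1 n2 H => ?_, fun _ _ => Set.toFinite _⟩,
    ⟨fun _ => trivial, fun _ => bot_le, trivial,
      fun {x y} _ _ => ⟨x ⊓ y, trivial, fun _ => le_inf_iff⟩, fun h => h.elim, fun h => h.elim,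
      fun {x y} _ _ n1 n2 H => ?_, fun _ _ => Set.toFinite _⟩,
    fun _ => le_rfl, le_trans, le_antisymm, bot_ne_top, fun h => h.elim, fun h => h.elim,
    fun h => h.elim, fun h => h.elim, fun h => h.elim, fun h => h.elim, fun h => h.elim,
    fun _ => ⟨trivial, trivial⟩, fun _ _ n => ⟨_, n, rfl⟩, ?_, ?_⟩
  · rcases le_total x y with l | l
    exacts [absurd (H y l le_rfl) n2, absurd (H x le_rfl l) n1]
  · rcases le_total x y with l | l
    exacts [absurd (H x le_rfl l) n1, absurd (H y l le_rfl) n2]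
  · rintro x y _ ⟨-, rfl⟩
    refine ⟨Set.finite_singleton _, fun i m n a b => ?_⟩
    simp only [Set.mem_singleton_iff, Prod.mk.injEq] at a b
    omega
  · rintro x y _ x' y' _ ⟨n, rfl⟩ ⟨-, rfl⟩ c l
    have := c [] _ _ rfl rfl
    exact n (le_trans l (by rw [Fin.le_def]; omega))

def jb (k : Fin 5) : Om := (none, ⟨Fin 5, k⟩)
theorem jb_inj : Function.Injective jb := fun _ _ h =>
  sigma_mk_injective (β := fun T : Type => T) (congrArg Prod.snd h)
def Base : Str Om := B0.map jb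

def fam (P : J → Prop) (S : ∀ b, P b → Str Om) (o : Option {b // P b}) : Str Om :=
  o.elim Base fun b => S b b.2

open Classical in
noncomputable def tw : J → Str Om := WellFoundedLT.fix fun α ih =>
  if h : ∃ T, Step α (Un (fam (· < α) ih)) T then h.choose else Base

def Inv (α : J) : Prop := Good (tw α) ∧ Bd (· ≤ α) (tw α) ∧ Small.{0} (tw α).M ∧
  Ext id Base (tw α) ∧ ∀ b < α, Ext id (tw b) (tw α) ∧ HasAll (tw b) (tw α)

theorem fam_ok (P : J → Prop) (h : ∀ b, P b → Inv b) :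
    (∀ o, Good (fam P (fun b _ => tw b) o)) ∧
    (∀ o o', Ext id (fam P (fun b _ => tw b) o) (fam P (fun b _ => tw b) o') ∨
      Ext id (fam P (fun b _ => tw b) o') (fam P (fun b _ => tw b) o)) ∧
    Small.{0} (Un (fam P fun b _ => tw b)).M := by
  refine ⟨?_, ?_, ?_⟩
  · rintro (_ | ⟨b, hb⟩)
    exacts [B0_good.map jb_inj, (h b hb).1]
  · rintro (_ | ⟨b, hb⟩) (_ | ⟨c, hc⟩)
    · exact Or.inl (Ext.refl _)
    · exact Or.inl (h c hc).2.2.2.1
    · exact Or.inr (h b hb).2.2.2.1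
    · rcases lt_trichotomy b c with l | rfl | l
      exacts [Or.inl ((h c hc).2.2.2.2 b l).1, Or.inl (Ext.refl _), Or.inr ((h b hb).2.2.2.2 c l).1]
  · haveI : ∀ o, Small.{0} (fam P (fun b _ => tw b) o).M := by
      rintro (_ | ⟨b, hb⟩)
      exacts [small_image _ _, (h b hb).2.2.1]
    have : (Un (fam P fun b _ => tw b)).M = ⋃ o, (fam P (fun b _ => tw b) o).M := by
      ext x; exact Set.mem_iUnion.symm
    rw [this]
    infer_instance

theorem inv (α : J) : Inv α := by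
  induction α using WellFoundedLT.induction with
  | ind α ih =>
    obtain ⟨hg, hc, sm⟩ := fam_ok (· < α) ih
    have ex : ∃ T, Step α (Un (fam (· < α) fun b _ => tw b)) T := by
      refine step α (good_un hg hc) ⟨?_, ?_⟩ sm
      · rintro x ⟨_ | ⟨b, hb⟩, hx⟩ c e
        · obtain ⟨k, -, rfl⟩ := hx; cases e
        · exact ((ih b hb).2.1.1 x hx c e).trans_lt hb
      · rintro x y p ⟨_ | ⟨b, hb⟩, hx⟩ c i n e
        · obtain ⟨_, _, ⟨-, rfl⟩, -⟩ := hx; cases e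
        · exact ((ih b hb).2.1.2 x y p hx c i n e).trans_lt hb
    have e : tw α = ex.choose := (WellFoundedLT.fix_eq _ α).trans (dif_pos ex)
    obtain ⟨h1, h2, h3, h4, h5⟩ := e ▸ ex.choose_spec
    refine ⟨h1, h3, h4, (ext_un hg hc none).comp h2 (hg _) (good_un hg hc), fun b hb =>
      ⟨(ext_un hg hc (some ⟨b, hb⟩)).comp h2 (hg _) (good_un hg hc),
        fun A hA => h5.1 A fun x hx => ⟨some ⟨b, hb⟩, hA hx⟩, fun x hx => h5.2 x ⟨some ⟨b, hb⟩, hx⟩⟩⟩

theorem final : ∃ W : Str Om, Good W ∧ Small.{0} W.M ∧ Ext id Base W ∧ HasAll W W := by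
  obtain ⟨hg, hc, sm⟩ := fam_ok (fun _ => True) fun b _ => inv b
  have g := good_un hg hc
  have E := ext_un hg hc
  have st : ∀ x ∈ (Un (fam (fun _ => True) fun b _ => tw b)).M, ∃ b, ∀ c, b < c → x ∈ (tw c).M := by
    rintro x ⟨_ | ⟨b, _⟩, hx⟩
    · exact ⟨Classical.arbitrary J, fun c _ => (inv c).2.2.2.1.mem hx⟩
    · exact ⟨b, fun c l => ((inv c).2.2.2.2 b l).1.mem hx⟩
  have nx : ∀ b : J, ∃ c, b < c := fun b =>
    let ⟨c, h⟩ := J_bdd (Set.countable_singleton b); ⟨c, h b rfl⟩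
  refine ⟨_, g, sm, E none, fun A hA => ?_, fun x hx => ?_⟩
  · obtain ⟨B, hB, cB, H⟩ := g.cub hA
    choose! f hf using st
    obtain ⟨b, hb⟩ := J_bdd (cB.image f)
    obtain ⟨c, l⟩ := nx b
    have h1 : B ⊆ (tw b).M := fun x hx => hf x (hA (hB hx)) b (hb _ ⟨x, hx, rfl⟩)
    obtain ⟨s, hs, k1, k2⟩ := ((inv c).2.2.2.2 b l).2.1 B h1
    have e := E (some ⟨c, trivial⟩)
    exact ⟨s, e.mem hs, H s (e.mem hs) fun x hx => e.le' (hg _) (k1 x hx), fun z hz k =>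
      e.lub B (fun x hx => ((inv c).2.2.2.2 b l).1.mem (h1 hx)) s hs k2 z hz fun x hx => k x (hB hx)⟩
  · obtain ⟨a, ha⟩ := st x hx
    obtain ⟨b, l'⟩ := nx a
    obtain ⟨c, l⟩ := nx b
    obtain ⟨y, hy, k1, k2⟩ := ((inv c).2.2.2.2 b l).2.2 x (ha b l')
    have e := E (some ⟨c, trivial⟩)
    have hx' := ha c (l'.trans l)
    have sub : {x, y} ⊆ (tw c).M := by rintro _ (rfl | rfl); exacts [hx', hy]
    have gc := (inv c).1
    refine ⟨y, e.mem hy, fun z l1 l2 => g.anti (g.h1.top (g.h2.mem l1)) ?_,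
      fun z l1 l2 => g.anti ?_ (g.h2.top (g.h1.mem l1))⟩
    · rw [← e.t]
      refine e.lub {x, y} sub _ gc.h1.tm (fun z hz l => ?_) z (g.h2.mem l1) ?_
      · exact k1 z (l x (by simp)) (l y (by simp)) ▸ gc.refl hz
      · rintro _ (rfl | rfl); exacts [l1, l2]
    · rw [← e.o]
      refine e.glb {x, y} sub _ gc.h2.tm (fun z hz l => ?_) z (g.h1.mem l1) ?_
      · have e := k2 z (l x (by simp)) (l y (by simp))
        subst e; exact gc.refl hz
      · rintro _ (rfl | rfl); exacts [l1, l2]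

theorem Good.pair {W : Str Om} (g : Good W) {x y : Om} (hx : x ∈ W.M) (hy : y ∈ W.M)
    (n1 : x ≠ W.t) (n2 : x ≠ W.o) (h1 : ∀ z, W.le x z → W.le y z → z = W.t)
    (h2 : ∀ z, W.le z x → W.le z y → z = W.o) : W.Pa x y ∨ W.Pa y x := by
  have m1 : y ≠ W.t := fun e => n2 (h2 x (g.refl hx) (e ▸ g.h1.top hx))
  have m2 : y ≠ W.o := fun e => n1 (h1 x (g.refl hx) (e ▸ g.h2.top hx))
  have key : ∀ {x y u w}, W.Rs u x y → W.dual.Rs w x y ∨ W.dual.Rs w y x → W.Pa y x := by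
    rintro x y u w ⟨a, k1, k2, k3, k4⟩ (⟨b, l1, l2, l3, -⟩ | ⟨b, l1, l2, -, l4⟩)
    · obtain rfl := g.inc k1 l1 (g.trans k2 l2)
      obtain rfl := g.anti k2 l2
      obtain rfl := g.fn k1 l1
      exact g.anti (k3 rfl) (l3 rfl) ▸ k1
    · exact (g.asy (k4 w b l1 l2) (l4 u a k1 k2)).elim
  obtain ⟨u, hu⟩ := g.h1.rs hx hy n1 m1 h1
  obtain ⟨w, hw⟩ := g.h2.rs hx hy n2 m2 h2
  exact hu.elim (fun r => Or.inr (key r hw)) fun r => Or.inl (key r hw.symm)

theorem main (h : ∀ (α : Type) [CompleteLattice α], (∀ a : α, ∃! b : α, IsCompl a b) →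
    ∀ x y z : α, x ⊓ (y ⊔ z) = (x ⊓ y) ⊔ (x ⊓ z)) : False := by
  obtain ⟨W, g, sm, e, H1, H2⟩ := final
  let v : Shrink.{0} W.M → Om := fun x => ((equivShrink W.M).symm x).1
  have vm : ∀ x, v x ∈ W.M := fun x => ((equivShrink W.M).symm x).2
  have vi : Function.Injective v := fun _ _ e => (equivShrink W.M).symm.injective (Subtype.ext e)
  have vs : ∀ x ∈ W.M, ∃ a, v a = x := fun x hx => ⟨equivShrink W.M ⟨x, hx⟩, by simp [v]⟩
  letI po : PartialOrder (Shrink.{0} W.M) :=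
    { le := fun x y => W.le (v x) (v y)
      lt := fun x y => W.le (v x) (v y) ∧ ¬ W.le (v y) (v x)
      le_refl := fun x => g.refl (vm x)
      le_trans := fun _ _ _ => g.trans
      le_antisymm := fun _ _ a b => vi (g.anti a b) }
  have lub : ∀ A : Set (Shrink.{0} W.M), ∃ s, IsLUB A s := by
    intro A
    obtain ⟨s, hs, k1, k2⟩ := H1 (v '' A) (by rintro _ ⟨x, -, rfl⟩; exact vm x)
    obtain ⟨s, rfl⟩ := vs s hs
    exact ⟨s, fun x hx => k1 _ ⟨x, hx, rfl⟩, fun z hz => k2 _ (vm z) (by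
      rintro _ ⟨x, hx, rfl⟩; exact hz hx)⟩
  choose sp hsp using lub
  letI : SupSet (Shrink.{0} W.M) := ⟨sp⟩
  letI cl : CompleteLattice (Shrink.{0} W.M) := completeLatticeOfSup _ hsp
  have le_iff : ∀ x y : Shrink.{0} W.M, x ≤ y ↔ W.le (v x) (v y) := fun _ _ => Iff.rfl
  have vt : v ⊤ = W.t := by
    obtain ⟨a, ha⟩ := vs _ g.h1.tm
    exact g.anti (g.h1.top (vm _)) (ha ▸ (le_iff a ⊤).1 le_top)
  have vo : v ⊥ = W.o := by
    obtain ⟨a, ha⟩ := vs W.o g.h2.tm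
    exact g.anti (ha ▸ (le_iff ⊥ a).1 bot_le) (g.h2.top (vm _))
  have ic : ∀ x y : Shrink.{0} W.M, IsCompl x y ↔ (∀ z, W.le (v x) z → W.le (v y) z → z = W.t) ∧
      ∀ z, W.le z (v x) → W.le z (v y) → z = W.o := by
    refine fun x y => ⟨fun c => ⟨fun z l1 l2 => ?_, fun z l1 l2 => ?_⟩, fun c =>
      ⟨disjoint_iff.2 (vi ?_), codisjoint_iff.2 (vi ?_)⟩⟩
    · obtain ⟨z, rfl⟩ := vs z (g.h2.mem l1)
      rw [top_le_iff.1 (c.sup_eq_top.ge.trans (sup_le ((le_iff x z).2 l1) ((le_iff y z).2 l2))), vt]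
    · obtain ⟨z, rfl⟩ := vs z (g.h1.mem l1)
      rw [le_bot_iff.1 ((le_inf ((le_iff z x).2 l1) ((le_iff z y).2 l2)).trans c.inf_eq_bot.le), vo]
    · rw [vo]; exact c.2 _ ((le_iff _ _).1 inf_le_left) ((le_iff _ _).1 inf_le_right)
    · rw [vt]; exact c.1 _ ((le_iff _ _).1 le_sup_left) ((le_iff _ _).1 le_sup_right)
  have pa : ∀ x y : Shrink.{0} W.M, x ≠ ⊤ → x ≠ ⊥ → IsCompl x y →
      W.Pa (v x) (v y) ∨ W.Pa (v y) (v x) := fun x y n1 n2 c =>
    g.pair (vm x) (vm y) (fun e => n1 (vi (e.trans vt.symm))) (fun e => n2 (vi (e.trans vo.symm)))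
      ((ic x y).1 c).1 ((ic x y).1 c).2
  have uc : ∀ a : Shrink.{0} W.M, ∃! b, IsCompl a b := by
    intro a
    obtain ⟨y, hy, k⟩ := H2 _ (vm a)
    obtain ⟨y, rfl⟩ := vs y hy
    have c := (ic a y).2 k
    refine ⟨y, c, fun z c' => ?_⟩
    by_cases n1 : a = ⊤
    · subst n1; rw [eq_bot_of_top_isCompl c, eq_bot_of_top_isCompl c']
    by_cases n2 : a = ⊥
    · subst n2; rw [eq_top_of_bot_isCompl c, eq_top_of_bot_isCompl c']
    rcases pa a z n1 n2 c' with l | l <;> rcases pa a y n1 n2 c with l' | l'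
    exacts [vi (g.fn l l'), (g.ng l' l).elim, (g.ng l l').elim, vi (g.inj l l')]
  have D := h _ uc
  have bm : ∀ k, jb k ∈ Base.M := fun k => ⟨k, trivial, rfl⟩
  choose m hm using fun k => vs _ (e.mem (bm k))
  have ml : ∀ k k', m k ≤ m k' ↔ k ≤ k' := fun k k' => by
    rw [le_iff, hm, hm, e.le (bm k) (bm k')]; exact im_iff jb_inj
  choose c hc _ using uc
  have n1 : ∀ k, k ≠ 4 → m k ≠ ⊤ := fun k n e =>
    n (top_le_iff.1 ((ml 4 k).1 (e ▸ le_top)))
  have n2 : ∀ k, k ≠ 0 → m k ≠ ⊥ := fun k n e =>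
    n (le_bot_iff.1 ((ml k 0).1 (e ▸ bot_le)))
  have p1 : ∀ k, k ≠ 4 → k ≠ 0 → W.Pa (v (c (m k))) (v (m k)) := fun k a b => by
    refine (pa _ _ (n1 k a) (n2 k b) (hc _)).resolve_left fun l => ?_
    rcases e.new l with ⟨_, _, ⟨_, _, f, -⟩, -⟩ | f
    · exact f
    · exact b (jb_inj ((f _ (bm k)).2 (hm k ▸ g.refl (vm _))))
  have q1 := p1 1 (by decide) (by decide)
  have q2 := p1 2 (by decide) (by decide)
  have l : c (m 2) ≤ c (m 1) := by
    have := D (c (m 2)) (m 1) (c (m 1))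
    rw [(hc _).sup_eq_top, inf_top_eq] at this
    rw [this]
    refine sup_le ((inf_le_inf_left _ ((ml 1 2).2 (by decide))).trans ?_) inf_le_right
    rw [(hc _).symm.inf_eq_bot]; exact bot_le
  have := g.fn (g.inc q2 q1 l ▸ q2) q1
  exact absurd ((ml 2 1).1 (vi this).le) (by decide)

end H67.Hunt
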