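import Mathlib

set_option autoImplicit false

namespace H67.Kb

/-- sign -/
def sg (i : ℤ) : ℤ := if Even i then 1 else -1

theorem sg_add (i j : ℤ) : sg (i + j) = sg i * sg j := by
  unfold sg
  by_cases h1 : Even i <;> by_cases h2 : Even j <;> simp [h1, h2, Int.even_add]

theorem sg_zero : sg 0 = 1 := by simp [sg]

theorem sg_one : sg 1 = -1 := by simp [sg]

theorem sg_neg (i : ℤ) : sg (-i) = sg i := by simp [sg]

theorem sg_cases (i : ℤ) : sg i = 1 ∨ sg i = -1 := by unfold sg; split_ifs <;> simp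

theorem sg_sq (i : ℤ) : sg i * sg i = 1 := by rcases sg_cases i with h | h <;> simp [h]

/-- the Klein bottle group acting on the plane -/
def act (N i c : ℤ) (p : ℤ × ℤ) : ℤ × ℤ := (p.1 + i * N, sg i * p.2 + c * N)

theorem act_act (N i c i' c' : ℤ) (p : ℤ × ℤ) :
    act N i c (act N i' c' p) = act N (i + i') (c + sg i * c') p := by
  simp only [act, sg_add]
  ext
  · simp; ring
  · simp; ring

theorem act_zero (N : ℤ) (p : ℤ × ℤ) : act N 0 0 p = p := by simp [act, sg_zero]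

theorem act_inv (N i c : ℤ) (p : ℤ × ℤ) : act N (-i) (-(sg i * c)) (act N i c p) = p := by
  rw [act_act, sg_neg]
  simp [act_zero]

theorem act_inj {N i c i' c' : ℤ} (hN : 0 < N) {p : ℤ × ℤ} (h : act N i c p = act N i' c' p) :
    i = i' ∧ c = c' := by
  simp only [act, Prod.mk.injEq] at h
  have h1 : i = i' := by
    have : i * N = i' * N := by linarith [h.1]
    exact mul_right_cancel₀ hN.ne' this
  subst h1
  have : c * N = c' * N := by linarith [h.2]
  exact ⟨rfl, mul_right_cancel₀ hN.ne' this⟩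

/-- nearness in the plane -/
def nr (m : ℤ) (p q : ℤ × ℤ) : Prop := |p.1 - q.1| ≤ m ∧ |p.2 - q.2| ≤ m

theorem nr_act {m : ℤ} {p q : ℤ × ℤ} (h : nr m p q) (N i c : ℤ) :
    nr m (act N i c p) (act N i c q) := by
  obtain ⟨h1, h2⟩ := h
  refine ⟨by simpa [act] using h1, ?_⟩
  simp only [act]
  rw [abs_le] at h2 ⊢
  rcases sg_cases i with h | h <;> rw [h] <;> constructor <;> linarith [h2.1, h2.2]

theorem small {N i m : ℤ} (h : |i * N| ≤ m) (hm : m < N) : i = 0 := by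
  by_contra hi
  have h0 : 0 ≤ m := (abs_nonneg _).trans h
  rw [abs_mul, abs_of_pos (by omega : 0 < N)] at h
  have : 1 ≤ |i| := Int.one_le_abs hi
  nlinarith

theorem act_eq {N i c m : ℤ} {p : ℤ × ℤ} (h : nr m p (act N i c p)) (hm : m < N) :
    act N i c p = p := by
  obtain ⟨h1, h2⟩ := h
  have e1 : i = 0 := small (N := N) (m := m) (by simpa [act] using h1) hm
  subst e1
  have e2 : c = 0 := small (N := N) (m := m) (by simpa [act, sg_zero] using h2) hm
  subst e2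
  exact act_zero N p

/-- bounded sequences -/
def A : Type := {α : ℕ → ℤ × ℤ // ∃ m, ∀ j, nr m (α j) 0}

/-- uniform nearness -/
def Nr (m : ℤ) (α β : A) : Prop := ∀ j, nr m (α.1 j) (β.1 j)

/-- the orbit relation -/
def Eqv (n : ℕ → ℤ) (α β : A) : Prop := ∀ j, ∃ i c, β.1 j = act (n j) i c (α.1 j)

theorem nr.symm {m : ℤ} {p q : ℤ × ℤ} (h : nr m p q) : nr m q p :=
  ⟨by rw [abs_sub_comm]; exact h.1, by rw [abs_sub_comm]; exact h.2⟩

theorem nr.trans {m m' : ℤ} {p q r : ℤ × ℤ} (h : nr m p q) (h' : nr m' q r) : nr (m + m') p r := by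
  obtain ⟨h1, h2⟩ := h
  obtain ⟨h3, h4⟩ := h'
  rw [abs_le] at h1 h2 h3 h4
  constructor <;> rw [abs_le] <;> constructor <;> linarith [h1.1, h1.2, h2.1, h2.2, h3.1, h3.2, h4.1, h4.2]

theorem nr.mono {m m' : ℤ} {p q : ℤ × ℤ} (h : nr m p q) (h' : m ≤ m') : nr m' p q :=
  ⟨h.1.trans h', h.2.trans h'⟩

theorem Nr.symm {m : ℤ} {p q : A} (h : Nr m p q) : Nr m q p := fun j => (h j).symm

theorem Nr.trans {m m' : ℤ} {p q r : A} (h : Nr m p q) (h' : Nr m' q r) : Nr (m + m') p r :=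
  fun j => (h j).trans (h' j)

theorem Nr.mono {m m' : ℤ} {p q : A} (h : Nr m p q) (h' : m ≤ m') : Nr m' p q :=
  fun j => (h j).mono h'

theorem Nr.refl (p : A) : Nr 0 p p := fun _ => ⟨by simp, by simp⟩

theorem Nr.zero {p q : A} (h : Nr 0 p q) : p = q := by
  apply Subtype.ext
  funext j
  obtain ⟨h1, h2⟩ := h j
  rw [abs_nonpos_iff] at h1 h2
  ext <;> linarith

theorem Nr.ex (p q : A) : ∃ m : ℕ, Nr m p q := by
  obtain ⟨m, hm⟩ := p.2
  obtain ⟨m', hm'⟩ := q.2
  exact ⟨(m + m').toNat, fun j => ((hm j).trans (hm' j).symm).mono (Int.self_le_toNat _)⟩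

variable {n : ℕ → ℤ}

theorem Eqv.refl (p : A) : Eqv n p p := fun _ => ⟨0, 0, (act_zero _ _).symm⟩

theorem Eqv.symm {p q : A} (h : Eqv n p q) : Eqv n q p := fun j => by
  obtain ⟨i, c, h⟩ := h j
  exact ⟨_, _, by rw [h, act_inv]⟩

theorem Eqv.trans {p q r : A} (h : Eqv n p q) (h' : Eqv n q r) : Eqv n p r := fun j => by
  obtain ⟨i, c, h⟩ := h j
  obtain ⟨i', c', h'⟩ := h' j
  exact ⟨_, _, by rw [h', h, act_act]⟩

theorem Eqv.eq {p q : A} {m : ℤ} (h : Eqv n p q) (h' : Nr m p q) (hm : ∀ j, m < n j) : p = q := by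
  apply Subtype.ext
  funext j
  obtain ⟨i, c, h⟩ := h j
  have := h' j
  rw [h] at this ⊢
  exact (act_eq this (hm j)).symm

theorem Eqv.transport {p p' q : A} {m : ℤ} (h : Eqv n p p') (h' : Nr m p q) :
    ∃ q', Eqv n q q' ∧ Nr m p' q' := by
  choose i c h using h
  have : ∀ j, nr m (p'.1 j) (act (n j) (i j) (c j) (q.1 j)) := fun j => by
    rw [h]; exact nr_act (h' j) _ _ _
  obtain ⟨M, hM⟩ := p'.2
  exact ⟨⟨fun j => act (n j) (i j) (c j) (q.1 j), m + M, fun j => (this j).symm.trans (hM j)⟩,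
    fun j => ⟨_, _, rfl⟩, this⟩

/-- close modulo the group -/
def Cl (n : ℕ → ℤ) (m : ℤ) (p q : A) : Prop := ∃ q', Eqv n q q' ∧ Nr m p q'

theorem Cl.left {p p' q : A} {m : ℤ} (h : Cl n m p q) (h' : Eqv n p p') : Cl n m p' q := by
  obtain ⟨q', h1, h2⟩ := h
  obtain ⟨q'', h3, h4⟩ := h'.transport h2
  exact ⟨q'', h1.trans h3, h4⟩

theorem Cl.mono {p q : A} {m m' : ℤ} (h : Cl n m p q) (h' : m ≤ m') : Cl n m' p q := by
  obtain ⟨q', h1, h2⟩ := h
  exact ⟨q', h1, h2.mono h'⟩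

/-- clamp -/
def cl (t x y : ℤ) : ℤ := max (x - t) (min (x + t) y)

/-- clamp towards a base point -/
def cb (t : ℕ) (b p : A) : A := ⟨fun j => (cl t (b.1 j).1 (p.1 j).1, cl t (b.1 j).2 (p.1 j).2), by
  obtain ⟨M, hM⟩ := b.2
  refine ⟨t + M, fun j => nr.trans (q := b.1 j) ⟨?_, ?_⟩ (hM j)⟩ <;>
  · simp only [cl, abs_le]; omega⟩

theorem cb_zero (b p : A) : cb 0 b p = b := by
  apply Subtype.ext
  funext j
  ext <;> simp only [cb, cl] <;> omega

theorem cb_succ (t : ℕ) (b p : A) : Nr 1 (cb t b p) (cb (t + 1) b p) := fun j => by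
  constructor <;> simp only [cb, cl, abs_le] <;> omega

theorem cb_nr {m : ℤ} (t : ℕ) (b : A) {p q : A} (h : Nr m p q) : Nr m (cb t b p) (cb t b q) :=
  fun j => by
  obtain ⟨h1, h2⟩ := h j
  rw [abs_le] at h1 h2
  constructor <;> simp only [cb, cl, abs_le] <;> omega

theorem cb_eq {t : ℕ} {b p : A} (h : Nr t b p) : cb t b p = p := by
  apply Subtype.ext
  funext j
  obtain ⟨h1, h2⟩ := h j
  rw [abs_le] at h1 h2
  ext <;> simp only [cb, cl] <;> omega

theorem chain {P : ℕ → A → A → Prop} (h0 : ∀ p, P 0 p p)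
    (h1 : ∀ m p q r, P m p q → Nr 1 q r → P (m + 1) p r) {m : ℕ} {p q : A} (h : Nr m p q) :
    P m p q := by
  have : ∀ t, P t p (cb t p q) := by
    intro t
    induction t with
    | zero => rw [cb_zero]; exact h0 p
    | succ t ih => exact h1 _ _ _ _ ih (cb_succ t p q)
  simpa only [cb_eq h] using this m

theorem lip {F : A → A} {M : ℤ} (hF : ∀ p q, Nr 1 p q → Nr M (F p) (F q)) {m : ℕ} {p q : A}
    (h : Nr m p q) : Nr (M * m) (F p) (F q) := by
  refine chain (P := fun m p q => Nr (M * m) (F p) (F q)) (fun p => ?_) (fun m p q r h1 h2 => ?_) h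
  · simpa using Nr.refl (F p)
  · have := h1.trans (hF _ _ h2)
    push_cast
    rwa [mul_add, mul_one]

theorem lifting {ψ : A → A} {M : ℤ} (hψ : ∀ p q, Nr 1 p q → Cl n M (ψ p) (ψ q))
    (hM : ∀ j, 4 * M < n j) (b u : A) (hu : Eqv n (ψ b) u) :
    ∃ F : A → A, (∀ p, Eqv n (ψ p) (F p)) ∧ F b = u ∧ ∀ p q, Nr 1 p q → Nr M (F p) (F q) := by
  classical
  have M0 : 0 ≤ M := by
    obtain ⟨q, _, h⟩ := hψ b b ((Nr.refl b).mono zero_le_one)
    exact (abs_nonneg _).trans (h 0).1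
  have ex : ∀ u v : A, ∃ v', Cl n M u v → Eqv n v v' ∧ Nr M u v' := fun u v => by
    by_cases h : Cl n M u v
    · obtain ⟨v', h⟩ := h
      exact ⟨v', fun _ => h⟩
    · exact ⟨v, fun h' => absurd h' h⟩
  choose s hs using ex
  let Φ : A → ℕ → A := fun p t => Nat.rec u (fun t w => s w (ψ (cb (t + 1) b p))) t
  have st : ∀ p t, Eqv n (ψ (cb t b p)) (Φ p t) →
      Eqv n (ψ (cb (t + 1) b p)) (Φ p (t + 1)) ∧ Nr M (Φ p t) (Φ p (t + 1)) := fun p t h =>
    hs _ _ ((hψ _ _ (cb_succ t b p)).left h)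
  have e1 : ∀ p t, Eqv n (ψ (cb t b p)) (Φ p t) := fun p t => by
    induction t with
    | zero => rw [cb_zero]; exact hu
    | succ t ih => exact (st p t ih).1
  have e2 : ∀ p t, Nr M (Φ p t) (Φ p (t + 1)) := fun p t => (st p t (e1 p t)).2
  have e3 : ∀ p q, Nr 1 p q → ∀ t, Nr M (Φ p t) (Φ q t) := fun p q h t => by
    induction t with
    | zero => exact (Nr.refl u).mono M0
    | succ t ih =>
      obtain ⟨v, h1, h2⟩ := (hψ _ _ (cb_nr (t + 1) b h)).left (e1 p (t + 1))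
      have : Φ q (t + 1) = v := ((e1 q (t + 1)).symm.trans h1).eq
        ((((e2 q t).symm.trans ih.symm).trans (e2 p t)).trans h2) (fun j => by linarith [hM j])
      rw [this]
      exact h2
  have e4 : ∀ p (t : ℕ), Nr t b p → ∀ k, Φ p (t + k) = Φ p t := fun p t h k => by
    induction k with
    | zero => rfl
    | succ k ih =>
      rw [← ih]
      have a1 := e1 p (t + k)
      have a2 := e1 p (t + k + 1)
      rw [cb_eq (h.mono (by push_cast; omega))] at a1 a2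
      exact ((a1.symm.trans a2).eq (e2 p _) (fun j => by linarith [hM j])).symm
  choose T hT using Nr.ex b
  refine ⟨fun p => Φ p (T p), fun p => ?_, ?_, fun p q h => ?_⟩
  · simpa only [cb_eq (hT p)] using e1 p (T p)
  · have := e4 b 0 (by simpa using Nr.refl b) (T b)
    rw [zero_add] at this
    exact this
  · have := e3 p q h (T p + T q)
    rw [e4 p _ (hT p), add_comm, e4 q _ (hT q)] at this
    exact this

end H67.Kb
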