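import Pool.Agent.H67.Kb1

set_option autoImplicit false

namespace H67.Kb

universe u v

/-- walks of bounded length -/
def Wk {V : Type u} (G : SimpleGraph V) (m : ℕ) (a b : V) : Prop := ∃ p : G.Walk a b, p.length ≤ m

section
variable {V : Type u} {G : SimpleGraph V}

theorem Wk.refl (m : ℕ) (a : V) : Wk G m a a := ⟨.nil, by simp⟩

theorem Wk.symm {m : ℕ} {a b : V} (h : Wk G m a b) : Wk G m b a := by
  obtain ⟨p, hp⟩ := h
  exact ⟨p.reverse, by simpa using hp⟩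

theorem Wk.trans {m m' : ℕ} {a b c : V} (h : Wk G m a b) (h' : Wk G m' b c) :
    Wk G (m + m') a c := by
  obtain ⟨p, hp⟩ := h
  obtain ⟨q, hq⟩ := h'
  exact ⟨p.append q, by simp; omega⟩

theorem Wk.mono {m m' : ℕ} {a b : V} (h : Wk G m a b) (h' : m ≤ m') : Wk G m' a b := by
  obtain ⟨p, hp⟩ := h
  exact ⟨p, hp.trans h'⟩

theorem Wk.adj {a b : V} (h : G.Adj a b) : Wk G 1 a b := ⟨.cons h .nil, by simp⟩

theorem Wk.dist_le {m : ℕ} {a b : V} (h : Wk G m a b) : G.dist a b ≤ m := by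
  obtain ⟨p, hp⟩ := h
  exact (SimpleGraph.dist_le p).trans hp

theorem Wk.of_dist (hc : G.Connected) {m : ℕ} {a b : V} (h : G.dist a b ≤ m) : Wk G m a b := by
  obtain ⟨p, hp⟩ := hc.exists_walk_length_eq_dist a b
  exact ⟨p, hp.le.trans h⟩

theorem Wk.ind {P : ℕ → V → V → Prop} (h0 : ∀ m a, P m a a)
    (h1 : ∀ m a b c, G.Adj a b → P m b c → P (m + 1) a c) {m : ℕ} {a b : V} (h : Wk G m a b) :
    P m a b := by
  obtain ⟨p, hp⟩ := h
  induction p generalizing m with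
  | nil => exact h0 _ _
  | cons h p ih =>
    obtain ⟨k, rfl⟩ : ∃ k, m = k + 1 := ⟨m - 1, by simp at hp; omega⟩
    exact h1 _ _ _ _ h (ih (by simpa using hp))

theorem Wk.map {V' : Type v} {G' : SimpleGraph V'} {F : V → V'}
    (hF : ∀ a b, G.Adj a b → G'.Adj (F a) (F b)) {m : ℕ} {a b : V} (h : Wk G m a b) :
    Wk G' m (F a) (F b) :=
  Wk.ind (P := fun m a b => Wk G' m (F a) (F b)) (fun _ _ => Wk.refl _ _)
    (fun m _ _ _ h1 h2 => by rw [add_comm]; exact (Wk.adj (hF _ _ h1)).trans h2) h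

theorem dist_map (hc : G.Connected) {V' : Type v} {G' : SimpleGraph V'} {F : V → V'}
    (hF : ∀ a b, G.Adj a b → G'.Adj (F a) (F b)) (a b : V) : G'.dist (F a) (F b) ≤ G.dist a b :=
  ((Wk.of_dist hc le_rfl).map hF).dist_le

theorem conn_ind (hc : G.Connected) {P : V → Prop} {a : V} (h0 : P a)
    (h1 : ∀ b c, G.Adj b c → P b → P c) (b : V) : P b :=
  Wk.ind (P := fun _ a b => P a → P b) (fun _ _ h => h)
    (fun _ _ _ _ h h2 h3 => h2 (h1 _ _ h h3)) (Wk.of_dist hc (le_refl (G.dist a b))) h0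

theorem no_transl {D : ℤ → ℤ} {B : ℤ} (hg : ∀ j, 5 * |j| ≤ D j + B) {c : ℤ}
    (h : ∀ j, D (c + j) ≤ D j + 4) : c = 0 := by
  by_contra hc
  have h1 : ∀ m : ℕ, D (m * c) ≤ D 0 + 4 * m := fun m => by
    induction m with
    | zero => simp
    | succ m ih =>
      have := h (m * c)
      push_cast
      rw [show ((m : ℤ) + 1) * c = c + m * c by ring]
      linarith
  have h2 := h1 (D 0 + B + 1).toNat
  have h3 := hg ((D 0 + B + 1).toNat * c)
  have h4 := Int.self_le_toNat (D 0 + B + 1)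
  have h5 : 1 ≤ |c| := Int.one_le_abs hc
  rw [abs_mul, abs_of_nonneg (Int.natCast_nonneg _)] at h3
  have h6 : (0 : ℤ) ≤ (D 0 + B + 1).toNat := Int.natCast_nonneg _
  nlinarith

theorem final (hc : G.Connected) (D : V → ℤ → ℤ) (p : V)
    (ha : ∀ a b, G.Adj a b → ∀ j, D a j ≤ D b j + 2)
    (ht : ∀ q, ∃ e c : ℤ, (e = 1 ∨ e = -1) ∧ ∀ j, D q j = D p (c + e * j))
    (hb : ∃ q, ∀ j, D q j = D p (j - 2)) {B : ℤ} (hg : ∀ j, 5 * |j| ≤ D p j + B) : False := by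
  obtain ⟨q, hq⟩ := hb
  have key : ∀ q, ∀ j, D q j ≤ D p j + 2 ∧ D p j ≤ D q j + 2 := by
    refine conn_ind hc (a := p) (fun j => ⟨by omega, by omega⟩) (fun a b hab ih => ?_)
    have k1 := ha _ _ hab
    have k2 := ha _ _ hab.symm
    obtain ⟨e, c, he, h⟩ := ht a
    obtain ⟨e', c', he', h'⟩ := ht b
    rcases he' with rfl | rfl
    · have : c' = 0 := no_transl hg (fun j => by
        have := h' j; have := k2 j; have := ih j; rw [one_mul] at *; omega)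
      intro j
      rw [h', this]
      simp
    rcases he with rfl | rfl
    · have : c = 0 := no_transl hg (fun j => by
        have := h j; have := ih j; rw [one_mul] at *; omega)
      intro j
      have := h j
      rw [‹c = 0›, zero_add, one_mul] at this
      have := k1 j
      have := k2 j
      omega
    · have : c' - c = 0 := no_transl hg (fun j => by
        have a1 := h (c - j)
        have a2 := h' (c - j)
        have a3 := k2 (c - j)
        rw [show c + -1 * (c - j) = j by ring] at a1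
        rw [show c' + -1 * (c - j) = c' - c + j by ring] at a2
        omega)
      intro j
      rw [h', show c' = c by omega, ← h]
      exact ih j
  have : (-2 : ℤ) = 0 := no_transl hg (fun j => by
    have := hq j
    have := key q j
    rw [show -2 + j = j - 2 by ring]
    omega)
  omega

end

/-- the deck group as permutations -/
structure Deck {V : Type u} (τ : ℤ → ℤ → Equiv.Perm V) : Prop where
  mul : ∀ i c i' c', τ i c * τ i' c' = τ (i + i') (c + sg i * c')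
  inj : ∀ i c i' c', τ i c = τ i' c' → i = i' ∧ c = c'

theorem Deck.one {V : Type u} {τ : ℤ → ℤ → Equiv.Perm V} (h : Deck τ) : τ 0 0 = 1 := by
  have := h.mul 0 0 0 0
  simpa using this

theorem Deck.inv {V : Type u} {τ : ℤ → ℤ → Equiv.Perm V} (h : Deck τ) (i c : ℤ) :
    (τ i c)⁻¹ = τ (-i) (-(sg i * c)) := by
  rw [inv_eq_iff_mul_eq_one, h.mul, ← h.one]
  congr 1
  · ring
  · rw [mul_neg, ← mul_assoc, sg_sq]; ring

theorem Deck.zpow {V : Type u} {τ : ℤ → ℤ → Equiv.Perm V} (h : Deck τ) (i c m : ℤ) :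
    ∃ c', τ i c ^ m = τ (m * i) c' ∧ (c = 0 → c' = 0) ∧ (i = 0 → c' = m * c) := by
  induction m using Int.induction_on with
  | zero => exact ⟨0, by simp [h.one], fun _ => rfl, fun _ => by simp⟩
  | succ m ih =>
    obtain ⟨c', h1, h2, h3⟩ := ih
    refine ⟨_, by rw [zpow_add_one, h1, h.mul, add_mul, one_mul], fun e => ?_, fun e => ?_⟩
    · simp [h2 e, e]
    · rw [h3 e, e, mul_zero, sg_zero]; ring
  | pred m ih =>
    obtain ⟨c', h1, h2, h3⟩ := ih
    refine ⟨_, by rw [zpow_sub_one, h1, h.inv, h.mul, sub_mul, one_mul, sub_eq_add_neg],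
      fun e => ?_, fun e => ?_⟩
    · simp [h2 e, e]
    · rw [h3 e, e, mul_zero, sg_zero]; ring

theorem Deck.conj {V : Type u} {τ : ℤ → ℤ → Equiv.Perm V} (h : Deck τ) (g : Equiv.Perm V)
    (ha : ∃ i c, g * τ 1 0 * g⁻¹ = τ i c) (hb : ∃ i c, g * τ 0 1 * g⁻¹ = τ i c) :
    ∃ i c e, (∀ j, g * τ 1 j * g⁻¹ = τ i (c + e * j)) ∧ (∀ j, g * τ 0 j * g⁻¹ = τ 0 (j * e)) ∧
      ∀ i' j, ∃ c', g * τ i' j * g⁻¹ = τ (i' * i) c' := by
  obtain ⟨i, c, ha⟩ := ha
  obtain ⟨i0, e, hb⟩ := hb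
  have r : τ 0 1 * τ 1 0 * τ 0 1 = τ 1 0 := by simp [h.mul, sg_zero, sg_one]
  have i0z : i0 = 0 := by
    have : τ i0 e * τ i c * τ i0 e = τ i c := by
      rw [← ha, ← hb]
      conv_rhs => rw [← r]
      group
    rw [h.mul, h.mul] at this
    have := (h.inj _ _ _ _ this).1
    omega
  subst i0z
  have b1 : ∀ j, g * τ 0 j * g⁻¹ = τ 0 (j * e) := fun j => by
    obtain ⟨c1, h1, _, h2⟩ := h.zpow 0 1 j
    obtain ⟨c2, h3, _, h4⟩ := h.zpow 0 e j
    rw [h2 rfl, mul_zero, mul_one] at h1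
    rw [h4 rfl, mul_zero] at h3
    rw [← h1, ← h3, ← hb, conj_zpow]
  have a1 : ∀ i', ∃ c', g * τ i' 0 * g⁻¹ = τ (i' * i) c' := fun i' => by
    obtain ⟨c1, h1, h2, _⟩ := h.zpow 1 0 i'
    obtain ⟨c2, h3, _⟩ := h.zpow i c i'
    rw [h2 rfl, mul_one] at h1
    exact ⟨c2, by rw [← h1, ← h3, ← ha, conj_zpow]⟩
  have sp : ∀ i' j, g * τ i' j * g⁻¹ = (g * τ 0 j * g⁻¹) * (g * τ i' 0 * g⁻¹) := fun i' j => by
    have : τ i' j = τ 0 j * τ i' 0 := by simp [h.mul]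
    rw [this]
    group
  refine ⟨i, c, e, fun j => ?_, b1, fun i' j => ?_⟩
  · rw [sp, b1, ha, h.mul, sg_zero]
    congr 1 <;> ring
  · obtain ⟨c', h1⟩ := a1 i'
    exact ⟨_, by rw [sp, b1, h1, h.mul, zero_add]⟩

theorem Deck.conj' {V : Type u} {τ : ℤ → ℤ → Equiv.Perm V} (h : Deck τ) (g : Equiv.Perm V)
    (ha : ∃ i c, g * τ 1 0 * g⁻¹ = τ i c) (hb : ∃ i c, g * τ 0 1 * g⁻¹ = τ i c)
    (ha' : ∃ i c, g⁻¹ * τ 1 0 * g⁻¹⁻¹ = τ i c) (hb' : ∃ i c, g⁻¹ * τ 0 1 * g⁻¹⁻¹ = τ i c) :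
    ∃ i c e, (i = 1 ∨ i = -1) ∧ (e = 1 ∨ e = -1) ∧ ∀ j, g * τ 1 j * g⁻¹ = τ i (c + e * j) := by
  obtain ⟨i, c, e, h1, h2, h3⟩ := h.conj g ha hb
  obtain ⟨i', c', e', h1', h2', h3'⟩ := h.conj g⁻¹ ha' hb'
  refine ⟨i, c, e, ?_, ?_, h1⟩
  · obtain ⟨c'', k⟩ := h3' i (c + e * 0)
    rw [← h1] at k
    have : τ 1 0 = τ (i * i') c'' := by rw [← k]; group
    exact Int.eq_one_or_neg_one_of_mul_eq_one (h.inj _ _ _ _ this).1.symm
  · have k := h2' (1 * e)
    rw [← h2] at k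
    have : τ 0 1 = τ 0 (1 * e * e') := by rw [← k]; group
    have := (h.inj _ _ _ _ this).2
    rw [one_mul] at this
    exact Int.eq_one_or_neg_one_of_mul_eq_one this.symm

end H67.Kb
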