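import Pool.Agent.H67.Kb2

set_option autoImplicit false

namespace H67.Kb

universe u

/-- the data coming from a quasi-isometry -/
structure Hyp {W : Type u} (Y : SimpleGraph W) (n : ℕ → ℤ) (r : W → A) (f : A → W) (L : ℕ) :
    Prop where
  conn : Y.Connected
  h1 : ∀ (m : ℕ) w w', Y.dist w w' ≤ m → Cl n (L * (m + 1)) (r w) (r w')
  h2 : ∀ (m : ℕ) p q, Nr m p q → Y.dist (f p) (f q) ≤ L * (m + 1)
  h2' : ∀ p q, Eqv n p q → f p = f q
  h3 : ∀ p, Cl n L p (r (f p))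
  h4 : ∀ w, Y.dist (f (r w)) w ≤ L
  L1 : 1 ≤ L
  hA : ∀ j, 20 * (L : ℤ) ^ 3 < n j
  hB : ∀ j, 20 * (L : ℤ) ^ 2 * n 0 < n (j + 1)

/-- vertices of the cover -/
def Cv {W : Type u} (n : ℕ → ℤ) (r : W → A) : Type u := {p : W × A // Eqv n (r p.1) p.2}

/-- the cover -/
def cg {W : Type u} (Y : SimpleGraph W) (n : ℕ → ℤ) (r : W → A) (L : ℕ) : SimpleGraph (Cv n r) where
  Adj p q := Y.Adj p.1.1 q.1.1 ∧ Nr (2 * L) p.1.2 q.1.2
  symm := ⟨fun _ _ h => ⟨h.1.symm, h.2.symm⟩⟩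
  loopless := ⟨fun _ h => h.1.ne rfl⟩

variable {W : Type u} {Y : SimpleGraph W} {n : ℕ → ℤ} {r : W → A} {f : A → W} {L : ℕ}

theorem Hyp.lt (H : Hyp Y n r f L) {a b c : ℤ} (ha : 0 ≤ a) (hb : 0 ≤ b) (hc : 0 ≤ c)
    (h : a + b + c ≤ 20) {m : ℤ} (hm : m ≤ a * L ^ 3 + b * L ^ 2 + c * L) (j : ℕ) : m < n j := by
  have h1 : (1 : ℤ) ≤ L := by exact_mod_cast H.L1
  have h2 : (L : ℤ) ≤ L ^ 2 := by nlinarith
  have h3 : (L : ℤ) ^ 2 ≤ L ^ 3 := by nlinarith
  have := H.hA j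
  nlinarith

theorem Cv.ext {p q : Cv n r} (h : p.1.1 = q.1.1) {m : ℤ} (h' : Nr m p.1.2 q.1.2)
    (hm : ∀ j, m < n j) : p = q := by
  apply Subtype.ext
  refine Prod.ext h ?_
  have h1 := p.2
  have h2 := q.2
  rw [← h] at h2
  exact (h1.symm.trans h2).eq h' hm

theorem wk_nr {m : ℕ} {p q : Cv n r} (h : Wk (cg Y n r L) m p q) : Nr (2 * L * m) p.1.2 q.1.2 := by
  refine Wk.ind (P := fun (m : ℕ) (p q : Cv n r) => Nr (2 * L * m) p.1.2 q.1.2) ?_ ?_ h
  · intro m a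
    exact (Nr.refl _).mono (by positivity)
  · intro m a b c h1 h2
    exact (h1.2.trans h2).mono (by push_cast; linarith)

theorem Hyp.step (H : Hyp Y n r f L) (p : Cv n r) {w : W} (h : Y.Adj p.1.1 w) :
    ∃ q : Cv n r, q.1.1 = w ∧ (cg Y n r L).Adj p q := by
  obtain ⟨u, h1, h2⟩ := (H.h1 1 _ _ (Wk.adj h).dist_le).left p.2
  exact ⟨⟨(w, u), h1⟩, rfl, h, h2.mono (by push_cast; linarith)⟩

theorem Hyp.walk (H : Hyp Y n r f L) {m : ℕ} {w w' : W} (h : Wk Y m w w') :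
    ∀ p : Cv n r, p.1.1 = w → ∃ q : Cv n r, q.1.1 = w' ∧ Wk (cg Y n r L) m p q := by
  refine Wk.ind (P := fun m w w' => ∀ p : Cv n r, p.1.1 = w →
    ∃ q : Cv n r, q.1.1 = w' ∧ Wk (cg Y n r L) m p q)
    (fun m a p hp => ⟨p, hp, Wk.refl _ _⟩) (fun m a b c h1 h2 p hp => ?_) h
  obtain ⟨q, hq, h3⟩ := H.step p (hp ▸ h1)
  obtain ⟨q', hq', h4⟩ := h2 q hq
  exact ⟨q', hq', by rw [add_comm]; exact (Wk.adj h3).trans h4⟩

theorem Hyp.near (H : Hyp Y n r f L) {m : ℕ} {p q : Cv n r} (h : Y.dist p.1.1 q.1.1 ≤ m) {M : ℤ}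
    (h' : Nr M p.1.2 q.1.2) (hM : ∀ j, 2 * L * m + M < n j) : Wk (cg Y n r L) m p q := by
  obtain ⟨q', h1, h2⟩ := H.walk (Wk.of_dist H.conn h) p rfl
  rwa [Cv.ext h1 ((wk_nr h2).symm.trans h') hM] at h2

theorem Hyp.sec (H : Hyp Y n r f L) :
    ∃ S : A → Cv n r, (∀ a, (S a).1.1 = f a) ∧ ∀ a, Nr L a (S a).1.2 := by
  choose s h1 h2 using H.h3
  exact ⟨fun a => ⟨(f a, s a), h1 a⟩, fun _ => rfl, h2⟩

theorem Hyp.bound (H : Hyp Y n r f L) {m : ℕ} {p q : Cv n r} (h : Nr m p.1.2 q.1.2) :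
    Wk (cg Y n r L) (L + 2 * L * m + L) p q := by
  obtain ⟨S, s1, s2⟩ := H.sec
  have h1 : (1 : ℤ) ≤ L := by exact_mod_cast H.L1
  have a : ∀ p : Cv n r, Wk (cg Y n r L) L p (S p.1.2) := fun p => by
    refine H.near ?_ (s2 _) (H.lt (a := 0) (b := 2) (c := 1) le_rfl (by norm_num) (by norm_num)
      (by norm_num) (by nlinarith))
    rw [s1, ← H.h2' _ _ p.2, SimpleGraph.dist_comm]
    exact H.h4 _
  have b : Wk (cg Y n r L) (2 * L * m) (S p.1.2) (S q.1.2) := by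
    refine chain (P := fun m a b => Wk (cg Y n r L) (2 * L * m) (S a) (S b))
      (fun _ => Wk.refl _ _) (fun m a b c k1 k2 => ?_) h
    rw [mul_add, mul_one]
    refine k1.trans (H.near ?_ (((s2 b).symm.trans k2).trans (s2 c))
      (H.lt (a := 0) (b := 4) (c := 3) le_rfl (by norm_num) (by norm_num)
      (by norm_num) (by push_cast; nlinarith)))
    rw [s1, s1]
    have := H.h2 1 b c k2
    omega
  exact ((a p).trans b).trans (a q).symm

theorem Hyp.cconn (H : Hyp Y n r f L) : (cg Y n r L).Connected := by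
  obtain ⟨S, _, _⟩ := H.sec
  have : Nonempty (Cv n r) := ⟨S ⟨0, 0, fun _ => ⟨by simp, by simp⟩⟩⟩
  refine ⟨fun p q => ?_⟩
  obtain ⟨m, hm⟩ := Nr.ex p.1.2 q.1.2
  obtain ⟨w, _⟩ := H.bound hm
  exact ⟨w⟩

theorem Hyp.uniq (H : Hyp Y n r f L) {F F' : Cv n r → Cv n r}
    (hF : ∀ a b, (cg Y n r L).Adj a b → (cg Y n r L).Adj (F a) (F b))
    (hF' : ∀ a b, (cg Y n r L).Adj a b → (cg Y n r L).Adj (F' a) (F' b))
    (h : ∀ a, (F a).1.1 = (F' a).1.1) {p : Cv n r} (hp : F p = F' p) : F = F' := by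
  funext q
  refine conn_ind H.cconn (P := fun q => F q = F' q) hp (fun b c hbc ih => ?_) q
  have k1 := (hF _ _ hbc).2
  have k2 := (hF' _ _ hbc).2
  rw [ih] at k1
  exact Cv.ext (h c) (k1.symm.trans k2) (H.lt (a := 0) (b := 0) (c := 4) le_rfl le_rfl
    (by norm_num) (by norm_num) (by linarith))

theorem Hyp.lift (H : Hyp Y n r f L) {g : W → W} (hg : ∀ a b, Y.Adj a b → Y.Adj (g a) (g b))
    (p q : Cv n r) (hq : q.1.1 = g p.1.1) :
    ∃ F : Cv n r → Cv n r, (∀ a b, (cg Y n r L).Adj a b → (cg Y n r L).Adj (F a) (F b)) ∧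
      (∀ a, (F a).1.1 = g a.1.1) ∧ F p = q := by
  have h1 : (1 : ℤ) ≤ L := by exact_mod_cast H.L1
  have gd := dist_map H.conn hg
  have c1 : ∀ a : Cv n r, Cl n (L * (L + 1)) (r (g a.1.1)) (r (g (f a.1.2))) := fun a => by
    refine H.h1 L _ _ ((gd _ _).trans ?_)
    rw [← H.h2' _ _ a.2, SimpleGraph.dist_comm]
    exact H.h4 _
  have c2 : ∀ a : Cv n r, Cl n (L * (L + 1)) (r (g (f a.1.2))) (r (g a.1.1)) := fun a => by
    refine H.h1 L _ _ ((gd _ _).trans ?_)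
    rw [← H.h2' _ _ a.2]
    exact H.h4 _
  obtain ⟨u, u1, u2⟩ := (c1 p).left (hq ▸ q.2)
  obtain ⟨Ψ, k1, k2, k3⟩ := lifting (n := n) (ψ := fun a => r (g (f a))) (M := L * (2 * L + 1))
    (fun a b hab => by
      have := H.h1 (2 * L) (g (f a)) (g (f b)) ((gd _ _).trans (by have := H.h2 1 a b hab; omega))
      push_cast at this
      exact this)
    (H.lt (a := 0) (b := 8) (c := 4) le_rfl (by norm_num) (by norm_num) (by norm_num)
      (by nlinarith)) p.1.2 u u1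
  choose v v1 v2 using fun a : Cv n r => (c2 a).left (k1 a.1.2)
  refine ⟨fun a => ⟨(g a.1.1, v a), v1 a⟩, fun a b hab => ?_, fun _ => rfl, ?_⟩
  · obtain ⟨c, e1, e2⟩ := H.step ⟨(g a.1.1, v a), v1 a⟩ (hg _ _ hab.1)
    have k4 := lip k3 (m := 2 * L) (by push_cast; exact hab.2)
    have : c = ⟨(g b.1.1, v b), v1 b⟩ := Cv.ext e1
      (((e2.2.symm.trans (v2 a).symm).trans k4).trans (v2 b))
      (H.lt (a := 4) (b := 4) (c := 4) (by norm_num) (by norm_num) (by norm_num) (by norm_num)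
      (by push_cast; nlinarith))
    rwa [this] at e2
  · have := v2 p
    rw [k2] at this
    exact Cv.ext hq.symm (this.symm.trans u2.symm)
      (H.lt (a := 0) (b := 2) (c := 2) le_rfl (by norm_num) (by norm_num) (by norm_num)
      (by nlinarith))

/-- action on the first coordinate -/
def up (N i c : ℤ) (a : A) : A := ⟨Function.update a.1 0 (act N i c (a.1 0)), by
  obtain ⟨m, hm⟩ := a.2
  refine ⟨max m (|(act N i c (a.1 0)).1| + |(act N i c (a.1 0)).2|), fun j => ?_⟩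
  by_cases hj : j = 0
  · subst hj
    rw [Function.update_self]
    constructor <;> simp only [Prod.fst_zero, Prod.snd_zero, sub_zero] <;>
      refine le_max_of_le_right ?_ <;> simp
  · rw [Function.update_of_ne hj]
    exact (hm j).mono (le_max_left _ _)⟩

theorem up_zero (N i c : ℤ) (a : A) : (up N i c a).1 0 = act N i c (a.1 0) := by simp [up]

theorem up_succ (N i c : ℤ) (a : A) (j : ℕ) : (up N i c a).1 (j + 1) = a.1 (j + 1) := by simp [up]

theorem A_ext {a b : A} (h0 : a.1 0 = b.1 0) (h1 : ∀ j, a.1 (j + 1) = b.1 (j + 1)) : a = b := by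
  apply Subtype.ext
  funext j
  cases j with
  | zero => exact h0
  | succ j => exact h1 j

theorem up_up (N i c i' c' : ℤ) (a : A) :
    up N i c (up N i' c' a) = up N (i + i') (c + sg i * c') a :=
  A_ext (by simp only [up_zero, act_act]) (fun j => by simp only [up_succ])

theorem up_id (N : ℤ) (a : A) : up N 0 0 a = a :=
  A_ext (by simp only [up_zero, act_zero]) (fun j => by simp only [up_succ])

theorem up_eqv (i c : ℤ) (a : A) : Eqv n a (up (n 0) i c a) := fun j => by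
  cases j with
  | zero => exact ⟨i, c, up_zero _ _ _ _⟩
  | succ j => exact ⟨0, 0, by rw [up_succ, act_zero]⟩

theorem up_nr {m : ℤ} {a b : A} (h : Nr m a b) (N i c : ℤ) : Nr m (up N i c a) (up N i c b) :=
  fun j => by
  cases j with
  | zero => rw [up_zero, up_zero]; exact nr_act (h 0) _ _ _
  | succ j => rw [up_succ, up_succ]; exact h _

/-- deck map -/
def dk (n : ℕ → ℤ) (r : W → A) (i c : ℤ) (p : Cv n r) : Cv n r :=
  ⟨(p.1.1, up (n 0) i c p.1.2), p.2.trans (up_eqv i c _)⟩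

theorem dk_dk (i c i' c' : ℤ) (p : Cv n r) :
    dk n r i c (dk n r i' c' p) = dk n r (i + i') (c + sg i * c') p := by
  simp only [dk, up_up]

theorem dk_id (p : Cv n r) : dk n r 0 0 p = p := by
  simp only [dk, up_id]
  rfl

/-- deck permutation -/
def tau (n : ℕ → ℤ) (r : W → A) (i c : ℤ) : Equiv.Perm (Cv n r) where
  toFun := dk n r i c
  invFun := dk n r (-i) (-(sg i * c))
  left_inv p := by rw [dk_dk, sg_neg]; simp [dk_id]
  right_inv p := by
    rw [dk_dk, mul_neg, ← mul_assoc, sg_sq]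
    simp [dk_id]

theorem tau_adj (i c : ℤ) (a b : Cv n r) (h : (cg Y n r L).Adj a b) :
    (cg Y n r L).Adj (tau n r i c a) (tau n r i c b) := ⟨h.1, up_nr h.2 _ _ _⟩

theorem Hyp.deck (H : Hyp Y n r f L) : Deck (tau n r) := by
  refine ⟨fun i c i' c' => Equiv.ext (dk_dk i c i' c'), fun i c i' c' h => ?_⟩
  obtain ⟨p⟩ := H.cconn.nonempty
  have := congrArg (fun s : Equiv.Perm (Cv n r) => (s p).1.2.1 0) h
  simp only [tau, Equiv.coe_fn_mk, dk, up_zero] at this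
  exact act_inj (H.lt (a := 0) (b := 0) (c := 0) le_rfl le_rfl le_rfl (by norm_num) (by simp) 0) this

theorem Hyp.norm (H : Hyp Y n r f L) (F : Equiv.Perm (Cv n r)) {g : W → W}
    (hF : ∀ a b, (cg Y n r L).Adj a b → (cg Y n r L).Adj (F a) (F b))
    (hg : ∀ a, (F a).1.1 = g a.1.1) {i c : ℤ} (hi : |i| ≤ 1) (hc : |c| ≤ 1) :
    ∃ i' c', F * tau n r i c * F⁻¹ = tau n r i' c' := by
  obtain ⟨S, s1, s2⟩ := H.sec
  have h1 : (1 : ℤ) ≤ L := by exact_mod_cast H.L1
  let p := S ⟨0, 0, fun _ => ⟨by simp, by simp⟩⟩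
  have n0 : (L : ℤ) < n 0 := H.lt (a := 0) (b := 0) (c := 1) le_rfl le_rfl (by norm_num)
    (by norm_num) (by simp) 0
  have a1 : Nr ((n 0).toNat + 2 * L : ℕ) p.1.2 (tau n r i c p).1.2 := fun j => by
    cases j with
    | zero =>
      have := (s2 ⟨0, 0, fun _ => ⟨by simp, by simp⟩⟩ 0).2
      simp only [Pi.zero_apply, Prod.snd_zero, zero_sub, abs_neg] at this
      simp only [tau, Equiv.coe_fn_mk, dk, up_zero, act, nr]
      push_cast
      rw [Int.toNat_of_nonneg (by omega)]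
      rw [abs_le] at this hi hc
      constructor
      · rw [abs_le]; constructor <;> nlinarith
      · rw [abs_le]
        rcases sg_cases i with h | h <;> rw [h] <;> constructor <;> nlinarith
    | succ j =>
      simp only [tau, Equiv.coe_fn_mk, dk, up_succ]
      exact (Nr.refl _ _).mono (by positivity)
  have a2 := wk_nr ((H.bound a1).map hF)
  have e : Eqv n (F p).1.2 (F (tau n r i c p)).1.2 := by
    have k1 := (F p).2
    have k2 := (F (tau n r i c p)).2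
    rw [hg] at k1 k2
    exact k1.symm.trans k2
  obtain ⟨i', c', e0⟩ := e 0
  have : F (tau n r i c p) = tau n r i' c' (F p) := by
    apply Subtype.ext
    refine Prod.ext ((hg _).trans (hg p).symm) (A_ext (e0.trans (up_zero _ _ _ _).symm) (fun j => ?_))
    obtain ⟨i'', c'', e1⟩ := e (j + 1)
    have a3 := a2 (j + 1)
    rw [e1] at a3 ⊢
    refine (act_eq a3 (lt_of_le_of_lt ?_ (H.hB j))).trans (up_succ _ _ _ _ _).symm
    push_cast
    rw [Int.toNat_of_nonneg (by omega)]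
    have : (L : ℤ) ^ 2 * L ≤ L ^ 2 * n 0 := by gcongr
    have : (L : ℤ) ^ 2 * 1 ≤ L ^ 2 * n 0 := by gcongr; omega
    nlinarith
  refine ⟨i', c', ?_⟩
  rw [mul_inv_eq_iff_eq_mul]
  apply Equiv.coe_inj.1
  exact H.uniq (fun a b h => hF _ _ (tau_adj _ _ _ _ h)) (fun a b h => tau_adj _ _ _ _ (hF _ _ h))
    (fun a => (hg _).trans (hg a).symm) this

theorem Hyp.false (H : Hyp Y n r f L) (ht : ∀ w w', ∃ g : Y ≃g Y, g w = w') : False := by
  have hc := H.cconn
  have hd := H.deck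
  obtain ⟨p⟩ := hc.nonempty
  have h1 : (1 : ℤ) ≤ L := by exact_mod_cast H.L1
  have iso : ∀ F : Equiv.Perm (Cv n r),
      (∀ a b, (cg Y n r L).Adj a b → (cg Y n r L).Adj (F a) (F b)) →
      (∀ a b, (cg Y n r L).Adj a b → (cg Y n r L).Adj (F⁻¹ a) (F⁻¹ b)) →
      ∀ a b, (cg Y n r L).dist (F a) (F b) = (cg Y n r L).dist a b := fun F k1 k2 a b => by
    refine le_antisymm (dist_map hc k1 a b) ?_
    simpa using dist_map hc k2 (F a) (F b)
  have ti : ∀ i c a b, (cg Y n r L).dist (tau n r i c a) (tau n r i c b) = (cg Y n r L).dist a b :=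
    fun i c => iso _ (tau_adj _ _) (by rw [hd.inv]; exact tau_adj _ _)
  refine final hc (fun a j => (cg Y n r L).dist a (tau n r 1 j a)) p (fun a b hab j => ?_)
    (fun q => ?_) ⟨tau n r 0 1 p, fun j => ?_⟩ (B := |(p.1.2.1 0).2|) (fun j => ?_)
  · have := (((Wk.adj hab).trans (Wk.of_dist hc (le_refl ((cg Y n r L).dist b (tau n r 1 j b))))).trans
      (Wk.adj (tau_adj 1 j _ _ hab.symm))).dist_le
    omega
  · obtain ⟨g, hg⟩ := ht q.1.1 p.1.1
    obtain ⟨F, f1, f2, f3⟩ := H.lift (g := g) (fun a b h => g.map_adj_iff.2 h) q p hg.symm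
    obtain ⟨F', f1', f2', f3'⟩ := H.lift (g := g.symm) (fun a b h => g.symm.map_adj_iff.2 h) p q
      (by rw [← hg]; simp)
    have l1 : F' ∘ F = id := H.uniq (fun a b h => f1' _ _ (f1 _ _ h)) (fun a b h => h)
      (fun a => by simp [f2, f2']) (p := q) (by simp [f3, f3'])
    have l2 : F ∘ F' = id := H.uniq (fun a b h => f1 _ _ (f1' _ _ h)) (fun a b h => h)
      (fun a => by simp [f2, f2']) (p := p) (by simp [f3, f3'])
    let E : Equiv.Perm (Cv n r) := ⟨F, F', congrFun l1, congrFun l2⟩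
    obtain ⟨i, c, e, hi, he, k⟩ := hd.conj' E (H.norm E f1 f2 (by simp) (by simp))
      (H.norm E f1 f2 (by simp) (by simp)) (H.norm E⁻¹ f1' f2' (by simp) (by simp))
      (H.norm E⁻¹ f1' f2' (by simp) (by simp))
    refine ⟨e, c, he, fun j => ?_⟩
    have k1 : E (tau n r 1 j q) = tau n r i (c + e * j) p := by
      rw [← k, ← f3]
      show _ = E (tau n r 1 j (E⁻¹ (E q)))
      simp
    have k2 := iso E f1 f1' q (tau n r 1 j q)
    rw [k1, show E q = p from f3] at k2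
    rw [← k2]
    rcases hi with rfl | rfl
    · rfl
    · rw [← ti 1 (c + e * j), ← Equiv.Perm.mul_apply, hd.mul, sg_one, SimpleGraph.dist_comm]
      simp [hd.one]
  · rw [← ti 0 1 p, ← Equiv.Perm.mul_apply, ← Equiv.Perm.mul_apply, hd.mul, hd.mul, sg_one, sg_zero]
    congr 4
    ring
  · have := (wk_nr (Wk.of_dist hc (le_refl ((cg Y n r L).dist p (tau n r 1 j p)))) 0).2
    simp only [tau, Equiv.coe_fn_mk, dk, up_zero, act, sg_one] at this ⊢
    have n0 : 10 * (L : ℤ) < n 0 := H.lt (a := 0) (b := 0) (c := 10) le_rfl le_rfl (by norm_num)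
      (by norm_num) (by simp) 0
    have k : |j * n 0| ≤ 2 * L * ((cg Y n r L).dist p (dk n r 1 j p) : ℤ) + 2 * |(p.1.2.1 0).2| := by
      rw [abs_le] at this ⊢
      have z1 := le_abs_self (p.1.2.1 0).2
      have z2 := neg_abs_le (p.1.2.1 0).2
      simp only [dk]
      constructor <;> linarith [this.1, this.2]
    rw [abs_mul, abs_of_pos (by omega : 0 < n 0)] at k
    simp only [dk] at k
    have := abs_nonneg j
    have := abs_nonneg (p.1.2.1 0).2
    nlinarith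

end H67.Kb
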