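import Mathlib

set_option autoImplicit false

namespace H67.Kb

universe u v

/-- `f` is a `(K,C)`-quasi-isometry for the path metrics. -/
def IsQI {V : Type u} {W : Type v} (X : SimpleGraph V) (Y : SimpleGraph W) (K C : ℝ) (f : V → W) :
    Prop :=
  (∀ x x', K⁻¹ * (X.dist x x' : ℝ) - C ≤ (Y.dist (f x) (f x') : ℝ) ∧
    (Y.dist (f x) (f x') : ℝ) ≤ K * (X.dist x x' : ℝ) + C) ∧
  ∀ y, ∃ x, (Y.dist (f x) y : ℝ) ≤ C

/-- The graphs are quasi-isometric. -/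
def QuasiIsometric {V : Type u} {W : Type v} (X : SimpleGraph V) (Y : SimpleGraph W) : Prop :=
  ∃ (K C : ℝ) (f : V → W), 1 ≤ K ∧ 0 ≤ C ∧ IsQI X Y K C f

/-- Coarse transitivity with uniform constants. -/
def CoarselyTransitive {V : Type u} (X : SimpleGraph V) : Prop :=
  ∃ K C : ℝ, 1 ≤ K ∧ 0 ≤ C ∧ ∀ x y, ∃ f : V → V, IsQI X X K C f ∧ f x = y

/-- Vertex-transitivity. -/
def VertexTransitive {V : Type u} (X : SimpleGraph V) : Prop :=
  ∀ x y, ∃ g : X ≃g X, g x = y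

end H67.Kb
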