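import Pool.Agent.H67.Kb3
import Pool.Agent.H67.KbDefs

set_option autoImplicit false

namespace H67.Kb

universe u

/-- the orbit setoid -/
def st (n : ℕ → ℤ) : Setoid A := ⟨Eqv n, Eqv.refl, Eqv.symm, Eqv.trans⟩

/-- the class of a sequence -/
def mk (n : ℕ → ℤ) (a : A) : Quotient (st n) := Quotient.mk _ a

/-- the product of discrete Klein bottles -/
def X (n : ℕ → ℤ) : SimpleGraph (Quotient (st n)) where
  Adj v w := v ≠ w ∧ ∃ a b, mk n a = v ∧ mk n b = w ∧ Nr 1 a b
  symm := ⟨fun _ _ ⟨h, a, b, h1, h2, h3⟩ => ⟨h.symm, b, a, h2, h1, h3.symm⟩⟩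
  loopless := ⟨fun _ h => h.1 rfl⟩

variable {n : ℕ → ℤ}

theorem mk_eq {a b : A} : mk n a = mk n b ↔ Eqv n a b := Quotient.eq (r := st n)

theorem mk_surj (v : Quotient (st n)) : ∃ a, mk n a = v := Quotient.exists_rep v

theorem X_wk {m : ℕ} {a b : A} (h : Nr m a b) : Wk (X n) m (mk n a) (mk n b) := by
  refine chain (P := fun m a b => Wk (X n) m (mk n a) (mk n b)) (fun _ => Wk.refl _ _)
    (fun m a b c k1 k2 => k1.trans ?_) h
  by_cases e : mk n b = mk n c
  · rw [e]; exact Wk.refl _ _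
  · exact Wk.adj ⟨e, b, c, rfl, rfl, k2⟩

theorem X_conn : (X n).Connected := by
  have : Nonempty (Quotient (st n)) := ⟨mk n ⟨0, 0, fun _ => ⟨by simp, by simp⟩⟩⟩
  refine ⟨fun v w => ?_⟩
  obtain ⟨a, rfl⟩ := mk_surj v
  obtain ⟨b, rfl⟩ := mk_surj w
  obtain ⟨m, hm⟩ := Nr.ex a b
  obtain ⟨p, _⟩ := X_wk (n := n) hm
  exact ⟨p⟩

theorem X_cl {m : ℕ} {a b : A} (h : (X n).dist (mk n a) (mk n b) ≤ m) : Cl n m a b := by
  refine Wk.ind (G := X n) (P := fun (m : ℕ) v w => ∀ a b, mk n a = v → mk n b = w → Cl n m a b)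
    ?_ ?_ (Wk.of_dist X_conn h) a b rfl rfl
  · intro m v a b h1 h2
    exact ⟨a, mk_eq.1 (h2.trans h1.symm), (Nr.refl a).mono (by positivity)⟩
  · rintro m v w z ⟨_, a', b', k1, k2, k3⟩ ih a b h1 h2
    obtain ⟨c, c1, c2⟩ := ih b' b k2 h2
    have : Cl n (1 + m) a' b := ⟨c, c1, k3.trans c2⟩
    exact (this.left (mk_eq.1 (k1.trans h1.symm))).mono (by push_cast; omega)

theorem Cl.dist {m : ℕ} {a b : A} (h : Cl n m a b) : (X n).dist (mk n a) (mk n b) ≤ m := by
  obtain ⟨c, h1, h2⟩ := h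
  rw [mk_eq.2 h1]
  exact (X_wk h2).dist_le

/-- triangle wave -/
def wv (N x : ℤ) : ℤ := sg (x / N) * (N - 2 * (x % N))

theorem wv_add {N : ℤ} (hN : 0 < N) (x i : ℤ) : wv N (x + i * N) = sg i * wv N x := by
  unfold wv
  rw [Int.add_mul_ediv_right _ _ hN.ne', Int.add_mul_emod_self_right, sg_add]
  ring

theorem wv_zero (N : ℤ) : wv N 0 = N := by simp [wv, sg_zero]

theorem wv_succ {N : ℤ} (hN : 0 < N) (x : ℤ) : |wv N (x + 1) - wv N x| ≤ 2 := by
  have h0 : ∀ y, 0 ≤ y → y < N → wv N y = N - 2 * y := fun y h1 h2 => by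
    unfold wv
    rw [Int.ediv_eq_zero_of_lt h1 h2, Int.emod_eq_of_lt h1 h2, sg_zero, one_mul]
  have h1 := Int.emod_nonneg x hN.ne'
  have h2 := Int.emod_lt_of_pos x hN
  have e : x = x % N + x / N * N := by
    have := Int.emod_add_mul_ediv x N
    linarith
  have e1 : wv N x = sg (x / N) * (N - 2 * (x % N)) := rfl
  have e2 : wv N (x + 1) = sg (x / N) * (N - 2 * (x % N + 1)) := by
    have : x + 1 = (x % N + 1) + x / N * N := by linarith
    rw [this, wv_add hN]
    congr 1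
    by_cases h : x % N + 1 < N
    · exact h0 _ (by omega) h
    · have k : x % N + 1 = 0 + 1 * N := by omega
      rw [k, wv_add hN, wv_zero, sg_one]
      ring
  rw [e1, e2, abs_le]
  rcases sg_cases (x / N) with h | h <;> rw [h] <;> constructor <;> linarith

theorem shear {N : ℤ} (hN : 0 < N) (x₀ t : ℤ) : ∃ σ : ℤ → ℤ,
    (∀ x i, σ (x + i * N) = sg i * σ x) ∧ (∀ x, |σ (x + 1) - σ x| ≤ 2) ∧ (∀ x, |σ x| ≤ |t|) ∧
    ∃ c, σ x₀ = t + c * N := by
  obtain ⟨s, c, h1, h2, h3⟩ : ∃ s c, |s| ≤ |t| ∧ |s| ≤ N ∧ s = t + c * N := by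
    by_cases h : |t| ≤ N
    · exact ⟨t, 0, le_rfl, h, by simp⟩
    · have h1 := Int.emod_nonneg t hN.ne'
      have h2 := Int.emod_lt_of_pos t hN
      refine ⟨t % N, -(t / N), by rw [abs_of_nonneg h1]; omega, by rw [abs_of_nonneg h1]; omega, ?_⟩
      have := Int.emod_add_mul_ediv t N
      linarith
  obtain ⟨e, he, hs⟩ : ∃ e : ℤ, (e = 1 ∨ e = -1) ∧ s = e * |s| := by
    rcases abs_cases s with h | h
    · exact ⟨1, Or.inl rfl, by linarith [h.1]⟩
    · exact ⟨-1, Or.inr rfl, by linarith [h.1]⟩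
  have s0 := abs_nonneg s
  generalize |s| = T at *
  refine ⟨fun x => e * cl T 0 (wv N (x - x₀)), fun x i => ?_, fun x => ?_, fun x => ?_, c, ?_⟩
  · simp only
    rw [show x + i * N - x₀ = x - x₀ + i * N by ring, wv_add hN]
    rcases sg_cases i with h | h <;> rcases he with rfl | rfl <;> rw [h] <;> simp only [cl] <;> omega
  · have := wv_succ hN (x - x₀)
    simp only
    rw [show x + 1 - x₀ = x - x₀ + 1 by ring]
    rw [abs_le] at this ⊢
    rcases he with rfl | rfl <;> simp only [cl] <;> omega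
  · rw [abs_le]
    rcases he with rfl | rfl <;> simp only [cl] <;> omega
  · simp only [sub_self, wv_zero]
    rw [← h3, hs]
    rcases he with rfl | rfl <;> simp only [cl] <;> omega

/-- admissible shear data -/
def Adm (n : ℕ → ℤ) (s : ℕ → ℤ) (σ : ℕ → ℤ → ℤ) : Prop :=
  (∀ j x i, σ j (x + i * n j) = sg i * σ j x) ∧ (∀ j x, |σ j (x + 1) - σ j x| ≤ 2) ∧
    ∃ M, (∀ j, |s j| ≤ M) ∧ ∀ j x, |σ j x| ≤ M

/-- the shear map -/
def sh {s : ℕ → ℤ} {σ : ℕ → ℤ → ℤ} (h : Adm n s σ) (a : A) : A :=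
  ⟨fun j => ((a.1 j).1 + s j, (a.1 j).2 + σ j (a.1 j).1), by
    obtain ⟨M, h1, h2⟩ := h.2.2
    obtain ⟨m, hm⟩ := a.2
    refine ⟨M + m, fun j => nr.trans (q := a.1 j) ⟨?_, ?_⟩ (hm j)⟩
    · simpa using h1 j
    · simpa using h2 j _⟩

theorem Adm.inv {s : ℕ → ℤ} {σ : ℕ → ℤ → ℤ} (h : Adm n s σ) :
    Adm n (fun j => - s j) (fun j x => - σ j (x - s j)) := by
  obtain ⟨h1, h2, M, h3, h4⟩ := h
  refine ⟨fun j x i => ?_, fun j x => ?_, M, fun j => by simpa using h3 j,
    fun j x => by simpa using h4 j _⟩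
  · simp only
    rw [show x + i * n j - s j = x - s j + i * n j by ring, h1]; ring
  · have := h2 j (x - s j)
    simp only
    rw [show x + 1 - s j = x - s j + 1 by ring]
    rw [abs_le] at this ⊢
    constructor <;> linarith [this.1, this.2]

theorem sh_eqv {s : ℕ → ℤ} {σ : ℕ → ℤ → ℤ} (h : Adm n s σ) {a b : A} (e : Eqv n a b) :
    Eqv n (sh h a) (sh h b) := fun j => by
  obtain ⟨i, c, e⟩ := e j
  refine ⟨i, c, ?_⟩
  simp only [sh, e, act, h.1]
  ext
  · simp only; ring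
  · simp only; ring

theorem sh_nr {s : ℕ → ℤ} {σ : ℕ → ℤ → ℤ} (h : Adm n s σ) (a b : A) (e : Nr 1 a b) :
    Nr 3 (sh h a) (sh h b) := fun j => by
  obtain ⟨e1, e2⟩ := e j
  have k1 := h.2.1 j (a.1 j).1
  have k2 := h.2.1 j (b.1 j).1
  simp only [sh, nr]
  rw [abs_le] at e1 e2 k1 k2
  refine ⟨by rw [abs_le]; omega, ?_⟩
  rw [abs_le]
  have : (a.1 j).1 = (b.1 j).1 ∨ (a.1 j).1 = (b.1 j).1 + 1 ∨ (b.1 j).1 = (a.1 j).1 + 1 := by omega
  rcases this with k | k | k
  · rw [k]; omega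
  · rw [k]; omega
  · rw [k]; omega

/-- the shear on the quotient -/
def shq {s : ℕ → ℤ} {σ : ℕ → ℤ → ℤ} (h : Adm n s σ) : Quotient (st n) → Quotient (st n) :=
  Quotient.map (sh h) (fun _ _ e => sh_eqv h e)

theorem shq_dist {s : ℕ → ℤ} {σ : ℕ → ℤ → ℤ} (h : Adm n s σ) (v w : Quotient (st n)) :
    (X n).dist (shq h v) (shq h w) ≤ 3 * (X n).dist v w := by
  obtain ⟨a, rfl⟩ := mk_surj v
  obtain ⟨b, rfl⟩ := mk_surj w
  obtain ⟨c, h1, h2⟩ := X_cl (le_refl ((X n).dist (mk n a) (mk n b)))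
  exact Cl.dist (a := sh h a) (b := sh h b) ⟨sh h c, sh_eqv h h1, by
    push_cast; exact lip (sh_nr h) h2⟩

theorem X_coarse (hn : ∀ j, 0 < n j) : CoarselyTransitive (X n) := by
  refine ⟨3, 0, by norm_num, le_rfl, fun v w => ?_⟩
  obtain ⟨a, rfl⟩ := mk_surj v
  obtain ⟨b, rfl⟩ := mk_surj w
  choose σ h1 h2 h3 c h4 using fun j => shear (hn j) (a.1 j).1 ((b.1 j).2 - (a.1 j).2)
  obtain ⟨m, hm⟩ := Nr.ex b a
  have h : Adm n (fun j => (b.1 j).1 - (a.1 j).1) σ :=
    ⟨h1, h2, m, fun j => (hm j).1, fun j x => (h3 j x).trans (hm j).2⟩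
  have l1 : ∀ v, shq h.inv (shq h v) = v := fun v => by
    obtain ⟨z, rfl⟩ := mk_surj v
    refine congrArg (mk n) (Subtype.ext (funext fun j => ?_))
    simp [sh, add_assoc]
  have l2 : ∀ v, shq h (shq h.inv v) = v := fun v => by
    obtain ⟨z, rfl⟩ := mk_surj v
    refine congrArg (mk n) (Subtype.ext (funext fun j => ?_))
    simp [sh, sub_eq_add_neg, add_assoc]
  refine ⟨shq h, ⟨fun x x' => ⟨?_, ?_⟩, fun y => ⟨shq h.inv y, by rw [l2]; simp⟩⟩, ?_⟩
  · have := shq_dist h.inv (shq h x) (shq h x')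
    rw [l1, l1] at this
    have : ((X n).dist x x' : ℝ) ≤ 3 * (X n).dist (shq h x) (shq h x') := by exact_mod_cast this
    linarith
  · have : ((X n).dist (shq h x) (shq h x') : ℝ) ≤ 3 * (X n).dist x x' := by
      exact_mod_cast shq_dist h x x'
    linarith
  · refine (mk_eq.2 (fun j => ⟨0, c j, ?_⟩)).symm
    simp only [sh, act, h4, sg_zero]
    ext
    · simp
    · simp only; ring

/-- drop the first coordinates -/
def drop (k : ℕ) (a : A) : A := ⟨fun j => a.1 (j + k), by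
  obtain ⟨m, hm⟩ := a.2
  exact ⟨m, fun j => hm _⟩⟩

/-- pad with zeros -/
def pad (k : ℕ) (a : A) : A := ⟨fun j => if j < k then 0 else a.1 (j - k), by
  obtain ⟨m, hm⟩ := a.2
  refine ⟨m, fun j => ?_⟩
  simp only
  split_ifs
  · have := (abs_nonneg _).trans (hm 0).1
    exact ⟨by simpa using this, by simpa using this⟩
  · exact hm _⟩

theorem drop_pad (k : ℕ) (a : A) : drop k (pad k a) = a :=
  Subtype.ext (funext fun j => by simp [drop, pad])

theorem Cl.drop {m : ℤ} {a b : A} (h : Cl n m a b) (k : ℕ) :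
    Cl (fun j => n (j + k)) m (drop k a) (drop k b) := by
  obtain ⟨c, h1, h2⟩ := h
  exact ⟨Kb.drop k c, fun j => h1 (j + k), fun j => h2 (j + k)⟩

theorem pad_nr {m : ℕ} {a b : A} (h : Nr m a b) (k : ℕ) : Nr m (pad k a) (pad k b) := fun j => by
  simp only [pad]
  split_ifs
  · exact ⟨by simp, by simp⟩
  · exact h _

theorem pad_eqv {k : ℕ} {a b : A} (h : Eqv (fun j => n (j + k)) a b) :
    Eqv n (pad k a) (pad k b) := fun j => by
  simp only [pad]
  split_ifs with hj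
  · exact ⟨0, 0, (act_zero _ _).symm⟩
  · have := h (j - k)
    simp only at this
    rwa [Nat.sub_add_cancel (by omega)] at this

theorem reduce {N : ℤ} (hN : 0 < N) (p : ℤ × ℤ) : ∃ i c, nr N 0 (act N i c p) := by
  refine ⟨-(p.1 / N), -(sg (-(p.1 / N)) * p.2 / N), ?_, ?_⟩
  · have h1 := Int.emod_nonneg p.1 hN.ne'
    have h2 := Int.emod_lt_of_pos p.1 hN
    have := Int.emod_add_mul_ediv p.1 N
    simp only [act, Prod.fst_zero, abs_le]
    constructor <;> linarith
  · generalize hy : sg (-(p.1 / N)) * p.2 = y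
    have h1 := Int.emod_nonneg y hN.ne'
    have h2 := Int.emod_lt_of_pos y hN
    have := Int.emod_add_mul_ediv y N
    simp only [act, Prod.snd_zero, abs_le, hy]
    constructor <;> linarith

theorem pad_drop (hn : ∀ j, 0 < n j) {k : ℕ} {B : ℕ} (hB : ∀ j < k, n j ≤ B) (a : A) :
    Cl n B (pad k (drop k a)) a := by
  choose i c h using fun j => reduce (hn j) (a.1 j)
  obtain ⟨m, hm⟩ := a.2
  refine ⟨⟨fun j => if j < k then act (n j) (i j) (c j) (a.1 j) else a.1 j, max m B, fun j => ?_⟩,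
    fun j => ?_, fun j => ?_⟩
  · simp only
    split_ifs with hj
    · exact (h j).symm.mono ((hB j hj).trans (le_max_right _ _))
    · exact (hm j).mono (le_max_left _ _)
  · simp only
    split_ifs with hj
    · exact ⟨_, _, rfl⟩
    · exact ⟨0, 0, (act_zero _ _).symm⟩
  · simp only [pad, drop]
    split_ifs with hj
    · exact (h j).mono (hB j hj)
    · rw [Nat.sub_add_cancel (by omega)]
      exact ⟨by simp, by simp⟩

/-- the scales -/
def sc : ℕ → ℕ
  | 0 => 2
  | k + 1 => sc k ^ 4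

theorem sc_ge (k : ℕ) : k + 2 ≤ sc k := by
  induction k with
  | zero => simp [sc]
  | succ k ih =>
    simp only [sc]
    have : 2 ≤ sc k := by omega
    have h : sc k * 2 ≤ sc k ^ 4 := by
      calc sc k * 2 ≤ sc k * sc k ^ 3 := by
            gcongr
            exact this.trans (Nat.le_self_pow (by norm_num) _)
        _ = sc k ^ 4 := by ring
    omega

theorem sc_mono : Monotone sc := monotone_nat_of_le_succ (fun k => Nat.le_self_pow (by norm_num) _)

theorem not_qi {W : Type u} (Y : SimpleGraph W) (hc : Y.Connected) (ht : VertexTransitive Y) :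
    ¬ QuasiIsometric (X (fun j => (sc j : ℤ))) Y := by
  rintro ⟨K, C, f, hK, hC, h1, h2⟩
  choose r hr using h2
  choose o ho using mk_surj (n := fun j => (sc j : ℤ))
  obtain ⟨M, hM⟩ := exists_nat_ge (max K C)
  have MK : K ≤ M := (le_max_left _ _).trans hM
  have MC : C ≤ M := (le_max_right _ _).trans hM
  have M1 : 1 ≤ M := by exact_mod_cast hK.trans MK
  have up : ∀ x x', Y.dist (f x) (f x') ≤ M * (X _).dist x x' + M := fun x x' => by
    have : (Y.dist (f x) (f x') : ℝ) ≤ M * (X _).dist x x' + M :=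
      (h1 x x').2.trans (by gcongr)
    exact_mod_cast this
  have lo : ∀ x x', (X _).dist x x' ≤ M * (Y.dist (f x) (f x') + M) := fun x x' => by
    have a := (h1 x x').1
    rw [sub_le_iff_le_add, inv_mul_le_iff₀ (by linarith)] at a
    have : ((X _).dist x x' : ℝ) ≤ M * (Y.dist (f x) (f x') + M) := a.trans (by gcongr)
    exact_mod_cast this
  have hr' : ∀ w, Y.dist (f (r w)) w ≤ M := fun w => by exact_mod_cast (hr w).trans MC
  let k := 20 * (3 * M ^ 2) ^ 3
  let B := sc k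
  have Bk : 20 * (3 * M ^ 2) ^ 3 < B := by have := sc_ge k; omega
  have B2 : 2 ≤ B := by have := sc_ge k; omega
  let L := 3 * M ^ 2 * B
  have L1 : 3 * M ^ 2 ≤ L := Nat.le_mul_of_pos_right _ (by omega)
  have L2 : M ≤ M ^ 2 := Nat.le_self_pow (by norm_num) _
  have L3 : 20 * L ^ 3 < sc (k + 1) := by
    show 20 * (3 * M ^ 2 * B) ^ 3 < B ^ 4
    rw [mul_pow, ← mul_assoc, show B ^ 4 = B * B ^ 3 by ring]
    exact Nat.mul_lt_mul_of_pos_right Bk (by positivity)
  refine Hyp.false (Y := Y) (n := fun j => (sc (j + (k + 1)) : ℤ))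
    (r := fun w => drop (k + 1) (o (r w))) (f := fun a => f (mk _ (pad (k + 1) a))) (L := L)
    ⟨hc, fun m w w' h => ?_, fun m p q h => ?_, fun p q h => ?_, fun p => ?_, fun w => ?_, by omega,
      fun j => ?_, fun j => ?_⟩ ht
  · have a : Y.dist (f (r w)) (f (r w')) ≤ M + m + M := by
      have t1 := hc.dist_triangle (u := f (r w)) (v := w) (w := f (r w'))
      have t2 := hc.dist_triangle (u := w) (v := w') (w := f (r w'))
      have t3 := hr' w
      have t4 := hr' w'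
      rw [SimpleGraph.dist_comm] at t4
      omega
    have b : (X (fun j => (sc j : ℤ))).dist (mk _ (o (r w))) (mk _ (o (r w'))) ≤ L * (m + 1) := by
      rw [ho, ho]
      refine (lo _ _).trans ?_
      have : M * (Y.dist (f (r w)) (f (r w')) + M) ≤ M * (M + m + M + M) := by gcongr
      nlinarith
    have := (X_cl b).drop (k + 1)
    push_cast at this
    exact this
  · have := (X_wk (n := fun j => (sc j : ℤ)) (pad_nr h (k + 1))).dist_le
    refine (up _ _).trans ?_
    have : M * (X _).dist (mk (fun j => (sc j : ℤ)) (pad (k + 1) p)) (mk _ (pad (k + 1) q)) ≤ L * m := by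
      gcongr
      omega
    nlinarith
  · rw [mk_eq.2 (pad_eqv (n := fun j => (sc j : ℤ)) h)]
  · have b : (X _).dist (mk (fun j => (sc j : ℤ)) (pad (k + 1) p))
        (mk _ (o (r (f (mk _ (pad (k + 1) p)))))) ≤ L := by
      rw [ho]
      refine (lo _ _).trans ?_
      have t := hr' (f (mk _ (pad (k + 1) p)))
      rw [SimpleGraph.dist_comm] at t
      nlinarith
    have := (X_cl b).drop (k + 1)
    rwa [drop_pad] at this
  · have a := (pad_drop (n := fun j => (sc j : ℤ)) (k := k + 1) (B := B)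
      (fun j => by have := sc_ge j; omega)
      (fun j hj => by exact_mod_cast sc_mono (by omega : j ≤ k)) (o (r w))).dist
    rw [ho] at a
    have t1 := hc.dist_triangle (u := f (mk _ (pad (k + 1) (drop (k + 1) (o (r w)))))) (v := f (r w))
      (w := w)
    have t2 := up (mk _ (pad (k + 1) (drop (k + 1) (o (r w))))) (r w)
    have t3 := hr' w
    have t4 : M * (X _).dist (mk (fun j => (sc j : ℤ)) (pad (k + 1) (drop (k + 1) (o (r w))))) (r w)
      ≤ M * B := by gcongr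
    have t5 : M * B ≤ M ^ 2 * B := by gcongr
    have t6 : M ≤ M ^ 2 * B := L2.trans (Nat.le_mul_of_pos_right _ (by omega))
    have : L = 3 * (M ^ 2 * B) := by simp only [L]; ring
    omega
  · exact_mod_cast L3.trans_le (sc_mono (by omega))
  · have a : sc (k + 1 + 1) ≤ sc (j + 1 + (k + 1)) := sc_mono (by omega)
    have b : 20 * L ^ 2 * sc (0 + (k + 1)) < sc (k + 1 + 1) := by
      rw [zero_add]
      show _ < sc (k + 1) ^ 4
      have c : L ^ 2 ≤ L ^ 3 := Nat.pow_le_pow_right (by omega) (by norm_num)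
      have d : sc (k + 1) ≤ sc (k + 1) ^ 3 := Nat.le_self_pow (by norm_num) _
      rw [show sc (k + 1) ^ 4 = sc (k + 1) ^ 3 * sc (k + 1) by ring]
      exact Nat.mul_lt_mul_of_pos_right (by omega) (by omega)
    exact_mod_cast b.trans_le a

end H67.Kb
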