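import Mathlib

/-! A Latin square of order 16 (a sign-modified split-octonion table) whose determinant is
`∏ (8 linear forms) * (A - B)^2 * (A + B)^2`. -/

namespace Pool.Agent.H67.Latin

open Matrix MvPolynomial

def f (i j : Fin 8) : Bool :=
  !![false, true, true, true, false, true, true, true;
     false, false, true, false, false, false, false, true;
     false, false, false, true, false, true, false, false;
     false, true, false, false, false, false, true, false;
     false, false, false, false, false, false, true, true;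
     true, false, true, false, true, false, true, false;
     true, false, false, true, true, true, true, true;
     true, true, false, false, true, false, false, true] i j

def xr (i j : Fin 8) : Fin 8 := Fin.ofNat 8 (i.1 ^^^ j.1)

def L (i j : Fin 16) : Fin 16 :=
  Fin.ofNat 16 ((xr (Fin.ofNat 8 i.1) (Fin.ofNat 8 j.1)).1 + 8 * ((i.1 / 8 + j.1 / 8 +
    (if f (Fin.ofNat 8 i.1) (Fin.ofNat 8 j.1) then 1 else 0)) % 2))

def lo (i : Fin 8) : Fin 16 := Fin.castAdd 8 i
def hi (i : Fin 8) : Fin 16 := Fin.natAdd 8 i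

theorem Lrow : ∀ i, Function.Injective (L i) := by
  unfold Function.Injective; decide +kernel
theorem Lcol : ∀ j, Function.Injective (fun i => L i j) := by
  unfold Function.Injective; decide +kernel
theorem Lsym : ∀ i j, L (hi i) (hi j) = L (lo i) (lo j) ∧ L (hi i) (lo j) = L (lo i) (hi j) ∧
    L (lo i) (lo j) = (if f i j then hi (xr i j) else lo (xr i j)) ∧
    L (lo i) (hi j) = (if f i j then lo (xr i j) else hi (xr i j)) := by decide +kernel

/-- the characters of `C₂³` -/
def h (c s : Fin 8) : ℤ :=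
  !![1, 1, 1, 1, 1, 1, 1, 1; 1, -1, 1, -1, 1, -1, 1, -1; 1, 1, -1, -1, 1, 1, -1, -1;
     1, -1, -1, 1, 1, -1, -1, 1; 1, 1, 1, 1, -1, -1, -1, -1; 1, -1, 1, -1, -1, 1, -1, 1;
     1, 1, -1, -1, -1, -1, 1, 1; 1, -1, -1, 1, -1, 1, 1, -1] c s

theorem hmul : ∀ c i j, h c (xr i j) = h c i * h c j := by decide +kernel
theorem horth : ∀ c d, ∑ s, h c s * h d s = if c = d then 8 else 0 := by decide +kernel
theorem xr_inv : ∀ i j, xr (xr i j) j = i := by decide +kernel

def xe (j : Fin 8) : Fin 8 ≃ Fin 8 := ⟨fun i => xr i j, fun i => xr i j, fun i => xr_inv i j,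
  fun i => xr_inv i j⟩

section
variable {R : Type} [CommRing R]

theorem det_sym {n : Type} [Fintype n] [DecidableEq n] (U V : Matrix n n R) :
    (fromBlocks U V V U).det = (U + V).det * (U - V).det := by
  have h1 : fromBlocks 1 1 0 1 * fromBlocks U V V U =
      fromBlocks (U + V) 0 V (U - V) * fromBlocks (1 : Matrix n n R) 1 0 1 := by
    simp [fromBlocks_multiply, add_comm]
  have h2 := congrArg det h1
  simpa [det_mul, det_fromBlocks_zero₂₁, det_fromBlocks_zero₁₂] using h2

theorem det_Z [IsDomain R] [CharZero R] (z : Fin 8 → R) :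
    (Matrix.of fun i j => z (xr i j)).det = ∏ c, ∑ s, (h c s : R) * z s := by
  let H : Matrix (Fin 8) (Fin 8) R := Matrix.of fun c s => (h c s : R)
  have h1 : H * (Matrix.of fun i j => z (xr i j)) =
      diagonal (fun c => ∑ s, (h c s : R) * z s) * H := by
    ext c j
    rw [diagonal_mul, mul_apply, Finset.sum_mul, ← (xe j).sum_comp]
    refine Finset.sum_congr rfl fun s _ => ?_
    simp only [H, of_apply, xe, Equiv.coe_fn_mk, xr_inv, hmul]
    push_cast; ring
  have h2 : H * Hᵀ = diagonal fun _ => (8 : R) := by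
    ext c d
    have := congrArg (Int.cast : ℤ → R) (horth c d)
    push_cast at this
    simpa [H, mul_apply, diagonal_apply] using this
  have h3 : H.det ≠ 0 := by
    intro h0
    have := congrArg det h2
    rw [det_mul, h0, zero_mul, det_diagonal] at this
    simp at this
    exact absurd this.symm (by norm_num)
  have h4 := congrArg det h1
  rw [det_mul, det_mul, det_diagonal, mul_comm] at h4
  exact mul_right_cancel₀ h3 h4

def qA (y : Fin 8 → R) : R := y 0 ^ 2 + y 1 ^ 2 + y 2 ^ 2 + y 3 ^ 2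
def qB (y : Fin 8 → R) : R := y 4 ^ 2 + y 5 ^ 2 + y 6 ^ 2 + y 7 ^ 2

def Lx (y : Fin 8 → R) : Matrix (Fin 4) (Fin 4) R :=
  !![y 0, -y 1, -y 2, -y 3; y 1, y 0, -y 3, y 2; y 2, y 3, y 0, -y 1; y 3, -y 2, y 1, y 0]
def Lc (y : Fin 8 → R) : Matrix (Fin 4) (Fin 4) R :=
  !![y 0, y 1, y 2, y 3; -y 1, y 0, y 3, -y 2; -y 2, -y 3, y 0, y 1; -y 3, y 2, -y 1, y 0]
def Ry (y : Fin 8 → R) : Matrix (Fin 4) (Fin 4) R :=
  !![y 4, -y 5, -y 6, -y 7; y 5, y 4, y 7, -y 6; y 6, -y 7, y 4, y 5; y 7, y 6, -y 5, y 4]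
def Rc (y : Fin 8 → R) : Matrix (Fin 4) (Fin 4) R :=
  !![y 4, y 5, y 6, y 7; -y 5, y 4, -y 7, y 6; -y 6, y 7, y 4, -y 5; -y 7, -y 6, y 5, y 4]
def W (y : Fin 8 → R) : Matrix (Fin 4) (Fin 4) R :=
  !![y 0, y 1, -y 2, -y 3; -y 1, y 0, -y 3, y 2; -y 2, -y 3, -y 0, -y 1; -y 3, y 2, y 1, -y 0]

theorem e1 (y : Fin 8 → R) :
    (Matrix.of fun i j => if f i j then -y (xr i j) else y (xr i j)).submatrix
      (finSumFinEquiv (m := 4) (n := 4)) (finSumFinEquiv (m := 4) (n := 4)) =
      fromBlocks (Lx y) (Ry y) (Rc y) (W y) := by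
  ext i j
  rcases i with i | i <;> rcases j with j | j <;> fin_cases i <;> fin_cases j <;> rfl

theorem e2 (y : Fin 8 → R) : -Rc y * Lx y + Lx y * Rc y = 0 := by
  ext i j
  simp only [Matrix.add_apply, mul_apply, Fin.sum_univ_four, Matrix.neg_apply]
  fin_cases i <;> fin_cases j <;> simp [Rc, Lx] <;> ring

theorem e3 (y : Fin 8 → R) : -Rc y * Ry y + Lx y * W y =
    diagonal ![qA y - qB y, qA y - qB y, -(qA y + qB y), -(qA y + qB y)] := by
  ext i j
  simp only [Matrix.add_apply, mul_apply, Fin.sum_univ_four, Matrix.neg_apply, diagonal_apply]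
  fin_cases i <;> fin_cases j <;> simp [Rc, Ry, Lx, W, qA, qB] <;> ring

theorem e4 (y : Fin 8 → R) : Lx y * Lc y = diagonal fun _ => qA y := by
  ext i j
  simp only [mul_apply, Fin.sum_univ_four, diagonal_apply]
  fin_cases i <;> fin_cases j <;> simp [Lc, Lx, qA] <;> ring

theorem det_M [IsDomain R] (y : Fin 8 → R) (hA : qA y ≠ 0) :
    (Matrix.of fun i j => if f i j then -y (xr i j) else y (xr i j)).det =
      (qA y - qB y) ^ 2 * (qA y + qB y) ^ 2 := by
  have e5 : (Lx y).det ≠ 0 := by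
    intro h0
    have := congrArg det (e4 y)
    rw [det_mul, h0, zero_mul, det_diagonal] at this
    simp at this
    exact hA (pow_eq_zero_iff (by norm_num) |>.1 this.symm)
  have e6 : fromBlocks 1 0 (-Rc y) (Lx y) * fromBlocks (Lx y) (Ry y) (Rc y) (W y) =
      fromBlocks (Lx y) (Ry y) 0
      (diagonal ![qA y - qB y, qA y - qB y, -(qA y + qB y), -(qA y + qB y)]) := by
    rw [fromBlocks_multiply, e2, e3]; simp
  have e7 := congrArg det e6
  rw [det_mul, det_fromBlocks_zero₁₂, det_fromBlocks_zero₂₁, det_one, one_mul, det_diagonal,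
    ← e1, det_submatrix_equiv_self] at e7
  rw [mul_left_cancel₀ e5 e7, Fin.prod_univ_four]
  simp; ring

theorem det_L [IsDomain R] [CharZero R] (x : Fin 16 → R)
    (hA : qA (fun s => x (lo s) - x (hi s)) ≠ 0) :
    (Matrix.of fun i j => x (L i j)).det =
      (∏ c, ∑ s, (h c s : R) * (x (lo s) + x (hi s))) *
      ((qA (fun s => x (lo s) - x (hi s)) - qB (fun s => x (lo s) - x (hi s))) ^ 2 *
      (qA (fun s => x (lo s) - x (hi s)) + qB (fun s => x (lo s) - x (hi s))) ^ 2) := by
  have e1 : (Matrix.of fun i j => x (L i j)).submatrix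
      (finSumFinEquiv (m := 8) (n := 8)) (finSumFinEquiv (m := 8) (n := 8)) =
      fromBlocks (Matrix.of fun i j => x (L (lo i) (lo j))) (Matrix.of fun i j => x (L (lo i) (hi j)))
        (Matrix.of fun i j => x (L (lo i) (hi j))) (Matrix.of fun i j => x (L (lo i) (lo j))) := by
    ext i j
    rcases i with i | i <;> rcases j with j | j
    · rfl
    · rfl
    · exact congrArg x (Lsym i j).2.1
    · exact congrArg x (Lsym i j).1
  rw [← det_submatrix_equiv_self (finSumFinEquiv (m := 8) (n := 8)), e1, det_sym,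
    ← det_Z, ← det_M _ hA]
  congr 2
  · ext i j
    simp only [Matrix.add_apply, of_apply, (Lsym i j).2.2.1, (Lsym i j).2.2.2]
    split_ifs <;> ring
  · ext i j
    simp only [Matrix.sub_apply, of_apply, (Lsym i j).2.2.1, (Lsym i j).2.2.2]
    split_ifs <;> ring

end

theorem aff {σ : Type} [Fintype σ] (p : MvPolynomial σ ℂ) (hp : p.totalDegree ≤ 1) :
    ∃ (a0 : ℂ) (a : σ → ℂ), ∀ x, eval x p = a0 + ∑ i, a i * x i := by
  classical
  rw [p.as_sum]
  refine Finset.sum_induction _
    (fun p : MvPolynomial σ ℂ => ∃ (a0 : ℂ) (a : σ → ℂ), ∀ x, eval x p = a0 + ∑ i, a i * x i)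
    ?_ ⟨0, 0, by simp⟩ ?_
  · rintro p q ⟨a0, a, ha⟩ ⟨b0, b, hb⟩
    refine ⟨a0 + b0, a + b, fun x => ?_⟩
    simp only [map_add, ha, hb, Pi.add_apply, add_mul, Finset.sum_add_distrib]; ring
  · intro d hd
    have h1 : (d.sum fun _ e => e) ≤ 1 := (le_totalDegree hd).trans hp
    rcases Nat.le_one_iff_eq_zero_or_eq_one.1 h1 with h0 | h0
    · have : d = 0 := by
        ext i
        by_contra hne
        have := Finset.single_le_sum (f := fun i => d i) (fun _ _ => Nat.zero_le _)
          (Finsupp.mem_support_iff.2 hne)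
        simp only [Finsupp.sum] at h0
        simp at hne
        omega
      subst this
      exact ⟨coeff 0 p, 0, by simp⟩
    · obtain ⟨i, rfl⟩ := (Finsupp.sum_eq_one_iff _).1 h0
      refine ⟨0, Pi.single i (coeff (Finsupp.single i 1) p), fun x => ?_⟩
      rw [Finset.sum_eq_single i (fun j _ hj => by simp [hj]) (by simp)]
      simp [eval_monomial]

/-- a quadric restricting to `t₀² + t₁² + t₂²` on three coordinates is irreducible. -/
theorem irr2 {σ : Type} [Fintype σ] [DecidableEq σ] (p : MvPolynomial σ ℂ)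
    (hp : p.totalDegree ≤ 2) (i j k : σ)
    (he : ∀ s t u : ℂ, eval (Pi.single i s + Pi.single j t + Pi.single k u) p =
      s ^ 2 + t ^ 2 + u ^ 2) : p.totalDegree = 2 ∧ Irreducible p := by
  have key : ∀ (a : σ → ℂ) (s t u : ℂ),
      ∑ l, a l * (Pi.single i s + Pi.single j t + Pi.single k u : σ → ℂ) l =
        a i * s + a j * t + a k * u := by
    intro a s t u
    simp [mul_add, Finset.sum_add_distrib, Pi.single_apply]
  have h2 : p.totalDegree = 2 := by
    by_contra hne
    obtain ⟨a0, a, ha⟩ := aff p (by omega)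
    have e0 := he 0 0 0
    have e1 := he 1 0 0
    have e2 := he (-1) 0 0
    rw [ha, key] at e0 e1 e2
    grind
  refine ⟨h2, fun H => ?_, fun a b hab => ?_⟩
  · simp [(MvPolynomial.isUnit_iff_totalDegree_of_isReduced.mp H).2] at h2
  have hp0 : p ≠ 0 := by rintro rfl; simp at h2
  have ha0 : a ≠ 0 := by rintro rfl; simp [hab] at hp0
  have hb0 : b ≠ 0 := by rintro rfl; simp [hab] at hp0
  have hd : a.totalDegree + b.totalDegree = 2 := by
    rw [← h2, hab, totalDegree_mul_of_isDomain ha0 hb0]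
  have hu : ∀ c : MvPolynomial σ ℂ, c ≠ 0 → c.totalDegree = 0 → IsUnit c := by
    intro c hc h0
    rw [totalDegree_eq_zero_iff_eq_C] at h0
    rw [h0] at hc ⊢
    exact (IsUnit.mk0 _ (by simpa using hc)).map C
  by_contra hcon
  rw [not_or] at hcon
  have h3 : a.totalDegree ≠ 0 := fun h0 => hcon.1 (hu a ha0 h0)
  have h4 : b.totalDegree ≠ 0 := fun h0 => hcon.2 (hu b hb0 h0)
  obtain ⟨a0, c, ha⟩ := aff a (by omega)
  obtain ⟨b0, d, hb⟩ := aff b (by omega)
  have hh : ∀ s t u : ℂ, (a0 + (c i * s + c j * t + c k * u)) *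
      (b0 + (d i * s + d j * t + d k * u)) = s ^ 2 + t ^ 2 + u ^ 2 := by
    intro s t u
    rw [← he, hab, map_mul, ha, hb, key, key]
  have e0 := hh 0 0 0
  have e1 := hh 1 0 0
  have e2 := hh (-1) 0 0
  have e3 := hh 0 1 0
  have e4 := hh 0 0 1
  have e5 := hh 1 1 0
  have e6 := hh 1 0 1
  have e7 := hh 0 1 1
  have e8 := hh 0 (-1) 0
  have e9 := hh 0 0 (-1)
  grind

end Pool.Agent.H67.Latin
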