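import Mathlib

set_option autoImplicit false

namespace H67.LinL

abbrev V := Fin 9 → ZMod 2

theorem z2 (x : ZMod 2) : x = 0 ∨ x = 1 := by revert x; decide
theorem addself (u : V) : u + u = 0 := by
  funext i; exact CharTwo.add_self_eq_zero _
theorem addcan (u v : V) : u + (u + v) = v := by rw [← add_assoc, addself, zero_add]
def e (k : Fin 9) : V := fun i => if i = k then 1 else 0
def t : V := e 8
def good (v : V) : Prop := v ≠ 0 ∧ v 8 = 0
def Ind (a b c : V) : Prop := a ≠ b ∧ c ≠ a ∧ c ≠ b ∧ c ≠ a + b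

theorem good.add {v w : V} (h : good v) (k : good w) (n : v ≠ w) : good (v + w) :=
  ⟨fun e => n (by rw [← addcan v w, e, add_zero]), by simp [h.2, k.2]⟩
theorem good.ne {v w : V} (k : good w) : v ≠ v + w := fun e => k.1 (by simpa using e)

theorem ne_t {v w : V} (h : v 8 = 0) (k : w 8 = 1) : v ≠ w := fun e => by
  rw [e, k] at h; exact one_ne_zero h

structure Net (X : Type) where
  B : Setoid X
  T : Setoid X
  E : V → Setoid X
  eb : ∀ {v a b}, E v a b → B a b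
  add : ∀ {v w a b}, E v a b → E w a b → E (v + w) a b
  ex : ∀ {u v w a b c}, Ind u v w → B a b → B a c → ∃ P, E u P a ∧ E v P b ∧ E w P c
  t1 : ∀ {a b}, E t a b → T a b
  t2 : ∀ {a b}, B a b → T a b → E t a b
  ts : ∀ a x, ∃ y, B a y ∧ T y x

namespace Net
variable {X : Type} (N : Net X)

def R (v : V) (p r x y : X) : Prop :=
  ∃ P Q, N.E v P p ∧ N.E v Q r ∧ N.E (v + t) P Q ∧ N.T P x ∧ N.T Q y

/-- a relation gluing the fibres in direction `v` -/
structure Gl (v : V) (Y : Setoid X) : Prop where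
  e1 : ∀ {a b}, N.E v a b → Y a b
  z : ∃ Z : Setoid X, (∀ {a b}, N.E (v + t) a b → Z a b) ∧ (∀ {a b}, Y a b → N.T a b → Z a b) ∧
    ∀ {a b}, Y a b → Z a b → N.T a b

theorem gl (v : V) : N.Gl v (N.E v) :=
  ⟨id, N.E (v + t), id, fun h k => N.add h (N.t2 (N.eb h) k),
    fun h k => N.t1 (addcan v t ▸ N.add h k)⟩

variable {N}

theorem func {v : V} {Y : Setoid X} (g : N.Gl v Y) {p r p' r' x y x' y' : X} (h : N.R v p r x y)
    (h' : N.R v p' r' x' y') (hp : Y p p') (hr : Y r r') (hx : N.T x x') : N.T y y' := by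
  obtain ⟨P, Q, a1, a2, a3, a4, a5⟩ := h
  obtain ⟨P', Q', b1, b2, b3, b4, b5⟩ := h'
  obtain ⟨Z, z1, z2, z3⟩ := g.z
  have c1 := z2 (Y.trans' (g.e1 a1) (Y.trans' hp (Y.symm' (g.e1 b1))))
    (N.T.trans' a4 (N.T.trans' hx (N.T.symm' b4)))
  have c2 := z3 (Y.trans' (g.e1 a2) (Y.trans' hr (Y.symm' (g.e1 b2))))
    (Z.trans' (Z.symm' (z1 a3)) (Z.trans' c1 (z1 b3)))
  exact N.T.trans' (N.T.symm' a5) (N.T.trans' c2 b5)

theorem t8 : t 8 = 1 := rfl

theorem tot3 {v w : V} (hv : good v) (hw : good w) (n : v ≠ w) {p r q s : X} (h : N.B p r)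
    (hq : N.B p q) (hs : N.B p s) (x : X) : ∃ P Q, N.E v P p ∧ N.E w P q ∧ N.T P x ∧
      N.E v Q r ∧ N.E w Q s ∧ N.E (v + t) P Q := by
  obtain ⟨y, h1, h2⟩ := N.ts p x
  obtain ⟨P, a1, a2, a3⟩ := N.ex (u := v) (v := w) (w := t) ⟨n, (ne_t hv.2 t8).symm,
    (ne_t hw.2 t8).symm, (ne_t (by simp [hv.2, hw.2]) t8).symm⟩ hq h1
  obtain ⟨Q, b1, b2, b3⟩ := N.ex (u := v) (v := w) (w := v + t) (a := r) (b := s) (c := P)
    ⟨n, (ne_t hv.2 (by simp [hv.2, t8])).symm, (ne_t hw.2 (by simp [hv.2, t8])).symm,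
      (ne_t (by simp [hv.2, hw.2]) (by simp [hv.2, t8])).symm⟩ (N.B.trans' (N.B.symm' h) hs)
    (N.B.trans' (N.B.symm' h) (N.B.symm' (N.eb a1)))
  exact ⟨P, Q, a1, a2, N.T.trans' (N.t1 a3) h2, b1, b2, (N.E _).symm' b3⟩

theorem other {v : V} (_ : good v) : ∃ w, good w ∧ v ≠ w := by
  by_cases h : v = e 0
  · exact ⟨e 1, by unfold good; decide, by rw [h]; decide⟩
  · exact ⟨e 0, by unfold good; decide, h⟩

theorem tot {v : V} (hv : good v) {p r : X} (h : N.B p r) (x : X) : ∃ y, N.R v p r x y := by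
  obtain ⟨w, hw, n⟩ := other hv
  obtain ⟨P, Q, a1, -, a3, a4, -, a6⟩ := tot3 hv hw n h h h x
  exact ⟨Q, P, Q, a1, a4, a6, a3, N.T.refl' _⟩

variable (N) in
open Classical in
noncomputable def τ (v : V) (p r : X) : Function.End (Quotient N.T) := fun m =>
  if h : ∃ y, N.R v p r m.out y then ⟦h.choose⟧ else m

theorem spec {v : V} {p r x y : X} (h : N.R v p r x y) : N.τ v p r ⟦x⟧ = ⟦y⟧ := by
  have hx : N.T (Quotient.out (s := N.T) ⟦x⟧) x := Quotient.mk_out x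
  have h' : ∃ y, N.R v p r (Quotient.out (s := N.T) ⟦x⟧) y :=
    let ⟨P, Q, a1, a2, a3, a4, a5⟩ := h; ⟨y, P, Q, a1, a2, a3, N.T.trans' a4 (N.T.symm' hx), a5⟩
  exact (dif_pos h').trans (Quotient.sound
    (func (N.gl v) h'.choose_spec h ((N.E v).refl' _) ((N.E v).refl' _) hx))

theorem cross {v : V} (hv : good v) {Y : Setoid X} (g : N.Gl v Y) {p r p' r' : X} (h : N.B p r)
    (h' : N.B p' r') (hp : Y p p') (hr : Y r r') : N.τ v p r = N.τ v p' r' := by
  funext m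
  induction m using Quotient.inductionOn with
  | h x =>
    obtain ⟨y, hy⟩ := tot hv h x
    obtain ⟨y', hy'⟩ := tot hv h' x
    rw [spec hy, spec hy']
    exact Quotient.sound (func g hy hy' hp hr (N.T.refl' _))

theorem τ_one {v : V} (hv : good v) {p r : X} (h : N.E v p r) : N.τ v p r = 1 := by
  funext m
  induction m using Quotient.inductionOn with
  | h x =>
    obtain ⟨y, P, Q, a1, -, -, a4, -⟩ := tot hv (N.eb h) x
    exact spec ⟨P, P, a1, (N.E v).trans' a1 h, (N.E _).refl' _, a4, a4⟩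

theorem τ_comp {v : V} (hv : good v) {p r q : X} (h : N.B p r) (h' : N.B r q) :
    N.τ v r q * N.τ v p r = N.τ v p q := by
  funext m
  induction m using Quotient.inductionOn with
  | h x =>
    obtain ⟨y, hy⟩ := tot hv h x
    obtain ⟨z, hz⟩ := tot hv h' y
    show N.τ v r q (N.τ v p r _) = _
    rw [spec hy, spec hz]
    obtain ⟨P, Q, a1, a2, a3, a4, a5⟩ := hy
    obtain ⟨P', Q', b1, b2, b3, b4, b5⟩ := hz
    have c := (N.E v).trans' a2 ((N.E v).symm' b1)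
    have d := N.add c (N.t2 (N.eb c) (N.T.trans' a5 (N.T.symm' b4)))
    exact (spec ⟨P, Q', a1, b2, (N.E _).trans' a3 ((N.E _).trans' d b3), a4, b5⟩).symm

theorem τ_add {v w : V} (hv : good v) (hw : good w) (n : v ≠ w) {p r : X} (h : N.B p r) :
    N.τ w p r * N.τ v p r = N.τ (v + w) p r := by
  funext m
  induction m using Quotient.inductionOn with
  | h x =>
    obtain ⟨P, Q, a1, a2, a3, a4, a5, a6⟩ := tot3 hv hw n h (N.B.refl' p) (N.B.refl' p) x
    obtain ⟨S, b1, b2, b3⟩ := N.ex (u := v) (v := w) (w := w + t) (a := r) (b := r) (c := Q)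
      ⟨n, (ne_t hv.2 (by simp [hw.2, t8])).symm, (ne_t hw.2 (by simp [hw.2, t8])).symm,
        (ne_t (by simp [hv.2, hw.2]) (by simp [hw.2, t8])).symm⟩ (N.B.refl' r)
      (N.B.symm' (N.eb a4))
    show N.τ w p r (N.τ v p r _) = _
    have c1 : N.E (v + w + t) P Q := by
      have := N.add a6 ((N.E w).trans' a2 ((N.E w).symm' a5))
      rwa [add_right_comm] at this
    have c2 : N.E (v + w + t) S Q := by
      have := N.add ((N.E v).trans' b1 ((N.E v).symm' a4)) b3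
      rwa [← add_assoc] at this
    rw [spec ⟨P, Q, a1, a4, a6, a3, N.T.refl' _⟩,
      spec ⟨Q, S, a5, b2, (N.E _).symm' b3, N.T.refl' _, N.T.refl' _⟩,
      spec ⟨P, S, N.add a1 a2, N.add b1 b2, (N.E _).trans' c1 ((N.E _).symm' c2), a3, N.T.refl' _⟩]

theorem τ_row {v w : V} (hv : good v) (hw : good w) (n : v ≠ w) {p r : X} (h : N.B p r) :
    N.τ v p r * N.τ w p r * N.τ (v + w) p r = 1 := by
  have hs := hv.add hw n
  have e1 := τ_add hw hv n.symm h
  have e2 := τ_add hs hv hw.ne.symm h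
  have e3 := τ_add hs hw (by rw [add_comm]; exact hv.ne.symm) h
  rw [add_comm w v] at e1
  rw [add_comm _ v, addcan] at e2
  rw [add_assoc, addself, add_zero] at e3
  have e4 : N.τ w p r * N.τ w r p = 1 := by
    rw [τ_comp hw (N.B.symm' h) h, τ_one hw ((N.E _).refl' _)]
  rw [mul_assoc, e3, ← mul_one (_ * _), ← e4, ← mul_assoc, mul_assoc (N.τ v p r), e1, e2]

theorem τ_inj {v : V} (hv : good v) {p r r' : X} (h : N.B p r) (h' : N.B p r')
    (e : N.τ v p r = N.τ v p r') : N.E v r r' := by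
  obtain ⟨y, P, Q, a1, a2, a3, a4, a5⟩ := tot hv h p
  obtain ⟨y', P', Q', b1, b2, b3, b4, b5⟩ := tot hv h' p
  have c : N.T y y' := Quotient.exact (by
    rw [← spec ⟨P, Q, a1, a2, a3, a4, a5⟩, e, spec ⟨P', Q', b1, b2, b3, b4, b5⟩])
  have c1 := (N.E v).trans' a1 ((N.E v).symm' b1)
  have c2 := N.add c1 (N.t2 (N.eb c1) (N.T.trans' a4 (N.T.symm' b4)))
  have c3 := (N.E _).trans' ((N.E _).symm' a3) ((N.E _).trans' c2 b3)
  have c4 := N.add c3 (N.t2 (N.eb c3) (N.T.trans' a5 (N.T.trans' c (N.T.symm' b5))))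
  rw [add_assoc, addself, add_zero] at c4
  exact (N.E v).trans' ((N.E v).symm' a2) ((N.E v).trans' c4 b2)

variable (N) in
def In (o : X) (v : V) (f : Function.End (Quotient N.T)) : Prop :=
  ∃ p r, N.B o p ∧ N.B o r ∧ f = N.τ v p r

theorem ex2 {v w : V} (hv : good v) (hw : good w) (n : v ≠ w) {a b : X} (h : N.B a b) :
    ∃ P, N.E v P a ∧ N.E w P b :=
  let ⟨P, _, a1, a2, _⟩ := tot3 hv hw n h h h a; ⟨P, a1, a2⟩

theorem In.dir {o : X} {v w : V} (hv : good v) (hw : good w) (n : v ≠ w)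
    {f : Function.End (Quotient N.T)} (h : N.In o v f) : N.In o w f := by
  obtain ⟨p, r, h1, h2, rfl⟩ := h
  have hs := hv.add hw n
  have pr := N.B.trans' (N.B.symm' h1) h2
  obtain ⟨q, a1, a2⟩ := ex2 hv hs hw.ne (N.B.symm' pr)
  have pq := N.B.symm' (N.eb a2)
  refine ⟨p, q, h1, N.B.trans' h1 pq, ?_⟩
  have := τ_add hv hs hw.ne pq
  rw [addcan, τ_one hs ((N.E _).symm' a2), one_mul] at this
  rw [← this]
  exact cross hv (N.gl v) pr pq ((N.E _).refl' _) ((N.E _).symm' a1)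

theorem In.comm {o : X} {v : V} (hv : good v) {f g : Function.End (Quotient N.T)}
    (h : N.In o v f) (k : N.In o v g) : f * g = g * f := by
  obtain ⟨w, hw, n⟩ := other hv
  obtain ⟨p, r, h1, h2, rfl⟩ := h
  obtain ⟨p', r', k1, k2, rfl⟩ := k.dir hv hw n
  obtain ⟨P, a1, a2⟩ := ex2 hv hw n (N.B.trans' (N.B.symm' h1) k1)
  obtain ⟨Q, b1, b2⟩ := ex2 hv hw n (N.B.trans' (N.B.symm' h2) k2)
  have pr := N.B.trans' (N.B.symm' h1) h2
  have pq := N.B.trans' (N.eb a1) (N.B.trans' pr (N.B.symm' (N.eb b1)))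
  rw [cross hv (N.gl v) pr pq ((N.E _).symm' a1) ((N.E _).symm' b1),
    cross hw (N.gl w) (N.B.trans' (N.B.symm' k1) k2) pq ((N.E _).symm' a2) ((N.E _).symm' b2),
    τ_add hv hw n pq, τ_add hw hv n.symm pq, add_comm]

theorem In.move {o o' : X} {v : V} (hv : good v) {Y : Setoid X} (g : N.Gl v Y)
    (mv : ∀ p, N.B o p → ∃ q, Y p q ∧ N.B o' q) {f : Function.End (Quotient N.T)}
    (h : N.In o v f) : N.In o' v f := by
  obtain ⟨p, r, h1, h2, rfl⟩ := h
  obtain ⟨p', a1, a2⟩ := mv p h1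
  obtain ⟨r', b1, b2⟩ := mv r h2
  exact ⟨p', r', a2, b2, cross hv g (N.B.trans' (N.B.symm' h1) h2) (N.B.trans' (N.B.symm' a2) b2) a1 b1⟩

theorem col {v : V} (hv : good v) {Y : Setoid X} (g : N.Gl v Y) {p0 p1 p2 r0 r1 r2 : X}
    (m1 : ∃ q, Y p1 q ∧ N.B p0 q) (h0 : N.B p1 r0) (h1 : N.B p2 r1) (h2 : N.B p0 r2)
    (y0 : Y p0 r0) (y1 : Y p1 r1) (y2 : Y p2 r2) :
    N.τ v p1 r0 * N.τ v p2 r1 * N.τ v p0 r2 = 1 := by
  obtain ⟨q, a1, a2⟩ := m1
  rw [cross hv g h0 (N.B.symm' a2) a1 (Y.symm' y0),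
    cross hv g h1 (N.B.trans' (N.B.symm' h2) a2) y2 (Y.trans' (Y.symm' y1) a1),
    τ_comp hv (N.B.trans' (N.B.symm' h2) a2) (N.B.symm' a2), τ_comp hv h2 (N.B.symm' h2),
    τ_one hv ((N.E _).refl' _)]

end Net

abbrev F := Fin 3 × Fin 3 × Fin 3

theorem prod_trick {A : Type} [CommMonoid A] (g0 g1 g2 : Fin 3 → Fin 3 → Fin 3 → A)
    (r0 : ∀ i j, g0 i j 0 * g0 i j 1 * g0 i j 2 = 1) (r1 : ∀ j k, g1 0 j k * g1 1 j k * g1 2 j k = 1)
    (r2 : ∀ i k, g2 i 0 k * g2 i 1 k * g2 i 2 k = 1)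
    (c : ∀ i j k, (i, j, k) ≠ (2, 2, 2) → g0 i j k * g1 i j k * g2 i j k = 1) :
    g0 2 2 2 * g1 2 2 2 * g2 2 2 2 = 1 := by
  have h : ∏ s : F, g0 s.1 s.2.1 s.2.2 * g1 s.1 s.2.1 s.2.2 * g2 s.1 s.2.1 s.2.2 = 1 := by
    simp only [Finset.prod_mul_distrib, Fintype.prod_prod_type]
    have a0 : ∏ i, ∏ j, ∏ k, g0 i j k = 1 := by simp only [Fin.prod_univ_three (g0 _ _), r0]; simp
    have a1 : ∏ i, ∏ j, ∏ k, g1 i j k = 1 := by
      rw [Finset.prod_comm]
      refine Finset.prod_eq_one fun j _ => ?_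
      rw [Finset.prod_comm]
      exact Finset.prod_eq_one fun k _ => (Fin.prod_univ_three _).trans (r1 j k)
    have a2 : ∏ i, ∏ j, ∏ k, g2 i j k = 1 := by
      refine Finset.prod_eq_one fun i _ => ?_
      rw [Finset.prod_comm]
      exact Finset.prod_eq_one fun k _ => (Fin.prod_univ_three _).trans (r2 i k)
    rw [a0, a1, a2, mul_one, mul_one]
  rwa [Finset.prod_eq_single (2, 2, 2) (fun s _ n => c _ _ _ n) (by simp)] at h

end H67.LinL
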