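import Pool.Agent.H67.LinL1

set_option autoImplicit false

namespace H67.LinL

@[ext] structure G where
  v : V
  w : V

instance : Finite G := Finite.of_injective (fun g : G => (g.v, g.w)) fun _ _ h =>
  G.ext (congrArg Prod.fst h) (congrArg Prod.snd h)

def be (x y : V) : V :=
  ![x 1 * y 6 + x 2 * y 5, x 0 * y 7 + x 3 * y 4, x 3 * y 0 + x 5 * y 6, x 1 * y 6 + x 3 * y 4,
    x 0 * y 7 + x 5 * y 2, x 5 * y 0 + x 6 * y 3, x 4 * y 3 + x 5 * y 2, x 0 * y 7 + x 6 * y 1,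
    x 3 * y 5 + x 6 * y 0]

theorem be_add_l (u u' v : V) : be (u + u') v = be u v + be u' v := by
  funext i; fin_cases i <;> simp [be] <;> ring
theorem be_add_r (u v v' : V) : be u (v + v') = be u v + be u v' := by
  funext i; fin_cases i <;> simp [be] <;> ring
@[simp] theorem be_zero_l (v : V) : be 0 v = 0 := by funext i; fin_cases i <;> simp [be]
@[simp] theorem be_zero_r (v : V) : be v 0 = 0 := by funext i; fin_cases i <;> simp [be]
@[simp] theorem be_t (v : V) : be v t = 0 := by funext i; fin_cases i <;> simp [be, t, e]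

instance : Mul G := ⟨fun g h => ⟨g.v + h.v, g.w + h.w + be g.v h.v⟩⟩
instance : One G := ⟨⟨0, 0⟩⟩
instance : Inv G := ⟨fun g => ⟨g.v, g.w + be g.v g.v⟩⟩

@[simp] theorem mv (g h : G) : (g * h).v = g.v + h.v := rfl
@[simp] theorem mw (g h : G) : (g * h).w = g.w + h.w + be g.v h.v := rfl
@[simp] theorem ov : (1 : G).v = 0 := rfl
@[simp] theorem ow : (1 : G).w = 0 := rfl
@[simp] theorem iv (g : G) : g⁻¹.v = g.v := rfl
@[simp] theorem iw (g : G) : g⁻¹.w = g.w + be g.v g.v := rfl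

theorem aux1 (a b : V) : a + b + a + b = 0 := by rw [add_assoc (a + b), addself]

instance : Group G := Group.ofLeftAxioms
  (by intro a b c; ext1 <;> simp only [mv, mw, be_add_l, be_add_r] <;> abel)
  (by intro a; ext1 <;> simp)
  (by intro a; ext1 <;> simp [addself, aux1])

theorem cv (g h : G) : (g * h * g⁻¹).v = h.v := by
  simp only [mv, iv]; rw [add_right_comm, addself, zero_add]
theorem cw (g h : G) : (g * h * g⁻¹).w = h.w + (be g.v h.v + be h.v g.v) := by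
  simp only [mv, mw, iv, iw, be_add_l]
  have := aux1 g.w (be g.v g.v)
  linear_combination (exp := 1) this

def L : Sublattice (Subgroup G) where
  carrier := {S | S.Normal}
  supClosed' := fun _ h _ h' => by
    haveI : _ := (show Subgroup.Normal _ from h)
    haveI : _ := (show Subgroup.Normal _ from h')
    exact Subgroup.sup_normal _ _
  infClosed' := fun _ h _ h' => by
    haveI : _ := (show Subgroup.Normal _ from h)
    haveI : _ := (show Subgroup.Normal _ from h')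
    exact Subgroup.normal_inf_normal _ _

def Ok (S : AddSubgroup V) (c : V → V) (T : AddSubgroup V) : Prop :=
  (∀ x ∈ S, ∀ y ∈ S, c (x + y) + c x + c y + be x y ∈ T) ∧
    ∀ x ∈ S, ∀ b, be (e b) x + be x (e b) ∈ T

theorem ind (P : V → Prop) (h0 : P 0) (h1 : ∀ b, P (e b)) (h : ∀ x y, P x → P y → P (x + y))
    (v : V) : P v := by
  have : v = ∑ b, if v b = 1 then e b else 0 := by revert v; decide +kernel
  rw [this]
  refine Finset.sum_induction _ P h h0 fun b _ => ?_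
  split_ifs
  exacts [h1 b, h0]

theorem Ok.c0 {S T : AddSubgroup V} {c : V → V} (h : Ok S c T) : c 0 ∈ T := by
  simpa [addself] using h.1 0 S.zero_mem 0 S.zero_mem

def Z' (S : AddSubgroup V) (c : V → V) (T : AddSubgroup V) (h : Ok S c T) : Subgroup G where
  carrier := {g | g.v ∈ S ∧ g.w + c g.v ∈ T}
  one_mem' := ⟨S.zero_mem, by simpa using h.c0⟩
  mul_mem' := by
    rintro a b ⟨h1, h2⟩ ⟨k1, k2⟩
    refine ⟨S.add_mem h1 k1, ?_⟩
    have := T.add_mem (T.add_mem h2 k2) (h.1 _ h1 _ k1)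
    convert this using 1
    simp only [mv, mw]
    linear_combination (exp := 1) - addself (c a.v) - addself (c b.v)
  inv_mem' := by
    rintro a ⟨h1, h2⟩
    refine ⟨h1, ?_⟩
    have := T.add_mem (T.add_mem h2 h.c0) (h.1 _ h1 _ h1)
    convert this using 1
    simp only [iv, iw, addself]
    linear_combination (exp := 1) - addself (c a.v) - addself (c 0)

def Z (S : AddSubgroup V) (c : V → V) (T : AddSubgroup V) (h : Ok S c T) : L := ⟨Z' S c T h, ⟨by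
  rintro x ⟨h1, h2⟩ g
  refine ⟨by rwa [cv], ?_⟩
  rw [cv, cw, add_right_comm]
  refine T.add_mem h2 (ind (fun v => be v x.v + be x.v v ∈ T) (by simp) (h.2 _ h1) ?_ _)
  intro a b ha hb
  rw [be_add_l, be_add_r, add_add_add_comm]
  exact T.add_mem ha hb⟩⟩

def sp (u : V) : AddSubgroup V where
  carrier := {w | w = 0 ∨ w = u}
  zero_mem' := Or.inl rfl
  add_mem' := by rintro a b (rfl | rfl) (rfl | rfl) <;> simp [addself]
  neg_mem' := by
    rintro a (rfl | rfl)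
    exacts [Or.inl neg_zero, Or.inr (neg_eq_of_add_eq_zero_left (addself _))]

def kr (i j : Fin 9) : AddSubgroup V where
  carrier := {w | w i = w j}
  zero_mem' := rfl
  add_mem' := fun {a b} h k => by
    simp only [Set.mem_setOf_eq, Pi.add_apply] at *; rw [h, k]
  neg_mem' := fun {a} h => by simp only [Set.mem_setOf_eq, Pi.neg_apply] at *; rw [h]

theorem mem_sp {u w : V} : w ∈ sp u ↔ w = 0 ∨ w = u := Iff.rfl
theorem mem_kr {i j : Fin 9} {w : V} : w ∈ kr i j ↔ w i = w j := Iff.rfl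
theorem mem_sp2 {u v w : V} : w ∈ sp u ⊔ sp v ↔ w = 0 ∨ w = u ∨ w = v ∨ w = u + v := by
  rw [AddSubgroup.mem_sup]
  constructor
  · rintro ⟨_, rfl | rfl, _, rfl | rfl, rfl⟩ <;> simp
  · rintro (rfl | rfl | rfl | rfl)
    exacts [⟨0, .inl rfl, 0, .inl rfl, by simp⟩, ⟨_, .inr rfl, 0, .inl rfl, by simp⟩,
      ⟨0, .inl rfl, _, .inr rfl, by simp⟩, ⟨_, .inr rfl, _, .inr rfl, rfl⟩]

def U (i : Fin 3) (a : ℕ) : ZMod 2 := if i.1 = 2 ∨ i.1 = a then 1 else 0
def fc (i j k : Fin 3) : V := fun n =>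
  if n = 8 then 0 else U i (n.1 / 4) * U j (n.1 / 2 % 2) * U k (n.1 % 2)
def va (i : Fin 3) : Fin 9 := ⟨i.1, by omega⟩
def vb (i : Fin 3) : Fin 9 := ⟨3 + i.1, by omega⟩
def vc (i : Fin 3) : Fin 9 := ⟨6 + i.1, by omega⟩
def c0 (v : V) : V := if v = fc 2 2 2 ∨ v = fc 2 2 2 + t then e 8 else 0
def c1 (v : V) : V := if v = fc 2 2 2 then e 2 else 0
def Tf (i j k : Fin 3) : AddSubgroup V := kr (va i) (vb j) ⊓ kr (vb j) (vc k)
theorem mem_Tf {i j k : Fin 3} {w : V} :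
    w ∈ Tf i j k ↔ w (va i) = w (vb j) ∧ w (vb j) = w (vc k) := Iff.rfl

def cW (T : AddSubgroup V) : L := Z ⊥ 0 T ⟨by simp, by simp⟩
def cV (S : AddSubgroup V) : L := Z S 0 ⊤ ⟨by simp, by simp⟩

theorem okY : ∀ i j k, Ok (sp (fc i j k)) c0 (Tf i j k) ∧ Ok (sp (fc i j k + t)) c0 (Tf i j k) := by
  simp only [Ok, mem_sp, mem_Tf, forall_eq_or_imp, forall_eq]; decide +kernel
theorem okY' : Ok (sp (fc 2 2 2)) c1 (Tf 2 2 2) := by
  simp only [Ok, mem_sp, mem_Tf, forall_eq_or_imp, forall_eq]; decide +kernel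
theorem okT : Ok (sp t) c0 ⊥ := by
  simp only [Ok, mem_sp, AddSubgroup.mem_bot, forall_eq_or_imp, forall_eq]; decide +kernel
theorem ok0 : ∀ i j, Ok (sp (fc i j 0) ⊔ sp (fc i j 1)) c1 (kr (va i) (vb j)) := by
  simp only [Ok, mem_sp2, mem_kr, forall_eq_or_imp, forall_eq]; decide +kernel
theorem ok1 : ∀ j k, Ok (sp (fc 0 j k) ⊔ sp (fc 1 j k)) c0 (kr (vb j) (vc k)) := by
  simp only [Ok, mem_sp2, mem_kr, forall_eq_or_imp, forall_eq]; decide +kernel
theorem ok2 : ∀ i k, Ok (sp (fc i 0 k) ⊔ sp (fc i 1 k)) c0 (kr (vc k) (va i)) := by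
  simp only [Ok, mem_sp2, mem_kr, forall_eq_or_imp, forall_eq]; decide +kernel

def Y (i j k : Fin 3) : L := Z _ _ _ (okY i j k).1
def Y2 (i j k : Fin 3) : L := Z _ _ _ (okY i j k).2
def Y' : L := Z _ _ _ okY'
def Yt : L := Z _ _ _ okT

theorem lsup {A B C : L} (h : ∀ g ∈ A.1, ∃ a ∈ B.1, a⁻¹ * g ∈ C.1) : A ≤ B ⊔ C := by
  intro g hg
  obtain ⟨a, ha, hb⟩ := h g hg
  rw [← mul_inv_cancel_left a g]
  exact Subgroup.mul_mem_sup ha hb

section
variable {S S' T T' : AddSubgroup V} {c c' : V → V}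

theorem Z_le (h : Ok S c T) (h' : Ok S' c' T') (h1 : S ≤ S') (h2 : T ≤ T')
    (h3 : ∀ v ∈ S, c v + c' v ∈ T') : Z S c T h ≤ Z S' c' T' h' := by
  rintro g ⟨a, b⟩
  refine ⟨h1 a, ?_⟩
  have := T'.add_mem (h2 b) (h3 _ a)
  rwa [add_assoc, addcan] at this

theorem Z_inf (h : Ok S c T) : Z S c T h ⊓ cW ⊤ ≤ cW T := by
  rintro g ⟨⟨-, b⟩, a, -⟩
  refine ⟨a, ?_⟩
  rw [AddSubgroup.mem_bot.1 a] at b
  have := T.add_mem b h.c0
  rwa [add_assoc, addself] at this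

theorem Z_sup (h : Ok S c T) : cV S ≤ Z S c T h ⊔ cW ⊤ :=
  lsup fun g hg => ⟨⟨g.v, c g.v⟩, ⟨hg.1, by simp [addself]⟩, addself _, trivial⟩

theorem Z_cV (h : Ok S c T) : Z S c T h ≤ cV S := Z_le _ _ le_rfl le_top fun _ _ => trivial
theorem bot_Z (h : Ok S c T) : cW T ≤ Z S c T h :=
  Z_le _ _ bot_le le_rfl fun v hv => by simpa [AddSubgroup.mem_bot.1 hv] using h.c0
theorem cW_mono (h : T ≤ T') : cW T ≤ cW T' := Z_le _ _ le_rfl h (by simp)
theorem cV_mono (h : S ≤ S') : cV S ≤ cV S' := Z_le _ _ h le_rfl (by simp)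
theorem cW_inf : cW T ⊓ cW T' ≤ cW (T ⊓ T') := fun _ ⟨a, b⟩ => ⟨a.1, a.2, b.2⟩
theorem cV_inf (h : S ⊓ S' ≤ ⊥) : cV S ⊓ cV S' ≤ cW ⊤ := fun _ ⟨a, b⟩ => ⟨h ⟨a.1, b.1⟩, trivial⟩
theorem cV_sup : cV (S ⊔ S') ≤ cV S ⊔ cV S' := lsup fun g hg => by
  obtain ⟨a, ha, b, hb, e⟩ := AddSubgroup.mem_sup.1 hg.1
  exact ⟨⟨a, 0⟩, ⟨ha, trivial⟩, by simpa [← e, addcan] using hb, trivial⟩
theorem cW_sup {R : AddSubgroup V} (h : ∀ w ∈ R, ∃ a ∈ T, a + w ∈ T') : cW R ≤ cW T ⊔ cW T' :=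
  lsup fun g hg => by
    obtain ⟨a, ha, hb⟩ := h g.w (by simpa using hg.2)
    have := AddSubgroup.mem_bot.1 hg.1
    exact ⟨⟨0, a⟩, ⟨rfl, by simpa using ha⟩, by simpa using this, by simpa [this] using hb⟩
end

theorem c0t : ∀ i j k, c0 (fc i j k + t) = c0 (fc i j k) := by decide +kernel
theorem c00 : c0 0 = 0 ∧ c0 t = 0 ∧ c1 0 = 0 := by decide +kernel

theorem Y2_le (i j k : Fin 3) : Y2 i j k ≤ Y i j k ⊔ Yt := lsup fun g ⟨h1, h2⟩ => by
  rcases h1 with h1 | h1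
  · exact ⟨g, ⟨Or.inl h1, h2⟩, by rw [inv_mul_cancel]; exact one_mem _⟩
  · refine ⟨⟨fc i j k, g.w⟩, ⟨Or.inr rfl, by rwa [h1, c0t] at h2⟩, Or.inr (by simp [h1, addcan]), ?_⟩
    simp [h1, addcan, be_add_r, c00, aux1]

theorem Yt_le (i j k : Fin 3) : Yt ≤ Y i j k ⊔ Y2 i j k := lsup fun g ⟨h1, h2⟩ => by
  rcases h1 with h1 | h1
  · refine ⟨1, one_mem _, Or.inl (by simp [h1]), ?_⟩
    rw [AddSubgroup.mem_bot] at h2
    simp [h2]
  · refine ⟨⟨fc i j k, c0 (fc i j k)⟩, ⟨Or.inr rfl, by simp [addself]⟩, Or.inr (by simp [h1]), ?_⟩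
    have h3 : g.w = 0 := by simpa [h1, c00] using h2
    have := (okY i j k).1.1 _ (Or.inr rfl) _ (Or.inr rfl)
    simp only [addself, c00, zero_add] at this
    simp only [mv, mw, iv, iw, h1, h3, be_t, add_zero, c0t]
    rwa [add_right_comm, addself, zero_add]

end H67.LinL
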