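import Pool.Agent.H67.LinL2

set_option autoImplicit false

namespace H67.LinL

theorem gfc : ∀ i j k, good (fc i j k) := by unfold good; decide +kernel
def v0 : V := fc 0 0 0 + fc 1 1 1
theorem gv0 : good v0 := by unfold good; decide +kernel
theorem fc_ne : ∀ i j k, fc i j k ≠ v0 := by decide +kernel
theorem row0 : ∀ i j, fc i j 0 ≠ fc i j 1 ∧ fc i j 0 + fc i j 1 = fc i j 2 := by decide +kernel
theorem row1 : ∀ i j, fc 0 i j ≠ fc 1 i j ∧ fc 0 i j + fc 1 i j = fc 2 i j := by decide +kernel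
theorem row2 : ∀ i j, fc i 0 j ≠ fc i 1 j ∧ fc i 0 j + fc i 1 j = fc i 2 j := by decide +kernel

theorem sp_le {u v w : V} (h : w = u ∨ w = v ∨ w = u + v) : sp w ≤ sp u ⊔ sp v := by
  rintro _ (rfl | rfl)
  exacts [mem_sp2.2 (Or.inl rfl), mem_sp2.2 (Or.inr h)]

theorem fin3 {f : Fin 3 → V} (h : f 0 + f 1 = f 2) (k : Fin 3) : sp (f k) ≤ sp (f 0) ⊔ sp (f 1) := by
  apply sp_le
  fin_cases k
  exacts [Or.inl rfl, Or.inr (Or.inl rfl), Or.inr (Or.inr h.symm)]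

theorem core {X : Type} (ψ : L → Setoid X)
    (hs : ∀ x y a b, ψ (x ⊔ y) a b ↔ ψ x a b ∧ ψ y a b)
    (hi : ∀ x y a b, ψ (x ⊓ y) a b → ∃ z, ψ x a z ∧ ψ y z b)
    (hall : ∀ a b, ψ (cW ⊥) a b) {p2 p5 : X} (h1 : ψ (cW (kr 2 5)) p2 p5) : ψ (cW ⊤) p2 p5 := by
  have an : ∀ {x y a b}, x ≤ y → ψ y a b → ψ x a b := fun {x y a b} h k =>
    ((hs x y a b).1 (by rwa [sup_eq_right.2 h])).1
  have su : ∀ {x y z a b}, x ≤ y ⊔ z → ψ y a b → ψ z a b → ψ x a b := fun h k l =>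
    an h ((hs _ _ _ _).2 ⟨k, l⟩)
  have nf : ∀ {x y z a b}, y ⊓ z ≤ x → ψ x a b → ∃ c, ψ y a c ∧ ψ z c b := fun h k =>
    hi _ _ _ _ (an h k)
  let N : Net X :=
    { B := ψ (cW ⊤)
      T := ψ Yt
      E := fun v => ψ (cV (sp v))
      eb := an (bot_Z _)
      add := su ((cV_mono (sp_le (Or.inr (Or.inr rfl)))).trans cV_sup)
      ex := by
        rintro u v w a b c ⟨n1, n2, n3, n4⟩ hb hc
        obtain ⟨Q, q1, q2⟩ := nf (cV_inf (S := sp u) (S' := sp v) (by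
          rintro _ ⟨rfl | rfl, h | h⟩
          exacts [rfl, rfl, h, absurd h n1])) hb
        obtain ⟨P, r1, r2⟩ := nf (cV_inf (S := sp u ⊔ sp v) (S' := sp w) (by
          rintro _ ⟨h, rfl | rfl⟩
          · rfl
          rcases mem_sp2.1 h with h | h | h | h
          exacts [h, absurd h n2, absurd h n3, absurd h n4]))
          ((ψ _).trans' ((ψ _).symm' (an (bot_Z _) q1)) hc)
        exact ⟨P, (ψ _).symm' ((ψ _).trans' q1 (an (cV_mono le_sup_left) r1)),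
          (ψ _).trans' ((ψ _).symm' (an (cV_mono le_sup_right) r1)) q2, r2⟩
      t1 := an (Z_cV _)
      t2 := fun h k => su (Z_sup okT) k h
      ts := fun a x => by
        obtain ⟨y, h, k⟩ := nf (Z_inf okT) (hall x a)
        exact ⟨y, (ψ _).symm' k, (ψ _).symm' h⟩ }
  have gl : ∀ i j k, N.Gl (fc i j k) (ψ (Y i j k)) := fun i j k =>
    ⟨an (Z_cV _), ψ (Y2 i j k), an (Z_cV _), su (Y2_le i j k), su (Yt_le i j k)⟩
  have ep : ∀ n : Fin 9, ∃ q, ψ (cW (kr 2 n)) p2 q ∧ ψ (cW (kr n 5)) q p5 ∧ (n = 2 → q = p2) ∧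
      (n = 5 → q = p5) := by
    intro n
    by_cases e2 : n = 2
    · exact ⟨p2, (ψ _).refl' _, e2 ▸ h1, fun _ => rfl, fun e => absurd (e2.symm.trans e) (by decide)⟩
    by_cases e5 : n = 5
    · exact ⟨p5, e5 ▸ h1, (ψ _).refl' _, fun e => absurd e e2, fun _ => rfl⟩
    obtain ⟨q, a, b⟩ := nf (cW_inf.trans (cW_mono (T := kr 2 n ⊓ kr n 5)
      fun w h => h.1.trans h.2)) h1
    exact ⟨q, a, b, fun e => absurd e e2, fun e => absurd e e5⟩
  choose p hp1 hp2 hp3 hp4 using ep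
  have pk : ∀ m n, ψ (cW (kr m n)) (p m) (p n) := by
    intro m n
    have a : ψ (cW (kr 2 m ⊓ kr 2 n)) (p m) (p n) := (ψ _).trans'
      ((ψ _).symm' (an (cW_mono inf_le_left) (hp1 m))) (an (cW_mono inf_le_right) (hp1 n))
    have b : ψ (cW (kr m 5 ⊓ kr n 5)) (p m) (p n) := (ψ _).trans'
      (an (cW_mono inf_le_left) (hp2 m)) ((ψ _).symm' (an (cW_mono inf_le_right) (hp2 n)))
    by_cases e : m = n
    · exact e ▸ (ψ _).refl' _
    by_cases m2 : m = 2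
    · rw [hp3 m m2, m2]; exact hp1 n
    by_cases n5 : n = 5
    · rw [hp4 n n5, n5]; exact hp2 m
    by_cases n2 : n = 2
    · rw [hp3 n n2, n2]; exact an (cW_mono fun w h => Eq.symm h) ((ψ _).symm' (hp1 m))
    by_cases m5 : m = 5
    · rw [hp4 m m5, m5]; exact an (cW_mono fun w h => Eq.symm h) ((ψ _).symm' (hp2 n))
    refine su (cW_sup (T := kr 2 m ⊓ kr 2 n) (T' := kr m 5 ⊓ kr n 5) fun w h =>
      ⟨fun x => if x = 5 then 0 else if x = 2 then w m + w 5 else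
      if x = m ∨ x = n then w m + w 5 else 0, ⟨mem_kr.2 ?_, mem_kr.2 ?_⟩, mem_kr.2 ?_, mem_kr.2 ?_⟩) a b
    · simp [mem_kr, m2, m5]
    · simp [mem_kr, n2, n5]
    · simp [mem_kr, m2, m5, add_right_comm (w m), CharTwo.add_self_eq_zero]
    · simp [mem_kr, n2, n5, ← mem_kr.1 h, add_right_comm (w m), CharTwo.add_self_eq_zero]
  have mv : ∀ i j k m n, Tf i j k ≤ kr m n → ∀ q, N.B (p m) q → ∃ r, ψ (Y i j k) q r ∧ N.B (p n) r := by
    intro i j k m n h q hq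
    obtain ⟨r, a, b⟩ := nf (Z_inf (okY i j k).1) ((ψ _).trans' ((ψ _).symm'
      (an (cW_mono le_top) hq)) (an (cW_mono h) (pk m n)))
    exact ⟨r, a, (ψ _).symm' b⟩
  have tab : ∀ {i j k}, Tf i j k ≤ kr (va i) (vb j) := by intro _ _ _ _ h; exact h.1
  have tba : ∀ {i j k}, Tf i j k ≤ kr (vb j) (va i) := by intro _ _ _ _ h; exact h.1.symm
  have tbc : ∀ {i j k}, Tf i j k ≤ kr (vb j) (vc k) := by intro _ _ _ _ h; exact h.2
  have tca : ∀ {i j k}, Tf i j k ≤ kr (vc k) (va i) := by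
    intro _ _ _ _ h; exact (h.1.trans h.2).symm
  choose r0 x0 b0 using fun i j => nf (Z_inf (ok0 i j)) (pk _ _)
  choose r1 x1 b1 using fun j k => nf (Z_inf (ok1 j k)) (pk _ _)
  choose r2 x2 b2 using fun i k => nf (Z_inf (ok2 i k)) (pk _ _)
  have y0 : ∀ i j k, (i, j, k) ≠ (2, 2, 2) → ψ (Y i j k) (p (va i)) (r0 i j) := fun i j k n =>
    an (Z_le _ _ (fin3 (f := fc i j) (row0 i j).2 k) tab (by
      simp only [mem_sp, mem_kr, forall_eq_or_imp, forall_eq]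
      revert i j k; decide +kernel)) (x0 i j)
  have y1 : ∀ i j k, ψ (Y i j k) (p (vb j)) (r1 j k) := fun i j k =>
    an (Z_le _ _ (fin3 (f := fun i => fc i j k) (row1 j k).2 i) tbc (by simp [addself])) (x1 j k)
  have y2 : ∀ i j k, ψ (Y i j k) (p (vc k)) (r2 i k) := fun i j k =>
    an (Z_le _ _ (fin3 (f := fun j => fc i j k) (row2 i k).2 j) tca (by simp [addself])) (x2 i k)
  have y' : ψ Y' (p (va 2)) (r0 2 2) :=
    an (Z_le _ _ (fin3 (f := fc 2 2) (row0 2 2).2 2) tab (by simp [addself])) (x0 2 2)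
  have step : ∀ i j k m n, Tf i j k ≤ kr m n → ∀ f, N.In (p m) v0 f → N.In (p n) v0 f :=
    fun i j k m n h f hf => ((hf.dir gv0 (gfc i j k) (fc_ne i j k).symm).move (gfc i j k) (gl i j k)
      (mv i j k m n h)).dir (gfc i j k) gv0 (fc_ne i j k)
  have inn : ∀ i j k m q, N.B q (p m) → N.In (p m) v0 (N.τ (fc i j k) (p m) q) := fun i j k m q h =>
    Net.In.dir (gfc i j k) gv0 (fc_ne i j k) ⟨_, _, N.B.refl' _, N.B.symm' h, rfl⟩
  have ib : ∀ j f, N.In (p (vb j)) v0 f → N.In (p (va 0)) v0 f := fun j => step 0 j 0 _ _ tba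
  have ic : ∀ k f, N.In (p (vc k)) v0 f → N.In (p (va 0)) v0 f := fun k => step 0 0 k _ _ tca
  have ia : ∀ i f, N.In (p (va i)) v0 f → N.In (p (va 0)) v0 f := fun i f h =>
    ib 0 f (step i 0 0 _ _ tab f h)
  let Γ : Set (Function.End (Quotient N.T)) := {f | N.In (p (va 0)) v0 f}
  letI := Submonoid.closureCommMonoidOfComm _ (s := Γ) fun f hf g hg => Net.In.comm gv0 hf hg
  have key := prod_trick (A := Submonoid.closure Γ)
    (fun i j k => ⟨_, Submonoid.subset_closure (ib j _ (inn i j k _ _ (b0 i j)))⟩)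
    (fun i j k => ⟨_, Submonoid.subset_closure (ic k _ (inn i j k _ _ (b1 j k)))⟩)
    (fun i j k => ⟨_, Submonoid.subset_closure (ia i _ (inn i j k _ _ (b2 i k)))⟩)
    (fun i j => Subtype.ext (by
      have := Net.τ_row (N := N) (gfc i j 0) (gfc i j 1) (row0 i j).1 (N.B.symm' (b0 i j))
      rwa [(row0 i j).2] at this))
    (fun j k => Subtype.ext (by
      have := Net.τ_row (N := N) (gfc 0 j k) (gfc 1 j k) (row1 j k).1 (N.B.symm' (b1 j k))
      rwa [(row1 j k).2] at this))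
    (fun i k => Subtype.ext (by
      have := Net.τ_row (N := N) (gfc i 0 k) (gfc i 1 k) (row2 i k).1 (N.B.symm' (b2 i k))
      rwa [(row2 i k).2] at this))
    (fun i j k n => Subtype.ext (Net.col (gfc i j k) (gl i j k) (mv i j k _ _ tba _ (N.B.refl' _))
      (N.B.symm' (b0 i j)) (N.B.symm' (b1 j k)) (N.B.symm' (b2 i k)) (y0 i j k n) (y1 i j k)
      (y2 i j k)))
  obtain ⟨r', a1, a2⟩ := mv 2 2 2 _ _ tab _ (N.B.refl' _)
  have key' := Net.col (gfc 2 2 2) (gl 2 2 2) (mv 2 2 2 _ _ tba _ (N.B.refl' _)) a2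
    (N.B.symm' (b1 2 2)) (N.B.symm' (b2 2 2)) a1 (y1 2 2 2) (y2 2 2 2)
  have k1 : N.τ (fc 2 2 2) (p (vb 2)) (r0 2 2) * (N.τ (fc 2 2 2) (p (vc 2)) (r1 2 2) *
      N.τ (fc 2 2 2) (p (va 2)) (r2 2 2)) = 1 := by rw [← mul_assoc]; exact congrArg Subtype.val key
  have k2 : (N.τ (fc 2 2 2) (p (vc 2)) (r1 2 2) * N.τ (fc 2 2 2) (p (va 2)) (r2 2 2)) *
      N.τ (fc 2 2 2) (p (vb 2)) r' = 1 := by
    have c1 := Net.In.comm gv0 (ib 2 _ (inn 2 2 2 _ _ (N.B.symm' a2))) (ic 2 _ (inn 2 2 2 _ _ (b1 2 2)))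
    have c2 := Net.In.comm gv0 (ib 2 _ (inn 2 2 2 _ _ (N.B.symm' a2))) (ia 2 _ (inn 2 2 2 _ _ (b2 2 2)))
    rw [mul_assoc, ← c2, ← mul_assoc, ← c1, key']
  have ee := Net.τ_inj (gfc 2 2 2) (N.B.symm' (b0 2 2)) a2 (left_inv_eq_right_inv k1 k2)
  have yy : ψ (Y 2 2 2) (p (va 2)) (r0 2 2) := (ψ _).trans' a1 ((ψ _).symm' ((gl 2 2 2).e1 ee))
  have fin : cW ⊤ ≤ cW (kr 2 5) ⊔ (cW ⊤ ⊓ (Y 2 2 2 ⊔ Y')) := by
    refine lsup fun g hg => ?_
    have hv : g.v = 0 := hg.1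
    rcases z2 (g.w 2 + g.w 5) with h | h
    · exact ⟨g, ⟨hv, by simpa [mem_kr, CharTwo.add_eq_zero] using h⟩, by
        rw [inv_mul_cancel]; exact one_mem _⟩
    · refine ⟨⟨0, g.w + (e 2 + e 8)⟩, ⟨rfl, ?_⟩, ⟨by simpa using hv, trivial⟩, ?_⟩
      · simp only [mem_kr, Pi.add_apply, Pi.zero_apply, add_zero]
        revert h
        generalize g.w 2 = a
        generalize g.w 5 = b
        revert a b; decide
      · have : (⟨0, g.w + (e 2 + e 8)⟩ : G)⁻¹ * g =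
            (⟨fc 2 2 2, e 8⟩ : G)⁻¹ * ⟨fc 2 2 2, e 2 + be (fc 2 2 2) (fc 2 2 2) +
              be (fc 2 2 2) (fc 2 2 2)⟩ := by
          ext1
          · simp [hv, addself]
          · simp only [mw, iw, iv, be_zero_l, add_zero]
            linear_combination (exp := 1) addself g.w - addself (be (fc 2 2 2) (fc 2 2 2)) -
              addself (be (fc 2 2 2) (fc 2 2 2))
        rw [this]
        exact Subgroup.mul_mem_sup (inv_mem ⟨Or.inr rfl, by rw [mem_Tf]; decide +kernel⟩)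
          ⟨Or.inr rfl, by rw [mem_Tf]; decide +kernel⟩
  refine su fin h1 ?_
  rw [← hp3 2 rfl, ← hp4 5 rfl]
  exact (ψ _).trans' (an inf_le_right ((hs _ _ _ _).2 ⟨yy, y'⟩)) (an inf_le_left (b0 2 2))

def Lin (K : Type) [Lattice K] : Prop :=
  ∃ (X : Type) (f : LatticeHom K (Setoid X)), Function.Injective f ∧ ∀ (a b : K) (x y : X),
    (∃ z, (f a).r x z ∧ (f b).r z y) ↔ (∃ z, (f b).r x z ∧ (f a).r z y)

theorem not_lin : ¬ Lin Lᵒᵈ := by
  rintro ⟨X, f, inj, hc⟩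
  let ψ : L → Setoid X := fun x => f (OrderDual.toDual x)
  have hs : ∀ x y a b, ψ (x ⊔ y) a b ↔ ψ x a b ∧ ψ y a b := fun x y a b => by
    rw [show ψ (x ⊔ y) = ψ x ⊓ ψ y from map_inf f _ _]; rfl
  have hi : ∀ x y a b, ψ (x ⊓ y) a b → ∃ z, ψ x a z ∧ ψ y z b := by
    intro x y a b h
    rw [show ψ (x ⊓ y) = ψ x ⊔ ψ y from map_sup f _ _] at h
    let C : Setoid X := ⟨fun a b => ∃ z, ψ x a z ∧ ψ y z b, fun a => ⟨a, (ψ x).refl' a, (ψ y).refl' a⟩,
      fun ⟨z, h1, h2⟩ => (hc _ _ _ _).2 ⟨z, (ψ y).symm' h2, (ψ x).symm' h1⟩,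
      fun ⟨_, h1, h2⟩ ⟨_, h3, h4⟩ => let ⟨w, k1, k2⟩ := (hc _ _ _ _).2 ⟨_, h2, h3⟩
        ⟨w, (ψ x).trans' h1 k1, (ψ y).trans' k2 h4⟩⟩
    exact (sup_le (c := C) (fun a b h => ⟨b, h, (ψ y).refl' b⟩) fun a b h => ⟨a, (ψ x).refl' a, h⟩) h
  have an : ∀ {x y a b}, x ≤ y → ψ y a b → ψ x a b := fun {x y a b} h k =>
    ((hs x y a b).1 (by rwa [sup_eq_right.2 h])).1
  have bl : ∀ x : L, cW ⊥ ≤ x := fun x g hg => by
    have : g = 1 := G.ext hg.1 (by simpa using hg.2)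
    exact this ▸ one_mem _
  have : cW (kr 2 5) = cW ⊤ := by
    refine inj (Setoid.ext fun a b => ⟨fun h => ?_, an (cW_mono le_top)⟩)
    exact core (X := {x // ψ (cW ⊥) a x}) (fun x => Setoid.comap Subtype.val (ψ x))
      (fun x y c d => hs x y c d) (fun x y c d h => let ⟨z, h1, h2⟩ := hi x y c d h
        ⟨⟨z, (ψ _).trans' c.2 (an (bl _) h1)⟩, h1, h2⟩)
      (fun c d => (ψ _).trans' ((ψ _).symm' c.2) d.2) (p2 := ⟨a, (ψ _).refl' a⟩)
      (p5 := ⟨b, an (bl _) h⟩) h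
  have h : (⟨0, e 2⟩ : G) ∈ (cW ⊤).1 := ⟨rfl, trivial⟩
  rw [← this] at h
  exact absurd h.2 (by rw [mem_kr]; decide)

theorem lin : Lin L := by
  have m : ∀ {A B : L}, A ≤ B → QuotientGroup.leftRel A.1 ≤ QuotientGroup.leftRel B.1 :=
    fun h _ _ k => QuotientGroup.leftRel_apply.2 (h (QuotientGroup.leftRel_apply.1 k))
  have c : ∀ (A B : L) x y, QuotientGroup.leftRel (A ⊔ B).1 x y →
      ∃ z, QuotientGroup.leftRel A.1 x z ∧ QuotientGroup.leftRel B.1 z y := by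
    intro A B x y h
    haveI : B.1.Normal := B.2
    have h' : x⁻¹ * y ∈ A.1 ⊔ B.1 := QuotientGroup.leftRel_apply.1 h
    rw [← SetLike.mem_coe, Subgroup.mul_normal] at h'
    obtain ⟨a, ha, b, hb, e⟩ := h'
    refine ⟨x * a, QuotientGroup.leftRel_apply.2 (by simpa using ha),
      QuotientGroup.leftRel_apply.2 ?_⟩
    rw [mul_inv_rev, mul_assoc, ← e]; simpa using hb
  refine ⟨G, ⟨⟨fun A => QuotientGroup.leftRel A.1, fun A B => le_antisymm (fun x y h => ?_)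
    (sup_le (m le_sup_left) (m le_sup_right))⟩, fun A B => Setoid.ext fun x y => ?_⟩,
    fun A B h => ?_, fun A B x y => ⟨fun h => c B A x y ?_, fun h => c A B x y ?_⟩⟩
  · obtain ⟨z, h1, h2⟩ := c A B x y h
    exact Setoid.trans' _ ((le_sup_left : _ ≤ _ ⊔ QuotientGroup.leftRel B.1) h1)
      ((le_sup_right : _ ≤ QuotientGroup.leftRel A.1 ⊔ _) h2)
  · simp only [Setoid.inf_iff_and, QuotientGroup.leftRel_apply]; rfl
  · refine Subtype.ext (Subgroup.ext fun g => ?_)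
    have : QuotientGroup.leftRel A.1 1 g ↔ QuotientGroup.leftRel B.1 1 g := by
      rw [show QuotientGroup.leftRel A.1 = QuotientGroup.leftRel B.1 from h]
    simpa [QuotientGroup.leftRel_apply] using this
  · obtain ⟨z, h, k⟩ := h
    exact Setoid.trans' _ (m le_sup_right h) (m le_sup_left k)
  · obtain ⟨z, h, k⟩ := h
    exact Setoid.trans' _ (m le_sup_right h) (m le_sup_left k)

end H67.LinL
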