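import Mathlib

/-! Iterated application of an idempotent operation along words; loops from local labelings. -/

namespace H67.LLL
open Filter Topology

variable {n : ℕ} {B : Type}

abbrev Sq (n : ℕ) := ℕ → Fin n
def cons (j : Fin n) (s : Sq n) : Sq n
  | 0 => j
  | p + 1 => s p
def sh (s : Sq n) : Sq n := fun p => s (p + 1)

def I (t : (Fin n → B) → B) (d : Sq n) : ℕ → (Sq n → B) → B
  | 0, g => g d
  | k + 1, g => t fun j => I t d k fun s => g (cons j s)

def Dep {X : Type} (k : ℕ) (g : Sq n → X) : Prop := ∀ s s', (∀ p < k, s p = s' p) → g s = g s'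

def app : ℕ → Sq n → Sq n → Sq n
  | 0, _, s => s
  | m + 1, w, s => cons (w 0) (app m (sh w) s)

theorem app_lt : ∀ (m : ℕ) (w s : Sq n) (p : ℕ), p < m → app m w s p = w p
  | 0, _, _, _, h => absurd h (Nat.not_lt_zero _)
  | _ + 1, _, _, 0, _ => rfl
  | m + 1, w, s, p + 1, h => app_lt m (sh w) s p (Nat.lt_of_succ_lt_succ h)

theorem app_self : ∀ (m : ℕ) (w s : Sq n), app m w s m = s 0
  | 0, _, _ => rfl
  | m + 1, w, s => app_self m (sh w) s

theorem dep_of_lc {X : Type} (g : Sq n → X) (h : IsLocallyConstant g) : ∃ k, Dep k g := by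
  have : ∀ s, ∃ k, ∀ s' : Sq n, (∀ p < k, s' p = s p) → g s' = g s := fun s => by
    have := (IsLocallyConstant.iff_eventually_eq g).1 h s
    rw [nhds_pi, Filter.eventually_iff, Filter.mem_pi] at this
    obtain ⟨J, hJ, u, hu, hs⟩ := this
    obtain ⟨k, hk⟩ := hJ.bddAbove
    exact ⟨k + 1, fun s' e => hs fun p hp => by
      rw [e p (Nat.lt_succ_of_le (hk hp))]; exact mem_of_mem_nhds (hu p)⟩
  choose k hk using this
  obtain ⟨T, hT⟩ := isCompact_univ.elim_finite_subcover
    (fun s : Sq n => (Set.Iio (k s)).pi fun p => {s p})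
    (fun s => isOpen_set_pi (Set.finite_Iio _) fun _ _ => isOpen_discrete _)
    (fun s _ => Set.mem_iUnion.2 ⟨s, fun _ _ => rfl⟩)
  refine ⟨T.sup k, fun s s' e => ?_⟩
  obtain ⟨x, hx, h1⟩ := Set.mem_iUnion₂.1 (hT (Set.mem_univ s))
  rw [hk x s fun p hp => h1 p hp, hk x s' fun p hp =>
    (e p (hp.trans_le (Finset.le_sup hx))).symm.trans (h1 p hp)]

variable {t : (Fin n → B) → B} {d : Sq n} {G : B → B → Prop}

theorem I_rel (hG : ∀ x y, (∀ j, G (x j) (y j)) → G (t x) (t y)) :
    ∀ (k : ℕ) (g g' : Sq n → B), (∀ s, G (g s) (g' s)) → G (I t d k g) (I t d k g')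
  | 0, _, _, h => h d
  | k + 1, _, _, h => hG _ _ fun _ => I_rel hG k _ _ fun _ => h _

theorem I_const (ht : ∀ x, t (fun _ => x) = x) (x : B) : ∀ k, I t d k (fun _ => x) = x
  | 0 => rfl
  | k + 1 => by simp only [I, I_const ht x k, ht]

theorem I_sh (ht : ∀ x, t (fun _ => x) = x) (k : ℕ) (g : Sq n → B) :
    I t d (k + 1) (fun s => g (sh s)) = I t d k g := ht (I t d k g)

theorem I_dep (ht : ∀ x, t (fun _ => x) = x) :
    ∀ (k : ℕ) (g : Sq n → B), Dep k g → I t d (k + 1) g = I t d k g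
  | 0, g, h => by
    have : (fun j => g (cons j d)) = fun _ => g d :=
      funext fun j => h _ _ fun p hp => absurd hp (Nat.not_lt_zero _)
    exact (congrArg t this).trans (ht _)
  | k + 1, g, h => congrArg t (funext fun j => I_dep ht k _ fun s s' e => h _ _ fun p hp => by
      cases p with
      | zero => rfl
      | succ p => exact e p (Nat.lt_of_succ_lt_succ hp))

theorem I_pref (hG : ∀ x y, (∀ j, G (x j) (y j)) → G (t x) (t y)) (k : ℕ) :
    ∀ (m : ℕ) (g g' : Sq n → B), (∀ w, G (I t d k fun s => g (app m w s))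
      (I t d k fun s => g' (app m w s))) → (Sq n) → G (I t d (k + m) g) (I t d (k + m) g')
  | 0, _, _, h, w => h w
  | m + 1, _, _, h, w => hG _ _ fun j => I_pref hG k m _ _ (fun w => h (cons j w)) w

theorem loop_of_label (ht : ∀ x, t (fun _ => x) = x)
    (hG : ∀ x y, (∀ j, G (x j) (y j)) → G (t x) (t y)) (d : Sq n) (α : Fin n → Fin n → B)
    (hα : ∀ i, G (α i i) (t (α i))) (M : ℕ) (f : Sq n → B) (hf : IsLocallyConstant f)
    (h1 : ∀ s, (¬ ∀ p ≤ M + 1, s p = s 0) → G (f s) (f (sh s)))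
    (h2 : ∀ s, (∀ p < M + 1, s p = s 0) → f s = α (s 0) (s (M + 1))) : ∃ c, G c c := by
  obtain ⟨k, hk⟩ := dep_of_lc f hf
  have := I_pref (d := d) hG (k + 1) (M + 2) f (fun s => f (sh s)) (fun w => ?_) d
  · rw [show k + 1 + (M + 2) = (k + M + 2) + 1 by omega, I_sh ht,
      I_dep ht _ _ fun s s' e => hk s s' fun p hp => e p (by omega)] at this
    exact ⟨_, this⟩
  by_cases hw : ∀ p ≤ M + 1, w p = w 0
  · have e1 : (fun s => f (app (M + 2) w s)) = fun _ => α (w 0) (w 0) := funext fun s => by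
      rw [h2 _ fun p hp => by rw [app_lt _ _ _ p (by omega), app_lt _ _ _ 0 (by omega), hw p hp.le],
        app_lt _ _ _ 0 (by omega), app_lt _ _ _ (M + 1) (by omega), hw _ le_rfl]
    have e2 : (fun s => f (sh (app (M + 2) w s))) = fun s => α (w 0) (s 0) := funext fun s => by
      rw [h2 _ fun p hp => by
        simp only [sh]
        rw [app_lt _ _ _ (p + 1) (by omega), app_lt _ _ _ (0 + 1) (by omega), hw _ (by omega),
          hw (0 + 1) (by omega)]]
      simp only [sh]
      rw [app_lt _ _ _ (0 + 1) (by omega), hw (0 + 1) (by omega), app_self]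
    rw [e1, e2, I_const ht]
    have : I t d (k + 1) (fun s => α (w 0) (s 0)) = t (α (w 0)) :=
      congrArg t (funext fun j => I_const ht (α (w 0) j) k)
    rw [this]; exact hα _
  · refine I_rel hG _ _ _ fun s => h1 _ fun h => hw fun p hp => ?_
    have := h p hp
    rwa [app_lt _ _ _ p (by omega), app_lt _ _ _ 0 (by omega)] at this

end H67.LLL
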