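import Pool.Agent.H67.Loop1

/-! A local loop lemma. -/

namespace H67.LLL
open Filter Topology Classical

variable {n : ℕ} {B : Type}

noncomputable def fd (N : ℕ) (P : ℕ → Prop) : ℕ := Nat.find (⟨N, Or.inl rfl⟩ : ∃ p, p = N ∨ P p)

theorem fd_le (N P) : fd N P ≤ N := Nat.find_min' _ (Or.inl rfl)
theorem fd_spec (N P) : fd N P = N ∨ P (fd N P) := Nat.find_spec (⟨N, Or.inl rfl⟩ : ∃ p, p = N ∨ P p)
theorem fd_min {N P p} (h : p < fd N P) : ¬ P p := fun e => Nat.find_min _ h (Or.inr e)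
theorem fd_le_of {N p} {P : ℕ → Prop} (h : P p) : fd N P ≤ p := not_lt.1 fun e => fd_min e h
theorem le_fd {N k} {P : ℕ → Prop} (hk : k ≤ N) (h : ∀ p < k, ¬ P p) : k ≤ fd N P := by
  rcases fd_spec N P with e | e
  · omega
  · exact not_lt.1 fun e' => h _ e' e

def shn (e : ℕ) (s : Sq n) : Sq n := fun p => s (p + e)

noncomputable def rl (s : Sq n) : ℕ := fd 14 fun p => s p ≠ s 0
def st (e : ℕ) (s : Sq n) : Prop := 8 ≤ rl (shn (e + 1) s) ∧ s e ≠ s (e + 1)
noncomputable def zf (s : Sq n) : ℕ := fd 5 fun e => st e s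
def mk (s : Sq n) : Prop := 8 ≤ rl s ∨ zf s < 5 ∨ ((s 1 < s 2 ∧ s 3 ≤ s 2) ∧ ¬ zf (sh s) < 5)

theorem rl_eq {s : Sq n} {p} (h : p < rl s) : s p = s 0 := not_not.1 (fd_min h)
theorem le_rl {s : Sq n} {k} (hk : k ≤ 14) (h : ∀ p < k, s p = s 0) : k ≤ rl s :=
  le_fd hk fun p hp => not_not.2 (h p hp)

theorem rl_sh {s : Sq n} (h : 2 ≤ rl s) (h' : s (rl s) ≠ s 0) : rl (sh s) + 1 = rl s := by
  have h1 : rl s ≤ 14 := fd_le _ _
  have a : rl s - 1 ≤ rl (sh s) := le_rl (by omega) fun p hp =>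
    (rl_eq (s := s) (p := p + 1) (by omega)).trans (rl_eq (s := s) (p := 0 + 1) (by omega)).symm
  have b : rl (sh s) ≤ rl s - 1 := fd_le_of (by
    simp only [sh]
    rw [show rl s - 1 + 1 = rl s by omega, rl_eq (s := s) (p := 0 + 1) (by omega)]
    exact h')
  omega

theorem big_of {s : Sq n} (h : ¬ 8 ≤ rl s) (h' : 0 < zf s) : ¬ 8 ≤ rl (sh s) := fun e => by
  have := fd_min h'
  simp only [st, not_and, not_not] at this
  refine h (le_rl (by omega) fun p hp => ?_)
  cases p with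
  | zero => rfl
  | succ p => exact (rl_eq (s := sh s) (p := p) (by omega)).trans (this e).symm

theorem ex_mk (s : Sq n) : ∃ e, mk (shn e s) := by
  by_contra h
  simp only [not_exists, mk, not_or, not_and, not_not] at h
  have hz : ∀ e, ¬ zf (sh (shn e s)) < 5 := fun e => by
    have := (h (e + 1)).2.1
    rwa [show shn (e + 1) s = sh (shn e s) from funext fun p => by
      simp only [shn, sh]; congr 1; omega] at this
  have hm : ∀ e, s (e + 1) < s (e + 2) → s (e + 2) < s (e + 3) := fun e a => by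
    by_contra b
    refine hz e ((h e).2.2 ⟨?_, ?_⟩)
    · simpa only [shn, add_comm] using a
    · simpa only [shn, add_comm] using not_lt.1 b
  by_cases ha : ∃ e, s (e + 1) < s (e + 2)
  · obtain ⟨e, he⟩ := ha
    have : ∀ p, s (e + p + 1) < s (e + p + 2) := fun p => by
      induction p with
      | zero => exact he
      | succ p ih => exact hm _ ih
    exact not_injective_infinite_finite (fun p => s (e + p + 1))
      (strictMono_nat_of_lt_succ this).injective
  · simp only [not_exists, not_lt] at ha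
    obtain ⟨e, he⟩ := Finite.exists_min (α := Set.range fun e => s (e + 1)) (fun x => x.1)
    obtain ⟨x, e, rfl⟩ := e
    have an : Antitone fun e => s (e + 1) := antitone_nat_of_succ_le ha
    refine (h (e + 1)).1 (le_rl (by omega) fun p _ => ?_)
    simp only [shn, zero_add]
    exact le_antisymm (an (show e ≤ p + e by omega)) (he ⟨_, p + e, rfl⟩)

def q (s : Sq n) : Prop := Even (Nat.find (ex_mk s))

theorem q_mk {s : Sq n} (h : mk s) : q s := by
  rw [q, (Nat.find_eq_zero _).2 h]; exact Even.zero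

theorem q_step {s : Sq n} (h : ¬ mk s) : q s ↔ ¬ q (sh s) := by
  rw [q, Nat.find_comp_succ (ex_mk s) (ex_mk (sh s)) h, Nat.even_add_one]; rfl

def pre (s : Sq n) : Prop := rl s = 8 ∨ (s 0 < s 1 ∧ s 2 ≤ s 1)

section
variable (A B0 C : B) (ω : B → B → ℕ → B) (α : Fin n → Fin n → B)
noncomputable def fl (s : Sq n) : B :=
  if pre s then (if q (sh s) then A else C) else if q s then B0 else A
noncomputable def bl (s : Sq n) : B :=
  if 9 ≤ rl s then ω (α (s 0) (s (rl s))) B0 (14 - rl s) else fl A B0 C s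
noncomputable def lab (s : Sq n) : B :=
  if 8 ≤ rl s then bl A B0 C ω α s else
    if zf s < 5 then ω B0 (bl A B0 C ω α (shn (zf s + 1) s)) (4 - zf s) else fl A B0 C s
end

theorem lab_edge {G : B → B → Prop} {A B0 C : B} {ω : B → B → ℕ → B} (α : Fin n → Fin n → B)
    (h1 : G B0 A) (h2 : G A B0) (h3 : G B0 C) (h4 : G C A) (w0 : ∀ X Y, ω X Y 0 = X)
    (w5 : ∀ X Y, ω X Y 5 = Y) (ws : ∀ X Y, ∀ d < 5, G (ω X Y d) (ω X Y (d + 1)))
    (s : Sq n) (hs : ¬ ∀ p ≤ 14, s p = s 0) :
    G (lab A B0 C ω α s) (lab A B0 C ω α (sh s)) := by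
  have h14 : rl s ≤ 14 := fd_le _ _
  have hne : s (rl s) ≠ s 0 := by
    rcases fd_spec 14 (fun p => s p ≠ s 0) with e | e
    · refine fun e' => hs fun p hp => ?_
      rcases hp.lt_or_eq with hp | rfl
      · exact rl_eq (by rw [rl, e]; exact hp)
      · rwa [rl, e] at e'
    · exact e
  by_cases c9 : 9 ≤ rl s
  · have e := rl_sh (by omega) hne
    rw [lab, if_pos (by omega), bl, if_pos c9, lab, if_pos (by omega), bl]
    by_cases c10 : 9 ≤ rl (sh s)
    · rw [if_pos c10, show sh s 0 = s 0 from rl_eq (s := s) (p := 0 + 1) (by omega),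
        show sh s (rl (sh s)) = s (rl s) from congrArg s e,
        show 14 - rl (sh s) = 14 - rl s + 1 by omega]
      exact ws _ _ _ (by omega)
    · rw [if_neg c10, show 14 - rl s = 5 by omega, w5, fl,
        if_pos (show pre (sh s) from Or.inl (by omega))]
      split_ifs
      exacts [h1, h3]
  by_cases cz : zf s < 5
  · have hst : st (zf s) s := (fd_spec 5 fun e => st e s).resolve_left cz.ne
    have c8 : ¬ 8 ≤ rl s := fun c => hst.2 ((rl_eq (by omega)).trans (rl_eq (by omega)).symm)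
    rw [lab, if_neg c8, if_pos cz, lab]
    rcases Nat.eq_zero_or_pos (zf s) with e | e
    · rw [e] at hst ⊢
      rw [if_pos (show 8 ≤ rl (sh s) from hst.1)]
      have := ws B0 (bl A B0 C ω α (shn (0 + 1) s)) 4 (by omega)
      rwa [w5] at this
    · have a : zf s - 1 ≤ zf (sh s) := le_fd (by omega) fun p hp =>
        fd_min (N := 5) (P := fun e => st e s) (p := p + 1) (show p + 1 < zf s by omega)
      have b : zf (sh s) ≤ zf s - 1 := fd_le_of (show st (zf s - 1 + 1) s by
        rwa [show zf s - 1 + 1 = zf s by omega])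
      rw [if_neg (big_of c8 e), if_pos (by omega), show 4 - zf (sh s) = 4 - zf s + 1 by omega,
        show shn (zf (sh s) + 1) (sh s) = shn (zf s + 1) s from funext fun p => by
          simp only [shn, sh]; congr 1; omega]
      exact ws _ _ _ (by omega)
  have e1 : lab A B0 C ω α s = fl A B0 C s := by
    rw [lab, bl, if_neg c9, if_neg cz, ite_self]
  have c8 : ¬ 8 ≤ rl (sh s) := by
    by_cases c : 8 ≤ rl s
    · have := rl_sh (by omega) hne; omega
    · exact big_of c (by omega)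
  have nm : ¬ pre s → ¬ ((s 1 < s 2 ∧ s 3 ≤ s 2) ∧ ¬ zf (sh s) < 5) → (q s ↔ ¬ q (sh s)) :=
    fun a b => q_step fun c => by
      rcases c with c | c | c
      · exact a (Or.inl (by omega))
      · exact cz c
      · exact b c
  rw [e1, lab, if_neg c8]
  by_cases cz' : zf (sh s) < 5
  · have : ¬ zf (sh s) < 4 := fun c => cz (lt_of_le_of_lt (fd_le_of (p := zf (sh s) + 1)
      ((fd_spec 5 fun e => st e (sh s)).resolve_left cz'.ne)) (by omega))
    have hq : q (sh s) := q_mk (Or.inr (Or.inl cz'))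
    rw [if_pos cz', show 4 - zf (sh s) = 0 by omega, w0, fl, if_pos hq]
    by_cases cp : pre s
    · rwa [if_pos cp]
    · rwa [if_neg cp, if_neg fun c => (nm cp fun c => c.2 cz').1 c hq]
  rw [if_neg cz']
  by_cases cm : s 1 < s 2 ∧ s 3 ≤ s 2
  · have cp : ¬ pre s := by
      rintro (c | c)
      · exact cm.1.ne ((rl_eq (by omega)).trans (rl_eq (by omega)).symm)
      · exact absurd cm.1 (not_lt.2 c.2)
    rw [fl, if_neg cp, if_pos (q_mk (Or.inr (Or.inr ⟨cm, cz'⟩))), fl,
      if_pos (show pre (sh s) from Or.inr cm)]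
    split_ifs
    exacts [h1, h3]
  · have cp' : ¬ pre (sh s) := by
      rintro (c | c)
      · omega
      · exact cm c
    rw [fl, fl, if_neg cp']
    by_cases cp : pre s
    · rw [if_pos cp]
      split_ifs
      exacts [h2, h4]
    · rw [if_neg cp]
      have := nm cp fun c => cm c.1
      by_cases hq : q (sh s)
      · rwa [if_pos hq, if_neg fun c => this.1 c hq]
      · rwa [if_neg hq, if_pos (this.2 hq)]

theorem lc_ev (p : ℕ) : IsLocallyConstant fun s : Sq n => s p :=
  (IsLocallyConstant.of_discrete id).comp_continuous (continuous_apply p)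

theorem lc_shn {X : Type} {g : Sq n → X} (h : IsLocallyConstant g) (e : ℕ) :
    IsLocallyConstant fun s => g (shn e s) :=
  h.comp_continuous (continuous_pi fun _ => continuous_apply _)

theorem lc_dep {X : Type} {e : Sq n → ℕ} (he : IsLocallyConstant e) (g : ℕ → Sq n → X)
    (h : ∀ k, IsLocallyConstant (g k)) : IsLocallyConstant fun s => g (e s) s := by
  rw [IsLocallyConstant.iff_eventually_eq]
  intro s
  filter_upwards [he.eventually_eq s, (h (e s)).eventually_eq s] with y a b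
  rw [a, b]

theorem lc_find {P : ℕ → Sq n → Prop} {_ : ∀ s, DecidablePred fun p => P p s} (h : ∀ s, ∃ p, P p s)
    (hP : ∀ p, IsLocallyConstant (P p)) : IsLocallyConstant fun s => Nat.find (h s) := by
  rw [IsLocallyConstant.iff_eventually_eq]
  intro s
  filter_upwards [(eventually_all_finset (Finset.range (Nat.find (h s) + 1))).2
    fun p _ => (hP p).eventually_eq s] with y a
  refine (Nat.find_eq_iff _).2 ⟨?_, fun p hp => ?_⟩
  · rw [a _ (Finset.self_mem_range_succ _)]; exact Nat.find_spec (h s)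
  · rw [a _ (Finset.mem_range.2 (by omega))]; exact Nat.find_min _ hp

theorem lc_ite {X : Type} {c : Sq n → Prop} [∀ s, Decidable (c s)] {a b : Sq n → X}
    (hc : IsLocallyConstant c) (ha : IsLocallyConstant a) (hb : IsLocallyConstant b) :
    IsLocallyConstant fun s => if c s then a s else b s := by
  rw [IsLocallyConstant.iff_eventually_eq]
  intro s
  filter_upwards [hc.eventually_eq s, ha.eventually_eq s, hb.eventually_eq s] with y e1 e2 e3
  exact if_congr (Iff.of_eq e1) e2 e3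

theorem lc_rl : IsLocallyConstant (rl (n := n)) :=
  lc_find (P := fun p s => p = 14 ∨ s p ≠ s 0) (fun _ => ⟨14, Or.inl rfl⟩) fun p =>
    (lc_ev p).comp₂ (lc_ev 0) fun a b => p = 14 ∨ a ≠ b

theorem lc_zf : IsLocallyConstant (zf (n := n)) :=
  lc_find (P := fun p s => p = 5 ∨ st p s) (fun _ => ⟨5, Or.inl rfl⟩) fun p =>
    ((lc_shn lc_rl (p + 1)).prodMk (lc_ev p)).comp₂ (lc_ev (p + 1))
      fun a b => p = 5 ∨ (8 ≤ a.1 ∧ a.2 ≠ b)

theorem lc_q : IsLocallyConstant (q (n := n)) :=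
  (lc_find (P := fun e s => mk (shn e s)) ex_mk fun e => lc_shn (g := mk)
    (((lc_rl.prodMk lc_zf).prodMk (lc_shn lc_zf 1)).comp₂
      (((lc_ev 1).prodMk (lc_ev 2)).prodMk (lc_ev 3)) fun a b =>
        8 ≤ a.1.1 ∨ a.1.2 < 5 ∨ ((b.1.1 < b.1.2 ∧ b.2 ≤ b.1.2) ∧ ¬ a.2 < 5)) e).comp Even

theorem lc_lab (A B0 C : B) (ω : B → B → ℕ → B) (α : Fin n → Fin n → B) :
    IsLocallyConstant (lab A B0 C ω α) := by
  have c := fun x : B => IsLocallyConstant.const (X := Sq n) x
  have hf : IsLocallyConstant (fl (n := n) A B0 C) :=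
    lc_ite ((lc_rl.prodMk (lc_ev 0)).comp₂ ((lc_ev 1).prodMk (lc_ev 2)) fun a b =>
      a.1 = 8 ∨ (a.2 < b.1 ∧ b.2 ≤ b.1)) (lc_ite (lc_shn lc_q 1) (c A) (c C))
      (lc_ite lc_q (c B0) (c A))
  have hb : IsLocallyConstant (bl A B0 C ω α) :=
    lc_ite (lc_rl.comp fun a => 9 ≤ a) (lc_dep lc_rl (fun k s => ω (α (s 0) (s k)) B0 (14 - k))
      fun k => (lc_ev 0).comp₂ (lc_ev k) fun a b => ω (α a b) B0 (14 - k)) hf
  exact lc_ite (lc_rl.comp fun a => 8 ≤ a) hb (lc_ite (lc_zf.comp fun a => a < 5)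
    (lc_dep lc_zf (fun k s => ω B0 (bl A B0 C ω α (shn (k + 1) s)) (4 - k))
      fun k => (lc_shn hb (k + 1)).comp fun a => ω B0 a (4 - k)) hf)

def W (G : B → B → Prop) (k : ℕ) (X Y : B) : Prop :=
  ∃ ω : ℕ → B, ω 0 = X ∧ ω k = Y ∧ ∀ d < k, G (ω d) (ω (d + 1))

theorem W.cons {G : B → B → Prop} {k : ℕ} {X Y Z : B} (h : G X Z) (h' : W G k Z Y) :
    W G (k + 1) X Y := by
  obtain ⟨ω, rfl, rfl, h'⟩ := h'
  refine ⟨fun d => Nat.casesOn d X ω, rfl, rfl, fun d hd => ?_⟩
  cases d with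
  | zero => exact h
  | succ d => exact h' d (by omega)

theorem W.nil {G : B → B → Prop} {X : B} : W G 0 X X :=
  ⟨fun _ => X, rfl, rfl, fun _ h => absurd h (Nat.not_lt_zero _)⟩

/-- local loop lemma, for an algebra generated by the three vertices of the Siggers digraph -/
theorem loop {t : (Fin n → B) → B} {G : B → B → Prop} (ht : ∀ x, t (fun _ => x) = x)
    (hG : ∀ x y, (∀ j, G (x j) (y j)) → G (t x) (t y)) {A B0 C : B}
    (h1 : G B0 A) (h2 : G A B0) (h3 : G B0 C) (h4 : G C A)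
    (gen : ∀ P : B → Prop, P A → P B0 → P C → (∀ x, (∀ j, P (x j)) → P (t x)) → ∀ X, P X)
    (α : Fin n → Fin n → B) (hα : ∀ i, G (α i i) (t (α i))) : ∃ c, G c c := by
  rcases Nat.eq_zero_or_pos n with rfl | hn
  · refine ⟨A, ?_⟩
    have : A = B0 := by rw [← ht A, ← ht B0]; exact congrArg t (Subsingleton.elim _ _)
    rwa [← this] at h1
  have cl : ∀ x y : Fin n → B, (∀ j, W G 5 (x j) (y j)) → W G 5 (t x) (t y) := fun x y h => by
    choose ω a b c using h
    exact ⟨fun d => t fun j => ω j d, by simp only [a], by simp only [b],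
      fun d hd => hG _ _ fun j => c j d hd⟩
  have c1 : ∀ X, W G 5 X A → W G 5 X B0 → W G 5 X C → ∀ Y, W G 5 X Y := fun X a b c =>
    gen _ a b c fun y h => by simpa only [ht] using cl (fun _ => X) y h
  have hW : ∀ X Y, W G 5 X Y := gen (fun X => ∀ Y, W G 5 X Y)
    (c1 _ (.cons h2 <| .cons h1 <| .cons h2 <| .cons h3 <| .cons h4 .nil)
      (.cons h2 <| .cons h1 <| .cons h2 <| .cons h1 <| .cons h2 .nil)
      (.cons h2 <| .cons h3 <| .cons h4 <| .cons h2 <| .cons h3 .nil))
    (c1 _ (.cons h1 <| .cons h2 <| .cons h1 <| .cons h2 <| .cons h1 .nil)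
      (.cons h1 <| .cons h2 <| .cons h3 <| .cons h4 <| .cons h2 .nil)
      (.cons h1 <| .cons h2 <| .cons h1 <| .cons h2 <| .cons h3 .nil))
    (c1 _ (.cons h4 <| .cons h2 <| .cons h1 <| .cons h2 <| .cons h1 .nil)
      (.cons h4 <| .cons h2 <| .cons h3 <| .cons h4 <| .cons h2 .nil)
      (.cons h4 <| .cons h2 <| .cons h1 <| .cons h2 <| .cons h3 .nil))
    fun x h Y => by simpa only [ht] using cl x (fun _ => Y) fun j => h j Y
  choose ω w0 w5 ws using hW
  refine loop_of_label ht hG (fun _ => ⟨0, hn⟩) α hα 13 (lab A B0 C ω α) (lc_lab _ _ _ _ _)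
    (lab_edge α h1 h2 h3 h4 w0 w5 ws) fun s hs => ?_
  have : rl s = 14 := le_antisymm (fd_le _ _) (le_rl le_rfl hs)
  rw [lab, if_pos (by omega), bl, if_pos (by omega), this, w0]

end H67.LLL
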