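import Pool.Agent.H67.Loop2

/-! A Taylor operation produces a constant triple from the graph of NOR. -/

namespace H67.LLL

variable {n : ℕ} {B : Type}

inductive N (t : (Fin n → B) → B) (o l : B) : B → B → Prop
  | a : N t o l o l
  | b : N t o l l o
  | c : N t o l o o
  | op (x y : Fin n → B) : (∀ j, N t o l (x j) (y j)) → N t o l (t x) (t y)

theorem edge {t : (Fin n → B) → B} (ht : ∀ x, t (fun _ => x) = x)
    (hT : ∀ j : Fin n, ∃ u v : Fin n → Bool, u j = true ∧ v j = false ∧
      ∀ x y, t (fun k => cond (u k) x y) = t (fun k => cond (v k) x y))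
    {R : B → B → B → Prop}
    (hR : ∀ x y z, (∀ j, R (x j) (y j) (z j)) → R (t x) (t y) (t z)) {o l : B}
    (r1 : R l l o) (r2 : R l o o) (r3 : R o l o) (r4 : R o o l) : ∃ c, R c c c := by
  classical
  choose u v hu hv huv using hT
  let V := {p : B × B // N t o l p.1 p.2}
  let T : (Fin n → V) → V := fun x =>
    ⟨(t fun j => (x j).1.1, t fun j => (x j).1.2), .op _ _ fun j => (x j).2⟩
  let a : Fin n → B := fun i => t fun k => cond (v i k) o l
  let a' : Fin n → B := fun i => t fun k => cond (v i k) l o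
  let b : Fin n → B := fun i => t fun k => cond (v i k) (a i) o
  have n0 : ∀ x : Fin n → B, (∀ j, N t o l o (x j)) → N t o l o (t x) := fun x h => by
    simpa only [ht] using N.op (fun _ => o) x h
  have n1 : ∀ i, N t o l o (a i) := fun i => n0 _ fun j => by cases v i j; exacts [.a, .c]
  have n2 : ∀ i, N t o l o (a' i) := fun i => n0 _ fun j => by cases v i j; exacts [.c, .a]
  have n3 : ∀ i, N t o l (a i) (a' i) := fun i => .op _ _ fun j => by cases v i j; exacts [.b, .a]
  have n4 : ∀ i, N t o l (a i) (b i) := fun i => .op _ _ fun j => by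
    cases v i j; exacts [.b, n1 i]
  have s0 : ∀ x : Fin n → B, (∀ j, R l (x j) o) → R l (t x) o := fun x h => by
    simpa only [ht] using hR (fun _ => l) x (fun _ => o) h
  have s1 : ∀ i, R l (a i) o := fun i => s0 _ fun j => by cases v i j; exacts [r1, r2]
  have s2 : ∀ i, R l (a' i) o := fun i => s0 _ fun j => by cases v i j; exacts [r2, r1]
  have s3 : ∀ i, R l (b i) o := fun i => s0 _ fun j => by cases v i j; exacts [r2, s1 i]
  have s4 : ∀ i, R o (a' i) (a i) := fun i => by
    simpa only [ht] using hR (fun _ => o) (fun k => cond (v i k) l o) (fun k => cond (v i k) o l)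
      fun j => by cases v i j; exacts [r4, r3]
  let α : Fin n → Fin n → V := fun i k => if k = i then ⟨(a i, b i), n4 i⟩ else
    ⟨(cond (u i k) (a i) o, a' i), by cases u i k; exacts [n2 i, n3 i]⟩
  obtain ⟨c, h1, h2⟩ := loop (t := T) (G := fun X Y => X.1.2 = Y.1.1 ∧ R X.1.1 Y.1.2 X.1.2)
    (fun x => Subtype.ext (Prod.ext (ht _) (ht _)))
    (fun x y h => ⟨congrArg t (funext fun j => (h j).1), hR _ _ _ fun j => (h j).2⟩)
    (A := ⟨(o, l), .a⟩) (B0 := ⟨(l, o), .b⟩) (C := ⟨(o, o), .c⟩)
    ⟨rfl, r1⟩ ⟨rfl, r4⟩ ⟨rfl, r2⟩ ⟨rfl, r3⟩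
    (fun P pa pb pc po X => by
      obtain ⟨⟨x, y⟩, h⟩ := X
      dsimp only at h
      induction h with
      | a => exact pa
      | b => exact pb
      | c => exact pc
      | op x y h ih => exact po (fun j => ⟨(x j, y j), h j⟩) ih) α (fun i => by
      have e : α i i = ⟨(a i, b i), n4 i⟩ := if_pos rfl
      rw [e]
      refine ⟨(huv i (a i) o).symm.trans (congrArg t (funext fun k => ?_)),
        hR (fun k => cond (v i k) o l) _ (fun k => cond (v i k) (a i) o) fun k => ?_⟩
      · by_cases h : k = i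
        · subst h; rw [e, hu]; rfl
        · simp only [α, if_neg h]
      · by_cases h : k = i
        · subst h; rw [e, hv]; exact s3 k
        · simp only [α, if_neg h]
          cases v i k
          exacts [s2 i, s4 i])
  rw [h1] at h2
  exact ⟨_, h2⟩

end H67.LLL
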