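import Mathlib

set_option autoImplicit false

namespace H67.Mc

/-- a set carrying several free structures, glued along a well-founded depth -/
structure MF (ι S : Type) where
  G : ι → Set S
  E : ι → Set (S → S)
  d : S → ℕ
  var : ℕ → S
  var_inj : Function.Injective var
  var_mem : ∀ i k, var k ∈ G i
  uniq : ∀ a i j, a ∉ G i → a ∉ G j → i = j
  id_mem : ∀ i, id ∈ E i
  comp_mem : ∀ i f g, f ∈ E i → g ∈ E i → f ∘ g ∈ E i
  ext : ∀ i (θ : S → S), ∃ ψ ∈ E i, ∀ b ∈ G i, ψ b = θ b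
  fin : ∀ i a, ∃ T : Finset S, (∀ b ∈ T, b ∈ G i) ∧ (a ∉ G i → ∀ b ∈ T, d b < d a) ∧
    ∀ ψ ∈ E i, ∀ ψ' ∈ E i, (∀ b ∈ T, ψ b = ψ' b) → ψ a = ψ' a

namespace MF

variable {ι S : Type} (M : MF ι S)

/-- least support -/
def supp (i : ι) (a : S) : Set S :=
  {b | b ∈ M.G i ∧ ∃ ψ ∈ M.E i, (∀ c ∈ M.G i, c ≠ b → ψ c = c) ∧ ψ a ≠ a}

variable {M}

theorem supp_G {i : ι} {a b : S} (h : b ∈ M.supp i a) : b ∈ M.G i := h.1

theorem supp_sub {i : ι} {a : S} {T : Set S} (hG : ∀ b ∈ T, b ∈ M.G i)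
    (hT : ∀ ψ ∈ M.E i, (∀ b ∈ T, ψ b = b) → ψ a = a) : M.supp i a ⊆ T := by
  rintro b ⟨-, ψ, h1, h2, h3⟩
  by_contra hb
  exact h3 (hT ψ h1 (fun c hc => h2 c (hG c hc) (fun e => hb (e ▸ hc))))

theorem supp_fin (i : ι) (a : S) : (M.supp i a).Finite := by
  obtain ⟨T, h1, -, h3⟩ := M.fin i a
  exact T.finite_toSet.subset (supp_sub h1 (fun ψ hψ h => h3 ψ hψ id (M.id_mem i) h))

theorem supp_lt {i : ι} {a b : S} (ha : a ∉ M.G i) (h : b ∈ M.supp i a) : M.d b < M.d a := by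
  obtain ⟨T, h1, h2, h3⟩ := M.fin i a
  exact h2 ha b (supp_sub (T := ↑T) h1 (fun ψ hψ h => h3 ψ hψ id (M.id_mem i) h) h)

theorem fresh (T : Finset S) : ∃ k, M.var k ∉ T := by
  by_contra h
  push Not at h
  exact Set.infinite_range_of_injective M.var_inj
    (T.finite_toSet.subset (by rintro _ ⟨k, rfl⟩; exact h k))

theorem agree {i : ι} {a : S} {ψ ψ' : S → S} (h : ψ ∈ M.E i) (h' : ψ' ∈ M.E i)
    (hs : ∀ b ∈ M.supp i a, ψ b = ψ' b) : ψ a = ψ' a := by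
  classical
  have key : ∀ T : Finset S, (∀ b ∈ T, b ∈ M.G i) →
      (∀ ψ ∈ M.E i, ∀ ψ' ∈ M.E i, (∀ b ∈ T, ψ b = ψ' b) → ψ a = ψ' a) → ψ a = ψ' a := by
    intro T
    induction T using Finset.strongInduction with
    | H T ih =>
    intro h1 h3
    by_cases hall : ∀ b ∈ T, b ∈ M.supp i a
    · exact h3 ψ h ψ' h' (fun b hb => hs b (hall b hb))
    push Not at hall
    obtain ⟨b, hb, hn⟩ := hall
    refine ih (T.erase b) (Finset.erase_ssubset hb) (fun c hc => h1 c (Finset.mem_of_mem_erase hc)) ?_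
    intro φ hφ φ' hφ' hag
    obtain ⟨k, hk⟩ := fresh (M := M) T
    obtain ⟨χ, hχ, hχ'⟩ := M.ext i (fun c => if c = b then M.var k else c)
    obtain ⟨ω, hω, hω'⟩ := M.ext i (fun c => if c = M.var k then φ' b else φ c)
    have e1 : χ a = a := by
      by_contra hne
      exact hn ⟨h1 b hb, χ, hχ, fun c hc hcb => by rw [hχ' c hc, if_neg hcb], hne⟩
    have e2 : ω a = φ a := h3 ω hω φ hφ (fun c hc => by
      rw [hω' c (h1 c hc), if_neg (fun e : c = M.var k => hk (e ▸ hc))])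
    have e3 : (ω ∘ χ) a = φ' a := h3 _ (M.comp_mem i _ _ hω hχ) φ' hφ' (fun c hc => by
      simp only [Function.comp]
      rw [hχ' c (h1 c hc)]
      by_cases hcb : c = b
      · rw [if_pos hcb, hω' _ (M.var_mem i k), if_pos rfl, hcb]
      · rw [if_neg hcb, hω' c (h1 c hc), if_neg (fun e : c = M.var k => hk (e ▸ hc))]
        exact hag c (Finset.mem_erase.2 ⟨hcb, hc⟩))
    rw [← e2, ← e3, Function.comp, e1]
  obtain ⟨T, h1, -, h3⟩ := M.fin i a
  exact key T h1 h3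

theorem other (b : S) : ∃ k, M.var k ≠ b := by
  obtain ⟨k, hk⟩ := fresh (M := M) {b}
  exact ⟨k, by simpa using hk⟩

theorem supp_gen {i : ι} {a b : S} (ha : a ∈ M.G i) : b ∈ M.supp i a ↔ b = a := by
  classical
  constructor
  · intro h
    exact supp_sub (T := {a}) (by rintro _ rfl; exact ha) (fun ψ _ h => h a rfl) h
  · rintro rfl
    obtain ⟨k, hk⟩ := other (M := M) b
    obtain ⟨χ, hχ, hχ'⟩ := M.ext i (fun c => if c = b then M.var k else c)
    exact ⟨ha, χ, hχ, fun c hc hcb => by rw [hχ' c hc, if_neg hcb], by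
      rw [hχ' b ha, if_pos rfl]; exact hk⟩

theorem supp_map {i : ι} {a c : S} {ψ : S → S} (h : ψ ∈ M.E i) (hc : c ∈ M.supp i (ψ a)) :
    ∃ b ∈ M.supp i a, c ∈ M.supp i (ψ b) := by
  have := supp_sub (M := M) (i := i) (a := ψ a) (T := {c | ∃ b ∈ M.supp i a, c ∈ M.supp i (ψ b)})
    (fun b ⟨_, _, hb⟩ => hb.1) (fun χ hχ hfix =>
      agree (ψ := χ ∘ ψ) (M.comp_mem i _ _ hχ h) h (fun b hb =>
        agree (ψ' := id) hχ (M.id_mem i) (fun c hc => hfix c ⟨b, hb, hc⟩)))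
  exact this hc

theorem persist {i : ι} {a b : S} {φ τ : S → S} (hφ : φ ∈ M.E i) (hτ : τ ∈ M.E i)
    (hinv : ∀ c ∈ M.supp i a, τ (φ c) = c) (hb : b ∈ M.supp i a) (hG : φ b ∈ M.G i)
    (hoth : ∀ c ∈ M.supp i a, c ≠ b → φ b ∉ M.supp i (φ c))
    (w : S) (hw : τ w ∈ M.G i) (hwb : τ w ≠ b) : φ b ∈ M.supp i (φ a) := by
  classical
  by_contra hn
  obtain ⟨χ, hχ, hχ'⟩ := M.ext i (fun c => if c = φ b then w else c)
  have fixo : ∀ u, φ b ∉ M.supp i u → χ u = u := fun u hu =>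
    agree (ψ' := id) hχ (M.id_mem i) (fun c hc => by
      rw [hχ' c hc.1, if_neg (fun e : c = φ b => hu (e ▸ hc))]; rfl)
  have e1 : τ (φ a) = a := agree (ψ := τ ∘ φ) (ψ' := id) (M.comp_mem i _ _ hτ hφ) (M.id_mem i) hinv
  have hm : τ ∘ χ ∘ φ ∈ M.E i := M.comp_mem i _ _ hτ (M.comp_mem i _ _ hχ hφ)
  have e2 : (τ ∘ χ ∘ φ) a = a := by
    simp only [Function.comp]
    rw [fixo _ hn, e1]
  obtain ⟨c, hc, hbc⟩ := supp_map hm (e2.symm ▸ hb)
  simp only [Function.comp] at hbc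
  by_cases e : c = b
  · rw [e, hχ' _ hG, if_pos rfl, supp_gen hw] at hbc
    exact hwb hbc.symm
  · rw [fixo _ (hoth c hc e), hinv c hc, supp_gen hc.1] at hbc
    exact e hbc.symm

variable (M)

/-- variables -/
def X : Set S := {v | ∀ i, v ∈ M.G i}

/-- joint endomorphisms -/
def EE : Set (S → S) := {φ | ∀ i, φ ∈ M.E i}

/-- one step down -/
def Child (b a : S) : Prop := ∃ i, a ∉ M.G i ∧ b ∈ M.supp i a

/-- hereditary support -/
def Node (b a : S) : Prop := Relation.ReflTransGen M.Child b a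

/-- variables of an element -/
def vars (a : S) : Set S := {v | v ∈ M.X ∧ M.Node v a}

variable {M}

theorem var_X (k : ℕ) : M.var k ∈ M.X := fun i => M.var_mem i k

theorem EE_comp {f g : S → S} (hf : f ∈ M.EE) (hg : g ∈ M.EE) : f ∘ g ∈ M.EE :=
  fun i => M.comp_mem i _ _ (hf i) (hg i)

theorem EE_id : id ∈ M.EE := fun i => M.id_mem i

theorem exists_EE (θ : S → S) : ∃ φ ∈ M.EE, ∀ v ∈ M.X, φ v = θ v := by
  classical
  choose ex hex1 hex2 using M.ext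
  have wf : WellFounded (fun b a : S => M.d b < M.d a) := InvImage.wf M.d Nat.lt_wfRel.wf
  let F : (a : S) → ((b : S) → M.d b < M.d a → S) → S := fun a p =>
    if h : ∃ i, a ∉ M.G i then ex h.choose (fun b => if hb : M.d b < M.d a then p b hb else b) a
    else θ a
  let φ : S → S := wf.fix F
  have hφ : ∀ a, φ a = F a (fun b _ => φ b) := fun a => wf.fix_eq F a
  refine ⟨φ, fun i => ?_, fun v hv => ?_⟩
  · have : φ = ex i φ := by
      funext a
      by_cases ha : a ∈ M.G i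
      · exact (hex2 i φ a ha).symm
      · have h : ∃ i, a ∉ M.G i := ⟨i, ha⟩
        rw [hφ a]
        simp only [F, dif_pos h]
        have e : h.choose = i := M.uniq a _ _ h.choose_spec ha
        rw [e]
        refine agree (hex1 _ _) (hex1 _ _) (fun b hb => ?_)
        rw [hex2 _ _ b hb.1, hex2 _ _ b hb.1, dif_pos (supp_lt ha hb)]
    rw [this]
    exact hex1 _ _
  · rw [hφ v]
    have h : ¬ ∃ i, v ∉ M.G i := fun ⟨i, hi⟩ => hi (hv i)
    simp only [F, dif_neg h]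

theorem ind (P : S → Prop) (h0 : ∀ v ∈ M.X, P v)
    (h1 : ∀ i a, a ∉ M.G i → (∀ b ∈ M.supp i a, P b) → P a) (a : S) : P a := by
  induction' hn : M.d a using Nat.strong_induction_on with n ih generalizing a
  by_cases h : a ∈ M.X
  · exact h0 a h
  · obtain ⟨i, hi⟩ : ∃ i, a ∉ M.G i := by
      by_contra hc
      push Not at hc
      exact h hc
    exact h1 i a hi (fun b hb => ih _ (hn ▸ supp_lt hi hb) b rfl)

theorem node_refl (a : S) : M.Node a a := Relation.ReflTransGen.refl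

theorem node_trans {a b c : S} (h : M.Node a b) (h' : M.Node b c) : M.Node a c :=
  Relation.ReflTransGen.trans h h'

theorem node_supp {i : ι} {a b : S} (h : b ∈ M.supp i a) : M.Node b a := by
  by_cases ha : a ∈ M.G i
  · rw [supp_gen ha] at h
    exact h ▸ node_refl _
  · exact Relation.ReflTransGen.single ⟨i, ha, h⟩

theorem node_cases {i : ι} {a c : S} (ha : a ∉ M.G i) (h : M.Node c a) :
    c = a ∨ ∃ b ∈ M.supp i a, M.Node c b := by
  rcases Relation.ReflTransGen.cases_tail h with e | ⟨b, h1, j, h2, h3⟩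
  · exact Or.inl e.symm
  · exact Or.inr ⟨b, M.uniq a _ _ h2 ha ▸ h3, h1⟩

theorem node_var {v c : S} (hv : v ∈ M.X) (h : M.Node c v) : c = v := by
  rcases Relation.ReflTransGen.cases_tail h with e | ⟨b, -, j, h2, -⟩
  · exact e.symm
  · exact absurd (hv j) h2

theorem node_le {a c : S} (h : M.Node c a) : c = a ∨ M.d c < M.d a := by
  induction h with
  | refl => exact Or.inl rfl
  | tail _ h2 ih =>
    obtain ⟨i, h3, h4⟩ := h2
    have := supp_lt h3 h4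
    rcases ih with e | e
    · exact Or.inr (e ▸ this)
    · exact Or.inr (e.trans this)

theorem node_fin (a : S) : {c | M.Node c a}.Finite := by
  refine ind (M := M) (fun a => {c | M.Node c a}.Finite) (fun v hv => ?_) (fun i a ha ih => ?_) a
  · exact (Set.finite_singleton v).subset (fun c hc => node_var hv hc)
  · refine (((supp_fin (M := M) i a).biUnion ih).insert a).subset (fun c hc => ?_)
    rcases node_cases ha hc with e | ⟨b, hb, h⟩
    · exact Or.inl e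
    · exact Or.inr (Set.mem_biUnion hb h)

theorem vars_mono {a b : S} (h : M.Node b a) : M.vars b ⊆ M.vars a :=
  fun _ hv => ⟨hv.1, node_trans hv.2 h⟩

theorem vars_var {v w : S} (hv : v ∈ M.X) : w ∈ M.vars v ↔ w = v :=
  ⟨fun h => node_var hv h.2, fun h => h ▸ ⟨h ▸ hv, node_refl _⟩⟩

theorem agreeV {φ φ' : S → S} (h : φ ∈ M.EE) (h' : φ' ∈ M.EE) {a : S}
    (hs : ∀ v ∈ M.vars a, φ v = φ' v) : φ a = φ' a := by
  revert hs
  refine ind (M := M) (fun a => (∀ v ∈ M.vars a, φ v = φ' v) → φ a = φ' a) (fun v hv hs => ?_)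
    (fun i a _ ih hs => ?_) a
  · exact hs v ((vars_var hv).2 rfl)
  · exact agree (h i) (h' i) (fun b hb => ih b hb (fun v hv => hs v (vars_mono (node_supp hb) hv)))

theorem node_map0 {i : ι} {φ : S → S} (h : φ ∈ M.E i) {a c : S} (hc : M.Node c (φ a)) :
    (c = φ a ∧ φ a ∉ M.G i) ∨ ∃ b ∈ M.supp i a, M.Node c (φ b) := by
  by_cases ha : φ a ∈ M.G i
  · obtain ⟨b, hb, h1⟩ := supp_map h ((supp_gen ha).2 rfl)
    exact Or.inr ⟨b, hb, node_trans hc (node_supp h1)⟩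
  · rcases node_cases ha hc with e | ⟨b', hb', h1⟩
    · exact Or.inl ⟨e, ha⟩
    · obtain ⟨b, hb, h2⟩ := supp_map h hb'
      exact Or.inr ⟨b, hb, node_trans h1 (node_supp h2)⟩

theorem node_map {φ : S → S} (h : φ ∈ M.EE) {a c : S} (hc : M.Node c (φ a)) :
    (∃ b, M.Node b a ∧ c = φ b) ∨ ∃ v ∈ M.vars a, M.Node c (φ v) := by
  revert hc
  refine ind (M := M) (fun a => M.Node c (φ a) →
    (∃ b, M.Node b a ∧ c = φ b) ∨ ∃ v ∈ M.vars a, M.Node c (φ v)) (fun v hv hc => ?_)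
    (fun i a _ ih hc => ?_) a
  · exact Or.inr ⟨v, (vars_var hv).2 rfl, hc⟩
  · rcases node_map0 (h i) hc with ⟨e, -⟩ | ⟨b, hb, h1⟩
    · exact Or.inl ⟨a, node_refl a, e⟩
    · rcases ih b hb h1 with ⟨b', h2, h3⟩ | ⟨v, h2, h3⟩
      · exact Or.inl ⟨b', node_trans h2 (node_supp hb), h3⟩
      · exact Or.inr ⟨v, vars_mono (node_supp hb) h2, h3⟩

theorem vars_map {φ : S → S} (h : φ ∈ M.EE) {a w : S} (hw : w ∈ M.vars (φ a)) :
    ∃ v ∈ M.vars a, w ∈ M.vars (φ v) := by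
  revert hw
  refine ind (M := M) (fun a => w ∈ M.vars (φ a) → ∃ v ∈ M.vars a, w ∈ M.vars (φ v))
    (fun v hv hw => ⟨v, (vars_var hv).2 rfl, hw⟩) (fun i a _ ih hw => ?_) a
  rcases node_map0 (h i) hw.2 with ⟨e, h1⟩ | ⟨b, hb, h1⟩
  · exact absurd (hw.1 i) (e ▸ h1)
  · obtain ⟨v, h2, h3⟩ := ih b hb ⟨hw.1, h1⟩
    exact ⟨v, vars_mono (node_supp hb) h2, h3⟩

theorem vars_sub {a : S} {T : Set S} (hT : ∀ φ ∈ M.EE, (∀ v ∈ T, v ∈ M.X → φ v = v) → φ a = a) :
    M.vars a ⊆ T := by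
  classical
  intro w hw
  by_contra hn
  obtain ⟨k, hk⟩ := other (M := M) w
  obtain ⟨φ, h1, h2⟩ := exists_EE (M := M) (fun c => if c = w then M.var k else c)
  have e : φ a = a := hT φ h1 (fun v hv hX => by
    rw [h2 v hX, if_neg (fun e : v = w => hn (e ▸ hv))])
  obtain ⟨v, hv, h3⟩ := vars_map h1 (e.symm ▸ hw)
  rw [h2 v hv.1] at h3
  by_cases e' : v = w
  · rw [if_pos e', vars_var (var_X k)] at h3
    exact hk h3.symm
  · rw [if_neg e', vars_var hv.1] at h3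
    exact e' h3.symm

theorem gen_of_not {φ : S → S} {a : S} (hv : a ∈ M.X → φ a ∈ M.X)
    (h : ∀ i, a ∉ M.G i → φ a ∉ M.G i) {i : ι} (ha : a ∈ M.G i) : φ a ∈ M.G i := by
  by_cases hX : a ∈ M.X
  · exact hv hX i
  · obtain ⟨j, hj⟩ : ∃ j, a ∉ M.G j := by
      by_contra hc
      push Not at hc
      exact hX hc
    by_contra hn
    exact hj (M.uniq _ _ _ hn (h j hj) ▸ ha)

theorem rename_not {φ τ : S → S} (hφ : φ ∈ M.EE) (hτ : τ ∈ M.EE) {a : S}
    (hv : ∀ v ∈ M.vars a, φ v ∈ M.X ∧ τ (φ v) = v) : ∀ i, a ∉ M.G i → φ a ∉ M.G i := by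
  revert hv
  refine ind (M := M) (fun a => (∀ v ∈ M.vars a, φ v ∈ M.X ∧ τ (φ v) = v) →
    ∀ i, a ∉ M.G i → φ a ∉ M.G i) (fun v hv _ i hi => absurd (hv i) hi)
    (fun i a ha ih hv j hj hG => ?_) a
  obtain rfl : i = j := M.uniq a _ _ ha hj
  obtain ⟨b, hb, h1⟩ := supp_map (hφ i) ((supp_gen hG).2 rfl)
  have hvb : ∀ v ∈ M.vars b, φ v ∈ M.X ∧ τ (φ v) = v :=
    fun v h => hv v (vars_mono (node_supp hb) h)
  have hb' : φ b ∈ M.G i :=
    gen_of_not (fun hX => (hvb b ((vars_var hX).2 rfl)).1) (ih b hb hvb) hb.1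
  rw [supp_gen hb'] at h1
  have e1 : τ (φ a) = a := agreeV (φ := τ ∘ φ) (EE_comp hτ hφ) EE_id (fun v h => (hv v h).2)
  have e2 : τ (φ b) = b := agreeV (φ := τ ∘ φ) (EE_comp hτ hφ) EE_id (fun v h => (hvb v h).2)
  exact ha (by rw [← e1, h1, e2]; exact hb.1)

theorem rename_gen {φ τ : S → S} (hφ : φ ∈ M.EE) (hτ : τ ∈ M.EE) {a : S}
    (hv : ∀ v ∈ M.vars a, φ v ∈ M.X ∧ τ (φ v) = v) {i : ι} (ha : a ∈ M.G i) : φ a ∈ M.G i :=
  gen_of_not (fun hX => (hv a ((vars_var hX).2 rfl)).1) (rename_not hφ hτ hv) ha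

end MF

end H67.Mc
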