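import Pool.Agent.H67.Mc1

set_option autoImplicit false

namespace H67.Mc

namespace MF

variable {ι S : Type} (M : MF ι S)

open Classical in
/-- substitution for the listed variables -/
noncomputable def sv (f : ℕ → S) : S → S :=
  (exists_EE (M := M) (fun v => if h : ∃ k, M.var k = v then f h.choose else v)).choose

variable {M}

theorem sv_EE (f : ℕ → S) : M.sv f ∈ M.EE := (exists_EE _).choose_spec.1

theorem sv_var (f : ℕ → S) (k : ℕ) : M.sv f (M.var k) = f k := by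
  have h : ∃ j, M.var j = M.var k := ⟨k, rfl⟩
  unfold sv
  rw [(exists_EE _).choose_spec.2 _ (var_X k), dif_pos h, M.var_inj h.choose_spec]

theorem vars_sv {f : ℕ → S} {a : S} {j : ℕ} (h : M.var j ∈ M.vars (M.sv f a)) :
    ∃ k, M.var k ∈ M.vars a ∧ M.var j ∈ M.vars (f k) := by
  obtain ⟨v, hv, h1⟩ := vars_map (sv_EE f) h
  by_cases hk : ∃ k, M.var k = v
  · obtain ⟨k, rfl⟩ := hk
    exact ⟨k, hv, sv_var (M := M) f k ▸ h1⟩
  · unfold sv at h1
    rw [(exists_EE _).choose_spec.2 _ hv.1, dif_neg hk, vars_var hv.1] at h1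
    exact absurd ⟨j, h1⟩ hk

theorem vv {j k : ℕ} : M.var j ∈ M.vars (M.var k) ↔ j = k := by
  rw [vars_var (var_X k), M.var_inj.eq_iff]

theorem swap_mem {b : S} {k l : ℕ} (h : M.sv (fun m => M.var (Equiv.swap k l m)) b = b)
    (hk : M.var k ∈ M.vars b) : M.var l ∈ M.vars b := by
  obtain ⟨m, h1, h2⟩ := vars_sv (h.symm ▸ hk)
  rw [vv] at h2
  have : m = l := by
    have := congrArg (Equiv.swap k l) h2
    simpa using this.symm
  exact this ▸ h1

theorem closed_fix {φ : S → S} (h : φ ∈ M.EE) {b : S} (hb : M.vars b = ∅) : φ b = b :=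
  agreeV (φ' := id) h EE_id (fun v hv => by simp [hb] at hv)

variable [CommMonoid S]

variable (M)

/-- joint endomorphisms respect the monoid structure -/
def Mul : Prop := ∀ φ ∈ M.EE, (∀ s t, φ (s * t) = φ s * φ t) ∧ φ 1 = 1

/-- keep one variable -/
noncomputable def kill (k : ℕ) : S → S := M.sv (fun j => if j = k then M.var 0 else 1)

/-- substitute for the first variable -/
noncomputable def sub (t : S) : S → S := M.sv (fun j => if j = 0 then t else M.var j)

/-- at most unary -/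
def Un (p : S) : Prop := M.vars p ⊆ {M.var 0}

/-- strictly unary -/
def U (p : S) : Prop := M.vars p = {M.var 0}

/-- the generic product -/
def a3 : S := M.var 0 * M.var 1 * M.var 2

/-- renamed generic product -/
def b3 : S := M.var 0 * M.var 3 * M.var 4

/-- longer generic product -/
def a5 : S := M.b3 * M.var 1 * M.var 2

/-- unary elements changing their type -/
def Del (p : S) : Prop := M.U p ∧ ∃ i, p ∈ M.G i ∧ M.sub M.a3 p ∉ M.G i

variable {M}

omit [CommMonoid S] in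
theorem U.un {p : S} (h : M.U p) : M.Un p := h.le

omit [CommMonoid S] in
theorem U.mem {p : S} (h : M.U p) : M.var 0 ∈ M.vars p := h.symm ▸ rfl

omit [CommMonoid S] in
theorem Un.supp {p w : S} {i : ι} (h : M.Un p) (hw : w ∈ M.supp i p) : M.Un w :=
  (vars_mono (node_supp hw)).trans h

omit [CommMonoid S] in
theorem Un.cases {p : S} (h : M.Un p) : M.vars p = ∅ ∨ M.U p :=
  Set.subset_singleton_iff_eq.1 h

omit [CommMonoid S] in
theorem U_var : M.U (M.var 0) := by
  ext w; rw [vars_var (var_X 0)]; rfl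

omit [CommMonoid S] in
theorem sub_EE (t : S) : M.sub t ∈ M.EE := sv_EE _

theorem kill_EE (k : ℕ) : M.kill k ∈ M.EE := sv_EE _

omit [CommMonoid S] in
theorem sub_var0 (t : S) : M.sub t (M.var 0) = t := by simp [sub, sv_var]

omit [CommMonoid S] in
theorem comp_sub {φ : S → S} (h : φ ∈ M.EE) {p : S} (hp : M.Un p) (t : S) :
    φ (M.sub t p) = M.sub (φ t) p :=
  agreeV (φ := φ ∘ M.sub t) (EE_comp h (sub_EE t)) (sub_EE _) (fun v hv => by
    rw [hp hv]; simp [sub_var0])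

omit [CommMonoid S] in
theorem sub_id {p : S} (hp : M.Un p) : M.sub (M.var 0) p = p :=
  agreeV (φ' := id) (sub_EE _) EE_id (fun v hv => by rw [hp hv]; simp [sub_var0])

omit [CommMonoid S] in
theorem vars_sub_un {p : S} (hp : M.Un p) (t : S) : M.vars (M.sub t p) ⊆ M.vars t := by
  intro w hw
  obtain ⟨v, hv, h⟩ := vars_map (sub_EE t) hw
  rwa [hp hv, sub_var0] at h

theorem kill_sub {p t : S} {k : ℕ} (hp : M.Un p) (h : M.kill k t = M.var 0) :
    M.kill k (M.sub t p) = p := by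
  rw [comp_sub (kill_EE k) hp, h, sub_id hp]

theorem vars_one (hm : M.Mul) : M.vars 1 = ∅ :=
  Set.subset_empty_iff.1 (vars_sub (fun φ h _ => (hm φ h).2))

theorem vars_mul (hm : M.Mul) (s t : S) : M.vars (s * t) ⊆ M.vars s ∪ M.vars t :=
  vars_sub (fun φ h hf => by
    rw [(hm φ h).1, agreeV (φ' := id) h EE_id (fun v hv => hf v (Or.inl hv) hv.1),
      agreeV (φ' := id) h EE_id (fun v hv => hf v (Or.inr hv) hv.1)]; rfl)

theorem mem_vars_sub (hm : M.Mul) {p t : S} {k : ℕ} (hp : M.U p) (h : M.kill k t = M.var 0) :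
    M.var k ∈ M.vars (M.sub t p) := by
  have h0 := hp.mem
  rw [← kill_sub hp.un h] at h0
  obtain ⟨j, h1, h2⟩ := vars_sv h0
  by_cases e : j = k
  · exact e ▸ h1
  · simp [e, vars_one hm] at h2

theorem sv_mul (hm : M.Mul) (f : ℕ → S) (s t : S) : M.sv f (s * t) = M.sv f s * M.sv f t :=
  (hm _ (sv_EE f)).1 s t

theorem sv_one (hm : M.Mul) (f : ℕ → S) : M.sv f 1 = 1 := (hm _ (sv_EE f)).2

theorem vars2 (hm : M.Mul) {i j : ℕ} {v : S} (h : v ∈ M.vars (M.var i * M.var j)) :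
    v = M.var i ∨ v = M.var j := by
  rcases vars_mul hm _ _ h with h | h
  · exact Or.inl ((vars_var (var_X _)).1 h)
  · exact Or.inr ((vars_var (var_X _)).1 h)

theorem vars3 (hm : M.Mul) {i j k : ℕ} {v : S} (h : v ∈ M.vars (M.var i * M.var j * M.var k)) :
    v = M.var i ∨ v = M.var j ∨ v = M.var k := by
  rcases vars_mul hm _ _ h with h | h
  · rcases vars2 hm h with h | h
    · exact Or.inl h
    · exact Or.inr (Or.inl h)
  · exact Or.inr (Or.inr ((vars_var (var_X _)).1 h))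

theorem fixF (hm : M.Mul) {t b : S} {k : ℕ} (hz : M.var k ∉ M.vars t) (hb : M.Node b (t * M.var k))
    (hzb : M.var k ∈ M.vars b) {φ : S → S} (hφ : φ ∈ M.EE) (h1 : φ t = t)
    (h2 : φ (M.var k) = M.var k) : φ b = b := by
  let σ := M.sv (fun j => if j = 0 then t else M.var k)
  have e0 : σ (M.var 0) = t := by simp [σ, sv_var]
  have e1 : σ (M.var 1) = M.var k := by simp [σ, sv_var]
  have e : σ (M.var 0 * M.var 1) = t * M.var k := by rw [← e0, ← e1]; exact sv_mul hm _ _ _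
  rw [← e] at hb
  rcases node_map (sv_EE _) hb with ⟨c, hc, rfl⟩ | ⟨v, hv, h⟩
  · refine agreeV (φ := φ ∘ σ) (EE_comp hφ (sv_EE _)) (sv_EE _) (fun v hv => ?_)
    rcases vars2 hm (vars_mono hc hv) with rfl | rfl
    · show φ (σ _) = σ _
      rw [e0, h1]
    · show φ (σ _) = σ _
      rw [e1, h2]
  · rcases vars2 hm hv with rfl | rfl
    · exact absurd (vars_mono (e0 ▸ h) hzb) hz
    · have h' : M.Node b (σ (M.var 1)) := h
      rw [e1] at h'
      rw [node_var (var_X k) h', h2]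

theorem nv2 (hm : M.Mul) {i j k : ℕ} (h1 : k ≠ i) (h2 : k ≠ j) :
    M.var k ∉ M.vars (M.var i * M.var j) := fun h => by
  rcases vars2 hm h with e | e
  · exact h1 (M.var_inj e)
  · exact h2 (M.var_inj e)

theorem third (hm : M.Mul) {b : S} {j k l : ℕ} (hb : M.Node b (M.var k * M.var l * M.var j))
    (hjk : j ≠ k) (hjl : j ≠ l) (h1 : M.var j ∈ M.vars b) (h2 : M.var k ∈ M.vars b) :
    M.var l ∈ M.vars b := by
  refine swap_mem (fixF hm (nv2 hm hjk hjl) hb h1 (sv_EE _) ?_ ?_) h2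
  · rw [sv_mul hm, sv_var, sv_var, Equiv.swap_apply_left, Equiv.swap_apply_right, mul_comm]
  · rw [sv_var, Equiv.swap_apply_of_ne_of_ne hjk hjl]

theorem kill_a3 (hm : M.Mul) {k : ℕ} (hk : k < 3) : M.kill k M.a3 = M.var 0 := by
  interval_cases k <;> simp [kill, a3, sv_mul hm, sv_var]

theorem kill_un (hm : M.Mul) {b : S} (k : ℕ) (h : ∀ v ∈ M.vars b, ∃ j, v = M.var j) :
    M.Un (M.kill k b) := by
  intro w hw
  obtain ⟨v, hv, h1⟩ := vars_map (kill_EE k) hw
  obtain ⟨j, rfl⟩ := h v hv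
  rw [kill, sv_var] at h1
  split_ifs at h1
  · exact (vars_var (var_X 0)).1 h1
  · simp [vars_one hm] at h1

theorem classify (hm : M.Mul) {b : S} (hb : M.Node b M.a3) :
    M.vars b = ∅ ∨ (∃ k < 3, M.vars b = {M.var k}) ∨
      (M.U (M.kill 0 b) ∧ b = M.sub M.a3 (M.kill 0 b)) := by
  have hv : ∀ v ∈ M.vars b, v = M.var 0 ∨ v = M.var 1 ∨ v = M.var 2 :=
    fun v h => vars3 hm (vars_mono hb h)
  have n1 : M.Node b (M.var 1 * M.var 2 * M.var 0) := by
    have : M.var 1 * M.var 2 * M.var 0 = M.a3 := by unfold a3; ac_rfl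
    exact this ▸ hb
  have n2 : M.Node b (M.var 2 * M.var 1 * M.var 0) := by
    have : M.var 2 * M.var 1 * M.var 0 = M.a3 := by unfold a3; ac_rfl
    exact this ▸ hb
  have n3 : M.Node b (M.var 2 * M.var 0 * M.var 1) := by
    have : M.var 2 * M.var 0 * M.var 1 = M.a3 := by unfold a3; ac_rfl
    exact this ▸ hb
  have full : M.var 0 ∈ M.vars b → M.var 2 ∈ M.vars b →
      M.U (M.kill 0 b) ∧ b = M.sub M.a3 (M.kill 0 b) := by
    intro h0 h2
    let α := M.sv (fun j => if j = 0 then M.var 0 * M.var 1 else if j = 1 then 1 else M.var j)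
    let β := M.sv (fun j => if j = 1 then M.var 1 * M.var 2 else if j = 2 then 1 else M.var j)
    have e1 : α b = b := fixF hm (nv2 hm (by decide) (by decide)) hb h2 (sv_EE _)
      (by simp [α, sv_mul hm, sv_var]) (by simp [α, sv_var])
    have e2 : β b = b := fixF hm (nv2 hm (by decide) (by decide)) n1 h0 (sv_EE _)
      (by simp [β, sv_mul hm, sv_var]) (by simp [β, sv_var])
    have e3 : β (α b) = M.sub M.a3 (M.kill 0 b) :=
      agreeV (φ := β ∘ α) (φ' := M.sub M.a3 ∘ M.kill 0) (EE_comp (sv_EE _) (sv_EE _))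
        (EE_comp (sub_EE _) (kill_EE _)) (fun v h => by
          rcases hv v h with rfl | rfl | rfl <;>
            simp [α, β, kill, sub, a3, sv_mul hm, sv_var, sv_one hm, mul_assoc])
    rw [e1, e2] at e3
    refine ⟨?_, e3⟩
    have hu : M.Un (M.kill 0 b) := kill_un hm 0 (fun v h => by
      rcases hv v h with e | e | e <;> exact ⟨_, e⟩)
    rcases hu.cases with h | h
    · rw [closed_fix (sub_EE _) h] at e3
      rw [← e3] at h
      simp [h] at h0
    · exact h
  by_cases h0 : M.var 0 ∈ M.vars b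
  · by_cases h1 : M.var 1 ∈ M.vars b
    · exact Or.inr (Or.inr (full h0 (third hm n1 (by decide) (by decide) h0 h1)))
    · by_cases h2 : M.var 2 ∈ M.vars b
      · exact Or.inr (Or.inr (full h0 h2))
      · refine Or.inr (Or.inl ⟨0, by decide, Set.eq_singleton_iff_unique_mem.2 ⟨h0, fun v h => ?_⟩⟩)
        rcases hv v h with e | e | e
        · exact e
        · exact absurd (e ▸ h) h1
        · exact absurd (e ▸ h) h2
  · by_cases h1 : M.var 1 ∈ M.vars b
    · by_cases h2 : M.var 2 ∈ M.vars b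
      · exact absurd (third hm n3 (by decide) (by decide) h1 h2) h0
      · refine Or.inr (Or.inl ⟨1, by decide, Set.eq_singleton_iff_unique_mem.2 ⟨h1, fun v h => ?_⟩⟩)
        rcases hv v h with e | e | e
        · exact absurd (e ▸ h) h0
        · exact e
        · exact absurd (e ▸ h) h2
    · by_cases h2 : M.var 2 ∈ M.vars b
      · refine Or.inr (Or.inl ⟨2, by decide, Set.eq_singleton_iff_unique_mem.2 ⟨h2, fun v h => ?_⟩⟩)
        rcases hv v h with e | e | e
        · exact absurd (e ▸ h) h0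
        · exact absurd (e ▸ h) h1
        · exact e
      · refine Or.inl (Set.eq_empty_of_forall_notMem (fun v h => ?_))
        rcases hv v h with e | e | e
        · exact h0 (e ▸ h)
        · exact h1 (e ▸ h)
        · exact h2 (e ▸ h)

theorem node_a5 (hm : M.Mul) {b : S} (hb : M.Node b M.a5) (h3 : M.var 3 ∈ M.vars b)
    (h0 : M.var 0 ∈ M.vars b) : M.var 1 ∈ M.vars b := by
  have e : M.a5 = M.var 0 * M.var 1 * (M.var 2 * M.var 4) * M.var 3 := by unfold a5 b3; ac_rfl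
  rw [e] at hb
  refine swap_mem (fixF hm (fun h => ?_) hb h3 (sv_EE _) ?_ ?_) h0
  · rcases vars_mul hm _ _ h with h | h
    · exact nv2 hm (by decide) (by decide) h
    · exact nv2 hm (by decide) (by decide) h
  · simp only [sv_mul hm, sv_var, Equiv.swap_apply_left, Equiv.swap_apply_right]
    rw [Equiv.swap_apply_of_ne_of_ne (by decide) (by decide),
      Equiv.swap_apply_of_ne_of_ne (by decide) (by decide), mul_comm (M.var 1)]
  · rw [sv_var, Equiv.swap_apply_of_ne_of_ne (by decide) (by decide)]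

theorem sub_b3_a3 (hm : M.Mul) : M.sub M.b3 M.a3 = M.a5 := by
  simp [sub, a3, a5, sv_mul hm, sv_var]

theorem full_step (hm : M.Mul) :
    (∀ n, M.Node n M.a3 → M.var 1 ∈ M.vars n → M.var 2 ∈ M.vars n →
      ∀ i, n ∉ M.G i → M.sub M.b3 n ∉ M.G i) ∧
    ∀ n, M.Node n M.a3 → M.var 1 ∈ M.vars n → M.var 2 ∈ M.vars n →
      M.Node (M.sub M.b3 n) M.a5 := by
  let τ := M.sv (fun j => if j = 3 ∨ j = 4 then 1 else M.var j)
  have inv : ∀ n, M.Node n M.a3 → τ (M.sub M.b3 n) = n := fun n hn =>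
    agreeV (φ := τ ∘ M.sub M.b3) (φ' := id) (EE_comp (sv_EE _) (sub_EE _)) EE_id (fun v h => by
      rcases vars3 hm (vars_mono hn h) with rfl | rfl | rfl <;>
        simp [τ, sub, b3, sv_mul hm, sv_var])
  have up : ∀ n, M.Node n M.a3 → ∀ k, M.var k ∈ M.vars n → M.var k ∈ M.vars (M.sub M.b3 n) := by
    intro n hn k hk
    rw [← inv n hn] at hk
    obtain ⟨j, h1, h2⟩ := vars_sv hk
    split_ifs at h2
    · simp [vars_one hm] at h2
    · exact vv.1 h2 ▸ h1
  have down : ∀ c k, k = 1 ∨ k = 2 → M.var k ∈ M.vars (M.sub M.b3 c) → M.var k ∈ M.vars c := by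
    intro c k hk h
    obtain ⟨j, h1, h2⟩ := vars_sv h
    split_ifs at h2
    · rcases vars3 hm h2 with e | e | e <;> have := M.var_inj e <;> omega
    · exact vv.1 h2 ▸ h1
  have nX : ∀ c, M.var 1 ∈ M.vars c → M.var 2 ∈ M.vars c → c ∉ M.X := by
    intro c h1 h2 hX
    rw [vars_var hX] at h1 h2
    have := M.var_inj (h1.trans h2.symm)
    omega
  have A : ∀ n, M.Node n M.a3 → M.var 1 ∈ M.vars n → M.var 2 ∈ M.vars n →
      ∀ i, n ∉ M.G i → M.sub M.b3 n ∉ M.G i := by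
    refine ind (M := M) _ (fun v hv _ _ _ i hi => absurd (hv i) hi) ?_
    intro i n hi ih hn h1 h2 j hj hG
    obtain rfl : i = j := M.uniq n _ _ hi hj
    obtain ⟨c, hc, h3⟩ := supp_map (sub_EE M.b3 i) ((supp_gen hG).2 rfl)
    have hcn := node_trans (node_supp hc) hn
    have c1 := down c 1 (Or.inl rfl) (vars_mono (node_supp h3) (up n hn 1 h1))
    have c2 := down c 2 (Or.inr rfl) (vars_mono (node_supp h3) (up n hn 2 h2))
    have hc' : M.sub M.b3 c ∈ M.G i :=
      gen_of_not (fun hX => absurd hX (nX c c1 c2)) (ih c hc hcn c1 c2) hc.1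
    rw [supp_gen hc'] at h3
    exact hi (by rw [← inv n hn, h3, inv c hcn]; exact hc.1)
  refine ⟨A, fun n hn => ?_⟩
  induction hn using Relation.ReflTransGen.head_induction_on with
  | refl => intro _ _; rw [sub_b3_a3 hm]; exact node_refl _
  | head hc hm' ih =>
    rename_i n m
    intro h1 h2
    obtain ⟨i, hi, hc⟩ := hc
    have gen : ∀ c ∈ M.supp i m, M.var 1 ∈ M.vars c → M.var 2 ∈ M.vars c →
        M.sub M.b3 c ∈ M.G i := fun c hc c1 c2 =>
      gen_of_not (fun hX => absurd hX (nX c c1 c2))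
        (A c (node_trans (node_supp hc) hm') c1 c2) hc.1
    have hn : M.Node n M.a3 := node_trans (node_supp hc) hm'
    refine node_trans (node_supp (persist (sub_EE M.b3 i) (sv_EE _ i)
      (fun c hc => inv c (node_trans (node_supp hc) hm')) hc (gen n hc h1 h2) ?_ (M.var 0) ?_ ?_))
      (ih (vars_mono (node_supp hc) h1) (vars_mono (node_supp hc) h2))
    · intro c hc' hne h3
      have hcn := node_trans (node_supp hc') hm'
      have c1 := down c 1 (Or.inl rfl) (vars_mono (node_supp h3) (up n hn 1 h1))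
      have c2 := down c 2 (Or.inr rfl) (vars_mono (node_supp h3) (up n hn 2 h2))
      rw [supp_gen (gen c hc' c1 c2)] at h3
      exact hne (by rw [← inv n hn, h3, inv c hcn])
    · simp only [sv_var]
      exact M.var_mem i 0
    · simp only [sv_var]
      intro e
      exact nX n h1 h2 (e ▸ var_X 0)

theorem a3_inj (hm : M.Mul) {p q : S} (hp : M.Un p) (hq : M.Un q)
    (h : M.sub M.a3 p = M.sub M.a3 q) : p = q := by
  rw [← kill_sub hp (kill_a3 hm (k := 0) (by decide)), h, kill_sub hq (kill_a3 hm (by decide))]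

theorem a3_notX (hm : M.Mul) {p : S} (hp : M.U p) : ∃ i, M.sub M.a3 p ∉ M.G i := by
  by_contra h
  push Not at h
  have h0 := mem_vars_sub hm hp (kill_a3 hm (k := 0) (by decide))
  have h1 := mem_vars_sub hm hp (kill_a3 hm (k := 1) (by decide))
  rw [vars_var h] at h0 h1
  have := M.var_inj (h0.trans h1.symm)
  omega

theorem del_var (hm : M.Mul) : M.Del (M.var 0) := by
  obtain ⟨i, hi⟩ := a3_notX hm (U_var (M := M))
  exact ⟨U_var, i, M.var_mem i 0, hi⟩

theorem del_supp {p w : S} {i : ι} (hp : M.Un p) (hw : w ∈ M.supp i p)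
    (hn : M.sub M.a3 w ∉ M.G i) : M.Del w := by
  rcases (hp.supp hw).cases with h | h
  · rw [closed_fix (sub_EE _) h] at hn
    exact absurd hw.1 hn
  · exact ⟨h, i, hw.1, hn⟩

theorem Del.gen {p : S} {i : ι} (hp : M.Del p) (hi : p ∉ M.G i) : M.sub M.a3 p ∈ M.G i := by
  obtain ⟨-, j, h1, h2⟩ := hp
  by_contra hn
  exact hi (M.uniq _ _ _ h2 hn ▸ h1)

theorem del_node (hm : M.Mul) : ∀ p, M.Del p → M.Node (M.sub M.a3 p) M.a3 := by
  refine ind (M := M) _ (fun v hv hp => ?_) (fun i p hi ih hp => ?_)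
  · have := (vars_var hv).1 hp.1.mem
    rw [← this, sub_var0]
    exact node_refl _
  · obtain ⟨w, hw, h1⟩ := supp_map (sub_EE M.a3 i) ((supp_gen (hp.gen hi)).2 rfl)
    by_cases h : M.sub M.a3 w ∈ M.G i
    · rw [supp_gen h] at h1
      exact absurd (a3_inj hm hp.1.un (hp.1.un.supp hw) h1 ▸ hw.1) hi
    · exact node_trans (node_supp h1) (ih w hw (del_supp hp.1.un hw h))

theorem del_fin (hm : M.Mul) : {p | M.Del p}.Finite :=
  Set.Finite.of_finite_image (f := M.sub M.a3)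
    ((node_fin M.a3).subset (by rintro _ ⟨p, hp, rfl⟩; exact del_node hm p hp))
    (fun _ hp _ hq h => a3_inj hm hp.1.un hq.1.un h)

omit [CommMonoid S] in
theorem U.lt {p : S} (hp : M.U p) (h : p ≠ M.var 0) : M.d (M.var 0) < M.d p := by
  rcases node_le hp.mem.2 with e | e
  · exact absurd e.symm h
  · exact e

omit [CommMonoid S] in
theorem U.typ {p : S} (hp : M.U p) (h : p ≠ M.var 0) : ∃ i, p ∉ M.G i := by
  by_contra hc
  push Not at hc
  exact h ((vars_var hc).1 hp.mem).symm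

variable (M)

/-- consecutive elements -/
def Nx (β γ : S) : Prop :=
  M.Del β ∧ M.Del γ ∧ M.d β < M.d γ ∧ ∀ w, M.Del w → M.d w ≤ M.d β ∨ M.d γ ≤ M.d w

/-- linear coordinates -/
def Lin (R : Type) [CommRing R] : Prop :=
  ∀ i, ∃ ξ : S → (S →₀ R), (∀ b ∈ M.G i, ξ b = Finsupp.single b 1) ∧
    ∀ (Λ : (S →₀ R) →+ (S →₀ R)), ∀ ψ ∈ M.E i, (∀ b ∈ M.G i, Λ (ξ b) = ξ (ψ b)) →
      ∀ a, Λ (ξ a) = ξ (ψ a)

variable {M}

theorem ex_pred (hm : M.Mul) {γ : S} (hγ : M.Del γ) (h : γ ≠ M.var 0) : ∃ β, M.Nx β γ := by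
  obtain ⟨β, hβ, hmax⟩ := Set.exists_max_image {w | M.Del w ∧ M.d w < M.d γ} M.d
    ((del_fin hm).subset (fun w hw => hw.1)) ⟨_, del_var hm, hγ.1.lt h⟩
  refine ⟨β, hβ.1, hγ, hβ.2, fun w hw => ?_⟩
  by_cases e : M.d w < M.d γ
  · exact Or.inl (hmax w ⟨hw, e⟩)
  · exact Or.inr (not_lt.1 e)

theorem ex_succ (hm : M.Mul) {β w : S} (hβ : M.Del β) (hw : M.Del w) (h : M.d β < M.d w) :
    ∃ γ, M.Nx β γ := by
  obtain ⟨γ, hγ, hmin⟩ := Set.exists_min_image {w | M.Del w ∧ M.d β < M.d w} M.d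
    ((del_fin hm).subset (fun w hw => hw.1)) ⟨_, hw, h⟩
  refine ⟨γ, hβ, hγ.1, hγ.2, fun w hw => ?_⟩
  by_cases e : M.d β < M.d w
  · exact Or.inr (hmin w ⟨hw, e⟩)
  · exact Or.inl (not_lt.1 e)

theorem Nx.ne {β γ : S} (h : M.Nx β γ) : γ ≠ M.var 0 := by
  rintro rfl
  by_cases e : β = M.var 0
  · exact absurd h.2.2.1 (by rw [e]; exact lt_irrefl _)
  · exact absurd (h.1.1.lt e) (not_lt.2 h.2.2.1.le)

omit [CommMonoid S] in
theorem lin_facts {R : Type} [CommRing R] (hl : M.Lin R) :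
    ∃ ξ : ι → S → (S →₀ R), (∀ i, ∀ b ∈ M.G i, ξ i b = Finsupp.single b 1) ∧
      (∀ i a b, ξ i a b ≠ 0 → b ∈ M.supp i a) ∧
      ∀ i, ∀ ψ ∈ M.E i, ∀ a c, ξ i (ψ a) c = (ξ i a).sum (fun b r => r * ξ i (ψ b) c) := by
  classical
  choose ξ h1 h2 using hl
  have h3 : ∀ i, ∀ ψ ∈ M.E i, ∀ a c, ξ i (ψ a) c = (ξ i a).sum (fun b r => r * ξ i (ψ b) c) := by
    intro i ψ hψ a c
    rw [← h2 i (Finsupp.linearCombination R (fun b => ξ i (ψ b))).toAddMonoidHom ψ hψ
      (fun b hb => by simp [h1 i b hb]) a]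
    simp [Finsupp.linearCombination_apply, Finsupp.sum_apply]
  have h4 : ∀ i a b, ξ i a b ≠ 0 → b ∈ M.G i := by
    intro i a b hb
    have := h2 i (Finsupp.filterAddHom (fun c => c ∈ M.G i)) id (M.id_mem i)
      (fun b hb => by
        rw [id, h1 i b hb]
        exact Finsupp.filter_single_of_pos (fun c => c ∈ M.G i) hb) a
    by_contra hn
    apply hb
    have e : (Finsupp.filter (fun c => c ∈ M.G i) (ξ i a)) b = ξ i a b := congrArg (fun f => f b) this
    rw [← e, Finsupp.filter_apply, if_neg hn]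
  refine ⟨ξ, h1, fun i a b hb => ?_, h3⟩
  by_contra hn
  obtain ⟨k, hk⟩ := other (M := M) b
  obtain ⟨χ, hχ, hχ'⟩ := M.ext i (fun c => if c = b then M.var k else c)
  have e : χ a = a := by
    by_contra hne
    exact hn ⟨h4 i a b hb, χ, hχ, fun c hc hcb => by rw [hχ' c hc, if_neg hcb], hne⟩
  apply hb
  rw [← e, h3 i χ hχ]
  refine Finset.sum_eq_zero (fun c hc => ?_)
  have hc' := h4 i a c (Finsupp.mem_support_iff.1 hc)
  show ξ i a c * ξ i (χ c) b = 0
  rw [hχ' c hc']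
  split_ifs with h
  · rw [h1 i _ (M.var_mem i k), Finsupp.single_eq_of_ne hk.symm, mul_zero]
  · rw [h1 i _ hc', Finsupp.single_eq_of_ne (Ne.symm h), mul_zero]

theorem chain (hm : M.Mul) {R : Type} [CommRing R] [Nontrivial R] (hl : M.Lin R) :
    (∀ γ γ', M.Del γ → M.Del γ' → M.d γ = M.d γ' → γ = γ') ∧
    ∀ β γ, M.Nx β γ → ∃ i, γ ∉ M.G i ∧ M.sub M.a3 β ∉ M.G i ∧
      M.sub M.a3 γ ∈ M.supp i (M.sub M.a3 β) := by
  classical
  obtain ⟨ξ, h1, h2, h3⟩ := lin_facts hl
  have key : ∀ k, (∀ β γ, M.d γ = k → M.Nx β γ → ∀ i, γ ∉ M.G i → M.sub M.a3 β ∉ M.G i ∧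
      ξ i (M.sub M.a3 β) (M.sub M.a3 γ) ≠ 0 ∧ ∀ γ', M.Del γ' → γ' ∉ M.G i → M.d γ ≤ M.d γ' →
        γ' ≠ γ → ξ i (M.sub M.a3 β) (M.sub M.a3 γ') = 0) ∧
      ∀ γ γ', M.d γ = k → M.Del γ → M.Del γ' → M.d γ = M.d γ' → γ = γ' := by
    intro k
    induction k using Nat.strong_induction_on with
    | _ k ih =>
    have A : ∀ β γ, M.d γ = k → M.Nx β γ → ∀ i, γ ∉ M.G i → M.sub M.a3 β ∉ M.G i ∧
        ξ i (M.sub M.a3 β) (M.sub M.a3 γ) ≠ 0 ∧ ∀ γ', M.Del γ' → γ' ∉ M.G i → M.d γ ≤ M.d γ' →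
          γ' ≠ γ → ξ i (M.sub M.a3 β) (M.sub M.a3 γ') = 0 := by
      intro β γ hk hN i hi
      have hγ := hN.2.1
      have z0 : ∀ w, M.Un w → w ∈ M.G i → M.sub M.a3 w ∈ M.G i → ∀ γ', M.Del γ' → γ' ∉ M.G i →
          ξ i (M.sub M.a3 w) (M.sub M.a3 γ') = 0 := by
        intro w hw hw1 hw2 γ' hγ' hi'
        rw [h1 i _ hw2, Finsupp.single_eq_of_ne]
        intro e
        exact hi' (a3_inj hm hγ'.1.un hw e ▸ hw1)
      have rel : ∀ γ', M.Del γ' → γ' ∉ M.G i → M.d γ ≤ M.d γ' →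
          Finsupp.single (M.sub M.a3 γ) (1 : R) (M.sub M.a3 γ') =
            ξ i γ β * ξ i (M.sub M.a3 β) (M.sub M.a3 γ') := by
        intro γ' hγ' hi' hle
        rw [← h1 i _ (hγ.gen hi), h3 i _ (sub_EE _ i)]
        refine Finsupp.sum_eq_single β (fun w hw hne => ?_) (fun h => by simp)
        have hs := h2 i γ w hw
        by_cases hG : M.sub M.a3 w ∈ M.G i
        · rw [z0 w (hγ.1.un.supp hs) hs.1 hG γ' hγ' hi', mul_zero]
        · have hw' := del_supp hγ.1.un hs hG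
          have l1 := supp_lt hi hs
          have l2 : M.d w < M.d β := by
            rcases hN.2.2.2 w hw' with e | e
            · rcases e.eq_or_lt with e' | e'
              · exact absurd ((ih (M.d w) (hk ▸ l1)).2 w β rfl hw' hN.1 e') hne
              · exact e'
            · omega
          obtain ⟨u, hu⟩ := ex_succ hm hw' hN.1 l2
          have l3 : M.d u ≤ M.d β := by
            rcases hu.2.2.2 β hN.1 with e | e
            · omega
            · exact e
          have l4 := hN.2.2.1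
          obtain ⟨j, hj⟩ := hu.2.1.1.typ hu.ne
          obtain ⟨b1, -, b3⟩ := (ih (M.d u) (by omega)).1 w u rfl hu j hj
          obtain rfl : j = i := M.uniq _ _ _ b1 hG
          rw [b3 γ' hγ' hi' (by omega) (fun e => by rw [e] at hle; omega), mul_zero]
      have r1 := rel γ hγ hi le_rfl
      rw [Finsupp.single_eq_same] at r1
      have hne : ξ i (M.sub M.a3 β) (M.sub M.a3 γ) ≠ 0 := fun e => by simp [e] at r1
      have hne' : ξ i γ β ≠ 0 := fun e => by simp [e] at r1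
      refine ⟨fun hG => hne (z0 β hN.1.1.un (h2 i γ β hne').1 hG γ hγ hi), hne,
        fun γ' hγ' hi' hle hn => ?_⟩
      have r2 := rel γ' hγ' hi' hle
      rw [Finsupp.single_eq_of_ne (fun e => hn (a3_inj hm hγ'.1.un hγ.1.un e))] at r2
      calc _ = (ξ i γ β * ξ i (M.sub M.a3 β) (M.sub M.a3 γ)) *
            ξ i (M.sub M.a3 β) (M.sub M.a3 γ') := by rw [← r1, one_mul]
        _ = 0 := by rw [mul_right_comm, ← r2, zero_mul]
    refine ⟨A, fun γ γ' hk hγ hγ' he => ?_⟩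
    by_cases e0 : γ = M.var 0
    · by_contra hn
      have := hγ'.1.lt (fun e => hn (e0.trans e.symm))
      rw [← e0] at this
      omega
    obtain ⟨β, hβ⟩ := ex_pred hm hγ e0
    have hβ' : M.Nx β γ' := ⟨hβ.1, hγ', he ▸ hβ.2.2.1, fun w hw => he ▸ hβ.2.2.2 w hw⟩
    obtain ⟨i, hi⟩ := hγ.1.typ e0
    obtain ⟨j, hj⟩ := hγ'.1.typ hβ'.ne
    obtain ⟨a1, -, a3⟩ := A β γ hk hβ i hi
    obtain ⟨b1, b2, -⟩ := A β γ' (he ▸ hk) hβ' j hj
    obtain rfl : i = j := M.uniq _ _ _ a1 b1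
    by_contra hn
    exact b2 (a3 γ' hγ' hj he.le (Ne.symm hn))
  refine ⟨fun γ γ' => (key _).2 γ γ' rfl, fun β γ hN => ?_⟩
  obtain ⟨i, hi⟩ := hN.2.1.1.typ hN.ne
  obtain ⟨a1, a2, -⟩ := (key _).1 β γ rfl hN i hi
  exact ⟨i, hi, a1, h2 i _ _ a2⟩

end MF

end H67.Mc
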