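import Pool.Agent.H67.Mc2

set_option autoImplicit false

namespace H67.Mc

theorem fixpt {κ S : Type} [Inhabited S] (r : κ → ℕ) (F : (κ → S) → κ → S)
    (hF : ∀ u u' i, (∀ j, r j < r i → u j = u' j) → F u i = F u' i) : ∃! u, F u = u := by
  classical
  have wf : WellFounded (fun j i : κ => r j < r i) := InvImage.wf r Nat.lt_wfRel.wf
  let H : (i : κ) → ((j : κ) → r j < r i → S) → S := fun i p =>
    F (fun j => if h : r j < r i then p j h else default) i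
  let u : κ → S := wf.fix H
  refine ⟨u, ?_, ?_⟩
  · funext i
    have : u i = H i (fun j _ => u j) := wf.fix_eq H i
    rw [this]
    exact hF _ _ i (fun j hj => by simp [hj])
  · have hu : F u = u := by
      funext i
      have : u i = H i (fun j _ => u j) := wf.fix_eq H i
      rw [this]
      exact hF _ _ i (fun j hj => by simp [hj])
    intro v hv
    funext i
    induction i using wf.induction with
    | _ i ih =>
    rw [← hv, ← hu]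
    exact hF _ _ i ih

namespace MF

variable {ι S : Type} (M : MF ι S) (ε : ι)

/-- chosen extension -/
noncomputable def ex (θ : S → S) : S → S := (M.ext ε θ).choose

/-- unary generators -/
def Gam (γ : S) : Prop := M.U γ ∧ γ ∈ M.G ε

/-- states -/
abbrev St : Type := {γ // M.Gam ε γ} → S

/-- endomorphisms fixing closed generators -/
def Fx (χ : S → S) : Prop := χ ∈ M.E ε ∧ ∀ b ∈ M.G ε, M.vars b = ∅ → χ b = b

open Classical in
/-- endomorphism of a state -/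
noncomputable def lift (u : M.St ε) : S → S :=
  M.ex ε (fun b => if h : M.Gam ε b then u ⟨b, h⟩ else b)

/-- state of an element -/
noncomputable def st (t : S) : M.St ε := fun γ => M.sub t γ.1

variable {M ε}

/-- image of a state -/
def mp (χ : S → S) (u : M.St ε) : M.St ε := fun γ => χ (u γ)

theorem ex_E (θ : S → S) : M.ex ε θ ∈ M.E ε := (M.ext ε θ).choose_spec.1

theorem ex_G (θ : S → S) {b : S} (hb : b ∈ M.G ε) : M.ex ε θ b = θ b :=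
  (M.ext ε θ).choose_spec.2 b hb

theorem Fx.closed {χ : S → S} (h : M.Fx ε χ) {b : S} (hb : M.vars b = ∅) : χ b = b :=
  agree (ψ' := id) h.1 (M.id_mem ε) (fun c hc => h.2 c hc.1
    (Set.subset_empty_iff.1 (hb ▸ vars_mono (node_supp hc))))

theorem Fx.comp {χ ψ : S → S} (h : M.Fx ε χ) (h' : M.Fx ε ψ) : M.Fx ε (χ ∘ ψ) :=
  ⟨M.comp_mem ε _ _ h.1 h'.1, fun b hb hc => by
    rw [Function.comp, h'.2 b hb hc, h.2 b hb hc]⟩

theorem Fx_EE {φ : S → S} (h : φ ∈ M.EE) : M.Fx ε φ := ⟨h ε, fun _ _ hc => closed_fix h hc⟩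

theorem lift_gen (u : M.St ε) (γ : {γ // M.Gam ε γ}) : M.lift ε u γ.1 = u γ := by
  rw [lift, ex_G _ γ.2.2, dif_pos γ.2]

theorem lift_Fx (u : M.St ε) : M.Fx ε (M.lift ε u) :=
  ⟨ex_E _, fun b hb hc => by
    rw [lift, ex_G _ hb, dif_neg]
    intro h
    have := h.1.mem
    simp [hc] at this⟩

theorem un_agree {χ ψ : S → S} (h : M.Fx ε χ) (h' : M.Fx ε ψ) {p : S} (hp : M.Un p)
    (hs : ∀ γ : {γ // M.Gam ε γ}, γ.1 ∈ M.supp ε p → χ γ.1 = ψ γ.1) : χ p = ψ p :=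
  agree h.1 h'.1 (fun b hb => by
    rcases (hp.supp hb).cases with e | e
    · rw [h.2 b hb.1 e, h'.2 b hb.1 e]
    · exact hs ⟨b, e, hb.1⟩ hb)

theorem lift_st (t : S) {p : S} (hp : M.Un p) : M.lift ε (M.st ε t) p = M.sub t p :=
  un_agree (lift_Fx _) (Fx_EE (sub_EE t)) hp (fun γ _ => lift_gen _ γ)

theorem lift_mp {χ : S → S} (h : M.Fx ε χ) (u : M.St ε) {p : S} (hp : M.Un p) :
    M.lift ε (mp χ u) p = χ (M.lift ε u p) :=
  un_agree (ψ := χ ∘ M.lift ε u) (lift_Fx _) (h.comp (lift_Fx _)) hp (fun γ _ => by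
    rw [lift_gen, Function.comp, lift_gen]; rfl)

theorem supp_le {i : ι} {a b : S} (h : b ∈ M.supp i a) : M.d b ≤ M.d a := by
  rcases node_le (node_supp h) with e | e
  · exact e ▸ le_rfl
  · exact e.le

variable [CommMonoid S]

variable (M ε)

open Classical in
/-- general specialisation -/
noncomputable def Th (W : ℕ → M.St ε) (η η' : S → S) : S → S :=
  M.ex ε (fun b => if M.vars b = ∅ then b else
    if h : ∃ k, M.vars b = {M.var k} then M.lift ε (W h.choose) (M.kill h.choose b) else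
    if M.var 0 ∈ M.vars b ∧ M.var 3 ∈ M.vars b ∧ M.var 1 ∉ M.vars b then η' (M.kill 0 b)
    else η (M.kill 0 b))

/-- specialisation for three states -/
noncomputable def Ps (u0 u1 u2 : M.St ε) (η : S → S) : S → S :=
  M.Th ε (fun k => if k = 0 then u0 else if k = 1 then u1 else u2) η η

/-- product of three states with external data -/
noncomputable def Sm (u0 u1 u2 : M.St ε) (η : S → S) : M.St ε :=
  fun γ => M.Ps ε u0 u1 u2 η (M.sub M.a3 γ.1)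

variable {M ε}

theorem Th_Fx (W : ℕ → M.St ε) (η η' : S → S) : M.Fx ε (M.Th ε W η η') :=
  ⟨ex_E _, fun b hb hc => by rw [Th, ex_G _ hb, if_pos hc]⟩

theorem Ps_Fx (u0 u1 u2 : M.St ε) (η : S → S) : M.Fx ε (M.Ps ε u0 u1 u2 η) := Th_Fx _ _ _

theorem Th_one {W : ℕ → M.St ε} {η η' : S → S} {b : S} {k : ℕ} (hb : b ∈ M.G ε)
    (h : M.vars b = {M.var k}) : M.Th ε W η η' b = M.lift ε (W k) (M.kill k b) := by
  have h' : ∃ k, M.vars b = {M.var k} := ⟨k, h⟩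
  have e : h'.choose = k :=
    M.var_inj (Set.singleton_injective (h'.choose_spec.symm.trans h))
  rw [Th, ex_G _ hb, if_neg (by rw [h]; exact Set.singleton_ne_empty _), dif_pos h', e]

theorem Th_two {W : ℕ → M.St ε} {η η' : S → S} {b : S} {k : ℕ} (hb : b ∈ M.G ε)
    (h0 : M.var 0 ∈ M.vars b) (hk : M.var k ∈ M.vars b) (hk0 : k ≠ 0) :
    (M.var 1 ∈ M.vars b → M.Th ε W η η' b = η (M.kill 0 b)) ∧
      (M.var 3 ∈ M.vars b → M.var 1 ∉ M.vars b → M.Th ε W η η' b = η' (M.kill 0 b)) := by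
  have n1 : ¬ M.vars b = ∅ := fun e => by simp [e] at h0
  have n2 : ¬ ∃ k, M.vars b = {M.var k} := fun ⟨j, e⟩ => by
    rw [e] at h0 hk
    exact hk0 (M.var_inj (hk.trans h0.symm))
  constructor
  · intro h
    rw [Th, ex_G _ hb, if_neg n1, dif_neg n2, if_neg (fun e => e.2.2 h)]
  · intro h' h
    rw [Th, ex_G _ hb, if_neg n1, dif_neg n2, if_pos ⟨h0, h', h⟩]

theorem kill_var (k : ℕ) : M.kill k (M.var k) = M.var 0 := by simp [kill, sv_var]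

theorem Th_st (hm : M.Mul) (W : ℕ → M.St ε) (η η' : S → S) (k : ℕ) :
    mp (M.Th ε W η η') (M.st ε (M.var k)) = W k := by
  funext γ
  have hG : M.sub (M.var k) γ.1 ∈ M.G ε :=
    rename_gen (τ := M.kill k) (sub_EE _) (kill_EE k) (fun v hv => by
      rw [γ.2.1.un hv, sub_var0]; exact ⟨var_X k, kill_var k⟩) γ.2.2
  have hv : M.vars (M.sub (M.var k) γ.1) = {M.var k} :=
    Set.eq_singleton_iff_unique_mem.2 ⟨mem_vars_sub hm γ.2.1 (kill_var k),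
      fun v h => (vars_var (var_X k)).1 (vars_sub_un γ.2.1.un _ h)⟩
  show M.Th ε W η η' (M.sub (M.var k) γ.1) = W k γ
  rw [Th_one hG hv, kill_sub γ.2.1.un (kill_var k), lift_gen]

theorem Th_nat (hm : M.Mul) {χ : S → S} (h : M.Fx ε χ) (W : ℕ → M.St ε) (η η' : S → S) (a : S) :
    χ (M.Th ε W η η' a) = M.Th ε (fun k => mp χ (W k)) (χ ∘ η) (χ ∘ η') a := by
  classical
  refine agree (ψ := χ ∘ M.Th ε W η η') (M.comp_mem ε _ _ h.1 (ex_E _)) (ex_E _) (fun b hb => ?_)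
  have hb := hb.1
  simp only [Function.comp]
  by_cases h1 : M.vars b = ∅
  · rw [(Th_Fx _ _ _).2 b hb h1, h.2 b hb h1]
    exact ((Th_Fx _ _ _).2 b hb h1).symm
  · by_cases h2 : ∃ k, M.vars b = {M.var k}
    · obtain ⟨k, hk⟩ := h2
      rw [Th_one hb hk]
      refine Eq.trans ?_ (Th_one hb hk).symm
      exact (lift_mp h _ (kill_un hm k (fun v hv => ⟨k, by rwa [hk] at hv⟩))).symm
    · rw [Th, Th, ex_G _ hb, ex_G _ hb, if_neg h1, if_neg h1, dif_neg h2, dif_neg h2]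
      split_ifs <;> rfl

theorem Sm_nat (hm : M.Mul) {χ : S → S} (h : M.Fx ε χ) (u0 u1 u2 : M.St ε) (η : S → S) :
    mp χ (M.Sm ε u0 u1 u2 η) = M.Sm ε (mp χ u0) (mp χ u1) (mp χ u2) (χ ∘ η) := by
  funext γ
  show χ (M.Ps ε u0 u1 u2 η _) = M.Ps ε _ _ _ _ _
  rw [Ps, Th_nat hm h, Ps]
  congr 1
  funext k
  split_ifs <;> rfl

theorem Ps_ext (hm : M.Mul) (u0 u1 u2 : M.St ε) (η : S → S) {β : S} (hβ : M.U β)
    (hG : M.sub M.a3 β ∈ M.G ε) : M.Ps ε u0 u1 u2 η (M.sub M.a3 β) = η β := by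
  have h1 := mem_vars_sub hm hβ (kill_a3 hm (k := 1) (by decide))
  rw [Ps, (Th_two hG (mem_vars_sub hm hβ (kill_a3 hm (k := 0) (by decide))) h1 (by decide)).1 h1,
    kill_sub hβ.un (kill_a3 hm (by decide))]

theorem cls (hm : M.Mul) {β b : S} (hβ : M.U β) (h : M.sub M.a3 β ∈ M.G ε ∨ M.Del β)
    (hb : b ∈ M.supp ε (M.sub M.a3 β)) : M.vars b = ∅ ∨ (∃ k < 3, M.vars b = {M.var k}) ∨
      ∃ β', M.U β' ∧ b = M.sub M.a3 β' := by
  rcases h with h | h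
  · exact Or.inr (Or.inr ⟨β, hβ, (supp_gen h).1 hb⟩)
  · rcases classify hm (node_trans (node_supp hb) (del_node hm β h)) with e | e | e
    · exact Or.inl e
    · exact Or.inr (Or.inl e)
    · exact Or.inr (Or.inr ⟨_, e⟩)

theorem Gam.alt {γ : S} (h : M.Gam ε γ) : M.sub M.a3 γ ∈ M.G ε ∨ M.Del γ := by
  by_cases e : M.sub M.a3 γ ∈ M.G ε
  · exact Or.inl e
  · exact Or.inr ⟨h.1, ε, h.2, e⟩

theorem Ps_dep (hm : M.Mul) (u0 u1 u2 : M.St ε) {η η' : S → S} {β : S} (hβ : M.U β)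
    (h : M.sub M.a3 β ∈ M.G ε ∨ M.Del β)
    (hη : ∀ β', M.U β' → M.sub M.a3 β' ∈ M.supp ε (M.sub M.a3 β) → η β' = η' β') :
    M.Ps ε u0 u1 u2 η (M.sub M.a3 β) = M.Ps ε u0 u1 u2 η' (M.sub M.a3 β) := by
  refine agree (Th_Fx _ _ _).1 (Th_Fx _ _ _).1 (fun b hb => ?_)
  rcases cls hm hβ h hb with e | ⟨k, -, e⟩ | ⟨β', h1, rfl⟩
  · rw [Ps, Ps, (Th_Fx _ _ _).2 b hb.1 e, (Th_Fx _ _ _).2 b hb.1 e]
  · rw [Ps, Ps, Th_one hb.1 e, Th_one hb.1 e]
  · exact (Ps_ext hm u0 u1 u2 η h1 hb.1).trans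
      ((hη β' h1 hb).trans (Ps_ext hm u0 u1 u2 η' h1 hb.1).symm)

theorem Sm_congr (hm : M.Mul) (u0 u1 u2 : M.St ε) {η η' : S → S}
    (hη : ∀ β, M.U β → M.sub M.a3 β ∈ M.G ε → η β = η' β) :
    M.Sm ε u0 u1 u2 η = M.Sm ε u0 u1 u2 η' :=
  funext fun γ => Ps_dep hm u0 u1 u2 γ.2.1 γ.2.alt (fun β h1 h2 => hη β h1 h2.1)

theorem lift_Sm (u0 u1 u2 : M.St ε) (η : S → S) {p : S} (hp : M.Un p) :
    M.lift ε (M.Sm ε u0 u1 u2 η) p = M.Ps ε u0 u1 u2 η (M.sub M.a3 p) :=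
  un_agree (ψ := M.Ps ε u0 u1 u2 η ∘ M.sub M.a3) (lift_Fx _)
    ((Th_Fx _ _ _).comp (Fx_EE (sub_EE _))) hp (fun γ _ => lift_gen _ γ)

theorem st_mul (hm : M.Mul) (t0 t1 t2 : S) :
    M.st ε (t0 * t1 * t2) = M.Sm ε (M.st ε t0) (M.st ε t1) (M.st ε t2) (M.sub (t0 * t1 * t2)) := by
  funext γ
  let f : ℕ → S := fun k => if k = 0 then t0 else if k = 1 then t1 else t2
  have e : M.sv f M.a3 = t0 * t1 * t2 := by simp [f, a3, sv_mul hm, sv_var]
  show M.sub _ γ.1 = M.Ps ε _ _ _ _ _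
  rw [← e, ← comp_sub (sv_EE f) γ.2.1.un]
  refine agree (sv_EE f ε) (Th_Fx _ _ _).1 (fun b hb => ?_)
  rcases cls hm γ.2.1 γ.2.alt hb with e' | ⟨k, -, e'⟩ | ⟨β', h1, rfl⟩
  · rw [Ps, (Th_Fx _ _ _).2 b hb.1 e', closed_fix (sv_EE f) e']
  · rw [Ps, Th_one hb.1 e']
    have hW : (if k = 0 then M.st ε t0 else if k = 1 then M.st ε t1 else M.st ε t2) =
        M.st ε (f k) := by
      simp only [f]
      split_ifs <;> rfl
    rw [hW, lift_st _ (kill_un hm k (fun v hv => ⟨k, by rwa [e'] at hv⟩))]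
    refine agreeV (φ' := M.sub (f k) ∘ M.kill k) (sv_EE f) (EE_comp (sub_EE _) (kill_EE _))
      (fun v hv => ?_)
    rw [e'] at hv
    rw [hv, Function.comp, kill_var, sub_var0, sv_var]
  · rw [comp_sub (sv_EE f) h1.un]
    exact (Ps_ext hm _ _ _ _ h1 hb.1).symm

theorem Ps_st (hm : M.Mul) (u0 u1 u2 : M.St ε) (η : S → S) :
    mp (M.Ps ε u0 u1 u2 η) (M.st ε (M.var 0)) = u0 ∧ mp (M.Ps ε u0 u1 u2 η) (M.st ε (M.var 1)) = u1 ∧
      mp (M.Ps ε u0 u1 u2 η) (M.st ε (M.var 2)) = u2 :=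
  ⟨Th_st hm _ _ _ 0, Th_st hm _ _ _ 1, Th_st hm _ _ _ 2⟩

theorem Sm_symm (hm : M.Mul) (u0 u1 u2 : M.St ε) (η : S → S) :
    M.Sm ε u0 u1 u2 η = M.Sm ε u1 u0 u2 η := by
  have h := st_mul (ε := ε) hm (M.var 1) (M.var 0) (M.var 2)
  have e : M.var 1 * M.var 0 * M.var 2 = M.a3 := by unfold a3; ac_rfl
  rw [e] at h
  have h' := congrArg (mp (M.Ps ε u0 u1 u2 η)) h
  obtain ⟨a0, a1, a2⟩ := Ps_st hm u0 u1 u2 η
  rw [Sm_nat hm (Ps_Fx _ _ _ _), a0, a1, a2] at h'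
  exact h'.trans (Sm_congr hm _ _ _ (fun β h1 h2 => Ps_ext hm _ _ _ _ h1 h2))

theorem mp_one (hm : M.Mul) {χ : S → S} (h : M.Fx ε χ) : mp χ (M.st ε 1) = M.st ε 1 :=
  funext fun γ => h.closed (Set.subset_empty_iff.1 (vars_one hm ▸ vars_sub_un γ.2.1.un 1))

theorem Sm_unit (hm : M.Mul) (u : M.St ε) :
    u = M.Sm ε u (M.st ε 1) (M.st ε 1) (M.lift ε u) := by
  have h := st_mul (ε := ε) hm (M.var 0) 1 1
  simp only [mul_one] at h
  have h' := congrArg (mp (M.lift ε u)) h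
  have e : mp (M.lift ε u) (M.st ε (M.var 0)) = u := funext fun γ => by
    show M.lift ε u (M.sub _ γ.1) = _
    rw [sub_id γ.2.1.un, lift_gen]
  rw [Sm_nat hm (lift_Fx _), e, mp_one hm (lift_Fx _)] at h'
  exact h'.trans (Sm_congr hm _ _ _ (fun β h1 _ => by rw [Function.comp, sub_id h1.un]))

theorem kill_b3 (hm : M.Mul) : M.kill 0 M.b3 = M.var 0 ∧ M.kill 3 M.b3 = M.var 0 := by
  constructor <;> simp [kill, b3, sv_mul hm, sv_var]

theorem kill_a5 (hm : M.Mul) : M.kill 0 M.a5 = M.var 0 ∧ M.kill 1 M.a5 = M.var 0 := by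
  constructor <;> simp [kill, a5, b3, sv_mul hm, sv_var]

theorem Sm_indep (hm : M.Mul) (u0 u1 u2 v1 v2 : M.St ε) (η η' η'' : S → S) :
    M.Sm ε (M.Sm ε u0 u1 u2 η') v1 v2 η = M.Sm ε (M.Sm ε u0 u1 u2 η'') v1 v2 η := by
  funext γ
  by_cases hG : M.sub M.a3 γ.1 ∈ M.G ε
  · exact (Ps_ext hm _ _ _ _ γ.2.1 hG).trans (Ps_ext hm _ _ _ _ γ.2.1 hG).symm
  have hD : M.Del γ.1 := ⟨γ.2.1, ε, γ.2.2, hG⟩
  let W : ℕ → M.St ε := fun k => if k = 0 then u0 else if k = 1 then v1 else if k = 2 then v2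
    else if k = 3 then u1 else u2
  have s35 : ∀ β, M.Un β → M.sub M.b3 (M.sub M.a3 β) = M.sub M.a5 β := fun β h => by
    rw [comp_sub (sub_EE _) h, sub_b3_a3 hm]
  have f1 : ∀ β, M.U β → M.var 1 ∈ M.vars (M.sub M.a3 β) :=
    fun β h => mem_vars_sub hm h (kill_a3 hm (k := 1) (by decide))
  have f2 : ∀ β, M.U β → M.var 2 ∈ M.vars (M.sub M.a3 β) :=
    fun β h => mem_vars_sub hm h (kill_a3 hm (k := 2) (by decide))
  have key : ∀ ζ, M.Th ε W η ζ (M.sub M.a5 γ.1) = M.Sm ε (M.Sm ε u0 u1 u2 ζ) v1 v2 η γ := by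
    intro ζ
    have h5 := congrArg (mp (M.Th ε W η ζ)) (st_mul (ε := ε) hm M.b3 (M.var 1) (M.var 2))
    have h3 := congrArg (mp (M.Th ε W η ζ)) (st_mul (ε := ε) hm (M.var 0) (M.var 3) (M.var 4))
    rw [Sm_nat hm (Th_Fx _ _ _), Th_st hm, Th_st hm, Th_st hm] at h3
    have h3' : mp (M.Th ε W η ζ) (M.st ε M.b3) = M.Sm ε u0 u1 u2 ζ := by
      refine h3.trans (Sm_congr hm _ _ _ (fun β h1 h2 => ?_))
      let ρ := M.sv (fun j => if j = 1 then M.var 3 else if j = 2 then M.var 4 else M.var j)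
      let ρ' := M.sv (fun j => if j = 3 then M.var 1 else if j = 4 then M.var 2 else M.var j)
      have e : ρ (M.sub M.a3 β) = M.sub M.b3 β := by
        rw [comp_sub (φ := ρ) (sv_EE _) h1.un]
        congr 1
        simp [ρ, a3, b3, sv_mul hm, sv_var]
      have hb : M.sub M.b3 β ∈ M.G ε := by
        rw [← e]
        refine rename_gen (τ := ρ') (sv_EE _) (sv_EE _) (fun v hv => ?_) h2
        rcases vars3 hm (vars_sub_un h1.un _ hv) with rfl | rfl | rfl <;>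
          simp [ρ', sv_var, var_X]
      have n1 : M.var 1 ∉ M.vars (M.sub M.b3 β) := fun h => by
        rcases vars3 hm (vars_sub_un h1.un _ h) with e | e | e <;> have := M.var_inj e <;> omega
      show M.Th ε W η ζ (M.sub M.b3 β) = ζ β
      rw [(Th_two hb (mem_vars_sub hm h1 (kill_b3 hm).1) (mem_vars_sub hm h1 (kill_b3 hm).2)
        (by decide)).2 (mem_vars_sub hm h1 (kill_b3 hm).2) n1, kill_sub h1.un (kill_b3 hm).1]
    rw [Sm_nat hm (Th_Fx _ _ _), h3', Th_st hm, Th_st hm] at h5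
    refine (congrFun h5 γ).trans (Ps_dep hm _ _ _ γ.2.1 (Or.inr hD) (fun β h1 h2 => ?_))
    have hn : M.Node (M.sub M.a3 β) M.a3 := node_trans (node_supp h2) (del_node hm _ hD)
    have hb : M.sub M.a5 β ∈ M.G ε := by
      rw [← s35 β h1.un]
      refine gen_of_not (fun hX => ?_) ((full_step hm).1 _ hn (f1 β h1) (f2 β h1)) h2.1
      obtain ⟨i, hi⟩ := a3_notX hm h1
      exact absurd (hX i) hi
    have m1 := mem_vars_sub hm h1 (kill_a5 hm).2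
    show M.Th ε W η ζ (M.sub M.a5 β) = η β
    rw [(Th_two hb (mem_vars_sub hm h1 (kill_a5 hm).1) m1 (by decide)).1 m1,
      kill_sub h1.un (kill_a5 hm).1]
  rw [← key, ← key]
  have hn : M.Node (M.sub M.a5 γ.1) M.a5 := by
    rw [← s35 _ γ.2.1.un]
    exact (full_step hm).2 _ (del_node hm _ hD) (f1 _ γ.2.1) (f2 _ γ.2.1)
  refine agree (Th_Fx _ _ _).1 (Th_Fx _ _ _).1 (fun b hb => ?_)
  have hb5 := node_trans (node_supp hb) hn
  classical
  rw [Th, Th, ex_G _ hb.1, ex_G _ hb.1]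
  split_ifs with c1 c2 c3
  · rfl
  · rfl
  · exact absurd (node_a5 hm hb5 c3.2.1 c3.1) c3.2.2
  · rfl

variable (M ε)

/-- coherent states -/
def Zs (u : M.St ε) : Prop :=
  (∀ γ : {γ // M.Gam ε γ}, ¬ M.Del γ.1 → u γ = M.sub 1 γ.1) ∧
    ∀ β γ, M.Nx β γ → γ ∈ M.G ε → M.lift ε u β = M.lift ε u γ

/-- normalised product -/
def IsN (u0 u1 u2 w : M.St ε) : Prop := M.Zs ε w ∧ w = M.Sm ε u0 u1 u2 (M.lift ε w)

/-- chain data -/
def Ch : Prop :=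
  (∀ γ γ', M.Del γ → M.Del γ' → M.d γ = M.d γ' → γ = γ') ∧
  (∀ β γ, M.Nx β γ → ∃ i, γ ∉ M.G i ∧ M.sub M.a3 β ∉ M.G i ∧
      M.sub M.a3 γ ∈ M.supp i (M.sub M.a3 β)) ∧
  ∀ β, M.Del β → M.sub M.a3 β ∈ M.G ε → ∃ γ, M.Nx β γ

variable {M ε}

theorem Ch.iff (hc : M.Ch ε) {β γ : S} (h : M.Nx β γ) : M.sub M.a3 β ∈ M.G ε ↔ γ ∈ M.G ε := by
  obtain ⟨i, h1, h2, -⟩ := hc.2.1 β γ h
  constructor
  · intro h3
    by_contra h4
    exact h2 (M.uniq _ _ _ h4 h1 ▸ h3)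
  · intro h3
    by_contra h4
    exact h1 (M.uniq _ _ _ h4 h2 ▸ h3)

theorem Ch.succ_eq (hc : M.Ch ε) {β γ γ' : S} (h : M.Nx β γ) (h' : M.Nx β γ') : γ = γ' := by
  refine hc.1 _ _ h.2.1 h'.2.1 ?_
  have a1 := h.2.2.2 γ' h'.2.1
  have a2 := h'.2.2.2 γ h.2.1
  have a3 := h.2.2.1
  have a4 := h'.2.2.1
  omega

theorem Ch.pred_eq (hc : M.Ch ε) {β β' γ : S} (h : M.Nx β γ) (h' : M.Nx β' γ) : β = β' := by
  refine hc.1 _ _ h.1 h'.1 ?_
  have a1 := h.2.2.2 β' h'.1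
  have a2 := h'.2.2.2 β h.1
  have a3 := h.2.2.1
  have a4 := h'.2.2.1
  omega

theorem gam_of_ext (hm : M.Mul) {β : S} (h : M.U β) (hn : ¬ M.Del β) : β ∈ M.G ε ↔
    M.sub M.a3 β ∈ M.G ε := by
  constructor
  · intro h1
    by_contra h2
    exact hn ⟨h, ε, h1, h2⟩
  · intro h1
    by_contra h2
    obtain ⟨i, hi⟩ := a3_notX hm h
    by_cases h3 : β ∈ M.G i
    · exact hn ⟨h, i, h3, hi⟩
    · exact hi (M.uniq _ _ _ h2 h3 ▸ h1)

theorem exN (hm : M.Mul) (hc : M.Ch ε) (u0 u1 u2 : M.St ε) : ∃! w, M.IsN ε u0 u1 u2 w := by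
  classical
  haveI : Inhabited S := ⟨1⟩
  choose! sc hsc using hc.2.2
  let F : (S → S) → S → S := fun η β => if M.Del β ∧ M.sub M.a3 β ∈ M.G ε then
    M.Ps ε u0 u1 u2 η (M.sub M.a3 (sc β)) else M.sub 1 β
  obtain ⟨η, hη, huniq⟩ := fixpt (fun β => M.d (M.sub M.a3 β)) F (fun η η' β h => by
    simp only [F]
    split_ifs with hβ
    · have hN := hsc β hβ.1 hβ.2
      refine Ps_dep hm _ _ _ hN.2.1.1 (Or.inr hN.2.1) (fun β' _ h2 => h β' ?_)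
      obtain ⟨i, -, a2, a3⟩ := hc.2.1 _ _ hN
      exact (supp_le h2).trans_lt (supp_lt a2 a3)
    · rfl)
  have ext1 : ∀ β, M.U β → M.sub M.a3 β ∈ M.G ε → M.lift ε (M.Sm ε u0 u1 u2 η) β = η β :=
    fun β h1 h2 => by rw [lift_Sm _ _ _ _ h1.un, Ps_ext hm _ _ _ _ h1 h2]
  refine ⟨M.Sm ε u0 u1 u2 η, ⟨⟨fun γ hγ => ?_, fun β γ hN hG => ?_⟩,
    Sm_congr hm _ _ _ (fun β h1 h2 => (ext1 β h1 h2).symm)⟩, fun w hw => ?_⟩
  · rw [← lift_gen (M.Sm ε u0 u1 u2 η) γ, ext1 _ γ.2.1 ((gam_of_ext hm γ.2.1 hγ).1 γ.2.2), ← hη]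
    simp only [F, hγ, false_and, if_false]
  · have hG' := (hc.iff hN).2 hG
    rw [ext1 β hN.1.1 hG', lift_Sm _ _ _ _ hN.2.1.1.un, ← hc.succ_eq (hsc β hN.1 hG') hN]
    conv_lhs => rw [← hη]
    simp only [F, hN.1, hG', and_self, if_true]
  · let ζ : S → S := fun β => if M.Del β ∧ M.sub M.a3 β ∈ M.G ε then M.lift ε w β else M.sub 1 β
    have e1 : w = M.Sm ε u0 u1 u2 ζ := hw.2.trans (Sm_congr hm _ _ _ (fun β h1 h2 => by
      simp only [ζ]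
      split_ifs with h3
      · rfl
      · have h4 : ¬ M.Del β := fun e => h3 ⟨e, h2⟩
        exact (lift_gen w ⟨β, h1, (gam_of_ext hm h1 h4).2 h2⟩).trans (hw.1.1 _ h4)))
    have e2 : F ζ = ζ := by
      funext β
      simp only [F]
      split_ifs with h3
      · have hN := hsc β h3.1 h3.2
        rw [← lift_Sm _ _ _ _ hN.2.1.1.un, ← e1, ← hw.1.2 β _ hN ((hc.iff hN).1 h3.2)]
        simp only [ζ, h3, and_self, if_true]
      · simp only [ζ, h3, if_false]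
    rw [e1, huniq ζ e2]

theorem exZ (hm : M.Mul) (hc : M.Ch ε) (s : S) :
    ∃! u, M.Zs ε u ∧ u ⟨M.var 0, U_var, M.var_mem ε 0⟩ = s := by
  classical
  haveI : Inhabited S := ⟨1⟩
  have hp := fun γ h1 h2 => ex_pred hm (γ := γ) h1 h2
  choose! pr hpr using hp
  let F : M.St ε → M.St ε := fun u γ => if γ.1 = M.var 0 then s else
    if M.Del γ.1 then M.lift ε u (pr γ.1) else M.sub 1 γ.1
  have key : ∀ u, F u = u ↔ M.Zs ε u ∧ u ⟨M.var 0, U_var, M.var_mem ε 0⟩ = s := by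
    intro u
    constructor
    · intro h
      refine ⟨⟨fun γ hγ => ?_, fun β γ hN hG => ?_⟩, ?_⟩
      · have : γ.1 ≠ M.var 0 := fun e => hγ (e ▸ del_var hm)
        rw [← h]
        simp only [F, this, hγ, if_false]
      · have e := congrFun h ⟨γ, hN.2.1.1, hG⟩
        simp only [F, hN.ne, hN.2.1, if_false, if_true] at e
        rw [hc.pred_eq hN (hpr γ hN.2.1 hN.ne), e]
        exact (lift_gen u ⟨γ, hN.2.1.1, hG⟩).symm
      · rw [← h]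
        simp only [F, if_true]
    · rintro ⟨⟨h1, h2⟩, h3⟩
      funext γ
      simp only [F]
      split_ifs with c1 c2
      · rw [← h3]
        congr 1
        exact Subtype.ext c1.symm
      · rw [h2 _ _ (hpr γ.1 c2 c1) γ.2.2, lift_gen]
      · exact (h1 γ c2).symm
  obtain ⟨u, hu, huniq⟩ := fixpt (fun γ : {γ // M.Gam ε γ} => M.d γ.1) F (fun u u' γ h => by
    simp only [F]
    split_ifs with c1 c2
    · rfl
    · have hN := hpr γ.1 c2 c1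
      refine un_agree (lift_Fx _) (lift_Fx _) hN.1.1.un (fun γ' h' => ?_)
      rw [lift_gen, lift_gen]
      exact h γ' ((supp_le h').trans_lt hN.2.2.1)
    · rfl)
  exact ⟨u, (key u).1 hu, fun v hv => huniq v ((key v).2 hv)⟩

theorem Zs.nat (hm : M.Mul) {χ : S → S} (h : M.Fx ε χ) {u : M.St ε} (hu : M.Zs ε u) :
    M.Zs ε (mp χ u) := by
  refine ⟨fun γ hγ => ?_, fun β γ hN hG => ?_⟩
  · show χ (u γ) = _
    rw [hu.1 γ hγ]
    exact congrFun (mp_one hm h) γ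
  · rw [lift_mp h _ hN.1.1.un, lift_mp h _ hN.2.1.1.un, hu.2 β γ hN hG]

theorem main (hm : M.Mul) {R : Type} [CommRing R] [Nontrivial R] (hl : M.Lin R) (n : ℕ)
    (hn : ∀ s : S, s ^ n = 1) :
    ∃ (ε : ι) (K : Set S) (op : S → S → S) (o : S), (∀ k, M.var k ∉ K) ∧ (∀ b ∈ K, b ∈ M.G ε) ∧
      (∀ r s t, op (op r s) t = op r (op s t)) ∧ (∀ s t, op s t = op t s) ∧ (∀ s, op s o = s) ∧
      (∀ s, (op s)^[n] o = o) ∧
      ∀ ψ ∈ M.E ε, (∀ b ∈ K, ψ b = b) → (∀ s t, ψ (op s t) = op (ψ s) (ψ t)) ∧ ψ o = o := by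
  obtain ⟨c1, c2⟩ := chain hm hl
  obtain ⟨mx, hmx, hmax⟩ := Set.exists_max_image {w | M.Del w} M.d (del_fin hm) ⟨_, del_var hm⟩
  obtain ⟨ε, hε⟩ := a3_notX hm hmx.1
  have hc : M.Ch ε := ⟨c1, c2, fun β h1 h2 => ex_succ hm h1 hmx
    (lt_of_le_of_ne (hmax β h1) (fun e => hε (c1 _ _ h1 hmx e ▸ h2)))⟩
  choose N hN hNu using fun u0 u1 u2 => exN hm hc u0 u1 u2
  choose z hz hzu using fun s => exZ hm hc s
  let x0 : {γ // M.Gam ε γ} := ⟨M.var 0, U_var, M.var_mem ε 0⟩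
  let z0 := M.st ε 1
  have zx : ∀ w, M.Zs ε w → z (w x0) = w := fun w hw => (hzu _ w ⟨hw, rfl⟩).symm
  have N_nat : ∀ χ, M.Fx ε χ → ∀ u0 u1 u2, mp χ (N u0 u1 u2) = N (mp χ u0) (mp χ u1) (mp χ u2) := by
    intro χ h u0 u1 u2
    refine hNu _ _ _ _ ⟨(hN u0 u1 u2).1.nat hm h, ?_⟩
    conv_lhs => rw [(hN u0 u1 u2).2, Sm_nat hm h]
    exact Sm_congr hm _ _ _ (fun β h1 _ => (lift_mp h _ h1.un).symm)
  have N_symm : ∀ u0 u1 u2, N u0 u1 u2 = N u1 u0 u2 := fun u0 u1 u2 =>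
    hNu _ _ _ _ ⟨(hN u0 u1 u2).1, (hN u0 u1 u2).2.trans (Sm_symm hm _ _ _ _)⟩
  have N_I : ∀ u0 u1 u2 v1 v2 η η', N (M.Sm ε u0 u1 u2 η) v1 v2 = N (M.Sm ε u0 u1 u2 η') v1 v2 :=
    fun u0 u1 u2 v1 v2 η η' =>
      hNu _ _ _ _ ⟨(hN _ _ _).1, (hN _ _ _).2.trans (Sm_indep hm _ _ _ _ _ _ _ _)⟩
  have N_unit : ∀ u, M.Zs ε u → N u z0 z0 = u := fun u hu =>
    (hNu _ _ _ _ ⟨hu, Sm_unit hm u⟩).symm
  have N_K : ∀ u v, N (N u z0 z0) v z0 = N u v z0 := by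
    intro u v
    rw [(hN u z0 z0).2, N_I _ _ _ _ _ _ (M.lift ε u), ← Sm_unit hm u]
  let π : S → M.St ε := fun t => N (M.st ε t) z0 z0
  have π_mul : ∀ s t, π (s * t) = N (π s) (π t) z0 := by
    intro s t
    have h := st_mul (ε := ε) hm s t 1
    rw [mul_one] at h
    simp only [π]
    rw [N_K, N_symm (M.st ε s), N_K, N_symm (M.st ε t), h,
      N_I _ _ _ _ _ _ (M.lift ε (N (M.st ε s) (M.st ε t) z0)), ← (hN _ _ _).2]
    exact N_unit _ (hN _ _ _).1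
  have π_nat : ∀ χ, M.Fx ε χ → ∀ t, mp χ (π t) = N (mp χ (M.st ε t)) z0 z0 := fun χ h t => by
    simp only [π]
    rw [N_nat χ h, mp_one hm h]
  have π_one : ∀ χ, M.Fx ε χ → mp χ (π 1) = π 1 := fun χ h => by
    rw [π_nat χ h, mp_one hm h]
  have gen : ∀ u v w, M.Zs ε u → M.Zs ε v → M.Zs ε w → ∃ χ, M.Fx ε χ ∧ mp χ (π (M.var 0)) = u ∧
      mp χ (π (M.var 1)) = v ∧ mp χ (π (M.var 2)) = w := by
    intro u v w hu hv hw
    obtain ⟨a0, a1, a2⟩ := Ps_st hm u v w id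
    refine ⟨_, Ps_Fx u v w id, ?_, ?_, ?_⟩
    · rw [π_nat _ (Ps_Fx u v w id), a0, N_unit u hu]
    · rw [π_nat _ (Ps_Fx u v w id), a1, N_unit v hv]
    · rw [π_nat _ (Ps_Fx u v w id), a2, N_unit w hw]
  have hZ : ∀ u v, z (N u v z0 x0) = N u v z0 := fun u v => zx _ (hN _ _ _).1
  have hZ1 : z (π 1 x0) = π 1 := zx _ (hN _ _ _).1
  refine ⟨ε, {b | b ∈ M.G ε ∧ M.vars b = ∅}, fun s t => N (z s) (z t) z0 x0, π 1 x0,
    fun k h => ?_, fun b hb => hb.1, fun r s t => ?_, fun s t => ?_, fun s => ?_, fun s => ?_,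
    fun ψ hψ hK => ?_⟩
  · have := (vv (M := M) (j := k) (k := k)).2 rfl
    simp [h.2] at this
  · obtain ⟨χ, h, a0, a1, a2⟩ := gen _ _ _ (hz r).1 (hz s).1 (hz t).1
    have e := congrArg (fun t => mp χ (π t)) (mul_assoc (M.var 0) (M.var 1) (M.var 2))
    simp only [π_mul, N_nat χ h, a0, a1, a2, z0, mp_one hm h] at e
    simp only [hZ]
    exact congrFun e x0
  · simp only
    rw [N_symm]
  · obtain ⟨χ, h, a0, -, -⟩ := gen _ _ _ (hz s).1 (hz s).1 (hz s).1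
    have e := congrArg (fun t => mp χ (π t)) (mul_one (M.var 0))
    simp only [π_mul, N_nat χ h, a0, z0, mp_one hm h, π_one χ h] at e
    simp only [hZ1]
    exact (congrFun e x0).trans (hz s).2
  · obtain ⟨χ, h, a0, -, -⟩ := gen _ _ _ (hz s).1 (hz s).1 (hz s).1
    have e : ∀ j, (fun t => N (z s) (z t) z0 x0)^[j] (π 1 x0) = mp χ (π (M.var 0 ^ j)) x0 := by
      intro j
      induction j with
      | zero => simp [π_one χ h]
      | succ j ih =>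
        have hz' : M.Zs ε (mp χ (π (M.var 0 ^ j))) := (hN _ _ _).1.nat hm h
        rw [Function.iterate_succ_apply', ih, zx _ hz', pow_succ', π_mul,
          N_nat χ h (π _), a0, mp_one hm h]
    rw [e, hn, π_one χ h]
  · have h : M.Fx ε ψ := ⟨hψ, fun b h1 h2 => hK b ⟨h1, h2⟩⟩
    have zn : ∀ s, mp ψ (z s) = z (ψ s) := fun s =>
      hzu _ _ ⟨(hz s).1.nat hm h, congrArg ψ (hz s).2⟩
    refine ⟨fun s t => ?_, congrFun (π_one ψ h) x0⟩
    have e := congrFun (N_nat ψ h (z s) (z t) z0) x0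
    rw [zn, zn, mp_one hm h] at e
    exact e

end MF

end H67.Mc
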