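import Pool.Agent.H67.McDefs
import Pool.Agent.H67.Mc3

set_option autoImplicit false

namespace H67.Mc

variable {L L' : Sig} {A B C α β : Type}

/-- homomorphism -/
def Hom (o : Ops L A) (o' : Ops L B) (h : A → B) : Prop :=
  ∀ f args, h (o f args) = o' f (fun i => h (args i))

/-- derived algebra -/
def reduct (t : (f : L.Op) → Tm L' (Fin (L.ar f))) (o : Ops L' A) : Ops L A :=
  fun f args => (t f).eval o args

theorem Hom.comp {o : Ops L A} {o' : Ops L B} {o'' : Ops L C} {g : B → C} {h : A → B}
    (hg : Hom o' o'' g) (hh : Hom o o' h) : Hom o o'' (g ∘ h) := fun f args => by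
  simp only [Function.comp, hh f, hg f]

theorem eval_bind (o : Ops L A) (v : β → A) (s : α → Tm L β) (t : Tm L α) :
    (t.bind s).eval o v = t.eval o (fun x => (s x).eval o v) := by
  induction t with
  | var x => rfl
  | app f ts ih => simp only [Tm.bind, Tm.eval, ih]

theorem eval_interp (t : (f : L.Op) → Tm L' (Fin (L.ar f))) (o : Ops L' A) (v : α → A)
    (s : Tm L α) : (s.interp t).eval o v = s.eval (reduct t o) v := by
  induction s with
  | var x => rfl
  | app f ts ih => simp only [Tm.interp, Tm.eval, eval_bind, ih, reduct]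

theorem eval_hom {o : Ops L A} {o' : Ops L B} {h : A → B} (hh : Hom o o' h) (v : α → A)
    (t : Tm L α) : h (t.eval o v) = t.eval o' (fun x => h (v x)) := by
  induction t with
  | var x => rfl
  | app f ts ih => simp only [Tm.eval, hh f, ih]

theorem Hom.reduct {o : Ops L' A} {o' : Ops L' B} {h : A → B} (hh : Hom o o' h)
    (t : (f : L.Op) → Tm L' (Fin (L.ar f))) : Hom (reduct t o) (reduct t o') h :=
  fun f args => eval_hom hh args (t f)

/-- bound for the variables -/
def Tm.bd : Tm L ℕ → ℕ
  | .var x => x + 1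
  | .app _ ts => Finset.univ.sup (fun i => (ts i).bd)

theorem eval_congr (o : Ops L A) {v v' : ℕ → A} (t : Tm L ℕ) (h : ∀ k < t.bd, v k = v' k) :
    t.eval o v = t.eval o v' := by
  induction t with
  | var x => exact h x (Nat.lt_succ_self x)
  | app f ts ih =>
    simp only [Tm.eval]
    congr 1
    funext i
    exact ih i (fun k hk => h k (hk.trans_le
      (Finset.le_sup (f := fun i => (ts i).bd) (Finset.mem_univ i))))

theorem exists_const (t : Tm L (Fin 0)) : ∃ f, L.ar f = 0 := by
  induction t with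
  | var x => exact x.elim0
  | app f ts ih =>
    by_cases h : L.ar f = 0
    · exact ⟨f, h⟩
    · exact ih ⟨0, Nat.pos_of_ne_zero h⟩

/-- coding of terms as trees -/
def toW : Tm L ℕ → WType (fun x : ℕ ⊕ L.Op => Fin (Sum.elim (fun _ => 0) L.ar x))
  | .var x => ⟨.inl x, Fin.elim0⟩
  | .app f ts => ⟨.inr f, fun i => toW (ts i)⟩

theorem toW_inj : Function.Injective (toW (L := L)) := by
  intro s
  induction s with
  | var x =>
    intro t h
    cases t with
    | var y => simp only [toW, WType.mk.injEq, Sum.inl.injEq] at h; rw [h.1]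
    | app g ts => simp [toW] at h
  | app f ss ih =>
    intro t h
    cases t with
    | var y => simp [toW] at h
    | app g ts =>
      simp only [toW, WType.mk.injEq, Sum.inr.injEq] at h
      obtain ⟨rfl, h⟩ := h
      have := eq_of_heq h
      congr 1
      funext i
      exact ih i (congrFun this i)

theorem tm_countable [Countable L.Op] : Countable (Tm L ℕ) := by
  letI : Encodable (ℕ ⊕ L.Op) := Encodable.ofCountable _
  exact toW_inj.countable

/-- free algebra on countably many generators -/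
structure Free (W : Variety) {A : Type} (o : Ops W.L A) (g : ℕ → A) : Prop where
  model : ∀ a ∈ W.ax, Sat o a
  surj : ∀ s, ∃ t : Tm W.L ℕ, t.eval o g = s
  inj : ∀ t t' : Tm W.L ℕ, t.eval o g = t'.eval o g → W.Holds (t, t')

theorem exists_free (W : Variety) [Countable W.L.Op] :
    ∃ (A : Type) (o : Ops W.L A) (g : ℕ → A), Countable A ∧ Free W o g := by
  let r : Setoid (Tm W.L ℕ) := ⟨fun t t' => W.Holds (t, t'),
    ⟨fun _ _ _ _ _ => rfl, fun h A o hm v => (h A o hm v).symm,
      fun h h' A o hm v => (h A o hm v).trans (h' A o hm v)⟩⟩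
  let o : Ops W.L (Quotient r) := fun f args => Quotient.mk r (.app f (fun i => (args i).out))
  have key : ∀ (s : ℕ → Tm W.L ℕ) (t : Tm W.L ℕ),
      t.eval o (fun x => Quotient.mk r (s x)) = Quotient.mk r (t.bind s) := by
    intro s t
    induction t with
    | var x => rfl
    | app f ts ih =>
      simp only [Tm.eval, ih, Tm.bind, o]
      refine Quotient.sound (fun A o' hm v => ?_)
      simp only [Tm.eval]
      congr 1
      funext i
      exact Quotient.mk_out (s := r) _ A o' hm v
  have bv : ∀ t : Tm W.L ℕ, t.bind Tm.var = t := by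
    intro t
    induction t with
    | var x => rfl
    | app f ts ih => simp only [Tm.bind, ih]
  haveI := tm_countable (L := W.L)
  refine ⟨Quotient r, o, fun k => Quotient.mk r (.var k), inferInstance, ?_, ?_, ?_⟩
  · intro a ha v
    have : v = fun x => Quotient.mk r ((v x).out) := by funext x; simp
    rw [this, key, key]
    refine Quotient.sound (fun A o' hm v' => ?_)
    simp only [eval_bind]
    exact hm a ha _
  · intro s
    exact ⟨s.out, by rw [key, bv]; simp⟩
  · intro t t' h
    rw [key, key, bv, bv] at h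
    exact Quotient.exact h

theorem Free.map {W : Variety} {o : Ops W.L A} {g : ℕ → A} (h : Free W o g) (e : A ≃ B) :
    ∃ o' : Ops W.L B, Free W o' (e ∘ g) ∧ Hom o o' e := by
  let o' : Ops W.L B := fun f args => e (o f (fun i => e.symm (args i)))
  have hh : Hom o o' e := fun f args => by simp [o']
  refine ⟨o', ⟨fun a ha v => ?_, fun s => ?_, fun t t' ht => h.inj t t' (e.injective ?_)⟩, hh⟩
  · have : v = fun x => e (e.symm (v x)) := by funext x; simp
    rw [this, ← eval_hom hh, ← eval_hom hh, h.model a ha]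
  · obtain ⟨t, ht⟩ := h.surj (e.symm s)
    exact ⟨t, by rw [Function.comp_def, ← eval_hom hh, ht]; simp⟩
  · rw [eval_hom hh, eval_hom hh]
    exact ht

theorem Free.lift {W : Variety} {o : Ops W.L A} {g : ℕ → A} (h : Free W o g) (o' : Ops W.L B)
    (hm : ∀ a ∈ W.ax, Sat o' a) (v : ℕ → B) : ∃ φ, Hom o o' φ ∧ ∀ k, φ (g k) = v k := by
  choose t ht using h.surj
  have key : ∀ s : Tm W.L ℕ, (t (s.eval o g)).eval o' v = s.eval o' v :=
    fun s => h.inj _ _ (ht _) B o' hm v
  refine ⟨fun s => (t s).eval o' v, fun f args => ?_, fun k => key (.var k)⟩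
  have := key (.app f (fun i => t (args i)))
  simpa only [Tm.eval, ht] using this

theorem Free.hom_ext {W : Variety} {o : Ops W.L A} {g : ℕ → A} (h : Free W o g) {o' : Ops W.L B}
    {φ ψ : A → B} (h1 : Hom o o' φ) (h2 : Hom o o' ψ) (he : ∀ k, φ (g k) = ψ (g k)) (a : A) :
    φ a = ψ a := by
  obtain ⟨t, rfl⟩ := h.surj a
  rw [eval_hom h1, eval_hom h2, funext he]

theorem Free.g_inj {W : Variety} {o : Ops W.L A} {g : ℕ → A} (h : Free W o g)
    (hn : ¬ W.Holds (.var 0, .var 1)) : Function.Injective g := by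
  intro k l e
  by_contra hne
  apply hn
  intro B o' hm v
  have := h.inj (.var k) (.var l) e B o' hm (fun j => if j = k then v 0 else v 1)
  simpa [Tm.eval, Ne.symm hne] using this

theorem free_nat (W : Variety) [Countable W.L.Op] (hn : ¬ W.Holds (.var 0, .var 1)) :
    ∃ (o : Ops W.L ℕ) (g : ℕ → ℕ), Free W o g := by
  obtain ⟨A, o, g, hc, hf⟩ := exists_free W
  haveI : Infinite A := Infinite.of_injective g (hf.g_inj hn)
  obtain ⟨e⟩ : Nonempty (A ≃ ℕ) := nonempty_equiv_of_countable
  obtain ⟨o', h, -⟩ := hf.map e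
  exact ⟨o', _, h⟩

theorem glue {ι : Type} [Countable ι] (W : ι → Variety) [∀ i, Countable (W i).L.Op]
    (hn : ∀ i, ¬ (W i).Holds (.var 0, .var 1)) :
    ∃ (S : Type) (o : ∀ i, Ops (W i).L S) (g : ι → ℕ → S) (M : MF ι S),
      (∀ i, Free (W i) (o i) (g i)) ∧ (∀ i, M.G i = Set.range (g i)) ∧
      ∀ i, M.E i = {h | Hom (o i) (o i) h} := by
  classical
  choose o g hf using fun i => free_nat (W i) (hn i)
  have gi : ∀ i, Function.Injective (g i) := fun i => (hf i).g_inj (hn i)
  choose tm htm using fun i => (hf i).surj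
  let P := {p : ι × ℕ // p.2 ∉ Set.range (g p.1)}
  obtain ⟨c, hc⟩ : ∃ c : P → ℕ, Function.Injective c := exists_injective_nat P
  let idx : P → ℕ := fun p => 2 * Nat.pair (tm p.1.1 p.1.2).bd (c p) + 1
  have idx_inj : Function.Injective idx := by
    intro p q h
    have : Nat.pair (tm p.1.1 p.1.2).bd (c p) = Nat.pair (tm q.1.1 q.1.2).bd (c q) := by
      simp only [idx] at h; omega
    exact hc (Nat.pair_eq_pair.1 this).2
  have idx_bd : ∀ p, (tm p.1.1 p.1.2).bd < idx p := fun p => by
    have := Nat.left_le_pair (tm p.1.1 p.1.2).bd (c p)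
    simp only [idx]; omega
  have hk : ∀ i, Nonempty (ℕ ≃ {k : ℕ // ¬ ∃ p : P, p.1.1 ≠ i ∧ idx p = k}) := by
    intro i
    haveI : Infinite {k : ℕ // ¬ ∃ p : P, p.1.1 ≠ i ∧ idx p = k} :=
      Infinite.of_injective (fun k : ℕ => ⟨2 * k, fun ⟨p, _, h⟩ => by simp only [idx] at h; omega⟩)
        (fun a b h => by simpa using h)
    exact nonempty_equiv_of_countable
  let κ := fun i => (hk i).some
  let e : ι → ℕ ⊕ P → ℕ := fun i s => match s with
    | .inl k => g i (κ i k).1
    | .inr p => if p.1.1 = i then p.1.2 else g i (idx p)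
  have e_bij : ∀ i, Function.Bijective (e i) := by
    intro i
    constructor
    · rintro (k | p) (l | q) h
      · simp only [e] at h
        rw [(κ i).injective (Subtype.ext (gi i h))]
      · simp only [e] at h
        split_ifs at h with h1
        · exact absurd ⟨_, h1 ▸ h⟩ q.2
        · exact absurd ⟨q, h1, (gi i h).symm⟩ (κ i k).2
      · simp only [e] at h
        split_ifs at h with h1
        · exact absurd ⟨_, h1 ▸ h.symm⟩ p.2
        · exact absurd ⟨p, h1, gi i h⟩ (κ i l).2
      · simp only [e] at h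
        split_ifs at h with h1 h2 h2
        · rw [Subtype.ext (Prod.ext (h1.trans h2.symm) h : p.1 = q.1)]
        · exact absurd ⟨_, h1 ▸ h.symm⟩ p.2
        · exact absurd ⟨_, h2 ▸ h⟩ q.2
        · rw [idx_inj (gi i h)]
    · intro a
      by_cases ha : a ∈ Set.range (g i)
      · obtain ⟨k, rfl⟩ := ha
        by_cases h : ∃ p : P, p.1.1 ≠ i ∧ idx p = k
        · obtain ⟨p, h1, rfl⟩ := h
          exact ⟨.inr p, by simp only [e, if_neg h1]⟩
        · exact ⟨.inl ((κ i).symm ⟨k, h⟩), by simp [e]⟩
      · exact ⟨.inr ⟨(i, a), ha⟩, by simp [e]⟩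
  let E := fun i => (Equiv.ofBijective _ (e_bij i)).symm
  have hE : ∀ i s, E i (e i s) = s := fun i s => (Equiv.ofBijective _ (e_bij i)).symm_apply_apply s
  have hE' : ∀ i a, e i (E i a) = a := fun i a => (Equiv.ofBijective _ (e_bij i)).apply_symm_apply a
  choose oS hS1 hS2 using fun i => (hf i).map (E i)
  have notG : ∀ i s, s ∉ Set.range (E i ∘ g i) → ∃ p : P, s = .inr p ∧ p.1.1 = i := by
    rintro i (k | p) h
    · exact absurd ⟨(κ i k).1, hE i (.inl k)⟩ h
    · by_contra hc
      have h1 : p.1.1 ≠ i := fun e => hc ⟨p, rfl, e⟩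
      exact h ⟨idx p, by rw [← hE i (.inr p)]; simp only [e, if_neg h1, Function.comp]⟩
  let d : ℕ ⊕ P → ℕ := Sum.elim (fun _ => 0) idx
  have dle : ∀ i k, d (E i (g i k)) ≤ k := by
    intro i k
    have h := hE' i (g i k)
    rcases hs : E i (g i k) with l | q
    · exact Nat.zero_le _
    · rw [hs] at h
      simp only [e] at h
      split_ifs at h with h1
      · exact absurd ⟨_, h1 ▸ h.symm⟩ q.2
      · exact (gi i h).le
  refine ⟨ℕ ⊕ P, oS, fun i => E i ∘ g i,
    { G := fun i => Set.range (E i ∘ g i)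
      E := fun i => {h | Hom (oS i) (oS i) h}
      d := d
      var := Sum.inl
      var_inj := Sum.inl_injective
      var_mem := fun i k => ⟨(κ i k).1, hE i (.inl k)⟩
      uniq := fun a i j h1 h2 => ?_
      id_mem := fun i f args => rfl
      comp_mem := fun i f g h1 h2 => Hom.comp h1 h2
      ext := fun i θ => ?_
      fin := fun i a => ?_ }, hS1, fun _ => rfl, fun _ => rfl⟩
  · obtain ⟨p, rfl, e1⟩ := notG i a h1
    obtain ⟨q, e2, e3⟩ := notG j _ h2
    rw [← e1, ← e3, Sum.inr_injective e2]
  · obtain ⟨φ, h1, h2⟩ := (hS1 i).lift (oS i) (hS1 i).model (fun k => θ (E i (g i k)))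
    exact ⟨φ, h1, by rintro _ ⟨k, rfl⟩; exact h2 k⟩
  · have ha : (tm i (e i a)).eval (oS i) (E i ∘ g i) = a := by
      rw [Function.comp_def, ← eval_hom (hS2 i), htm, hE]
    refine ⟨(Finset.range (tm i (e i a)).bd).image (E i ∘ g i), fun b hb => ?_,
      fun hn b hb => ?_, fun ψ h1 ψ' h2 hag => ?_⟩
    · obtain ⟨k, -, rfl⟩ := Finset.mem_image.1 hb
      exact ⟨k, rfl⟩
    · obtain ⟨k, hk, rfl⟩ := Finset.mem_image.1 hb
      obtain ⟨p, rfl, rfl⟩ := notG i a hn
      have h1 := dle p.1.1 k
      have h2 := idx_bd p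
      have h3 := Finset.mem_range.1 hk
      simp only [e, if_true] at h3
      show d (E p.1.1 (g p.1.1 k)) < idx p
      omega
    · rw [← ha, eval_hom h1, eval_hom h2]
      exact eval_congr _ _ (fun k hk => hag _ (Finset.mem_image_of_mem _ (Finset.mem_range.2 hk)))

end H67.Mc
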