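import Pool.Agent.H67.Mc4

set_option autoImplicit false

namespace H67.Mc

/-- laws of abelian groups of exponent `n` -/
def Laws {B : Type} (n : ℕ) (op : B → B → B) (o : B) : Prop :=
  (∀ r s t, op (op r s) t = op r (op s t)) ∧ (∀ s t, op s t = op t s) ∧ (∀ s, op s o = s) ∧
    ∀ s, (op s)^[n] o = o

/-- the monoid given by the laws -/
@[reducible] def Laws.cm {B : Type} {n : ℕ} {op : B → B → B} {o : B} (h : Laws n op o) :
    CommMonoid B where
  mul := op
  one := o
  mul_assoc := h.1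
  mul_comm := h.2.1
  one_mul := fun s => (h.2.1 o s).trans (h.2.2.1 s)
  mul_one := h.2.2.1

theorem iter_pow {B : Type} [Monoid B] (s : B) (j : ℕ) : (fun t => s * t)^[j] 1 = s ^ j := by
  induction j with
  | zero => simp
  | succ j ih => rw [Function.iterate_succ_apply', ih, pow_succ']

/-- group terms exist -/
def GrpT (V : Variety) (n : ℕ) : Prop :=
  ∃ (m : Tm V.L (Fin 2)) (e : Tm V.L (Fin 0)), ∀ (B : Type) (o : Ops V.L B),
    (∀ a ∈ V.ax, Sat o a) → Laws n (fun x y => m.eval o ![x, y]) (e.eval o Fin.elim0)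

/-- exponent vector of a group term -/
noncomputable def deg : Tm grpSig ℕ → (ℕ →₀ ℤ)
  | .var x => Finsupp.single x 1
  | .app .mul ts => deg (ts (0 : Fin 2)) + deg (ts (1 : Fin 2))
  | .app .inv ts => - deg (ts (0 : Fin 1))
  | .app .one _ => 0

theorem eval_deg {B : Type} [CommGroup B] (v : ℕ → B) (t : Tm grpSig ℕ) :
    Additive.ofMul (t.eval (grpOps B) v) =
      Finsupp.linearCombination ℤ (fun k => Additive.ofMul (v k)) (deg t) := by
  induction t with
  | var x => simp [deg, Tm.eval]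
  | app f ts ih =>
    cases f with
    | mul => simp only [deg, map_add, ← ih]; rfl
    | inv => simp only [deg, map_neg, ← ih]; rfl
    | one => simp only [deg, map_zero]; rfl

theorem id_of_exp {A B : Type} [CommGroup A] [Finite A] [CommGroup B]
    (hB : ∀ b : B, b ^ Monoid.exponent A = 1) {e : Ident grpSig} (h : Sat (grpOps A) e) :
    Sat (grpOps B) e := by
  classical
  obtain ⟨g, hg⟩ := Monoid.exists_orderOf_eq_exponent (G := A) Monoid.ExponentExists.of_finite
  have hd : ∀ i, ((Monoid.exponent A : ℕ) : ℤ) ∣ (deg e.1 - deg e.2) i := by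
    intro i
    have h1 := congrArg Additive.ofMul (h (fun k => if k = i then g else 1))
    rw [eval_deg, eval_deg, ← sub_eq_zero, ← map_sub, Finsupp.linearCombination_apply,
      Finsupp.sum_eq_single i (fun b _ hb => by simp [hb]) (fun _ => by simp)] at h1
    rw [← hg, orderOf_dvd_iff_zpow_eq_one]
    simp only [if_true] at h1
    exact h1
  intro v
  apply Additive.ofMul.injective
  rw [eval_deg, eval_deg, ← sub_eq_zero, ← map_sub, Finsupp.linearCombination_apply]
  refine Finset.sum_eq_zero (fun i _ => ?_)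
  obtain ⟨c, hc⟩ := hd i
  show (deg e.1 - deg e.2) i • Additive.ofMul (v i) = 0
  rw [hc, ← ofMul_zpow, zpow_mul, zpow_natCast, hB, one_zpow, ofMul_one]

theorem hom_grp {B C : Type} [Group B] [Group C] (h : B →* C) : Hom (grpOps B) (grpOps C) h := by
  intro f args
  cases f with
  | mul => exact h.map_mul _ _
  | inv => exact h.map_inv _
  | one => exact h.map_one

/-- power term -/
def pw {L : Sig} (m : Tm L (Fin 2)) (e : Tm L (Fin 0)) : ℕ → Tm L (Fin 1)
  | 0 => e.bind Fin.elim0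
  | j + 1 => m.bind ![.var 0, pw m e j]

theorem eval_pw {L : Sig} {B : Type} (m : Tm L (Fin 2)) (e : Tm L (Fin 0)) (o : Ops L B)
    (v : Fin 1 → B) (j : ℕ) :
    (pw m e j).eval o v = (fun y => m.eval o ![v 0, y])^[j] (e.eval o Fin.elim0) := by
  induction j with
  | zero => simp only [pw, eval_bind, Function.iterate_zero, id]; congr 1; funext x; exact x.elim0
  | succ j ih =>
    rw [Function.iterate_succ_apply', ← ih, pw, eval_bind]
    congr 1
    funext x
    fin_cases x <;> rfl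

theorem grp_all {A : Type} [CommGroup A] [Finite A] {V : Variety}
    (h : GrpT V (Monoid.exponent A)) {τ : Cond} (hτ : (varOf A).Satisfies τ) : V.Satisfies τ := by
  obtain ⟨m, e, hl⟩ := h
  obtain ⟨t, ht⟩ := hτ
  have hpos : 0 < Monoid.exponent A := Monoid.ExponentExists.exponent_pos Monoid.ExponentExists.of_finite
  let tG : (f : grpSig.Op) → Tm V.L (Fin (grpSig.ar f)) := fun f => match f with
    | .mul => m
    | .inv => pw m e (Monoid.exponent A - 1)
    | .one => e
  refine ⟨fun f => (t f).interp tG, fun a ha B o hm v => ?_⟩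
  letI := (hl B o hm).cm
  have hp : ∀ b : B, b ^ Monoid.exponent A = 1 := fun b =>
    (iter_pow b _).symm.trans ((hl B o hm).2.2.2 b)
  letI : CommGroup B := commGroupOfIsUnit (fun b => IsUnit.of_pow_eq_one (hp b) hpos.ne')
  have e1 : reduct tG o = grpOps B := by
    funext f args
    cases f with
    | mul =>
      show m.eval o args = m.eval o ![args (0 : Fin 2), args (1 : Fin 2)]
      congr 1
      funext x
      fin_cases x <;> rfl
    | inv =>
      show (pw m e _).eval o args = (args (0 : Fin 1))⁻¹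
      refine (eval_pw m e o args _).trans ((iter_pow _ _).trans (eq_inv_of_mul_eq_one_left ?_))
      rw [← pow_succ, Nat.sub_add_cancel hpos]
      exact hp _
    | one =>
      show e.eval o args = e.eval o Fin.elim0
      congr 1
      funext x
      exact x.elim0
  have e2 : reduct (L := ⟨Fin τ.k, τ.ar⟩) (fun f => (t f).interp tG) o =
      reduct (L := ⟨Fin τ.k, τ.ar⟩) t (grpOps B) := by
    funext f args
    simp only [reduct]
    exact (eval_interp tG o args (t f)).trans (by rw [e1]; rfl)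
  have := ht a ha B (grpOps B) (fun a ha => id_of_exp hp ha) v
  simp only [eval_interp] at this ⊢
  rw [e2]
  exact this

/-- signature of the group condition -/
abbrev cS : Sig := ⟨Fin 2, ![2, 0]⟩

/-- product symbol -/
def cm (s t : Tm cS ℕ) : Tm cS ℕ := .app (0 : Fin 2) ![s, t]

/-- unit symbol -/
def ce : Tm cS ℕ := .app (1 : Fin 2) Fin.elim0

/-- the group condition -/
def cond (n : ℕ) : Cond := ⟨2, ![2, 0],
  [(cm (cm (.var 0) (.var 1)) (.var 2), cm (.var 0) (cm (.var 1) (.var 2))),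
   (cm (.var 0) (.var 1), cm (.var 1) (.var 0)), (cm (.var 0) ce, .var 0),
   ((cm (.var 0))^[n] ce, ce)]⟩

theorem eval_cm {B : Type} (o : Ops cS B) (v : ℕ → B) (s t : Tm cS ℕ) :
    (cm s t).eval o v = o (0 : Fin 2) ![s.eval o v, t.eval o v] := by
  simp only [cm, Tm.eval]
  congr 1
  funext x
  fin_cases x <;> rfl

theorem eval_ce {B : Type} (o : Ops cS B) (v : ℕ → B) :
    ce.eval o v = o (1 : Fin 2) Fin.elim0 := by
  simp only [ce, Tm.eval]
  congr 1
  funext x
  exact x.elim0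

theorem eval_it {B : Type} (o : Ops cS B) (v : ℕ → B) (j : ℕ) :
    ((cm (.var 0))^[j] ce).eval o v =
      (fun y => o (0 : Fin 2) ![v 0, y])^[j] (o (1 : Fin 2) Fin.elim0) := by
  induction j with
  | zero => exact eval_ce o v
  | succ j ih => rw [Function.iterate_succ_apply', Function.iterate_succ_apply', eval_cm, ih]; rfl

theorem cond_iff {B : Type} (o : Ops cS B) (n : ℕ) : (∀ e ∈ (cond n).ids, Sat o e) ↔
    Laws n (fun x y => o (0 : Fin 2) ![x, y]) (o (1 : Fin 2) Fin.elim0) := by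
  show (∀ e ∈ ([(cm (cm (.var 0) (.var 1)) (.var 2), cm (.var 0) (cm (.var 1) (.var 2))),
   (cm (.var 0) (.var 1), cm (.var 1) (.var 0)), (cm (.var 0) ce, .var 0),
   ((cm (.var 0))^[n] ce, ce)] : List (Ident cS)), Sat o e) ↔ _
  simp only [List.mem_cons, List.not_mem_nil, or_false, forall_eq_or_imp, forall_eq, Sat,
    eval_cm, eval_ce, eval_it, Tm.eval]
  exact ⟨fun ⟨h1, h2, h3, h4⟩ => ⟨fun r s t => h1 (fun k => if k = 0 then r else if k = 1 then s else t),
    fun s t => h2 (fun k => if k = 0 then s else t), fun s => h3 (fun _ => s),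
    fun s => h4 (fun _ => s)⟩,
    fun ⟨h1, h2, h3, h4⟩ => ⟨fun v => h1 _ _ _, fun v => h2 _ _, fun v => h3 _, fun v => h4 _⟩⟩

theorem cond_sat (A : Type) [CommGroup A] : (varOf A).Satisfies (cond (Monoid.exponent A)) := by
  let t : (f : cS.Op) → Tm grpSig (Fin (cS.ar f)) :=
    Fin.cons (.app .mul (fun i : Fin 2 => .var i)) (Fin.cons (.app .one Fin.elim0) finZeroElim)
  refine ⟨t, fun e he B o hm => hm _ ?_⟩
  intro v
  have := (cond_iff (reduct t (grpOps A)) (Monoid.exponent A)).2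
    ⟨mul_assoc, mul_comm, mul_one, fun s => (iter_pow s _).trans (Monoid.pow_exponent_eq_one s)⟩
    e he v
  exact (eval_interp (L := cS) t _ v e.1).trans (this.trans (eval_interp (L := cS) t _ v e.2).symm)

/-- the variety defined by a condition -/
def cv (σ : Cond) : Variety := ⟨⟨Fin σ.k, σ.ar⟩, {e | e ∈ σ.ids}⟩

theorem sat_model {V : Variety} {σ : Cond} (h : V.Satisfies σ) :
    ∃ t : (f : (cv σ).L.Op) → Tm V.L (Fin ((cv σ).L.ar f)), ∀ (B : Type) (o : Ops V.L B),
      (∀ a ∈ V.ax, Sat o a) → ∀ a ∈ (cv σ).ax, Sat (reduct t o) a := by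
  obtain ⟨t, ht⟩ := h
  refine ⟨t, fun B o hm a ha v => ?_⟩
  have := ht a ha B o hm v
  exact (eval_interp (L := (cv σ).L) t o v a.1).symm.trans
    (this.trans (eval_interp (L := (cv σ).L) t o v a.2))

theorem cond_grp {V : Variety} {n : ℕ} (h : V.Satisfies (cond n)) : GrpT V n := by
  obtain ⟨t, ht⟩ := sat_model h
  exact ⟨t (0 : Fin 2), t (1 : Fin 2), fun B o hm => (cond_iff (reduct (L := cS) t o) n).1 (ht B o hm)⟩

theorem extract {W V : Variety} {S : Type} {o : Ops W.L S} {g : ℕ → S} (hf : Free W o g)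
    (x : ℕ → S) (hx : Function.Injective x) (K : Set S) (op : S → S → S)
    (u : S) {n : ℕ} (hg : ∀ k, x k ∈ Set.range g) (hxK : ∀ k, x k ∉ K) (hK : K ⊆ Set.range g)
    (hl : Laws n op u)
    (hnat : ∀ ψ, Hom o o ψ → (∀ b ∈ K, ψ b = b) → (∀ s t, ψ (op s t) = op (ψ s) (ψ t)) ∧ ψ u = u)
    (t : (f : W.L.Op) → Tm V.L (Fin (W.L.ar f)))
    (ht : ∀ (B : Type) (o : Ops V.L B), (∀ a ∈ V.ax, Sat o a) → ∀ a ∈ W.ax, Sat (reduct t o) a)
    (c : Tm V.L (Fin 0)) : GrpT V n := by
  classical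
  obtain ⟨tg, htg⟩ := hf.surj (op (x 0) (x 1))
  obtain ⟨tu, htu⟩ := hf.surj u
  have ex : ∀ θ : S → S, ∃ ψ, Hom o o ψ ∧ ∀ b ∈ Set.range g, ψ b = θ b := fun θ => by
    obtain ⟨ψ, h1, h2⟩ := hf.lift o hf.model (fun k => θ (g k))
    exact ⟨ψ, h1, by rintro _ ⟨k, rfl⟩; exact h2 k⟩
  have ne : ∀ {i j : ℕ}, i ≠ j → x i ≠ x j := fun h e => h (hx e)
  refine ⟨(tg.interp t).bind (fun k => if g k = x 0 then .var 0 else if g k = x 1 then .var 1
    else c.bind Fin.elim0), (tu.interp t).bind (fun _ => c), fun B o' hm => ?_⟩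
  set c0 := c.eval o' Fin.elim0 with hc0
  have exH : ∀ p q r : B, ∃ h, Hom o (reduct t o') h ∧ ∀ b ∈ Set.range g, h b =
      if b = x 0 then p else if b = x 1 then q else if b = x 2 then r else c0 := fun p q r => by
    obtain ⟨ψ, h1, h2⟩ := hf.lift (reduct t o') (ht B o' hm) (fun k =>
      if g k = x 0 then p else if g k = x 1 then q else if g k = x 2 then r else c0)
    exact ⟨ψ, h1, by rintro _ ⟨k, rfl⟩; exact h2 k⟩
  choose H H1 H2 using exH
  have H0 : ∀ p q r, H p q r (x 0) = p := fun p q r => by rw [H2 _ _ _ _ (hg 0), if_pos rfl]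
  have H1' : ∀ p q r, H p q r (x 1) = q := fun p q r => by
    rw [H2 _ _ _ _ (hg 1), if_neg (ne (by decide)), if_pos rfl]
  have H2' : ∀ p q r, H p q r (x 2) = r := fun p q r => by
    rw [H2 _ _ _ _ (hg 2), if_neg (ne (by decide)), if_neg (ne (by decide)), if_pos rfl]
  have HK : ∀ p q r, ∀ b ∈ K, H p q r b = c0 := fun p q r b hb => by
    rw [H2 _ _ _ _ (hK hb), if_neg (fun e : b = x 0 => hxK 0 (e ▸ hb)),
      if_neg (fun e : b = x 1 => hxK 1 (e ▸ hb)), if_neg (fun e : b = x 2 => hxK 2 (e ▸ hb))]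
  have em : ∀ p q, Tm.eval o' ![p, q] ((tg.interp t).bind (fun k => if g k = x 0 then .var 0
      else if g k = x 1 then .var 1 else c.bind Fin.elim0)) = H p q c0 (op (x 0) (x 1)) := by
    intro p q
    rw [eval_bind, eval_interp, ← htg, eval_hom (H1 p q c0)]
    congr 1
    funext k
    rw [H2 _ _ _ _ ⟨k, rfl⟩]
    split_ifs
    · rfl
    · rfl
    · rw [eval_bind, hc0]; congr 1; funext i; exact i.elim0
    · rw [eval_bind, hc0]; congr 1; funext i; exact i.elim0
  have eu : ∀ p, Tm.eval o' Fin.elim0 ((tu.interp t).bind (fun _ => c)) = H p c0 c0 u := by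
    intro p
    obtain ⟨κ, k1, k2⟩ := ex (fun b => if b = x 0 then x 1 else b)
    have := (hnat κ k1 (fun b hb => by
      rw [k2 b (hK hb), if_neg (fun e : b = x 0 => hxK 0 (e ▸ hb))])).2
    rw [eval_bind, eval_interp, ← this, ← htu, eval_hom k1, eval_hom (H1 p c0 c0)]
    congr 1
    funext k
    rw [k2 _ ⟨k, rfl⟩]
    split_ifs with h
    · rw [H1']
    · rw [H2 _ _ _ _ ⟨k, rfl⟩, if_neg h]
      split_ifs <;> rfl
  obtain ⟨κ, k1, k2⟩ := ex (fun b => if b = x 1 ∨ b ∈ K then b else x 0)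
  have kK : ∀ b ∈ K, κ b = b := fun b hb => by rw [k2 b (hK hb), if_pos (Or.inr hb)]
  have kg : κ (op (x 0) (x 1)) = op (x 0) (x 1) := by
    rw [(hnat κ k1 kK).1, k2 _ (hg 0), k2 _ (hg 1), if_pos (Or.inl rfl)]
    split_ifs <;> rfl
  have hop : ∀ p q r s s', H p q r (op s s') = H (H p q r s) (H p q r s') c0 (op (x 0) (x 1)) := by
    intro p q r s s'
    obtain ⟨ψ, s1, s2⟩ := ex (fun b => if b = x 0 then s else if b = x 1 then s' else b)
    have sK : ∀ b ∈ K, ψ b = b := fun b hb => by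
      rw [s2 b (hK hb), if_neg (fun e : b = x 0 => hxK 0 (e ▸ hb)),
        if_neg (fun e : b = x 1 => hxK 1 (e ▸ hb))]
    have s0 : ψ (x 0) = s := by rw [s2 _ (hg 0), if_pos rfl]
    have s1' : ψ (x 1) = s' := by rw [s2 _ (hg 1), if_neg (ne (by decide)), if_pos rfl]
    have e : op s s' = ψ (op (x 0) (x 1)) := by rw [(hnat ψ s1 sK).1, s0, s1']
    rw [e, ← kg]
    refine hf.hom_ext (φ := H p q r ∘ ψ ∘ κ) (ψ := H _ _ c0 ∘ κ)
      ((H1 p q r).comp (s1.comp k1)) ((H1 _ _ _).comp k1) (fun k => ?_) _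
    simp only [Function.comp]
    rw [k2 _ ⟨k, rfl⟩]
    split_ifs with h
    · rcases h with h | h
      · rw [h, s1', H1']
      · rw [sK _ h, HK _ _ _ _ h, HK _ _ _ _ h]
    · rw [s0, H0]
  simp only [em]
  refine ⟨fun p q r => ?_, fun p q => ?_, fun p => ?_, fun p => ?_⟩
  · have := congrArg (H p q r) (hl.1 (x 0) (x 1) (x 2))
    rw [hop p q r (op _ _), hop p q r (x 0) (op _ _), hop p q r (x 0) (x 1), hop p q r (x 1) (x 2)]
      at this
    simpa only [H0, H1', H2'] using this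
  · have := congrArg (H p q c0) (hl.2.1 (x 0) (x 1))
    rw [hop p q c0 (x 1) (x 0)] at this
    simpa only [H0, H1'] using this
  · have := congrArg (H p c0 c0) (hl.2.2.1 (x 0))
    rw [hop p c0 c0 (x 0) u, H0] at this
    rw [eu p]
    exact this
  · have it : ∀ j, (fun y => H p y c0 (op (x 0) (x 1)))^[j] (H p c0 c0 u) =
        H p c0 c0 ((op (x 0))^[j] u) := by
      intro j
      induction j with
      | zero => rfl
      | succ j ih =>
        rw [Function.iterate_succ_apply', Function.iterate_succ_apply', ih,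
          hop p c0 c0 (x 0) _, H0]
    rw [eu p]
    exact (it n).trans (by rw [hl.2.2.2])

theorem two_suffice {A : Type} [CommGroup A] [Finite A] (F : Finset Cond)
    (hF : ∀ σ ∈ F, (varOf A).Satisfies σ) (hI : Implied F (cond (Monoid.exponent A))) :
    ∃ σ ∈ F, ∃ σ' ∈ F, ∀ V : Variety, V.Satisfies σ → V.Satisfies σ' →
      GrpT V (Monoid.exponent A) := by
  classical
  let ι := {σ // σ ∈ F}
  let W : ι → Variety := fun i => cv i.1
  let LJ : Sig := ⟨Σ i : ι, Fin i.1.k, fun p => p.1.1.ar p.2⟩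
  let emb : ∀ i : ι, (f : (W i).L.Op) → Tm LJ (Fin ((W i).L.ar f)) :=
    fun i f => .app ⟨i, f⟩ (fun j => .var j)
  let J : Variety := ⟨LJ, {e | ∃ i : ι, ∃ a ∈ (W i).ax, e = (a.1.interp (emb i), a.2.interp (emb i))}⟩
  obtain ⟨m, e, hme⟩ := cond_grp (hI J (fun σ hσ =>
    ⟨emb ⟨σ, hσ⟩, fun a ha B o hm => hm _ ⟨⟨σ, hσ⟩, a, ha, rfl⟩⟩))
  obtain ⟨⟨j, f⟩, hf⟩ := exists_const e
  have hc : ∀ V : Variety, V.Satisfies j.1 → Nonempty (Tm V.L (Fin 0)) := fun V ⟨t, _⟩ =>
    ⟨(t f).bind (fun i => (Fin.cast hf i).elim0)⟩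
  by_cases htriv : ∃ i : ι, (W i).Holds (.var 0, .var 1)
  · obtain ⟨i, hi⟩ := htriv
    refine ⟨i.1, i.2, j.1, j.2, fun V h1 h2 => ?_⟩
    obtain ⟨c⟩ := hc V h2
    obtain ⟨t, ht⟩ := sat_model h1
    refine ⟨.var 0, c, fun B o hm => ?_⟩
    have : ∀ a b : B, a = b := fun a b => hi B _ (ht B o hm) (fun k => if k = 0 then a else b)
    exact ⟨fun _ _ _ => this _ _, fun _ _ => this _ _, fun _ => this _ _, fun _ => this _ _⟩
  push Not at htriv
  haveI : ∀ i, Countable (W i).L.Op := fun i => inferInstanceAs (Countable (Fin i.1.k))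
  obtain ⟨S, o, g, M, hfree, hG, hE⟩ := glue W htriv
  let oJ : Ops LJ S := fun p => o p.1 p.2
  have hl := hme S oJ (by
    rintro _ ⟨i, a, ha, rfl⟩ v
    simp only [eval_interp]
    exact (hfree i).model a ha v)
  letI := hl.cm
  have hp : ∀ s : S, s ^ Monoid.exponent A = 1 := fun b => (iter_pow b _).symm.trans (hl.2.2.2 b)
  have hmul : M.Mul := by
    intro φ hφ
    have hh : Hom oJ oJ φ := fun p => by
      have := hφ p.1
      rw [hE] at this
      exact this p.2
    refine ⟨fun s t => (eval_hom hh _ m).trans ?_, (eval_hom hh _ e).trans ?_⟩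
    · show _ = m.eval oJ ![φ s, φ t]
      congr 1
      funext x
      fin_cases x <;> rfl
    · show _ = e.eval oJ Fin.elim0
      congr 1
      funext x
      exact x.elim0
  have hpos : 0 < Monoid.exponent A := Monoid.ExponentExists.exponent_pos Monoid.ExponentExists.of_finite
  have h1 : Monoid.exponent A ≠ 1 := by
    intro h
    have a0 := hp (M.var 0)
    have a1 := hp (M.var 1)
    rw [h, pow_one] at a0 a1
    exact absurd (M.var_inj (a0.trans a1.symm)) (by decide)
  haveI : Fact (1 < Monoid.exponent A) := ⟨by omega⟩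
  have hlin : M.Lin (ZMod (Monoid.exponent A)) := by
    intro i
    obtain ⟨t, ht⟩ := sat_model (hF i.1 i.2)
    let B := Multiplicative (S →₀ ZMod (Monoid.exponent A))
    have hB : ∀ b : B, b ^ Monoid.exponent A = 1 := fun b => by
      apply Multiplicative.toAdd.injective
      rw [toAdd_pow, toAdd_one, ← Nat.cast_smul_eq_nsmul (ZMod (Monoid.exponent A)),
        ZMod.natCast_self, zero_smul]
    obtain ⟨ξ, x1, x2⟩ := (hfree i).lift (reduct t (grpOps B))
      (ht B (grpOps B) (fun a ha => id_of_exp hB ha))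
      (fun k => Multiplicative.ofAdd (Finsupp.single (g i k) 1))
    refine ⟨fun s => (ξ s).toAdd, fun b hb => ?_, fun Λ ψ hψ hb a => ?_⟩
    · rw [hG] at hb
      obtain ⟨k, rfl⟩ := hb
      simp only [x2, toAdd_ofAdd]
    · rw [hE] at hψ
      exact (hfree i).hom_ext (φ := AddMonoidHom.toMultiplicative Λ ∘ ξ) (ψ := ξ ∘ ψ)
        (((hom_grp (AddMonoidHom.toMultiplicative Λ)).reduct t).comp x1) (x1.comp hψ)
        (fun k => hb _ (hG i ▸ ⟨k, rfl⟩)) a
  obtain ⟨ε, K, op, u, a1, a2, a3, a4, a5, a6, a7⟩ := MF.main hmul hlin _ hp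
  refine ⟨ε.1, ε.2, j.1, j.2, fun V h1 h2 => ?_⟩
  obtain ⟨c⟩ := hc V h2
  obtain ⟨t, ht⟩ := sat_model h1
  exact extract (hfree ε) M.var M.var_inj K op u (fun k => hG ε ▸ M.var_mem ε k) a1
    (fun b hb => hG ε ▸ a2 b hb) ⟨a3, a4, a5, a6⟩ (fun ψ h => a7 ψ (hE ε ▸ h)) t ht c

theorem basis_le {A : Type} [CommGroup A] [Finite A] (B : Set Cond) (h : IsBasis (varOf A) B) :
    B.encard ≤ 2 := by
  classical
  obtain ⟨h1, h2, h3⟩ := h
  obtain ⟨F, hF, hI⟩ := h2 _ (cond_sat A)
  obtain ⟨σ, hσ, σ', hσ', h4⟩ := two_suffice F (fun σ h => h1 σ (hF h)) hI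
  have : B ⊆ {σ, σ'} := by
    intro τ hτ
    by_contra hn
    simp only [Set.mem_insert_iff, Set.mem_singleton_iff, not_or] at hn
    refine h3 τ hτ ⟨{σ, σ'}, ?_, fun V hV => grp_all (h4 V (hV σ (by simp)) (hV σ' (by simp)))
      (h1 τ hτ)⟩
    intro x hx
    simp only [Finset.coe_insert, Finset.coe_singleton, Set.mem_insert_iff,
      Set.mem_singleton_iff] at hx
    rcases hx with rfl | rfl
    · exact ⟨hF hσ, fun e => hn.1 e.symm⟩
    · exact ⟨hF hσ', fun e => hn.2 e.symm⟩
  refine (Set.encard_le_encard this).trans ((Set.encard_insert_le _ _).trans ?_)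
  rw [Set.encard_singleton]
  rfl

end H67.Mc
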