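import Mathlib

set_option autoImplicit false

namespace H67.Mc

/-- A signature: operation symbols with finite arities (arity zero allowed). -/
structure Sig where
  Op : Type
  ar : Op → ℕ

/-- Terms of a signature over a type of variables. -/
inductive Tm (L : Sig) (α : Type) : Type
  | var : α → Tm L α
  | app : (f : L.Op) → (Fin (L.ar f) → Tm L α) → Tm L α

/-- An algebra structure of signature `L` on the carrier `A`. -/
abbrev Ops (L : Sig) (A : Type) : Type := (f : L.Op) → (Fin (L.ar f) → A) → A

/-- Value of a term under an assignment. -/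
def Tm.eval {L : Sig} {A α : Type} (o : Ops L A) (v : α → A) : Tm L α → A
  | .var x => v x
  | .app f ts => o f (fun i => (ts i).eval o v)

/-- Substitution of terms for variables. -/
def Tm.bind {L : Sig} {α β : Type} (s : α → Tm L β) : Tm L α → Tm L β
  | .var x => s x
  | .app f ts => .app f (fun i => (ts i).bind s)

/-- Replacement of every operation symbol `f` by a term `t f` of the same arity. -/
def Tm.interp {L L' : Sig} {α : Type} (t : (f : L.Op) → Tm L' (Fin (L.ar f))) : Tm L α → Tm L' α
  | .var x => .var x
  | .app f ts => (t f).bind (fun i => (ts i).interp t)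

/-- Identities. -/
abbrev Ident (L : Sig) : Type := Tm L ℕ × Tm L ℕ

/-- An algebra satisfies an identity. -/
def Sat {L : Sig} {A : Type} (o : Ops L A) (e : Ident L) : Prop :=
  ∀ v : ℕ → A, e.1.eval o v = e.2.eval o v

/-- A variety: a signature and a set of defining identities. -/
structure Variety where
  L : Sig
  ax : Set (Ident L)

/-- An identity holds in every algebra of the variety. -/
def Variety.Holds (V : Variety) (e : Ident V.L) : Prop :=
  ∀ (A : Type) (o : Ops V.L A), (∀ a ∈ V.ax, Sat o a) → Sat o e

/-- A strong Mal'cev condition: finitely many symbols and finitely many identities. -/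
structure Cond where
  k : ℕ
  ar : Fin k → ℕ
  ids : List (Ident ⟨Fin k, ar⟩)

/-- A variety satisfies a strong Mal'cev condition. -/
def Variety.Satisfies (V : Variety) (σ : Cond) : Prop :=
  ∃ t : (f : Fin σ.k) → Tm V.L (Fin (σ.ar f)),
    ∀ e ∈ σ.ids, V.Holds (Tm.interp (L := ⟨Fin σ.k, σ.ar⟩) t e.1,
      Tm.interp (L := ⟨Fin σ.k, σ.ar⟩) t e.2)

/-- `τ` is implied by the conjunction of the finite set `F`. -/
def Implied (F : Finset Cond) (τ : Cond) : Prop :=
  ∀ V : Variety, (∀ σ ∈ F, V.Satisfies σ) → V.Satisfies τ

/-- `B` is a basis (independent generating subset) of the SC-theory of `V`. -/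
def IsBasis (V : Variety) (B : Set Cond) : Prop :=
  (∀ σ ∈ B, V.Satisfies σ) ∧
  (∀ τ, V.Satisfies τ → ∃ F : Finset Cond, (↑F : Set Cond) ⊆ B ∧ Implied F τ) ∧
  ∀ σ ∈ B, ¬ ∃ F : Finset Cond, (↑F : Set Cond) ⊆ B \ {σ} ∧ Implied F σ

/-- Symbols of the signature of groups. -/
inductive GOp : Type
  | mul
  | inv
  | one

/-- The signature of groups. -/
def grpSig : Sig := ⟨GOp, fun f => match f with | .mul => 2 | .inv => 1 | .one => 0⟩

/-- A group as an algebra in the signature of groups. -/
def grpOps (A : Type) [Group A] : Ops grpSig A := fun f => match f with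
  | .mul => fun v : Fin 2 → A => v 0 * v 1
  | .inv => fun v : Fin 1 → A => (v 0)⁻¹
  | .one => fun _ => 1

/-- The variety generated by a group: defined by all identities valid in it. -/
def varOf (A : Type) [Group A] : Variety := ⟨grpSig, {e | Sat (grpOps A) e}⟩

end H67.Mc
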