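import Mathlib

namespace Pool.Agent.H67.Mix

open Topology Filter

theorem loc {G X : Type*} [Fintype G] [NormedAddCommGroup X] [NormedSpace ℝ X]
    [FiniteDimensional ℝ X] (f : (G → ℝ) → X) (f' : (G → ℝ) →L[ℝ] X)
    (hf : HasStrictFDerivAt f f' 0) (hs : f'.range = ⊤) (h1 : f' (fun _ => 1) = 0)
    (s : Set (G → ℝ)) (hs0 : s ∈ 𝓝 (0 : G → ℝ)) :
    ∀ᶠ y in 𝓝 (f 0), ∃ t ∈ s, (∀ g, 0 ≤ t g) ∧ f t = y := by
  haveI : CompleteSpace X := FiniteDimensional.complete ℝ X
  obtain ⟨r, hr⟩ := f'.exists_nonlinearRightInverse_of_surjective hs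
  have hr' : (0 : ℝ) < (r.nnnorm : ℝ)⁻¹ := inv_pos.2 (by exact_mod_cast hr)
  let c : NNReal := ⟨(r.nnnorm : ℝ)⁻¹ / 4, by positivity⟩
  have hc : (c : ℝ) = (r.nnnorm : ℝ)⁻¹ / 4 := rfl
  have hc0 : 0 < c := by rw [← NNReal.coe_pos, hc]; positivity
  obtain ⟨s', hs', happ⟩ := hf.approximates_deriv_on_nhds (c := c) (Or.inr hc0)
  obtain ⟨δ, hδ, hball⟩ := Metric.nhds_basis_closedBall.mem_iff.1 (inter_mem hs0 hs')
  let ε := δ / 2
  have hε : 0 < ε := by positivity
  let t0 : G → ℝ := fun _ => ε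
  have ht0 : ‖t0‖ ≤ ε := (pi_norm_le_iff_of_nonneg hε.le).2 fun g => by
    simp [t0, abs_of_pos hε]
  have hsub : Metric.closedBall t0 ε ⊆ s ∩ s' := by
    refine subset_trans ?_ hball
    apply Metric.closedBall_subset_closedBall'
    rw [dist_zero_right]
    simp only [ε] at ht0 ⊢
    linarith
  have hsurj := happ.surjOn_closedBall_of_nonlinearRightInverse r hε.le
    (hsub.trans Set.inter_subset_right)
  have h2 : ‖f t0 - f 0‖ ≤ c * ε := by
    have := happ t0 (hsub (Metric.mem_closedBall_self hε.le)).2 0 (mem_of_mem_nhds hs')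
    have h3 : f' (t0 - 0) = 0 := by
      have : t0 - 0 = ε • (fun _ => (1 : ℝ)) := by funext g; simp [t0]
      rw [this, map_smul, h1, smul_zero]
    rw [h3, sub_zero, sub_zero] at this
    exact this.trans (mul_le_mul_of_nonneg_left ht0 c.2)
  have hpos : 0 < (c : ℝ) * ε := mul_pos hc0 hε
  filter_upwards [Metric.closedBall_mem_nhds (f 0) hpos] with y hy
  have hy2 : y ∈ Metric.closedBall (f t0) (((r.nnnorm : ℝ)⁻¹ - c) * ε) := by
    rw [Metric.mem_closedBall] at hy ⊢
    have h4 := dist_triangle y (f 0) (f t0)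
    rw [dist_comm (f 0), dist_eq_norm (f t0)] at h4
    have h5 : (r.nnnorm : ℝ)⁻¹ = 4 * c := by rw [hc]; ring
    rw [h5]
    nlinarith
  obtain ⟨t, ht, hft⟩ := hsurj hy2
  refine ⟨t, (hsub ht).1, fun g => ?_, hft⟩
  have h6 := (dist_pi_le_iff hε.le).1 (Metric.mem_closedBall.1 ht) g
  rw [Real.dist_eq, abs_le] at h6
  have := h6.1
  simp only [t0] at this
  linarith

section pr
variable {G R : Type*} [Group G] [Ring R] [Algebra ℝ R]

def fac (ρ : G →* R) (q : ℝ × G) : R := (1 - q.1) • (1 : R) + q.1 • ρ q.2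

def pr (ρ : G →* R) (l : List (ℝ × G)) : R := (l.map (fac ρ)).prod

def ok (l : List (ℝ × G)) : Prop := ∀ q ∈ l, 0 ≤ q.1 ∧ q.1 ≤ 1

theorem pr_append (ρ : G →* R) (l l' : List (ℝ × G)) : pr ρ (l ++ l') = pr ρ l * pr ρ l' := by
  simp [pr]

theorem pr_cons (ρ : G →* R) (q : ℝ × G) (l : List (ℝ × G)) :
    pr ρ (q :: l) = fac ρ q * pr ρ l := by simp [pr]

omit [Group G] in
theorem ok_append {l l' : List (ℝ × G)} (h : ok l) (h' : ok l') : ok (l ++ l') := by
  intro q hq
  rcases List.mem_append.1 hq with h1 | h1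
  · exact h q h1
  · exact h' q h1

theorem scale (ρ : G →* R) (t : G → ℝ) (ht : ∀ g, 0 ≤ t g) (L : List G) :
    ∃ c : ℝ, 0 < c ∧ ∃ l, ok l ∧ (L.map fun g => 1 + t g • ρ g).prod = c • pr ρ l := by
  induction L with
  | nil => exact ⟨1, one_pos, [], by simp [ok], by simp [pr]⟩
  | cons g L ih =>
    obtain ⟨c, hc, l, hl, h⟩ := ih
    have h0 : 0 < 1 + t g := by have := ht g; linarith
    refine ⟨(1 + t g) * c, mul_pos h0 hc, (t g / (1 + t g), g) :: l, ?_, ?_⟩
    · intro q hq
      rcases List.mem_cons.1 hq with rfl | hq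
      · exact ⟨div_nonneg (ht g) h0.le, (div_le_one h0).2 (by linarith)⟩
      · exact hl q hq
    · have e : 1 + t g • ρ g = (1 + t g) • fac ρ (t g / (1 + t g), g) := by
        simp only [fac, smul_add, smul_smul]
        rw [show (1 + t g) * (1 - t g / (1 + t g)) = 1 by field_simp; ring, one_smul,
          show (1 + t g) * (t g / (1 + t g)) = t g by field_simp]
      rw [List.map_cons, List.prod_cons, h, pr_cons, e, smul_mul_smul_comm]

end pr

theorem deriv_prod {G R : Type*} [Fintype G] [NormedRing R] [NormedAlgebra ℝ R] (a : G → R)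
    (L : List G) :
    HasStrictFDerivAt (fun t : G → ℝ => (L.map fun g => 1 + t g • a g).prod)
      (L.map fun g => (ContinuousLinearMap.proj g : (G → ℝ) →L[ℝ] ℝ).smulRight (a g)).sum 0 := by
  induction L with
  | nil => simpa using hasStrictFDerivAt_const (1 : R) (0 : G → ℝ)
  | cons g L ih =>
    have h1 : HasStrictFDerivAt (fun t : G → ℝ => 1 + t g • a g)
        ((ContinuousLinearMap.proj g : (G → ℝ) →L[ℝ] ℝ).smulRight (a g)) 0 :=
      ((ContinuousLinearMap.proj g : (G → ℝ) →L[ℝ] ℝ).smulRight (a g)).hasStrictFDerivAt.const_add 1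
    have h2 := h1.mul' ih
    have h3 : (L.map fun g => 1 + (0 : G → ℝ) g • a g).prod = 1 := by
      simp
    rw [h3] at h2
    simp only [List.map_cons, List.prod_cons, List.sum_cons]
    refine h2.congr_fderiv ?_
    simp [add_comm]

theorem lemA {G X : Type*} [Group G] [Fintype G] [NormedAddCommGroup X] [NormedSpace ℝ X]
    [FiniteDimensional ℝ X] (hG : ∀ N : Subgroup G, N.Normal → Odd N.index → N = ⊤)
    (ρ : G →* (X →L[ℝ] X)) (hsum : ∑ g, ρ g = 0)
    (hsimple : ∀ x : X, x ≠ 0 → ∀ y, ∃ t : G → ℝ, ∑ g, t g • ρ g x = y) (x : X) :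
    ∃ l, ok l ∧ pr ρ l x = 0 := by
  classical
  haveI : CompleteSpace X := FiniteDimensional.complete ℝ X
  rcases eq_or_ne x 0 with rfl | hx
  · exact ⟨[], by simp [ok], by simp⟩
  have hker : ρ.ker ≠ ⊤ := by
    intro h
    have h1 : ∀ g, ρ g = 1 := fun g => by
      have : g ∈ ρ.ker := by rw [h]; trivial
      exact this
    have h2 : (∑ g, ρ g) x = 0 := by rw [hsum]; rfl
    simp only [h1, Finset.sum_const, Finset.card_univ, ContinuousLinearMap.smul_apply,
      ContinuousLinearMap.one_apply] at h2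
    rw [← Nat.cast_smul_eq_nsmul ℝ, smul_eq_zero] at h2
    rcases h2 with h2 | h2
    · exact Fintype.card_ne_zero (by exact_mod_cast h2)
    · exact hx h2
  have heven : 2 ∣ Nat.card (G ⧸ ρ.ker) := by
    have := mt (hG ρ.ker inferInstance) hker
    exact even_iff_two_dvd.1 (Nat.not_odd_iff_even.1 this)
  haveI : Fact (Nat.Prime 2) := ⟨Nat.prime_two⟩
  obtain ⟨q, hq⟩ := exists_prime_orderOf_dvd_card' 2 heven
  obtain ⟨h, rfl⟩ := QuotientGroup.mk_surjective q
  have hh1 : ρ h ≠ 1 := by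
    intro h1
    have : (h : G ⧸ ρ.ker) = 1 := (QuotientGroup.eq_one_iff _).2 h1
    rw [this, orderOf_one] at hq
    omega
  have hh2 : ρ h * ρ h = 1 := by
    have := pow_orderOf_eq_one (h : G ⧸ ρ.ker)
    rw [hq, ← QuotientGroup.mk_pow, QuotientGroup.eq_one_iff, MonoidHom.mem_ker, pow_two,
      map_mul] at this
    exact this
  obtain ⟨x', hx'⟩ : ∃ x', ρ h x' ≠ x' := by
    by_contra hcon
    push Not at hcon
    exact hh1 (ContinuousLinearMap.ext hcon)
  let u := x' - ρ h x'
  have hu : u ≠ 0 := sub_ne_zero.2 hx'.symm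
  have hku : fac ρ (1 / 2, h) u = 0 := by
    have : ρ h (ρ h x') = x' := by
      rw [← ContinuousLinearMap.mul_apply, hh2]; rfl
    simp only [fac, u, ContinuousLinearMap.add_apply, ContinuousLinearMap.smul_apply,
      ContinuousLinearMap.one_apply, map_sub, this]
    module
  let Reach : X → X → Prop := fun a b => ∃ c : ℝ, c ≠ 0 ∧ ∃ l, ok l ∧ c • pr ρ l a = b
  suffices hR : Reach x u by
    obtain ⟨c, hc, l, hl, h1⟩ := hR
    refine ⟨(1 / 2, h) :: l, ?_, ?_⟩
    · intro q hq
      rcases List.mem_cons.1 hq with rfl | hq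
      · norm_num
      · exact hl q hq
    · rw [← h1, map_smul, smul_eq_zero] at hku
      rw [pr_cons, ContinuousLinearMap.mul_apply]
      exact hku.resolve_left hc
  by_cases hrank : 1 < Module.rank ℝ X
  swap
  · obtain ⟨v, hv⟩ := rank_le_one_iff.1 (not_lt.1 hrank)
    obtain ⟨a, ha⟩ := hv x
    obtain ⟨b, hb⟩ := hv u
    have ha0 : a ≠ 0 := by rintro rfl; exact hx (by rw [← ha, zero_smul])
    have hb0 : b ≠ 0 := by rintro rfl; exact hu (by rw [← hb, zero_smul])
    refine ⟨b / a, div_ne_zero hb0 ha0, [], by simp [ok], ?_⟩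
    rw [← hb, ← ha]
    simp [pr, smul_smul, ha0]
  refine (isConnected_compl_singleton_of_one_lt_rank hrank 0).isPreconnected.induction₂' Reach
    ?_ ?_ hx hu
  swap
  · rintro a b c _ _ _ ⟨c1, hc1, l1, hl1, h1⟩ ⟨c2, hc2, l2, hl2, h2⟩
    refine ⟨c2 * c1, mul_ne_zero hc2 hc1, l2 ++ l1, ok_append hl2 hl1, ?_⟩
    rw [pr_append, ContinuousLinearMap.mul_apply, mul_smul, ← map_smul, h1, h2]
  intro a ha
  apply Filter.Eventually.filter_mono nhdsWithin_le_nhds
  let L := (Finset.univ : Finset G).toList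
  let P : (G → ℝ) → (X →L[ℝ] X) := fun t => (L.map fun g => 1 + t g • ρ g).prod
  let D : (G → ℝ) →L[ℝ] (X →L[ℝ] X) :=
    (L.map fun g => (ContinuousLinearMap.proj g : (G → ℝ) →L[ℝ] ℝ).smulRight (ρ g)).sum
  have hP : HasStrictFDerivAt P D 0 := deriv_prod (fun g => ρ g) L
  have hP0 : P 0 = 1 := by simp [P]
  have hD : ∀ t, D t = ∑ g, t g • ρ g := by
    intro t
    simp only [D, L, Finset.sum_map_toList, ContinuousLinearMap.sum_apply]
    rfl
  let ev : (X →L[ℝ] X) →L[ℝ] X := ContinuousLinearMap.apply ℝ X a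
  have hev : ∀ T, ev T = T a := fun _ => rfl
  have hD1 : D (fun _ => 1) = 0 := by rw [hD]; simp [hsum]
  have hDs : ∀ y, ∃ t, D t a = y := by
    intro y
    obtain ⟨t, ht⟩ := hsimple a ha y
    exact ⟨t, by rw [hD, ← ht]; simp⟩
  have F := loc (fun t => ev (P t)) (ev.comp D) (ev.hasStrictFDerivAt.comp 0 hP)
    (LinearMap.range_eq_top.2 hDs) (by simp [hD1]) Set.univ univ_mem
  have hinv : HasStrictFDerivAt (fun t => Ring.inverse (P t)) (-D) 0 := by
    have h1 := hasStrictFDerivAt_ringInverse (𝕜 := ℝ) (1 : (X →L[ℝ] X)ˣ)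
    rw [Units.val_one, ← hP0] at h1
    refine (h1.comp 0 hP).congr_fderiv ?_
    ext t v
    simp
  have hunit : {t | IsUnit (P t)} ∈ 𝓝 (0 : G → ℝ) := by
    apply hP.continuousAt.preimage_mem_nhds (t := {T | IsUnit T})
    apply Units.isOpen.mem_nhds
    rw [hP0]
    exact isUnit_one
  have B := loc (fun t => ev (Ring.inverse (P t))) (ev.comp (-D))
    (ev.hasStrictFDerivAt.comp 0 hinv)
    (LinearMap.range_eq_top.2 fun y => by
      obtain ⟨t, ht⟩ := hDs (-y)
      exact ⟨t, by simp [hev, ht]⟩) (by simp [hD1]) _ hunit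
  simp only [hP0, hev, Ring.inverse_one, ContinuousLinearMap.one_apply] at F B
  filter_upwards [F, B] with y hF hB
  constructor
  · obtain ⟨t, _, ht, h1⟩ := hF
    obtain ⟨c, hc, l, hl, h2⟩ := scale ρ t ht L
    refine ⟨c, hc.ne', l, hl, ?_⟩
    rw [← h1]
    show _ = (L.map fun g => 1 + t g • ρ g).prod a
    rw [h2]; rfl
  · obtain ⟨t, htu, ht, h1⟩ := hB
    obtain ⟨c, hc, l, hl, h2⟩ := scale ρ t ht L
    refine ⟨c, hc.ne', l, hl, ?_⟩
    have h3 : P t y = a := by
      rw [← h1, ← ContinuousLinearMap.mul_apply, Ring.mul_inverse_cancel _ htu]; rfl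
    rw [← h3]
    show _ = (L.map fun g => 1 + t g • ρ g).prod y
    rw [h2]; rfl


theorem mixR {G : Type*} [Group G] [Fintype G]
    (hG : ∀ N : Subgroup G, N.Normal → Odd N.index → N = ⊤) :
    ∃ l : List (ℝ × G), ok l ∧ pr (MonoidAlgebra.of ℝ G) l
      = (Fintype.card G : ℝ)⁻¹ • ∑ g, MonoidAlgebra.single g (1 : ℝ) := by
  classical
  haveI : NeZero (Nat.card G : ℝ) := ⟨by exact_mod_cast Nat.card_pos.ne'⟩
  set e : MonoidAlgebra ℝ G := ∑ g, MonoidAlgebra.single g (1 : ℝ) with he
  have he1 : ∀ g : G, e * MonoidAlgebra.single g 1 = e := by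
    intro g
    simp only [he, Finset.sum_mul, MonoidAlgebra.single_mul_single, mul_one]
    exact Fintype.sum_equiv (Equiv.mulRight g) _ _ (fun _ => rfl)
  have he2 : ∀ g : G, MonoidAlgebra.single g 1 * e = e := by
    intro g
    simp only [he, Finset.mul_sum, MonoidAlgebra.single_mul_single, mul_one]
    exact Fintype.sum_equiv (Equiv.mulLeft g) _ _ (fun _ => rfl)
  have hec : ∀ b, e * b = b * e := by
    intro b
    induction b using MonoidAlgebra.induction_linear with
    | zero => simp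
    | add a b ha hb => rw [mul_add, add_mul, ha, hb]
    | single g c =>
      have : MonoidAlgebra.single g c = c • MonoidAlgebra.single g (1 : ℝ) := by simp
      rw [this, mul_smul_comm, smul_mul_assoc, he1, he2]
  let I : Submodule (MonoidAlgebra ℝ G) (MonoidAlgebra ℝ G) :=
    { carrier := {a | e * a = 0}
      add_mem' := by
        intro a b (ha : e * a = 0) (hb : e * b = 0)
        show e * (a + b) = 0
        rw [mul_add, ha, hb, add_zero]
      zero_mem' := mul_zero e
      smul_mem' := by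
        intro b a (ha : e * a = 0)
        show e * (b * a) = 0
        rw [← mul_assoc, hec, mul_assoc, ha, mul_zero] }
  have key : ∀ X : Submodule (MonoidAlgebra ℝ G) (MonoidAlgebra ℝ G),
      IsSimpleModule (MonoidAlgebra ℝ G) X → X ≤ I → ∀ x ∈ X,
      ∃ l, ok l ∧ pr (MonoidAlgebra.of ℝ G) l * x = 0 := by
    intro X hX hXI x hx
    let f : X →ₗ[ℝ] (G → ℝ) :=
      { toFun := fun a g => a.1.coeff g
        map_add' := fun _ _ => rfl
        map_smul' := fun _ _ => rfl }
    have hf : Function.Injective f := by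
      intro a b h
      ext g
      exact congrFun h g
    letI : NormedAddCommGroup X := NormedAddCommGroup.induced X (G → ℝ) f hf
    letI : NormedSpace ℝ X := NormedSpace.induced ℝ X (G → ℝ) f
    haveI : FiniteDimensional ℝ X := FiniteDimensional.of_injective f hf
    let r : G → X →ₗ[ℝ] X := fun g =>
      { toFun := fun a => MonoidAlgebra.single g (1 : ℝ) • a
        map_add' := fun a b => smul_add _ a b
        map_smul' := fun c a => Subtype.ext (mul_smul_comm c _ a.1) }
    let ρ : G →* (X →L[ℝ] X) :=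
      { toFun := fun g => LinearMap.toContinuousLinearMap (r g)
        map_one' := by
          ext a
          simp [r, ← MonoidAlgebra.one_def]
        map_mul' := by
          intro g h
          refine ContinuousLinearMap.ext fun a => Subtype.ext ?_
          show MonoidAlgebra.single (g * h) (1 : ℝ) * a.1
            = MonoidAlgebra.single g (1 : ℝ) * (MonoidAlgebra.single h (1 : ℝ) * a.1)
          rw [← mul_assoc, MonoidAlgebra.single_mul_single, mul_one] }
    have hρ : ∀ g (a : X), (ρ g a).1 = MonoidAlgebra.single g (1 : ℝ) * a.1 := fun _ _ => rfl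
    obtain ⟨l, hl, h⟩ := lemA hG ρ (by
      refine ContinuousLinearMap.ext fun a => Subtype.ext ?_
      rw [ContinuousLinearMap.sum_apply, Submodule.coe_sum]
      simp only [hρ, ← Finset.sum_mul]
      exact hXI a.2) (by
      intro a ha y
      have h1 : y ∈ Submodule.span (MonoidAlgebra ℝ G) {a} := by
        rw [IsSimpleModule.span_singleton_eq_top _ ha]; trivial
      obtain ⟨b, rfl⟩ := Submodule.mem_span_singleton.1 h1
      refine ⟨fun g => b.coeff g, Subtype.ext ?_⟩
      rw [Submodule.coe_sum]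
      have h2 : b = ∑ g, b.coeff g • MonoidAlgebra.single g (1 : ℝ) := by
        ext z
        simp [MonoidAlgebra.coeff_sum, Finsupp.single_apply, Finsupp.finsetSum_apply]
      conv_rhs => rw [h2]
      rw [Submodule.coe_smul, smul_eq_mul, Finset.sum_mul]
      refine Finset.sum_congr rfl fun g _ => ?_
      rw [smul_mul_assoc, ← hρ]
      rfl) ⟨x, hx⟩
    refine ⟨l, hl, ?_⟩
    have h3 : ∀ (l : List (ℝ × G)) (a : X), (pr ρ l a).1 = pr (MonoidAlgebra.of ℝ G) l * a.1 := by
      intro l a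
      induction l with
      | nil => simp [pr]
      | cons q l ih =>
        rw [pr_cons, pr_cons, mul_assoc, ← ih, ContinuousLinearMap.mul_apply]
        simp only [fac, add_mul, smul_mul_assoc, one_mul, MonoidAlgebra.of_apply, ← hρ]
        rfl
    rw [← h3 l ⟨x, hx⟩, h]
    rfl
  have key2 : ∀ a ∈ I, ∀ b : MonoidAlgebra ℝ G, ∃ l, ok l ∧
      pr (MonoidAlgebra.of ℝ G) l * (b * a) = 0 := by
    intro a ha
    rw [← IsSemisimpleModule.sSup_simples_le I, sSup_eq_iSup'] at ha
    refine Submodule.iSup_induction _ (motive := fun a => ∀ b : MonoidAlgebra ℝ G, ∃ l, ok l ∧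
      pr (MonoidAlgebra.of ℝ G) l * (b * a) = 0) ha ?_ ?_ ?_
    · rintro ⟨X, hX, hXI⟩ x hx b
      exact key X hX hXI _ (X.smul_mem b hx)
    · intro b
      exact ⟨[], by simp [ok], by simp⟩
    · intro x y hx hy b
      obtain ⟨l1, hl1, h1⟩ := hx b
      obtain ⟨l2, hl2, h2⟩ := hy (pr (MonoidAlgebra.of ℝ G) l1 * b)
      refine ⟨l2 ++ l1, ok_append hl2 hl1, ?_⟩
      rw [pr_append, mul_add, mul_add, mul_assoc, h1, mul_zero, zero_add, mul_assoc, ← mul_assoc _ b,
        h2]
  have key3 : ∀ T : Finset G, ∃ l, ok l ∧ ∀ g ∈ T,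
      pr (MonoidAlgebra.of ℝ G) l * (MonoidAlgebra.single g 1 - 1) = 0 := by
    intro T
    induction T using Finset.induction_on with
    | empty => exact ⟨[], by simp [ok], by simp⟩
    | insert g T _ ih =>
      obtain ⟨l1, hl1, h1⟩ := ih
      obtain ⟨l2, hl2, h2⟩ := key2 (MonoidAlgebra.single g 1 - 1)
        (show e * _ = 0 by rw [mul_sub, he1, mul_one, sub_self]) (pr (MonoidAlgebra.of ℝ G) l1)
      refine ⟨l2 ++ l1, ok_append hl2 hl1, fun h hh => ?_⟩
      rw [pr_append, mul_assoc]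
      rcases Finset.mem_insert.1 hh with rfl | hh
      · exact h2
      · rw [h1 h hh, mul_zero]
  obtain ⟨l, hl, h⟩ := key3 Finset.univ
  refine ⟨l, hl, ?_⟩
  have h1 : ∀ l : List (ℝ × G), pr (MonoidAlgebra.of ℝ G) l * e = e := by
    intro l
    induction l with
    | nil => simp [pr]
    | cons q l ih =>
      rw [pr_cons, mul_assoc, ih]
      simp only [fac, add_mul, smul_mul_assoc, one_mul, MonoidAlgebra.of_apply, he2, ← add_smul]
      simp
  have h2 : pr (MonoidAlgebra.of ℝ G) l * e = (Fintype.card G : ℝ) • pr (MonoidAlgebra.of ℝ G) l := by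
    have : ∀ g : G, pr (MonoidAlgebra.of ℝ G) l * MonoidAlgebra.single g 1
        = pr (MonoidAlgebra.of ℝ G) l := by
      intro g
      have := h g (Finset.mem_univ _)
      rwa [mul_sub, mul_one, sub_eq_zero] at this
    rw [he, Finset.mul_sum]
    simp only [this, Finset.sum_const, Finset.card_univ, Nat.cast_smul_eq_nsmul]
  have hc : (Fintype.card G : ℝ) ≠ 0 := by exact_mod_cast Fintype.card_ne_zero
  rw [← h1 l, h2, smul_smul, inv_mul_cancel₀ hc, one_smul]

end Pool.Agent.H67.Mix
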