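import Pool.Agent.H67.SD

namespace Pool.Agent.H67.NVL

open Pool.Agent.H67.SD
open scoped commutatorElement

abbrev W := Fin 13 → ZMod 2

def P (i j : Fin 13) : Prop := i ≠ j ∧ (i.val < 3 ∨ 10 ≤ j.val)

instance (i j : Fin 13) : Decidable (P i j) := by unfold P; infer_instance

theorem P_split : ∀ i j : Fin 13, P i j → ∃ l, P i l ∧ P l j := by decide

theorem two_eq (x : ZMod 2) : x + x = 0 := by revert x; decide

def tl (i j : Fin 13) : W →ₗ[ZMod 2] W :=
  LinearMap.id + (LinearMap.single (ZMod 2) (fun _ => ZMod 2) i).comp (LinearMap.proj j)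

theorem tl_apply (i j : Fin 13) (v : W) : tl i j v = v + Pi.single i (v j) := rfl

theorem ss (i : Fin 13) (a : ZMod 2) : (Pi.single i a : W) + Pi.single i a = 0 := by
  rw [← Pi.single_add, two_eq, Pi.single_zero]

def t (i j : Fin 13) (h : i ≠ j) : W ≃ₗ[ZMod 2] W :=
  LinearEquiv.ofInvolutive (tl i j) (by
    intro v
    rw [tl_apply, tl_apply, Pi.add_apply, Pi.single_eq_of_ne h.symm, add_zero, add_assoc, ss,
      add_zero])

theorem t_apply (i j : Fin 13) (h : i ≠ j) (v : W) : t i j h v = v + Pi.single i (v j) := rfl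

theorem t_inv (i j : Fin 13) (h : i ≠ j) : (t i j h)⁻¹ = t i j h := rfl

theorem t_comm (i l j : Fin 13) (h1 : i ≠ l) (h2 : l ≠ j) (h3 : i ≠ j) :
    ⁅t i l h1, t l j h2⁆ = t i j h3 := by
  rw [commutatorElement_def, t_inv, t_inv]
  refine LinearEquiv.ext fun v => ?_
  simp only [LinearEquiv.mul_apply, t_apply, Pi.add_apply, Pi.single_eq_of_ne h1.symm,
    Pi.single_eq_of_ne h2.symm, Pi.single_eq_of_ne h3.symm, Pi.single_eq_same, add_zero,
    Pi.single_add]
  have e1 := ss i (v l)
  have e2 := ss l (v j)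
  have e3 := ss i (v j)
  linear_combination (exp := 1) e1 + e2 + e3

def S : Set (W ≃ₗ[ZMod 2] W) := {g | ∃ (i j : Fin 13) (h : P i j), g = t i j h.1}

def K : Subgroup (W ≃ₗ[ZMod 2] W) := Subgroup.closure S

instance : Finite (W ≃ₗ[ZMod 2] W) :=
  Finite.of_injective (fun g => (g : W → W)) DFunLike.coe_injective

theorem t_mem (i j : Fin 13) (h : P i j) : t i j h.1 ∈ K := Subgroup.subset_closure ⟨i, j, h, rfl⟩

theorem K_perfect : commutator K = ⊤ := by
  apply Subgroup.map_injective K.subtype_injective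
  rw [Subgroup.map_subtype_commutator, ← MonoidHom.range_eq_map, Subgroup.range_subtype]
  refine le_antisymm (Subgroup.commutator_le.2 fun a ha b hb => ?_) ?_
  · rw [commutatorElement_def]
    exact mul_mem (mul_mem (mul_mem ha hb) (inv_mem ha)) (inv_mem hb)
  refine (Subgroup.closure_le _).2 ?_
  rintro _ ⟨i, j, h, rfl⟩
  obtain ⟨l, h1, h2⟩ := P_split i j h
  rw [← t_comm i l j h1.1 h2.1 h.1]
  exact Subgroup.commutator_mem_commutator (t_mem _ _ h1) (t_mem _ _ h2)

theorem K_prop (g : W ≃ₗ[ZMod 2] W) (hg : g ∈ K) :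
    ∀ v : W, (∀ j : Fin 13, 10 ≤ j.val → v j = 0) → ∀ i : Fin 13, 3 ≤ i.val → g v i = v i := by
  have key : ∀ a b (h : P a b) (v : W), (∀ j : Fin 13, 10 ≤ j.val → v j = 0) →
      ∀ i : Fin 13, 3 ≤ i.val → t a b h.1 v i = v i := by
    intro a b h v hv i hi
    rw [t_apply, Pi.add_apply]
    rcases h.2 with h2 | h2
    · rw [Pi.single_eq_of_ne (by intro e; rw [e] at hi; omega), add_zero]
    · rw [hv b h2, Pi.single_zero, Pi.zero_apply, add_zero]
  induction hg using Subgroup.closure_induction_left with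
  | one => intro v _ i _; rfl
  | mul_left x hx y _ ih =>
    obtain ⟨a, b, h, rfl⟩ := hx
    intro v hv i hi
    rw [LinearEquiv.mul_apply, key a b h _ _ i hi, ih v hv i hi]
    intro j hj
    rw [ih v hv j (by omega), hv j hj]
  | inv_mul_cancel x hx y _ ih =>
    obtain ⟨a, b, h, rfl⟩ := hx
    intro v hv i hi
    rw [t_inv, LinearEquiv.mul_apply, key a b h _ _ i hi, ih v hv i hi]
    intro j hj
    rw [ih v hv j (by omega), hv j hj]

def top (a : Fin 3 → ZMod 2) : W := fun i => if h : i.val < 3 then a ⟨i.val, h⟩ else 0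
def bot (b : Fin 3 → ZMod 2) : W := fun i => if h : 10 ≤ i.val then b ⟨i.val - 10, by omega⟩ else 0

theorem range_form (g : K) (v : W) : ∃ p : (Fin 3 → ZMod 2) × (Fin 3 → ZMod 2),
    v - g • v = top p.1 + (bot p.2 - g • bot p.2) := by
  let b : Fin 3 → ZMod 2 := fun k => v ⟨k.val + 10, by omega⟩
  let u : W := v - bot b
  have hu : ∀ j : Fin 13, 10 ≤ j.val → u j = 0 := by
    intro j hj
    simp only [u, bot, Pi.sub_apply, dif_pos hj, b]
    rw [sub_eq_zero]
    congr 1
    ext
    simp only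
    omega
  refine ⟨(fun k => (u - g • u) ⟨k.val, by omega⟩, b), ?_⟩
  have h1 : top (fun k => (u - g • u) ⟨k.val, by omega⟩) = u - g • u := by
    funext i
    simp only [top]
    split_ifs with h
    · rfl
    · have := K_prop g.1 g.2 u hu i (by omega)
      rw [Pi.sub_apply, eq_comm, sub_eq_zero]
      exact this.symm
  rw [h1]
  simp only [u, smul_sub]
  abel

theorem exists_example : ∃ (G : Type) (_ : Group G) (_ : Finite G), commutator G = ⊤ ∧
    Subgroup.center G = ⊥ ∧ ∃ b : ℕ, b ^ 2 < Nat.card G ∧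
      ∀ x : G, {y | ∃ c : G, y = c * x * c⁻¹}.ncard ≤ b := by
  classical
  let k := Nat.card K
  refine ⟨Aff (Fin k → W) K, inferInstance, inferInstance, ?_, ?_, Nat.card K * 64 ^ k, ?_, ?_⟩
  · apply perfect K_perfect
    rw [eq_top_iff]
    intro v _
    have h1 : v = ∑ a : Fin k, ∑ i : Fin 13, Pi.single a (Pi.single i (v a i)) := by
      conv_lhs => rw [← Finset.univ_sum_single v]
      refine Finset.sum_congr rfl fun a _ => ?_
      conv_lhs => rw [← Finset.univ_sum_single (v a)]
      exact map_sum (AddMonoidHom.single (fun _ : Fin k => W) a) _ _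
    rw [h1]
    refine sum_mem fun a _ => sum_mem fun i _ => AddSubgroup.subset_closure ?_
    have : ∀ i : Fin 13, ∃ j, P i j := by decide
    obtain ⟨j, hj⟩ := this i
    refine ⟨⟨_, t_mem i j hj⟩, Pi.single a (Pi.single j (v a i)), ?_⟩
    funext c
    rcases eq_or_ne c a with rfl | hc
    · simp only [Pi.sub_apply, Pi.smul_apply, Pi.single_eq_same]
      show _ = t i j hj.1 _ - _
      rw [t_apply, Pi.single_eq_same]
      abel
    · simp [Pi.single_eq_of_ne hc]
  · apply centreless
    · intro g hg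
      haveI : Nonempty (Fin k) := ⟨⟨0, Nat.card_pos⟩⟩
      apply Subtype.ext
      refine LinearEquiv.ext fun w => ?_
      exact congrFun (hg (fun _ => w)) (Classical.arbitrary _)
    · intro v hv
      funext a j
      have : ∀ j : Fin 13, ∃ i, P i j := by decide
      obtain ⟨i, hi⟩ := this j
      have h1 : t i j hi.1 (v a) = v a := congrFun (hv ⟨_, t_mem i j hi⟩) a
      have h2 := congrFun h1 i
      rw [t_apply, Pi.add_apply, Pi.single_eq_same] at h2
      simpa using h2
  · rw [card_eq]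
    have h1 : Nat.card (Fin k → W) = (2 ^ 13) ^ k := by
      simp [Nat.card_eq_fintype_card, W]
    have h2 : k < 2 ^ k := Nat.lt_two_pow_self
    have h3 : 0 < k := Nat.card_pos
    rw [h1]
    show (k * 64 ^ k) ^ 2 < (2 ^ 13) ^ k * k
    have h4 : (2 ^ 13) ^ k = 2 ^ k * (64 ^ k) ^ 2 := by
      rw [← pow_mul 64, mul_comm k 2, pow_mul 64, ← mul_pow]; norm_num
    rw [h4]
    have h5 : 0 < (64 ^ k) ^ 2 := by positivity
    calc (k * 64 ^ k) ^ 2 = k * ((64 ^ k) ^ 2 * k) := by ring
      _ < 2 ^ k * ((64 ^ k) ^ 2 * k) := Nat.mul_lt_mul_of_pos_right h2 (Nat.mul_pos h5 h3)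
      _ = _ := by ring
  · apply class_le
    intro g
    have hsub : (Set.range fun v : Fin k → W => v - g • v) ⊆ Set.range
        (fun p : Fin k → (Fin 3 → ZMod 2) × (Fin 3 → ZMod 2) =>
          fun a => top (p a).1 + (bot (p a).2 - g • bot (p a).2)) := by
      rintro _ ⟨v, rfl⟩
      choose p hp using fun a => range_form g (v a)
      exact ⟨p, funext fun a => (hp a).symm⟩
    refine (Set.ncard_le_ncard hsub (Set.toFinite _)).trans ?_
    rw [← Set.image_univ]
    refine (Set.ncard_image_le (Set.toFinite _)).trans ?_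
    rw [Set.ncard_univ]
    simp [Nat.card_eq_fintype_card]

end Pool.Agent.H67.NVL
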