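import Pool.Agent.H67.Gen2

/-! A monotone 5-ary near-unanimity operation on pairs of distinct rationals commuting with the swap. -/

namespace H67.NUL

def lo (a : Fin 5 → ℚ) : ℚ :=
  Finset.univ.sup' Finset.univ_nonempty fun k => (Finset.univ.erase k).inf' (by revert k; decide) a
def hi (a : Fin 5 → ℚ) : ℚ :=
  Finset.univ.inf' Finset.univ_nonempty fun k => (Finset.univ.erase k).sup' (by revert k; decide) a

theorem le_lo {a v} : v ≤ lo a ↔ ∃ k, ∀ i, i ≠ k → v ≤ a i := by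
  simp [lo, Finset.le_sup'_iff, Finset.le_inf'_iff]

theorem hi_le {a v} : hi a ≤ v ↔ ∃ k, ∀ i, i ≠ k → a i ≤ v := by
  simp [hi, Finset.inf'_le_iff, Finset.sup'_le_iff]

attribute [irreducible] lo hi

theorem free4 : ∀ k l m n : Fin 5, ∃ i, i ≠ k ∧ i ≠ l ∧ i ≠ m ∧ i ≠ n := by decide

theorem lo_mono {a b} (h : a ≤ b) : lo a ≤ lo b := by
  obtain ⟨k, hk⟩ := le_lo.1 (le_refl (lo a))
  exact le_lo.2 ⟨k, fun i hi => (hk i hi).trans (h i)⟩

theorem hi_mono {a b} (h : a ≤ b) : hi a ≤ hi b := by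
  obtain ⟨k, hk⟩ := hi_le.1 (le_refl (hi b))
  exact hi_le.2 ⟨k, fun i hi => (h i).trans (hk i hi)⟩

theorem lo_le_hi (a) : lo a ≤ hi a := by
  obtain ⟨k, hk⟩ := le_lo.1 (le_refl (lo a))
  obtain ⟨l, hl⟩ := hi_le.1 (le_refl (hi a))
  obtain ⟨i, h1, h2, -⟩ := free4 k l k l
  exact (hk i h1).trans (hl i h2)

theorem coll {a} (h : ¬ lo a < hi a) : ∃ k l, ∀ i, i ≠ k → i ≠ l → a i = lo a := by
  obtain ⟨k, hk⟩ := le_lo.1 (le_refl (lo a))
  obtain ⟨l, hl⟩ := hi_le.1 (not_lt.1 h)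
  exact ⟨k, l, fun i h1 h2 => le_antisymm (hl i h2) (hk i h1)⟩

abbrev T := Fin 5 → ℚ × ℚ
def fs (p : T) : Fin 5 → ℚ := fun i => (p i).1

theorem fs_mono {p q : T} (h : p ≤ q) : fs p ≤ fs q := fun i => (h i).1

def Ok (s : Finset (T × ℚ)) : Prop :=
  (∀ x ∈ s, lo (fs x.1) < x.2 ∧ x.2 < hi (fs x.1) ∧ ∀ i, x.2 ≠ (x.1 i).2) ∧
  ∀ x ∈ s, ∀ y ∈ s, (x.2 = y.2 → x.1 = y.1) ∧ (x.1 ≤ y.1 → x.2 ≤ y.2)

theorem step (s : Finset (T × ℚ)) (hs : Ok s) (p : T) (hp : lo (fs p) < hi (fs p)) :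
    ∃ t, Ok t ∧ s ⊆ t ∧ ∃ v, (p, v) ∈ t := by
  classical
  by_cases h : ∃ v, (p, v) ∈ s
  · exact ⟨s, hs, subset_rfl, h⟩
  let L : Finset ℚ := insert (lo (fs p)) ((s.filter fun x => x.1 ≤ p).image Prod.snd)
  let U : Finset ℚ := insert (hi (fs p)) ((s.filter fun x => p ≤ x.1).image Prod.snd)
  have hL : L.Nonempty := Finset.insert_nonempty _ _
  have hU : U.Nonempty := Finset.insert_nonempty _ _
  have hlt : L.max' hL < U.min' hU := by
    have h1 := L.max'_mem hL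
    have h2 := U.min'_mem hU
    generalize L.max' hL = a at h1
    generalize U.min' hU = b at h2
    simp only [L, U, Finset.mem_insert, Finset.mem_image, Finset.mem_filter] at h1 h2
    rcases h1 with rfl | ⟨x, ⟨hx, hxp⟩, rfl⟩ <;> rcases h2 with rfl | ⟨y, ⟨hy, hyp⟩, rfl⟩
    · exact hp
    · exact (lo_mono (fs_mono hyp)).trans_lt (hs.1 y hy).1
    · exact (hs.1 x hx).2.1.trans_le (hi_mono (fs_mono hxp))
    · refine lt_of_le_of_ne ((hs.2 x hx y hy).2 (hxp.trans hyp)) fun e => h ⟨x.2, ?_⟩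
      have e' := (hs.2 x hx y hy).1 e
      have : x.1 = p := le_antisymm hxp (e' ▸ hyp)
      rw [← this]; exact hx
  obtain ⟨v, hv, hn⟩ := (Set.Ioo_infinite hlt).exists_notMem_finset
    (s.image Prod.snd ∪ Finset.univ.image fun i => (p i).2)
  simp only [Finset.mem_union, Finset.mem_image, not_or, not_exists, not_and, Finset.mem_univ,
    true_and] at hn
  have hl : ∀ a ∈ L, a < v := fun a ha => (L.le_max' a ha).trans_lt hv.1
  have hu : ∀ a ∈ U, v < a := fun a ha => hv.2.trans_le (U.min'_le a ha)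
  refine ⟨insert (p, v) s, ⟨?_, ?_⟩, Finset.subset_insert _ _, v, Finset.mem_insert_self _ _⟩
  · intro x hx
    rcases Finset.mem_insert.1 hx with rfl | hx
    · exact ⟨hl _ (Finset.mem_insert_self _ _), hu _ (Finset.mem_insert_self _ _),
        fun i e => hn.2 i e.symm⟩
    · exact hs.1 x hx
  · intro x hx y hy
    rcases Finset.mem_insert.1 hx with rfl | hx <;> rcases Finset.mem_insert.1 hy with rfl | hy
    · exact ⟨fun _ => rfl, fun _ => le_rfl⟩
    · exact ⟨fun e => absurd e.symm (hn.1 y hy), fun e => (hu _ (Finset.mem_insert_of_mem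
        (Finset.mem_image_of_mem _ (Finset.mem_filter.2 ⟨hy, e⟩)))).le⟩
    · exact ⟨fun e => absurd e (hn.1 x hx), fun e => (hl _ (Finset.mem_insert_of_mem
        (Finset.mem_image_of_mem _ (Finset.mem_filter.2 ⟨hx, e⟩)))).le⟩
    · exact hs.2 x hx y hy

theorem exists_G : ∃ G : T → ℚ, Monotone G ∧ (∀ p, ¬ lo (fs p) < hi (fs p) → G p = lo (fs p)) ∧
    (∀ p, lo (fs p) < hi (fs p) → ∀ i, G p ≠ (p i).2) ∧
    ∀ p q, lo (fs p) < hi (fs p) → lo (fs q) < hi (fs q) → G p = G q → p = q := by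
  classical
  obtain ⟨f, hf, -, hD⟩ := H67.Gen.chain (P := {s : Finset (T × ℚ) // Ok s})
    (fun (p : T) s => lo (fs p) < hi (fs p) → ∃ v, (p, v) ∈ s.1) (fun p s => by
      by_cases hp : lo (fs p) < hi (fs p)
      · obtain ⟨t, h1, h2, h3⟩ := step s.1 s.2 p hp
        exact ⟨⟨t, h1⟩, h2, fun _ => h3⟩
      · exact ⟨s, le_rfl, fun h => absurd h hp⟩) ⟨∅, by simp [Ok]⟩
  have ex : ∀ p, ∃ v, lo (fs p) < hi (fs p) → ∃ n, (p, v) ∈ (f n).1 := fun p => by
    by_cases hp : lo (fs p) < hi (fs p)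
    · obtain ⟨n, -, h⟩ := hD p 0
      obtain ⟨v, hv⟩ := h hp
      exact ⟨v, fun _ => ⟨n, hv⟩⟩
    · exact ⟨0, fun h => absurd h hp⟩
  choose g hg using ex
  have one : ∀ p, lo (fs p) < hi (fs p) → lo (fs p) < g p ∧ g p < hi (fs p) ∧ ∀ i, g p ≠ (p i).2 :=
    fun p hp => by
      obtain ⟨n, h⟩ := hg p hp
      exact (f n).2.1 _ h
  have two : ∀ p q, lo (fs p) < hi (fs p) → lo (fs q) < hi (fs q) →
      (g p = g q → p = q) ∧ (p ≤ q → g p ≤ g q) := fun p q hp hq => by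
    obtain ⟨n, h⟩ := hg p hp
    obtain ⟨m, h'⟩ := hg q hq
    exact (f (max n m)).2.2 _ (hf (le_max_left _ _) h) _ (hf (le_max_right _ _) h')
  refine ⟨fun p => if lo (fs p) < hi (fs p) then g p else lo (fs p), fun p q hpq => ?_,
    fun p hp => if_neg hp, fun p hp i => ?_, fun p q hp hq e => ?_⟩
  · by_cases hp : lo (fs p) < hi (fs p) <;> by_cases hq : lo (fs q) < hi (fs q) <;>
      simp only [hp, hq, if_true, if_false]
    · exact (two p q hp hq).2 hpq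
    · exact (one p hp).2.1.le.trans ((hi_mono (fs_mono hpq)).trans (not_lt.1 hq))
    · exact (lo_mono (fs_mono hpq)).trans (one q hq).1.le
    · exact lo_mono (fs_mono hpq)
  · simp only [hp, if_true]; exact (one p hp).2.2 i
  · simp only [hp, hq, if_true] at e; exact (two p q hp hq).1 e

def sw (p : T) : T := fun i => (p i).swap

theorem exists_G' : ∃ G : T → ℚ, Monotone G ∧
    (∀ (x y : ℚ × ℚ) (i : Fin 5), G (Function.update (fun _ => x) i y) = x.1) ∧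
    ∀ p : T, (∀ i, (p i).1 ≠ (p i).2) → G p ≠ G (sw p) := by
  obtain ⟨G, h1, h2, h3, h4⟩ := exists_G
  refine ⟨G, h1, fun x y i => ?_, fun p hp e => ?_⟩
  · have a : x.1 ≤ lo (fs (Function.update (fun _ => x) i y)) :=
      le_lo.2 ⟨i, fun j hj => by simp [fs, hj]⟩
    have b : hi (fs (Function.update (fun _ => x) i y)) ≤ x.1 :=
      hi_le.2 ⟨i, fun j hj => by simp [fs, hj]⟩
    rw [h2 _ (not_lt.2 (b.trans a))]
    exact le_antisymm ((lo_le_hi _).trans b) a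
  · by_cases a : lo (fs p) < hi (fs p) <;> by_cases b : lo (fs (sw p)) < hi (fs (sw p))
    · exact hp 0 (congrArg (fun q : T => (q 0).1) (h4 _ _ a b e))
    · obtain ⟨k, l, h⟩ := coll b
      obtain ⟨i, i1, i2, -⟩ := free4 k l k l
      exact h3 p a i (by rw [e, h2 _ b, ← h i i1 i2]; rfl)
    · obtain ⟨k, l, h⟩ := coll a
      obtain ⟨i, i1, i2, -⟩ := free4 k l k l
      exact h3 _ b i (by rw [← e, h2 _ a, ← h i i1 i2]; rfl)
    · obtain ⟨k, l, h⟩ := coll a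
      obtain ⟨k', l', h'⟩ := coll b
      obtain ⟨i, i1, i2, i3, i4⟩ := free4 k l k' l'
      rw [h2 _ a, h2 _ b, ← h i i1 i2, ← h' i i3 i4] at e
      exact hp i e

end H67.NUL
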