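import Pool.Agent.H67.SLn

namespace Pool.Agent.H67.PSL

open Matrix

variable {ι F : Type} [Field F] [DecidableEq ι] [Fintype ι]

def π : SpecialLinearGroup ι F →* ProjectiveSpecialLinearGroup ι F := QuotientGroup.mk' _

theorem π_surj : Function.Surjective (π (ι := ι) (F := F)) := QuotientGroup.mk'_surjective _

theorem π_eq_one (a : SpecialLinearGroup ι F) : π a = 1 ↔ a ∈ Subgroup.center _ :=
  QuotientGroup.eq_one_iff a

instance [Finite F] : Finite (ProjectiveSpecialLinearGroup ι F) := Finite.of_surjective π π_surj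

theorem π_tr {i j : ι} (hij : i ≠ j) {c : F} (hc : c ≠ 0) :
    π (SpecialLinearGroup.transvection hij c) ≠ 1 := by
  rw [Ne, π_eq_one, Matrix.SpecialLinearGroup.mem_center_iff]
  rintro ⟨r, -, hr⟩
  have := congrFun (congrFun hr i) j
  simp [SpecialLinearGroup.transvection_coe, hij] at this
  exact hc this.symm

theorem simple (h3 : 3 ≤ Fintype.card ι) : IsSimpleGroup (ProjectiveSpecialLinearGroup ι F) := by
  haveI : Nontrivial ι := Fintype.one_lt_card_iff_nontrivial.1 (by omega)
  obtain ⟨i, j, hij⟩ := exists_pair_ne ι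
  haveI : Nontrivial (ProjectiveSpecialLinearGroup ι F) := ⟨_, _, π_tr hij one_ne_zero⟩
  refine ⟨fun N hN => ?_⟩
  rcases SLn.quasi h3 (N.comap π) with h | h
  · right
    rw [← Subgroup.map_comap_eq_self_of_surjective π_surj N, h,
      Subgroup.map_top_of_surjective _ π_surj]
  · left
    rw [eq_bot_iff]
    intro n hn
    obtain ⟨a, rfl⟩ := π_surj n
    exact (π_eq_one a).2 (h hn)

theorem perfect (h3 : 3 ≤ Fintype.card ι) : commutator (ProjectiveSpecialLinearGroup ι F) = ⊤ := by
  have := map_commutator_eq (SpecialLinearGroup ι F) π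
  rw [SLn.perfect h3, MonoidHom.range_eq_top.2 π_surj,
    Subgroup.map_top_of_surjective _ π_surj] at this
  exact this.symm

theorem noncomm (h3 : 3 ≤ Fintype.card ι) :
    ∃ a b : ProjectiveSpecialLinearGroup ι F, a * b ≠ b * a := by
  haveI := simple (F := F) h3
  by_contra h
  push Not at h
  have h1 : commutator (ProjectiveSpecialLinearGroup ι F) = ⊥ := by
    rw [commutator_def, Subgroup.commutator_eq_bot_iff_le_centralizer]
    intro a _ b _
    exact h b a
  rw [perfect h3] at h1
  exact top_ne_bot h1

theorem center (h3 : 3 ≤ Fintype.card ι) :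
    Subgroup.center (ProjectiveSpecialLinearGroup ι F) = ⊥ := by
  haveI := simple (F := F) h3
  rcases (inferInstance : (Subgroup.center (ProjectiveSpecialLinearGroup ι F)).Normal).eq_bot_or_eq_top
    with h | h
  · exact h
  · obtain ⟨a, b, hab⟩ := noncomm (F := F) h3
    have : b ∈ Subgroup.center _ := h ▸ Subgroup.mem_top b
    exact absurd (Subgroup.mem_center_iff.1 this a) hab

end Pool.Agent.H67.PSL
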