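import Mathlib

set_option autoImplicit false

namespace Pool.Agent.H67.PoncPow

open Matrix

/-- An ellipse in the Euclidean plane `ℂ`: centre `m` and a positive definite quadratic form. -/
structure Ellipse where
  m : ℂ
  a : ℝ
  b : ℝ
  c : ℝ
  ha : 0 < a
  hd : b ^ 2 < a * c

/-- The ellipse is the curve `q = 1`; its inside is `q < 1`. -/
def Ellipse.q (E : Ellipse) (z : ℂ) : ℝ :=
  E.a * (z - E.m).re ^ 2 + 2 * E.b * (z - E.m).re * (z - E.m).im + E.c * (z - E.m).im ^ 2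

def Inside (Ec E : Ellipse) : Prop := ∀ z, Ec.q z = 1 → E.q z < 1

/-- The line `AB` meets the ellipse in exactly one point. -/
def Tangent (E : Ellipse) (A B : ℂ) : Prop := ∃! t : ℝ, E.q (A + t * (B - A)) = 1

def Poncelet (E Ec : Ellipse) (A B C : ℂ) : Prop :=
  A ≠ B ∧ B ≠ C ∧ C ≠ A ∧ E.q A = 1 ∧ E.q B = 1 ∧ E.q C = 1 ∧
    Tangent Ec A B ∧ Tangent Ec B C ∧ Tangent Ec C A

theorem pos {a b c x y : ℝ} (ha : 0 < a) (hd : b ^ 2 < a * c) (h : x ≠ 0 ∨ y ≠ 0) :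
    0 < a * x ^ 2 + 2 * b * x * y + c * y ^ 2 := by
  have e : a * (a * x ^ 2 + 2 * b * x * y + c * y ^ 2) = (a * x + b * y) ^ 2 + (a * c - b ^ 2) * y ^ 2 := by
    ring
  have : 0 < (a * x + b * y) ^ 2 + (a * c - b ^ 2) * y ^ 2 := by
    by_cases hy : y = 0
    · have hx : x ≠ 0 := by tauto
      subst hy
      have : 0 < (a * x) ^ 2 := by positivity
      simpa using this
    · have : 0 < (a * c - b ^ 2) * y ^ 2 := mul_pos (by linarith) (by positivity)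
      positivity
  rw [← e] at this
  exact (mul_pos_iff_of_pos_left ha).1 this

theorem disc {p q r : ℝ} (hp : 0 < p) (h : ∃! t : ℝ, p * t ^ 2 + 2 * q * t + r = 0) :
    q ^ 2 = p * r := by
  obtain ⟨t, ht, hu⟩ := h
  have h1 := hu (-2 * q / p - t) (by
    field_simp
    linear_combination p * ht)
  have h2 : p * t = -q := by
    field_simp at h1
    linarith
  linear_combination (-p) * ht + (p * t + q) * h2

theorem ne_coord {A B : ℂ} (h : A ≠ B) : B.re - A.re ≠ 0 ∨ B.im - A.im ≠ 0 := by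
  by_contra hc
  push Not at hc
  exact h (Complex.ext (by linarith [hc.1]) (by linarith [hc.2]))

theorem tang {E : Ellipse} {A B : ℂ} (h : A ≠ B) (ht : Tangent E A B) :
    (E.a * E.c - E.b ^ 2) * ((A - E.m).re * (B - E.m).im - (A - E.m).im * (B - E.m).re) ^ 2
      = E.a * (B.re - A.re) ^ 2 + 2 * E.b * (B.re - A.re) * (B.im - A.im)
        + E.c * (B.im - A.im) ^ 2 := by
  have hp := pos E.ha E.hd (ne_coord h)
  have := disc (q := E.a * (A - E.m).re * (B.re - A.re) + E.b * ((A - E.m).re * (B.im - A.im)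
      + (A - E.m).im * (B.re - A.re)) + E.c * (A - E.m).im * (B.im - A.im)) (r := E.q A - 1) hp (by
    unfold Tangent at ht
    convert ht using 2 with t
    simp only [Ellipse.q, Complex.sub_re, Complex.sub_im, Complex.add_re, Complex.add_im,
      Complex.mul_re, Complex.mul_im, Complex.ofReal_re, Complex.ofReal_im]
    constructor <;> intro h <;> linear_combination h)
  simp only [Ellipse.q, Complex.sub_re, Complex.sub_im] at this ⊢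
  linear_combination -this

theorem key (c1 c2 c3 k1 k2 k3 d1 d2 d3 : ℝ) :
    2 * trace (!![0, k3, k2; k3, 0, k1; k2, k1, 0] * !![0, d3, d2; d3, 0, d1; d2, d1, 0] *
      !![0, c3, c2; c3, 0, c1; c2, c1, 0] * !![0, d3, d2; d3, 0, d1; d2, d1, 0])
    = trace (!![0, d3, d2; d3, 0, d1; d2, d1, 0] * !![0, c3, c2; c3, 0, c1; c2, c1, 0]) *
      trace (!![0, k3, k2; k3, 0, k1; k2, k1, 0] * !![0, d3, d2; d3, 0, d1; d2, d1, (0 : ℝ)]) := by
  simp [trace, Fin.sum_univ_three]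
  ring

theorem key2 (c1 c2 c3 d1 d2 d3 : ℝ) :
    2 * trace (!![1, 1, 1; 1, 1, 1; 1, 1, 1] * !![0, d3, d2; d3, 0, d1; d2, d1, 0] *
      !![0, c3, c2; c3, 0, c1; c2, c1, 0] * !![0, d3, d2; d3, 0, d1; d2, d1, 0])
    = trace (!![0, d3, d2; d3, 0, d1; d2, d1, 0] * !![0, c3, c2; c3, 0, c1; c2, c1, 0]) *
      trace (!![1, 1, 1; 1, 1, 1; 1, 1, 1] * !![0, d3, d2; d3, 0, d1; d2, d1, (0 : ℝ)])
      + 4 * (c1 * (d2 * d3) + c2 * (d3 * d1) + c3 * (d1 * d2)) := by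
  simp [trace, Fin.sum_univ_three]
  ring

theorem conj_tr (V K C D D' : Matrix (Fin 3) (Fin 3) ℝ) (s : ℝ) (h : V * D' * Vᵀ = s • D) :
    s ^ 2 * (2 * trace (K * D * C * D) - trace (D * C) * trace (K * D))
    = 2 * trace ((Vᵀ * K * V) * D' * (Vᵀ * C * V) * D')
      - trace (D' * (Vᵀ * C * V)) * trace ((Vᵀ * K * V) * D') := by
  have e1 : trace ((Vᵀ * K * V) * D' * (Vᵀ * C * V) * D')
      = trace (K * (V * D' * Vᵀ) * C * (V * D' * Vᵀ)) := by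
    simp only [Matrix.mul_assoc]
    rw [trace_mul_comm Vᵀ]
    simp only [Matrix.mul_assoc]
  have e2 : trace (D' * (Vᵀ * C * V)) = trace ((V * D' * Vᵀ) * C) := by
    simp only [← Matrix.mul_assoc]
    rw [trace_mul_comm _ V]
    simp only [Matrix.mul_assoc]
  have e3 : trace ((Vᵀ * K * V) * D') = trace (K * (V * D' * Vᵀ)) := by
    simp only [Matrix.mul_assoc]
    rw [trace_mul_comm Vᵀ]
    simp only [Matrix.mul_assoc]
  rw [e1, e2, e3, h]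
  simp only [Matrix.mul_smul, Matrix.smul_mul, trace_smul, smul_eq_mul]
  ring

/-- bilinear form of the dual conic on the lines `pq` and `rs` -/
def dd (a b c p1 p2 q1 q2 r1 r2 s1 s2 : ℝ) : ℝ :=
  (a * c - b ^ 2) * (p1 * q2 - p2 * q1) * (r1 * s2 - r2 * s1)
    - (a * (q1 - p1) * (s1 - r1) + b * ((q1 - p1) * (s2 - r2) + (q2 - p2) * (s1 - r1))
      + c * (q2 - p2) * (s2 - r2))

theorem side {a b c N1 N2 N3 n1 n2 u1 u2 v1 v2 w1 w2 : ℝ} (ha : 0 < a) (hd : b ^ 2 < a * c)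
    (hN : 0 < N1) (hN' : N2 ^ 2 < N1 * N3)
    (hin : ∀ x y : ℝ, a * x ^ 2 + 2 * b * x * y + c * y ^ 2 = 1 →
      N1 * (x - n1) ^ 2 + 2 * N2 * (x - n1) * (y - n2) + N3 * (y - n2) ^ 2 < 1)
    (huv : v1 - u1 ≠ 0 ∨ v2 - u2 ≠ 0)
    (hu : N1 * (u1 - n1) ^ 2 + 2 * N2 * (u1 - n1) * (u2 - n2) + N3 * (u2 - n2) ^ 2 = 1)
    (hv : N1 * (v1 - n1) ^ 2 + 2 * N2 * (v1 - n1) * (v2 - n2) + N3 * (v2 - n2) ^ 2 = 1)
    (ht : dd a b c u1 u2 v1 v2 u1 u2 v1 v2 = 0)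
    (hdet : (v1 - u1) * (w2 - u2) - (v2 - u2) * (w1 - u1) ≠ 0) :
    0 < dd a b c w1 w2 u1 u2 u1 u2 v1 v2 * dd a b c v1 v2 w1 w2 u1 u2 v1 v2 := by
  obtain ⟨d1, hd1⟩ : ∃ d1, d1 = dd a b c w1 w2 u1 u2 u1 u2 v1 v2 := ⟨_, rfl⟩
  obtain ⟨d2, hd2⟩ : ∃ d2, d2 = dd a b c v1 v2 w1 w2 u1 u2 v1 v2 := ⟨_, rfl⟩
  obtain ⟨Δ, hΔ⟩ : ∃ Δ, Δ = (v1 - u1) * (w2 - u2) - (v2 - u2) * (w1 - u1) := ⟨_, rfl⟩
  rw [← hd1, ← hd2]
  rw [← hΔ] at hdet
  have hM := pos ha hd huv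
  have hδ : 0 < a * c - b ^ 2 := by linarith
  have hh : u1 * v2 - u2 * v1 ≠ 0 := by
    intro h0
    unfold dd at ht
    rw [h0] at ht
    linarith
  have hs : d1 + d2 = Δ * (a * c - b ^ 2) * (u1 * v2 - u2 * v1) := by
    rw [hd1, hd2, hΔ]; unfold dd at ht ⊢; linear_combination -ht
  have hx : d2 * u1 + d1 * v1 = Δ * (b * (v1 - u1) + c * (v2 - u2)) := by
    rw [hd1, hd2, hΔ]; unfold dd at ht ⊢; linear_combination -w1 * ht
  have hy : d2 * u2 + d1 * v2 = -Δ * (a * (v1 - u1) + b * (v2 - u2)) := by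
    rw [hd1, hd2, hΔ]; unfold dd at ht ⊢; linear_combination -w2 * ht
  have hs0 : d1 + d2 ≠ 0 := by rw [hs]; exact mul_ne_zero (mul_ne_zero hdet hδ.ne') hh
  clear hd1 hd2 hΔ
  have h1 := hin ((d2 * u1 + d1 * v1) / (d1 + d2)) ((d2 * u2 + d1 * v2) / (d1 + d2)) (by
    field_simp
    rw [hx, hy, hs]
    unfold dd at ht
    linear_combination (-Δ ^ 2 * (a * c - b ^ 2)) * ht)
  have hNp := pos hN hN' huv
  have h2 : (d1 + d2) ^ 2 * (N1 * ((d2 * u1 + d1 * v1) / (d1 + d2) - n1) ^ 2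
      + 2 * N2 * ((d2 * u1 + d1 * v1) / (d1 + d2) - n1) * ((d2 * u2 + d1 * v2) / (d1 + d2) - n2)
      + N3 * ((d2 * u2 + d1 * v2) / (d1 + d2) - n2) ^ 2 - 1)
      = -(d1 * d2) * (N1 * (v1 - u1) ^ 2 + 2 * N2 * (v1 - u1) * (v2 - u2) + N3 * (v2 - u2) ^ 2) := by
    field_simp
    linear_combination (d2 * (d1 + d2)) * hu + (d1 * (d1 + d2)) * hv
  have h3 : 0 < (d1 + d2) ^ 2 := by positivity
  by_contra hc
  push Not at hc
  have h4 := mul_pos h3 (sub_pos.2 h1)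
  have h5 := mul_nonneg (neg_nonneg.2 hc) hNp.le
  linarith

theorem dd_symm (a b c p1 p2 q1 q2 r1 r2 s1 s2 : ℝ) :
    dd a b c p1 p2 q1 q2 r1 r2 s1 s2 = dd a b c r1 r2 s1 s2 p1 p2 q1 q2 := by
  unfold dd; ring

theorem main {a b c N1 N2 N3 n1 n2 u1 u2 v1 v2 w1 w2 o1 o2 e : ℝ} (ha : 0 < a) (hd : b ^ 2 < a * c)
    (hN : 0 < N1) (hN' : N2 ^ 2 < N1 * N3)
    (hin : ∀ x y : ℝ, a * x ^ 2 + 2 * b * x * y + c * y ^ 2 = 1 →
      N1 * (x - n1) ^ 2 + 2 * N2 * (x - n1) * (y - n2) + N3 * (y - n2) ^ 2 < 1)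
    (huv : v1 - u1 ≠ 0 ∨ v2 - u2 ≠ 0) (hvw : w1 - v1 ≠ 0 ∨ w2 - v2 ≠ 0)
    (hwu : u1 - w1 ≠ 0 ∨ u2 - w2 ≠ 0)
    (hu : N1 * (u1 - n1) ^ 2 + 2 * N2 * (u1 - n1) * (u2 - n2) + N3 * (u2 - n2) ^ 2 = 1)
    (hv : N1 * (v1 - n1) ^ 2 + 2 * N2 * (v1 - n1) * (v2 - n2) + N3 * (v2 - n2) ^ 2 = 1)
    (hw : N1 * (w1 - n1) ^ 2 + 2 * N2 * (w1 - n1) * (w2 - n2) + N3 * (w2 - n2) ^ 2 = 1)
    (t3 : dd a b c u1 u2 v1 v2 u1 u2 v1 v2 = 0) (t1 : dd a b c v1 v2 w1 w2 v1 v2 w1 w2 = 0)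
    (t2 : dd a b c w1 w2 u1 u2 w1 w2 u1 u2 = 0)
    (ku : u1 ^ 2 + u2 ^ 2 - 2 * o1 * u1 - 2 * o2 * u2 + e = 0)
    (kv : v1 ^ 2 + v2 ^ 2 - 2 * o1 * v1 - 2 * o2 * v2 + e = 0)
    (kw : w1 ^ 2 + w2 ^ 2 - 2 * o1 * w1 - 2 * o2 * w2 + e = 0)
    {g Z : ℝ} (hg : g = N1 * n1 ^ 2 + 2 * N2 * n1 * n2 + N3 * n2 ^ 2 - 1)
    (hZ : Z = (a * c - b ^ 2) * g + (c * N1 - 2 * b * N2 + a * N3)) :
    e - 2 * o1 * (2 * (c * (N1 * n1 + N2 * n2) - b * (N2 * n1 + N3 * n2)) / Z)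
      - 2 * o2 * (2 * (a * (N2 * n1 + N3 * n2) - b * (N1 * n1 + N2 * n2)) / Z)
      = -(2 * ((c ^ 2 + b ^ 2) * N1 - 2 * b * (a + c) * N2 + (a ^ 2 + b ^ 2) * N3)
        + ((a * c - b ^ 2) * g - (c * N1 - 2 * b * N2 + a * N3)) * (a + c))
        / ((a * c - b ^ 2) * Z) := by
  have p3 := pos hN hN' huv
  have p1 := pos hN hN' hvw
  have p2 := pos hN hN' hwu
  obtain ⟨c1, hc1⟩ : ∃ x, x = -(N1 * (w1 - v1) ^ 2 + 2 * N2 * (w1 - v1) * (w2 - v2)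
    + N3 * (w2 - v2) ^ 2) / 2 := ⟨_, rfl⟩
  obtain ⟨c2, hc2⟩ : ∃ x, x = -(N1 * (u1 - w1) ^ 2 + 2 * N2 * (u1 - w1) * (u2 - w2)
    + N3 * (u2 - w2) ^ 2) / 2 := ⟨_, rfl⟩
  obtain ⟨c3, hc3⟩ : ∃ x, x = -(N1 * (v1 - u1) ^ 2 + 2 * N2 * (v1 - u1) * (v2 - u2)
    + N3 * (v2 - u2) ^ 2) / 2 := ⟨_, rfl⟩
  have n1' : c1 < 0 := by linarith
  have n2' : c2 < 0 := by linarith
  have n3' : c3 < 0 := by linarith
  let V : Matrix (Fin 3) (Fin 3) ℝ := !![u1, v1, w1; u2, v2, w2; 1, 1, 1]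
  let C : Matrix (Fin 3) (Fin 3) ℝ := !![N1, N2, -(N1 * n1 + N2 * n2); N2, N3, -(N2 * n1 + N3 * n2);
    -(N1 * n1 + N2 * n2), -(N2 * n1 + N3 * n2), g]
  let D : Matrix (Fin 3) (Fin 3) ℝ := !![-c, b, 0; b, -a, 0; 0, 0, a * c - b ^ 2]
  have hC : Vᵀ * C * V = !![0, c3, c2; c3, 0, c1; c2, c1, 0] := by
    ext i j
    fin_cases i <;> fin_cases j <;>
      simp [V, C, Matrix.mul_apply, Fin.sum_univ_three, hc1, hc2, hc3, hg] <;> linarith
  obtain ⟨Δ, hΔ⟩ : ∃ Δ, Δ = (v1 - u1) * (w2 - u2) - (v2 - u2) * (w1 - u1) := ⟨_, rfl⟩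
  have hV : V.det = Δ := by simp [V, det_fin_three, hΔ]; ring
  have hΔ0 : Δ ≠ 0 := by
    intro h0
    have h := congrArg det hC
    rw [det_mul, det_mul, hV, h0, mul_zero] at h
    simp [det_fin_three] at h
    have := mul_pos (mul_pos (neg_pos.2 n1') (neg_pos.2 n2')) (neg_pos.2 n3')
    linarith
  have s3 := side ha hd hN hN' hin huv hu hv t3 (w1 := w1) (w2 := w2) (hΔ ▸ hΔ0)
  have s1 := side ha hd hN hN' hin hvw hv hw t1 (w1 := u1) (w2 := u2)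
    (by intro h; apply hΔ0; rw [hΔ]; linear_combination h)
  have s2 := side ha hd hN hN' hin hwu hw hu t2 (w1 := v1) (w2 := v2)
    (by intro h; apply hΔ0; rw [hΔ]; linear_combination h)
  rw [dd_symm a b c u1 u2 v1 v2, dd_symm a b c w1 w2 u1 u2] at s1
  rw [dd_symm a b c u1 u2 v1 v2] at s2
  obtain ⟨d1, hd1⟩ : ∃ d1, d1 = dd a b c w1 w2 u1 u2 u1 u2 v1 v2 := ⟨_, rfl⟩
  obtain ⟨d2, hd2⟩ : ∃ d2, d2 = dd a b c v1 v2 w1 w2 u1 u2 v1 v2 := ⟨_, rfl⟩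
  obtain ⟨d3, hd3⟩ : ∃ d3, d3 = dd a b c v1 v2 w1 w2 w1 w2 u1 u2 := ⟨_, rfl⟩
  rw [← hd1, ← hd2] at s3
  rw [← hd2, ← hd3] at s1
  rw [← hd3, ← hd1] at s2
  have hD : V * !![0, d3, d2; d3, 0, d1; d2, d1, 0] * Vᵀ = (Δ ^ 2) • D := by
    unfold dd at hd1 hd2 hd3 t1 t2 t3
    ext i j
    fin_cases i <;> fin_cases j <;>
      simp [V, D, Matrix.mul_apply, Fin.sum_univ_three] <;> rw [hd1, hd2, hd3]
    · rw [hΔ]; linear_combination -u1 * u1 * t1 - v1 * v1 * t2 - w1 * w1 * t3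
    · rw [hΔ]; linear_combination -u1 * u2 * t1 - v1 * v2 * t2 - w1 * w2 * t3
    · linear_combination -u1 * t1 - v1 * t2 - w1 * t3
    · rw [hΔ]; linear_combination -u1 * u2 * t1 - v1 * v2 * t2 - w1 * w2 * t3
    · rw [hΔ]; linear_combination -u2 * u2 * t1 - v2 * v2 * t2 - w2 * w2 * t3
    · linear_combination -u2 * t1 - v2 * t2 - w2 * t3
    · linear_combination -u1 * t1 - v1 * t2 - w1 * t3
    · linear_combination -u2 * t1 - v2 * t2 - w2 * t3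
    · rw [hΔ]; linear_combination -t1 - t2 - t3
  let K : Matrix (Fin 3) (Fin 3) ℝ := !![1, 0, -o1; 0, 1, -o2; -o1, -o2, e]
  let K0 : Matrix (Fin 3) (Fin 3) ℝ := !![0, 0, 0; 0, 0, 0; 0, 0, 1]
  have hK : Vᵀ * K * V = !![0, -((v1 - u1) ^ 2 + (v2 - u2) ^ 2) / 2,
      -((u1 - w1) ^ 2 + (u2 - w2) ^ 2) / 2; -((v1 - u1) ^ 2 + (v2 - u2) ^ 2) / 2, 0,
      -((w1 - v1) ^ 2 + (w2 - v2) ^ 2) / 2; -((u1 - w1) ^ 2 + (u2 - w2) ^ 2) / 2,
      -((w1 - v1) ^ 2 + (w2 - v2) ^ 2) / 2, 0] := by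
    ext i j
    fin_cases i <;> fin_cases j <;>
      simp [V, K, Matrix.mul_apply, Fin.sum_univ_three] <;> linarith
  have hK0 : Vᵀ * K0 * V = !![1, 1, 1; 1, 1, 1; 1, 1, 1] := by
    ext i j
    fin_cases i <;> fin_cases j <;> simp [V, K0, Matrix.mul_apply, Fin.sum_univ_three]
  have e1 := conj_tr V K C D _ _ hD
  have e2 := conj_tr V K0 C D _ _ hD
  rw [hK, hC, key, sub_self] at e1
  rw [hK0, hC, key2, add_sub_cancel_left] at e2
  have e3 := (mul_eq_zero.1 e1).resolve_left (by positivity)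
  have hδ : 0 < a * c - b ^ 2 := by linarith
  have f2 : 2 * trace (K0 * D * C * D) - trace (D * C) * trace (K0 * D) = (a * c - b ^ 2) * Z := by
    simp [K0, D, C, trace, Fin.sum_univ_three, hZ]; ring
  have hZ0 : Z ≠ 0 := by
    intro h0
    rw [f2, h0] at e2
    have := mul_neg_of_neg_of_pos n1' s1
    have := mul_neg_of_neg_of_pos n2' s2
    have := mul_neg_of_neg_of_pos n3' s3
    linarith
  simp [K, D, C, trace, Fin.sum_univ_three] at e3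
  rw [eq_div_iff (mul_ne_zero hδ.ne' hZ0)]
  have i1 : Z⁻¹ * Z = 1 := inv_mul_cancel₀ hZ0
  simp only [div_eq_mul_inv]
  linear_combination e3 + (a * c - b ^ 2) * e * hZ
    - (a * c - b ^ 2) * (4 * o1 * (c * (N1 * n1 + N2 * n2) - b * (N2 * n1 + N3 * n2))
      + 4 * o2 * (a * (N2 * n1 + N3 * n2) - b * (N1 * n1 + N2 * n2))) * i1

theorem dist_sq' (z w : ℂ) : dist z w ^ 2 = (z.re - w.re) ^ 2 + (z.im - w.im) ^ 2 := by
  rw [Complex.dist_eq, Complex.sq_norm, Complex.normSq_apply]; simp; ring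

theorem Q1 (E Ec : Ellipse) (hin : Inside Ec E) : ∃ (P : ℂ) (k : ℝ), ∀ (A B C O : ℂ) (r : ℝ),
    Poncelet E Ec A B C → dist A O = r → dist B O = r → dist C O = r →
      dist P O ^ 2 - r ^ 2 = k := by
  obtain ⟨n1, hn1⟩ : ∃ x, x = E.m.re - Ec.m.re := ⟨_, rfl⟩
  obtain ⟨n2, hn2⟩ : ∃ x, x = E.m.im - Ec.m.im := ⟨_, rfl⟩
  obtain ⟨g, hg⟩ : ∃ x, x = E.a * n1 ^ 2 + 2 * E.b * n1 * n2 + E.c * n2 ^ 2 - 1 := ⟨_, rfl⟩
  obtain ⟨Z, hZ⟩ : ∃ x, x = (Ec.a * Ec.c - Ec.b ^ 2) * g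
    + (Ec.c * E.a - 2 * Ec.b * E.b + Ec.a * E.c) := ⟨_, rfl⟩
  obtain ⟨P1, hP1⟩ : ∃ x, x = 2 * (Ec.c * (E.a * n1 + E.b * n2) - Ec.b * (E.b * n1 + E.c * n2)) / Z :=
    ⟨_, rfl⟩
  obtain ⟨P2, hP2⟩ : ∃ x, x = 2 * (Ec.a * (E.b * n1 + E.c * n2) - Ec.b * (E.a * n1 + E.b * n2)) / Z :=
    ⟨_, rfl⟩
  refine ⟨⟨Ec.m.re + P1, Ec.m.im + P2⟩, P1 ^ 2 + P2 ^ 2 +
    -(2 * ((Ec.c ^ 2 + Ec.b ^ 2) * E.a - 2 * Ec.b * (Ec.a + Ec.c) * E.b + (Ec.a ^ 2 + Ec.b ^ 2) * E.c)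
        + ((Ec.a * Ec.c - Ec.b ^ 2) * g - (Ec.c * E.a - 2 * Ec.b * E.b + Ec.a * E.c)) * (Ec.a + Ec.c))
        / ((Ec.a * Ec.c - Ec.b ^ 2) * Z), ?_⟩
  rintro A B C O r ⟨hAB, hBC, hCA, hA, hB, hC, tAB, tBC, tCA⟩ rA rB rC
  have t3 := tang hAB tAB
  have t1 := tang hBC tBC
  have t2 := tang hCA tCA
  have kA := dist_sq' A O
  have kB := dist_sq' B O
  have kC := dist_sq' C O
  rw [rA] at kA
  rw [rB] at kB
  rw [rC] at kC
  simp only [Ellipse.q, Complex.sub_re, Complex.sub_im] at hA hB hC t1 t2 t3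
  have h := main (u1 := A.re - Ec.m.re) (u2 := A.im - Ec.m.im) (v1 := B.re - Ec.m.re)
    (v2 := B.im - Ec.m.im) (w1 := C.re - Ec.m.re) (w2 := C.im - Ec.m.im)
    (o1 := O.re - Ec.m.re) (o2 := O.im - Ec.m.im)
    (e := (O.re - Ec.m.re) ^ 2 + (O.im - Ec.m.im) ^ 2 - r ^ 2) (n1 := n1) (n2 := n2)
    Ec.ha Ec.hd E.ha E.hd
    (by
      intro x y hxy
      have := hin ⟨Ec.m.re + x, Ec.m.im + y⟩ (by simpa [Ellipse.q] using hxy)
      simp only [Ellipse.q, Complex.sub_re, Complex.sub_im] at this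
      rw [hn1, hn2]
      convert this using 1
      ring)
    (by simpa using ne_coord hAB) (by simpa using ne_coord hBC) (by simpa using ne_coord hCA)
    (by rw [hn1, hn2]; linear_combination hA) (by rw [hn1, hn2]; linear_combination hB)
    (by rw [hn1, hn2]; linear_combination hC)
    (by unfold dd; linear_combination t3) (by unfold dd; linear_combination t1)
    (by unfold dd; linear_combination t2)
    (by linear_combination -kA) (by linear_combination -kB) (by linear_combination -kC) hg hZ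
  rw [← hP1, ← hP2] at h
  rw [dist_sq', ← h]
  ring

noncomputable def s : ℝ := Real.sqrt 7

theorem hs : s ^ 2 = 7 := Real.sq_sqrt (by norm_num)

theorem hs0 : 0 < s := Real.sqrt_pos.2 (by norm_num)

noncomputable def E0 : Ellipse :=
  ⟨0, 1 / 64, s / 2240, 13 / 2240, by norm_num, by rw [div_pow, hs]; norm_num⟩

noncomputable def E1 : Ellipse :=
  ⟨⟨-2 / 5, 2 * s⟩, 5 / 64, s / 448, 81 / 2240, by norm_num, by rw [div_pow, hs]; norm_num⟩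

noncomputable def L (x y : ℝ) : ℂ := ⟨8 * x - y, 5 * s * y⟩

theorem q0 (x y : ℝ) : E0.q (L x y) = x ^ 2 + y ^ 2 := by
  simp only [Ellipse.q, E0, L, sub_zero]
  linear_combination ((8 * x - y) * y / 224 + 65 / 448 * y ^ 2) * hs

theorem q1 (x y : ℝ) : E1.q (L x y) = 5 * x ^ 2 + 25 / 4 * (y - 2 / 5) ^ 2 := by
  simp only [Ellipse.q, E1, L, Complex.sub_re, Complex.sub_im]
  linear_combination ((8 * x - y + 2 / 5) * (5 * y - 2) / 224 + 81 / 2240 * (5 * y - 2) ^ 2) * hs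

theorem L_line (x y x' y' t : ℝ) :
    L x y + t * (L x' y' - L x y) = L (x + t * (x' - x)) (y + t * (y' - y)) := by
  apply Complex.ext <;> simp [L] <;> ring

theorem L_mid (x y x' y' : ℝ) : (L x y + L x' y') / 2 = L ((x + x') / 2) ((y + y') / 2) := by
  apply Complex.ext <;> simp [L] <;> ring

theorem L_dist (x y x' y' : ℝ) : dist (L x y) (L x' y') ^ 2
    = 64 * (x - x') ^ 2 - 16 * (x - x') * (y - y') + 176 * (y - y') ^ 2 := by
  rw [dist_sq']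
  simp only [L]
  linear_combination 25 * (y - y') ^ 2 * hs

theorem L_surj (z : ℂ) : ∃ x y, z = L x y := by
  refine ⟨(z.re + z.im / (5 * s)) / 8, z.im / (5 * s), ?_⟩
  have := hs0.ne'
  apply Complex.ext <;> simp only [L]
  · ring
  · field_simp

theorem L_ne {x y x' y' : ℝ} (h : 8 * x - y ≠ 8 * x' - y') : L x y ≠ L x' y' :=
  fun e => h (congrArg Complex.re e)

theorem L_tan {x y x' y' : ℝ} (t0 p : ℝ) (hp : p ≠ 0)
    (h : ∀ t : ℝ, 5 * (x + t * (x' - x)) ^ 2 + 25 / 4 * (y + t * (y' - y) - 2 / 5) ^ 2 - 1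
      = p * (t - t0) ^ 2) : Tangent E1 (L x y) (L x' y') := by
  refine ⟨t0, ?_, fun t ht => ?_⟩
  · show E1.q _ = 1
    rw [L_line, q1]
    linear_combination h t0
  · replace ht : E1.q _ = 1 := ht
    rw [L_line, q1] at ht
    have : p * (t - t0) ^ 2 = 0 := by linear_combination ht - h t
    have := (mul_eq_zero.1 this).resolve_left hp
    exact sub_eq_zero.1 (pow_eq_zero_iff (by norm_num) |>.1 this)

theorem L_r {x y x' y' ρ : ℝ}
    (h : 64 * (x - x') ^ 2 - 16 * (x - x') * (y - y') + 176 * (y - y') ^ 2 = ρ) :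
    dist (L x y) (L x' y') = Real.sqrt ρ := by
  rw [← h, ← L_dist, Real.sqrt_sq dist_nonneg]

theorem T1 : Poncelet E0 E1 (L 1 0) (L 0 1) (L (-1) 0) :=
  ⟨L_ne (by norm_num), L_ne (by norm_num), L_ne (by norm_num), by rw [q0]; norm_num,
    by rw [q0]; norm_num, by rw [q0]; norm_num,
    L_tan (2 / 3) (45 / 4) (by norm_num) (fun t => by ring),
    L_tan (1 / 3) (45 / 4) (by norm_num) (fun t => by ring),
    L_tan (1 / 2) 20 (by norm_num) (fun t => by ring)⟩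

theorem T2 : Poncelet E0 E1 (L (-3 / 5) (4 / 5)) (L 0 (-1)) (L (3 / 5) (4 / 5)) :=
  ⟨L_ne (by norm_num), L_ne (by norm_num), L_ne (by norm_num), by rw [q0]; norm_num,
    by rw [q0]; norm_num, by rw [q0]; norm_num,
    L_tan (2 / 7) (441 / 20) (by norm_num) (fun t => by ring),
    L_tan (5 / 7) (441 / 20) (by norm_num) (fun t => by ring),
    L_tan (1 / 2) (36 / 5) (by norm_num) (fun t => by ring)⟩

theorem T3 : Poncelet E0 E1 (L (-4 / 5) (3 / 5)) (L (3 / 5) (-4 / 5)) (L (5 / 13) (12 / 13)) :=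
  ⟨L_ne (by norm_num), L_ne (by norm_num), L_ne (by norm_num), by rw [q0]; norm_num,
    by rw [q0]; norm_num, by rw [q0]; norm_num,
    L_tan (1 / 3) (441 / 20) (by norm_num) (fun t => by ring),
    L_tan (13 / 18) (15876 / 845) (by norm_num) (fun t => by ring),
    L_tan (10 / 23) (25921 / 3380) (by norm_num) (fun t => by ring)⟩

theorem both :
    (∀ E Ec : Ellipse, Inside Ec E → ∃ (P : ℂ) (k : ℝ), ∀ (A B C O : ℂ) (r : ℝ),
      Poncelet E Ec A B C → dist A O = r → dist B O = r → dist C O = r →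
        dist P O ^ 2 - r ^ 2 = k) ∧
    (∃ E Ec : Ellipse, Inside Ec E ∧ E.m ≠ Ec.m ∧ E.b * (Ec.a - Ec.c) ≠ Ec.b * (E.a - E.c) ∧
      (∃ A B C, Poncelet E Ec A B C) ∧
      ¬ ∃ (P : ℂ) (k : ℝ), ∀ (A B C O : ℂ) (r : ℝ), Poncelet E Ec A B C →
        dist ((A + B) / 2) O = r → dist ((B + C) / 2) O = r → dist ((C + A) / 2) O = r →
          dist P O ^ 2 - r ^ 2 = k) := by
  refine ⟨Q1, E0, E1, ?_, ?_, ?_, ⟨_, _, _, T1⟩, ?_⟩
  · intro z hz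
    obtain ⟨x, y, rfl⟩ := L_surj z
    rw [q1] at hz
    rw [q0]
    nlinarith [sq_nonneg x, sq_nonneg (y - 2 / 5), sq_nonneg (y - 4 / 5), sq_nonneg y]
  · intro h
    have := congrArg Complex.re h
    simp [E0, E1] at this
    norm_num at this
  · simp only [E0, E1]
    have := hs0
    intro h
    linarith
  · rintro ⟨P, k, h⟩
    obtain ⟨x, y, rfl⟩ := L_surj P
    have h1 := h _ _ _ (L (-1 / 50) (17 / 50)) (Real.sqrt (512 / 25)) T1
      (by rw [L_mid]; exact L_r (by norm_num)) (by rw [L_mid]; exact L_r (by norm_num))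
      (by rw [L_mid]; exact L_r (by norm_num))
    have h2 := h _ _ _ (L (19 / 350) (117 / 350)) (Real.sqrt (6784 / 175)) T2
      (by rw [L_mid]; exact L_r (by norm_num)) (by rw [L_mid]; exact L_r (by norm_num))
      (by rw [L_mid]; exact L_r (by norm_num))
    have h3 := h _ _ _ (L (-13 / 350) (1553 / 4550)) (Real.sqrt (1008128 / 29575)) T3
      (by rw [L_mid]; exact L_r (by norm_num)) (by rw [L_mid]; exact L_r (by norm_num))
      (by rw [L_mid]; exact L_r (by norm_num))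
    rw [L_dist, Real.sq_sqrt (by norm_num)] at h1 h2 h3
    nlinarith

end Pool.Agent.H67.PoncPow
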