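import Mathlib

/-! Power-commutativity fails in arbitrarily high degree: a Heisenberg recursion. -/

namespace Pool.Agent.H67.PowComm

structure Data (R : Type) [CommRing R] where
  C : Type
  [acg : AddCommGroup C]
  [md : Module R C]
  m : C →ₗ[R] C →ₗ[R] C
  b : C →ₗ[R] C →ₗ[R] R
  comm : ∀ x y, m x y = m y x

attribute [instance] Data.acg Data.md

variable {R : Type} [CommRing R] (D : Data R)

def ev (a : D.C) : FreeMagma Unit → D.C
  | .of _ => a
  | .mul u v => D.m (ev a u) (ev a v)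

def Good (N : ℕ) : Prop := ∀ (a : D.C) (u v : FreeMagma Unit), u.length + v.length ≤ N →
  D.b (ev D a u) (ev D a v) = D.b (ev D a v) (ev D a u)

def Bad : Prop := ∃ (a : D.C) (u v : FreeMagma Unit),
  D.b a (ev D a (.mul u v)) ≠ D.b (ev D a (.mul u v)) a

abbrev M := R × D.C × R

def rho : D.C →ₗ[R] M D →ₗ[R] M D := LinearMap.mk₂ R (fun h p => (0, p.1 • h, D.b h p.2.1))
  (fun _ _ _ => by ext <;> simp) (fun _ _ _ => by ext <;> simp [smul_smul, mul_comm])
  (fun _ _ _ => by ext <;> simp [add_smul]) (fun _ _ _ => by ext <;> simp [smul_smul])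

def rho' : D.C →ₗ[R] M D →ₗ[R] M D := LinearMap.mk₂ R (fun h p => (0, p.1 • h, D.b p.2.1 h))
  (fun _ _ _ => by ext <;> simp) (fun _ _ _ => by ext <;> simp [smul_smul, mul_comm])
  (fun _ _ _ => by ext <;> simp [add_smul]) (fun _ _ _ => by ext <;> simp [smul_smul])

def pr : M D →ₗ[R] M D →ₗ[R] R :=
  LinearMap.mk₂ R (fun q p => q.1 * p.2.2 + D.b q.2.1 p.2.1 + q.2.2 * p.1)
  (fun _ _ _ => by simp; ring) (fun _ _ _ => by simp; ring)
  (fun _ _ _ => by simp; ring) (fun _ _ _ => by simp; ring)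

theorem rho_ap (h : D.C) (p : M D) : rho D h p = (0, p.1 • h, D.b h p.2.1) := rfl
theorem rho'_ap (h : D.C) (p : M D) : rho' D h p = (0, p.1 • h, D.b p.2.1 h) := rfl
theorem pr_ap (q p : M D) : pr D q p = q.1 * p.2.2 + D.b q.2.1 p.2.1 + q.2.2 * p.1 := rfl

theorem pr_rho (h : D.C) (q p : M D) : pr D (rho' D h q) p = pr D q (rho D h p) := by
  simp [pr_ap, rho_ap, rho'_ap]; ring

@[reducible] def step : Data R where
  C := D.C × M D × M D
  m := LinearMap.mk₂ R (fun x y => (D.m x.1 y.1, rho D x.1 y.2.1 + rho D y.1 x.2.1,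
    rho' D x.1 y.2.2 + rho' D y.1 x.2.2))
    (fun _ _ _ => by simp; constructor <;> abel) (fun _ _ _ => by simp)
    (fun _ _ _ => by simp; constructor <;> abel) (fun _ _ _ => by simp)
  b := LinearMap.mk₂ R (fun x y => pr D x.2.2 y.2.1) (fun _ _ _ => by simp) (fun _ _ _ => by simp)
    (fun _ _ _ => by simp) (fun _ _ _ => by simp)
  comm x y := by simp [D.comm x.1, add_comm]

def P (h : D.C) : FreeMagma Unit → Module.End R (M D)
  | .of _ => 1
  | .mul u v => rho D (ev D h u) * P h v + rho D (ev D h v) * P h u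

theorem ev1 (a : (step D).C) (u : FreeMagma Unit) : (ev (step D) a u).1 = ev D a.1 u := by
  induction u with
  | ih1 _ => rfl
  | ih2 u v h1 h2 => exact congrArg₂ (fun x y => D.m x y) h1 h2

theorem ev2 (a : (step D).C) (u : FreeMagma Unit) :
    (ev (step D) a u).2.1 = P D a.1 u a.2.1 := by
  induction u with
  | ih1 _ => rfl
  | ih2 u v h1 h2 =>
    change rho D (ev (step D) a u).1 (ev (step D) a v).2.1 +
      rho D (ev (step D) a v).1 (ev (step D) a u).2.1 = _
    rw [h1, h2, ev1, ev1]; rfl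

theorem ev3 (a : (step D).C) (u v : FreeMagma Unit) : (ev (step D) a (u * v)).2.2 =
    rho' D (ev D a.1 u) (ev (step D) a v).2.2 + rho' D (ev D a.1 v) (ev (step D) a u).2.2 := by
  rw [← ev1, ← ev1]; rfl

theorem len_pos (u : FreeMagma Unit) : 0 < u.length := by
  induction u with
  | ih1 _ => exact one_pos
  | ih2 u v h1 _ => exact Nat.add_pos_left h1 _

theorem good_step {N : ℕ} (h : Good D N) : Good (step D) (N + 2) := by
  intro a u v huv
  have hl : ∀ u v : FreeMagma Unit, (u * v).length = u.length + v.length := fun _ _ => rfl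
  have hP : ∀ u v : FreeMagma Unit, P D a.1 (u * v) =
      rho D (ev D a.1 u) * P D a.1 v + rho D (ev D a.1 v) * P D a.1 u := fun _ _ => rfl
  have h0 : ∀ u v : FreeMagma Unit, u.length + v.length ≤ N →
      Commute (rho D (ev D a.1 u)) (rho D (ev D a.1 v)) := fun u v e =>
    LinearMap.ext fun p => by simp [rho_ap, h a.1 u v e]
  have hA : ∀ u w : FreeMagma Unit, w.length + u.length ≤ N + 1 →
      Commute (rho D (ev D a.1 w)) (P D a.1 u) := by
    intro u
    induction u with
    | ih1 _ => exact fun _ _ => Commute.one_right _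
    | ih2 u v h1 h2 =>
      intro w e
      have := len_pos u; have := len_pos v
      rw [hl] at e
      rw [hP]
      exact ((h0 w u (by omega)).mul_right (h2 w (by omega))).add_right
        ((h0 w v (by omega)).mul_right (h1 w (by omega)))
  have hC : ∀ u v : FreeMagma Unit, u.length + v.length ≤ N + 2 →
      Commute (P D a.1 u) (P D a.1 v) := by
    intro u
    induction u with
    | ih1 _ => exact fun _ _ => Commute.one_left _
    | ih2 u v h1 h2 =>
      intro w e
      have := len_pos u; have := len_pos v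
      rw [hl] at e
      rw [hP]
      exact ((hA w u (by omega)).mul_left (h2 w (by omega))).add_left
        ((hA w v (by omega)).mul_left (h1 w (by omega)))
  have hB : ∀ u : FreeMagma Unit, u.length ≤ N + 1 → ∀ y,
      pr D (ev (step D) a u).2.2 y = pr D a.2.2 (P D a.1 u y) := by
    intro u
    induction u with
    | ih1 _ => exact fun _ _ => rfl
    | ih2 u v h1 h2 =>
      intro e y
      have := len_pos u; have := len_pos v
      rw [hl] at e
      rw [ev3, map_add, LinearMap.add_apply, pr_rho, pr_rho, h1 (by omega), h2 (by omega), hP,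
        (hA v u (by omega)).eq, (hA u v (by omega)).eq]
      simp
  have := len_pos u; have := len_pos v
  change pr D (ev (step D) a u).2.2 (ev (step D) a v).2.1 =
    pr D (ev (step D) a v).2.2 (ev (step D) a u).2.1
  rw [hB u (by omega), hB v (by omega), ev2, ev2]
  exact congrArg (fun f : Module.End R (M D) => pr D a.2.2 (f a.2.1)) (hC u v huv).eq

theorem bad_step (h : Bad D) : Bad (step D) := by
  obtain ⟨a, u, v, h⟩ := h
  let x : (step D).C := (a, (1, 0, 0), (1, 0, 0))
  refine ⟨x, .of () * (u * v), .of (), ?_⟩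
  have h1 : (ev (step D) x (u * v)).2.1.1 = 0 := add_zero _
  have h2 : (ev (step D) x (u * v)).2.2.1 = 0 := add_zero _
  have h3 : (ev (step D) x (u * v)).1 = ev D a (.mul u v) := ev1 D x _
  change pr D x.2.2 ((step D).m ((step D).m x (ev (step D) x (u * v))) x).2.1 ≠
    pr D ((step D).m ((step D).m x (ev (step D) x (u * v))) x).2.2 x.2.1
  generalize ev (step D) x (u * v) = y at *
  simpa [x, pr_ap, rho_ap, rho'_ap, h1, h2, h3] using h

@[reducible] def base (R : Type) [CommRing R] : Data R where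
  C := R × R
  m := LinearMap.mk₂ R (fun x y => (0, x.1 * y.1)) (fun _ _ _ => by simp; ring)
    (fun _ _ _ => by simp; ring) (fun _ _ _ => by simp; ring) (fun _ _ _ => by simp; ring)
  b := LinearMap.mk₂ R (fun x y => x.1 * y.2) (fun _ _ _ => by simp; ring)
    (fun _ _ _ => by simp; ring) (fun _ _ _ => by simp; ring) (fun _ _ _ => by simp; ring)
  comm x y := by simp [mul_comm]

def DD (R : Type) [CommRing R] : ℕ → Data R
  | 0 => base R
  | n + 1 => step (DD R n)

theorem good_DD (n : ℕ) : Good (DD R n) (2 * n) := by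
  induction n with
  | zero => intro a u v h; have := len_pos u; omega
  | succ n ih => exact good_step _ ih

theorem bad_DD (n : ℕ) : Bad (DD ℚ n) := by
  induction n with
  | zero =>
    change Bad (base ℚ)
    exact ⟨((1, 0) : ℚ × ℚ), .of (), .of (), by simp [ev]⟩
  | succ n ih => exact bad_step _ ih

variable [Algebra ℚ R]

structure Mor (E : Data ℚ) (D : Data R) (ε : R →+ ℚ) where
  g : E.C →+ D.C
  k : D.C →+ E.C
  gm : ∀ x y, g (E.m x y) = D.m (g x) (g y)
  gb : ∀ x y, D.b (g x) (g y) = algebraMap ℚ R (E.b x y)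
  gs : ∀ (c : ℚ) x, g (c • x) = algebraMap ℚ R c • g x
  ks : ∀ (r : R) y, k (r • g y) = ε r • y

def al (R : Type) [CommRing R] [Algebra ℚ R] : ℚ →+ R := (algebraMap ℚ R : ℚ →+* R)

theorem al_ap (c : ℚ) : al R c = algebraMap ℚ R c := rfl

theorem eps (ε : R →+ ℚ) (r : R) (c : ℚ) : ε (r * algebraMap ℚ R c) = ε r * c := by
  rw [mul_comm, ← Algebra.smul_def, map_rat_smul, smul_eq_mul, mul_comm]

def Mor.step {E : Data ℚ} {D : Data R} {ε : R →+ ℚ} (φ : Mor E D ε) : Mor (step E) (step D) ε where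
  g := φ.g.prodMap (((al R).prodMap (φ.g.prodMap (al R))).prodMap
    ((al R).prodMap (φ.g.prodMap (al R))))
  k := φ.k.prodMap ((ε.prodMap (φ.k.prodMap ε)).prodMap (ε.prodMap (φ.k.prodMap ε)))
  gm x y := by simp [rho_ap, rho'_ap, φ.gm, φ.gb, φ.gs, al_ap]
  gb x y := by simp [pr_ap, φ.gb, al_ap]
  gs c x := by
    obtain ⟨a, ⟨b, d, e⟩, f, h, i⟩ := x
    simp [φ.gs, al_ap]
  ks r y := by
    obtain ⟨a, ⟨b, d, e⟩, f, h, i⟩ := y
    simp [φ.ks, al_ap, eps]

def mor0 (ε : R →+ ℚ) : Mor (base ℚ) (base R) ε where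
  g := (al R).prodMap (al R)
  k := ε.prodMap ε
  gm := fun x y => by simp [al_ap, Prod.map]
  gb := fun x y => by simp [al_ap]
  gs := fun c x => by obtain ⟨a, b⟩ := x; simp [al_ap, Algebra.smul_def]
  ks := fun r y => by obtain ⟨a, b⟩ := y; simp [al_ap, eps]

def mor (ε : R →+ ℚ) : ∀ n, Mor (DD ℚ n) (DD R n) ε
  | 0 => mor0 ε
  | n + 1 => (mor ε n).step

def Alg (D : Data R) (_ : R) : Type := D.C × R

variable (τ : R)

instance : AddCommGroup (Alg D τ) := inferInstanceAs (AddCommGroup (D.C × R))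

def mu (x y : D.C × R) : D.C × R := τ • (D.m x.1 y.1, D.b x.1 y.1)

omit [Algebra ℚ R] in
theorem mu_l (c : R) (x y : D.C × R) : mu D τ (c • x) y = c • mu D τ x y := by
  simp [mu, smul_smul, mul_comm, mul_left_comm]

omit [Algebra ℚ R] in
theorem mu_r (c : R) (x y : D.C × R) : mu D τ x (c • y) = c • mu D τ x y := by
  simp [mu, smul_smul, mul_comm, mul_left_comm]

instance : NonUnitalNonAssocRing (Alg D τ) :=
  { (inferInstance : AddCommGroup (Alg D τ)) with
    mul := mu D τ
    left_distrib := fun (x y z : D.C × R) =>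
      (by simp [mu, mul_add] : mu D τ x (y + z) = mu D τ x y + mu D τ x z)
    right_distrib := fun (x y z : D.C × R) =>
      (by simp [mu, mul_add] : mu D τ (x + y) z = mu D τ x z + mu D τ y z)
    zero_mul := fun (x : D.C × R) => (by simp [mu] : mu D τ 0 x = 0)
    mul_zero := fun (x : D.C × R) => (by simp [mu] : mu D τ x 0 = 0) }

instance : Module ℚ (Alg D τ) := Module.compHom (D.C × R) (algebraMap ℚ R)

instance : IsScalarTower ℚ (Alg D τ) (Alg D τ) := ⟨fun c x y => mu_l D τ _ x y⟩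

instance : SMulCommClass ℚ (Alg D τ) (Alg D τ) := ⟨fun c x y => (mu_r D τ _ x y).symm⟩

def PC (A : Type) [NonUnitalNonAssocRing A] [Module ℚ A] [IsScalarTower ℚ A A]
    [SMulCommClass ℚ A A] : Prop :=
  ∀ x : A, ∀ a ∈ NonUnitalAlgebra.adjoin ℚ ({x} : Set A),
    ∀ b ∈ NonUnitalAlgebra.adjoin ℚ ({x} : Set A), a * b = b * a

theorem lift1 (x : Alg D τ) (u : FreeMagma Unit) :
    (FreeMagma.lift (fun _ => x) u).1 = τ ^ (u.length - 1) • ev D x.1 u := by
  induction u with
  | ih1 _ => exact (one_smul R x.1).symm.trans (by simp [ev])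
  | ih2 u v h1 h2 =>
    rw [map_mul]
    change τ • D.m _ _ = τ ^ (u.length + v.length - 1) • D.m (ev D x.1 u) (ev D x.1 v)
    have := len_pos u; have := len_pos v
    rw [h1, h2, show u.length + v.length - 1 = (u.length - 1) + (v.length - 1) + 1 by omega]
    simp [smul_smul, pow_succ, pow_add, mul_comm, mul_left_comm]

theorem pc {N : ℕ} (h : Good D N) (hτ : τ ^ N = 0) : PC (Alg D τ) := by
  intro x
  let S := Submodule.span ℚ (Set.range (FreeMagma.lift (fun _ : Unit => x)))
  have h1 : ∀ a ∈ NonUnitalAlgebra.adjoin ℚ ({x} : Set (Alg D τ)), a ∈ S := by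
    intro a ha
    induction ha using NonUnitalAlgebra.adjoin_induction with
    | mem y hy => exact Submodule.subset_span ⟨.of (), hy.symm⟩
    | add _ _ _ _ h1 h2 => exact S.add_mem h1 h2
    | zero => exact S.zero_mem
    | smul c _ _ h => exact S.smul_mem c h
    | mul a b _ _ h1 h2 =>
      refine Submodule.span_induction₂ (p := fun a b _ _ => a * b ∈ S) ?_ (by simp) (by simp)
        (fun _ _ _ _ _ _ h h' => by rw [add_mul]; exact S.add_mem h h')
        (fun _ _ _ _ _ _ h h' => by rw [mul_add]; exact S.add_mem h h')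
        (fun c _ _ _ _ h => by rw [smul_mul_assoc]; exact S.smul_mem c h)
        (fun c _ _ _ _ h => by rw [mul_smul_comm]; exact S.smul_mem c h) h1 h2
      rintro _ _ ⟨u, rfl⟩ ⟨v, rfl⟩
      exact Submodule.subset_span ⟨u * v, map_mul _ _ _⟩
  intro a ha b hb
  refine Submodule.span_induction₂ (p := fun a b _ _ => a * b = b * a) ?_ (by simp) (by simp)
    (fun _ _ _ _ _ _ h h' => by rw [add_mul, mul_add, h, h'])
    (fun _ _ _ _ _ _ h h' => by rw [add_mul, mul_add, h, h'])
    (fun c _ _ _ _ h => by rw [smul_mul_assoc, mul_smul_comm, h])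
    (fun c _ _ _ _ h => by rw [smul_mul_assoc, mul_smul_comm, h]) (h1 a ha) (h1 b hb)
  rintro _ _ ⟨u, rfl⟩ ⟨v, rfl⟩
  change mu D τ _ _ = mu D τ _ _
  rw [mu, mu, D.comm, lift1, lift1]
  refine Prod.ext rfl ?_
  have := len_pos u; have := len_pos v
  by_cases hN : u.length + v.length ≤ N
  · simp [h x.1 u v hN, mul_left_comm]
  · have e : τ * (τ ^ (u.length - 1) * τ ^ (v.length - 1)) = 0 := by
      rw [← pow_add, ← pow_succ']
      exact pow_eq_zero_of_le (by omega) hτ
    simp only [Prod.smul_snd, map_smul, LinearMap.smul_apply, smul_eq_mul]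
    linear_combination (D.b (ev D x.1 u) (ev D x.1 v) - D.b (ev D x.1 v) (ev D x.1 u)) * e

theorem not_pc (E : Data ℚ) (h : Bad E) : ¬ PC (Alg E 1) := by
  obtain ⟨a, u, v, h⟩ := h
  intro hp
  let x : Alg E 1 := (a, 0)
  have h1 : ∀ w : FreeMagma Unit, FreeMagma.lift (fun _ => x) w ∈
      NonUnitalAlgebra.adjoin ℚ ({x} : Set (Alg E 1)) := by
    intro w
    induction w with
    | ih1 _ => exact NonUnitalAlgebra.subset_adjoin ℚ rfl
    | ih2 u v h1 h2 => rw [map_mul]; exact mul_mem h1 h2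
  have := congrArg Prod.snd (hp x _ (h1 (.of ())) _ (h1 (u * v)))
  change (mu E 1 _ _).2 = (mu E 1 _ _).2 at this
  rw [mu, mu, lift1, lift1] at this
  exact h (by simpa [ev] using this)

def lf (v : ℕ → D.C × R) (w : FreeMagma ℕ) : D.C × R :=
  FreeMagma.lift (β := Alg D τ) v w

theorem lf_mul (v : ℕ → D.C × R) (u w : FreeMagma ℕ) :
    lf D τ v (u * w) = mu D τ (lf D τ v u) (lf D τ v w) := rfl

theorem lf_sum (v : ℕ → Alg D τ) (f : MonoidAlgebra ℚ (FreeMagma ℕ)) :
    MonoidAlgebra.liftMagma ℚ (FreeMagma.lift v) f =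
      (f.coeff.sum fun w c => algebraMap ℚ R c • lf D τ v w : D.C × R) := rfl

theorem transfer {E : Data ℚ} {ε : R →+ ℚ} (φ : Mor E D ε) (f : MonoidAlgebra ℚ (FreeMagma ℕ))
    (hf : ∀ w ∈ f.coeff.support, ε (τ ^ (w.length - 1)) = 1) (v : ℕ → Alg E 1)
    (h : ∀ v : ℕ → Alg D τ, MonoidAlgebra.liftMagma ℚ (FreeMagma.lift v) f = 0) :
    MonoidAlgebra.liftMagma ℚ (FreeMagma.lift v) f = 0 := by
  let G : E.C × ℚ →+ D.C × R := φ.g.prodMap (al R)
  let K : D.C × R →+ E.C × ℚ := φ.k.prodMap ε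
  have hG : ∀ w : FreeMagma ℕ, lf D τ (fun i => G (v i)) w =
      τ ^ (w.length - 1) • G (lf E 1 v w) := by
    intro w
    induction w with
    | ih1 i => exact (one_smul R (G (v i))).symm.trans (by rw [← pow_zero τ]; rfl)
    | ih2 u w h1 h2 =>
      have : 0 < u.length := FreeMagma.length_pos u
      have : 0 < w.length := FreeMagma.length_pos w
      rw [lf_mul, lf_mul, h1, h2, mu_l, mu_r,
        show (u * w).length - 1 = (u.length - 1) + (w.length - 1) + 1 by
          change u.length + w.length - 1 = _; omega]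
      simp [mu, G, φ.gm, φ.gb, al_ap, smul_smul, pow_succ, pow_add, mul_assoc]
  have hK : ∀ (r : R) (y : E.C × ℚ), K (r • G y) = ε r • y := fun r y => by
    obtain ⟨a, b⟩ := y
    simp [K, G, φ.ks, al_ap, eps]
  have h0 : (f.coeff.sum fun w c => algebraMap ℚ R c • lf D τ (fun i => G (v i)) w :
    D.C × R) = 0 := h fun i => G (v i)
  have h1 := congrArg K h0
  rw [map_zero, map_finsuppSum] at h1
  refine (lf_sum E 1 v f).trans (Eq.trans ?_ h1)
  refine Finset.sum_congr rfl fun w hw => ?_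
  simp only
  rw [hG, smul_smul, hK, mul_comm, eps, hf w hw, one_mul]
  rfl

end Pool.Agent.H67.PowComm
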