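import Mathlib

namespace Pool.Agent.H67.SD

open scoped commutatorElement

/-- affine semidirect product -/
@[ext] structure Aff (V K : Type) where
  v : V
  g : K

variable {V K : Type} [AddCommGroup V] [Group K] [DistribMulAction K V]

instance : Mul (Aff V K) := ⟨fun a b => ⟨a.v + a.g • b.v, a.g * b.g⟩⟩
instance : One (Aff V K) := ⟨⟨0, 1⟩⟩
instance : Inv (Aff V K) := ⟨fun a => ⟨-(a.g⁻¹ • a.v), a.g⁻¹⟩⟩

@[simp] theorem mul_v (a b : Aff V K) : (a * b).v = a.v + a.g • b.v := rfl
@[simp] theorem mul_g (a b : Aff V K) : (a * b).g = a.g * b.g := rfl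
@[simp] theorem one_v : (1 : Aff V K).v = 0 := rfl
@[simp] theorem one_g : (1 : Aff V K).g = 1 := rfl
@[simp] theorem inv_v (a : Aff V K) : (a⁻¹).v = -(a.g⁻¹ • a.v) := rfl
@[simp] theorem inv_g (a : Aff V K) : (a⁻¹).g = a.g⁻¹ := rfl

instance : Group (Aff V K) := Group.ofLeftAxioms
  (fun a b c => by ext <;> simp [mul_smul, add_assoc, mul_assoc])
  (fun a => by ext <;> simp)
  (fun a => by ext <;> simp)

/-- as a product -/
def equivProd : Aff V K ≃ V × K where
  toFun a := (a.v, a.g)
  invFun p := ⟨p.1, p.2⟩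
  left_inv _ := rfl
  right_inv _ := rfl

instance [Finite V] [Finite K] : Finite (Aff V K) := Finite.of_equiv _ equivProd.symm

theorem card_eq : Nat.card (Aff V K) = Nat.card V * Nat.card K := by
  rw [Nat.card_congr equivProd, Nat.card_prod]

/-- inclusion of the complement -/
def inr : K →* Aff V K where
  toFun g := ⟨0, g⟩
  map_one' := rfl
  map_mul' a b := by ext <;> simp

/-- projection -/
def proj : Aff V K →* K where
  toFun a := a.g
  map_one' := rfl
  map_mul' _ _ := rfl

@[simp] theorem inr_v (g : K) : (inr g : Aff V K).v = 0 := rfl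
@[simp] theorem inr_g (g : K) : (inr g : Aff V K).g = g := rfl
@[simp] theorem proj_apply (a : Aff V K) : proj a = a.g := rfl

theorem perfect (hK : commutator K = ⊤)
    (hV : AddSubgroup.closure {w : V | ∃ (g : K) (v : V), w = g • v - v} = ⊤) :
    commutator (Aff V K) = ⊤ := by
  have h1 : ∀ g : K, (inr g : Aff V K) ∈ commutator (Aff V K) := by
    intro g
    have : (commutator K).map (inr : K →* Aff V K) ≤ commutator (Aff V K) := by
      rw [map_commutator_eq]
      exact Subgroup.commutator_mono le_top le_top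
    exact this ⟨g, by rw [hK]; trivial, rfl⟩
  have h2 : ∀ w : V, (⟨w, 1⟩ : Aff V K) ∈ commutator (Aff V K) := by
    intro w
    have hw : w ∈ AddSubgroup.closure {w : V | ∃ (g : K) (v : V), w = g • v - v} := by
      rw [hV]; trivial
    induction hw using AddSubgroup.closure_induction with
    | mem x hx =>
      obtain ⟨g, v, rfl⟩ := hx
      have : (⟨g • v - v, 1⟩ : Aff V K) = ⁅(inr g : Aff V K), (⟨v, 1⟩ : Aff V K)⁆ := by
        ext <;> simp [commutatorElement_def, sub_eq_add_neg]
      rw [this]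
      exact Subgroup.commutator_mem_commutator (Subgroup.mem_top _) (Subgroup.mem_top _)
    | zero => exact one_mem _
    | add x y _ _ hx hy =>
      have : (⟨x + y, 1⟩ : Aff V K) = ⟨x, 1⟩ * ⟨y, 1⟩ := by ext <;> simp
      rw [this]; exact mul_mem hx hy
    | neg x _ hx =>
      have : (⟨-x, 1⟩ : Aff V K) = ⟨x, 1⟩⁻¹ := by ext <;> simp
      rw [this]; exact inv_mem hx
  rw [eq_top_iff]
  intro a _
  have : a = ⟨a.v, 1⟩ * inr a.g := by ext <;> simp
  rw [this]
  exact mul_mem (h2 _) (h1 _)

theorem centreless (hf : ∀ g : K, (∀ v : V, g • v = v) → g = 1)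
    (h0 : ∀ v : V, (∀ g : K, g • v = v) → v = 0) : Subgroup.center (Aff V K) = ⊥ := by
  rw [eq_bot_iff]
  intro a ha
  rw [Subgroup.mem_center_iff] at ha
  have h1 : a.g = 1 := by
    apply hf
    intro v
    have := congrArg Aff.v (ha ⟨v, 1⟩)
    simp only [mul_v, one_smul] at this
    rw [add_comm] at this
    exact (add_left_cancel this).symm
  have h2 : a.v = 0 := by
    apply h0
    intro g
    have := congrArg Aff.v (ha (inr g))
    simpa using this
  rw [Subgroup.mem_bot]
  ext
  · exact h2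
  · exact h1

theorem class_le [Finite V] [Finite K] (b : ℕ)
    (hb : ∀ g : K, (Set.range fun v : V => v - g • v).ncard ≤ b) (x : Aff V K) :
    {y | ∃ c : Aff V K, y = c * x * c⁻¹}.ncard ≤ Nat.card K * b := by
  classical
  letI := Fintype.ofFinite K
  have hsub : {y | ∃ c : Aff V K, y = c * x * c⁻¹} ⊆ ⋃ h ∈ (Finset.univ : Finset K),
      (fun w : V => (⟨h • x.v + w, h * x.g * h⁻¹⟩ : Aff V K)) ''
        (Set.range fun v : V => v - (h * x.g * h⁻¹) • v) := by
    rintro _ ⟨c, rfl⟩
    simp only [Set.mem_iUnion]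
    refine ⟨c.g, Finset.mem_univ _, _, ⟨c.v, rfl⟩, ?_⟩
    ext
    · simp [mul_smul]; abel
    · simp
  refine (Set.ncard_le_ncard hsub (Set.toFinite _)).trans ?_
  refine (Finset.set_ncard_biUnion_le _ _).trans ?_
  rw [Nat.card_eq_fintype_card, ← Finset.card_univ, ← smul_eq_mul, ← Finset.sum_const]
  exact Finset.sum_le_sum fun h _ => (Set.ncard_image_le (Set.toFinite _)).trans (hb _)

end Pool.Agent.H67.SD
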