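import Mathlib

namespace Pool.Agent.H67.SG

/-- `𝒜` is a strong grading of the ring `R` by the group `G`: `R` is the internal direct sum of
the additive subgroups `𝒜 g`, and `𝒜 g * 𝒜 h = 𝒜 (g * h)` (additive span of the products). -/
def IsStrongGrading {G R : Type} [Group G] [Ring R] (𝒜 : G → AddSubgroup R) : Prop :=
  iSupIndep 𝒜 ∧ iSup 𝒜 = ⊤ ∧
    ∀ g h, AddSubgroup.closure {z | ∃ x ∈ 𝒜 g, ∃ y ∈ 𝒜 h, z = x * y} = 𝒜 (g * h)

/-- A two-sided ideal is graded if it is the sum of its intersections with the components. -/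
def IsGradedIdeal {G R : Type} [Ring R] (𝒜 : G → AddSubgroup R) (I : TwoSidedIdeal R) : Prop :=
  ∀ x ∈ I, x ∈ AddSubgroup.closure {y | y ∈ I ∧ ∃ g, y ∈ 𝒜 g}

/-- The only graded two-sided ideals are `0` and `R`. -/
def IsGradedSimple {G R : Type} [Ring R] (𝒜 : G → AddSubgroup R) : Prop :=
  ∀ I : TwoSidedIdeal R, IsGradedIdeal 𝒜 I → I = ⊥ ∨ I = ⊤

/-- The centralizer of the identity component equals the centre of the identity component. -/
def SmallCentralizer {G R : Type} [Group G] [Ring R] (𝒜 : G → AddSubgroup R) : Prop :=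
  {r : R | ∀ a ∈ 𝒜 1, r * a = a * r} = {r : R | r ∈ 𝒜 1 ∧ ∀ a ∈ 𝒜 1, r * a = a * r}

end Pool.Agent.H67.SG
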