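import Mathlib
import Pool.Agent.H67.SGDefs

namespace Pool.Agent.H67.SG

open MonoidAlgebra

variable {S : Type} [Ring S] (A : Subring S) (G : Subgroup Sˣ)

/-- value of a group element in the ring -/
abbrev vv (g : G) : S := ((g : Sˣ) : S)

lemma vv_mul (g h : G) : vv G (g * h) = vv G g * vv G h := rfl

lemma vv_one : vv G 1 = 1 := rfl

lemma vv_mi (g : G) : vv G g * vv G g⁻¹ = 1 := by rw [← vv_mul, mul_inv_cancel]; rfl

lemma vv_im (g : G) : vv G g⁻¹ * vv G g = 1 := by rw [← vv_mul, inv_mul_cancel]; rfl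

variable (hn : ∀ g : G, ∀ a ∈ A, vv G g * a * vv G g⁻¹ ∈ A)

noncomputable def RR : Subring (MonoidAlgebra S G) where
  carrier := {f | ∀ g, f.coeff g * vv G g⁻¹ ∈ A}
  zero_mem' := fun g => by simp
  one_mem' := fun g => by
    classical
    rw [one_def, coeff_single, Finsupp.single_apply]
    split_ifs with h
    · subst h; simp [vv_one]
    · simp
  add_mem' := fun {x y} hx hy g => by
    have := A.add_mem (hx g) (hy g)
    simpa [add_mul] using this
  neg_mem' := fun {x} hx g => by
    have := A.neg_mem (hx g)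
    simpa using this
  mul_mem' := fun {x y} hx hy g => by
    rw [coeff_mul_apply_left, Finsupp.sum, Finset.sum_mul]
    refine A.sum_mem (fun h _ => ?_)
    have := A.mul_mem (hx h) (hn h _ (hy (h⁻¹ * g)))
    convert this using 1
    rw [mul_inv_rev, inv_inv, vv_mul]
    simp only [mul_assoc]
    rw [← mul_assoc (vv G h⁻¹) (vv G h), vv_im, one_mul, vv_mi, mul_one]

def AA (g : G) : AddSubgroup (RR A G hn) where
  carrier := {f | ∀ h, h ≠ g → f.1.coeff h = 0}
  zero_mem' := fun h _ => by simp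
  add_mem' := fun {x y} hx hy h hh => by simp [hx h hh, hy h hh]
  neg_mem' := fun {x} hx h hh => by simp [hx h hh]

noncomputable def sing (g : G) (a : S) (ha : a ∈ A) : RR A G hn :=
  ⟨single g (a * vv G g), fun h => by
    classical
    rw [coeff_single, Finsupp.single_apply]
    split_ifs with e
    · subst e; rw [mul_assoc, vv_mi, mul_one]; exact ha
    · simp⟩

lemma sing_mem (g : G) (a : S) (ha : a ∈ A) : sing A G hn g a ha ∈ AA A G hn g := by
  intro h hh
  show (single g (a * vv G g)).coeff h = 0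
  rw [coeff_single, Finsupp.single_eq_of_ne hh]

lemma eq_sing {g : G} {x : RR A G hn} (hx : x ∈ AA A G hn g) :
    x = sing A G hn g (x.1.coeff g * vv G g⁻¹) (x.2 g) := by
  apply Subtype.ext
  ext h
  show _ = (single g (x.1.coeff g * vv G g⁻¹ * vv G g)).coeff h
  rw [mul_assoc, vv_im, mul_one, coeff_single]
  by_cases e : h = g
  · subst e; simp
  · rw [Finsupp.single_eq_of_ne e]; exact hx h e

lemma sing_mul (g h : G) (a b : S) (ha : a ∈ A) (hb : b ∈ A) :
    sing A G hn g a ha * sing A G hn h b hb =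
      sing A G hn (g * h) (a * (vv G g * b * vv G g⁻¹)) (A.mul_mem ha (hn g b hb)) := by
  apply Subtype.ext
  show single g _ * single h _ = single (g * h) _
  rw [single_mul_single, vv_mul]
  congr 1
  simp only [mul_assoc]
  rw [← mul_assoc (vv G g⁻¹) (vv G g), vv_im, one_mul]

lemma sing_congr {g h : G} {a b : S} (ha : a ∈ A) (hb : b ∈ A) (e1 : g = h) (e2 : a = b) :
    sing A G hn g a ha = sing A G hn h b hb := by subst e1; subst e2; rfl

lemma strong : IsStrongGrading (AA A G hn) := by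
  refine ⟨?_, ?_, ?_⟩
  · intro g
    have hle : (⨆ h, ⨆ (_ : h ≠ g), AA A G hn h) ≤
        { carrier := {f : RR A G hn | f.1.coeff g = 0}
          zero_mem' := by simp
          add_mem' := fun {x y} hx hy => by
            simp only [Set.mem_setOf_eq] at hx hy ⊢
            simp [hx, hy]
          neg_mem' := fun {x} hx => by
            simp only [Set.mem_setOf_eq] at hx ⊢
            simp [hx] } := by
      refine iSup₂_le (fun h hh f hf => ?_)
      exact hf g hh.symm
    rw [AddSubgroup.disjoint_def]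
    intro x hx hx'
    have h0 : x.1.coeff g = 0 := hle hx'
    apply Subtype.ext
    ext h
    by_cases e : h = g
    · subst e; simpa using h0
    · simpa using hx h e
  · rw [eq_top_iff]
    intro x _
    have : x = ∑ g ∈ x.1.coeff.support, sing A G hn g (x.1.coeff g * vv G g⁻¹) (x.2 g) := by
      apply Subtype.ext
      rw [AddSubmonoidClass.coe_finset_sum]
      conv_lhs => rw [← sum_coeff_single x.1, Finsupp.sum]
      refine Finset.sum_congr rfl (fun g _ => ?_)
      show _ = single g (x.1.coeff g * vv G g⁻¹ * vv G g)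
      rw [mul_assoc, vv_im, mul_one]
    rw [this]
    exact AddSubgroup.sum_mem _ (fun g _ =>
      AddSubgroup.mem_iSup_of_mem g (sing_mem A G hn g _ _))
  · intro g h
    apply le_antisymm
    · rw [AddSubgroup.closure_le]
      rintro _ ⟨x, hx, y, hy, rfl⟩
      rw [eq_sing A G hn hx, eq_sing A G hn hy, sing_mul]
      exact sing_mem A G hn _ _ _
    · intro z hz
      apply AddSubgroup.subset_closure
      have h1 := hn g⁻¹ _ (z.2 (g * h))
      refine ⟨sing A G hn g 1 A.one_mem, sing_mem A G hn _ _ _, sing A G hn h _ h1,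
        sing_mem A G hn _ _ _, ?_⟩
      rw [sing_mul]
      conv_lhs => rw [eq_sing A G hn hz]
      refine sing_congr A G hn _ _ rfl ?_
      rw [inv_inv]
      simp only [mul_assoc, one_mul]
      rw [← mul_assoc (vv G g) (vv G g⁻¹), vv_mi, one_mul, mul_one]

lemma gsimple (hs : ∀ J : Set S, (∀ a ∈ J, a ∈ A) → (∀ a ∈ J, ∀ b ∈ J, a + b ∈ J) →
      (∀ a ∈ J, ∀ b ∈ A, b * a ∈ J) → (∀ a ∈ J, ∀ b ∈ A, a * b ∈ J) →
      (∀ a ∈ J, ∀ g : G, vv G g * a * vv G g⁻¹ ∈ J) → (∃ a ∈ J, a ≠ 0) → (1 : S) ∈ J) :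
    IsGradedSimple (AA A G hn) := by
  intro I hI
  by_cases h : ∀ y ∈ I, ∀ g, y ∈ AA A G hn g → y = 0
  · left
    rw [eq_bot_iff]
    intro x hx
    have h1 := hI x hx
    have : AddSubgroup.closure {y | y ∈ I ∧ ∃ g, y ∈ AA A G hn g} ≤ ⊥ := by
      rw [AddSubgroup.closure_le]
      rintro y ⟨hy, g, hg⟩
      exact h y hy g hg
    exact (TwoSidedIdeal.mem_bot _).2 (this h1)
  right
  push Not at h
  obtain ⟨y, hy, g, hg, hy0⟩ := h
  have := hs {a | ∃ ha : a ∈ A, sing A G hn 1 a ha ∈ I} (fun a h => h.1) ?_ ?_ ?_ ?_ ?_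
  · obtain ⟨h1, h2⟩ := this
    rw [← TwoSidedIdeal.one_mem_iff]
    convert h2 using 1
    apply Subtype.ext
    show (1 : MonoidAlgebra S G) = single 1 (1 * vv G 1)
    rw [vv_one, mul_one, one_def]
  · rintro a ⟨ha, ha'⟩ b ⟨hb, hb'⟩
    refine ⟨A.add_mem ha hb, ?_⟩
    convert I.add_mem ha' hb' using 1
    apply Subtype.ext
    show single 1 _ = single 1 _ + single 1 _
    rw [add_mul, single_add]
  · rintro a ⟨ha, ha'⟩ b hb
    refine ⟨A.mul_mem hb ha, ?_⟩
    have := I.mul_mem_left (sing A G hn 1 b hb) _ ha'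
    rw [sing_mul] at this
    convert this using 1
    exact sing_congr A G hn _ _ (by simp) (by simp [vv_one])
  · rintro a ⟨ha, ha'⟩ b hb
    refine ⟨A.mul_mem ha hb, ?_⟩
    have := I.mul_mem_right _ (sing A G hn 1 b hb) ha'
    rw [sing_mul] at this
    convert this using 1
    exact sing_congr A G hn _ _ (by simp) (by simp [vv_one])
  · rintro a ⟨ha, ha'⟩ g
    refine ⟨hn g a ha, ?_⟩
    have := I.mul_mem_right _ (sing A G hn g⁻¹ 1 A.one_mem)
      (I.mul_mem_left (sing A G hn g 1 A.one_mem) _ ha')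
    rw [sing_mul, sing_mul] at this
    convert this using 1
    refine sing_congr A G hn _ _ (by simp) ?_
    rw [mul_one g, mul_one (vv G g), vv_mi, mul_one, one_mul]
  · refine ⟨y.1.coeff g * vv G g⁻¹, ⟨y.2 g, ?_⟩, ?_⟩
    · have := I.mul_mem_right _ (sing A G hn g⁻¹ 1 A.one_mem) hy
      rw [eq_sing A G hn hg, sing_mul] at this
      convert this using 1
      refine sing_congr A G hn _ _ (by simp) ?_
      rw [mul_one (vv G g), vv_mi, mul_one]
    · intro h0
      apply hy0
      rw [eq_sing A G hn hg]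
      apply Subtype.ext
      show single g (y.1.coeff g * vv G g⁻¹ * vv G g) = 0
      rw [h0, zero_mul, single_zero]

lemma small (hc : ∀ g : G, g ≠ 1 → ∀ a ∈ A, (∀ b ∈ A, a * vv G g * b = b * (a * vv G g)) →
      a = 0) : SmallCentralizer (AA A G hn) := by
  ext r
  simp only [Set.mem_setOf_eq]
  refine ⟨fun h => ⟨fun g hg => ?_, h⟩, fun h => h.2⟩
  have e : r.1.coeff g * vv G g⁻¹ * vv G g = r.1.coeff g := by rw [mul_assoc, vv_im, mul_one]
  have := hc g hg _ (r.2 g) (fun b hb => by
    have h1 := congrArg (fun x : RR A G hn => x.1.coeff g) (h _ (sing_mem A G hn 1 b hb))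
    have h2 : (r.1 * single 1 (b * vv G 1)).coeff g = (single 1 (b * vv G 1) * r.1).coeff g := h1
    rw [coeff_mul_single_one, coeff_single_one_mul, vv_one, mul_one] at h2
    rw [e, h2])
  rw [← e, this, zero_mul]

lemma nonsimple [Nontrivial S] (g : G) (hg : g ≠ 1) (a : S) (ha : a ∈ A) (h0 : a ≠ 0)
    (ha' : a * vv G g ∈ A) : ∃ I : TwoSidedIdeal (RR A G hn), I ≠ ⊥ ∧ I ≠ ⊤ := by
  let φ : MonoidAlgebra S G →+* S :=
    liftNCRingHom (RingHom.id S) (1 : G →* S) (fun x y => by simp)
  refine ⟨TwoSidedIdeal.ker (φ.comp (RR A G hn).subtype), fun h => ?_, fun h => ?_⟩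
  · have h1 : sing A G hn g a ha - sing A G hn 1 _ ha' ∈
        TwoSidedIdeal.ker (φ.comp (RR A G hn).subtype) := by
      rw [TwoSidedIdeal.mem_ker, map_sub]
      show φ (single g _) - φ (single 1 _) = 0
      simp [φ, liftNCRingHom_single, vv_one]
    rw [h, TwoSidedIdeal.mem_bot, sub_eq_zero] at h1
    have h2 := congrArg (fun x : RR A G hn => x.1.coeff g) h1
    have h3 : (single g (a * vv G g)).coeff g = (single (1 : G) (a * vv G g * vv G 1)).coeff g :=
      h2
    rw [coeff_single, coeff_single, Finsupp.single_eq_same, Finsupp.single_eq_of_ne hg] at h3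
    apply h0
    rw [← mul_one a, ← vv_mi G g, ← mul_assoc, h3, zero_mul]
  · rw [← TwoSidedIdeal.one_mem_iff, TwoSidedIdeal.mem_ker, map_one] at h
    exact one_ne_zero h

end Pool.Agent.H67.SG
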