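import Mathlib

namespace Pool.Agent.H67.SG

open MvPolynomial

abbrev PP := MvPolynomial ℤ ℚ
abbrev KK := FractionRing PP
abbrev HH := ℤ → ℚˣ

noncomputable abbrev io : PP →+* KK := algebraMap PP KK

lemma io_inj : Function.Injective io := IsFractionRing.injective PP KK

noncomputable def psi (l : HH) (σ : Equiv.Perm ℤ) : PP →ₐ[ℚ] PP :=
  aeval (fun i => C (l i : ℚ) * X (σ i))

lemma psi_X (l : HH) (σ : Equiv.Perm ℤ) (i : ℤ) : psi l σ (X i) = C (l i : ℚ) * X (σ i) := by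
  simp [psi]

lemma psi_C (l : HH) (σ : Equiv.Perm ℤ) (c : ℚ) : psi l σ (C c) = C c := by
  simp [psi]

lemma psi_comp (l m : HH) (σ τ : Equiv.Perm ℤ) (f : PP) :
    psi l σ (psi m τ f) = psi (fun i => m i * l (τ i)) (σ * τ) f := by
  have : (psi l σ).comp (psi m τ) = psi (fun i => m i * l (τ i)) (σ * τ) := by
    apply MvPolynomial.algHom_ext
    intro i
    rw [AlgHom.comp_apply, psi_X, map_mul, psi_C, psi_X, psi_X]
    simp [mul_assoc]
  exact congrArg (fun g : PP →ₐ[ℚ] PP => g f) this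

lemma psi_one (f : PP) : psi 1 1 f = f := by
  have : psi 1 1 = AlgHom.id ℚ PP := by
    apply MvPolynomial.algHom_ext
    intro i
    simp [psi_X]
  rw [this]; rfl

lemma psi_inv (l : HH) (σ : Equiv.Perm ℤ) (f : PP) :
    psi (fun i => (l (σ⁻¹ i))⁻¹) σ⁻¹ (psi l σ f) = f := by
  rw [psi_comp]
  have e : (fun i => l i * (l (σ⁻¹ (σ i)))⁻¹) = (1 : HH) := by ext i; simp
  rw [e, inv_mul_cancel, psi_one]

lemma psi_inj (l : HH) (σ : Equiv.Perm ℤ) : Function.Injective (psi l σ) :=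
  Function.LeftInverse.injective (psi_inv l σ)

noncomputable def Phi (l : HH) (σ : Equiv.Perm ℤ) : KK →+* KK :=
  IsFractionRing.lift (g := io.comp (psi l σ).toRingHom) (io_inj.comp (psi_inj l σ))

lemma Phi_io (l : HH) (σ : Equiv.Perm ℤ) (f : PP) : Phi l σ (io f) = io (psi l σ f) := by
  simp [Phi]

lemma Phi_comp (l m : HH) (σ τ : Equiv.Perm ℤ) (k : KK) :
    Phi l σ (Phi m τ k) = Phi (fun i => m i * l (τ i)) (σ * τ) k := by
  have : (Phi l σ).comp (Phi m τ) = Phi (fun i => m i * l (τ i)) (σ * τ) := by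
    apply IsFractionRing.ringHom_ext (A := PP)
    intro f
    rw [RingHom.comp_apply, Phi_io, Phi_io, Phi_io, psi_comp]
  exact congrArg (fun g : KK →+* KK => g k) this

lemma Phi_one (k : KK) : Phi 1 1 k = k := by
  have : Phi 1 1 = RingHom.id KK := by
    apply IsFractionRing.ringHom_ext (A := PP)
    intro f
    rw [Phi_io, psi_one]; rfl
  rw [this]; rfl

lemma Phi_perm (σ τ : Equiv.Perm ℤ) (k : KK) : Phi 1 σ (Phi 1 τ k) = Phi 1 (σ * τ) k := by
  rw [Phi_comp]; congr 2; ext i; simp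

lemma Phi_tor (l m : HH) (k : KK) : Phi l 1 (Phi m 1 k) = Phi (m * l) 1 k := by
  rw [Phi_comp]; rfl

def Good (g : PP) : Prop := ∀ i, ¬ (X i : PP) ∣ g

lemma good_one : Good 1 := fun i h => (X_prime (i := i)).not_unit (isUnit_of_dvd_one h)

lemma Good.mul {f g : PP} (hf : Good f) (hg : Good g) : Good (f * g) := fun i h =>
  ((X_prime (i := i)).dvd_or_dvd h).elim (hf i) (hg i)

lemma Good.ne {g : PP} (hg : Good g) : g ≠ 0 := fun h => hg 0 (by simp [h])

lemma Good.psi {g : PP} (hg : Good g) (l : HH) (σ : Equiv.Perm ℤ) : Good (psi l σ g) := by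
  intro i h
  have := map_dvd (SG.psi (fun i => (l (σ⁻¹ i))⁻¹) σ⁻¹) h
  rw [psi_inv, psi_X] at this
  exact hg _ ((Dvd.intro_left _ rfl).trans this)

noncomputable def DD : Subring KK where
  carrier := {k | ∃ f g, Good g ∧ k * io g = io f}
  zero_mem' := ⟨0, 1, good_one, by simp⟩
  one_mem' := ⟨1, 1, good_one, by simp⟩
  add_mem' := by
    rintro a b ⟨f, g, hg, h⟩ ⟨f', g', hg', h'⟩
    refine ⟨f * g' + f' * g, g * g', hg.mul hg', ?_⟩
    simp only [map_add, map_mul]
    rw [← h, ← h']; ring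
  mul_mem' := by
    rintro a b ⟨f, g, hg, h⟩ ⟨f', g', hg', h'⟩
    refine ⟨f * f', g * g', hg.mul hg', ?_⟩
    simp only [map_mul]
    rw [← h, ← h']; ring
  neg_mem' := by
    rintro a ⟨f, g, hg, h⟩
    exact ⟨-f, g, hg, by rw [map_neg, ← h]; ring⟩

lemma io_mem (f : PP) : io f ∈ DD := ⟨f, 1, good_one, by simp⟩

lemma io_ne {f : PP} (h : f ≠ 0) : io f ≠ 0 := fun e => h (io_inj (by simpa using e))

lemma inv_mem {g : PP} (hg : Good g) : (io g)⁻¹ ∈ DD :=
  ⟨1, g, hg, by rw [inv_mul_cancel₀ (io_ne hg.ne), map_one]⟩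

lemma Phi_mem (l : HH) (σ : Equiv.Perm ℤ) {k : KK} (hk : k ∈ DD) : Phi l σ k ∈ DD := by
  obtain ⟨f, g, hg, h⟩ := hk
  exact ⟨psi l σ f, psi l σ g, hg.psi l σ, by rw [← Phi_io, ← map_mul, h, Phi_io]⟩

noncomputable def xx (i : ℤ) : KK := io (X i)

lemma xx_ne (i : ℤ) : xx i ≠ 0 := io_ne (X_ne_zero i)

noncomputable def mono (n : ℤ →₀ ℤ) : KK := n.prod (fun i e => xx i ^ e)

lemma mono_zero : mono 0 = 1 := by simp [mono]

lemma mono_add (a b : ℤ →₀ ℤ) : mono (a + b) = mono a * mono b :=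
  Finsupp.prod_add_index' (by simp) (fun i e e' => zpow_add₀ (xx_ne i) e e')

lemma mono_single (i e : ℤ) : mono (Finsupp.single i e) = xx i ^ e :=
  Finsupp.prod_single_index (by simp)

lemma mono_neg (a : ℤ →₀ ℤ) : mono a * mono (-a) = 1 := by
  rw [← mono_add, add_neg_cancel, mono_zero]

lemma mono_ne (a : ℤ →₀ ℤ) : mono a ≠ 0 := left_ne_zero_of_mul_eq_one (mono_neg a)

lemma Phi_mono_perm (σ : Equiv.Perm ℤ) (n : ℤ →₀ ℤ) :
    Phi 1 σ (mono n) = mono (n.mapDomain σ) := by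
  induction n using Finsupp.induction_linear with
  | zero => simp [mono_zero]
  | add a b ha hb => rw [mono_add, map_mul, ha, hb, Finsupp.mapDomain_add, mono_add]
  | single i e =>
    rw [Finsupp.mapDomain_single, mono_single, mono_single, map_zpow₀, xx, Phi_io, psi_X]
    simp [xx]

noncomputable def chi (l : HH) (n : ℤ →₀ ℤ) : ℚˣ := n.prod (fun i e => l i ^ e)

lemma chi_add (l : HH) (a b : ℤ →₀ ℤ) : chi l (a + b) = chi l a * chi l b :=
  Finsupp.prod_add_index' (by simp) (fun i e e' => zpow_add (l i) e e')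

lemma chi_single (l : HH) (i e : ℤ) : chi l (Finsupp.single i e) = l i ^ e :=
  Finsupp.prod_single_index (by simp)

lemma Phi_mono_tor (l : HH) (n : ℤ →₀ ℤ) :
    Phi l 1 (mono n) = io (C (chi l n : ℚ)) * mono n := by
  induction n using Finsupp.induction_linear with
  | zero => simp [mono_zero, chi]
  | add a b ha hb =>
    rw [mono_add, map_mul, ha, hb, chi_add]
    simp only [Units.val_mul, map_mul]
    ring
  | single i e =>
    rw [mono_single, chi_single, map_zpow₀, xx, Phi_io, psi_X, map_mul, mul_zpow,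
      Units.val_zpow_eq_zpow_val]
    have : io (C ((l i : ℚ) ^ e)) = io (C (l i : ℚ)) ^ e :=
      map_zpow₀ (io.comp (C : ℚ →+* PP)) (l i : ℚ) e
    rw [this]; rfl

noncomputable def two : ℚˣ := Units.mk0 2 two_ne_zero

noncomputable def hh (i : ℤ) : HH := Pi.mulSingle i two

lemma chi_hh (i : ℤ) (n : ℤ →₀ ℤ) : chi (hh i) n = two ^ n i := by
  induction n using Finsupp.induction_linear with
  | zero => simp [chi]
  | add a b ha hb => rw [chi_add, ha, hb, Finsupp.add_apply, zpow_add]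
  | single j e =>
    rw [chi_single]
    by_cases h : j = i
    · subst h; simp [hh]
    · simp [hh, Pi.mulSingle_eq_of_ne h, Finsupp.single_eq_of_ne (Ne.symm h)]

lemma psi_hh_sub (i : ℤ) (f : PP) : (X i : PP) ∣ psi (hh i) 1 f - f := by
  induction f using MvPolynomial.induction_on with
  | C c => simp [psi_C]
  | add f g hf hg =>
    have := dvd_add hf hg
    rw [map_add]
    convert this using 1
    ring
  | mul_X f j hf =>
    rw [map_mul, psi_X]
    by_cases h : j = i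
    · subst h
      exact dvd_sub (Dvd.intro_left (psi (hh j) 1 f * C (hh j j : ℚ)) (by simp [mul_assoc]))
        (Dvd.intro_left _ rfl)
    · have := Dvd.dvd.mul_right hf (X j)
      convert this using 1
      simp [hh, Pi.mulSingle_eq_of_ne h]
      ring

lemma eig {k : KK} (h0 : k ≠ 0) (hk : ∀ l, Phi l 1 k = k) {m : ℤ →₀ ℤ} (hm : k * mono m ∈ DD)
    (i : ℤ) : 0 ≤ m i := by
  obtain ⟨f, g, hg, h⟩ := hm
  have hf : f ≠ 0 := by
    rintro rfl
    rw [map_zero] at h
    exact mul_ne_zero (mul_ne_zero h0 (mono_ne m)) (io_ne hg.ne) h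
  obtain ⟨a, f', hf', rfl⟩ := WfDvdMonoid.max_power_factor hf (X_prime (i := i)).irreducible
  have h1 := congrArg (Phi (hh i) 1) h
  rw [map_mul, map_mul, hk, Phi_mono_tor, Phi_io, Phi_io, chi_hh, map_mul, map_pow, psi_X] at h1
  have h2 : io (C ((two ^ m i : ℚˣ) : ℚ) * (X i ^ a * f') * psi (hh i) 1 g) =
      io ((C (hh i i : ℚ) * X ((1 : Equiv.Perm ℤ) i)) ^ a * psi (hh i) 1 f' * g) := by
    rw [map_mul io _ g, ← h1, map_mul, map_mul, ← h]
    ring
  have h3 := io_inj h2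
  have e2 : ((hh i i : ℚˣ) : ℚ) = 2 := by simp [hh, two]
  have e3 : ((two ^ m i : ℚˣ) : ℚ) = 2 ^ m i := by simp [two]
  rw [e2, e3, Equiv.Perm.one_apply] at h3
  have h4 : C ((2 : ℚ) ^ m i) * f' * psi (hh i) 1 g = C 2 ^ a * psi (hh i) 1 f' * g := by
    apply mul_left_cancel₀ (pow_ne_zero a (X_ne_zero (R := ℚ) i))
    linear_combination h3
  obtain ⟨u, hu⟩ := psi_hh_sub i f'
  obtain ⟨v, hv⟩ := psi_hh_sub i g
  have h5 : (X i : PP) ∣ C ((2 : ℚ) ^ m i - 2 ^ a) * (f' * g) := by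
    refine ⟨C 2 ^ a * u * g - C ((2 : ℚ) ^ m i) * f' * v, ?_⟩
    rw [map_sub, map_pow C 2 a]
    linear_combination h4 - C ((2 : ℚ) ^ m i) * f' * hv + C 2 ^ a * g * hu
  have h6 : (2 : ℚ) ^ m i - 2 ^ a = 0 := by
    by_contra hne
    have hu : IsUnit (C ((2 : ℚ) ^ m i - 2 ^ a) : PP) := (IsUnit.mk0 _ hne).map C
    rw [hu.dvd_mul_left] at h5
    exact ((X_prime (i := i)).dvd_or_dvd h5).elim hf' (hg i)
  have h7 : (2 : ℚ) ^ m i = 2 ^ (a : ℤ) := by rw [zpow_natCast]; linarith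
  have := zpow_right_injective₀ (by norm_num : (0 : ℚ) < 2) (by norm_num) h7
  omega

lemma ev_congr {f : PP} {ω ω' : ℤ → ℚ} (h : ∀ i ∈ f.vars, ω i = ω' i) :
    eval ω f = eval ω' f :=
  hom_congr_vars (by ext c; simp) (fun i hi _ => by simp [h i hi]) rfl

lemma ev_psi (ω : ℤ → ℚ) (σ : Equiv.Perm ℤ) (f : PP) :
    eval ω (psi 1 σ f) = eval (fun i => ω (σ i)) f := by
  induction f using MvPolynomial.induction_on with
  | C c => simp [psi_C]
  | add f g hf hg => simp [hf, hg]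
  | mul_X f j hf => simp [hf, psi_X]

lemma exists_good {f : PP} (hf : f ≠ 0) : ∃ σ : Equiv.Perm ℤ, Good (f + psi 1 σ f) := by
  classical
  obtain ⟨N, hN⟩ : ∃ N : ℕ, ∀ j ∈ f.vars, j.natAbs ≤ N :=
    ⟨f.vars.sup Int.natAbs, fun j hj => Finset.le_sup hj⟩
  let σ : Equiv.Perm ℤ := Equiv.addRight (2 * (N : ℤ) + 1)
  have hσ : ∀ j ∈ f.vars, σ j ∉ f.vars := by
    intro j hj h
    have h1 := hN j hj
    have h2 := hN _ h
    simp only [σ, Equiv.coe_addRight] at h2
    omega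
  refine ⟨σ, fun i hi => hf ?_⟩
  have key : ∀ ω : ℤ → ℚ, ω i = 0 → eval ω f + eval (fun j => ω (σ j)) f = 0 := by
    intro ω hω
    obtain ⟨c, hc⟩ := hi
    rw [← ev_psi, ← map_add, hc]
    simp [hω]
  have k2 : ∀ η : ℤ → ℚ, eval η f + eval (fun _ => 0) f = 0 := by
    intro η
    by_cases h : i ∈ f.vars
    · have h1 : ∀ j ∈ f.vars, σ.symm j ∉ f.vars := fun j hj h' => hσ _ h' (by simpa using hj)
      have := key (fun j => if σ.symm j ∈ f.vars then η (σ.symm j) else 0) (by simp [h1 i h])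
      rw [ev_congr (ω' := fun _ => 0) (fun j hj => by simp [h1 j hj]),
        ev_congr (ω := fun j => if σ.symm (σ j) ∈ f.vars then η (σ.symm (σ j)) else 0) (ω' := η)
          (fun j hj => by simp [hj])] at this
      linarith
    · have := key (fun j => if j ∈ f.vars then η j else 0) (by simp [h])
      rw [ev_congr (ω' := η) (fun j hj => by simp [hj]),
        ev_congr (ω := fun j => if σ j ∈ f.vars then η (σ j) else 0) (ω' := fun _ => 0)
          (fun j hj => by simp [hσ j hj])] at this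
      exact this
  have k3 := k2 (fun _ => 0)
  apply MvPolynomial.funext
  intro η
  have := k2 η
  rw [map_zero]
  linarith

end Pool.Agent.H67.SG
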