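import Mathlib
import Pool.Agent.H67.SG1
import Pool.Agent.H67.SG2

namespace Pool.Agent.H67.SG

open MvPolynomial

abbrev SS := AddMonoid.End KK

noncomputable def TT (d : KK) (l : HH) (σ : Equiv.Perm ℤ) : SS :=
  (AddMonoidHom.mulLeft d).comp (Phi l σ).toAddMonoidHom

lemma TT_apply (d : KK) (l : HH) (σ : Equiv.Perm ℤ) (k : KK) : TT d l σ k = d * Phi l σ k := rfl

lemma SS_ext {a b : SS} (h : ∀ k, a k = b k) : a = b := AddMonoidHom.ext h

lemma SS_mul (a b : SS) (k : KK) : (a * b) k = a (b k) := rfl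

lemma SS_add (a b : SS) (k : KK) : (a + b) k = a k + b k := rfl

lemma SS_neg (a : SS) (k : KK) : (-a) k = - a k := rfl

lemma SS_one (k : KK) : (1 : SS) k = k := rfl

lemma SS_zero (k : KK) : (0 : SS) k = 0 := rfl

lemma TT_mul (d d' : KK) (l m : HH) :
    TT d l 1 * TT d' m 1 = TT (d * Phi l 1 d') (m * l) 1 := by
  apply SS_ext
  intro k
  rw [SS_mul, TT_apply, TT_apply, TT_apply, map_mul, Phi_tor, mul_assoc]

lemma TT_one : TT 1 1 1 = 1 := SS_ext (fun k => by rw [TT_apply, Phi_one, one_mul]; rfl)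

def gens : Set SS := {s | ∃ d ∈ DD, ∃ l, s = TT d l 1}

noncomputable def AAA : Subring SS where
  carrier := AddSubgroup.closure gens
  zero_mem' := (AddSubgroup.closure gens).zero_mem
  add_mem' := fun ha hb => (AddSubgroup.closure gens).add_mem ha hb
  neg_mem' := fun ha => (AddSubgroup.closure gens).neg_mem ha
  one_mem' := AddSubgroup.subset_closure ⟨1, DD.one_mem, 1, TT_one.symm⟩
  mul_mem' := fun {a b} ha hb => by
    have ha' : a ∈ AddSubgroup.closure gens := ha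
    have hb' : b ∈ AddSubgroup.closure gens := hb
    show a * b ∈ AddSubgroup.closure gens
    clear ha hb
    induction ha' using AddSubgroup.closure_induction with
    | mem x hx =>
      induction hb' using AddSubgroup.closure_induction with
      | mem y hy =>
        obtain ⟨d, hd, l, rfl⟩ := hx
        obtain ⟨d', hd', m, rfl⟩ := hy
        exact AddSubgroup.subset_closure
          ⟨_, DD.mul_mem hd (Phi_mem l 1 hd'), _, TT_mul d d' l m⟩
      | zero => rw [mul_zero]; exact AddSubgroup.zero_mem _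
      | add y z _ _ hy hz => rw [mul_add]; exact AddSubgroup.add_mem _ hy hz
      | neg y _ hy =>
        have : x * -y = -(x * y) := SS_ext (fun k => by simp [SS_mul, SS_neg])
        rw [this]; exact AddSubgroup.neg_mem _ hy
    | zero => rw [zero_mul]; exact AddSubgroup.zero_mem _
    | add y z _ _ hy hz => rw [add_mul]; exact AddSubgroup.add_mem _ hy hz
    | neg y _ hy =>
      have : -y * b = -(y * b) := SS_ext (fun k => by simp [SS_mul, SS_neg])
      rw [this]; exact AddSubgroup.neg_mem _ hy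

lemma TT_mem {d : KK} (hd : d ∈ DD) (l : HH) : TT d l 1 ∈ AAA :=
  AddSubgroup.subset_closure ⟨d, hd, l, rfl⟩

lemma AAA_ind {p : SS → Prop} (h1 : ∀ d ∈ DD, ∀ l, p (TT d l 1)) (h0 : p 0)
    (ha : ∀ a b, p a → p b → p (a + b)) (hn : ∀ a, p a → p (-a)) {a : SS} (h : a ∈ AAA) : p a := by
  have h' : a ∈ AddSubgroup.closure gens := h
  clear h
  induction h' using AddSubgroup.closure_induction with
  | mem x hx => obtain ⟨d, hd, l, rfl⟩ := hx; exact h1 d hd l
  | zero => exact h0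
  | add y z _ _ hy hz => exact ha _ _ hy hz
  | neg y _ hy => exact hn _ hy

lemma AAA_list {a : SS} (h : a ∈ AAA) : ∃ L : List (KK × HH), (∀ p ∈ L, p.1 ∈ DD) ∧
    ∀ k, a k = (L.map (fun p => p.1 * Phi p.2 1 k)).sum := by
  refine AAA_ind (p := fun a => ∃ L : List (KK × HH), (∀ p ∈ L, p.1 ∈ DD) ∧
    ∀ k, a k = (L.map (fun p => p.1 * Phi p.2 1 k)).sum) ?_ ?_ ?_ ?_ h
  · intro d hd l
    exact ⟨[(d, l)], by simpa using hd, fun k => by simp [TT_apply]⟩
  · exact ⟨[], by simp, fun k => by simp⟩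
  · rintro a b ⟨L, hL, h⟩ ⟨L', hL', h'⟩
    refine ⟨L ++ L', fun p hp => (List.mem_append.1 hp).elim (hL p) (hL' p), fun k => ?_⟩
    rw [SS_add, h, h', List.map_append, List.sum_append]
  · rintro a ⟨L, hL, h⟩
    refine ⟨L.map (fun p => (-p.1, p.2)), ?_, fun k => ?_⟩
    · intro p hp
      obtain ⟨q, hq, rfl⟩ := List.mem_map.1 hp
      exact DD.neg_mem (hL q hq)
    · rw [SS_neg, h, List.map_map]
      clear h hL
      induction L with
      | nil => simp
      | cons p L ih => simp only [List.map_cons, List.sum_cons, neg_add, ih]; simp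

lemma AAA_pres {a : SS} (h : a ∈ AAA) (m : ℤ →₀ ℤ) : ∃ d ∈ DD, a (mono m) = mono m * d := by
  refine AAA_ind (p := fun a => ∃ d ∈ DD, a (mono m) = mono m * d) ?_ ?_ ?_ ?_ h
  · intro d hd l
    exact ⟨d * io (C (chi l m : ℚ)), DD.mul_mem hd (io_mem _),
      by rw [TT_apply, Phi_mono_tor]; ring⟩
  · exact ⟨0, DD.zero_mem, by simp⟩
  · rintro a b ⟨d, hd, h⟩ ⟨d', hd', h'⟩
    exact ⟨d + d', DD.add_mem hd hd', by rw [SS_add, h, h', mul_add]⟩
  · rintro a ⟨d, hd, h⟩
    exact ⟨-d, DD.neg_mem hd, by rw [SS_neg, h, mul_neg]⟩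

lemma degree_map (σ : Equiv.Perm ℤ) (n : ℤ →₀ ℤ) :
    Finsupp.degree (n.mapDomain σ) = Finsupp.degree n := by
  induction n using Finsupp.induction_linear with
  | zero => simp
  | add a b ha hb => rw [Finsupp.mapDomain_add, map_add, map_add, ha, hb]
  | single i e => rw [Finsupp.mapDomain_single, Finsupp.degree_single, Finsupp.degree_single]

lemma inv_form (n : ℤ →₀ ℤ) (σ : Equiv.Perm ℤ) (k : KK) :
    mono n * Phi 1 σ (mono ((-n).mapDomain (σ⁻¹ : Equiv.Perm ℤ)) * Phi 1 σ⁻¹ k) = k := by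
  rw [← Phi_mono_perm, ← map_mul, Phi_perm, mul_inv_cancel, Phi_one, ← mul_assoc, mono_neg,
    one_mul]

lemma inv_val {u : SSˣ} {n : ℤ →₀ ℤ} {σ : Equiv.Perm ℤ}
    (h : ∀ k, (u : SS) k = mono n * Phi 1 σ k) (k : KK) :
    ((u⁻¹ : SSˣ) : SS) k = mono ((-n).mapDomain (σ⁻¹ : Equiv.Perm ℤ)) * Phi 1 σ⁻¹ k := by
  conv_lhs => rw [← inv_form n σ k, ← h, ← SS_mul]
  rw [Units.inv_mul]; rfl

noncomputable def GG : Subgroup SSˣ where
  carrier := {u | ∃ (n : ℤ →₀ ℤ) (σ : Equiv.Perm ℤ), Finsupp.degree n = 0 ∧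
    ∀ k, (u : SS) k = mono n * Phi 1 σ k}
  one_mem' := ⟨0, 1, by simp, fun k => by rw [mono_zero, Phi_one, one_mul]; rfl⟩
  mul_mem' := by
    rintro u v ⟨n, σ, hn, h⟩ ⟨n', σ', hn', h'⟩
    refine ⟨n + n'.mapDomain σ, σ * σ', by rw [map_add, degree_map, hn, hn', add_zero],
      fun k => ?_⟩
    rw [Units.val_mul, SS_mul, h', h, map_mul, Phi_mono_perm, Phi_perm, mono_add, mul_assoc]
  inv_mem' := by
    rintro u ⟨n, σ, hn, h⟩
    exact ⟨_, σ⁻¹, by rw [degree_map, map_neg, hn, neg_zero], inv_val h⟩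

noncomputable def UU (n : ℤ →₀ ℤ) (σ : Equiv.Perm ℤ) : SSˣ where
  val := TT (mono n) 1 σ
  inv := TT (mono ((-n).mapDomain (σ⁻¹ : Equiv.Perm ℤ))) 1 σ⁻¹
  val_inv := SS_ext (fun k => inv_form n σ k)
  inv_val := SS_ext (fun k => by
    rw [SS_mul, TT_apply, TT_apply, ← Phi_mono_perm, ← map_mul, ← mul_assoc, mul_comm (mono (-n)),
      mono_neg, one_mul, Phi_perm, inv_mul_cancel, Phi_one]
    rfl)

lemma UU_mem {n : ℤ →₀ ℤ} (hn : Finsupp.degree n = 0) (σ : Equiv.Perm ℤ) : UU n σ ∈ GG :=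
  ⟨n, σ, hn, fun _ => rfl⟩

lemma hnorm : ∀ g : GG, ∀ a ∈ AAA, vv GG g * a * vv GG g⁻¹ ∈ AAA := by
  rintro ⟨u, n, σ, hn, h⟩ a ha
  show (u : SS) * a * ((u⁻¹ : SSˣ) : SS) ∈ AAA
  refine AAA_ind (p := fun a => (u : SS) * a * ((u⁻¹ : SSˣ) : SS) ∈ AAA) ?_ ?_ ?_ ?_ ha
  · intro d hd l
    let l' : HH := fun i => l (σ⁻¹ i)
    have e : ∀ k, Phi 1 σ (Phi l 1 (Phi 1 σ⁻¹ k)) = Phi l' 1 k := by
      intro k
      rw [Phi_comp, Phi_comp]
      congr 2
      · ext i; simp [l']
      · simp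
    have : (u : SS) * TT d l 1 * ((u⁻¹ : SSˣ) : SS) =
        TT (Phi 1 σ d * io (C (chi l' (-n) : ℚ))) l' 1 := by
      apply SS_ext
      intro k
      rw [SS_mul, SS_mul, inv_val h, h, TT_apply, TT_apply, ← Phi_mono_perm, ← map_mul, map_mul,
        e, map_mul, Phi_mono_tor]
      linear_combination (Phi 1 σ d * io (C (chi l' (-n) : ℚ)) * Phi l' 1 k) * mono_neg n
    rw [this]
    exact TT_mem (DD.mul_mem (Phi_mem _ _ hd) (io_mem _)) _
  · rw [mul_zero, zero_mul]; exact AAA.zero_mem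
  · intro a b h1 h2
    rw [mul_add, add_mul]; exact AAA.add_mem h1 h2
  · intro a h1
    have : (u : SS) * -a * ((u⁻¹ : SSˣ) : SS) = -((u : SS) * a * ((u⁻¹ : SSˣ) : SS)) :=
      SS_ext (fun k => by simp [SS_mul, SS_neg])
    rw [this]; exact AAA.neg_mem h1

lemma semilin {a : SS} (φ : KK →+* KK) (h : ∀ y ∈ DD, ∀ k, a (y * k) = φ y * a k) (k : KK) :
    a k = φ k * a 1 := by
  obtain ⟨f, g, hg, rfl⟩ := IsFractionRing.div_surjective (A := PP) k
  have hg' : io g ≠ 0 := io_ne (nonZeroDivisors.ne_zero hg)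
  have h1 := h _ (io_mem f) 1
  have h2 := h _ (io_mem g) (io f / io g)
  rw [mul_div_cancel₀ _ hg'] at h2
  rw [mul_one, h2] at h1
  have h3 : φ (io g) ≠ 0 := (map_ne_zero φ).2 hg'
  rw [map_div₀ φ, div_mul_eq_mul_div, eq_div_iff h3, mul_comm, h1]

lemma hcent : ∀ g : GG, g ≠ 1 → ∀ a ∈ AAA,
    (∀ b ∈ AAA, a * vv GG g * b = b * (a * vv GG g)) → a = 0 := by
  intro g hg a ha h
  set s := a * vv GG g with hs
  have h1 : ∀ k, s k = k * s 1 := semilin (RingHom.id KK) (fun y hy k => by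
    have := congrArg (fun t : SS => t k) (h _ (TT_mem hy 1))
    simpa only [SS_mul s, SS_mul (TT y 1 1), TT_apply, Phi_one, RingHom.id_apply] using this)
  have h2 : ∀ l, Phi l 1 (s 1) = s 1 := by
    intro l
    have := congrArg (fun t : SS => t 1) (h _ (TT_mem DD.one_mem l))
    simp only [SS_mul s, SS_mul (TT 1 l 1), TT_apply, map_one, one_mul] at this
    exact this.symm
  have h3 : a = s * vv GG g⁻¹ := by rw [hs, mul_assoc, vv_mi, mul_one]
  by_contra h0
  have h4 : s 1 ≠ 0 := by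
    intro h5
    apply h0
    rw [h3]
    exact SS_ext (fun k => by rw [SS_mul, h1, h5, mul_zero]; rfl)
  obtain ⟨n, σ, hn, hu⟩ := (g⁻¹).2
  have h5 : ∀ m : ℤ →₀ ℤ, ∀ i, 0 ≤ (n + m.mapDomain σ + -m) i := by
    intro m
    obtain ⟨d, hd, e⟩ := AAA_pres ha m
    refine eig h4 h2 ?_
    have e2 : a (mono m) = mono n * mono (m.mapDomain σ) * s 1 := by
      rw [h3, SS_mul, h1, hu, Phi_mono_perm]
    convert hd using 1
    rw [mono_add, mono_add]
    linear_combination d * mono_neg m + mono (-m) * (e - e2)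
  have h6 : σ = 1 := by
    by_contra hne
    obtain ⟨i, hi⟩ : ∃ i, σ i ≠ i := by
      by_contra hc
      push Not at hc
      exact hne (Equiv.ext hc)
    have := h5 (Finsupp.single i (n i + 1)) i
    rw [Finsupp.mapDomain_single] at this
    simp only [Finsupp.add_apply, Finsupp.neg_apply, Finsupp.single_eq_same,
      Finsupp.single_eq_of_ne hi.symm] at this
    omega
  have h7 : n = 0 := by
    have h8 : ∀ i, 0 ≤ n i := fun i => by simpa using h5 0 i
    rw [Finsupp.degree_apply, Finset.sum_eq_zero_iff_of_nonneg (fun i _ => h8 i)] at hn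
    ext i
    by_cases hi : i ∈ n.support
    · exact hn i hi
    · exact Finsupp.notMem_support_iff.1 hi
  apply hg
  rw [← inv_eq_one]
  apply Subtype.ext
  apply Units.ext
  apply SS_ext
  intro k
  rw [hu, h6, h7, mono_zero, Phi_one, one_mul]
  rfl

lemma hsimple : ∀ J : Set SS, (∀ a ∈ J, a ∈ AAA) → (∀ a ∈ J, ∀ b ∈ J, a + b ∈ J) →
    (∀ a ∈ J, ∀ b ∈ AAA, b * a ∈ J) → (∀ a ∈ J, ∀ b ∈ AAA, a * b ∈ J) →
    (∀ a ∈ J, ∀ g : GG, vv GG g * a * vv GG g⁻¹ ∈ J) → (∃ a ∈ J, a ≠ 0) → (1 : SS) ∈ J := by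
  intro J hA hadd hl hr hc ⟨a, ha, h0⟩
  have step : ∀ n : ℕ, ∀ L : List (KK × HH), L.length = n → (∀ p ∈ L, p.1 ∈ DD) → ∀ a ∈ J, a ≠ 0 →
      (∀ k, a k = (L.map (fun p => p.1 * Phi p.2 1 k)).sum) →
      ∃ d ∈ DD, d ≠ 0 ∧ TT d 1 1 ∈ J := by
    intro n
    induction n with
    | zero =>
      intro L hL _ a _ h0 h
      rw [List.length_eq_zero_iff] at hL
      subst hL
      exact absurd (SS_ext (fun k => by simpa using h k)) h0
    | succ n ih =>
      intro L hL hD a ha h0 h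
      obtain ⟨p, L', rfl⟩ := List.exists_cons_of_length_eq_add_one hL
      by_cases hy : ∀ y ∈ DD, a * TT y 1 1 + TT (- Phi p.2 1 y) 1 1 * a = 0
      · have h1 := semilin (a := a) (Phi p.2 1) (fun y hy' k => by
          have := congrArg (fun t : SS => t k) (hy y hy')
          simp only [SS_add, SS_mul, TT_apply, Phi_one, SS_zero] at this
          linear_combination this)
        obtain ⟨d, hd, e⟩ := AAA_pres (hA a ha) 0
        rw [mono_zero, one_mul] at e
        refine ⟨d, hd, fun h2 => h0 (SS_ext (fun k => by rw [h1, e, h2, mul_zero]; rfl)), ?_⟩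
        convert hr a ha _ (TT_mem DD.one_mem p.2⁻¹) using 1
        apply SS_ext
        intro k
        rw [SS_mul, h1, TT_apply, TT_apply, one_mul, Phi_tor, inv_mul_cancel, e, mul_comm]
      · push Not at hy
        obtain ⟨y, hy, hne⟩ := hy
        refine ih (L'.map (fun q => (q.1 * (Phi q.2 1 y - Phi p.2 1 y), q.2))) (by simpa using hL)
          ?_ _ (hadd _ (hr a ha _ (TT_mem hy 1)) _
            (hl a ha _ (TT_mem (DD.neg_mem (Phi_mem p.2 1 hy)) 1))) hne (fun k => ?_)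
        · intro q hq
          obtain ⟨r, hr', rfl⟩ := List.mem_map.1 hq
          exact DD.mul_mem (hD r (List.mem_cons_of_mem _ hr'))
            (DD.sub_mem (Phi_mem _ _ hy) (Phi_mem _ _ hy))
        · simp only [SS_add, SS_mul, TT_apply, Phi_one, h, List.map_cons, List.sum_cons,
            List.map_map]
          have : ∀ M : List (KK × HH), (M.map (fun q => q.1 * Phi q.2 1 (y * k))).sum -
              Phi p.2 1 y * (M.map (fun q => q.1 * Phi q.2 1 k)).sum =
              (M.map ((fun q : KK × HH => q.1 * Phi q.2 1 k) ∘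
                fun q => (q.1 * (Phi q.2 1 y - Phi p.2 1 y), q.2))).sum := by
            intro M
            induction M with
            | nil => simp
            | cons q M ihM =>
              simp only [List.map_cons, List.sum_cons, ← ihM, Function.comp, map_mul]
              ring
          rw [← this L', map_mul]
          ring
  obtain ⟨L, hL, h⟩ := AAA_list (hA a ha)
  obtain ⟨d, ⟨f, g, hg, hfg⟩, hd0, hdJ⟩ := step _ L rfl hL a ha h0 h
  have hf : f ≠ 0 := by
    rintro rfl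
    rw [map_zero] at hfg
    exact mul_ne_zero hd0 (io_ne hg.ne) hfg
  have h1 : TT (io f) 1 1 ∈ J := by
    have := hr _ hdJ _ (TT_mem (io_mem g) 1)
    rwa [TT_mul, Phi_one, hfg, mul_one] at this
  obtain ⟨σ, hσ⟩ := exists_good hf
  have h2 : TT (io (psi 1 σ f)) 1 1 ∈ J := by
    convert hc _ h1 ⟨UU 0 σ, UU_mem (by simp) σ⟩ using 1
    apply SS_ext
    intro k
    show _ = TT (mono 0) 1 σ (TT (io f) 1 1 (TT (mono ((-0 : ℤ →₀ ℤ).mapDomain
      (σ⁻¹ : Equiv.Perm ℤ))) 1 σ⁻¹ k))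
    simp only [TT_apply, neg_zero, Finsupp.mapDomain_zero, mono_zero, one_mul, Phi_one, map_mul,
      Phi_io, Phi_perm, mul_inv_cancel]
  have h3 := hl _ (hadd _ h1 _ h2) _ (TT_mem (inv_mem hσ) 1)
  convert h3 using 1
  apply SS_ext
  intro k
  simp only [SS_mul, SS_add, TT_apply, Phi_one, SS_one]
  rw [← add_mul, ← map_add, ← mul_assoc, inv_mul_cancel₀ (io_ne hσ.ne), one_mul]

lemma hex : ∃ g : GG, g ≠ 1 ∧ ∃ a ∈ AAA, a ≠ 0 ∧ a * vv GG g ∈ AAA := by
  refine ⟨⟨UU (Finsupp.single 0 1 + Finsupp.single 1 (-1)) 1, UU_mem (by simp) 1⟩, fun h => ?_,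
    TT (xx 1) 1 1, TT_mem (io_mem _) 1, fun h => ?_, ?_⟩
  · have h1 := congrArg (fun g : GG => vv GG g 1) h
    have h2 : mono (Finsupp.single 0 1 + Finsupp.single 1 (-1)) * Phi 1 1 1 = 1 := h1
    rw [map_one, mul_one] at h2
    have := eig (k := 1) one_ne_zero (fun l => map_one _)
      (m := Finsupp.single 0 1 + Finsupp.single 1 (-1)) (by rw [h2, one_mul]; exact DD.one_mem) 1
    simp at this
  · have := congrArg (fun t : SS => t 1) h
    simp only [TT_apply, map_one, mul_one, SS_zero] at this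
    exact xx_ne 1 this
  · convert TT_mem (io_mem (X 0)) 1 using 1
    apply SS_ext
    intro k
    show TT (xx 1) 1 1 (TT (mono (Finsupp.single 0 1 + Finsupp.single 1 (-1))) 1 1 k) = _
    simp only [TT_apply, Phi_one, mono_add, mono_single]
    have := xx_ne 1
    rw [show io (X 0) = xx 0 from rfl]
    field_simp

end Pool.Agent.H67.SG
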