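import Mathlib

namespace Pool.Agent.H67.SLn

open Matrix Matrix.SpecialLinearGroup MulAction
open scoped commutatorElement LinearAlgebra.Projectivization Pointwise

variable {ι F : Type*} [Field F] [DecidableEq ι] [Fintype ι]

theorem diag_eq {i j : ι} (hij : i ≠ j) (c : F) (hc : c ≠ 0) :
    diag2n hij c hc = SpecialLinearGroup.transvection hij c *
      SpecialLinearGroup.transvection hij.symm (-c⁻¹) * SpecialLinearGroup.transvection hij c *
      (SpecialLinearGroup.transvection hij (-1) * SpecialLinearGroup.transvection hij.symm 1 *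
        SpecialLinearGroup.transvection hij (-1)) := by
  apply Subtype.ext
  simp only [coe_mul, transvection_coe, diag2n_coe, mul_add, add_mul, mul_one, one_mul,
    Matrix.single_mul_single_same, Matrix.single_mul_single_of_ne _ _ _ _ hij,
    Matrix.single_mul_single_of_ne _ _ _ _ hij.symm, add_zero, zero_add, mul_zero, zero_mul]
  ext a b
  simp only [Matrix.add_apply, Matrix.diagonal_apply, Matrix.one_apply, Matrix.single_apply]
  by_cases h1 : i = a <;> by_cases h2 : j = a <;> by_cases h3 : i = b <;> by_cases h4 : j = b <;>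
    by_cases h5 : a = b <;> simp_all [eq_comm] <;> field_simp <;> ring

theorem gen [Nontrivial ι] (H : Subgroup (SpecialLinearGroup ι F))
    (h : ∀ (i j : ι) (hij : i ≠ j) (a : F), SpecialLinearGroup.transvection hij a ∈ H) : H = ⊤ := by
  rw [eq_top_iff]
  intro M _
  refine diagonal_transvection_induction' (· ∈ H) M ?_ h (fun _ _ => mul_mem)
  intro i j hij c hc
  rw [diag_eq]
  exact mul_mem (mul_mem (mul_mem (h _ _ _ _) (h _ _ _ _)) (h _ _ _ _))
    (mul_mem (mul_mem (h _ _ _ _) (h _ _ _ _)) (h _ _ _ _))

theorem comm_eq {i j k : ι} (hij : i ≠ j) (hik : i ≠ k) (hkj : k ≠ j) (c : F) :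
    SpecialLinearGroup.transvection hij c =
      ⁅SpecialLinearGroup.transvection hik c, SpecialLinearGroup.transvection hkj 1⁆ := by
  rw [commutatorElement_def, transvection_inv, transvection_inv]
  apply Subtype.ext
  simp only [coe_mul, transvection_coe, mul_add, add_mul, mul_one, one_mul,
    Matrix.single_mul_single_same, Matrix.single_mul_single_of_ne _ _ _ _ hij.symm,
    Matrix.single_mul_single_of_ne _ _ _ _ hik.symm,
    Matrix.single_mul_single_of_ne _ _ _ _ hkj.symm, add_zero, zero_add, mul_zero, zero_mul,
    mul_neg, neg_mul, ← Matrix.single_neg]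
  abel

theorem perfect (h3 : 3 ≤ Fintype.card ι) : commutator (SpecialLinearGroup ι F) = ⊤ := by
  haveI : Nontrivial ι := Fintype.one_lt_card_iff_nontrivial.1 (by omega)
  apply gen
  intro i j hij a
  obtain ⟨k, hk⟩ : ∃ k, k ∉ ({i, j} : Finset ι) := by
    by_contra hcon
    push Not at hcon
    have h1 : (Finset.univ : Finset ι) ⊆ {i, j} := fun k _ => hcon k
    have h2 := Finset.card_le_card h1
    have h4 := Finset.card_le_two (a := i) (b := j)
    rw [Finset.card_univ] at h2
    omega
  simp only [Finset.mem_insert, Finset.mem_singleton, not_or] at hk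
  rw [comm_eq hij (Ne.symm hk.1) hk.2]
  exact Subgroup.commutator_mem_commutator (Subgroup.mem_top _) (Subgroup.mem_top _)

noncomputable def iwa [Nontrivial ι] : IwasawaStructure (SpecialLinearGroup ι F) (ℙ F (ι → F)) where
  T p := lineStab p.submodule
  is_comm p := by
    rw [← Projectivization.mk_rep p, Projectivization.submodule_mk]
    exact lineStab_isMulCommutative_of_span p.rep p.rep_nonzero
  is_conj g p := by rw [PSL.smul_submodule, Matrix.SpecialLinearGroup.lineStab_smul]
  is_generator := by
    apply gen
    intro i j hij a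
    have := SL2Gen.transvection_mem_lineStab hij a
    rw [← Projectivization.submodule_mk (K := F) _ (Pi.single_ne_zero_iff.2 one_ne_zero)] at this
    exact Subgroup.mem_iSup_of_mem _ this

theorem quasi (h3 : 3 ≤ Fintype.card ι) (N : Subgroup (SpecialLinearGroup ι F)) [N.Normal] :
    N = ⊤ ∨ N ≤ Subgroup.center _ := by
  haveI : Nontrivial ι := Fintype.one_lt_card_iff_nontrivial.1 (by omega)
  by_cases h : fixedPoints N (ℙ F (ι → F)) = Set.univ
  · right
    rw [← Projectivization.SL_mulAction_ker]
    intro n hn
    rw [MonoidHom.mem_ker]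
    ext p
    exact Set.eq_univ_iff_forall.1 h p ⟨n, hn⟩
  · left
    have := (iwa (ι := ι) (F := F)).commutator_le N h
    rwa [perfect h3, top_le_iff] at this

end Pool.Agent.H67.SLn
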