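import Mathlib

/-! Ordered triples of pairwise distinct points and the coordinatewise action on them. -/

namespace Pool.Agent.H67.ST

/-- `M^{(3)}`: ordered triples of pairwise distinct points, with the subspace topology. -/
abbrev Trip (M : Type) : Type :=
  {p : M × M × M // p.1 ≠ p.2.1 ∧ p.1 ≠ p.2.2 ∧ p.2.1 ≠ p.2.2}

/-- The coordinatewise action of `g` on a triple of distinct points. -/
def act {G M : Type} [Group G] [MulAction G M] (g : G) (t : Trip M) : Trip M :=
  ⟨(g • t.1.1, g • t.1.2.1, g • t.1.2.2),
    fun h => t.2.1 (MulAction.injective g h), fun h => t.2.2.1 (MulAction.injective g h),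
    fun h => t.2.2.2 (MulAction.injective g h)⟩

end Pool.Agent.H67.ST
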