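import Mathlib
import Pool.Agent.H67.STDefs

/-! Twisted Moebius groups on the one-point compactification of a topological field. -/

namespace Pool.Agent.H67.ST

open OnePoint Matrix Filter Topology

variable {K : Type} [Field K] [DecidableEq K]

def mT (b : K) : GL (Fin 2) K := GeneralLinearGroup.mkOfDetNeZero !![1, b; 0, 1] (by simp)
def mS (a : K) (ha : a ≠ 0) : GL (Fin 2) K :=
  GeneralLinearGroup.mkOfDetNeZero !![a, 0; 0, 1] (by simpa using ha)
def mJ : GL (Fin 2) K := GeneralLinearGroup.mkOfDetNeZero !![0, 1; 1, 0] (by simp)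

lemma mT_smul (b : K) (x : OnePoint K) : mT b • x = x.map (fun y => y + b) := by
  cases x with
  | infty => simp [smul_infty_eq_ite, mT]
  | coe x => simp [smul_some_eq_ite, mT]

lemma mS_smul (a : K) (ha : a ≠ 0) (x : OnePoint K) : mS a ha • x = x.map (fun y => a * y) := by
  cases x with
  | infty => simp [smul_infty_eq_ite, mS]
  | coe x => simp [smul_some_eq_ite, mS]

lemma mJ_infty : (mJ : GL (Fin 2) K) • (∞ : OnePoint K) = ((0 : K) : OnePoint K) := by
  simp [smul_infty_eq_ite, mJ]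

lemma mJ_coe (x : K) : (mJ : GL (Fin 2) K) • (x : OnePoint K) =
    if x = 0 then ∞ else ((x⁻¹ : K) : OnePoint K) := by
  simp [smul_some_eq_ite, mJ]

lemma det_mS (a : Kˣ) : GeneralLinearGroup.det (mS (a : K) a.ne_zero) = a := by
  ext
  simp [mS, GeneralLinearGroup.val_det_apply]

lemma fix_three (g : GL (Fin 2) K) (h1 : g • (∞ : OnePoint K) = ∞)
    (h2 : g • ((0 : K) : OnePoint K) = ((0 : K) : OnePoint K))
    (h3 : g • ((1 : K) : OnePoint K) = ((1 : K) : OnePoint K)) :
    (∀ x : OnePoint K, g • x = x) ∧ ∃ a : Kˣ, GeneralLinearGroup.det g = a * a := by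
  rw [smul_infty_eq_self_iff] at h1
  have hd := g.det_ne_zero
  rw [det_fin_two] at hd
  have h11 : g 1 1 ≠ 0 := by
    intro h
    apply hd
    simp [h, h1]
  rw [smul_some_eq_ite] at h2 h3
  simp [h1, h11] at h2 h3
  rw [h2, add_zero, div_eq_one_iff_eq h11] at h3
  refine ⟨fun x => ?_, Units.mk0 _ h11, ?_⟩
  · cases x with
    | infty => exact smul_infty_eq_self_iff.2 h1
    | coe x =>
      rw [smul_some_eq_ite]
      simp [h1, h2, h3, h11]
  · ext
    simp [GeneralLinearGroup.val_det_apply, det_fin_two, h1, h2, h3]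

section top
variable [TopologicalSpace K] [IsTopologicalDivisionRing K] [T2Space K]

lemma cont_homeo (h : K ≃ₜ K) : Continuous (OnePoint.map h : OnePoint K → OnePoint K) :=
  (Homeomorph.onePointCongr h).continuous

lemma mT_cont (b : K) : Continuous (fun x : OnePoint K => mT b • x) := by
  simp only [mT_smul]
  exact cont_homeo (Homeomorph.addRight b)

lemma mS_cont (a : K) (ha : a ≠ 0) : Continuous (fun x : OnePoint K => mS a ha • x) := by
  simp only [mS_smul]
  exact cont_homeo (Homeomorph.mulLeft₀ a ha)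

lemma mJ_cont (hinv : Tendsto (fun x : K => x⁻¹) (cocompact K) (𝓝 0)) :
    Continuous (fun x : OnePoint K => (mJ : GL (Fin 2) K) • x) := by
  rw [continuous_iff_continuousAt]
  intro x
  cases x with
  | infty =>
    rw [continuousAt_infty', mJ_infty, coclosedCompact_eq_cocompact]
    have h0 : ∀ᶠ x : K in cocompact K, x ≠ 0 := (isCompact_singleton (x := (0 : K))).compl_mem_cocompact
    refine ((continuous_coe.tendsto (0 : K)).comp hinv).congr' ?_
    filter_upwards [h0] with x hx
    simp [mJ_coe, hx]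
  | coe x =>
    rw [continuousAt_coe]
    by_cases hx : x = 0
    · subst hx
      rw [ContinuousAt]
      simp only [Function.comp_apply, mJ_coe, if_true]
      rw [hasBasis_nhds_infty.tendsto_right_iff]
      rintro s ⟨-, hs⟩
      have : ∀ᶠ x : K in 𝓝 0, ∀ y ∈ s, x * y ≠ 1 := by
        apply hs.eventually_forall_of_forall_eventually
        intro y _
        have hc : Continuous (fun p : K × K => p.1 * p.2) := by fun_prop
        have : ({1}ᶜ : Set K) ∈ 𝓝 ((0 : K) * y) := by
          apply isOpen_compl_singleton.mem_nhds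
          simp
        exact hc.continuousAt (x := (0, y)) this
      filter_upwards [this] with x hx
      by_cases h0 : x = 0
      · simp [mJ_coe, h0]
      · simp only [Function.comp_apply, mJ_coe, h0, if_false]
        left
        exact ⟨x⁻¹, fun hm => hx _ hm (mul_inv_cancel₀ h0), rfl⟩
    · have h1 : ContinuousAt (fun y : K => ((y⁻¹ : K) : OnePoint K)) x :=
        continuous_coe.continuousAt.comp (continuousAt_inv₀ hx)
      refine h1.congr ?_
      filter_upwards [isOpen_compl_singleton.mem_nhds hx] with y hy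
      have : y ≠ 0 := hy
      simp [mJ_coe, this]

lemma exists_cont (hinv : Tendsto (fun x : K => x⁻¹) (cocompact K) (𝓝 0))
    (x y z : OnePoint K) (hxy : x ≠ y) (hxz : x ≠ z) (hyz : y ≠ z) :
    ∃ g : GL (Fin 2) K, Continuous (fun p : OnePoint K => g • p) ∧ g • x = ∞ ∧
      g • y = ((0 : K) : OnePoint K) ∧ g • z = ((1 : K) : OnePoint K) := by
  obtain ⟨g₁, c₁, h₁⟩ : ∃ g : GL (Fin 2) K, Continuous (fun p : OnePoint K => g • p) ∧
      g • x = ∞ := by
    cases x with
    | infty => exact ⟨1, by simpa using continuous_id', one_smul _ _⟩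
    | coe x =>
      refine ⟨mJ * mT (-x), ?_, ?_⟩
      · simp only [mul_smul]
        exact (mJ_cont hinv).comp (mT_cont _)
      · simp [mul_smul, mT_smul, mJ_coe]
  have hy : g₁ • y ≠ ∞ := fun h => hxy (MulAction.injective g₁ (h₁.trans h.symm))
  have hz : g₁ • z ≠ ∞ := fun h => hxz (MulAction.injective g₁ (h₁.trans h.symm))
  obtain ⟨b, hb⟩ := ne_infty_iff_exists.1 hy
  obtain ⟨c, hc⟩ := ne_infty_iff_exists.1 hz
  have hbc : c - b ≠ 0 := by
    intro h
    rw [sub_eq_zero] at h
    apply hyz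
    apply MulAction.injective g₁
    simp only
    rw [← hb, ← hc, h]
  refine ⟨mS (c - b)⁻¹ (inv_ne_zero hbc) * mT (-b) * g₁, ?_, ?_, ?_, ?_⟩
  · simp only [mul_smul]
    exact (mS_cont _ _).comp ((mT_cont _).comp c₁)
  · simp [mul_smul, h₁, mT_smul, mS_smul]
  · simp [mul_smul, ← hb, mT_smul, mS_smul]
  · simp only [mul_smul, ← hc, mT_smul, mS_smul, map_some, ← sub_eq_add_neg,
      inv_mul_cancel₀ hbc]

lemma gl_cont (hinv : Tendsto (fun x : K => x⁻¹) (cocompact K) (𝓝 0)) (g : GL (Fin 2) K) :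
    Continuous (fun p : OnePoint K => g • p) := by
  obtain ⟨h, hc, h1, h2, h3⟩ := exists_cont hinv (g⁻¹ • (∞ : OnePoint K))
    (g⁻¹ • ((0 : K) : OnePoint K)) (g⁻¹ • ((1 : K) : OnePoint K))
    (fun h => by simpa using MulAction.injective _ h)
    (fun h => by simpa using MulAction.injective _ h)
    (fun h => by simpa using MulAction.injective _ h)
  rw [← mul_smul] at h1 h2 h3
  have := (fix_three _ h1 h2 h3).1
  have e : (fun p : OnePoint K => g • p) = fun p => h • p := by
    funext p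
    rw [← this (g • p), ← mul_smul]
    simp
  rw [e]
  exact hc

end top

/-- `id` or `σ`. -/
def tw (σ : K →+* K) (e : ZMod 2) : K →+* K := if e = 0 then RingHom.id K else σ

omit [DecidableEq K] in
lemma tw_add (σ : K →+* K) (hσ : ∀ x, σ (σ x) = x) (e f : ZMod 2) (x : K) :
    tw σ (e + f) x = tw σ e (tw σ f x) := by
  have h : ∀ e : ZMod 2, e = 0 ∨ e = 1 := by decide
  have h1 : (1 : ZMod 2) ≠ 0 := by decide
  have h2 : (1 + 1 : ZMod 2) = 0 := by decide
  rcases h e with rfl | rfl <;> rcases h f with rfl | rfl <;> simp [tw, h1, h2, hσ]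

omit [DecidableEq K] in
lemma map_tw_add (σ : K →+* K) (hσ : ∀ x, σ (σ x) = x) (e f : ZMod 2) (x : OnePoint K) :
    x.map (tw σ (e + f)) = (x.map (tw σ f)).map (tw σ e) := by
  cases x with
  | infty => rfl
  | coe x => simp [tw_add σ hσ]

omit [DecidableEq K] in
lemma map_tw_zero (σ : K →+* K) (x : OnePoint K) : x.map (tw σ 0) = x := by
  cases x with
  | infty => rfl
  | coe x => simp [tw]

/-- The twisted group. -/
def twG (σ : K →+* K) (hσ : ∀ x, σ (σ x) = x) (κ : Kˣ → ZMod 2)
    (hκ : ∀ a b, κ (a * b) = κ a + κ b) (hκσ : ∀ a, κ (Units.map (σ : K →* K) a) = κ a) :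
    Subgroup (Equiv.Perm (OnePoint K)) where
  carrier := {π | ∃ g : GL (Fin 2) K, ∀ x, π x = g • x.map (tw σ (κ (GeneralLinearGroup.det g)))}
  one_mem' := by
    have h1 : κ 1 = 0 := by simpa using hκ 1 1
    exact ⟨1, fun x => by simp [h1, map_tw_zero]⟩
  mul_mem' := by
    rintro π₁ π₂ ⟨g₁, h₁⟩ ⟨g₂, h₂⟩
    have ht : ∀ e a, κ (Units.map (tw σ e : K →* K) a) = κ a := by
      intro e a
      unfold tw
      split_ifs
      · simp
      · exact hκσ a
    refine ⟨g₁ * g₂.map (tw σ (κ (GeneralLinearGroup.det g₁))), fun x => ?_⟩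
    rw [map_mul, GeneralLinearGroup.map_det, hκ, ht, Equiv.Perm.mul_apply, h₁, h₂, mul_smul,
      OnePoint.map_smul, map_tw_add σ hσ]
  inv_mem' := by
    rintro π ⟨g, h⟩
    have ht : ∀ e a, κ (Units.map (tw σ e : K →* K) a) = κ a := by
      intro e a
      unfold tw
      split_ifs
      · simp
      · exact hκσ a
    have h1 : κ 1 = 0 := by simpa using hκ 1 1
    have h2 : ∀ e : ZMod 2, e + e = 0 := by decide
    have hi : ∀ a, κ a⁻¹ = κ a := by
      intro a
      have := hκ a a⁻¹
      rw [mul_inv_cancel, h1] at this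
      linear_combination h2 (κ a) * (-1) - this + h2 (κ a⁻¹) * 0 + 0 * h2 0
    refine ⟨(g⁻¹).map (tw σ (κ (GeneralLinearGroup.det g))), fun x => ?_⟩
    have hd : GeneralLinearGroup.det g⁻¹ = (GeneralLinearGroup.det g)⁻¹ := map_inv _ _
    rw [GeneralLinearGroup.map_det, ht, hd, hi, ← OnePoint.map_smul,
      Equiv.Perm.inv_eq_iff_eq, h, ← map_tw_add σ hσ, h2, map_tw_zero, smul_inv_smul]

theorem abstract_result [TopologicalSpace K] [IsTopologicalDivisionRing K] [T2Space K]
    [WeaklyLocallyCompactSpace K]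
    (hinv : Tendsto (fun x : K => x⁻¹) (cocompact K) (𝓝 0))
    (σ : K →+* K) (hσ : ∀ x, σ (σ x) = x) (hσc : Continuous σ) (κ : Kˣ → ZMod 2)
    (hκ : ∀ a b, κ (a * b) = κ a + κ b) (hκσ : ∀ a, κ (Units.map (σ : K →* K) a) = κ a)
    (u : ℕ → Kˣ) (hu : Tendsto (fun n => (u n : K)) atTop (𝓝 1)) (hκu : ∀ n, κ (u n) = 1)
    (ω : K) (hω : σ ω ≠ ω) :
    (∀ π : twG σ hσ κ hκ hκσ, Continuous (fun x : OnePoint K => π • x)) ∧
    (∀ s t : Trip (OnePoint K), ∃! π : twG σ hσ κ hκ hκσ, act π s = t) ∧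
    ¬ ∃ τ : TopologicalSpace (twG σ hσ κ hκ hκσ),
      ∀ t : Trip (OnePoint K), IsHomeomorph (fun π : twG σ hσ κ hκ hκσ => act π t) := by
  have h1 : κ 1 = 0 := by simpa using hκ 1 1
  have h2 : ∀ e : ZMod 2, e + e = 0 := by decide
  have hsm : ∀ (π : twG σ hσ κ hκ hκσ) (x : OnePoint K), π • x = π.1 x := fun _ _ => rfl
  have htc : ∀ e, Continuous (OnePoint.map (tw σ e) : OnePoint K → OnePoint K) := by
    intro e
    unfold tw
    split_ifs
    · exact cont_homeo (Homeomorph.refl K)
    · exact cont_homeo ⟨⟨σ, σ, hσ, hσ⟩, hσc, hσc⟩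
  -- the element attached to a matrix
  have hel : ∀ g : GL (Fin 2) K, ∃ π : twG σ hσ κ hκ hκσ,
      ∀ x : OnePoint K, π • x = g • x.map (tw σ (κ (GeneralLinearGroup.det g))) := by
    intro g
    let e := κ (GeneralLinearGroup.det g)
    let p : Equiv.Perm (OnePoint K) :=
      ⟨fun x => g • x.map (tw σ e), fun y => (g⁻¹ • y).map (tw σ e),
        fun x => by simp only [inv_smul_smul]; rw [← map_tw_add σ hσ, h2, map_tw_zero],
        fun y => by simp only; rw [← map_tw_add σ hσ, h2, map_tw_zero, smul_inv_smul]⟩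
    exact ⟨⟨p, g, fun x => rfl⟩, fun x => rfl⟩
  let b : Trip (OnePoint K) := ⟨(∞, ((0 : K) : OnePoint K), ((1 : K) : OnePoint K)), by simp⟩
  have hact_mul : ∀ (π ρ : twG σ hσ κ hκ hκσ) (t : Trip (OnePoint K)),
      act (π * ρ) t = act π (act ρ t) := by
    intro π ρ t
    apply Subtype.ext
    simp [act, mul_smul]
  have hact_one : ∀ t : Trip (OnePoint K), act (1 : twG σ hσ κ hκ hκσ) t = t := by
    intro t
    apply Subtype.ext
    simp [act]
  have hfix : ∀ π : twG σ hσ κ hκ hκσ, act π b = b → π = 1 := by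
    rintro ⟨π, g, hg⟩ h
    have h' := congrArg Subtype.val h
    simp only [act, b, hsm, hg, Prod.mk.injEq, map_infty, map_some, map_zero, map_one] at h'
    obtain ⟨hf, a, ha⟩ := fix_three g h'.1 h'.2.1 h'.2.2
    apply Subtype.ext
    ext x
    simp only [hg, ha, hκ, h2, map_tw_zero, hf]
    rfl
  have htr : ∀ t : Trip (OnePoint K), ∃ π : twG σ hσ κ hκ hκσ, act π b = t := by
    intro t
    obtain ⟨g, -, e1, e2, e3⟩ := exists_cont hinv _ _ _ t.2.1 t.2.2.1 t.2.2.2
    obtain ⟨π, hπ⟩ := hel g⁻¹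
    refine ⟨π, Subtype.ext ?_⟩
    simp only [act, b, hπ, map_infty, map_some, map_zero, map_one]
    rw [← e1, ← e2, ← e3]
    simp
  refine ⟨?_, ?_, ?_⟩
  · rintro ⟨π, g, hg⟩
    simp only [hsm, hg]
    exact (gl_cont hinv g).comp (htc _)
  · intro s t
    obtain ⟨ρ, rfl⟩ := htr s
    obtain ⟨ρ', rfl⟩ := htr t
    refine ⟨ρ' * ρ⁻¹, ?_, ?_⟩
    · simp only
      rw [← hact_mul]
      simp
    · intro π hπ
      have : act (ρ'⁻¹ * π * ρ) b = b := by
        rw [hact_mul, hact_mul, hπ, ← hact_mul]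
        simp [hact_one]
      have := hfix _ this
      rw [mul_assoc, inv_mul_eq_one] at this
      rw [this]
      simp
  · rintro ⟨τ, hτ⟩
    choose π hπ using fun n => hel (mS (u n : K) (u n).ne_zero)
    have h10 : (1 : ZMod 2) ≠ 0 := by decide
    have hπ' : ∀ n (x : OnePoint K), π n • x = x.map (fun y => u n * σ y) := by
      intro n x
      rw [hπ, det_mS, hκu, mS_smul]
      cases x with
      | infty => rfl
      | coe x => simp [tw, h10]
    have hω0 : ω ≠ 0 := by
      rintro rfl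
      simp at hω
    let c : Trip (OnePoint K) := ⟨(∞, ((0 : K) : OnePoint K), (ω : OnePoint K)), by
      simp [hω0.symm]⟩
    have t1 : Tendsto π atTop (𝓝 1) := by
      rw [(hτ b).isInducing.tendsto_nhds_iff, hact_one, tendsto_subtype_rng]
      simp only [Function.comp_apply, act, b, hπ', map_infty, map_some, map_zero, map_one,
        mul_zero, mul_one]
      exact tendsto_const_nhds.prodMk_nhds (tendsto_const_nhds.prodMk_nhds
        ((continuous_coe.tendsto _).comp hu))
    have t2 : Tendsto (fun n => (act (π n) c).1.2.2) atTop (𝓝 (act (1 : twG σ hσ κ hκ hκσ) c).1.2.2) :=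
      ((continuous_snd.comp (continuous_snd.comp continuous_subtype_val)).tendsto _).comp
        (((hτ c).continuous.tendsto 1).comp t1)
    rw [hact_one] at t2
    simp only [act, c, hπ', map_some] at t2
    have t3 : Tendsto (fun n => (((u n : K) * σ ω : K) : OnePoint K)) atTop
        (𝓝 ((1 * σ ω : K) : OnePoint K)) :=
      (continuous_coe.tendsto _).comp (hu.mul_const _)
    have := tendsto_nhds_unique t3 t2
    simp only [one_mul, coe_eq_coe] at this
    exact hω this

end Pool.Agent.H67.ST
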