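import Mathlib

/-! Topological and algebraic facts on Laurent series over a finite field of characteristic 2. -/

namespace Pool.Agent.H67.ST

open Filter Topology LaurentSeries WithZero

variable {F : Type} [Field F]

/-- closed balls -/
def ball (F : Type) [Field F] (D : ℤ) : Set F⸨X⸩ := {x | Valued.v x ≤ exp (-D)}

lemma mem_ball {D : ℤ} {x : F⸨X⸩} : x ∈ ball F D ↔ ∀ n < D, x.coeff n = 0 :=
  valuation_le_iff_coeff_lt_eq_zero F

lemma basis_zero : (𝓝 (0 : F⸨X⸩)).HasBasis (fun _ : ℤ => True) (ball F) := by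
  refine (Valued.hasBasis_nhds_zero F⸨X⸩ ℤᵐ⁰).to_hasBasis ?_ ?_
  · intro γ _
    have h0 : MonoidWithZeroHom.ValueGroup₀.embedding γ.1 ≠ (0 : ℤᵐ⁰) := by simp
    refine ⟨-(log (MonoidWithZeroHom.ValueGroup₀.embedding γ.1)) + 1, trivial, fun x hx => ?_⟩
    simp only [Set.mem_setOf_eq, Valuation.restrict_lt_iff_lt_embedding]
    refine lt_of_le_of_lt hx ?_
    conv_rhs => rw [← exp_log h0]
    rw [exp_lt_exp]
    omega
  · intro D _
    obtain ⟨x, hx⟩ := LaurentSeries.valuation_surjective F (exp (-D))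
    have : Valued.v.restrict x ≠ 0 := by
      intro h
      have h' := MonoidWithZeroHom.ValueGroup₀.restrict₀_eq_zero_iff.1 h
      exact exp_ne_zero (hx.symm.trans h')
    refine ⟨Units.mk0 _ this, trivial, fun y hy => ?_⟩
    simp only [Set.mem_setOf_eq, Units.val_mk0, Valuation.restrict_lt_iff] at hy
    rw [hx] at hy
    exact hy.le

lemma ball_compact [Finite F] (D : ℤ) : IsCompact (ball F D) := by
  letI : TopologicalSpace F := ⊥
  haveI : DiscreteTopology F := ⟨rfl⟩
  let f : (ℕ → F) → F⸨X⸩ := fun a => ((PowerSeries.mk a : PowerSeries F) : F⸨X⸩)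
  have hf : Continuous f := by
    rw [continuous_iff_continuousAt]
    intro a
    rw [ContinuousAt, ← tendsto_sub_nhds_zero_iff, basis_zero.tendsto_right_iff]
    intro E _
    have : ∀ᶠ b in 𝓝 a, ∀ n ∈ Finset.range E.toNat, b n = a n := by
      rw [Finset.eventually_all]
      intro n _
      exact (continuous_apply n).continuousAt (x := a) (isOpen_discrete {a n} |>.mem_nhds rfl)
    filter_upwards [this] with b hb
    rw [mem_ball]
    intro n hn
    simp only [f, HahnSeries.coeff_sub, PowerSeries.coeff_coe]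
    split_ifs with h
    · simp
    · simp only [PowerSeries.coeff_mk]
      rw [hb _ (Finset.mem_range.2 (by omega)), sub_self]
  have hc : IsCompact (Set.range fun a => (HahnSeries.single D (1 : F) : F⸨X⸩) * f a) :=
    isCompact_range (continuous_const.mul hf)
  convert hc using 1
  ext x
  constructor
  · intro hx
    have : Valued.v ((HahnSeries.single (-D) (1 : F) : F⸨X⸩) * x) ≤ (1 : ℤᵐ⁰) := by
      rw [map_mul, valuation_single_zpow, neg_neg]
      calc exp D * Valued.v x ≤ exp D * exp (-D) := by gcongr; exact hx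
        _ = 1 := by rw [← exp_add]; simp
    obtain ⟨P, hP⟩ := (val_le_one_iff_eq_coe F _).1 this
    refine ⟨fun n => PowerSeries.coeff n P, ?_⟩
    have e : PowerSeries.mk (fun n => PowerSeries.coeff n P) = P := by ext; simp
    simp only [f, e, hP, ← mul_assoc, HahnSeries.single_mul_single]
    simp
  · rintro ⟨a, rfl⟩
    have : Valued.v (f a) ≤ (1 : ℤᵐ⁰) := (val_le_one_iff_eq_coe F _).2 ⟨_, rfl⟩
    simp only [ball, Set.mem_setOf_eq, map_mul, valuation_single_zpow]
    calc exp (-D) * Valued.v (f a) ≤ exp (-D) * 1 := by gcongr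
      _ = _ := mul_one _

lemma wlc [Finite F] : WeaklyLocallyCompactSpace F⸨X⸩ := by
  have := (ball_compact (F := F) 0).locallyCompactSpace_of_mem_nhds_of_addGroup
    (basis_zero.mem_of_mem trivial)
  infer_instance

lemma inv_cocompact [Finite F] : Tendsto (fun x : F⸨X⸩ => x⁻¹) (cocompact F⸨X⸩) (𝓝 0) := by
  rw [basis_zero.tendsto_right_iff]
  intro D _
  filter_upwards [(ball_compact (F := F) (-D)).compl_mem_cocompact] with x hx
  simp only [ball, Set.mem_compl_iff, Set.mem_setOf_eq, neg_neg, not_le] at hx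
  simp only [ball, Set.mem_setOf_eq, map_inv₀, exp_neg]
  exact inv_anti₀ (zero_lt_iff.2 exp_ne_zero) hx.le

/-- coefficientwise ring endomorphism -/
noncomputable def sig (φ : F →+* F) : F⸨X⸩ →+* F⸨X⸩ where
  toFun x := x.map φ
  map_one' := HahnSeries.map_one φ.toMonoidWithZeroHom
  map_mul' _ _ := HahnSeries.map_mul φ.toNonUnitalRingHom
  map_zero' := by ext; simp
  map_add' _ _ := by ext; simp

@[simp] lemma sig_coeff (φ : F →+* F) (x : F⸨X⸩) (n : ℤ) : (sig φ x).coeff n = φ (x.coeff n) := rfl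

lemma sig_single (φ : F →+* F) (n : ℤ) (a : F) :
    sig φ (HahnSeries.single n a) = HahnSeries.single n (φ a) := by
  ext m
  simp only [sig_coeff, HahnSeries.coeff_single]
  split_ifs <;> simp

lemma sig_cont (φ : F →+* F) : Continuous (sig φ) := by
  apply continuous_of_continuousAt_zero
  rw [ContinuousAt, map_zero, basis_zero.tendsto_right_iff]
  intro D _
  filter_upwards [basis_zero.mem_of_mem (i := D) trivial] with x hx
  rw [mem_ball] at hx ⊢
  intro n hn
  simp [hx n hn]

lemma sq_coeff_odd [CharP F 2] (y : F⸨X⸩) (n : ℤ) : (y * y).coeff (2 * n + 1) = 0 := by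
  rw [HahnSeries.coeff_mul]
  refine Finset.sum_involution (fun a _ => a.swap) ?_ ?_ ?_ ?_
  · intro a _
    simp only [Prod.fst_swap, Prod.snd_swap]
    rw [mul_comm (y.coeff a.2), CharTwo.add_self_eq_zero]
  · intro a ha _ h
    have h1 := (Finset.mem_antidiagonal.1 ha).2.2
    have h2 := congrArg Prod.fst h
    simp only [Prod.fst_swap] at h2
    omega
  · intro a ha
    have := Finset.mem_antidiagonal.1 ha
    exact Finset.mem_antidiagonal.2 ⟨this.2.1, this.1, by simp [add_comm, this.2.2]⟩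
  · intro a _
    rfl

/-- principal unit groups -/
def U (F : Type) [Field F] (m : ℕ) : Subgroup F⸨X⸩ˣ where
  carrier := {x | (x : F⸨X⸩) - 1 ∈ ball F (m + 1 : ℕ)}
  one_mem' := by simp [ball]
  mul_mem' := by
    intro a b ha hb
    simp only [ball, Set.mem_setOf_eq] at ha hb ⊢
    have h1 : exp (-((m + 1 : ℕ) : ℤ)) < (1 : ℤᵐ⁰) := by
      rw [← exp_zero, exp_lt_exp]; omega
    have hb1 : Valued.v (b : F⸨X⸩) = 1 := by
      have := Valued.v.map_one_add_of_lt (lt_of_le_of_lt hb h1)
      simpa using this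
    have : ((a * b : F⸨X⸩ˣ) : F⸨X⸩) - 1 = (a - 1) * b + (b - 1) := by
      simp only [Units.val_mul]; ring
    rw [this]
    refine Valued.v.map_add_le ?_ hb
    rw [map_mul, hb1, mul_one]
    exact ha
  inv_mem' := by
    intro b hb
    simp only [ball, Set.mem_setOf_eq] at hb ⊢
    have h1 : exp (-((m + 1 : ℕ) : ℤ)) < (1 : ℤᵐ⁰) := by
      rw [← exp_zero, exp_lt_exp]; omega
    have hb1 : Valued.v (b : F⸨X⸩) = 1 := by
      have := Valued.v.map_one_add_of_lt (lt_of_le_of_lt hb h1)
      simpa using this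
    have : ((b⁻¹ : F⸨X⸩ˣ) : F⸨X⸩) - 1 = -((b - 1) * (b : F⸨X⸩)⁻¹) := by
      rw [Units.val_inv_eq_inv_val]
      field_simp
      ring
    rw [this, Valuation.map_neg, map_mul, map_inv₀, hb1, inv_one, mul_one]
    exact hb

lemma U_anti {m k : ℕ} (h : m ≤ k) : U F k ≤ U F m := by
  intro x hx
  have hx' : (x : F⸨X⸩) - 1 ∈ ball F (k + 1 : ℕ) := hx
  change (x : F⸨X⸩) - 1 ∈ ball F (m + 1 : ℕ)
  rw [mem_ball] at hx' ⊢
  intro n hn
  exact hx' n (by omega)

lemma exists_fun {Q : Type} [AddCommGroup Q] [Module (ZMod 2) Q] (v : ℕ → Q)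
    (W : ℕ → AddSubgroup Q) (h1 : ∀ n k, n < k → v k ∈ W n) (h2 : ∀ n, v n ∉ W n) :
    ∃ f : Q →ₗ[ZMod 2] ZMod 2, ∀ n, f (v n) = 1 := by
  have hz : ∀ e : ZMod 2, e = 0 ∨ e = 1 := by decide
  have hv : LinearIndependent (ZMod 2) v := by
    rw [linearIndependent_iff']
    intro s g hg
    by_contra hne
    push Not at hne
    classical
    let n := Nat.find hne
    have hn : n ∈ s ∧ g n ≠ 0 := Nat.find_spec hne
    have hmin : ∀ k < n, ¬ (k ∈ s ∧ g k ≠ 0) := fun k hk => Nat.find_min hne hk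
    have hW : ∑ i ∈ s.erase n, g i • v i ∈ W n := by
      apply sum_mem
      intro i hi
      rcases hz (g i) with h | h
      · rw [h, zero_smul]; exact zero_mem _
      · rw [h, one_smul]
        have hi' := Finset.mem_erase.1 hi
        have : n < i := by
          rcases lt_trichotomy n i with h' | h' | h'
          · exact h'
          · exact absurd h'.symm hi'.1
          · exact absurd ⟨hi'.2, by rw [h]; decide⟩ (hmin i h')
        exact h1 n i this
    rw [← Finset.add_sum_erase s _ hn.1, (hz (g n)).resolve_left hn.2, one_smul,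
      add_eq_zero_iff_eq_neg] at hg
    exact h2 n (hg ▸ neg_mem hW)
  obtain ⟨f, hf⟩ := LinearMap.exists_extend
    ((Finsupp.linearCombination (ZMod 2) (fun _ : ℕ => (1 : ZMod 2))).comp hv.repr)
  refine ⟨f, fun n => ?_⟩
  have := LinearMap.congr_fun hf ⟨v n, Submodule.subset_span ⟨n, rfl⟩⟩
  simp only [LinearMap.comp_apply, Submodule.subtype_apply] at this
  rw [hv.repr_eq_single n _ rfl] at this
  simpa using this

/-- A character equal to one on a sequence running strictly down a chain of subgroups modulo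
squares. -/
lemma exists_char {A : Type} [CommGroup A] (w : ℕ → A) (V : ℕ → Subgroup A)
    (h1 : ∀ n k, n < k → w k ∈ V n) (h2 : ∀ n y, w n * (y * y) ∉ V n) :
    ∃ κ : A → ZMod 2, (∀ a b, κ (a * b) = κ a + κ b) ∧ ∀ n, κ (w n) = 1 := by
  let H : AddSubgroup (Additive A) := (nsmulAddMonoidHom 2 : Additive A →+ Additive A).range
  letI : Module (ZMod 2) (Additive A ⧸ H) := QuotientAddGroup.zmodModule (fun x => ⟨x, rfl⟩)
  let q : Additive A →+ Additive A ⧸ H := QuotientAddGroup.mk' H
  obtain ⟨f, hf⟩ := exists_fun (fun n => q (Additive.ofMul (w n)))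
    (fun n => (V n).toAddSubgroup.map q) (fun n k h => ⟨Additive.ofMul (w k), h1 n k h, rfl⟩) (by
      rintro n ⟨z, hzV, hz'⟩
      have : q z = q (Additive.ofMul (w n)) := hz'
      rw [QuotientAddGroup.mk'_eq_mk'] at this
      obtain ⟨_, ⟨y, rfl⟩, hy⟩ := this
      apply h2 n (Additive.toMul y)⁻¹
      have e : w n = Additive.toMul z * (Additive.toMul y * Additive.toMul y) := by
        have := congrArg Additive.toMul hy
        simp only [nsmulAddMonoidHom_apply, toMul_add, toMul_nsmul, toMul_ofMul] at this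
        rw [← this, pow_two]
      rw [e]
      have : Additive.toMul z * (Additive.toMul y * Additive.toMul y) *
        ((Additive.toMul y)⁻¹ * (Additive.toMul y)⁻¹) = Additive.toMul z := by group
      rw [this]
      exact hzV)
  refine ⟨fun a => f (q (Additive.ofMul a)), fun a b => ?_, hf⟩
  simp only [ofMul_mul]
  rw [q.map_add, f.map_add]

/-- the sequence of units `1 + ω t^(2n+1)` -/
noncomputable def uu (ω : F) (n : ℕ) : F⸨X⸩ := 1 + HahnSeries.single (2 * (n : ℤ) + 1) ω

lemma uu_sub (ω : F) (n : ℕ) : uu ω n - 1 ∈ ball F (2 * n + 1) := by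
  rw [mem_ball]
  intro k hk
  simp only [uu, add_sub_cancel_left, HahnSeries.coeff_single]
  rw [if_neg (by omega)]

lemma uu_ne (ω : F) (n : ℕ) : uu ω n ≠ 0 := by
  intro h
  have := mem_ball.1 (uu_sub ω n) 0 (by omega)
  simp [h] at this

lemma uu_tendsto (ω : F) : Tendsto (uu ω) atTop (𝓝 1) := by
  rw [← tendsto_sub_nhds_zero_iff, basis_zero.tendsto_right_iff]
  intro D _
  filter_upwards [eventually_ge_atTop D.toNat] with n hn
  have := mem_ball.1 (uu_sub ω n)
  rw [mem_ball]
  intro k hk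
  exact this k (by omega)

lemma exists_kappa [CharP F 2] (φ : F →+* F) (hφ : ∀ x, φ (φ x) = x) (ω : F) (hω : φ ω ≠ ω) :
    ∃ κ : F⸨X⸩ˣ → ZMod 2, (∀ a b, κ (a * b) = κ a + κ b) ∧
      (∀ a, κ (Units.map (sig φ : F⸨X⸩ →* F⸨X⸩) a) = κ a) ∧
      ∀ n, κ (Units.mk0 _ (uu_ne ω n)) = 1 := by
  let s : F⸨X⸩ˣ →* F⸨X⸩ˣ := Units.map (sig φ : F⸨X⸩ →* F⸨X⸩)
  have hs : ∀ a, s (s a) = a := by
    intro a
    ext n
    simp [s, hφ]
  have hsu : ∀ n, s (Units.mk0 _ (uu_ne ω n)) = Units.mk0 _ (uu_ne (φ ω) n) := by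
    intro n
    apply Units.ext
    simp [s, uu, sig_single]
  have hU : ∀ (c : F) n k, n < k → Units.mk0 _ (uu_ne c k) ∈ U F (2 * n + 1) := by
    intro c n k h
    change uu c k - 1 ∈ ball F _
    have := mem_ball.1 (uu_sub c k)
    rw [mem_ball]
    intro j hj
    exact this j (by push_cast at hj; omega)
  obtain ⟨κ, h1, h2⟩ := exists_char
    (fun n => Units.mk0 _ (uu_ne ω n) * s (Units.mk0 _ (uu_ne ω n))) (fun n => U F (2 * n + 1))
    (fun n k h => by rw [hsu]; exact mul_mem (hU _ n k h) (hU _ n k h)) (by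
      intro n y hy
      rw [hsu] at hy
      set z := Units.mk0 _ (uu_ne ω n) * Units.mk0 _ (uu_ne (φ ω) n) * (y * y) with hz
      have hzi : ((z⁻¹ : F⸨X⸩ˣ) : F⸨X⸩) - 1 ∈ ball F (2 * n + 1 + 1 : ℕ) := inv_mem hy
      have e : ((y⁻¹ : F⸨X⸩ˣ) : F⸨X⸩) * (y⁻¹ : F⸨X⸩ˣ) =
          uu ω n * uu (φ ω) n + uu ω n * uu (φ ω) n * (((z⁻¹ : F⸨X⸩ˣ) : F⸨X⸩) - 1) := by
        have := uu_ne ω n
        have := uu_ne (φ ω) n
        simp only [hz, Units.val_inv_eq_inv_val, Units.val_mul, Units.val_mk0]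
        field_simp
        ring
      have hv : ∀ c : F, Valued.v (uu c n) ≤ (1 : ℤᵐ⁰) := by
        intro c
        have : uu c n = 1 + (uu c n - 1) := by ring
        rw [this]
        refine Valued.v.map_add_le (by simp) ((uu_sub c n).trans ?_)
        rw [← exp_zero, exp_le_exp]; omega
      have hb : uu ω n * uu (φ ω) n * (((z⁻¹ : F⸨X⸩ˣ) : F⸨X⸩) - 1) ∈
          ball F (2 * n + 1 + 1 : ℕ) := by
        simp only [ball, Set.mem_setOf_eq, map_mul] at hzi ⊢
        calc _ ≤ 1 * 1 * exp (-((2 * n + 1 + 1 : ℕ) : ℤ)) := by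
              gcongr
              · exact hv _
              · exact hv _
          _ = _ := by simp
      have h0 := sq_coeff_odd ((y⁻¹ : F⸨X⸩ˣ) : F⸨X⸩) n
      rw [e, HahnSeries.coeff_add, mem_ball.1 hb _ (by push_cast; omega), add_zero] at h0
      simp only [uu, add_mul, mul_add, one_mul, mul_one, HahnSeries.single_mul_single,
        HahnSeries.coeff_add, HahnSeries.coeff_single, HahnSeries.coeff_one] at h0
      rw [if_neg (by omega), if_pos trivial, if_pos trivial, if_neg (by omega)] at h0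
      apply hω
      have := CharTwo.add_self_eq_zero ω
      linear_combination h0 - this)
  refine ⟨fun a => κ (a * s a), fun a b => ?_, fun a => ?_, h2⟩
  · simp only
    rw [← h1, map_mul, mul_mul_mul_comm]
  · change κ (s a * s (s a)) = κ (a * s a)
    rw [hs, mul_comm]

end Pool.Agent.H67.ST
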