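import Pool.Agent.H67.Scott

namespace Pool.Agent.H67.Scott

def O1 := Fin 203
def O2 := Fin 203

instance : Fintype O1 := inferInstanceAs (Fintype (Fin 203))
instance : Fintype O2 := inferInstanceAs (Fintype (Fin 203))
instance : DecidableEq O1 := inferInstanceAs (DecidableEq (Fin 203))
instance : DecidableEq O2 := inferInstanceAs (DecidableEq (Fin 203))

instance : MulAction G O1 where
  smul g i := g.1.1 i
  one_smul _ := rfl
  mul_smul _ _ _ := rfl

instance : MulAction G O2 where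
  smul g i := g.1.2 i
  one_smul _ := rfl
  mul_smul _ _ _ := rfl

def e0 : G := ⟨_, memG pa0 pb0 g0⟩
def e1 : G := ⟨_, memG pa1 pb1 g1⟩
def e2 : G := ⟨_, memG pa2 pb2 g2⟩

def z1 : O1 := (0 : Fin 203)
def z2 : O2 := (0 : Fin 203)

theorem trans1 (y : O1) : ∃ g : G, g • z1 = y := by
  obtain ⟨i, hi⟩ := y
  induction i using Nat.strong_induction_on with
  | _ i ih =>
    have h := allN_spec _ _ par1 i hi
    simp only [Bool.or_eq_true, Bool.and_eq_true, Nat.beq_eq, Nat.blt_eq] at h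
    rcases h with h | ⟨h1, h2⟩
    · subst h
      exact ⟨1, rfl⟩
    · obtain ⟨g, hg⟩ := ih _ h1 (h1.trans hi)
      rcases h2 with (h2 | h2) | h2
      · exact ⟨e0 * g, by rw [mul_smul, hg]; exact Fin.ext h2⟩
      · exact ⟨e1 * g, by rw [mul_smul, hg]; exact Fin.ext h2⟩
      · exact ⟨e2 * g, by rw [mul_smul, hg]; exact Fin.ext h2⟩

theorem trans2 (y : O2) : ∃ g : G, g • z2 = y := by
  obtain ⟨i, hi⟩ := y
  induction i using Nat.strong_induction_on with
  | _ i ih =>
    have h := allN_spec _ _ par2 i hi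
    simp only [Bool.or_eq_true, Bool.and_eq_true, Nat.beq_eq, Nat.blt_eq] at h
    rcases h with h | ⟨h1, h2⟩
    · subst h
      exact ⟨1, rfl⟩
    · obtain ⟨g, hg⟩ := ih _ h1 (h1.trans hi)
      rcases h2 with (h2 | h2) | h2
      · exact ⟨e0 * g, by rw [mul_smul, hg]; exact Fin.ext h2⟩
      · exact ⟨e1 * g, by rw [mul_smul, hg]; exact Fin.ext h2⟩
      · exact ⟨e2 * g, by rw [mul_smul, hg]; exact Fin.ext h2⟩

def KM : Matrix O1 O2 ℤ := fun i j => cM (orb i.1 j.1)
def LM : Matrix O2 O1 ℤ := fun j i => cN (orb i.1 j.1)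

theorem orb_inv (g : G) (i : O1) (j : O2) : orb (g • i).1 (g • j).1 = orb i.1 j.1 := g.2 i j

theorem hK (g : G) (i : O1) (j : O2) : KM (g • i) (g • j) = KM i j := congrArg cM (orb_inv g i j)
theorem hL (g : G) (i : O1) (j : O2) : LM (g • j) (g • i) = LM j i := congrArg cN (orb_inv g i j)

theorem KL0 (i : O1) : ∑ j, KM z1 j * LM j i = if z1 = i then 1 else 0 := by
  have h := of_decide_eq_true (allN_spec _ _ row0 i.1 i.2)
  rw [sumN_eq, Finset.sum_range] at h
  refine Eq.trans h ?_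
  congr 1
  exact propext ⟨fun h => Fin.ext h.symm, fun h => (congrArg Fin.val h).symm⟩

theorem KL : KM * LM = (1 : Matrix O1 O1 ℤ) := by
  ext i k
  obtain ⟨g, rfl⟩ := trans1 i
  obtain ⟨k, rfl⟩ := MulAction.surjective g k
  show ∑ j, KM (g • z1) j * LM j (g • k) = if g • z1 = g • k then 1 else 0
  simp only [smul_left_cancel_iff]
  rw [← KL0]
  refine (Fintype.sum_equiv (MulAction.toPerm g) _ _ fun j => ?_).symm
  rw [MulAction.toPerm_apply, hK, hL]

theorem LK : LM * KM = (1 : Matrix O2 O2 ℤ) :=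
  (Matrix.mul_eq_one_comm_of_equiv (show O1 ≃ O2 from Equiv.refl (Fin 203))).1 KL

theorem hfix (i : O1) : ∃ g : G, g • z2 = z2 ∧ g • i ≠ i := by
  have h := allN_spec _ _ nofix i.1 i.2
  simp only [Bool.or_eq_true, Bool.not_eq_true', ← Bool.not_eq_true, Nat.beq_eq] at h
  rcases h with h | h
  · exact ⟨e0, Fin.ext fix0.1, fun h' => h (congrArg Fin.val h')⟩
  · exact ⟨e1, Fin.ext fix0.2, fun h' => h (congrArg Fin.val h')⟩

theorem hf (g : G) (h1 : ∀ i : O1, g • i = i) (h2 : ∀ i : O2, g • i = i) : g = 1 :=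
  Subtype.ext (Prod.ext (Equiv.ext h1) (Equiv.ext h2))

end Pool.Agent.H67.Scott
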