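import Mathlib

/-! The small index property of the symmetric group of the natural numbers. -/

namespace H67.Sip

open Function Equiv

def Small {G : Type} [Group G] (H : Subgroup G) : Prop :=
  ∃ c : G → ℕ, ∀ g h, c g = c h → g⁻¹ * h ∈ H

theorem Small.comap {G G' : Type} [Group G] [Group G'] {H : Subgroup G'} (h : Small H)
    (φ : G →* G') : Small (H.comap φ) := by
  obtain ⟨c, hc⟩ := h
  exact ⟨fun g => c (φ g), fun g h e => by simpa using hc _ _ e⟩

theorem Small.two {G : Type} [Group G] {H : Subgroup G} (h : Small H) (p : Set ℕ → G) :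
    ∃ S T, S ≠ T ∧ (p S)⁻¹ * p T ∈ H := by
  obtain ⟨c, hc⟩ := h
  obtain ⟨S, T, e, ne⟩ := Function.not_injective_iff.1 (cantor_injective (fun S => c (p S)))
  exact ⟨S, T, ne, hc _ _ e⟩

open Classical in
theorem Small.coord {G : Type} [Group G] {H : Subgroup (ℕ → G)} (h : Small H) (g : ℕ → G) :
    ∃ i, ∃ p ∈ H, p i = g i := by
  obtain ⟨S, T, ne, hm⟩ := h.two (fun S i => if i ∈ S then g i else 1)
  obtain ⟨i, hi⟩ : ∃ i, ¬ (i ∈ S ↔ i ∈ T) := by
    by_contra hc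
    push Not at hc
    exact ne (Set.ext hc)
  by_cases a : i ∈ S <;> by_cases b : i ∈ T
  · simp [a, b] at hi
  · exact ⟨i, _, H.inv_mem hm, by simp [a, b]⟩
  · exact ⟨i, _, hm, by simp [a, b]⟩
  · simp [a, b] at hi

def PC (ι U : Type) : (ι → Perm U) →* Perm (ι × U) where
  toFun := fun p => Equiv.prodCongrRight p
  map_one' := by ext x <;> simp
  map_mul' := fun p q => by ext x <;> simp

@[simp] theorem PC_apply {ι U : Type} (p : ι → Perm U) (i : ι) (u : U) :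
    PC ι U p (i, u) = (i, p i u) := rfl

def SG {ι : Type} [DecidableEq ι] (i : ι) (U : Type) : Perm U →* Perm (ι × U) :=
  (PC ι U).comp (MonoidHom.mulSingle (fun _ => Perm U) i)

theorem SG_apply {ι U : Type} [DecidableEq ι] (i j : ι) (g : Perm U) (u : U) :
    SG i U g (j, u) = (j, if j = i then g u else u) := by
  by_cases h : j = i
  · subst h; simp [SG]
  · simp [SG, h]

/-- `H` contains all permutations supported on `X` -/
def Full {U : Type} (H : Subgroup (Perm U)) (X : Set U) : Prop :=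
  ∀ g : Perm U, (∀ x, x ∉ X → g x = x) → g ∈ H

theorem Full.lev {ι U : Type} [DecidableEq ι] {H : Subgroup (Perm (ι × U))} {i : ι} {X : Set U}
    (h : Full (H.comap (SG i U)) X) : Full H ((fun u => (i, u)) '' X) := by
  intro γ hγ
  have key : ∀ γ : Perm (ι × U), (∀ x, x ∉ (fun u => (i, u)) '' X → γ x = x) →
      ∀ u, (i, (γ (i, u)).2) = γ (i, u) := by
    intro γ hγ u
    by_cases a : γ (i, u) ∈ (fun u => (i, u)) '' X
    · obtain ⟨v, -, hv⟩ := a
      rw [← hv]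
    · rw [γ.injective (hγ _ a)]
  have hγ' : ∀ x, x ∉ (fun u => (i, u)) '' X → γ⁻¹ x = x := fun x hx => by
    rw [Perm.inv_eq_iff_eq, hγ x hx]
  let g : Perm U := ⟨fun u => (γ (i, u)).2, fun u => (γ⁻¹ (i, u)).2,
    fun u => by simp only [key γ hγ]; simp, fun u => by simp only [key _ hγ']; simp⟩
  have : SG i U g = γ := by
    refine Equiv.ext fun ⟨j, u⟩ => ?_
    rw [SG_apply]
    split_ifs with a
    · subst a; exact key γ hγ u
    · exact (hγ _ (by simp [a, Ne.symm a])).symm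
  rw [← this]
  refine h g fun u hu => ?_
  show (γ (i, u)).2 = u
  rw [hγ _ (by simpa using hu)]

theorem L1 {U : Type} {H : Subgroup (Perm (ℕ × U))} (h : Small H) :
    ∃ i, (H.comap (SG i U)).Normal := by
  by_cases hc : ∃ i, ∀ g, ∃ p ∈ H.comap (PC ℕ U), p i = g
  · obtain ⟨i, hi⟩ := hc
    refine ⟨i, ⟨fun n hn g => ?_⟩⟩
    obtain ⟨p, hp, rfl⟩ := hi g
    have : SG i U (p i * n * (p i)⁻¹) = PC ℕ U p * SG i U n * (PC ℕ U p)⁻¹ := by
      rw [← map_inv]
      refine Equiv.ext fun ⟨j, u⟩ => ?_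
      simp only [Perm.mul_apply, PC_apply, SG_apply]
      split_ifs with a
      · subst a; rfl
      · simp
    rw [Subgroup.mem_comap, this]
    exact H.mul_mem (H.mul_mem hp hn) (H.inv_mem hp)
  · push Not at hc
    choose g hg using hc
    obtain ⟨i, p, hp, e⟩ := (h.comap (PC ℕ U)).coord g
    exact absurd e (hg i p hp)

theorem L2 {V : Type} {N : Subgroup (Perm (ℕ × (Bool × V)))} (h : Small N) (hn : N.Normal) :
    ∃ i, ∀ g k : Perm V, SG i _ (SG false V (g * k * g⁻¹ * k⁻¹)) ∈ N := by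
  obtain ⟨i, p, hp, e⟩ := (h.comap (PC ℕ _)).coord
    (fun _ => Equiv.prodCongr (Equiv.swap false true) (Equiv.refl V))
  refine ⟨i, fun g k => ?_⟩
  set t := PC ℕ _ p
  set G := SG i _ (SG false V g)
  set K := SG i _ (SG false V k)
  have h1 : K * t * K⁻¹ * t⁻¹ ∈ N := N.mul_mem (hn.conj_mem _ hp _) (N.inv_mem hp)
  have h2 := N.mul_mem (hn.conj_mem _ h1 G) (N.inv_mem h1)
  have h3 : t * K⁻¹ * t⁻¹ = SG i _ (SG true V k⁻¹) := by
    rw [mul_inv_eq_iff_eq_mul, ← map_inv, ← map_inv]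
    refine Equiv.ext fun ⟨j, b, v⟩ => ?_
    generalize k⁻¹ = k'
    simp only [t, Perm.mul_apply, PC_apply, SG_apply]
    by_cases a : j = i
    · subst a
      rw [e]
      cases b <;> simp [SG_apply]
    · simp [a]
  have h4 : ∀ a b : Perm V, SG false V a * SG true V b = SG true V b * SG false V a := by
    intro a b
    refine Equiv.ext fun ⟨c, v⟩ => ?_
    cases c <;> simp [SG_apply]
  have h5 : K * t * K⁻¹ * t⁻¹ = K * SG i _ (SG true V k⁻¹) := by rw [← h3]; group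
  rw [h5] at h2
  convert h2 using 1
  simp only [G, K, ← map_mul, ← map_inv]
  congr 1
  have := h4 g⁻¹ k⁻¹
  simp only [map_mul, map_inv] at this ⊢
  generalize SG false V g = A at *
  generalize SG false V k = B at *
  generalize SG true V k = D at *
  calc A * B * A⁻¹ * B⁻¹ = A * B * (A⁻¹ * D⁻¹) * D * B⁻¹ := by group
    _ = _ := by rw [this]; group

theorem L3 {W : Type} (g : Perm W) : ∃ G K : Perm (ℤ × W), SG 0 W g = G * K * G⁻¹ * K⁻¹ := by
  refine ⟨PC ℤ W (fun j => if 0 ≤ j then g else 1), Equiv.prodCongr (Equiv.addRight 1) (Equiv.refl W),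
    ?_⟩
  rw [eq_mul_inv_iff_mul_eq, eq_mul_inv_iff_mul_eq]
  refine Equiv.ext fun ⟨j, w⟩ => ?_
  simp only [Perm.mul_apply, PC_apply, prodCongr_apply, Prod.map, SG_apply, coe_addRight,
    Equiv.coe_refl, id]
  split_ifs <;> first | rfl | omega

theorem exists_full {H : Subgroup (Perm ℕ)} (h : Small H) : ∃ X : Set ℕ, X.Infinite ∧ Full H X := by
  let e : ℕ × (ℕ × (Bool × (ℤ × ℕ))) ≃ ℕ := Classical.choice nonempty_equiv_of_countable
  have h0 := h.comap e.permCongrHom.toMonoidHom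
  obtain ⟨i, hi⟩ := L1 h0
  obtain ⟨j, hj⟩ := L2 (h0.comap (SG i _)) hi
  have f1 : Full (((((H.comap e.permCongrHom.toMonoidHom).comap (SG i _)).comap (SG j _)).comap
      (SG false _)).comap (SG (0 : ℤ) ℕ)) Set.univ := by
    intro g _
    obtain ⟨G, K, hg⟩ := L3 g
    have := hj G K
    rw [← hg] at this
    exact this
  have f2 := f1.lev.lev.lev.lev
  generalize hY : ((fun u => (i, u)) '' ((fun u => (j, u)) '' ((fun u => (false, u)) ''
    ((fun u : ℕ => ((0 : ℤ), u)) '' Set.univ)))) = Y at f2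
  refine ⟨e '' Y, Set.Infinite.image e.injective.injOn ?_, fun g hg => ?_⟩
  rotate_left
  · have := f2 (e.symm.permCongr g) (fun x hx => by
      rw [permCongr_apply, symm_symm, hg, symm_apply_apply]
      rintro ⟨y, hy, hxy⟩
      exact hx (e.injective hxy ▸ hy))
    rw [Subgroup.mem_comap] at this
    convert this using 1
    ext x
    simp
  · rw [← hY]
    repeat refine Set.Infinite.image (fun _ _ _ _ h => (Prod.ext_iff.1 h).2) ?_
    exact Set.infinite_univ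

theorem ext_perm {ι : Type} (u v : ι → ℕ) (hk : ∀ i j, u i = u j ↔ v i = v j)
    (hu : (Set.range u)ᶜ.Infinite) (hv : (Set.range v)ᶜ.Infinite) :
    ∃ σ : Perm ℕ, ∀ i, σ (u i) = v i := by
  classical
  let e1 : Set.range u ≃ Set.range v :=
    { toFun := fun x => ⟨v x.2.choose, _, rfl⟩
      invFun := fun x => ⟨u x.2.choose, _, rfl⟩
      left_inv := fun x => Subtype.ext (by
        have : v _ = v x.2.choose := (⟨x.2.choose, rfl⟩ : v x.2.choose ∈ Set.range v).choose_spec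
        exact ((hk _ _).2 this).trans x.2.choose_spec)
      right_inv := fun x => Subtype.ext (by
        have : u _ = u x.2.choose := (⟨x.2.choose, rfl⟩ : u x.2.choose ∈ Set.range u).choose_spec
        exact ((hk _ _).1 this).trans x.2.choose_spec) }
  have := hu.to_subtype
  have := hv.to_subtype
  let e2 : ((Set.range u)ᶜ : Set ℕ) ≃ ((Set.range v)ᶜ : Set ℕ) :=
    Classical.choice nonempty_equiv_of_countable
  refine ⟨(Equiv.Set.sumCompl _).symm.trans ((e1.sumCongr e2).trans (Equiv.Set.sumCompl _)),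
    fun i => ?_⟩
  have hi : u i ∈ Set.range u := ⟨i, rfl⟩
  simp only [Equiv.trans_apply, Equiv.Set.sumCompl_symm_apply_of_mem hi, sumCongr_apply,
    Sum.map_inl, Equiv.Set.sumCompl_apply_inl]
  exact (hk _ _).1 hi.choose_spec

/-- `H` contains the pointwise stabiliser of `Γ` -/
def Fx (H : Subgroup (Perm ℕ)) (Γ : Set ℕ) : Prop := ∀ g : Perm ℕ, (∀ x ∈ Γ, g x = x) → g ∈ H

theorem move {Γ Z R : Set ℕ} (h1 : ∀ z ∈ Z, z ∉ Γ) (h2 : (Γ ∪ Z)ᶜ.Infinite)
    (h3 : ∀ z ∈ R, z ∉ Γ) (h4 : R.Infinite) :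
    ∃ k : Perm ℕ, (∀ x ∈ Γ, k x = x) ∧ (∀ z ∈ Z, k z ∈ R) ∧ (R \ k '' Z).Infinite := by
  let r := h4.natEmbedding
  have ri : ∀ a b, (r a).1 = (r b).1 → a = b := fun a b h => r.injective (Subtype.ext h)
  have odd : (Set.range fun n => (r (2 * n + 1)).1).Infinite :=
    Set.infinite_range_of_injective fun a b h => by have := ri _ _ h; omega
  obtain ⟨k, hk⟩ := ext_perm (ι := Γ ⊕ Z) (Sum.elim Subtype.val Subtype.val)
    (Sum.elim Subtype.val (fun z => (r (2 * z.1)).1)) (by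
      rintro (a | a) (b | b) <;> simp only [Sum.elim_inl, Sum.elim_inr]
      · exact iff_of_false (fun h => h1 _ b.2 (h ▸ a.2)) (fun h => h3 _ (r _).2 (h ▸ a.2))
      · exact iff_of_false (fun h => h1 _ a.2 (h ▸ b.2)) (fun h => h3 _ (r _).2 (h ▸ b.2))
      · exact ⟨fun h => by rw [h], fun h => by have := ri _ _ h; omega⟩)
    (by simpa using h2) (odd.mono (by
      rintro _ ⟨n, rfl⟩ ⟨a | a, ha⟩
      · exact h3 _ (r _).2 ((show a.1 = (r (2 * n + 1)).1 from ha) ▸ a.2)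
      · have := ri _ _ ha; omega))
  refine ⟨k, fun x hx => hk (.inl ⟨x, hx⟩), fun z hz => ?_, odd.mono ?_⟩
  · rw [show k z = _ from hk (.inr ⟨z, hz⟩)]; exact (r _).2
  · rintro _ ⟨n, rfl⟩
    refine ⟨(r _).2, ?_⟩
    rintro ⟨z, hz, e⟩
    rw [show k z = _ from hk (.inr ⟨z, hz⟩)] at e
    have := ri _ _ e; omega

theorem Fx.inter {H : Subgroup (Perm ℕ)} {A B : Set ℕ} (hA : Fx H A) (hB : Fx H B)
    (hR : (A ∪ B)ᶜ.Infinite) : Fx H (A ∩ B) := by
  have nF : ∀ g : Perm ℕ, (∀ x ∈ A ∩ B, g x = x) → ∀ x, g x ∈ A ∩ B → g x = x :=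
    fun g hg x hx => g.injective (hg _ hx)
  have S2 : ∀ g : Perm ℕ, (∀ x ∈ A ∩ B, g x = x) → (∀ x ∈ A, g x ∈ B → x ∈ B) →
      (g '' A ∪ B)ᶜ.Infinite → g ∈ H := by
    intro g hg h1 h2
    obtain ⟨k, hk⟩ := ext_perm (ι := A ⊕ B) (Sum.elim (fun a => g a.1) Subtype.val)
      (Sum.elim Subtype.val Subtype.val) (by
        have : ∀ (a : A) (b : B), g a.1 = b.1 ↔ a.1 = b.1 := fun a b =>
          ⟨fun h => by rw [← h, hg _ ⟨a.2, h1 _ a.2 (h ▸ b.2)⟩],
           fun h => by rw [hg _ ⟨a.2, h ▸ b.2⟩, h]⟩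
        rintro (a | a) (b | b) <;> simp only [Sum.elim_inl, Sum.elim_inr]
        · exact g.injective.eq_iff
        · exact this a b
        · rw [eq_comm, this b a, eq_comm])
      (by rw [Set.Sum.elim_range, ← Set.image_eq_range]; simpa using h2) (by simpa using hR)
    have h3 : k * g ∈ H := hA _ fun x hx => hk (.inl ⟨x, hx⟩)
    have h4 : k ∈ H := hB _ fun x hx => hk (.inr ⟨x, hx⟩)
    exact (H.mul_mem_cancel_left h4).1 h3
  have S1 : ∀ g : Perm ℕ, (∀ x ∈ A ∩ B, g x = x) → (A ∪ g '' A)ᶜ.Infinite → g ∈ H := by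
    intro g hg h2
    obtain ⟨k, k1, k2, k3⟩ := move (Γ := A) (Z := g '' A \ A) (R := (A ∪ B)ᶜ) (fun z hz => hz.2)
      (by simpa using h2) (fun z hz h => hz (Or.inl h)) hR
    refine (H.mul_mem_cancel_left (hA k k1)).1 (S2 (k * g) (fun x hx => ?_) (fun x hx h => ?_)
      (k3.mono ?_))
    · rw [Perm.mul_apply, hg x hx, k1 x hx.1]
    · by_cases a : g x ∈ A
      · rw [Perm.mul_apply, k1 _ a] at h
        rw [← nF g hg x ⟨a, h⟩]; exact h
      · exact absurd (Or.inr h) (k2 _ ⟨⟨x, hx, rfl⟩, a⟩)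
    · rintro z ⟨z1, z2⟩ (⟨x, hx, rfl⟩ | hz)
      · by_cases a : g x ∈ A
        · exact z1 (Or.inl (by rw [Perm.mul_apply, k1 _ a]; exact a))
        · exact z2 ⟨g x, ⟨⟨x, hx, rfl⟩, a⟩, rfl⟩
      · exact z1 (Or.inr hz)
  intro g hg
  by_cases h2 : (A ∪ g '' A)ᶜ.Infinite
  · exact S1 g hg h2
  rw [Set.not_infinite] at h2
  have hZ : (g '' (A ∪ B)ᶜ ∩ A).Infinite := by
    refine ((hR.image g.injective.injOn).diff h2).mono ?_
    rintro _ ⟨⟨x, hx, rfl⟩, h3⟩
    refine ⟨⟨x, hx, rfl⟩, ?_⟩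
    rcases not_not.1 h3 with h | ⟨y, hy, e⟩
    · exact h
    · exact absurd (Or.inl (g.injective e ▸ hy)) hx
  obtain ⟨k, k1, k2, -⟩ := move (Γ := B) (Z := g '' (A ∪ B)ᶜ ∩ A) (R := (A ∪ B)ᶜ) (by
      rintro _ ⟨⟨x, hx, rfl⟩, h3⟩ h4
      exact hx (Or.inl (nF g hg x ⟨h3, h4⟩ ▸ h3)))
    (hR.mono (by
      rintro x hx (h | h)
      · exact hx (Or.inr h)
      · exact hx (Or.inl h.2))) (fun z hz h => hz (Or.inr h)) hR
  refine (H.mul_mem_cancel_left (hB k k1)).1 (S1 (k * g) (fun x hx => ?_)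
    ((hZ.image k.injective.injOn).mono ?_))
  · rw [Perm.mul_apply, hg x hx, k1 x hx.2]
  · rintro _ ⟨z, hz, rfl⟩ (h | ⟨y, hy, e⟩)
    · exact k2 z hz (Or.inl h)
    · obtain ⟨⟨x, hx, rfl⟩, -⟩ := hz
      exact hx (Or.inl (g.injective (k.injective e) ▸ hy))

theorem odd_inf {S : Set ℕ} (h : ∀ x ∈ S, ∃ y, x = 2 * y) : Sᶜ.Infinite :=
  (Set.infinite_range_of_injective (f := fun n => 2 * n + 1) fun a b h => by
    simp only at h; omega).mono (by
    rintro _ ⟨n, rfl⟩ hn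
    obtain ⟨y, hy⟩ := h _ hn
    simp only at hy; omega)

/-- the small index property -/
theorem sip {H : Subgroup (Perm ℕ)} (h : Small H) : ∃ F : Set ℕ, F.Finite ∧ Fx H F := by
  classical
  obtain ⟨X, hX, hF⟩ := exists_full h
  let code : Set ℕ → ℕ → ℕ := fun S n =>
    2 * Encodable.encode (n, (Finset.range n).filter (· ∈ S))
  have c1 : ∀ S T n m, code S n = code T m → n = m ∧ ∀ i < n, (i ∈ S ↔ i ∈ T) := by
    intro S T n m e
    have e1 := Encodable.encode_injective (Nat.eq_of_mul_eq_mul_left two_pos e)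
    obtain ⟨rfl, e2⟩ := Prod.ext_iff.1 e1
    refine ⟨rfl, fun i hi => ?_⟩
    have := Finset.ext_iff.1 e2 i
    simpa [hi] using this
  have : ∀ S, ∃ σ : Perm ℕ, ∀ x : (Xᶜ : Set ℕ), σ x.1 = code S x.1 := fun S =>
    ext_perm _ _ (fun i j => ⟨fun e => by rw [e], fun e => (c1 _ _ _ _ e).1⟩)
      (by rwa [Subtype.range_coe, compl_compl]) (odd_inf (by rintro _ ⟨x, rfl⟩; exact ⟨_, rfl⟩))
  choose σ hσ using this
  obtain ⟨S, T, ne, hm⟩ := h.two σ
  obtain ⟨i, hi⟩ : ∃ i, ¬ (i ∈ S ↔ i ∈ T) := by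
    by_contra hc
    push Not at hc
    exact ne (Set.ext hc)
  have f1 : Fx H Xᶜ := hF
  set k := (σ S)⁻¹ * σ T
  have f2 : Fx H (k '' Xᶜ) := by
    intro g hg
    have : k⁻¹ * g * k ∈ H := f1 _ fun x hx => by
      rw [Perm.mul_apply, Perm.mul_apply, hg _ ⟨x, hx, rfl⟩]; simp
    exact (H.mul_mem_cancel_left (H.inv_mem hm)).1 ((H.mul_mem_cancel_right hm).1 this)
  have e1 : ∀ x, σ S (k x) = σ T x := fun x => by simp [k]
  refine ⟨_, ?_, f1.inter f2 ?_⟩
  · refine (Set.finite_Iic i).subset ?_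
    rintro _ ⟨h1, x, hx, rfl⟩
    have := (hσ S ⟨_, h1⟩).symm.trans ((e1 x).trans (hσ T ⟨x, hx⟩))
    by_contra hc
    exact hi ((c1 _ _ _ _ this).2 i (by simpa using hc))
  · refine Set.Infinite.of_image (σ S) ((odd_inf (S := σ S '' (Xᶜ ∪ k '' Xᶜ)) ?_).mono ?_)
    · rintro _ ⟨_, hx | ⟨x, hx, rfl⟩, rfl⟩
      · exact ⟨_, hσ S ⟨_, hx⟩⟩
      · exact ⟨_, (e1 x).trans (hσ T ⟨x, hx⟩)⟩
    · intro y hy
      exact ⟨(σ S).symm y, fun hc => hy ⟨_, hc, by simp⟩, by simp⟩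

end H67.Sip
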