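import Mathlib
import Pool.Agent.H67.Sip1

/-! Isomorphisms between a closed clone containing all permutations and a closed clone, part 1.
(The infinite Ramsey theorem below is copied from a teammate's file.) -/

namespace H67.Sip

open Function Equiv

section
open Set
/-- infinite Ramsey theorem -/
theorem ramsey {C : Type} [Finite C] (n : ℕ) : ∀ (c : Finset ℕ → C) (S : Set ℕ), S.Infinite →
    ∃ I ⊆ S, I.Infinite ∧ ∃ col, ∀ s : Finset ℕ, (s : Set ℕ) ⊆ I → s.card = n → c s = col := by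
  induction n with
  | zero =>
    intro c S hS
    exact ⟨S, Subset.rfl, hS, c ∅, fun s _ h => by rw [Finset.card_eq_zero.1 h]⟩
  | succ n ih =>
    intro c S hS
    have step : ∀ T : {T : Set ℕ // T.Infinite}, ∃ a ∈ T.1, ∃ T' : {T : Set ℕ // T.Infinite},
        T'.1 ⊆ T.1 ∩ Ioi a ∧ ∃ col, ∀ s : Finset ℕ, (s : Set ℕ) ⊆ T'.1 → s.card = n →
          c (insert a s) = col := by
      rintro ⟨T, hT⟩
      obtain ⟨a, ha⟩ := hT.nonempty
      have : (T ∩ Ioi a).Infinite := by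
        have := hT.sdiff (finite_Iic a)
        rwa [sdiff_eq, compl_Iic] at this
      obtain ⟨I, h1, h2, h3⟩ := ih (fun s => c (insert a s)) _ this
      exact ⟨a, ha, ⟨I, h2⟩, h1, h3⟩
    choose a ha f hf col hcol using step
    let T : ℕ → {T : Set ℕ // T.Infinite} := fun k => f^[k] ⟨S, hS⟩
    have TS : ∀ k, T (k + 1) = f (T k) := fun k => Function.iterate_succ_apply' _ _ _
    have anti : Antitone fun k => (T k).1 := antitone_nat_of_succ_le fun k => by
      rw [TS]; exact (hf _).trans inter_subset_left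
    have mono : StrictMono fun k => a (T k) := strictMono_nat_of_lt_succ fun k => by
      have := ha (T (k + 1))
      rw [TS] at this ⊢
      exact (hf _ this).2
    obtain ⟨y, hy⟩ := Finite.exists_infinite_fiber fun k => col (T k)
    refine ⟨(fun k => a (T k)) '' ((fun k => col (T k)) ⁻¹' {y}), ?_,
      (Set.infinite_coe_iff.1 hy).image mono.injective.injOn, y, ?_⟩
    · rintro _ ⟨k, -, rfl⟩
      exact anti (Nat.zero_le k) (ha _)
    · intro s hs hc
      have hne : s.Nonempty := Finset.card_pos.1 (by omega)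
      obtain ⟨k, hk, e⟩ := hs (s.min'_mem hne)
      have hmem : a (T k) ∈ s := by have := s.min'_mem hne; rwa [← e] at this
      have := hcol (T k) (s.erase (a (T k))) (by
        intro b hb
        obtain ⟨h1, h2⟩ := Finset.mem_erase.1 hb
        obtain ⟨j, -, rfl⟩ := hs h2
        have h3 : k < j := mono.lt_iff_lt.1 (lt_of_le_of_ne (e.le.trans (s.min'_le _ h2)) h1.symm)
        rw [← TS]
        exact anti h3 (ha _)) (by
        rw [Finset.card_erase_of_mem hmem, hc]; rfl)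
      rw [Finset.insert_erase hmem] at this
      exact this.trans hk

end

theorem ramsey' {C : Type} [Finite C] (r : ℕ) (c : (Fin r → ℕ) → C) :
    ∃ y : ℕ → ℕ, StrictMono y ∧ ∃ col, ∀ w : Fin r → ℕ, StrictMono w → c (fun j => y (w j)) = col := by
  classical
  obtain ⟨I, -, hI, col, h⟩ := ramsey r (fun s => if h : s.card = r then c (s.orderEmbOfFin h)
    else c 0) Set.univ Set.infinite_univ
  refine ⟨Nat.nth (· ∈ I), Nat.nth_strictMono hI, col, fun w hw => ?_⟩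
  have hm : StrictMono fun j => Nat.nth (· ∈ I) (w j) := (Nat.nth_strictMono hI).comp hw
  have hc : (Finset.univ.image fun j => Nat.nth (· ∈ I) (w j)).card = r := by
    rw [Finset.card_image_of_injective _ hm.injective]; simp
  have := h _ (by
    intro x hx
    obtain ⟨j, -, rfl⟩ := Finset.mem_image.1 hx
    exact Nat.nth_mem_of_infinite hI _) hc
  rw [dif_pos hc, ← Finset.orderEmbOfFin_unique hc (fun j => Finset.mem_image_of_mem _
    (Finset.mem_univ j)) hm] at this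
  exact this

theorem mem_of_approx {X : Type} {S : Set (X → ℕ)} (hS : IsClosed S) {f : X → ℕ}
    (h : ∀ T : Set X, T.Finite → ∃ g ∈ S, ∀ x ∈ T, g x = f x) : f ∈ S := by
  rw [← hS.closure_eq, mem_closure_iff_nhds]
  intro U hU
  rw [nhds_pi, Filter.mem_pi'] at hU
  obtain ⟨E, V, hV, hE⟩ := hU
  obtain ⟨g, hg, he⟩ := h E E.finite_toSet
  exact ⟨g, hE fun x hx => by rw [he x hx]; exact mem_of_mem_nhds (hV x), hg⟩

theorem ext_fin {e : ℕ → ℕ} (he : Injective e) {F : Set ℕ} (hF : F.Finite) :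
    ∃ α : Perm ℕ, ∀ x ∈ F, α x = e x := by
  have := hF.to_subtype
  obtain ⟨α, h⟩ := ext_perm (ι := F) Subtype.val (fun x => e x.1) (fun _ _ => he.eq_iff.symm)
    (Set.finite_range _).infinite_compl (Set.finite_range _).infinite_compl
  exact ⟨α, fun x hx => h ⟨x, hx⟩⟩

abbrev Op (n : ℕ) := (Fin (n + 1) → ℕ) → ℕ

def un (σ : ℕ → ℕ) : Op 0 := fun y => σ (y 0)

structure St (C D : ∀ n, Set (Op n)) (ξ : ∀ n, Op n → Op n) : Prop where
  pr : ∀ n i, (fun x => x i) ∈ C n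
  cp : ∀ n m (f : Op n) (g : Fin (n + 1) → Op m), f ∈ C n → (∀ i, g i ∈ C m) →
    (fun x => f (fun i => g i x)) ∈ C m
  cl : ∀ n, IsClosed (C n)
  pm : ∀ σ : Perm ℕ, un σ ∈ C 0
  dcl : ∀ n, IsClosed (D n)
  bij : ∀ n, Set.BijOn (ξ n) (C n) (D n)
  xpr : ∀ n i, ξ n (fun x => x i) = fun x => x i
  xcp : ∀ n m (f : Op n) (g : Fin (n + 1) → Op m), f ∈ C n → (∀ i, g i ∈ C m) →
    ξ m (fun x => f (fun i => g i x)) = fun x => ξ n f (fun i => ξ m (g i) x)

def act (ξ : ∀ n, Op n → Op n) (σ : ℕ → ℕ) (a : ℕ) : ℕ := ξ 0 (un σ) (fun _ => a)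

variable {C D : ∀ n, Set (Op n)} {ξ : ∀ n, Op n → Op n}

theorem xi_un (σ : ℕ → ℕ) : ξ 0 (un σ) = un (act ξ σ) := by
  funext y
  show _ = ξ 0 (un σ) (fun _ => y 0)
  congr 1
  funext i
  rw [Fin.fin_one_eq_zero i]

theorem un_inj {σ τ : ℕ → ℕ} (h : un σ = un τ) : σ = τ :=
  funext fun x => congrFun h (fun _ => x)

theorem eq_un (f : Op 0) : f = un (fun x => f (fun _ => x)) := by
  funext y
  show _ = f (fun _ => y 0)
  congr 1
  funext i
  rw [Fin.fin_one_eq_zero i]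

namespace St
variable (h : St C D ξ)
include h

theorem m1 {σ : ℕ → ℕ} (hσ : un σ ∈ C 0) {n : ℕ} {f : Op n} (hf : f ∈ C n) :
    (fun x => σ (f x)) ∈ C n := h.cp 0 n (un σ) (fun _ => f) hσ (fun _ => hf)

theorem x1 {σ : ℕ → ℕ} (hσ : un σ ∈ C 0) {n : ℕ} {f : Op n} (hf : f ∈ C n) :
    ξ n (fun x => σ (f x)) = fun x => act ξ σ (ξ n f x) :=
  h.xcp 0 n (un σ) (fun _ => f) hσ (fun _ => hf)

theorem m2 {σ : ℕ → ℕ} (hσ : un σ ∈ C 0) {n : ℕ} {f : Op n} (hf : f ∈ C n) :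
    (fun x => f (fun i => σ (x i))) ∈ C n :=
  h.cp n n f (fun i x => σ (x i)) hf (fun i => h.m1 hσ (h.pr n i))

theorem x2 {σ : ℕ → ℕ} (hσ : un σ ∈ C 0) {n : ℕ} {f : Op n} (hf : f ∈ C n) :
    ξ n (fun x => f (fun i => σ (x i))) = fun x => ξ n f (fun i => act ξ σ (x i)) := by
  rw [h.xcp n n f (fun i x => σ (x i)) hf (fun i => h.m1 hσ (h.pr n i))]
  funext x
  congr 1
  funext i
  rw [h.x1 hσ (h.pr n i), h.xpr]

theorem um {σ τ : ℕ → ℕ} (hσ : un σ ∈ C 0) (hτ : un τ ∈ C 0) : un (fun x => σ (τ x)) ∈ C 0 :=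
  h.m1 hσ hτ

theorem act_comp {σ τ : ℕ → ℕ} (hσ : un σ ∈ C 0) (hτ : un τ ∈ C 0) (a : ℕ) :
    act ξ (fun x => σ (τ x)) a = act ξ σ (act ξ τ a) :=
  congrFun (h.x1 hσ hτ) (fun _ => a)

theorem act_one (a : ℕ) : act ξ (1 : Perm ℕ) a = a := congrFun (h.xpr 0 0) (fun _ => a)

theorem act_mul (σ τ : Perm ℕ) (a : ℕ) : act ξ (σ * τ : Perm ℕ) a = act ξ σ (act ξ τ a) :=
  h.act_comp (h.pm σ) (h.pm τ) a

theorem act_inv (σ : Perm ℕ) (a : ℕ) : act ξ (σ⁻¹ : Perm ℕ) (act ξ σ a) = a := by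
  rw [← h.act_mul, inv_mul_cancel, h.act_one]

theorem act_inj {σ τ : ℕ → ℕ} (hσ : un σ ∈ C 0) (hτ : un τ ∈ C 0)
    (e : ∀ a, act ξ σ a = act ξ τ a) : σ = τ :=
  un_inj ((h.bij 0).injOn hσ hτ (by rw [xi_un (ξ := ξ), xi_un (ξ := ξ), funext e]))

theorem inj_mem {e : ℕ → ℕ} (he : Injective e) : un e ∈ C 0 := by
  refine mem_of_approx (h.cl 0) fun T hT => ?_
  obtain ⟨α, hα⟩ := ext_fin he (hT.image (fun y => y 0))
  exact ⟨_, h.pm α, fun y hy => hα _ ⟨y, hy, rfl⟩⟩

def stab (a : ℕ) : Subgroup (Perm ℕ) where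
  carrier := {σ | act ξ σ a = a}
  one_mem' := h.act_one a
  mul_mem' := fun {σ τ} h1 h2 => by
    show act ξ (σ * τ : Perm ℕ) a = a
    rw [h.act_mul, h2, h1]
  inv_mem' := fun {σ} h1 => by
    show act ξ (σ⁻¹ : Perm ℕ) a = a
    conv_lhs => rw [← (show act ξ σ a = a from h1)]
    exact h.act_inv σ a

theorem supp (a : ℕ) : ∃ F : Set ℕ, F.Finite ∧ Fx (h.stab a) F :=
  sip ⟨fun σ => act ξ σ a, fun σ τ e => by
    show act ξ (σ⁻¹ * τ : Perm ℕ) a = a
    rw [h.act_mul, ← (show act ξ σ a = act ξ τ a from e), h.act_inv]⟩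

theorem agree {a : ℕ} {F : Set ℕ} (hF : Fx (h.stab a) F) {α β : Perm ℕ}
    (e : ∀ x ∈ F, α x = β x) : act ξ α a = act ξ β a := by
  have : act ξ (α⁻¹ * β : Perm ℕ) a = a := hF _ fun x hx => by
    rw [Perm.mul_apply, ← e x hx]; simp
  rw [← this, ← h.act_mul, mul_inv_cancel_left, this]

theorem Fx_act {a : ℕ} {F : Set ℕ} (hF : Fx (h.stab a) F) (β : Perm ℕ) :
    Fx (h.stab (act ξ β a)) (β '' F) := by
  intro g hg
  show act ξ g (act ξ β a) = act ξ β a
  rw [← h.act_mul]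
  exact h.agree hF fun x hx => hg _ ⟨x, hx, rfl⟩

/-- the action of injections with co-infinite range is the limit of that of permutations -/
theorem act_emb {e : ℕ → ℕ} (he : Injective e) (hr : (Set.range e)ᶜ.Infinite) {a : ℕ}
    {G : Set ℕ} (hG : G.Finite) (hs : Fx (h.stab a) G) {α : Perm ℕ} (hα : ∀ x ∈ G, α x = e x) :
    act ξ e a = act ξ α a := by
  classical
  choose F hF hF' using h.supp
  choose β hβ using fun a => ext_fin he (hF a)
  let eb : ℕ → ℕ := fun a => act ξ (β a) a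
  have key : ∀ a G, G.Finite → Fx (h.stab a) G → ∀ α : Perm ℕ, (∀ x ∈ G, α x = e x) →
      act ξ α a = eb a := by
    intro a G hG hs α hα
    obtain ⟨γ, hγ⟩ := ext_fin he (hG.union (hF a))
    exact (h.agree hs fun x hx => (hα x hx).trans (hγ x (Or.inl hx)).symm).trans
      (h.agree (hF' a) fun x hx => (hγ x (Or.inr hx)).trans (hβ a x hx).symm)
  have hD : un eb ∈ D 0 := by
    refine mem_of_approx (h.dcl 0) fun T hT => ?_
    obtain ⟨γ, hγ⟩ := ext_fin he (hT.biUnion fun y _ => hF (y 0))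
    refine ⟨_, (h.bij 0).mapsTo (h.pm γ), fun y hy => ?_⟩
    rw [xi_un (ξ := ξ)]
    exact key _ _ (hF _) (hF' _) γ fun x hx => hγ x (Set.mem_biUnion hy hx)
  obtain ⟨θ', hθ, hθ'⟩ := (h.bij 0).surjOn hD
  rw [eq_un θ'] at hθ hθ'
  generalize (fun x => θ' (fun _ => x)) = θ at hθ hθ'
  have h1 : act ξ θ = eb := un_inj ((xi_un θ).symm.trans hθ')
  have h2 : ∀ α β : Perm ℕ, (∀ x, α (e x) = e (β x)) → ∀ x, α (θ x) = θ (β x) := by
    intro α γ hc
    refine congrFun (h.act_inj (h.um (h.pm α) hθ) (h.um hθ (h.pm γ)) fun a => ?_)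
    rw [h.act_comp (h.pm α) hθ, h.act_comp hθ (h.pm γ), h1,
      ← key _ _ ((hF a).image γ) (h.Fx_act (hF' a) γ) (α * β a * γ⁻¹) (by
        rintro _ ⟨x, hx, rfl⟩
        simp [hβ a x hx, hc]), h.act_mul, h.act_mul, h.act_inv]
  have h3 : θ = e := by
    funext x
    by_contra hne
    by_cases hx : θ x ∈ Set.range e
    · obtain ⟨y, hy⟩ := hx
      obtain ⟨z, hz⟩ := (Set.toFinite ({x, y} : Set ℕ)).infinite_compl.nonempty
      simp only [Set.mem_compl_iff, Set.mem_insert_iff, Set.mem_singleton_iff, not_or] at hz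
      have hxy : x ≠ y := fun a => hne (by rw [← hy, a])
      have := h2 (swap (e y) (e z)) (swap y z) (fun w => he.swap_apply y z w) x
      rw [swap_apply_of_ne_of_ne hxy (Ne.symm hz.1), ← hy, swap_apply_left] at this
      exact hz.2 (he this)
    · obtain ⟨z, hz, hz'⟩ := (hr.diff (Set.finite_singleton (θ x))).nonempty
      have := h2 (swap (θ x) z) 1 (fun w => swap_apply_of_ne_of_ne
        (fun a => hx ⟨w, a⟩) (fun a => hz ⟨w, a⟩)) x
      rw [swap_apply_left] at this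
      exact hz' this
  rw [key a G hG hs α hα, ← h1, h3]

theorem const_mem {d : ℕ → ℕ} (hd : un d ∈ C 0) (hn : ¬ Injective d) (c : ℕ) :
    un (fun _ => c) ∈ C 0 := by
  classical
  obtain ⟨a, b, hab, ne⟩ := Function.not_injective_iff.1 hn
  have key : ∀ T : Finset ℕ, ∃ m, un m ∈ C 0 ∧ ∀ x ∈ T, m x = c := by
    intro T
    induction T using Finset.induction_on with
    | empty => exact ⟨_, hd, by simp⟩
    | insert x T _ ih =>
      obtain ⟨m, hm, hT⟩ := ih
      by_cases hx : m x = c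
      · exact ⟨m, hm, by simpa [hx] using hT⟩
      · obtain ⟨α, hα⟩ := ext_perm (ι := Bool) (fun i => cond i (m x) c) (fun i => cond i a b)
          (by rintro (_ | _) (_ | _) <;> simp [hx, ne, Ne.symm hx, Ne.symm ne])
          (Set.finite_range _).infinite_compl (Set.finite_range _).infinite_compl
        have a1 : α (m x) = a := hα true
        have a2 : α c = b := hα false
        refine ⟨fun y => swap (d a) c (d (α (m y))), h.um (h.pm _) (h.um hd (h.um (h.pm α) hm)), ?_⟩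
        intro y hy
        rcases Finset.mem_insert.1 hy with rfl | hy
        · simp [a1]
        · simp [hT y hy, a2, ← hab]
  refine mem_of_approx (h.cl 0) fun T hT => ?_
  obtain ⟨m, hm, h2⟩ := key (hT.image (fun y => y 0)).toFinset
  exact ⟨_, hm, fun y hy => h2 _ (by simpa using ⟨y, hy, rfl⟩)⟩

def LS (a : ℕ) (G : Set ℕ) : Prop :=
  G.Finite ∧ Fx (h.stab a) G ∧ ∀ G' : Set ℕ, G'.Finite → Fx (h.stab a) G' → G ⊆ G'

theorem exists_LS (a : ℕ) : ∃ G, h.LS a G := by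
  classical
  have : ∃ n, ∃ G : Set ℕ, G.Finite ∧ Fx (h.stab a) G ∧ G.ncard = n := by
    obtain ⟨F, h1, h2⟩ := h.supp a
    exact ⟨_, F, h1, h2, rfl⟩
  obtain ⟨G, h1, h2, h3⟩ := Nat.find_spec this
  refine ⟨G, h1, h2, fun G' h4 h5 => ?_⟩
  have h6 := Nat.find_min' this ⟨G ∩ G', h1.inter_of_left _,
    h2.inter h5 (h1.union h4).infinite_compl, rfl⟩
  rw [← Set.inter_eq_left]
  exact Set.eq_of_subset_of_ncard_le Set.inter_subset_left (h3.le.trans h6) h1

theorem LS_act {a : ℕ} {G : Set ℕ} (hG : h.LS a G) (α : Perm ℕ) :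
    h.LS (act ξ α a) (α '' G) := by
  refine ⟨hG.1.image _, h.Fx_act hG.2.1 α, fun G' h1 h2 => ?_⟩
  have := h.Fx_act h2 α⁻¹
  rw [h.act_inv] at this
  rintro _ ⟨x, hx, rfl⟩
  obtain ⟨y, hy, rfl⟩ := hG.2.2 _ (h1.image _) this hx
  simpa using hy

theorem LS_emb {a : ℕ} {G : Set ℕ} (hG : h.LS a G) {e : ℕ → ℕ} (he : Injective e)
    (hr : (Set.range e)ᶜ.Infinite) : h.LS (act ξ e a) (e '' G) := by
  obtain ⟨α, hα⟩ := ext_fin he hG.1
  rw [h.act_emb he hr hG.1 hG.2.1 hα, ← Set.image_congr hα]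
  exact h.LS_act hG α

theorem two_mem : un (fun x => 2 * x) ∈ C 0 := h.inj_mem fun a b e => by beta_reduce at e; omega

/-- the inverse is continuous on unary operations -/
theorem inv_un {d : ℕ → ℕ} (hd : un d ∈ C 0) (x : ℕ) : ∃ T : Set ℕ, T.Finite ∧
    ∀ d', un d' ∈ C 0 → (∀ a ∈ T, act ξ d' a = act ξ d a) → d' x = d x := by
  classical
  by_cases hc : ∀ d, un d ∈ C 0 → Injective d
  · obtain ⟨a, ha⟩ : ∃ a, act ξ (swap 0 1 : Perm ℕ) a ≠ act ξ (1 : Perm ℕ) a := by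
      by_contra hn
      push Not at hn
      have := congrFun (h.act_inj (h.pm _) (h.pm _) hn) 0
      simp at this
    obtain ⟨G, hG⟩ := h.exists_LS a
    obtain ⟨g0, hg0⟩ : G.Nonempty := by
      by_contra hn
      rw [Set.not_nonempty_iff_eq_empty] at hn
      exact ha (h.agree hG.2.1 (by simp [hn]))
    have : ∀ j < 2, ∃ α : Perm ℕ, ∀ g ∈ G, α g = if g = g0 then x else x + 1 + 2 * g + j :=
      fun j hj => ext_fin (fun a b e => by beta_reduce at e; split_ifs at e <;> omega) hG.1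
    obtain ⟨α, hα⟩ := this 0 (by omega)
    obtain ⟨β, hβ⟩ := this 1 (by omega)
    refine ⟨{act ξ α a, act ξ β a}, Set.toFinite _, fun d' hd' e => ?_⟩
    have key : ∀ γ : Perm ℕ, γ g0 = x → act ξ d' (act ξ γ a) = act ξ d (act ξ γ a) →
        ∃ g ∈ G, d (γ g) = d' x := by
      intro γ h0 e
      have l : ∀ d, un d ∈ C 0 → h.LS (act ξ (fun x => 2 * d x) (act ξ γ a))
          ((fun x => 2 * d x) '' (γ '' G)) := fun d hd =>
        h.LS_emb (h.LS_act hG γ) (fun a b e => hc d hd (by beta_reduce at e; omega))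
          (odd_inf (by rintro _ ⟨x, rfl⟩; exact ⟨_, rfl⟩))
      have l1 := l d hd
      have l2 := l d' hd'
      rw [h.act_comp h.two_mem hd] at l1
      rw [h.act_comp h.two_mem hd', e] at l2
      obtain ⟨_, ⟨g, hg, rfl⟩, e2⟩ := l2.2.2 _ l1.1 l1.2.1 ⟨_, ⟨g0, hg0, rfl⟩, rfl⟩
      exact ⟨g, hg, by simp only [h0] at e2; omega⟩
    obtain ⟨g1, h1, e1⟩ := key α (by simp [hα _ hg0]) (e _ (by simp))
    obtain ⟨g2, h2, e2⟩ := key β (by simp [hβ _ hg0]) (e _ (by simp))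
    have e3 := hc d hd (e1.trans e2.symm)
    rw [← e1]
    rw [hα _ h1] at e3 ⊢
    rw [hβ _ h2] at e3
    split_ifs at e3 ⊢ <;> first | rfl | omega
  · push Not at hc
    obtain ⟨d0, h0, h1⟩ := hc
    have cm := h.const_mem h0 h1
    have cc : ∀ c a b, act ξ (fun _ => c) a = act ξ (fun _ => c) b := by
      intro c a b
      have e0 := congrFun (h.x1 (cm c) (h.pr 1 0)) ![a, b]
      have e1 := congrFun (h.x1 (cm c) (h.pr 1 1)) ![a, b]
      rw [h.xpr] at e0 e1
      exact e0.symm.trans e1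
    refine ⟨{act ξ (fun _ => x) 0}, Set.toFinite _, fun d' hd' e => ?_⟩
    have := e _ rfl
    rw [← h.act_comp hd (cm x), ← h.act_comp hd' (cm x)] at this
    exact congrFun (h.act_inj (cm _) (cm _) fun a => (cc _ a 0).trans (this.trans (cc _ 0 a))) 0

/-- the inverse is continuous -/
theorem inv_cont {n : ℕ} {f : Op n} (hf : f ∈ C n) (x : Fin (n + 1) → ℕ) :
    ∃ T : Set (Fin (n + 1) → ℕ), T.Finite ∧
      ∀ f' ∈ C n, (∀ a ∈ T, ξ n f' a = ξ n f a) → f' x = f x := by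
  classical
  have m : ∀ f ∈ C n, un (fun y => f (fun i => swap 0 (x i) y)) ∈ C 0 := fun f hf =>
    h.cp n 0 f (fun i => un (swap 0 (x i))) hf (fun i => h.pm _)
  have k : ∀ f ∈ C n, ∀ a, act ξ (fun y => f (fun i => swap 0 (x i) y)) a =
      ξ n f (fun i => act ξ (swap 0 (x i)) a) := fun f hf a =>
    congrFun (h.xcp n 0 f (fun i => un (swap 0 (x i))) hf (fun i => h.pm _)) (fun _ => a)
  obtain ⟨T, hT, h2⟩ := h.inv_un (m f hf) 0
  refine ⟨_, hT.image (fun a i => act ξ (swap 0 (x i)) a), fun f' hf' e => ?_⟩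
  have := h2 _ (m f' hf') fun a ha => by rw [k f hf, k f' hf', e _ ⟨a, ha, rfl⟩]
  simpa using this

end St

end H67.Sip
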