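import Mathlib
import Pool.Agent.H67.Sip2
import Pool.Agent.H67.Gen2

/-! Isomorphisms between a closed clone containing all permutations and a closed clone, part 2. -/

namespace H67.Sip

open Function Equiv

variable {C D : ∀ n, Set (Op n)} {ξ : ∀ n, Op n → Op n}

/-- canonisation of kernels over an initial segment -/
theorem canon (n m : ℕ) : ∃ (K : Type) (_ : Finite K) (col : Op n → K) (e : Op n → ℕ → ℕ),
    (∀ f, Injective (e f) ∧ (Set.range (e f))ᶜ.Infinite ∧ ∀ x < m, e f x = x) ∧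
    ∀ f g, col f = col g → ∀ x y : Fin (n + 1) → ℕ,
      f (fun i => e f (x i)) = f (fun i => e f (y i)) ↔
        g (fun i => e g (x i)) = g (fun i => e g (y i)) := by
  classical
  let r := 2 * (n + 1)
  let P := Fin (n + 1) → Fin m ⊕ Fin r
  let c : Op n → (Fin r → ℕ) → P → P → Prop := fun f w p q =>
    f (fun i => Sum.elim Fin.val (fun j => m + 2 * w j) (p i)) =
      f (fun i => Sum.elim Fin.val (fun j => m + 2 * w j) (q i))
  choose y hy col hc using fun f => ramsey' r (c f)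
  refine ⟨_, inferInstance, col, fun f x => if x < m then x else m + 2 * y f x,
    fun f => ⟨fun a b e => ?_, ?_, fun x hx => if_pos hx⟩, fun f g hfg u v => ?_⟩
  · beta_reduce at e
    split_ifs at e
    · exact e
    · omega
    · omega
    · exact (hy f).injective (by omega)
  · refine (Set.infinite_range_of_injective (f := fun k => m + 2 * k + 1) fun a b h => by
      beta_reduce at h; omega).mono ?_
    rintro _ ⟨k, rfl⟩ ⟨x, hx⟩
    beta_reduce at hx
    split_ifs at hx <;> omega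
  · obtain ⟨s, hs, hc'⟩ := Infinite.exists_superset_card_eq
      (Finset.univ.image u ∪ Finset.univ.image v) r (by
        refine (Finset.card_union_le _ _).trans ?_
        have := Finset.card_image_le (s := Finset.univ) (f := u)
        have := Finset.card_image_le (s := Finset.univ) (f := v)
        simp only [Finset.card_univ, Fintype.card_fin] at *
        omega)
    have key : ∀ a ∈ s, ∃ p : Fin m ⊕ Fin r, ∀ f, (if a < m then a else m + 2 * y f a) =
        Sum.elim Fin.val (fun j => m + 2 * y f (s.orderEmbOfFin hc' j)) p := by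
      intro a ha
      by_cases h : a < m
      · exact ⟨.inl ⟨a, h⟩, fun f => by simp [h]⟩
      · obtain ⟨j, hj⟩ : a ∈ Set.range (s.orderEmbOfFin hc') := by
          rw [Finset.range_orderEmbOfFin]; exact ha
        exact ⟨.inr j, fun f => by simp [h, hj]⟩
    choose p hp using fun i => key (u i) (hs (by simp))
    choose q hq using fun i => key (v i) (hs (by simp))
    simp only [hp, hq]
    have h1 := hc f _ (s.orderEmbOfFin hc').strictMono
    have h2 := hc g _ (s.orderEmbOfFin hc').strictMono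
    exact iff_of_eq (congrFun (congrFun (h1.trans (hfg.trans h2.symm)) p) q)

namespace St
variable (h : St C D ξ)
include h

theorem orbits {n : ℕ} {X : Set (Fin (n + 1) → ℕ)} (hX : X.Finite) :
    ∃ (K : Type) (_ : Finite K) (col : Op n → K), ∀ f ∈ C n, ∀ g ∈ C n,
      (Set.range f)ᶜ.Infinite → (Set.range g)ᶜ.Infinite → col f = col g →
      ∃ α : Perm ℕ, ∀ a ∈ X, act ξ α (ξ n f a) = ξ n g a := by
  choose F hF hF' using h.supp
  obtain ⟨m, hm⟩ := (hX.biUnion fun a _ => Set.finite_iUnion fun i => hF (a i)).bddAbove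
  obtain ⟨K, hK, col, e, he, hc⟩ := canon n (m + 1)
  refine ⟨K, hK, col, fun f hf g hg h1 h2 h3 => ?_⟩
  obtain ⟨α, hα⟩ := ext_perm _ _ (hc f g h3) (h1.mono (Set.compl_subset_compl.2 (by
    rintro _ ⟨x, rfl⟩; exact ⟨_, rfl⟩))) (h2.mono (Set.compl_subset_compl.2 (by
    rintro _ ⟨x, rfl⟩; exact ⟨_, rfl⟩)))
  refine ⟨α, fun a ha => ?_⟩
  have fx : ∀ f i, act ξ (e f) (a i) = a i := fun f i =>
    (h.act_emb (he f).1 (he f).2.1 (hF _) (hF' _) (α := 1) fun x hx => ((he f).2.2 x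
      (Nat.lt_succ_of_le (hm (Set.mem_biUnion ha (Set.mem_iUnion.2 ⟨i, hx⟩))))).symm).trans
      (h.act_one _)
  have e1 := congrFun (h.x1 (h.pm α) (h.m2 (h.inj_mem (he f).1) hf)) a
  rw [funext hα, h.x2 (h.inj_mem (he f).1) hf, h.x2 (h.inj_mem (he g).1) hg] at e1
  simpa only [fx] using e1.symm

theorem cont_even {n : ℕ} {f : Op n} (hf : f ∈ C n) (hr : (Set.range f)ᶜ.Infinite)
    (a : Fin (n + 1) → ℕ) (φ : ℕ → Op n) (hφ : ∀ N, φ N ∈ C n)
    (hφr : ∀ N, (Set.range (φ N))ᶜ.Infinite) (hl : ∀ x, ∀ᶠ N in Filter.atTop, φ N x = f x) :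
    ∃ N, ξ n (φ N) a = ξ n f a := by
  classical
  let U := Filter.hyperfilter ℕ
  let Q : Set ((Fin (n + 1) → ℕ) × ℕ) → Prop := fun R =>
    R.Finite ∧ {N | ∃ α : Perm ℕ, ∀ p ∈ R, act ξ α (ξ n (φ N) p.1) = p.2} ∈ U
  obtain ⟨R, hm, -, hd⟩ := H67.Gen.chain (P := {R // Q R})
    (fun (x : Fin (n + 1) → ℕ) q => ∃ y, (x, y) ∈ q.1) (fun x q => by
      obtain ⟨K, hK, col, hc⟩ := h.orbits (X := insert x (Prod.fst '' q.1))
        ((q.2.1.image _).insert _)
      obtain ⟨κ, -, hκ⟩ := (Ultrafilter.finite_biUnion_mem_iff (f := U)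
        (s := fun κ => {N | col (φ N) = κ}) (Set.finite_univ (α := K))).1
        (Filter.univ_mem' fun N => by simp)
      obtain ⟨N, ⟨α, hα⟩, hN⟩ := U.nonempty_of_mem (Filter.inter_mem q.2.2 hκ)
      refine ⟨⟨insert (x, act ξ α (ξ n (φ N) x)) q.1, q.2.1.insert _,
        Filter.mem_of_superset hκ fun M hM => ?_⟩, Set.subset_insert _ _, _, Set.mem_insert _ _⟩
      obtain ⟨β, hβ⟩ := hc _ (hφ M) _ (hφ N) (hφr M) (hφr N) (hM.trans hN.symm)
      refine ⟨α * β, ?_⟩
      rintro p (rfl | hp)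
      · rw [h.act_mul, hβ _ (Set.mem_insert _ _)]
      · rw [h.act_mul, hβ _ (Set.mem_insert_of_mem _ ⟨p, hp, rfl⟩), hα p hp])
    ⟨∅, Set.finite_empty, Filter.univ_mem' fun N => ⟨1, by simp⟩⟩
  choose t _ ψ hψ using fun x => hd x 0
  have hT : ∀ T : Set (Fin (n + 1) → ℕ), T.Finite →
      {N | ∃ α : Perm ℕ, ∀ x ∈ T, act ξ α (ξ n (φ N) x) = ψ x} ∈ U := by
    intro T hT
    obtain ⟨b, hb⟩ := (hT.image t).bddAbove
    refine Filter.mem_of_superset (R b).2.2 ?_
    rintro N ⟨α, hα⟩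
    exact ⟨α, fun x hx => hα _ (hm (hb ⟨x, hx, rfl⟩) (hψ x))⟩
  have hD : ψ ∈ D n := by
    refine mem_of_approx (h.dcl n) fun T hT' => ?_
    obtain ⟨N, α, hα⟩ := U.nonempty_of_mem (hT T hT')
    refine ⟨_, (h.bij n).mapsTo (h.m1 (h.pm α) (hφ N)), fun x hx => ?_⟩
    rw [h.x1 (h.pm α) (hφ N)]
    exact hα x hx
  obtain ⟨g, hg, rfl⟩ := (h.bij n).surjOn hD
  have P : ∀ T : Set (Fin (n + 1) → ℕ), T.Finite → ∃ N, ∃ α : Perm ℕ,
      (∀ x ∈ T, α (f x) = g x) ∧ act ξ α (ξ n (φ N) a) = ξ n g a := by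
    intro T hT'
    choose X hX hX' using fun x => h.inv_cont hg x
    have h1 : {N | ∀ x ∈ T, φ N x = f x} ∈ U := by
      apply Nat.hyperfilter_le_atTop
      exact (Filter.eventually_all_finite hT').2 fun x _ => hl x
    obtain ⟨N, ⟨α, hα⟩, hN⟩ := U.nonempty_of_mem (Filter.inter_mem
      (hT (insert a (⋃ x ∈ T, X x)) ((hT'.biUnion fun x _ => hX x).insert _)) h1)
    refine ⟨N, α, fun x hx => ?_, hα _ (Set.mem_insert _ _)⟩
    rw [← hN x hx]
    refine hX' x _ (h.m1 (h.pm α) (hφ N)) fun b hb => ?_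
    rw [h.x1 (h.pm α) (hφ N)]
    exact hα _ (Set.mem_insert_of_mem _ (Set.mem_biUnion hx hb))
  obtain ⟨γ, hγ⟩ := ext_perm (fun x => 2 * g x) f (fun x y => by
    obtain ⟨N, α, hα, -⟩ := P {x, y} (Set.toFinite _)
    rw [← hα x (by simp), ← hα y (by simp), ← α.injective.eq_iff (a := f x)]
    omega) (odd_inf (by rintro _ ⟨x, rfl⟩; exact ⟨_, rfl⟩)) hr
  have ei : Injective fun x => γ (2 * x) := fun a b e => by have := γ.injective e; omega
  have e1 := congrFun (h.x1 (h.inj_mem ei) hg) a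
  rw [funext hγ] at e1
  obtain ⟨F, hF, hF'⟩ := h.supp (ξ n f a)
  have s1 : Fx (h.stab (ξ n f a)) (Set.range f) := by
    intro α hα
    have := congrFun (h.x1 (h.pm α) hf) a
    rw [funext fun x => hα _ ⟨x, rfl⟩] at this
    exact this.symm
  have s2 := hF'.inter s1 (by rw [Set.compl_union, Set.inter_comm]; exact hr.diff hF)
  choose! s hs using fun z (hz : z ∈ F ∩ Set.range f) => hz.2
  obtain ⟨N, α, h1, h2⟩ := P (s '' (F ∩ Set.range f)) ((hF.inter_of_left _).image _)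
  refine ⟨N, ?_⟩
  obtain ⟨G, hG, hG'⟩ := h.supp (ξ n (φ N) a)
  have ej : Injective fun x => γ (2 * α x) := ei.comp α.injective
  obtain ⟨β, hβ⟩ := ext_fin ej (hG.union (hF.inter_of_left (Set.range f)))
  have er : (Set.range fun x => γ (2 * α x))ᶜ.Infinite := by
    refine Set.Infinite.of_image γ.symm ((odd_inf (S := γ.symm '' Set.range fun x => γ (2 * α x))
      (by rintro _ ⟨_, ⟨x, rfl⟩, rfl⟩; exact ⟨α x, by simp⟩)).mono ?_)
    intro y hy
    exact ⟨γ y, fun hc => hy ⟨_, hc, by simp⟩, by simp⟩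
  have e2 := h.act_emb ej er hG hG' fun x hx => hβ x (Or.inl hx)
  rw [h.act_comp (h.inj_mem ei) (h.pm α), h2, ← e1] at e2
  have e3 : act ξ β (ξ n f a) = ξ n f a := s2 β fun z hz => by
    rw [hβ z (Or.inr hz), ← hs z hz, h1 _ ⟨z, hz, rfl⟩, hγ]
  rw [← h.act_inv β (ξ n (φ N) a), ← e2]
  conv_lhs => rw [← e3]
  exact h.act_inv β _

theorem cont {n : ℕ} {f : Op n} (hf : f ∈ C n) (a : Fin (n + 1) → ℕ) :
    ∃ T : Set (Fin (n + 1) → ℕ), T.Finite ∧
      ∀ f' ∈ C n, (∀ x ∈ T, f' x = f x) → ξ n f' a = ξ n f a := by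
  by_contra hc
  push Not at hc
  have fin : ∀ N, {x : Fin (n + 1) → ℕ | Encodable.encode x < N}.Finite := fun N =>
    (Set.finite_Iio N).preimage Encodable.encode_injective.injOn
  choose φ h1 h2 h3 using fun N => hc _ (fin N)
  have ev : ∀ g : Op n, (Set.range fun x => 2 * g x)ᶜ.Infinite := fun g =>
    odd_inf (by rintro _ ⟨x, rfl⟩; exact ⟨_, rfl⟩)
  obtain ⟨N, hN⟩ := h.cont_even (h.m1 h.two_mem hf) (ev f) a (fun N x => 2 * φ N x)
    (fun N => h.m1 h.two_mem (h1 N)) (fun N => ev _) fun x =>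
      (Filter.eventually_gt_atTop (Encodable.encode x)).mono fun N hN => by rw [h2 N x hN]
  rw [h.x1 h.two_mem hf, h.x1 h.two_mem (h1 N)] at hN
  obtain ⟨F, hF, hF'⟩ := h.supp (ξ n f a)
  obtain ⟨G, hG, hG'⟩ := h.supp (ξ n (φ N) a)
  have ti : Injective fun x : ℕ => 2 * x := fun a b e => by beta_reduce at e; omega
  have tr : (Set.range fun x : ℕ => 2 * x)ᶜ.Infinite :=
    odd_inf (by rintro _ ⟨x, rfl⟩; exact ⟨_, rfl⟩)
  obtain ⟨β, hβ⟩ := ext_fin ti (hF.union hG)
  beta_reduce at hN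
  rw [h.act_emb ti tr hF hF' fun x hx => hβ x (Or.inl hx),
    h.act_emb ti tr hG hG' fun x hx => hβ x (Or.inr hx)] at hN
  apply h3 N
  rw [← h.act_inv β (ξ n (φ N) a), hN, h.act_inv]

end St

theorem cont_of_fin {X Y : Type} {S : Set (X → ℕ)} {F : S → Y → ℕ}
    (h : ∀ f y, ∃ T : Set X, T.Finite ∧ ∀ f' : S, (∀ x ∈ T, f'.1 x = f.1 x) → F f' y = F f y) :
    Continuous F := by
  refine continuous_pi fun y => continuous_iff_continuousAt.2 fun f => ?_
  obtain ⟨T, hT, h2⟩ := h f y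
  refine tendsto_const_nhds.congr' ?_
  have : ∀ᶠ f' : S in nhds f, ∀ x ∈ T, f'.1 x = f.1 x :=
    (Filter.eventually_all_finite hT).2 fun x _ =>
      ((continuous_apply x).comp continuous_subtype_val).continuousAt
        ((isOpen_discrete {f.1 x}).mem_nhds rfl)
  exact this.mono fun f' hf' => (h2 f' hf').symm

end H67.Sip
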