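import Pool.Agent.H67.SofDefs

namespace Pool.Agent.H67.Sof
open Finset

/-- points whose fibre is mostly outside `Z` are few -/
theorem nondense {X Y : Type} [Fintype X] [DecidableEq X] [DecidableEq Y] (E : X → Y)
    (Z : Finset X) :
    (univ.filter (fun x => 2 * ((univ.filter (fun x' => E x' = E x)) ∩ Z).card ≤
      (univ.filter (fun x' => E x' = E x)).card)).card ≤ 2 * Zᶜ.card := by
  set B := univ.filter (fun x => 2 * ((univ.filter (fun x' => E x' = E x)) ∩ Z).card ≤
      (univ.filter (fun x' => E x' = E x)).card) with hB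
  have h1 : B.card = ∑ y ∈ B.image E, (B.filter (fun x => E x = y)).card :=
    card_eq_sum_card_image E B
  have h2 : ∑ y ∈ B.image E, (Zᶜ.filter (fun x => E x = y)).card ≤ Zᶜ.card := by
    rw [← card_biUnion]
    · exact card_le_card (biUnion_subset.2 fun y _ => filter_subset _ _)
    · intro a _ b _ hab
      simp only [Function.onFun]
      rw [disjoint_left]
      intro x hx hx'
      exact hab ((mem_filter.1 hx).2.symm.trans (mem_filter.1 hx').2)
  have h3 : ∀ y ∈ B.image E, (B.filter (fun x => E x = y)).card ≤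
      2 * (Zᶜ.filter (fun x => E x = y)).card := by
    intro y hy
    obtain ⟨x, hx, rfl⟩ := mem_image.1 hy
    have hx2 := (mem_filter.1 hx).2
    have h4 : (B.filter (fun x' => E x' = E x)).card ≤ (univ.filter (fun x' => E x' = E x)).card :=
      card_le_card (filter_subset_filter _ (subset_univ _))
    have h5 : (univ.filter (fun x' => E x' = E x)).card ≤
        ((univ.filter (fun x' => E x' = E x)) ∩ Z).card + (Zᶜ.filter (fun x' => E x' = E x)).card := by
      refine le_trans (card_le_card ?_) (card_union_le _ _)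
      intro w hw
      by_cases hz : w ∈ Z
      · exact mem_union_left _ (mem_inter.2 ⟨hw, hz⟩)
      · exact mem_union_right _ (mem_filter.2 ⟨mem_compl.2 hz, (mem_filter.1 hw).2⟩)
    omega
  calc B.card = _ := h1
    _ ≤ ∑ y ∈ B.image E, 2 * (Zᶜ.filter (fun x => E x = y)).card := sum_le_sum h3
    _ = 2 * ∑ y ∈ B.image E, (Zᶜ.filter (fun x => E x = y)).card := by rw [mul_sum]
    _ ≤ 2 * Zᶜ.card := by omega

/-- fibre growth -/
theorem grow {X : Type} [Fintype X] [DecidableEq X] (Z : Finset X) (E A B Ai K EA : X → X)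
    (h1 : ∀ x ∈ Z, Ai (A x) = x) (h2 : ∀ x ∈ Z, Ai (B x) = K x) (h3 : ∀ x ∈ Z, K (K x) = x)
    (h4 : ∀ x ∈ Z, E (A x) = EA x) (h5 : ∀ x ∈ Z, E (B x) = EA x)
    (h6 : ∀ x ∈ Z, EA (E x) = EA x) (h7 : ∀ x ∈ Z, E (K x) ≠ E x) (x : X) (hx : x ∈ Z)
    (hd : (univ.filter (fun x' => E x' = E x)).card <
      2 * ((univ.filter (fun x' => E x' = E x)) ∩ Z).card) :
    (univ.filter (fun x' => E x' = E x)).card < (univ.filter (fun x' => E x' = E (A x))).card := by
  set F := (univ.filter (fun x' => E x' = E x)) ∩ Z with hF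
  have hFZ : ∀ w ∈ F, w ∈ Z := fun w hw => (mem_inter.1 hw).2
  have hFE : ∀ w ∈ F, E w = E x := fun w hw => (mem_filter.1 (mem_inter.1 hw).1).2
  have cA : (F.image A).card = F.card := card_image_of_injOn (fun a ha b hb hab => by
    rw [← h1 a (hFZ a ha), hab, h1 b (hFZ b hb)])
  have cB : (F.image B).card = F.card := card_image_of_injOn (fun a ha b hb hab => by
    rw [← h3 a (hFZ a ha), ← h2 a (hFZ a ha), hab, h2 b (hFZ b hb), h3 b (hFZ b hb)])
  have dis : Disjoint (F.image A) (F.image B) := by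
    rw [disjoint_left]
    intro w hw hw'
    obtain ⟨a, ha, rfl⟩ := mem_image.1 hw
    obtain ⟨b, hb, hab⟩ := mem_image.1 hw'
    have : K b = a := by rw [← h2 b (hFZ b hb), hab, h1 a (hFZ a ha)]
    apply h7 b (hFZ b hb)
    rw [this, hFE a ha, hFE b hb]
  have sub : F.image A ∪ F.image B ⊆ univ.filter (fun x' => E x' = E (A x)) := by
    intro w hw
    rw [mem_filter]
    refine ⟨mem_univ _, ?_⟩
    rcases mem_union.1 hw with hw | hw
    · obtain ⟨a, ha, rfl⟩ := mem_image.1 hw
      rw [h4 a (hFZ a ha), ← h6 a (hFZ a ha), hFE a ha, h6 x hx, h4 x hx]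
    · obtain ⟨a, ha, rfl⟩ := mem_image.1 hw
      rw [h5 a (hFZ a ha), ← h6 a (hFZ a ha), hFE a ha, h6 x hx, h4 x hx]
  have := card_le_card sub
  rw [card_union_of_disjoint dis, cA, cB] at this
  omega

/-- the triangle count -/
theorem tri {X : Type} [Fintype X] [DecidableEq X] (G : Finset X) (S T T2 : X → X) (u : X → ℕ)
    (h1 : ∀ x ∈ G, S (S x) = x) (h2 : ∀ x ∈ G, T2 (T x) = x) (h3 : ∀ x ∈ G, T (T2 x) = x)
    (h4 : ∀ x ∈ G, T2 (T2 x) = T x)
    (h5 : ∀ x ∈ G, u x < u (T (S x))) (h6 : ∀ x ∈ G, u x < u (T2 (S x))) :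
    Fintype.card X ≤ 6 * Gᶜ.card := by
  set D := G.filter (fun x => S x ∈ G ∧ u (S x) ≤ u x) with hD
  have hDm : ∀ x ∈ D, x ∈ G ∧ S x ∈ G ∧ u (S x) ≤ u x := fun x hx => by
    simpa [hD] using hx
  have key : ∀ a ∈ D, ∀ b ∈ D, S a ≠ T (S b) := by
    intro a ha b hb hab
    obtain ⟨ha1, ha2, ha3⟩ := hDm a ha
    obtain ⟨hb1, hb2, hb3⟩ := hDm b hb
    have e1 := h5 b hb1
    have e2 := h6 a ha1
    rw [hab, h2 _ hb2] at e2
    rw [← hab] at e1
    omega
  have key2 : ∀ a ∈ D, ∀ b ∈ D, S a ≠ T2 (S b) := by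
    intro a ha b hb hab
    apply key b hb a ha
    rw [hab, h3 _ (hDm b hb).2.1]
  have key3 : ∀ a ∈ D, ∀ b ∈ D, T (S a) ≠ T2 (S b) := by
    intro a ha b hb hab
    apply key a ha b hb
    rw [← h2 _ (hDm a ha).2.1, hab, h4 _ (hDm b hb).2.1]
  have iS : ∀ a ∈ G, ∀ b ∈ G, S a = S b → a = b := fun a ha b hb hab => by
    rw [← h1 a ha, hab, h1 b hb]
  have c1 : (D.image S).card = D.card := card_image_of_injOn (fun a ha b hb hab =>
    iS a (hDm a ha).1 b (hDm b hb).1 hab)
  have c2 : (D.image (fun x => T (S x))).card = D.card := card_image_of_injOn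
    (fun a ha b hb hab => iS a (hDm a ha).1 b (hDm b hb).1 (by
      have hab' : T (S a) = T (S b) := hab
      rw [← h2 _ (hDm a ha).2.1, hab', h2 _ (hDm b hb).2.1]))
  have c3 : (D.image (fun x => T2 (S x))).card = D.card := card_image_of_injOn
    (fun a ha b hb hab => iS a (hDm a ha).1 b (hDm b hb).1 (by
      have hab' : T2 (S a) = T2 (S b) := hab
      rw [← h3 _ (hDm a ha).2.1, hab', h3 _ (hDm b hb).2.1]))
  have d12 : Disjoint (D.image S) (D.image (fun x => T (S x))) := by
    rw [disjoint_left]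
    intro w hw hw'
    obtain ⟨a, ha, rfl⟩ := mem_image.1 hw
    obtain ⟨b, hb, hab⟩ := mem_image.1 hw'
    exact key a ha b hb hab.symm
  have d3 : Disjoint (D.image S ∪ D.image (fun x => T (S x))) (D.image (fun x => T2 (S x))) := by
    rw [disjoint_left]
    intro w hw hw'
    obtain ⟨b, hb, hab⟩ := mem_image.1 hw'
    rcases mem_union.1 hw with hw | hw
    · obtain ⟨a, ha, rfl⟩ := mem_image.1 hw
      exact key2 a ha b hb hab.symm
    · obtain ⟨a, ha, rfl⟩ := mem_image.1 hw
      exact key3 a ha b hb hab.symm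
  have up := card_le_univ ((D.image S ∪ D.image (fun x => T (S x))) ∪ D.image (fun x => T2 (S x)))
  rw [card_union_of_disjoint d3, card_union_of_disjoint d12, c1, c2, c3] at up
  have cb : (G.filter (fun x => S x ∉ G)).card ≤ Gᶜ.card := by
    apply card_le_card_of_injOn S
    · intro x hx
      exact mem_coe.2 (mem_compl.2 (mem_filter.1 (mem_coe.1 hx)).2)
    · intro a ha b hb hab
      exact iS a (mem_filter.1 (mem_coe.1 ha)).1 b (mem_filter.1 (mem_coe.1 hb)).1 hab
  have cov : (univ : Finset X) ⊆ ((Gᶜ ∪ G.filter (fun x => S x ∉ G)) ∪ D) ∪ D.image S := by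
    intro x _
    by_cases hx : x ∈ G
    · by_cases hs : S x ∈ G
      · by_cases hu : u (S x) ≤ u x
        · exact mem_union_left _ (mem_union_right _ (mem_filter.2 ⟨hx, hs, hu⟩))
        · refine mem_union_right _ (mem_image.2 ⟨S x, mem_filter.2 ⟨hs, ?_, ?_⟩, h1 x hx⟩)
          · rw [h1 x hx]; exact hx
          · rw [h1 x hx]; omega
      · exact mem_union_left _ (mem_union_left _ (mem_union_right _ (mem_filter.2 ⟨hx, hs⟩)))
    · exact mem_union_left _ (mem_union_left _ (mem_union_left _ (mem_compl.2 hx)))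
  have lo := card_le_card cov
  have u1 := card_union_le ((Gᶜ ∪ G.filter (fun x => S x ∉ G)) ∪ D) (D.image S)
  have u2 := card_union_le (Gᶜ ∪ G.filter (fun x => S x ∉ G)) D
  have u3 := card_union_le Gᶜ (G.filter (fun x => S x ∉ G))
  rw [card_univ] at lo
  omega

/-- a good set for an approximate action -/
theorem goodSet {M : Type} [Monoid M] (h : Sofic M) (K : Finset M) (c : ℕ) :
    ∃ (X : Type) (_ : Fintype X) (_ : DecidableEq X) (act : M → X → X) (Z : Finset X),
      (∀ x, act 1 x = x) ∧ c * Zᶜ.card < Fintype.card X ∧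
      (∀ x ∈ Z, ∀ s ∈ K, ∀ t ∈ K, act s (act t x) = act (s * t) x) ∧
      (∀ x ∈ Z, ∀ s ∈ K, ∀ t ∈ K, s ≠ t → act s x ≠ act t x) := by
  classical
  set k : ℝ := (K.card : ℝ) with hk
  have hk0 : 0 ≤ k := Nat.cast_nonneg _
  have hc0 : (0 : ℝ) ≤ c := Nat.cast_nonneg _
  obtain ⟨X, iX, nX, act, a1, a2, a3⟩ := h K (1 / (2 * c * k ^ 2 + 1)) (by positivity)
  set ε : ℝ := 1 / (2 * c * k ^ 2 + 1) with hε
  let P : M × M → Finset X := fun p => univ.filter (fun x => ¬ act p.1 (act p.2 x) = act (p.1 * p.2) x)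
  let Q : M × M → Finset X := fun p => univ.filter (fun x => p.1 ≠ p.2 ∧ act p.1 x = act p.2 x)
  have compl : ∀ (p : X → Prop), (1 - ε) * (Fintype.card X : ℝ) ≤ (Set.ncard {x | p x} : ℝ) →
      ((univ.filter (fun x => ¬ p x)).card : ℝ) ≤ ε * Fintype.card X := by
    intro p hp
    have e1 : Set.ncard {x | p x} = (univ.filter p).card := by
      rw [← Set.ncard_coe_finset]; congr 1; ext x; simp
    have e2 := card_filter_add_card_filter_not (s := (univ : Finset X)) p
    rw [card_univ] at e2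
    have e3 : ((univ.filter p).card : ℝ) + ((univ.filter (fun x => ¬ p x)).card : ℝ)
        = Fintype.card X := by exact_mod_cast e2
    rw [e1] at hp
    linarith
  have hP : ∀ p ∈ K ×ˢ K, ((P p).card : ℝ) ≤ ε * Fintype.card X := fun p hp =>
    compl _ (a2 _ (mem_product.1 hp).1 _ (mem_product.1 hp).2)
  have hQ : ∀ p ∈ K ×ˢ K, ((Q p).card : ℝ) ≤ ε * Fintype.card X := by
    intro p hp
    by_cases hne : p.1 = p.2
    · have : Q p = ∅ := by ext x; simp [Q, hne]
      rw [this]; simp only [card_empty, Nat.cast_zero]; positivity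
    · have := compl _ (a3 _ (mem_product.1 hp).1 _ (mem_product.1 hp).2 hne)
      refine le_trans (le_of_eq ?_) this
      congr 2
      ext x; simp [Q, hne]
  refine ⟨X, iX, inferInstance, act, ((K ×ˢ K).biUnion (fun p => P p ∪ Q p))ᶜ, a1, ?_, ?_, ?_⟩
  · rw [compl_compl]
    have b1 : (((K ×ˢ K).biUnion (fun p => P p ∪ Q p)).card : ℝ) ≤
        ∑ p ∈ K ×ˢ K, (2 * ε * Fintype.card X) := by
      have := card_biUnion_le (s := K ×ˢ K) (t := fun p => P p ∪ Q p)
      have this' : (((K ×ˢ K).biUnion (fun p => P p ∪ Q p)).card : ℝ) ≤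
          ∑ p ∈ K ×ˢ K, ((P p ∪ Q p).card : ℝ) := by exact_mod_cast this
      refine le_trans this' ?_
      refine sum_le_sum fun p hp => ?_
      have e1 : (((P p ∪ Q p).card : ℕ) : ℝ) ≤ (P p).card + (Q p).card := by
        exact_mod_cast card_union_le _ _
      have := hP p hp
      have := hQ p hp
      linarith
    rw [sum_const, card_product, nsmul_eq_mul] at b1
    push_cast at b1
    have hX : (0 : ℝ) < Fintype.card X := by exact_mod_cast Fintype.card_pos
    have e2 : (c : ℝ) * (k * k * (2 * ε * Fintype.card X)) < Fintype.card X := by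
      have : (c : ℝ) * (k * k * (2 * ε)) < 1 := by
        rw [hε]
        have hp : (0 : ℝ) < 2 * c * k ^ 2 + 1 := by positivity
        rw [show (c : ℝ) * (k * k * (2 * (1 / (2 * c * k ^ 2 + 1)))) =
          (2 * c * k ^ 2) / (2 * c * k ^ 2 + 1) by field_simp, div_lt_one hp]
        linarith
      nlinarith
    have e3 : (c : ℝ) * (((K ×ˢ K).biUnion (fun p => P p ∪ Q p)).card : ℝ) < Fintype.card X :=
      lt_of_le_of_lt (mul_le_mul_of_nonneg_left b1 hc0) e2
    exact_mod_cast e3
  · intro x hx s hs t ht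
    by_contra hne
    apply mem_compl.1 hx
    exact mem_biUnion.2 ⟨(s, t), mem_product.2 ⟨hs, ht⟩, mem_union_left _ (by simpa [P] using hne)⟩
  · intro x hx s hs t ht hst hne
    apply mem_compl.1 hx
    exact mem_biUnion.2 ⟨(s, t), mem_product.2 ⟨hs, ht⟩,
      mem_union_right _ (by simpa [Q] using ⟨hst, hne⟩)⟩

/-- the obstruction -/
theorem not_sofic {M : Type} [Monoid M] (s t e k l : M) (hs : s * s = 1) (ht : t * (t * t) = 1)
    (hk : k * k = 1) (hl : l * l = 1)
    (e1 : e * (t * s) * e = e * (t * s)) (e2 : e * (t * t * s) * e = e * (t * t * s))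
    (k1 : e * (t * s * k) = e * (t * s)) (l1 : e * (t * t * s * l) = e * (t * t * s))
    (k2 : e * k ≠ e) (l2 : e * l ≠ e) : ¬ Sofic M := by
  classical
  intro h
  have ht' : t * t * t = 1 := by rw [mul_assoc]; exact ht
  have i1 : s * (t * t) * (t * s) = 1 := by
    calc s * (t * t) * (t * s) = s * (t * t * t) * s := by simp only [mul_assoc]
      _ = 1 := by rw [ht', mul_one, hs]
  have i2 : s * t * (t * t * s) = 1 := by
    calc s * t * (t * t * s) = s * (t * t * t) * s := by simp only [mul_assoc]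
      _ = 1 := by rw [ht', mul_one, hs]
  obtain ⟨X, iX, dX, act, Z, a1, hZ, a2, a3⟩ := goodSet h
    {s, t, t * t, e, k, l, t * s, t * t * s, t * s * k, t * t * s * l, s * (t * t), s * t,
      e * (t * s), e * (t * t * s), e * k, e * l} 18
  let u : X → ℕ := fun x => (univ.filter (fun x' => act e x' = act e x)).card
  let G : Finset X := Z.filter (fun x => u x <
    2 * ((univ.filter (fun x' => act e x' = act e x)) ∩ Z).card)
  have hG : ∀ x ∈ G, x ∈ Z := fun x hx => (mem_filter.1 hx).1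
  have hc : Gᶜ.card ≤ 3 * Zᶜ.card := by
    have n1 := nondense (act e) Z
    have : Gᶜ ⊆ Zᶜ ∪ univ.filter (fun x => 2 * ((univ.filter (fun x' => act e x' = act e x)) ∩ Z).card ≤
      (univ.filter (fun x' => act e x' = act e x)).card) := by
      intro x hx
      by_cases hz : x ∈ Z
      · refine mem_union_right _ (mem_filter.2 ⟨mem_univ _, ?_⟩)
        by_contra hlt
        exact mem_compl.1 hx (mem_filter.2 ⟨hz, not_le.1 hlt⟩)
      · exact mem_union_left _ (mem_compl.2 hz)
    have := le_trans (card_le_card this) (card_union_le _ _)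
    omega
  have g1 : ∀ x ∈ G, u x < u (act (t * s) x) := by
    intro x hx
    refine grow Z (act e) (act (t * s)) (act (t * s * k)) (act (s * (t * t))) (act k)
      (act (e * (t * s))) ?_ ?_ ?_ ?_ ?_ ?_ ?_ x (hG x hx) (mem_filter.1 hx).2
    · intro y hy; rw [a2 y hy _ (by simp) _ (by simp), i1, a1]
    · intro y hy; rw [a2 y hy _ (by simp) _ (by simp), ← mul_assoc, i1, one_mul]
    · intro y hy; rw [a2 y hy _ (by simp) _ (by simp), hk, a1]
    · intro y hy; rw [a2 y hy _ (by simp) _ (by simp)]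
    · intro y hy; rw [a2 y hy _ (by simp) _ (by simp), k1]
    · intro y hy; rw [a2 y hy _ (by simp) _ (by simp), e1]
    · intro y hy; rw [a2 y hy _ (by simp) _ (by simp)]
      exact a3 y hy _ (by simp) _ (by simp) k2
  have g2 : ∀ x ∈ G, u x < u (act (t * t * s) x) := by
    intro x hx
    refine grow Z (act e) (act (t * t * s)) (act (t * t * s * l)) (act (s * t)) (act l)
      (act (e * (t * t * s))) ?_ ?_ ?_ ?_ ?_ ?_ ?_ x (hG x hx) (mem_filter.1 hx).2
    · intro y hy; rw [a2 y hy _ (by simp) _ (by simp), i2, a1]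
    · intro y hy; rw [a2 y hy _ (by simp) _ (by simp), ← mul_assoc, i2, one_mul]
    · intro y hy; rw [a2 y hy _ (by simp) _ (by simp), hl, a1]
    · intro y hy; rw [a2 y hy _ (by simp) _ (by simp)]
    · intro y hy; rw [a2 y hy _ (by simp) _ (by simp), l1]
    · intro y hy; rw [a2 y hy _ (by simp) _ (by simp), e2]
    · intro y hy; rw [a2 y hy _ (by simp) _ (by simp)]
      exact a3 y hy _ (by simp) _ (by simp) l2
  have := tri G (act s) (act t) (act (t * t)) u ?_ ?_ ?_ ?_ ?_ ?_
  · omega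
  · intro y hy; rw [a2 y (hG y hy) _ (by simp) _ (by simp), hs, a1]
  · intro y hy; rw [a2 y (hG y hy) _ (by simp) _ (by simp), ht', a1]
  · intro y hy; rw [a2 y (hG y hy) _ (by simp) _ (by simp), ht, a1]
  · intro y hy; rw [a2 y (hG y hy) _ (by simp) _ (by simp), ← mul_assoc, ht', one_mul]
  · intro y hy; rw [a2 y (hG y hy) _ (by simp) _ (by simp)]; exact g1 y hy
  · intro y hy; rw [a2 y (hG y hy) _ (by simp) _ (by simp)]; exact g2 y hy

end Pool.Agent.H67.Sof
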