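import Pool.Agent.H67.Sof1

namespace Pool.Agent.H67.Sof
open Classical

theorem sofic_of_hom {Q : Type} [Group Q]
    (h : ∀ K : Finset Q, ∃ (F : Type) (_ : Monoid F) (_ : Finite F) (φ : Q →* F),
      Set.InjOn φ K) : Sofic Q := by
  intro K ε hε
  obtain ⟨F, iF, fF, φ, hφ⟩ := h K
  have : Finite Fˣ := Finite.of_injective _ Units.val_injective
  letI : Fintype Fˣ := Fintype.ofFinite _
  refine ⟨Fˣ, inferInstance, ⟨1⟩, fun q x => φ.toHomUnits q * x, by simp, ?_, ?_⟩
  · intro s _ t _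
    have : {x : Fˣ | φ.toHomUnits s * (φ.toHomUnits t * x) = φ.toHomUnits (s * t) * x}
        = Set.univ := by
      ext x; simp [mul_assoc]
    rw [this, Set.ncard_univ, Nat.card_eq_fintype_card]
    have : (0 : ℝ) ≤ (Fintype.card Fˣ : ℝ) := Nat.cast_nonneg _
    nlinarith
  · intro s hs t ht hst
    have : {x : Fˣ | φ.toHomUnits s * x ≠ φ.toHomUnits t * x} = Set.univ := by
      ext x
      simp only [Set.mem_setOf_eq, Set.mem_univ, iff_true]
      intro e
      apply hst
      apply hφ hs ht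
      have := congrArg Units.val (mul_right_cancel e)
      simpa using this
    rw [this, Set.ncard_univ, Nat.card_eq_fintype_card]
    have : (0 : ℝ) ≤ (Fintype.card Fˣ : ℝ) := Nat.cast_nonneg _
    nlinarith

theorem sofic_grp {G : Type} [Group G]
    (h : ∀ K : Finset G, ∃ (F : Type) (_ : Monoid F) (_ : Finite F) (ψ : G →* F),
      ∀ g ∈ K, ψ g = 1 → g = 1) : Sofic G := by
  apply sofic_of_hom
  intro K
  obtain ⟨F, iF, fF, ψ, hψ⟩ := h ((K ×ˢ K).image (fun p => p.1⁻¹ * p.2))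
  refine ⟨F, iF, fF, ψ, fun a ha b hb hab => ?_⟩
  have := hψ (a⁻¹ * b) (Finset.mem_image.2 ⟨(a, b), Finset.mem_product.2 ⟨ha, hb⟩, rfl⟩)
    (by rw [map_mul, ← hab, ← map_mul]; simp)
  exact (inv_mul_eq_one.1 this)

theorem sofic_quot {G : Type} [Group G] (H : Subgroup G) [H.Normal]
    (h : ∀ K : Finset G, ∃ (F : Type) (_ : Monoid F) (_ : Finite F) (ψ : G →* F),
      (∀ g ∈ H, ψ g = 1) ∧ ∀ g ∈ K, ψ g = 1 → g ∈ H) : Sofic (G ⧸ H) := by
  apply sofic_grp
  intro K
  obtain ⟨F, iF, fF, ψ, h1, h2⟩ := h (K.image Quotient.out)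
  refine ⟨F, iF, fF, QuotientGroup.lift H ψ h1, fun q hq e => ?_⟩
  rw [← QuotientGroup.out_eq' q] at e ⊢
  rw [QuotientGroup.lift_mk'] at e
  exact (QuotientGroup.eq_one_iff _).2 (h2 _ (Finset.mem_image_of_mem _ hq) e)

theorem unit_mul_iff {N : Type} [Monoid N] {a b : N} (hb : IsUnit b) :
    IsUnit (a * b) ↔ IsUnit a := by
  obtain ⟨u, rfl⟩ := hb
  exact Units.isUnit_mul_units a u

/-- `N` with the non-units turned into right zeros -/
@[ext] structure RZ (N : Type) where
  v : N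

variable {N : Type} [Monoid N]

noncomputable instance : Monoid (RZ N) where
  mul x y := ⟨if IsUnit y.v then x.v * y.v else y.v⟩
  one := ⟨1⟩
  mul_assoc x y z := by
    apply RZ.ext
    show (if IsUnit z.v then (if IsUnit y.v then x.v * y.v else y.v) * z.v else z.v) =
      (if IsUnit (if IsUnit z.v then y.v * z.v else z.v) then
        x.v * (if IsUnit z.v then y.v * z.v else z.v) else (if IsUnit z.v then y.v * z.v else z.v))
    by_cases hz : IsUnit z.v
    · by_cases hy : IsUnit y.v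
      · simp [hz, hy, mul_assoc, unit_mul_iff hz]
      · simp [hz, hy, unit_mul_iff hz]
    · simp [hz]
  one_mul x := by
    apply RZ.ext
    show (if IsUnit x.v then 1 * x.v else x.v) = x.v
    simp
  mul_one x := by
    apply RZ.ext
    show (if IsUnit (1 : N) then x.v * 1 else 1) = x.v
    simp

theorem RZ.mul_v (x y : RZ N) : (x * y).v = if IsUnit y.v then x.v * y.v else y.v := rfl
theorem RZ.one_v : (1 : RZ N).v = 1 := rfl

theorem RZ.unit_of_mul {x y : RZ N} (h : IsUnit (x * y).v) : IsUnit y.v := by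
  by_contra hy
  rw [RZ.mul_v, if_neg hy] at h
  exact hy h

/-- units of `N` as units of `RZ N` -/
noncomputable def RZ.up (u : Nˣ) : (RZ N)ˣ where
  val := ⟨u⟩
  inv := ⟨(u⁻¹ : Nˣ)⟩
  val_inv := by apply RZ.ext; rw [RZ.mul_v, RZ.one_v]; simp
  inv_val := by apply RZ.ext; rw [RZ.mul_v, RZ.one_v]; simp

theorem RZ.isUnit_iff (x : RZ N) : IsUnit x ↔ IsUnit x.v := by
  constructor
  · rintro ⟨u, rfl⟩
    apply RZ.unit_of_mul (x := ((u⁻¹ : (RZ N)ˣ) : RZ N))
    rw [Units.inv_mul, RZ.one_v]; exact isUnit_one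
  · rintro ⟨u, hu⟩
    exact ⟨RZ.up u, RZ.ext hu⟩

theorem RZ.junits : JUnits (RZ N) := by
  intro x hx
  obtain ⟨a, b, h⟩ := hx 1
  have hb : IsUnit b.v := RZ.unit_of_mul (x := a * x) (by rw [h, RZ.one_v]; exact isUnit_one)
  have h2 := congrArg RZ.v h
  rw [RZ.mul_v, if_pos hb, RZ.one_v] at h2
  have h3 : IsUnit (a * x).v := (unit_mul_iff hb).1 (by rw [h2]; exact isUnit_one)
  exact (RZ.isUnit_iff x).2 (RZ.unit_of_mul h3)

/-- the unit groups agree -/
noncomputable def RZ.upHom : Nˣ →* (RZ N)ˣ where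
  toFun := RZ.up
  map_one' := by ext; rfl
  map_mul' a b := by
    ext
    show ((a * b : Nˣ) : N) = ((⟨a⟩ : RZ N) * ⟨b⟩).v
    rw [RZ.mul_v]; simp

theorem RZ.up_bij : Function.Bijective (RZ.upHom : Nˣ →* (RZ N)ˣ) := by
  constructor
  · intro a b h
    have := congrArg (fun u : (RZ N)ˣ => (u : RZ N).v) h
    exact Units.ext this
  · intro u
    obtain ⟨w, hw⟩ := (RZ.isUnit_iff (u : RZ N)).1 u.isUnit
    exact ⟨w, Units.ext (RZ.ext hw)⟩

theorem RZ.sofic
    (h : ∀ K : Finset N, ∃ (F L : Type) (_ : Monoid F) (_ : Finite F) (_ : Finite L)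
      (P : N → F) (lab : N → L), P 1 = 1 ∧
      (∀ s ∈ K, ∀ t ∈ K, IsUnit t → P (s * t) = P s * P t) ∧
      (∀ s t, IsUnit t → lab (s * t) = lab s) ∧
      (∀ s ∈ K, ∀ t ∈ K, lab s = lab t → ∀ x, P s * x = P t * x → s = t)) : Sofic (RZ N) := by
  intro K ε hε
  obtain ⟨F, L, iF, fF, fL, P, lab, h1, h2, h3, h4⟩ := h (K.image RZ.v)
  have := Fintype.ofFinite F
  have := Fintype.ofFinite L
  obtain ⟨z, hz⟩ := exists_nat_gt ((Fintype.card L : ℝ) / ε)
  let act : RZ N → (F × Fin (z + 1)) ⊕ (L × F) → (F × Fin (z + 1)) ⊕ (L × F) := fun m x =>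
    match x with
    | Sum.inl p => if IsUnit m.v then Sum.inl (P m.v * p.1, p.2) else Sum.inr (lab m.v, P m.v * p.1)
    | Sum.inr q => Sum.inr q
  refine ⟨(F × Fin (z + 1)) ⊕ (L × F), inferInstance, ⟨Sum.inl (1, 0)⟩, act, ?_, ?_, ?_⟩
  · rintro (p | q)
    · simp [act, RZ.one_v, h1]
    · rfl
  · intro s hs t ht
    have hs' := Finset.mem_image_of_mem RZ.v hs
    have ht' := Finset.mem_image_of_mem RZ.v ht
    have : {x | act s (act t x) = act (s * t) x} = Set.univ := by
      ext x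
      simp only [Set.mem_setOf_eq, Set.mem_univ, iff_true]
      rcases x with p | q
      · by_cases hu : IsUnit t.v
        · by_cases hv : IsUnit s.v
          · simp [act, RZ.mul_v, hu, hv, h2 _ hs' _ ht' hu, mul_assoc, unit_mul_iff hu]
          · simp [act, RZ.mul_v, hu, hv, h2 _ hs' _ ht' hu, mul_assoc, h3 _ _ hu, unit_mul_iff hu]
        · simp [act, RZ.mul_v, hu]
      · rfl
    rw [this, Set.ncard_univ, Nat.card_eq_fintype_card]
    have : (0 : ℝ) ≤ (Fintype.card ((F × Fin (z + 1)) ⊕ (L × F)) : ℝ) := Nat.cast_nonneg _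
    nlinarith
  · intro s hs t ht hst
    have hs' := Finset.mem_image_of_mem RZ.v hs
    have ht' := Finset.mem_image_of_mem RZ.v ht
    have sub : Set.range Sum.inl ⊆ {x | act s x ≠ act t x} := by
      rintro _ ⟨p, rfl⟩ e
      apply hst
      apply RZ.ext
      by_cases hu : IsUnit t.v
      · by_cases hv : IsUnit s.v
        · simp only [act, hu, hv, if_true, Sum.inl.injEq, Prod.mk.injEq] at e
          refine h4 _ hs' _ ht' ?_ _ e.1
          have a1 := h3 1 _ hu
          have a2 := h3 1 _ hv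
          rw [one_mul] at a1 a2
          rw [a1, a2]
        · simp [act, hu, hv] at e
      · by_cases hv : IsUnit s.v
        · simp [act, hu, hv] at e
        · simp only [act, hu, hv, if_false, Sum.inr.injEq, Prod.mk.injEq] at e
          exact h4 _ hs' _ ht' e.1 _ e.2
    have c1 := Set.ncard_le_ncard sub (Set.toFinite _)
    rw [Set.ncard_range_of_injective Sum.inl_injective, Nat.card_eq_fintype_card] at c1
    have c2 : ((Fintype.card (F × Fin (z + 1)) : ℕ) : ℝ) ≤ (Set.ncard {x | act s x ≠ act t x} : ℝ) := by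
      exact_mod_cast c1
    refine le_trans ?_ c2
    simp only [Fintype.card_sum, Fintype.card_prod, Fintype.card_fin]
    push_cast
    have hF : (0 : ℝ) ≤ Fintype.card F := Nat.cast_nonneg _
    have hL : (0 : ℝ) ≤ Fintype.card L := Nat.cast_nonneg _
    have hz' : (Fintype.card L : ℝ) < z * ε := by rwa [div_lt_iff₀ hε] at hz
    have : (1 - ε) * ((z + 1) + Fintype.card L) ≤ (z + 1 : ℝ) := by nlinarith
    nlinarith

end Pool.Agent.H67.Sof
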