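import Pool.Agent.H67.Sof2

namespace Pool.Agent.H67.Sof
open Classical Finsupp

/-- triples (lamp configuration, visible set, group element) -/
@[ext] structure Tr (Γ Ω : Type) where
  b : Ω →₀ ZMod 2
  D : Set Ω
  g : Γ

section
variable {Γ Ω : Type} [Group Γ] [MulAction Γ Ω]

theorem mapD_apply (g : Γ) (c : Ω →₀ ZMod 2) (ω : Ω) :
    (c.mapDomain (fun w => g • w)) ω = c (g⁻¹ • ω) := by
  have := mapDomain_apply (f := fun w : Ω => g • w) (MulAction.injective g) c (g⁻¹ • ω)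
  simpa using this

noncomputable def Tr.mul (x y : Tr Γ Ω) : Tr Γ Ω :=
  ⟨x.b + (y.b.mapDomain (fun w => x.g • w)).filter (· ∈ x.D), x.D ∩ {ω | x.g⁻¹ • ω ∈ y.D},
    x.g * y.g⟩

theorem Tr.mul_b' (x y : Tr Γ Ω) (ω : Ω) :
    (x.mul y).b ω = x.b ω + if ω ∈ x.D then y.b (x.g⁻¹ • ω) else 0 := by
  simp [Tr.mul, filter_apply, mapD_apply]

noncomputable instance : Monoid (Tr Γ Ω) where
  mul := Tr.mul
  one := ⟨0, Set.univ, 1⟩
  mul_assoc x y z := by
    show (x.mul y).mul z = x.mul (y.mul z)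
    apply Tr.ext
    · ext ω
      simp only [Tr.mul_b']
      simp only [Tr.mul, Set.mem_inter_iff, Set.mem_setOf_eq, mul_inv_rev, mul_smul]
      by_cases h1 : ω ∈ x.D <;> by_cases h2 : x.g⁻¹ • ω ∈ y.D <;> simp [h1, h2, add_assoc]
    · ext ω
      simp [Tr.mul, mul_smul, and_assoc]
    · simp [Tr.mul, mul_assoc]
  one_mul x := by
    show (Tr.mul ⟨0, Set.univ, 1⟩ x) = x
    apply Tr.ext
    · ext ω; simp [Tr.mul_b']
    · ext ω; simp [Tr.mul]
    · simp [Tr.mul]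
  mul_one x := by
    show (Tr.mul x ⟨0, Set.univ, 1⟩) = x
    apply Tr.ext
    · ext ω; simp [Tr.mul_b']
    · ext ω; simp [Tr.mul]
    · simp [Tr.mul]

theorem Tr.mul_b (x y : Tr Γ Ω) (ω : Ω) :
    (x * y).b ω = x.b ω + if ω ∈ x.D then y.b (x.g⁻¹ • ω) else 0 := Tr.mul_b' x y ω
theorem Tr.mul_bb (x y : Tr Γ Ω) :
    (x * y).b = x.b + (y.b.mapDomain (fun w => x.g • w)).filter (· ∈ x.D) := rfl
theorem Tr.mul_D (x y : Tr Γ Ω) : (x * y).D = x.D ∩ {ω | x.g⁻¹ • ω ∈ y.D} := rfl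
theorem Tr.mul_g (x y : Tr Γ Ω) : (x * y).g = x.g * y.g := rfl
theorem Tr.one_b : (1 : Tr Γ Ω).b = 0 := rfl
theorem Tr.one_D : (1 : Tr Γ Ω).D = Set.univ := rfl
theorem Tr.one_g : (1 : Tr Γ Ω).g = 1 := rfl

theorem Tr.D_of_mul {x y : Tr Γ Ω} (h : (x * y).D = Set.univ) :
    x.D = Set.univ ∧ y.D = Set.univ := by
  rw [Tr.mul_D] at h
  refine ⟨Set.eq_univ_of_forall fun ω => ((Set.eq_univ_iff_forall.1 h) ω).1,
    Set.eq_univ_of_forall fun ω => ?_⟩
  simpa using ((Set.eq_univ_iff_forall.1 h) (x.g • ω)).2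

theorem Tr.isUnit_iff (x : Tr Γ Ω) : IsUnit x ↔ x.D = Set.univ := by
  constructor
  · rintro ⟨u, rfl⟩
    exact (Tr.D_of_mul (y := ((u⁻¹ : (Tr Γ Ω)ˣ) : Tr Γ Ω)) (by rw [Units.mul_inv]; rfl)).1
  · intro h
    refine ⟨⟨x, ⟨-(x.b.mapDomain (fun w => x.g⁻¹ • w)), Set.univ, x.g⁻¹⟩, ?_, ?_⟩, rfl⟩
    · apply Tr.ext
      · ext ω; simp [Tr.mul_b, h, mapD_apply, Tr.one_b, CharTwo.add_self_eq_zero]
      · simp [Tr.mul_D, h, Tr.one_D]
      · simp [Tr.mul_g, Tr.one_g]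
    · apply Tr.ext
      · ext ω; simp [Tr.mul_b, h, mapD_apply, Tr.one_b, CharTwo.add_self_eq_zero]
      · simp [Tr.mul_D, h, Tr.one_D]
      · simp [Tr.mul_g, Tr.one_g]

theorem Tr.junits : JUnits (Tr Γ Ω) := by
  intro x hx
  obtain ⟨a, b, h⟩ := hx 1
  exact (Tr.isUnit_iff x).2 (Tr.D_of_mul (Tr.D_of_mul (by rw [h]; rfl)).1).2

instance [Finite Γ] [Finite Ω] : Finite (Tr Γ Ω) :=
  Finite.of_injective (fun x : Tr Γ Ω => ((x.b : Ω → ZMod 2), x.D, x.g)) (by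
    intro x y h
    simp only [Prod.mk.injEq] at h
    exact Tr.ext (DFunLike.coe_injective h.1) h.2.1 h.2.2)

theorem Tr.mem_orbStab (m : Tr Γ Ω) (u : (Tr Γ Ω)ˣ) :
    u ∈ orbStab m ↔ (u : Tr Γ Ω).g = 1 ∧
      (u : Tr Γ Ω).b.filter (fun ω => ∃ γ : Γ, γ • ω ∈ m.D) = 0 := by
  constructor
  · intro h
    refine ⟨?_, ?_⟩
    · have := congrArg Tr.g (h 1)
      simpa [Tr.mul_g] using this
    · ext ω
      rw [filter_apply]
      split_ifs with hω
      · obtain ⟨γ, hγ⟩ := hω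
        obtain ⟨w, hw⟩ := (Tr.isUnit_iff (⟨0, Set.univ, m.g⁻¹ * γ⟩ : Tr Γ Ω)).2 rfl
        have := congrArg (fun z : Tr Γ Ω => z.b (γ • ω)) (h w)
        simp only [hw] at this
        rw [Tr.mul_b] at this
        simpa [Tr.mul_D, Tr.mul_g, hγ] using this
      · rfl
  · rintro ⟨h1, h2⟩ w
    have hD := (Tr.isUnit_iff _).1 u.isUnit
    apply Tr.ext
    · ext ω
      rw [Tr.mul_b]
      split_ifs with hω
      · have := congrArg (fun c : Ω →₀ ZMod 2 => c ((m * (w : Tr Γ Ω)).g⁻¹ • ω)) h2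
        simp only [filter_apply] at this
        rw [if_pos ⟨(m * (w : Tr Γ Ω)).g, by simpa using hω.1⟩] at this
        simp [this]
      · simp
    · rw [Tr.mul_D, hD]; simp
    · rw [Tr.mul_g, h1, mul_one]

end

/-- finite models of an action -/
def Approx (Γ Ω : Type) [Group Γ] [MulAction Γ Ω] : Prop :=
  ∀ (V : Finset Γ) (W : Finset Ω), ∃ (Γ' Ω' : Type) (_ : Group Γ') (_ : MulAction Γ' Ω')
    (_ : Finite Γ') (_ : Finite Ω') (π : Γ →* Γ') (r : Ω → Ω'),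
    (∀ γ ω, r (γ • ω) = π γ • r ω) ∧ Set.InjOn π V ∧ Set.InjOn r W

section
variable {Γ Ω Γ' Ω' : Type} [Group Γ] [MulAction Γ Ω] [Group Γ'] [MulAction Γ' Ω']

theorem push (π : Γ →* Γ') (r : Ω → Ω') (h : ∀ γ ω, r (γ • ω) = π γ • r ω) (γ : Γ)
    (c : Ω →₀ ZMod 2) : (c.mapDomain (fun w => γ • w)).mapDomain r =
      (c.mapDomain r).mapDomain (fun w => π γ • w) := by
  rw [← mapDomain_comp, ← mapDomain_comp]
  congr 1
  funext w
  exact h γ w

theorem filt (r : Ω → Ω') (W : Set Ω) (hr : Set.InjOn r W) (c : Ω →₀ ZMod 2)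
    (hc : (c.support : Set Ω) ⊆ W) (D : Set Ω) (D' : Set Ω') (hD : ∀ ω ∈ W, r ω ∈ D' ↔ ω ∈ D) :
    (c.filter (· ∈ D)).mapDomain r = (c.mapDomain r).filter (· ∈ D') := by
  have hc' : ((c.filter (· ∈ D)).support : Set Ω) ⊆ W := by
    intro w hw
    apply hc
    rw [support_filter] at hw
    exact Finset.mem_coe.2 (Finset.mem_filter.1 (Finset.mem_coe.1 hw)).1
  ext ω'
  by_cases h : ω' ∈ r '' W
  · obtain ⟨ω, hω, rfl⟩ := h
    rw [filter_apply, mapDomain_apply' W _ hc' hr hω, mapDomain_apply' W _ hc hr hω, filter_apply]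
    simp only [hD ω hω]
  · rw [filter_apply, mapDomain_of_not_mem_image_support (fun h' => h (Set.image_mono hc' h')),
      mapDomain_of_not_mem_image_support (fun h' => h (Set.image_mono hc h'))]
    simp

theorem Tr.quot_models (hA : Approx Γ Ω) (m : Tr Γ Ω) (K : Finset (Tr Γ Ω)ˣ) :
    ∃ (F : Type) (_ : Monoid F) (_ : Finite F) (ψ : (Tr Γ Ω)ˣ →* F),
      (∀ g ∈ orbStab m, ψ g = 1) ∧ ∀ g ∈ K, ψ g = 1 → g ∈ orbStab m := by
  obtain ⟨Γ', Ω', i1, i2, i3, i4, π, r, h1, h2, h3⟩ := hA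
    (insert 1 (K.image (fun u : (Tr Γ Ω)ˣ => (u : Tr Γ Ω).g))) (K.biUnion (fun u => (u : Tr Γ Ω).b.support))
  let p : Ω → Prop := fun ω => ∃ γ : Γ, γ • ω ∈ m.D
  have hp : ∀ (γ : Γ) ω, p (γ⁻¹ • ω) ↔ p ω := by
    intro γ ω
    constructor
    · rintro ⟨δ, hδ⟩; exact ⟨δ * γ⁻¹, by rwa [mul_smul]⟩
    · rintro ⟨δ, hδ⟩; exact ⟨δ * γ, by simpa [mul_smul] using hδ⟩
  let ψ : (Tr Γ Ω)ˣ →* Tr Γ' Ω' :=
    { toFun := fun u => ⟨((u : Tr Γ Ω).b.filter p).mapDomain r, Set.univ, π (u : Tr Γ Ω).g⟩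
      map_one' := by
        apply Tr.ext
        · simp [Tr.one_b, filter_zero]
        · rfl
        · simp [Tr.one_g]
      map_mul' := by
        intro a b
        have hD := (Tr.isUnit_iff _).1 a.isUnit
        apply Tr.ext
        · rw [Tr.mul_bb]
          simp only [Units.val_mul]
          have fu : ∀ (d : DecidablePred (· ∈ (Set.univ : Set Ω'))) (c : Ω' →₀ ZMod 2),
              @Finsupp.filter _ _ _ (· ∈ (Set.univ : Set Ω')) d c = c := by
            intro d c; ext w; simp [filter_apply]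
          rw [← push π r h1, fu, ← mapDomain_add]
          congr 1
          ext ω
          simp only [filter_apply, Tr.mul_b, hD, Set.mem_univ, if_true, Finsupp.add_apply,
            mapD_apply, hp]
          split_ifs <;> simp
        · simp [Tr.mul_D]
        · simp [Tr.mul_g] }
  refine ⟨Tr Γ' Ω', inferInstance, inferInstance, ψ, ?_, ?_⟩
  · intro u hu
    obtain ⟨e1, e2⟩ := (Tr.mem_orbStab m u).1 hu
    apply Tr.ext
    · show ((u : Tr Γ Ω).b.filter p).mapDomain r = 0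
      rw [show (u : Tr Γ Ω).b.filter p = 0 from e2, mapDomain_zero]
    · rfl
    · show π (u : Tr Γ Ω).g = 1
      rw [e1, map_one]
  · intro u hu e
    rw [Tr.mem_orbStab]
    refine ⟨h2 (by simp; exact Or.inr ⟨u, hu, rfl⟩) (by simp) ?_, ?_⟩
    · rw [map_one]; exact congrArg Tr.g e
    · have e2 : ((u : Tr Γ Ω).b.filter p).mapDomain r = (0 : Ω →₀ ZMod 2).mapDomain r := by
        rw [mapDomain_zero]; exact congrArg Tr.b e
      refine mapDomain_injOn _ h3 ?_ (by simp) e2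
      intro w hw
      rw [support_filter] at hw
      exact Finset.mem_coe.2 (Finset.mem_biUnion.2
        ⟨u, hu, (Finset.mem_filter.1 (Finset.mem_coe.1 hw)).1⟩)

theorem Tr.sofic_quot (hA : Approx Γ Ω) (m : Tr Γ Ω) : Sofic ((Tr Γ Ω)ˣ ⧸ orbStab m) :=
  Pool.Agent.H67.Sof.sofic_quot _ (Tr.quot_models hA m)

theorem Tr.sofic_units (hA : Approx Γ Ω) : Sofic (Tr Γ Ω)ˣ := by
  apply sofic_grp
  intro K
  obtain ⟨F, i1, i2, ψ, -, h⟩ := Tr.quot_models hA 1 K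
  refine ⟨F, i1, i2, ψ, fun g hg e => ?_⟩
  have := h g hg e 1
  simpa using this

theorem Tr.sofic_RZ (hA : Approx Γ Ω) : Sofic (RZ (Tr Γ Ω)) := by
  apply RZ.sofic
  intro K
  let W : Finset Ω := K.biUnion (fun u => u.b.support) ∪
    (K ×ˢ K).biUnion (fun q => (q.2.b.mapDomain (fun w => q.1.g • w)).support)
  obtain ⟨Γ', Ω', i1, i2, i3, i4, π, r, h1, h2, h3⟩ := hA (K.image Tr.g) W
  let dh : Set Ω → Set Ω' := fun D => if D = Set.univ then Set.univ else r '' (D ∩ W)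
  have hdh : ∀ D, ∀ ω ∈ (W : Set Ω), r ω ∈ dh D ↔ ω ∈ D := by
    intro D ω hω
    by_cases h : D = Set.univ
    · simp [dh, h]
    · simp only [dh, if_neg h]
      constructor
      · rintro ⟨w, hw, e⟩
        rw [← h3 hw.2 hω e]; exact hw.1
      · intro h'; exact ⟨ω, ⟨h', hω⟩, rfl⟩
  let lb : Set Ω → Option (K.image Tr.D) := fun D =>
    if h : D ∈ K.image Tr.D then some ⟨D, h⟩ else none
  have hmul : ∀ s t : Tr Γ Ω, IsUnit t → (s * t).D = s.D := by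
    intro s t ht
    rw [Tr.mul_D, (Tr.isUnit_iff t).1 ht]; simp
  refine ⟨Tr Γ' Ω', Option (K.image Tr.D), inferInstance, inferInstance, inferInstance,
    fun m => ⟨m.b.mapDomain r, dh m.D, π m.g⟩, fun m => lb m.D, ?_, ?_, ?_, ?_⟩
  · apply Tr.ext
    · simp [Tr.one_b]
    · simp [Tr.one_D, dh]
    · simp [Tr.one_g]
  · intro s hs t ht hu
    apply Tr.ext
    · rw [Tr.mul_bb]
      simp only []
      rw [Tr.mul_bb, mapDomain_add, filt r W h3 _ ?_ _ _ (hdh s.D), push π r h1]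
      intro w hw
      exact Finset.mem_coe.2 (Finset.mem_union_right _ (Finset.mem_biUnion.2
        ⟨(s, t), Finset.mem_product.2 ⟨hs, ht⟩, hw⟩))
    · rw [Tr.mul_D]
      simp only [hmul s t hu, (Tr.isUnit_iff t).1 hu]
      simp [dh]
    · simp [Tr.mul_g]
  · intro s t hu
    simp only [hmul s t hu]
  · intro s hs t ht e x ex
    have eD : s.D = t.D := by
      simp only [lb, dif_pos (Finset.mem_image_of_mem Tr.D hs),
        dif_pos (Finset.mem_image_of_mem Tr.D ht), Option.some.injEq, Subtype.mk.injEq] at e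
      exact e
    have eg : π s.g = π t.g := by
      have := congrArg Tr.g ex
      simpa [Tr.mul_g] using this
    have eb := congrArg Tr.b ex
    simp only [Tr.mul_bb, eD, eg] at eb
    have sW : ∀ u ∈ K, (u.b.support : Set Ω) ⊆ W := fun u hu w hw =>
      Finset.mem_coe.2 (Finset.mem_union_left _ (Finset.mem_biUnion.2 ⟨u, hu, hw⟩))
    exact Tr.ext (mapDomain_injOn _ h3 (sW s hs) (sW t ht) (add_right_cancel eb)) eD
      (h2 (by simp; exact ⟨s, hs, rfl⟩) (by simp; exact ⟨t, ht, rfl⟩) eg)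

theorem Tr.not_sofic (s t : Γ) (C : Set Ω) (p q : Ω) (hs : s * s = 1) (ht : t * (t * t) = 1)
    (h1 : ∀ ω ∈ C, (t * s) • ω ∈ C) (h2 : ∀ ω ∈ C, (t * t * s) • ω ∈ C)
    (hp : p ∉ C) (hq : q ∉ C) (hp' : (t * s) • p ∈ C) (hq' : (t * t * s) • q ∈ C) :
    ¬ Sofic (Tr Γ Ω) := by
  let ι : Γ → Tr Γ Ω := fun γ => ⟨0, Set.univ, γ⟩
  have ιm : ∀ a b, ι a * ι b = ι (a * b) := by
    intro a b
    apply Tr.ext
    · ext ω; simp [Tr.mul_b, ι]
    · simp [Tr.mul_D, ι]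
    · simp [Tr.mul_g, ι]
  let e : Tr Γ Ω := ⟨0, Cᶜ, 1⟩
  let κ : Ω → Tr Γ Ω := fun w => ⟨single w 1, Set.univ, 1⟩
  have κκ : ∀ w, κ w * κ w = 1 := by
    intro w
    apply Tr.ext
    · ext ω; simp [Tr.mul_b, κ, Tr.one_b, CharTwo.add_self_eq_zero]
    · simp [Tr.mul_D, κ, Tr.one_D]
    · simp [Tr.mul_g, κ, Tr.one_g]
  have ee : ∀ a : Γ, (∀ ω ∈ C, a • ω ∈ C) → e * ι a * e = e * ι a := by
    intro a ha
    apply Tr.ext
    · ext ω; simp [Tr.mul_b, ι, e]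
    · ext ω
      simp only [Tr.mul_D, Tr.mul_g, ι, e, Set.mem_inter_iff, Set.mem_setOf_eq, Set.mem_compl_iff,
        Set.mem_univ, and_true, one_mul, and_iff_left_iff_imp]
      intro h h'
      exact h (by simpa using ha _ h')
    · simp [Tr.mul_g, ι, e]
  have ek : ∀ (a : Γ) w, a • w ∈ C → e * (ι a * κ w) = e * ι a := by
    intro a w ha
    apply Tr.ext
    · ext ω
      simp only [Tr.mul_b, ι, e, κ, Set.mem_univ, if_true, inv_one, one_smul, coe_zero,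
        Pi.zero_apply, zero_add, ite_self]
      split_ifs with h
      · refine single_eq_of_ne ?_
        rintro rfl
        exact h (by simpa using ha)
      · rfl
    · simp [Tr.mul_D, ι, e, κ]
    · simp [Tr.mul_g, ι, e, κ]
  have en : ∀ w, w ∉ C → e * κ w ≠ e := by
    intro w hw h
    have := congrArg (fun z : Tr Γ Ω => z.b w) h
    simp [Tr.mul_b, e, κ, hw] at this
  refine Pool.Agent.H67.Sof.not_sofic (ι s) (ι t) e (κ p) (κ q) ?_ ?_ (κκ p) (κκ q) ?_ ?_ ?_ ?_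
    (en p hp) (en q hq)
  · rw [ιm, hs]; rfl
  · rw [ιm, ιm, ht]; rfl
  · rw [ιm]; exact ee _ h1
  · rw [ιm, ιm]; exact ee _ h2
  · rw [ιm]; exact ek _ _ hp'
  · rw [ιm, ιm]; exact ek _ _ hq'

end

end Pool.Agent.H67.Sof
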