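import Pool.Agent.H67.Sof3

namespace Pool.Agent.H67.Sof
open Matrix

abbrev GZ := GL (Fin 2) ℤ
abbrev OZ := Fin 2 → ℤ

theorem cast_inj (S : Finset ℤ) : ∃ n : ℕ, 0 < n ∧ Set.InjOn (Int.cast : ℤ → ZMod n) S := by
  obtain ⟨B, hB⟩ := (S.image Int.natAbs).exists_le
  refine ⟨2 * B + 1, by omega, fun a ha b hb h => ?_⟩
  have h1 := hB _ (Finset.mem_image_of_mem _ ha)
  have h2 := hB _ (Finset.mem_image_of_mem _ hb)
  rw [ZMod.intCast_eq_intCast_iff_dvd_sub] at h
  have := Int.eq_zero_of_abs_lt_dvd h (by rw [abs_lt]; constructor <;> omega)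
  omega

theorem approx : Approx GZ OZ := by
  classical
  intro V W
  obtain ⟨n, hn, h⟩ := cast_inj
    ((V.biUnion fun g => Finset.univ.image fun p : Fin 2 × Fin 2 => (g : Matrix _ _ ℤ) p.1 p.2) ∪
      W.biUnion fun w => Finset.univ.image w)
  haveI : NeZero n := ⟨hn.ne'⟩
  refine ⟨GL (Fin 2) (ZMod n), Fin 2 → ZMod n, inferInstance, inferInstance,
    Finite.of_injective _ Units.val_injective, inferInstance,
    GeneralLinearGroup.map (Int.castRingHom (ZMod n)), fun w i => (w i : ZMod n), ?_, ?_, ?_⟩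
  · intro γ ω
    funext i
    simp [Units.smul_def, mulVec, dotProduct, Fin.sum_univ_two]
  · intro a ha b hb e
    ext i j
    have := congrArg (fun g : GL (Fin 2) (ZMod n) => (g : Matrix _ _ (ZMod n)) i j) e
    refine h ?_ ?_ (by simpa using this)
    · exact Finset.mem_coe.2 (Finset.mem_union_left _ (Finset.mem_biUnion.2
        ⟨a, ha, Finset.mem_image.2 ⟨(i, j), Finset.mem_univ _, rfl⟩⟩))
    · exact Finset.mem_coe.2 (Finset.mem_union_left _ (Finset.mem_biUnion.2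
        ⟨b, hb, Finset.mem_image.2 ⟨(i, j), Finset.mem_univ _, rfl⟩⟩))
  · intro a ha b hb e
    funext i
    refine h ?_ ?_ (congrFun e i)
    · exact Finset.mem_coe.2 (Finset.mem_union_right _ (Finset.mem_biUnion.2
        ⟨a, ha, Finset.mem_image.2 ⟨i, Finset.mem_univ _, rfl⟩⟩))
    · exact Finset.mem_coe.2 (Finset.mem_union_right _ (Finset.mem_biUnion.2
        ⟨b, hb, Finset.mem_image.2 ⟨i, Finset.mem_univ _, rfl⟩⟩))

def sM : GZ := ⟨!![1, 0; 0, -1], !![1, 0; 0, -1], by decide, by decide⟩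
def tM : GZ := ⟨!![0, -1; 1, -1], !![-1, 1; -1, 0], by decide, by decide⟩

theorem ts_smul (w : OZ) : (tM * sM) • w = ![w 1, w 0 + w 1] := by
  funext i
  fin_cases i <;> simp [Units.smul_def, tM, sM, mulVec, dotProduct, Fin.sum_univ_two]

theorem tts_smul (w : OZ) : (tM * tM * sM) • w = ![-(w 0 + w 1), -w 0] := by
  funext i
  fin_cases i <;> simp [Units.smul_def, tM, sM, mulVec, dotProduct, Fin.sum_univ_two]
  ring

theorem main_not_sofic : ¬ Sofic (Tr GZ OZ) := by
  refine Tr.not_sofic sM tM {w | 0 < w 0 * w 1} ![0, 1] ![1, 0] ?_ ?_ ?_ ?_ ?_ ?_ ?_ ?_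
  · apply Units.ext; decide
  · apply Units.ext; decide
  · intro w hw
    have hw' : 0 < w 0 * w 1 := hw
    rw [ts_smul]
    show 0 < w 1 * (w 0 + w 1)
    nlinarith [sq_nonneg (w 1)]
  · intro w hw
    have hw' : 0 < w 0 * w 1 := hw
    rw [tts_smul]
    show 0 < -(w 0 + w 1) * -w 0
    nlinarith [sq_nonneg (w 0)]
  · simp
  · simp
  · rw [ts_smul]; simp
  · rw [tts_smul]; simp

end Pool.Agent.H67.Sof
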