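import Mathlib

namespace Pool.Agent.H67.Sof

/-- Sofic monoid (Ceccherini-Silberstein and Coornaert): for every finite `K` and `ε > 0`
there is a `(K, ε)`-action on a finite nonempty set.  A group is sofic when it is sofic
as a monoid. -/
def Sofic (M : Type) [Monoid M] : Prop :=
  ∀ (K : Finset M) (ε : ℝ), 0 < ε →
    ∃ (X : Type) (_ : Fintype X) (_ : Nonempty X) (act : M → X → X),
      (∀ x, act 1 x = x) ∧
      (∀ s ∈ K, ∀ t ∈ K, (1 - ε) * (Fintype.card X : ℝ) ≤
        (Set.ncard {x | act s (act t x) = act (s * t) x} : ℝ)) ∧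
      (∀ s ∈ K, ∀ t ∈ K, s ≠ t → (1 - ε) * (Fintype.card X : ℝ) ≤
        (Set.ncard {x | act s x ≠ act t x} : ℝ))

/-- The `J`-class of `1` (the elements `x` with `M x M = M`) is the group of units. -/
def JUnits (M : Type) [Monoid M] : Prop :=
  ∀ x : M, (∀ y : M, ∃ a b : M, a * x * b = y) → IsUnit x

/-- The pointwise stabiliser, in the group of units acting on `M` by right translation,
of the orbit `{m h : h a unit}` of `m`. -/
def orbStab {M : Type} [Monoid M] (m : M) : Subgroup Mˣ where
  carrier := {g | ∀ h : Mˣ, m * (h : M) * (g : M) = m * (h : M)}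
  one_mem' := by intro h; simp
  mul_mem' := by
    intro a b ha hb h
    have h1 : m * (h : M) * (a : M) = m * (h : M) := ha h
    have h2 : m * (h : M) * (b : M) = m * (h : M) := hb h
    rw [Units.val_mul, ← mul_assoc, h1, h2]
  inv_mem' := by
    intro a ha h
    have h1 : m * (h : M) * (a : M) = m * (h : M) := ha h
    calc m * (h : M) * ((a⁻¹ : Mˣ) : M) = m * (h : M) * (a : M) * ((a⁻¹ : Mˣ) : M) := by rw [h1]
      _ = m * (h : M) := by rw [mul_assoc, Units.mul_inv, mul_one]

instance orbStab_normal {M : Type} [Monoid M] (m : M) : (orbStab m).Normal := ⟨by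
  intro a ha g h
  have h1 : m * ((h * g : Mˣ) : M) * (a : M) = m * ((h * g : Mˣ) : M) := ha (h * g)
  simp only [Units.val_mul] at h1 ⊢
  calc m * (h : M) * ((g : M) * (a : M) * ((g⁻¹ : Mˣ) : M))
      = m * ((h : M) * (g : M)) * (a : M) * ((g⁻¹ : Mˣ) : M) := by simp only [mul_assoc]
    _ = m * (h : M) := by rw [h1]; simp [mul_assoc]⟩

end Pool.Agent.H67.Sof
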