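import Mathlib

namespace Pool.Agent.H67.SqIndex

open scoped BigOperators

theorem trace_dual {V J : Type*} [AddCommGroup V] [Module ℂ V] [FiniteDimensional ℂ V]
    [Fintype J] (p : J → V →ₗ[ℂ] ℂ) (b : J → V) (h : ∀ v, v = ∑ j, p j v • b j)
    (f : V →ₗ[ℂ] V) : LinearMap.trace ℂ V f = ∑ j, p j (f (b j)) := by
  have : f = ∑ j, (p j).smulRight (f (b j)) := by
    ext v
    conv_lhs => rw [h v]
    simp [map_sum, LinearMap.sum_apply]
  conv_lhs => rw [this]
  rw [map_sum]
  refine Finset.sum_congr rfl fun j _ => ?_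
  rw [LinearMap.trace_smulRight]

theorem trace_idem {V : Type*} [AddCommGroup V] [Module ℂ V] [FiniteDimensional ℂ V]
    (f : V →ₗ[ℂ] V) (hf : f * f = f) : ∃ k : ℕ, LinearMap.trace ℂ V f = k := by
  have he : IsIdempotentElem f := hf
  exact ⟨_, (LinearMap.IsIdempotentElem.isProj_range f he).trace⟩

/-- coefficient functional -/
noncomputable def cf {G : Type*} (g : G) : MonoidAlgebra ℂ G →ₗ[ℂ] ℂ where
  toFun a := a.coeff g
  map_add' _ _ := rfl
  map_smul' _ _ := rfl

theorem cf_apply {G : Type*} (g : G) (a : MonoidAlgebra ℂ G) : cf g a = a.coeff g := rfl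

theorem expand {G : Type*} [Fintype G] (a : MonoidAlgebra ℂ G) :
    a = ∑ g, cf g a • MonoidAlgebra.single g (1 : ℂ) := by
  classical
  ext x
  simp [cf_apply, MonoidAlgebra.coeff_sum, Finsupp.single_apply, Finsupp.finsetSum_apply]

theorem traceA {G : Type*} [Group G] [Fintype G] (f : MonoidAlgebra ℂ G →ₗ[ℂ] MonoidAlgebra ℂ G) :
    LinearMap.trace ℂ _ f = ∑ g, (f (MonoidAlgebra.single g 1)).coeff g :=
  trace_dual cf _ expand f

theorem T1 {G : Type*} [Group G] [Fintype G] (a : MonoidAlgebra ℂ G) :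
    LinearMap.trace ℂ _ (LinearMap.mulLeft ℂ a) = Fintype.card G * a.coeff 1 := by
  rw [traceA]
  simp [MonoidAlgebra.coeff_mul_single_apply]

/-- entry functional -/
def en {n : Type*} (a b : n) : Matrix n n ℂ →ₗ[ℂ] ℂ where
  toFun X := X a b
  map_add' _ _ := rfl
  map_smul' _ _ := rfl

theorem traceM {n : Type*} [Fintype n] [DecidableEq n] (f : Matrix n n ℂ →ₗ[ℂ] Matrix n n ℂ) :
    LinearMap.trace ℂ _ f = ∑ j : n × n, f (Matrix.single j.1 j.2 1) j.1 j.2 := by
  refine trace_dual (fun j : n × n => en j.1 j.2) (fun j => Matrix.single j.1 j.2 1) ?_ f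
  intro X
  conv_lhs => rw [Matrix.matrix_eq_sum_single X]
  rw [Fintype.sum_prod_type]
  refine Finset.sum_congr rfl fun a _ => Finset.sum_congr rfl fun b _ => ?_
  simp [en]

theorem T2 {n : ℕ} {d : Fin n → ℕ} (X : Π i, Matrix (Fin (d i)) (Fin (d i)) ℂ) :
    LinearMap.trace ℂ _ (LinearMap.mulLeft ℂ X) = ∑ i, (d i : ℂ) * (X i).trace := by
  classical
  rw [trace_dual (J := Σ i : Fin n, Fin (d i) × Fin (d i))
    (fun j => (en j.2.1 j.2.2).comp (LinearMap.proj j.1))
    (fun j => Pi.single j.1 (Matrix.single j.2.1 j.2.2 1))]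
  · rw [Fintype.sum_sigma]
    refine Finset.sum_congr rfl fun i _ => ?_
    rw [Fintype.sum_prod_type]
    simp [en, Matrix.trace, Finset.mul_sum]
  · intro Y
    funext i
    rw [Fintype.sum_sigma, Finset.sum_apply, Finset.sum_eq_single i]
    · rw [Finset.sum_apply, Fintype.sum_prod_type]
      conv_lhs => rw [Matrix.matrix_eq_sum_single (Y i)]
      refine Finset.sum_congr rfl fun a _ => Finset.sum_congr rfl fun b _ => ?_
      simp [en]
    · intro j _ hj
      rw [Finset.sum_apply]
      refine Finset.sum_eq_zero fun x _ => ?_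
      simp [Pi.single_eq_of_ne hj.symm]
    · simp

/-- Frobenius-Schur type integrality -/
theorem fs_int {G n : Type*} [Group G] [Fintype G] [Fintype n] [DecidableEq n]
    (ρ : G →* Matrix n n ℂ) :
    ∃ ν : ℤ, ∑ x, (ρ (x ^ 2)).trace = Fintype.card G * (ν : ℂ) := by
  let R : G → (Matrix n n ℂ →ₗ[ℂ] Matrix n n ℂ) := fun x =>
    (LinearMap.mulLeft ℂ (ρ x)) * (LinearMap.mulRight ℂ (ρ x).transpose)
  let σ : Matrix n n ℂ →ₗ[ℂ] Matrix n n ℂ := (Matrix.transposeLinearEquiv n n ℂ ℂ).toLinearMap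
  have hR : ∀ x X, R x X = ρ x * (X * (ρ x).transpose) := fun x X => rfl
  have hσ : ∀ X, σ X = X.transpose := fun X => rfl
  have hRR : ∀ x y, R x * R y = R (x * y) := by
    intro x y
    refine LinearMap.ext fun X => ?_
    simp only [Module.End.mul_apply, hR, map_mul, Matrix.transpose_mul, mul_assoc]
  have hRσ : ∀ x, σ * R x = R x * σ := by
    intro x
    refine LinearMap.ext fun X => ?_
    simp only [Module.End.mul_apply, hR, hσ, Matrix.transpose_mul, mul_assoc,
      Matrix.transpose_transpose]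
  have hσσ : σ * σ = 1 := by
    refine LinearMap.ext fun X => ?_
    simp only [Module.End.mul_apply, hσ, Matrix.transpose_transpose, Module.End.one_apply]
  have hc : (Fintype.card G : ℂ) ≠ 0 := by exact_mod_cast Fintype.card_ne_zero
  let E : Matrix n n ℂ →ₗ[ℂ] Matrix n n ℂ := (Fintype.card G : ℂ)⁻¹ • ∑ x, R x
  have hEE : E * E = E := by
    simp only [E, smul_mul_assoc, mul_smul_comm, Finset.sum_mul_sum, hRR]
    have : ∀ x : G, ∑ y, R (x * y) = ∑ y, R y := fun x =>
      Fintype.sum_equiv (Equiv.mulLeft x) _ _ (fun _ => rfl)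
    simp only [this, Finset.sum_const, Finset.card_univ]
    rw [← Nat.cast_smul_eq_nsmul ℂ, smul_smul _ (Fintype.card G : ℂ), inv_mul_cancel₀ hc, one_smul]
  have hEσ : σ * E = E * σ := by
    simp only [E, smul_mul_assoc, mul_smul_comm, Finset.mul_sum, Finset.sum_mul, hRσ]
  have h1 : E * (E * σ) = E * σ := by rw [← mul_assoc, hEE]
  have h2 : (E * σ) * E = E * σ := by rw [mul_assoc, hEσ, h1]
  have h3 : (E * σ) * (E * σ) = E := by rw [← mul_assoc, h2, mul_assoc, hσσ, mul_one]
  obtain ⟨k1, hk1⟩ := trace_idem ((1/2 : ℂ) • (E + E * σ)) (by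
    rw [smul_mul_assoc, mul_smul_comm, add_mul, mul_add, mul_add, hEE, h1, h2, h3, smul_smul]
    rw [show E + E * σ + (E * σ + E) = (2 : ℂ) • (E + E * σ) by rw [two_smul]; abel, smul_smul]
    norm_num)
  obtain ⟨k2, hk2⟩ := trace_idem ((1/2 : ℂ) • (E - E * σ)) (by
    rw [smul_mul_assoc, mul_smul_comm, sub_mul, mul_sub, mul_sub, hEE, h1, h2, h3, smul_smul]
    rw [show E - E * σ - (E * σ - E) = (2 : ℂ) • (E - E * σ) by rw [two_smul]; abel, smul_smul]
    norm_num)
  refine ⟨(k1 : ℤ) - k2, ?_⟩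
  have h4 : LinearMap.trace ℂ _ (E * σ) = (k1 : ℂ) - k2 := by
    rw [map_smul, map_add, smul_eq_mul] at hk1
    rw [map_smul, map_sub, smul_eq_mul] at hk2
    linear_combination hk1 - hk2
  have h5 : ∀ x, LinearMap.trace ℂ _ (R x * σ) = (ρ (x ^ 2)).trace := by
    intro x
    rw [traceM, Fintype.sum_prod_type, pow_two, map_mul]
    simp only [Matrix.trace, Matrix.diag, Matrix.mul_apply (M := ρ x) (N := ρ x)]
    refine Finset.sum_congr rfl fun a _ => Finset.sum_congr rfl fun b _ => ?_
    rw [Module.End.mul_apply, hR, hσ, Matrix.transpose_single, Matrix.mul_apply,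
      Finset.sum_eq_single b]
    · simp
    · intro c _ hc
      rw [Matrix.single_mul_apply_of_ne _ _ _ _ _ hc, mul_zero]
    · simp
  push_cast
  rw [← h4]
  simp only [E, smul_mul_assoc, Finset.sum_mul, map_smul, map_sum, h5, smul_eq_mul]
  rw [← mul_assoc, mul_inv_cancel₀ hc, one_mul]


section Perm
variable {n : ℕ} {d : Fin n → ℕ}

theorem central_idem (hd : ∀ i, NeZero (d i)) (c : Π i, Matrix (Fin (d i)) (Fin (d i)) ℂ)
    (hc : ∀ X, c * X = X * c) (hi : c * c = c) (j : Fin n) : c j = 0 ∨ c j = 1 := by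
  classical
  have h1 : c j ∈ Set.range (Matrix.scalar (Fin (d j))) := by
    rw [Matrix.mem_range_scalar_iff_commute_single']
    intro a b
    have := congrFun (hc (Pi.single j (Matrix.single a b 1))) j
    simp only [Pi.mul_apply, Pi.single_eq_same] at this
    exact this.symm
  obtain ⟨t, ht⟩ := h1
  have h2 := congrFun hi j
  rw [Pi.mul_apply, ← ht, ← map_mul] at h2
  haveI := hd j
  have h3 : t * t = t := Matrix.scalar_inj.1 h2
  have h4 : t = 0 ∨ t = 1 := by
    rcases eq_or_ne t 0 with h | h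
    · exact Or.inl h
    · exact Or.inr (mul_left_cancel₀ h (by rw [h3, mul_one]))
  rcases h4 with h | h
  · left; rw [← ht, h, map_zero]
  · right; rw [← ht, h, map_one]

theorem single_central (i : Fin n) (X : Π i, Matrix (Fin (d i)) (Fin (d i)) ℂ) :
    (Pi.single i 1 : Π i, Matrix (Fin (d i)) (Fin (d i)) ℂ) * X = X * Pi.single i 1 := by
  funext j
  rcases eq_or_ne j i with rfl | h
  · simp
  · simp [Pi.single_eq_of_ne h]

theorem single_idem (i : Fin n) :
    (Pi.single i 1 : Π i, Matrix (Fin (d i)) (Fin (d i)) ℂ) * Pi.single i 1 = Pi.single i 1 := by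
  funext j
  rcases eq_or_ne j i with rfl | h
  · simp
  · simp [Pi.single_eq_of_ne h]

theorem single_ne (hd : ∀ i, NeZero (d i)) (i : Fin n) :
    (Pi.single i 1 : Π i, Matrix (Fin (d i)) (Fin (d i)) ℂ) ≠ 0 := by
  intro h
  haveI := hd i
  have := congrFun h i
  rw [Pi.single_eq_same] at this
  exact one_ne_zero this

theorem single_inj (hd : ∀ i, NeZero (d i)) (i j : Fin n)
    (h : (Pi.single i 1 : Π i, Matrix (Fin (d i)) (Fin (d i)) ℂ) = Pi.single j 1) : i = j := by
  by_contra hij
  haveI := hd i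
  have := congrFun h i
  rw [Pi.single_eq_same, Pi.single_eq_of_ne hij] at this
  exact one_ne_zero this

theorem aut_single (hd : ∀ i, NeZero (d i))
    (φ : (Π i, Matrix (Fin (d i)) (Fin (d i)) ℂ) ≃* (Π i, Matrix (Fin (d i)) (Fin (d i)) ℂ))
    (h0 : φ 0 = 0) (i : Fin n) : ∃ j, φ (Pi.single i 1) = Pi.single j 1 := by
  classical
  have key : ∀ (ψ : (Π i, Matrix (Fin (d i)) (Fin (d i)) ℂ) ≃*
      (Π i, Matrix (Fin (d i)) (Fin (d i)) ℂ)) (i j : Fin n),
      ψ (Pi.single i 1) j = 0 ∨ ψ (Pi.single i 1) j = 1 := by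
    intro ψ i j
    refine central_idem hd _ ?_ ?_ j
    · intro X
      obtain ⟨Y, rfl⟩ := ψ.surjective X
      rw [← map_mul, ← map_mul, single_central]
    · rw [← map_mul, single_idem]
  have hne : φ (Pi.single i 1) ≠ 0 := by
    intro h
    exact single_ne hd i (φ.injective (h.trans h0.symm))
  obtain ⟨j, hj⟩ : ∃ j, φ (Pi.single i 1) j ≠ 0 := by
    by_contra hcon
    push Not at hcon
    exact hne (funext hcon)
  have hj1 := (key φ i j).resolve_left hj
  refine ⟨j, ?_⟩
  have h1 : (Pi.single j 1 : Π i, Matrix (Fin (d i)) (Fin (d i)) ℂ) * φ (Pi.single i 1)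
      = Pi.single j 1 := by
    funext k
    rcases eq_or_ne k j with rfl | h
    · simp [hj1]
    · simp [Pi.single_eq_of_ne h]
  have h2 : φ.symm (Pi.single j 1) * Pi.single i 1 = φ.symm (Pi.single j 1) := by
    apply φ.injective
    rw [map_mul, MulEquiv.apply_symm_apply, h1]
  have h3 : φ.symm (Pi.single j 1) = Pi.single i 1 := by
    have hk : ∀ k, k ≠ i → φ.symm (Pi.single j 1) k = 0 := by
      intro k hk
      rw [← h2]
      simp [Pi.single_eq_of_ne hk]
    have hi : φ.symm (Pi.single j 1) i = 1 := by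
      refine (key φ.symm j i).resolve_left fun hi0 => ?_
      have : φ.symm (Pi.single j 1) = 0 := by
        funext k
        rcases eq_or_ne k i with rfl | h
        · exact hi0
        · exact hk k h
      apply single_ne hd j
      rw [← φ.apply_symm_apply (Pi.single j 1), this, h0]
    funext k
    rcases eq_or_ne k i with rfl | h
    · simp [hi]
    · simp [hk k h, Pi.single_eq_of_ne h]
  rw [← h3, MulEquiv.apply_symm_apply]

end Perm

section Twist
variable {G : Type*} [Group G]

/-- twisting by a linear character -/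
noncomputable def tw (l : G →* ℂˣ) : MonoidAlgebra ℂ G →ₐ[ℂ] MonoidAlgebra ℂ G :=
  MonoidAlgebra.lift ℂ (MonoidAlgebra ℂ G) G
    { toFun := fun g => MonoidAlgebra.single g (l g : ℂ)
      map_one' := by simp [MonoidAlgebra.one_def]
      map_mul' := by intro a b; simp [MonoidAlgebra.single_mul_single] }

theorem tw_single (l : G →* ℂˣ) (g : G) (c : ℂ) :
    tw l (MonoidAlgebra.single g c) = MonoidAlgebra.single g (c * l g) := by
  simp [tw, MonoidAlgebra.lift_single]

theorem tw_coeff (l : G →* ℂˣ) (a : MonoidAlgebra ℂ G) (g : G) :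
    (tw l a).coeff g = a.coeff g * l g := by
  classical
  induction a using MonoidAlgebra.induction_linear with
  | zero => simp
  | add a b ha hb => simp [ha, hb, add_mul]
  | single x c =>
    rw [tw_single, MonoidAlgebra.coeff_single, MonoidAlgebra.coeff_single, Finsupp.single_apply,
      Finsupp.single_apply]
    split_ifs with h
    · rw [h]
    · simp

theorem tw_mul (l l' : G →* ℂˣ) (a : MonoidAlgebra ℂ G) : tw (l * l') a = tw l (tw l' a) := by
  ext g
  simp [tw_coeff, mul_assoc, mul_comm, mul_left_comm]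

theorem tw_one (a : MonoidAlgebra ℂ G) : tw (1 : G →* ℂˣ) a = a := by
  ext g
  simp [tw_coeff]

end Twist

theorem sum_dvd_of_classes {I : Type*} [Fintype I] (r : Setoid I) [DecidableRel r.r]
    (f : I → ℤ) (D : ℤ) (h : ∀ i, D ∣ ∑ j ∈ Finset.univ.filter (fun j => r j i), f j) :
    D ∣ ∑ j, f j := by
  classical
  rw [← Finset.sum_fiberwise (s := Finset.univ) (g := Quotient.mk r)]
  refine Finset.dvd_sum fun q _ => ?_
  obtain ⟨i, rfl⟩ := Quotient.exists_rep q
  have : Finset.univ.filter (fun j => Quotient.mk r j = Quotient.mk r i)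
      = Finset.univ.filter (fun j => r j i) := by
    ext j
    simp only [Finset.mem_filter, Finset.mem_univ, true_and]
    exact Quotient.eq
  rw [this]
  exact h i

theorem two_pow_half (m a : ℕ) (h : 2 ^ m ∣ a ^ 2) : 2 ^ ((m + 1) / 2) ∣ a := by
  rcases eq_or_ne a 0 with rfl | ha
  · simp
  obtain ⟨s, u, hu, rfl⟩ := Nat.exists_eq_two_pow_mul_odd ha
  have hc : Nat.Coprime (2 ^ m) (u ^ 2) :=
    Nat.Coprime.pow _ _ ((Nat.coprime_two_left).2 hu)
  rw [mul_pow, ← pow_mul] at h
  have h2 := (Nat.pow_dvd_pow_iff_le_right (by norm_num : 1 < 2)).1 (hc.dvd_of_dvd_mul_right h)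
  exact Dvd.dvd.mul_right (pow_dvd_pow 2 (by omega)) u


theorem main_dvd {G : Type*} [Group G] [Fintype G] [DecidableEq G] (L : Subgroup (G →* ℂˣ))
    (hL : ∀ l ∈ L, ∀ x : G, l (x ^ 2) = 1) (m : ℕ) (hm : Nat.card L = 2 ^ m) :
    2 ^ ((m + 1) / 2) ∣ (Finset.univ.filter (fun x : G => x ^ 2 = 1)).card := by
  classical
  haveI : NeZero (Nat.card G : ℂ) := ⟨by exact_mod_cast Nat.card_pos.ne'⟩
  obtain ⟨n, d, hd, ⟨e⟩⟩ :=
    IsSemisimpleRing.exists_algEquiv_pi_matrix_of_isAlgClosed ℂ (MonoidAlgebra ℂ G)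
  have hc : (Fintype.card G : ℂ) ≠ 0 := by exact_mod_cast Fintype.card_ne_zero
  have F1 : ∀ a : MonoidAlgebra ℂ G,
      (Fintype.card G : ℂ) * a.coeff 1 = ∑ i, (d i : ℂ) * (e a i).trace := by
    intro a
    rw [← T1, ← T2, ← LinearMap.trace_conj' (LinearMap.mulLeft ℂ a) e.toLinearEquiv]
    congr 1
    refine LinearMap.ext fun X => ?_
    simp [LinearEquiv.conj_apply]
  let ε : Fin n → MonoidAlgebra ℂ G := fun i => e.symm (Pi.single i 1)
  let ρ : ∀ i, G →* Matrix (Fin (d i)) (Fin (d i)) ℂ := fun i =>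
    { toFun := fun g => e (MonoidAlgebra.single g 1) i
      map_one' := by rw [← MonoidAlgebra.one_def, map_one]; rfl
      map_mul' := by
        intro a b
        rw [← Pi.mul_apply, ← map_mul, MonoidAlgebra.single_mul_single, mul_one] }
  have F2 : ∀ i g, (Fintype.card G : ℂ) * (ε i).coeff g⁻¹ = d i * (ρ i g).trace := by
    intro i g
    have := F1 (ε i * MonoidAlgebra.single g 1)
    rw [MonoidAlgebra.coeff_mul_single_apply, one_mul, mul_one, map_mul,
      Finset.sum_eq_single i] at this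
    · rw [this]
      simp [ε, ρ]
    · intro j _ hj
      simp [ε, Pi.single_eq_of_ne hj]
    · simp
  have F3 : ∀ i, (Fintype.card G : ℂ) * (ε i).coeff 1 = (d i : ℂ) ^ 2 := by
    intro i
    have := F2 i 1
    rw [inv_one, map_one (ρ i)] at this
    rw [this, pow_two]
    simp
  let τ : MonoidAlgebra ℂ G → ℂ := fun a => ∑ x : G, a.coeff (x ^ 2)
  choose ν hν using fun i => fs_int (ρ i)
  have F4 : ∀ i, τ (ε i) = d i * ν i := by
    intro i
    apply mul_left_cancel₀ hc
    have h1 : τ (ε i) = ∑ x : G, (ε i).coeff (x ^ 2)⁻¹ :=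
      (Fintype.sum_equiv (Equiv.inv G) _ _ (fun x => by simp)).symm
    rw [h1, Finset.mul_sum]
    simp only [F2]
    rw [← Finset.mul_sum, hν]
    ring
  have F5 : (((Finset.univ.filter (fun x : G => x ^ 2 = 1)).card : ℤ) : ℂ)
      = ((∑ i, (d i : ℤ) * ν i : ℤ) : ℂ) := by
    push_cast
    simp only [← F4, τ]
    rw [Finset.sum_comm]
    have h1 : ∑ i, ε i = 1 := by
      simp only [ε]
      rw [← map_sum, ← map_one e.symm]
      congr 1
      exact Finset.univ_sum_single _
    have h2 : ∀ g : G, ∑ i, (ε i).coeff g = if g = 1 then 1 else 0 := by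
      intro g
      rw [← Finsupp.finsetSum_apply, ← MonoidAlgebra.coeff_sum, h1, MonoidAlgebra.one_def,
        MonoidAlgebra.coeff_single, Finsupp.single_apply]
      simp only [eq_comm]
    simp only [h2]
    simp
  have F6 : (((Finset.univ.filter (fun x : G => x ^ 2 = 1)).card : ℤ)) = ∑ i, (d i : ℤ) * ν i := by
    exact_mod_cast F5
  have τinv : ∀ l ∈ L, ∀ a, τ (tw l a) = τ a := by
    intro l hl a
    simp only [τ, tw_coeff, hL l hl]
    simp
  letI : MulAction L (MonoidAlgebra ℂ G) :=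
    { smul := fun l a => tw l.1 a
      one_smul := fun a => tw_one a
      mul_smul := fun l l' a => tw_mul l.1 l'.1 a }
  have hsm : ∀ (l : L) (a : MonoidAlgebra ℂ G), l • a = tw l.1 a := fun _ _ => rfl
  have F7 : ∀ (l : L) i, ∃ j, l • ε i = ε j := by
    intro l i
    let φ : MonoidAlgebra ℂ G ≃* MonoidAlgebra ℂ G :=
      { toFun := fun a => l • a
        invFun := fun a => l⁻¹ • a
        left_inv := fun a => inv_smul_smul l a
        right_inv := fun a => smul_inv_smul l a
        map_mul' := fun a b => by simp only [hsm, map_mul] }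
    obtain ⟨j, hj⟩ := aut_single hd ((e.symm.toMulEquiv.trans φ).trans e.toMulEquiv)
      (by simp [φ, hsm]) i
    refine ⟨j, ?_⟩
    apply e.injective
    simp only [ε, AlgEquiv.apply_symm_apply]
    exact hj
  have εinj : Function.Injective ε := fun i j h => single_inj hd i j (e.symm.injective h)
  haveI : Finite L := Nat.finite_of_card_ne_zero (by rw [hm]; positivity)
  have F8 : ∀ i, Nat.card (MulAction.stabilizer L (ε i)) ∣ d i ^ 2 := by
    intro i
    set S := MulAction.stabilizer L (ε i)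
    letI : Fintype S := Fintype.ofFinite _
    have hs : (Fintype.card S : ℂ) ≠ 0 := by exact_mod_cast Fintype.card_ne_zero
    let t : S → (MonoidAlgebra ℂ G →ₗ[ℂ] MonoidAlgebra ℂ G) := fun s =>
      LinearMap.mulLeft ℂ (ε i) * (tw s.1.1).toLinearMap
    have ht : ∀ s a, t s a = ε i * tw s.1.1 a := fun _ _ => rfl
    have hεε : ε i * ε i = ε i := by
      simp only [ε]
      rw [← map_mul, single_idem]
    have htt : ∀ s s', t s * t s' = t (s * s') := by
      intro s s'
      refine LinearMap.ext fun a => ?_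
      have h1 : tw s.1.1 (ε i) = ε i := s.2
      rw [Module.End.mul_apply, ht, ht, ht, map_mul, h1, ← mul_assoc, hεε, ← tw_mul]
      rfl
    obtain ⟨k, hk⟩ := trace_idem ((Fintype.card S : ℂ)⁻¹ • ∑ s, t s) (by
      simp only [smul_mul_assoc, mul_smul_comm, Finset.sum_mul_sum, htt]
      have : ∀ x : S, ∑ y, t (x * y) = ∑ y, t y := fun x =>
        Fintype.sum_equiv (Equiv.mulLeft x) _ _ (fun _ => rfl)
      simp only [this, Finset.sum_const, Finset.card_univ]
      rw [← Nat.cast_smul_eq_nsmul ℂ, smul_smul _ (Fintype.card S : ℂ), inv_mul_cancel₀ hs,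
        one_smul])
    have htr : ∀ s, LinearMap.trace ℂ _ (t s) = if s = 1 then (d i : ℂ) ^ 2 else 0 := by
      intro s
      rw [traceA]
      simp only [ht, tw_single, MonoidAlgebra.coeff_mul_single_apply, mul_inv_cancel, one_mul]
      rw [← Finset.mul_sum]
      split_ifs with h
      · rw [h, ← F3]
        simp [mul_comm]
      · have h1 : (Units.coeHom ℂ).comp s.1.1 ≠ 1 := by
          intro h2
          apply h
          ext g
          exact DFunLike.congr_fun h2 g
        have := sum_hom_units_eq_zero _ h1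
        simp only [MonoidHom.comp_apply, Units.coeHom_apply] at this
        rw [this, mul_zero]
    rw [map_smul, map_sum] at hk
    simp only [htr, Finset.sum_ite_eq', Finset.mem_univ, if_true, smul_eq_mul] at hk
    refine ⟨k, ?_⟩
    have : ((d i ^ 2 : ℕ) : ℂ) = ((Fintype.card S * k : ℕ) : ℂ) := by
      push_cast
      rw [← hk, ← mul_assoc, mul_inv_cancel₀ hs, one_mul]
    rw [Nat.card_eq_fintype_card]
    exact_mod_cast this
  let r : Setoid (Fin n) := (MulAction.orbitRel L (MonoidAlgebra ℂ G)).comap ε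
  have hr : ∀ i j, r j i ↔ ε j ∈ MulAction.orbit L (ε i) := fun i j => Iff.rfl
  have F9 : ((2 ^ ((m + 1) / 2) : ℕ) : ℤ) ∣ ∑ i, (d i : ℤ) * ν i := by
    refine sum_dvd_of_classes r _ _ fun i => ?_
    have h1 : ∀ j ∈ Finset.univ.filter (fun j => r j i), (d j : ℤ) * ν j = d i * ν i := by
      intro j hj
      obtain ⟨l, hl⟩ := (hr i j).1 (Finset.mem_filter.1 hj).2
      have h2 := τinv l.1 l.2 (ε i)
      have hl' : tw l.1 (ε i) = ε j := hl
      rw [hl', F4, F4] at h2
      exact_mod_cast h2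
    rw [Finset.sum_congr rfl h1, Finset.sum_const, nsmul_eq_mul, ← mul_assoc]
    refine Dvd.dvd.mul_right ?_ _
    have h2 : (Finset.univ.filter (fun j => r j i)).card = Nat.card (MulAction.orbit L (ε i)) := by
      rw [← Nat.card_eq_finsetCard]
      refine Nat.card_congr (Equiv.ofBijective
        (fun j => ⟨ε j.1, (hr i j.1).1 (Finset.mem_filter.1 j.2).2⟩) ⟨?_, ?_⟩)
      · intro a b hab
        exact Subtype.ext (εinj (congrArg Subtype.val hab))
      · rintro ⟨a, l, rfl⟩
        obtain ⟨j, hj⟩ := F7 l i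
        refine ⟨⟨j, Finset.mem_filter.2 ⟨Finset.mem_univ _, (hr i j).2 ⟨l, hj⟩⟩⟩, ?_⟩
        exact Subtype.ext hj.symm
    rw [h2]
    have h3 : Nat.card (MulAction.orbit L (ε i)) * Nat.card (MulAction.stabilizer L (ε i))
        = 2 ^ m := by
      rw [← hm, ← Nat.card_prod]
      exact Nat.card_congr (MulAction.orbitProdStabilizerEquivGroup L (ε i))
    have h4 : 2 ^ ((m + 1) / 2) ∣ Nat.card (MulAction.orbit L (ε i)) * d i := by
      apply two_pow_half
      rw [← h3, mul_pow]
      exact mul_dvd_mul (dvd_pow_self _ two_ne_zero) (F8 i)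
    exact_mod_cast h4
  rw [← F6] at F9
  exact_mod_cast F9


theorem card_sq_le {Z : Type*} [CommGroup Z] [Finite Z] :
    Nat.card {z : Z // z ^ 2 = 1} ∣ 2 ^ Group.rank Z := by
  let f : Z →* Z := powMonoidHom 2
  have h1 : Nat.card {z : Z // z ^ 2 = 1} = Nat.card f.ker := rfl
  have h2 : Nat.card f.ker = Nat.card (Z ⧸ f.range) := by
    have a1 := Subgroup.card_mul_index f.ker
    have a2 := Subgroup.card_mul_index f.range
    rw [Subgroup.index_ker] at a1
    have a3 : Nat.card f.range ≠ 0 := Nat.card_pos.ne'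
    apply mul_right_cancel₀ a3
    rw [a1, ← a2, mul_comm]
    rfl
  rw [h1, h2]
  have h3 : Nat.card (Z ⧸ f.range) ∣ 2 ^ Group.rank (Z ⧸ f.range) := by
    apply card_dvd_exponent_pow_rank'
    intro q
    obtain ⟨z, rfl⟩ := QuotientGroup.mk_surjective q
    rw [← QuotientGroup.mk_pow, QuotientGroup.eq_one_iff]
    exact ⟨z, rfl⟩
  exact h3.trans (pow_dvd_pow 2
    (Group.rank_le_of_surjective (QuotientGroup.mk' f.range) (QuotientGroup.mk'_surjective _)))

end Pool.Agent.H67.SqIndex
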