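import Pool.Agent.H67.SqIndex

namespace Pool.Agent.H67.SqIndex

theorem exists_L {G : Type*} [Group G] [Finite G] (K : Subgroup G) [K.Normal]
    (hsq : ∀ g : G, g ^ 2 ∈ K) : ∃ L : Subgroup (G →* ℂˣ), Nat.card L = K.index ∧
      ∀ l ∈ L, ∀ x ∈ K, l x = 1 := by
  have hcomm : ∀ a b : G ⧸ K, a * b = b * a := by
    intro a b
    have h2 : ∀ q : G ⧸ K, q * q = 1 := by
      intro q
      obtain ⟨z, rfl⟩ := QuotientGroup.mk_surjective q
      rw [← QuotientGroup.mk_mul, QuotientGroup.eq_one_iff, ← pow_two]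
      exact hsq z
    have h3 : ∀ q : G ⧸ K, q⁻¹ = q := fun q => inv_eq_of_mul_eq_one_right (h2 q)
    rw [← h3 (a * b), mul_inv_rev, h3, h3]
  have hc : Nat.card ((G ⧸ K) →* ℂˣ) = Nat.card (G ⧸ K) := by
    letI : CommGroup (G ⧸ K) := { (inferInstance : Group (G ⧸ K)) with mul_comm := hcomm }
    haveI : NeZero ((Monoid.exponent (G ⧸ K) : ℕ) : ℂ) :=
      ⟨by exact_mod_cast Monoid.exponent_ne_zero_of_finite⟩
    exact CommGroup.card_monoidHom_of_hasEnoughRootsOfUnity (G ⧸ K) ℂ
  let c : ((G ⧸ K) →* ℂˣ) →* (G →* ℂˣ) :=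
    { toFun := fun l => l.comp (QuotientGroup.mk' K)
      map_one' := rfl
      map_mul' := fun _ _ => rfl }
  have hci : Function.Injective c := by
    intro a b h
    ext g
    exact congrArg Units.val (DFunLike.congr_fun h g)
  refine ⟨c.range, ?_, ?_⟩
  · rw [Subgroup.index, ← hc]
    exact (Nat.card_congr (MonoidHom.ofInjective hci).toEquiv).symm
  · rintro _ ⟨l, rfl⟩ x hx
    show l (QuotientGroup.mk' K x) = 1
    rw [QuotientGroup.mk'_apply, (QuotientGroup.eq_one_iff _).2 hx, map_one]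

theorem final (G : Type) [Group G] [Finite G] (hG : IsPGroup 2 G)
    (hZ : ∀ g : G, g ^ 2 = 1 → g ∈ Subgroup.center G) :
    (Subgroup.closure {x : G | ∃ g : G, g ^ 2 = x}).index
        ≤ 2 ^ (2 * Group.rank (Subgroup.center G)) := by
  classical
  letI : Fintype G := Fintype.ofFinite G
  set K := Subgroup.closure {x : G | ∃ g : G, g ^ 2 = x} with hK
  have hsq : ∀ g : G, g ^ 2 ∈ K := fun g => Subgroup.subset_closure ⟨g, rfl⟩
  haveI hN : K.Normal := by
    constructor
    intro x hx g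
    have : g * x * g⁻¹ = g ^ 2 * (g⁻¹ * x) ^ 2 * (x⁻¹) ^ 2 * x := by
      simp only [pow_two]; group
    rw [this]
    exact K.mul_mem (K.mul_mem (K.mul_mem (hsq _) (hsq _)) (hsq _)) hx
  obtain ⟨m, hm⟩ := hG.index K
  obtain ⟨L, hL, hL2⟩ := exists_L K hsq
  have h1 := main_dvd L (fun l hl x => hL2 l hl _ (hsq x)) m (hL.trans hm)
  have h2 : (Finset.univ.filter (fun x : G => x ^ 2 = 1)).card
      = Nat.card {z : Subgroup.center G // z ^ 2 = 1} := by
    rw [← Nat.card_eq_finsetCard]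
    refine Nat.card_congr
      { toFun := fun x => ⟨⟨x.1, hZ _ (Finset.mem_filter.1 x.2).2⟩,
          Subtype.ext (Finset.mem_filter.1 x.2).2⟩
        invFun := fun z => ⟨z.1.1, Finset.mem_filter.2 ⟨Finset.mem_univ _,
          congrArg Subtype.val z.2⟩⟩
        left_inv := fun _ => rfl
        right_inv := fun _ => rfl }
  rw [h2] at h1
  have h4 : Nat.card {z : Subgroup.center G // z ^ 2 = 1} ∣ 2 ^ Group.rank (Subgroup.center G) := by
    letI : CommGroup (Subgroup.center G) :=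
      { (inferInstance : Group (Subgroup.center G)) with
        mul_comm := fun a b => Subtype.ext (Subgroup.mem_center_iff.1 b.2 a) }
    exact card_sq_le (Z := Subgroup.center G)
  have h3 := (Nat.pow_dvd_pow_iff_le_right (by norm_num : 1 < 2)).1 (h1.trans h4)
  rw [hm]
  exact Nat.pow_le_pow_right (by norm_num) (by omega)

end Pool.Agent.H67.SqIndex
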