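import Mathlib

set_option autoImplicit false

namespace Pool.Agent.H67.SubsetStab

open Finset

/-- parity of a self-map of `Fin 3` (number of inversions mod 2) -/
def sg (f : Fin 3 → Fin 3) : ZMod 2 :=
  (if f 1 < f 0 then 1 else 0) + (if f 2 < f 0 then 1 else 0) + (if f 2 < f 1 then 1 else 0)

theorem sg_comp : ∀ f g : Fin 3 → Fin 3, Function.Injective f → Function.Injective g →
    sg (fun i => f (g i)) = sg f + sg g := by decide +kernel

theorem exists_odd : ∀ D : Fin 3 → Bool, ∃ t : Equiv.Perm (Fin 3),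
    sg t = 1 ∧ ∀ i, D (t i) = D i := by decide +kernel

theorem exists_even : ∀ i j : Fin 3, ∃ t : Equiv.Perm (Fin 3), sg t = 0 ∧ t i = j := by
  decide +kernel

variable (d : ℕ)

abbrev K := Fin d → ZMod 2
abbrev Om := K d × Fin 3

variable {d}

def e (π : Equiv.Perm (Om d)) (x : K d) : ZMod 2 := sg (fun i => (π (x, i)).2)

def Sh (π : Equiv.Perm (Om d)) (k : K d) : Prop := ∀ x i, (π (x, i)).1 = x + k

theorem Sh.inj {π : Equiv.Perm (Om d)} {k : K d} (h : Sh π k) (x : K d) :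
    Function.Injective (fun i => (π (x, i)).2) := by
  intro i j hij
  have : π (x, i) = π (x, j) := Prod.ext (by rw [h, h]) hij
  simpa using π.injective this

theorem e_mul {π ρ : Equiv.Perm (Om d)} {k l : K d} (h : Sh π k) (h' : Sh ρ l) (x : K d) :
    e (π * ρ) x = e π (x + l) + e ρ x := by
  unfold e
  rw [← sg_comp _ _ (h.inj _) (h'.inj _)]
  congr 1
  funext i
  rw [Equiv.Perm.mul_apply]
  congr 2
  exact Prod.ext (h' x i) rfl

theorem Sh.mul {π ρ : Equiv.Perm (Om d)} {k l : K d} (h : Sh π k) (h' : Sh ρ l) :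
    Sh (π * ρ) (k + l) := by
  intro x i
  rw [Equiv.Perm.mul_apply]
  have : ρ (x, i) = (x + l, (ρ (x, i)).2) := Prod.ext (h' x i) rfl
  rw [this, h]; abel

theorem Sh.inv {π : Equiv.Perm (Om d)} {k : K d} (h : Sh π k) : Sh π⁻¹ (-k) := by
  intro x i
  have := h (π⁻¹ (x, i)).1 (π⁻¹ (x, i)).2
  simp only [Prod.mk.eta, Equiv.Perm.coe_inv, Equiv.apply_symm_apply] at this
  rw [eq_add_neg_iff_add_eq]
  exact this.symm

theorem e_one (x : K d) : e (1 : Equiv.Perm (Om d)) x = 0 := by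
  unfold e sg; simp

theorem sum_shift {A : Type*} [AddCommMonoid A] (f : K d → A) (l : K d) :
    ∑ x, f (x + l) = ∑ x, f x :=
  Equiv.sum_comp (Equiv.addRight l) f

def GG (d : ℕ) : Subgroup (Equiv.Perm (Om d)) where
  carrier := {π | (∃ k, Sh π k) ∧ ∑ x, e π x = 0}
  one_mem' := ⟨⟨0, fun x i => by simp⟩, by simp [e_one]⟩
  mul_mem' := by
    rintro π ρ ⟨⟨k, hk⟩, h1⟩ ⟨⟨l, hl⟩, h2⟩
    refine ⟨⟨_, hk.mul hl⟩, ?_⟩
    simp only [e_mul hk hl, sum_add_distrib, sum_shift (e π) l, h1, h2, add_zero]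
  inv_mem' := by
    rintro π ⟨⟨k, hk⟩, h1⟩
    refine ⟨⟨_, hk.inv⟩, ?_⟩
    have h2 : ∑ x, e (π⁻¹ * π) x = 0 := by simp [e_one]
    simp only [e_mul hk.inv hk, sum_add_distrib, sum_shift (e π⁻¹) k, h1, add_zero] at h2
    exact h2

def phi (d : ℕ) : GG d →* Multiplicative (K d) :=
  MonoidHom.mk' (fun π => Multiplicative.ofAdd (∑ x, e π.1 x • x)) (by
    rintro ⟨π, ⟨k, hk⟩, h1⟩ ⟨ρ, ⟨l, hl⟩, h2⟩
    rw [← ofAdd_add]
    congr 1
    show ∑ x, e (π * ρ) x • x = ∑ x, e π x • x + ∑ x, e ρ x • x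
    simp only [e_mul hk hl, add_smul, sum_add_distrib]
    congr 1
    rw [← sum_shift (fun x => e π x • x) l]
    simp only [smul_add, sum_add_distrib, ← sum_smul, sum_shift (e π) l, h1, zero_smul, add_zero])

/-- the permutation with shift `k` and local components `s` -/
def mkP (k : K d) (s : K d → Equiv.Perm (Fin 3)) : Equiv.Perm (Om d) where
  toFun p := (p.1 + k, s p.1 p.2)
  invFun p := (p.1 - k, (s (p.1 - k)).symm p.2)
  left_inv p := by simp
  right_inv p := by simp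

theorem e_mkP (k : K d) (s : K d → Equiv.Perm (Fin 3)) (x : K d) : e (mkP k s) x = sg (s x) := rfl

theorem sg_one : sg (1 : Equiv.Perm (Fin 3)) = 0 := by decide

theorem transitive (a b : Om d) : ∃ g ∈ GG d, g a = b := by
  obtain ⟨t, ht, hab⟩ := exists_even a.2 b.2
  refine ⟨mkP (b.1 - a.1) (fun _ => t), ⟨⟨_, fun _ _ => rfl⟩, by simp [e_mkP, ht]⟩, ?_⟩
  apply Prod.ext
  · show a.1 + (b.1 - a.1) = b.1
    abel
  · exact hab

theorem onto (D : Set (Om d)) (a : K d) :
    ∃ g : GG d, (∀ w, g.1 w ∈ D ↔ w ∈ D) ∧ phi d g = Multiplicative.ofAdd a := by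
  classical
  by_cases ha : a = 0
  · exact ⟨1, fun w => Iff.rfl, by rw [map_one, ha]; rfl⟩
  choose t ht hD using fun x : K d => exists_odd (fun i => decide ((x, i) ∈ D))
  have hE : ∀ x, e (mkP 0 (fun x => if x = 0 ∨ x = a then t x else 1)) x
      = (if x = 0 then 1 else 0) + (if x = a then 1 else 0) := by
    intro x
    rw [e_mkP]
    by_cases h0 : x = 0
    · have : x ≠ a := fun h => ha (h ▸ h0)
      simp [h0, ht, Ne.symm ha]
    · by_cases h1 : x = a
      · simp [h1, ha, ht]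
      · simp only [h0, h1, or_self, if_false, add_zero]; exact sg_one
  refine ⟨⟨mkP 0 (fun x => if x = 0 ∨ x = a then t x else 1), ⟨0, fun _ _ => rfl⟩, ?_⟩, ?_, ?_⟩
  · simp only [hE, sum_add_distrib, sum_ite_eq', mem_univ, if_true]
    decide
  · rintro ⟨x, i⟩
    show (x + 0, (if x = 0 ∨ x = a then t x else 1) i) ∈ D ↔ _
    rw [add_zero]
    split_ifs
    · simpa using hD x i
    · rfl
  · show Multiplicative.ofAdd _ = _
    congr 1
    simp only [hE, add_smul, sum_add_distrib, ite_smul, one_smul, zero_smul, sum_ite_eq', mem_univ,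
      if_true, zero_add]

end Pool.Agent.H67.SubsetStab
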