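import Mathlib

set_option autoImplicit false

namespace H67.Super

open Finset

theorem cop {p i : ℕ} (hp : p.Prime) (h0 : 0 < i) (hi : i < p) : Nat.Coprime p i :=
  (Nat.Prime.coprime_iff_not_dvd hp).2 (Nat.not_dvd_of_pos_of_lt h0 hi)

theorem unit_of {p i : ℕ} (n : ℕ) (hp : p.Prime) (h0 : 0 < i) (hi : i < p) :
    IsUnit (i : ZMod (p ^ n)) :=
  (ZMod.isUnit_iff_coprime _ _).2 (Nat.Coprime.pow_right n (Nat.coprime_comm.1 (cop hp h0 hi)))

theorem eps_pow (p n : ℕ) : (p : ZMod (p ^ n)) ^ n = 0 := by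
  rw [← Nat.cast_pow, ZMod.natCast_self]

theorem AB {p : ℕ} (hp : p.Prime) (i : ℕ) (hi : i < p) :
    (((p - 1).choose i : ℕ) : ZMod (p ^ 2)) * ((p + i).choose i : ℕ) = (-1) ^ i := by
  induction i with
  | zero => simp
  | succ i ih =>
    have ih := ih (by omega)
    have hu := unit_of 2 hp (Nat.succ_pos i) hi
    have h1 := congrArg (Nat.cast : ℕ → ZMod (p ^ 2)) (Nat.choose_succ_right_eq (p - 1) i)
    have h2 := congrArg (Nat.cast : ℕ → ZMod (p ^ 2)) (Nat.add_one_mul_choose_eq (p + i) i)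
    have h3 : ((p - 1 - i : ℕ) : ZMod (p ^ 2)) = p - 1 - i := by
      rw [Nat.cast_sub (by omega), Nat.cast_sub (by omega)]; simp
    push_cast at h1 h2 hu
    rw [h3] at h1
    apply (hu.mul hu).mul_left_cancel
    have e := eps_pow p 2
    rw [← add_assoc]
    linear_combination (((p + i + 1).choose (i + 1) : ℕ) * ((i : ZMod (p ^ 2)) + 1)) * h1
      - (((p - 1).choose i : ℕ) * ((p : ZMod (p ^ 2)) - 1 - i)) * h2
      + (((p : ZMod (p ^ 2)) - 1 - i) * (p + i + 1)) * ih + (-1) ^ i * e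

theorem eps_mul {p : ℕ} {a : ℤ} (h : (p : ℤ) ∣ a) : (p : ZMod (p ^ 2)) * (a : ZMod (p ^ 2)) = 0 := by
  obtain ⟨b, rfl⟩ := h
  push_cast
  rw [← mul_assoc, ← sq, eps_pow, zero_mul]

theorem fermat {p j : ℕ} (hp : p.Prime) (h0 : 0 < j) (hj : j < p) :
    (p : ℤ) ∣ (j : ℤ) ^ (p - 1) - 1 := by
  haveI := Fact.mk hp
  rw [← ZMod.intCast_zmod_eq_zero_iff_dvd]
  push_cast
  rw [ZMod.pow_card_sub_one_eq_one, sub_self]
  rw [Ne, ZMod.natCast_eq_zero_iff]
  exact Nat.not_dvd_of_pos_of_lt h0 hj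

theorem sum_zmod {p : ℕ} [NeZero p] {M : Type*} [AddCommMonoid M] (f : ZMod p → M) :
    ∑ x : ZMod p, f x = ∑ j ∈ range p, f (j : ZMod p) := by
  symm
  apply sum_bij (fun (j : ℕ) _ => ((j : ℕ) : ZMod p))
  · intros; exact mem_univ _
  · intro a ha b hb hab
    rw [mem_range] at ha hb
    have := (ZMod.natCast_eq_natCast_iff' a b p).1 hab
    rwa [Nat.mod_eq_of_lt ha, Nat.mod_eq_of_lt hb] at this
  · intro x _
    exact ⟨x.val, mem_range.2 (ZMod.val_lt x), ZMod.natCast_zmod_val x⟩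
  · intros; rfl

theorem powsum {p e : ℕ} (hp : p.Prime) (h0 : 0 < e) (he : e < p - 1) :
    (p : ℤ) ∣ ∑ j ∈ Ico 1 p, (j : ℤ) ^ e := by
  haveI := Fact.mk hp
  rw [← ZMod.intCast_zmod_eq_zero_iff_dvd]
  push_cast
  have h1 := FiniteField.sum_pow_lt_card_sub_one (K := ZMod p) e (by rw [ZMod.card]; omega)
  rw [sum_zmod, range_eq_Ico, sum_eq_sum_Ico_succ_bot hp.pos] at h1
  simpa [h0.ne'] using h1

theorem add_eps_pow {R : Type*} [CommRing R] (x q : R) (hq : q ^ 2 = 0) (n : ℕ) :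
    (x + q) ^ (n + 1) = x ^ (n + 1) + (n + 1) * q * x ^ n := by
  induction n with
  | zero => simp
  | succ n ih =>
    rw [pow_succ, ih]
    push_cast
    linear_combination ((n : R) + 1) * x ^ n * hq

theorem sum_reflect {M : Type*} [AddCommMonoid M] (p : ℕ) (f : ℕ → M) :
    ∑ j ∈ Ico 1 p, f j = ∑ j ∈ Ico 1 p, f (p - j) := by
  rw [sum_Ico_reflect f 1 (show p ≤ p + 1 by omega)]
  simp

/-- numerator divisibility from a cleared-denominator identity -/
theorem dvd_num {p : ℕ} {n : ℕ} {x : ℚ} {D N : ℤ} (hD : IsCoprime (p : ℤ) D)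
    (h : x * D = N) (hN : (p : ℤ) ^ n ∣ N) : (p : ℤ) ^ n ∣ x.num := by
  have h1 : x.num * D = N * x.den := by
    have : (x.num : ℚ) * D = N * x.den := by
      rw [← h, mul_right_comm, Rat.mul_den_eq_num]
    exact_mod_cast this
  have h2 : (p : ℤ) ^ n ∣ x.num * D := by rw [h1]; exact hN.mul_right _
  exact (IsCoprime.pow_left hD).dvd_of_dvd_mul_right h2

end H67.Super
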