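import Pool.Agent.H67.SLn

namespace Pool.Agent.H67.TI4

open Matrix

instance : Fact (Nat.Prime 5) := ⟨by norm_num⟩

abbrev F := ZMod 5
abbrev G := GL (Fin 4) F

def dg (x : F) : Matrix (Fin 4) (Fin 4) F := Matrix.diagonal fun i => if i = 3 then x else 1

theorem dg_mul (x y : F) : dg x * dg y = dg (x * y) := by
  simp only [dg, Matrix.diagonal_mul_diagonal]
  congr 1
  funext i
  split_ifs <;> simp

theorem dg_one : dg 1 = 1 := by simp [dg]

theorem dg_det (x : F) : (dg x).det = x := by simp [dg, Fin.prod_univ_four]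

def a : G := ⟨dg 2, dg 3, by rw [dg_mul]; exact dg_one, by rw [dg_mul]; exact dg_one⟩

theorem a_pow (n : ℕ) : (a ^ n).val = dg (2 ^ n) := by
  induction n with
  | zero => simp [dg_one]
  | succ n ih => rw [pow_succ, Units.val_mul, ih, pow_succ, ← dg_mul]; rfl

theorem a_ord : orderOf a = 4 := by
  haveI : Fact (Nat.Prime 2) := ⟨Nat.prime_two⟩
  refine (orderOf_eq_prime_pow (p := 2) (n := 1) ?_ ?_).trans (by norm_num)
  · intro h
    have h1 := congrArg (fun u : G => u.val.det) h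
    simp only [a_pow, dg_det, Units.val_one, Matrix.det_one] at h1
    revert h1
    decide
  · apply Units.ext
    rw [a_pow]
    exact dg_one

def A : Subgroup G := Subgroup.zpowers a

theorem mem_A (x : G) (hx : x ∈ A) : ∃ t, x.val = dg t := by
  obtain ⟨n, rfl⟩ := (mem_powers_iff_mem_zpowers.2 hx)
  exact ⟨_, a_pow n⟩

theorem TI (g : G) : (∀ x ∈ A, g * x * g⁻¹ ∈ A → x = 1) ∨ (∀ x ∈ A, g * x * g⁻¹ ∈ A) := by
  by_cases h : ∀ x ∈ A, g * x * g⁻¹ ∈ A → x = 1
  · exact Or.inl h
  right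
  push Not at h
  obtain ⟨x, hx, hgx, hx1⟩ := h
  obtain ⟨t, ht⟩ := mem_A x hx
  obtain ⟨s, hs⟩ := mem_A _ hgx
  have hts : s = t := by
    rw [← dg_det s, ← dg_det t, ← hs, ← ht, Units.val_mul, Units.val_mul, Matrix.det_units_conj]
  have ht1 : t ≠ 1 := by
    rintro rfl
    exact hx1 (Units.ext (ht.trans dg_one))
  have h1 : g.val * dg t = dg t * g.val := by
    have : g * x = (g * x * g⁻¹) * g := by group
    have h2 := congrArg Units.val this
    rwa [Units.val_mul, Units.val_mul (g * x * g⁻¹), hs, hts, ht] at h2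
  have h2 : ∀ u, g.val * dg u = dg u * g.val := by
    intro u
    ext i j
    have h3 := congrFun (congrFun h1 i) j
    simp only [dg, Matrix.mul_diagonal, Matrix.diagonal_mul] at h3 ⊢
    by_cases hi : i = 3 <;> by_cases hj : j = 3
    · simp [hi, hj, mul_comm]
    · simp only [hi, hj, if_true, if_false, mul_one] at h3 ⊢
      have : g.val 3 j = 0 := by
        by_contra hne
        exact ht1 (mul_right_cancel₀ hne (h3.symm.trans (one_mul _).symm))
      simp [this]
    · simp only [hi, hj, if_true, if_false, one_mul] at h3 ⊢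
      have : g.val i 3 = 0 := by
        by_contra hne
        exact ht1 (mul_left_cancel₀ hne (h3.trans (mul_one _).symm))
      simp [this]
    · simp [hi, hj]
  intro y hy
  obtain ⟨u, hu⟩ := mem_A y hy
  have h3 : g * y = y * g := Units.ext (by rw [Units.val_mul, Units.val_mul, hu, h2])
  rw [h3, mul_inv_cancel_right]
  exact hy

abbrev ι : SpecialLinearGroup (Fin 4) F →* G := SpecialLinearGroup.toGL

def L : Subgroup G := ι.range

theorem mem_L (x : G) : x ∈ L ↔ x.val.det = 1 := by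
  constructor
  · rintro ⟨y, rfl⟩
    exact y.2
  · intro h
    exact ⟨⟨x.val, h⟩, Units.ext (SpecialLinearGroup.coe_GL_coe_matrix _)⟩

theorem L_perf : ⁅L, L⁆ = L := by
  have := map_commutator_eq (SpecialLinearGroup (Fin 4) F) ι
  rw [SLn.perfect (by simp), ← MonoidHom.range_eq_map] at this
  exact this.symm

theorem L_quasi (N : Subgroup G) (hN : N ≤ L) (h : ∀ l ∈ L, ∀ n ∈ N, l * n * l⁻¹ ∈ N) :
    N = L ∨ N ≤ Subgroup.centralizer (L : Set G) := by
  haveI : (N.comap ι).Normal := ⟨fun n hn g => by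
    rw [Subgroup.mem_comap, map_mul, map_mul, map_inv]
    exact h _ ⟨g, rfl⟩ _ hn⟩
  rcases SLn.quasi (by simp) (N.comap ι) with h1 | h1
  · left
    refine le_antisymm hN ?_
    rintro _ ⟨y, rfl⟩
    have : y ∈ N.comap ι := by rw [h1]; trivial
    exact this
  · right
    intro n hn
    obtain ⟨y, rfl⟩ := hN hn
    rintro _ ⟨z, rfl⟩
    rw [← map_mul, ← map_mul, Subgroup.mem_center_iff.1 (h1 hn) z]

theorem cent_scalar (x : G) (hx : x ∈ Subgroup.centralizer (L : Set G)) :
    ∃ r, Matrix.scalar (Fin 4) r = x.val := by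
  refine Matrix.mem_range_scalar_of_commute_transvectionStruct fun t => ?_
  exact congrArg Units.val (hx (ι ⟨t.toMatrix, by simp⟩) ⟨_, rfl⟩)

theorem cent_le : Subgroup.centralizer (L : Set G) ≤ L := by
  intro x hx
  obtain ⟨r, hr⟩ := cent_scalar x hx
  have h1 : x.val.det ≠ 0 := (Matrix.isUnit_iff_isUnit_det _).1 x.isUnit |>.ne_zero
  rw [mem_L]
  rw [← hr, Matrix.scalar_apply, Matrix.det_diagonal] at h1 ⊢
  simp only [Finset.prod_const, Finset.card_univ, Fintype.card_fin] at h1 ⊢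
  have : ∀ r : F, r ^ 4 ≠ 0 → r ^ 4 = 1 := by decide
  exact this r h1

theorem inter : A ⊓ (L ⊔ Subgroup.centralizer (L : Set G)) = ⊥ := by
  rw [sup_eq_left.2 cent_le, eq_bot_iff]
  rintro x ⟨hx, hL⟩
  obtain ⟨t, ht⟩ := mem_A x hx
  have := (mem_L x).1 hL
  rw [ht, dg_det] at this
  rw [this, dg_one] at ht
  exact Units.ext ht

theorem not_cent : ¬ A ≤ Subgroup.centralizer (L : Set G) := by
  intro h
  have := (mem_L a).1 (cent_le (h (Subgroup.mem_zpowers a)))
  rw [show a.val = dg 2 from rfl, dg_det] at this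
  revert this
  decide

theorem L_ne : L ≠ ⊥ := by
  intro h
  apply not_cent
  rw [h]
  intro x _ y hy
  rw [SetLike.mem_coe, Subgroup.mem_bot] at hy
  rw [hy, one_mul, mul_one]

theorem L_sub : ∃ n : ℕ, ∃ H : ℕ → Subgroup G, H 0 = L ∧ H n = ⊤ ∧
    ∀ i < n, H i ≤ H (i + 1) ∧ ∀ x ∈ H (i + 1), ∀ y ∈ H i, x * y * x⁻¹ ∈ H i := by
  refine ⟨1, fun i => match i with | 0 => L | _ => ⊤, rfl, rfl, fun i hi => ?_⟩
  interval_cases i
  refine ⟨le_top, fun x _ y hy => ?_⟩
  show x * y * x⁻¹ ∈ L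
  rw [mem_L, Units.val_mul, Units.val_mul, Matrix.det_units_conj]
  exact (mem_L y).1 hy

theorem cardA : Nat.card A = 4 := by rw [A, Nat.card_zpowers, a_ord]

end Pool.Agent.H67.TI4
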