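import Mathlib

/-! Common transversal probability: the product formula over double cosets. -/

namespace Pool.Agent.H67.Transv

open MulAction
open scoped Nat

theorem card_pres {X Y D : Type} [Finite X] [Finite Y] [Fintype D] (dX : X → D) (dY : Y → D)
    (ht : ∀ δ, Nat.card {x // dX x = δ} = Nat.card {y // dY y = δ}) :
    Nat.card {σ : X ≃ Y // ∀ x, dY (σ x) = dX x} = ∏ δ, (Nat.card {x // dX x = δ})! := by
  classical
  haveI := Fintype.ofFinite X
  have e : ∀ δ, {x // dX x = δ} ≃ {y // dY y = δ} := fun δ => (Finite.card_eq.1 (ht δ)).some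
  let σ := Equiv.ofFiberEquiv e
  have hσ : ∀ x, dY (σ x) = dX x := fun x => Equiv.ofFiberEquiv_map e x
  have h1 := DomMulAct.stabilizer_card dX
  simp only [← Nat.card_eq_fintype_card] at h1
  rw [← h1]
  refine Nat.card_congr ⟨fun s => ⟨s.1.trans σ.symm, funext fun x => ?_⟩,
    fun s => ⟨s.1.trans σ, fun x => ?_⟩, fun s => ?_, fun s => ?_⟩
  · have := hσ (σ.symm (s.1 x))
    rw [Equiv.apply_symm_apply, s.2] at this
    exact this.symm
  · exact (hσ _).trans (congrFun s.2 x)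
  · ext x; simp
  · ext x; simp

theorem count {G X Y D : Type} [Finite G] [Finite X] [Finite Y] [Fintype D]
    (l : G → X) (r : G → Y) (dX : X → D) (dY : Y → D) (hd : ∀ g, dX (l g) = dY (r g))
    (w : D → ℕ) (hw : ∀ x y, dX x = dY y → Nat.card {g // l g = x ∧ r g = y} = w (dX x))
    (ht : ∀ δ, Nat.card {x // dX x = δ} = Nat.card {y // dY y = δ}) :
    {T : Set G | (∀ x, ∃! g, g ∈ T ∧ l g = x) ∧ ∀ y, ∃! g, g ∈ T ∧ r g = y}.ncard =
      ∏ δ, (Nat.card {x // dX x = δ})! * w δ ^ Nat.card {x // dX x = δ} := by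
  classical
  haveI := Fintype.ofFinite X
  haveI := Fintype.ofFinite Y
  let S := {f : X → G // (∀ x, l (f x) = x) ∧ Function.Bijective (r ∘ f)}
  have h1 : Nat.card S =
      {T : Set G | (∀ x, ∃! g, g ∈ T ∧ l g = x) ∧ ∀ y, ∃! g, g ∈ T ∧ r g = y}.ncard := by
    rw [← Nat.card_coe_set_eq]
    refine Nat.card_congr (Equiv.ofBijective (fun f => ⟨Set.range f.1, fun x => ?_, fun y => ?_⟩)
      ⟨fun f f' h => ?_, fun T => ?_⟩)
    · refine ⟨f.1 x, ⟨⟨x, rfl⟩, f.2.1 x⟩, ?_⟩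
      rintro _ ⟨⟨x', rfl⟩, h⟩
      rw [f.2.1] at h; rw [h]
    · obtain ⟨x, hx⟩ := f.2.2.2 y
      refine ⟨f.1 x, ⟨⟨x, rfl⟩, hx⟩, ?_⟩
      rintro _ ⟨⟨x', rfl⟩, h⟩
      rw [f.2.2.1 (h.trans hx.symm)]
    · have h' : Set.range f.1 = Set.range f'.1 := congrArg Subtype.val h
      refine Subtype.ext (funext fun x => ?_)
      obtain ⟨x', hx'⟩ : f.1 x ∈ Set.range f'.1 := h' ▸ ⟨x, rfl⟩
      have := f'.2.1 x'
      rw [hx', f.2.1] at this
      rw [← hx', this]
    · choose f hf hu using T.2.1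
      refine ⟨⟨f, fun x => (hf x).2, fun x x' h => ?_, fun y => ?_⟩, Subtype.ext ?_⟩
      · have := (T.2.2 (r (f x))).unique ⟨(hf x).1, rfl⟩ ⟨(hf x').1, h.symm⟩
        rw [← (hf x).2, this, (hf x').2]
      · obtain ⟨g, hg, -⟩ := T.2.2 y
        exact ⟨l g, by rw [Function.comp, ← hu (l g) g ⟨hg.1, rfl⟩, hg.2]⟩
      · ext g
        exact ⟨by rintro ⟨x, rfl⟩; exact (hf x).1, fun hg => ⟨l g, (hu _ g ⟨hg, rfl⟩).symm⟩⟩
  let ψ : S → {σ : X ≃ Y // ∀ x, dY (σ x) = dX x} := fun f =>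
    ⟨Equiv.ofBijective _ f.2.2, fun x => by
      change dY (r (f.1 x)) = _
      rw [← hd, f.2.1]⟩
  have h2 : ∀ σ, Nat.card {f // ψ f = σ} = ∏ x, w (dX x) := by
    intro σ
    have e : {f // ψ f = σ} ≃ ∀ x, {g // l g = x ∧ r g = σ.1 x} :=
      ⟨fun f x => ⟨f.1.1 x, f.1.2.1 x, congrArg (fun s => s.1 x) f.2⟩,
       fun p => ⟨⟨fun x => (p x).1, fun x => (p x).2.1, by
          have : (r ∘ fun x => (p x).1) = σ.1 := funext fun x => (p x).2.2
          rw [this]; exact σ.1.bijective⟩, Subtype.ext (Equiv.ext fun x => (p x).2.2)⟩,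
       fun f => rfl, fun p => rfl⟩
    rw [Nat.card_congr e, Nat.card_pi]
    exact Finset.prod_congr rfl fun x _ => hw _ _ (σ.2 x).symm
  rw [← h1, ← Nat.card_congr (Equiv.sigmaFiberEquiv ψ), Nat.card_sigma]
  simp only [h2, Finset.sum_const, Finset.card_univ, smul_eq_mul]
  rw [← Nat.card_eq_fintype_card, card_pres dX dY ht, Finset.prod_mul_distrib]
  congr 1
  rw [← Finset.prod_fiberwise Finset.univ dX]
  refine Finset.prod_congr rfl fun δ _ => ?_
  rw [Finset.prod_congr rfl (g := fun _ => w δ) fun x hx => by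
    rw [(Finset.mem_filter.1 hx).2], Finset.prod_const, Nat.card_eq_fintype_card,
    Fintype.card_subtype]

theorem fib_mul {G X Y D : Type} [Finite G] [Finite X] (l : G → X) (r : G → Y) (dX : X → D)
    (dY : Y → D) (hd : ∀ g, dX (l g) = dY (r g)) (y : Y) (w : ℕ)
    (hw : ∀ x, dX x = dY y → Nat.card {g // l g = x ∧ r g = y} = w) :
    Nat.card {x // dX x = dY y} * w = Nat.card {g // r g = y} := by
  classical
  haveI := Fintype.ofFinite X
  let ψ : {g // r g = y} → {x // dX x = dY y} := fun g => ⟨l g.1, by rw [hd, g.2]⟩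
  rw [← Nat.card_congr (Equiv.sigmaFiberEquiv ψ), Nat.card_sigma,
    Finset.sum_congr rfl (g := fun _ => w) fun x _ => ?_]
  · simp
  · rw [← hw x.1 x.2]
    exact Nat.card_congr ⟨fun g => ⟨g.1.1, congrArg Subtype.val g.2, g.1.2⟩,
      fun g => ⟨⟨g.1, g.2.2⟩, Subtype.ext g.2.1⟩, fun _ => rfl, fun _ => rfl⟩

variable {G : Type} [Group G]

/-- `T` meets every left coset `gH` in exactly one element -/
def IsLT (H : Subgroup G) (T : Set G) : Prop := ∀ g : G, ∃! t, t ∈ T ∧ g⁻¹ * t ∈ H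

/-- `T` meets every right coset `Kg` in exactly one element -/
def IsRT (K : Subgroup G) (T : Set G) : Prop := ∀ g : G, ∃! t, t ∈ T ∧ t * g⁻¹ ∈ K

/-- the common transversal probability `P_G(H,K) = |DT_G(H,K)| / |H|^(G:H)` -/
noncomputable def P (H K : Subgroup G) : ℚ :=
  ({T | IsLT H T ∧ IsRT K T}.ncard : ℚ) / (Nat.card H : ℚ) ^ H.index

theorem formula [Finite G] (H K : Subgroup G) (hc : Nat.card H = Nat.card K)
    [Fintype (orbitRel.Quotient K (G ⧸ H))] :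
    P H K = ∏ δ : orbitRel.Quotient K (G ⧸ H),
      ((δ.orbit.ncard)! : ℚ) / (δ.orbit.ncard : ℚ) ^ δ.orbit.ncard := by
  classical
  let Y := Quotient (QuotientGroup.rightRel K)
  let l : G → G ⧸ H := QuotientGroup.mk
  let r : G → Y := Quotient.mk _
  let dX : G ⧸ H → orbitRel.Quotient K (G ⧸ H) := Quotient.mk _
  have hr : ∀ a b, r a = r b ↔ b * a⁻¹ ∈ K := fun a b => by
    rw [← QuotientGroup.rightRel_apply]; exact Quotient.eq
  have hl : ∀ a b, l a = l b ↔ a⁻¹ * b ∈ H := fun a b => QuotientGroup.eq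
  have hX : ∀ a b, dX (l a) = dX (l b) ↔ ∃ k ∈ K, (k * b)⁻¹ * a ∈ H := fun a b => by
    refine Quotient.eq.trans ⟨?_, ?_⟩
    · rintro ⟨k, hk⟩; exact ⟨k, k.2, (hl _ _).1 hk⟩
    · rintro ⟨k, hk, h⟩; exact ⟨⟨k, hk⟩, (hl _ _).2 h⟩
  let dY : Y → orbitRel.Quotient K (G ⧸ H) := Quotient.lift (fun g => dX (l g)) fun a b h =>
    (hX a b).2 ⟨_, K.inv_mem (QuotientGroup.rightRel_apply.1 h), by simp⟩
  have hd : ∀ g, dX (l g) = dY (r g) := fun _ => rfl
  let N : G → G → ℕ := fun a b => Nat.card {g // l g = l a ∧ r g = r b}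
  have hN : ∀ a b a' b', dX (l a) = dX (l a') → dX (l b) = dX (l b') → N a b = N a' b' := by
    intro a b a' b' h1 h2
    obtain ⟨k, hk, h1⟩ := (hX _ _).1 h1
    obtain ⟨k', hk', h2⟩ := (hX _ _).1 h2
    set h := (k' * b')⁻¹ * b with hh
    refine Nat.card_congr (((Equiv.mulLeft k⁻¹).trans (Equiv.mulRight h⁻¹)).subtypeEquiv
      fun g => and_congr ?_ ?_)
    · rw [hl, hl]
      have : ((Equiv.mulLeft k⁻¹).trans (Equiv.mulRight h⁻¹) g)⁻¹ * a' =
        h * (g⁻¹ * a) * ((k * a')⁻¹ * a)⁻¹ := by simp [mul_assoc]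
      rw [this, H.mul_mem_cancel_right (H.inv_mem h1), H.mul_mem_cancel_left h2]
    · rw [hr, hr]
      have : b' * ((Equiv.mulLeft k⁻¹).trans (Equiv.mulRight h⁻¹) g)⁻¹ =
        k'⁻¹ * (b * g⁻¹) * k := by simp [mul_assoc, hh]
      rw [this, K.mul_mem_cancel_right hk, K.mul_mem_cancel_left (K.inv_mem hk')]
  have hs : ∀ δ, ∃ g, dX (l g) = δ := by
    rintro ⟨⟨g⟩⟩; exact ⟨g, rfl⟩
  choose c hcδ using hs
  have hw : ∀ x y, dX x = dY y → Nat.card {g // l g = x ∧ r g = y} = N (c (dX x)) (c (dX x)) := by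
    rintro ⟨a⟩ ⟨b⟩ h
    exact hN a b _ _ (hcδ _).symm ((hcδ _).trans h).symm
  have f1 : ∀ δ, Nat.card {x // dX x = δ} * N (c δ) (c δ) = Nat.card H := by
    intro δ
    have := fib_mul l r dX dY hd (r (c δ)) (N (c δ) (c δ)) fun x h => by
      rw [hw x _ h, h, ← hd, hcδ]
    rw [← hd, hcδ] at this
    rw [this, hc]
    exact Nat.card_congr ((Equiv.inv G).trans (Equiv.mulLeft (c δ)) |>.subtypeEquiv fun g => by
      rw [hr]; rfl)
  have f2 : ∀ δ, Nat.card {y // dY y = δ} * N (c δ) (c δ) = Nat.card H := by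
    intro δ
    have := fib_mul r l dY dX (fun g => (hd g).symm) (l (c δ)) (N (c δ) (c δ)) fun y h => by
      have := hw _ y h.symm
      rw [hcδ] at this
      simpa only [and_comm] using this
    rw [hcδ] at this
    rw [this]
    exact Nat.card_congr ((Equiv.inv G).trans (Equiv.mulRight (c δ)) |>.subtypeEquiv fun g => by
      rw [hl]; rfl)
  have hH : 0 < Nat.card H := Nat.card_pos
  have hN0 : ∀ δ, 0 < N (c δ) (c δ) := fun δ => Nat.pos_of_mul_pos_left (f1 δ ▸ hH)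
  have key := count l r dX dY hd (fun δ => N (c δ) (c δ)) hw fun δ =>
    Nat.eq_of_mul_eq_mul_right (hN0 δ) ((f1 δ).trans (f2 δ).symm)
  have e1 : {T | IsLT H T ∧ IsRT K T} =
      {T : Set G | (∀ x, ∃! g, g ∈ T ∧ l g = x) ∧ ∀ y, ∃! g, g ∈ T ∧ r g = y} := by
    ext T
    refine and_congr ⟨fun h => ?_, fun h g => ?_⟩ ⟨fun h => ?_, fun h g => ?_⟩
    · rintro ⟨g⟩; change ∃! t, t ∈ T ∧ l t = l g; simpa only [← hl, eq_comm] using h g
    · simpa only [← hl, eq_comm] using h (l g)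
    · rintro ⟨g⟩; change ∃! t, t ∈ T ∧ r t = r g; simpa only [← hr, eq_comm] using h g
    · simpa only [← hr, eq_comm] using h (r g)
  have e2 : ∀ δ, δ.orbit.ncard = Nat.card {x // dX x = δ} := fun δ => by
    rw [← Nat.card_coe_set_eq]
    exact Nat.card_congr (Equiv.subtypeEquivRight fun x => orbitRel.Quotient.mem_orbit)
  have e3 : H.index = ∑ δ, Nat.card {x // dX x = δ} := by
    rw [← Nat.card_sigma, Nat.card_congr (Equiv.sigmaFiberEquiv dX)]; rfl
  rw [P, e1, key, e3, ← Finset.prod_pow_eq_pow_sum, Nat.cast_prod, ← Finset.prod_div_distrib]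
  refine Finset.prod_congr rfl fun δ _ => ?_
  rw [e2, ← f1 δ]
  have := (hN0 δ).ne'
  have h0 : Nat.card {x // dX x = δ} ≠ 0 := fun h => by
    have := f1 δ; rw [h] at this; omega
  push_cast
  rw [mul_pow]
  field_simp

end Pool.Agent.H67.Transv
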