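import Mathlib

namespace Pool.Agent.H67.UR

open Polynomial

section Lin

variable {K V : Type*} [Field K] [AddCommGroup V] [Module K V] [FiniteDimensional K V]

lemma lemT (s : Module.End K V) (W Z : Submodule K V) (hW : Codisjoint W (LinearMap.range s))
    (hZ : Disjoint Z (LinearMap.ker s)) :
    ∃ t u : Module.End K V, (∀ v, t v ∈ W) ∧ (∀ z ∈ Z, t z = 0) ∧ u * (s + t) = 1 ∧
      (s + t) * u = 1 ∧ s * u * s = s := by
  obtain ⟨C, hCW, hC⟩ := hW.exists_isCompl
  obtain ⟨D, hZD, hD⟩ := hZ.exists_isCompl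
  have hrk : Module.finrank K (LinearMap.ker s) = Module.finrank K C := by
    have h1 := LinearMap.finrank_range_add_finrank_ker s
    have h2 := Submodule.finrank_add_eq_of_isCompl hC
    omega
  let θ : LinearMap.ker s ≃ₗ[K] C := LinearEquiv.ofFinrankEq _ _ hrk
  let t : Module.End K V :=
    C.subtype ∘ₗ θ.toLinearMap ∘ₗ (LinearMap.ker s).projectionOnto D hD.symm
  have htC : ∀ v, t v ∈ C := fun v => (θ _).2
  have htD : ∀ z ∈ D, t z = 0 := by
    intro z hz
    have : (LinearMap.ker s).projectionOnto D hD.symm z = 0 :=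
      Submodule.projectionOnto_apply_of_mem_right _ hz
    simp [t, this]
  have hinj : Function.Injective (s + t) := by
    rw [← LinearMap.ker_eq_bot, LinearMap.ker_eq_bot']
    intro v hv
    have h1 : t v = - s v := by
      rw [LinearMap.add_apply] at hv
      exact eq_neg_of_add_eq_zero_right hv
    have h2 : t v ∈ C ⊓ LinearMap.range s :=
      ⟨htC v, by rw [h1]; exact Submodule.neg_mem _ ⟨v, rfl⟩⟩
    rw [hC.inf_eq_bot, Submodule.mem_bot] at h2
    have h3 : s v = 0 := by rw [h2] at h1; exact neg_eq_zero.1 h1.symm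
    have h4 : (LinearMap.ker s).projectionOnto D hD.symm v = ⟨v, h3⟩ :=
      Submodule.projectionOnto_apply_of_mem_left _ h3
    have h5 : θ ⟨v, h3⟩ = 0 := by
      apply Subtype.ext
      have : t v = (θ ⟨v, h3⟩ : V) := by simp [t, h4]
      rw [← this, h2]; rfl
    have h6 := θ.map_eq_zero_iff.1 h5
    exact congrArg Subtype.val h6
  have hu : IsUnit (s + t) := (LinearMap.isUnit_iff_ker_eq_bot _).2 (LinearMap.ker_eq_bot.2 hinj)
  obtain ⟨U, hU⟩ := hu
  refine ⟨t, ↑U⁻¹, fun v => hCW (htC v), fun z hz => htD z (hZD hz), by rw [← hU]; simp,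
    by rw [← hU]; simp, ?_⟩
  ext v
  let d := v - (LinearMap.ker s).projection D hD.symm v
  have hd : d ∈ D := Submodule.sub_projection_mem _ _
  have hsd : s d = s v := by
    have : s ((LinearMap.ker s).projection D hD.symm v) = 0 :=
      Submodule.projection_apply_mem hD.symm v
    simp [d, this]
  have h1 : (s + t) d = s v := by rw [LinearMap.add_apply, hsd, htD d hd, add_zero]
  have h2 : (↑U⁻¹ : Module.End K V) (s v) = d := by
    rw [← h1, ← hU, ← Module.End.mul_apply]; simp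
  simp only [Module.End.mul_apply]
  rw [h2, hsd]

lemma lemY (s : Module.End K V) (W Z : Submodule K V) (hW : Codisjoint W (LinearMap.ker s))
    (hZ : Disjoint Z (LinearMap.range s)) :
    ∃ y : Module.End K V, (∀ v, y v ∈ W) ∧ (∀ z ∈ Z, y z = 0) ∧ s * y * s = s := by
  obtain ⟨D, hDW, hD⟩ := hW.exists_isCompl
  obtain ⟨C, hZC, hC⟩ := hZ.exists_isCompl
  obtain ⟨t, u, -, -, -, -, hu⟩ := lemT s ⊤ ⊥ codisjoint_top_left disjoint_bot_left
  refine ⟨D.projection _ hD * u * (LinearMap.range s).projection C hC.symm, fun v => ?_,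
    fun z hz => ?_, ?_⟩
  · exact hDW (Submodule.projection_apply_mem hD _)
  · have : (LinearMap.range s).projection C hC.symm z = 0 :=
      Submodule.projection_apply_of_mem_right _ (hZC hz)
    simp [Module.End.mul_apply, this]
  · ext v
    have h1 : (LinearMap.range s).projection C hC.symm (s v) = s v :=
      Submodule.projection_apply_of_mem_left _ ⟨v, rfl⟩
    have h2 : ∀ x, s (D.projection _ hD x) = s x := by
      intro x
      have : s (x - D.projection _ hD x) = 0 := Submodule.sub_projection_mem hD x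
      rw [map_sub, sub_eq_zero] at this
      exact this.symm
    simp only [Module.End.mul_apply]
    rw [h1, h2]
    exact congrArg (fun g : Module.End K V => g v) hu

end Lin

noncomputable def ff (m : ℕ) : ℚ[X] := X ^ m * (X - 1) ^ m

abbrev A (m : ℕ) := AdjoinRoot (ff m)

noncomputable abbrev mk (m : ℕ) : ℚ[X] →+* A m := AdjoinRoot.mk (ff m)

lemma monic_sub : (X - 1 : ℚ[X]).Monic := by simpa using monic_X_sub_C (1 : ℚ)

lemma natDegree_sub1 : (X - 1 : ℚ[X]).natDegree = 1 := by simpa using natDegree_X_sub_C (1 : ℚ)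

lemma hh_monic (j m : ℕ) : (X ^ j * (X - 1) ^ m : ℚ[X]).Monic :=
  (monic_X_pow j).mul (monic_sub.pow m)

lemma hh_deg (j m : ℕ) : (X ^ j * (X - 1) ^ m : ℚ[X]).natDegree = j + m := by
  rw [(monic_X_pow j).natDegree_mul (monic_sub.pow m), natDegree_X_pow, monic_sub.natDegree_pow,
    natDegree_sub1, mul_one]

lemma ff_monic (m : ℕ) : (ff m).Monic := hh_monic m m

lemma ff_deg (m : ℕ) : (ff m).natDegree = 2 * m := by rw [ff, hh_deg]; ring

instance (m : ℕ) : FiniteDimensional ℚ (A m) := (ff_monic m).finite_adjoinRoot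

noncomputable def D (m k : ℕ) : Submodule ℚ (A m) :=
  (degreeLT ℚ k).map (AdjoinRoot.mkₐ (ff m)).toLinearMap

lemma memD {m k : ℕ} {v : A m} : v ∈ D m k ↔ ∃ p : ℚ[X], p.degree < k ∧ mk m p = v := by
  simp [D, mem_degreeLT]

lemma D_mono {m k l : ℕ} (h : k ≤ l) {v : A m} (hv : v ∈ D m k) : v ∈ D m l := by
  obtain ⟨p, hp, rfl⟩ := memD.1 hv
  exact memD.2 ⟨p, lt_of_lt_of_le hp (by exact_mod_cast h), rfl⟩

lemma D_zero {m : ℕ} {v : A m} (hv : v ∈ D m 0) : v = 0 := by
  obtain ⟨p, hp, rfl⟩ := memD.1 hv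
  have : p = 0 := by
    by_contra h
    rw [degree_eq_natDegree h] at hp
    norm_cast at hp
  simp [this]

lemma mulD {m k N : ℕ} {P : ℚ[X]} (hP : P.natDegree ≤ N) {v : A m} (hv : v ∈ D m k) :
    mk m P * v ∈ D m (N + k) := by
  obtain ⟨p, hp, rfl⟩ := memD.1 hv
  refine memD.2 ⟨P * p, ?_, by simp⟩
  by_cases h0 : p = 0
  · simp [h0]
  by_cases h1 : P = 0
  · simp [h1]
  rw [degree_eq_natDegree h0] at hp
  rw [degree_eq_natDegree (mul_ne_zero h1 h0), natDegree_mul h1 h0]
  norm_cast at hp ⊢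
  omega

lemma mulD' {m d N M : ℕ} {P : ℚ[X]} (hP : P.natDegree ≤ N) {v : A m} (hv : v ∈ D m (d - (N + M))) :
    mk m P * v ∈ D m (d - M) := by
  by_cases h : N + M ≤ d
  · exact D_mono (by omega) (mulD hP hv)
  · have : d - (N + M) = 0 := by omega
    rw [this] at hv
    rw [D_zero hv, mul_zero]
    exact Submodule.zero_mem _

lemma K0 {m : ℕ} {p : ℚ[X]} (hp : p.natDegree < 2 * m) (h : mk m p = 0) : p = 0 :=
  eq_zero_of_dvd_of_natDegree_lt (AdjoinRoot.mk_eq_zero.1 h) (by rw [ff_deg]; exact hp)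

lemma K1 {m N : ℕ} {p : ℚ[X]} (h0 : p ≠ 0) (hN : N ≤ p.natDegree) (hp : p.natDegree < 2 * m) :
    mk m p ∉ D m N := by
  intro h
  obtain ⟨r, hr, hrp⟩ := memD.1 h
  have hr' : r.degree < p.degree := by
    rw [degree_eq_natDegree h0]; exact lt_of_lt_of_le hr (by exact_mod_cast hN)
  have h1 : (p - r).natDegree = p.natDegree :=
    natDegree_eq_of_degree_eq (degree_sub_eq_left_of_degree_lt hr')
  have h2 : p - r = 0 := K0 (m := m) (by rw [h1]; exact hp) (by rw [map_sub, hrp, sub_self])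
  rw [sub_eq_zero] at h2
  rw [h2] at hr'
  exact lt_irrefl _ hr'

lemma F1 {m N : ℕ} {P : ℚ[X]} (h0 : P ≠ 0) (hP : P.natDegree ≤ N) (hN : N ≤ m) (v : A m) :
    ∃ z ∈ D m (2 * m - N), mk m (X ^ N) * (v - mk m P * z) ∈ D m (2 * N) := by
  obtain ⟨p, rfl⟩ := AdjoinRoot.mk_surjective v
  set h : ℚ[X] := X ^ (m - N) * (X - 1) ^ m with hh
  have hm : h.Monic := hh_monic _ _
  have hd : h.degree = ((2 * m - N : ℕ) : WithBot ℕ) := by
    rw [degree_eq_natDegree hm.ne_zero, hh, hh_deg]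
    congr 1
    omega
  have h1 := degree_modByMonic_lt p hm
  rw [hd] at h1
  have h2 := modByMonic_add_div p h
  set r := p %ₘ h
  have h3 := EuclideanDomain.div_add_mod r P
  refine ⟨mk m (r / P), memD.2 ⟨r / P, lt_of_le_of_lt (degree_div_le _ _) h1, rfl⟩, ?_⟩
  have h4 : mk m (X ^ N) * mk m h = 0 := by
    rw [← map_mul, hh, ← mul_assoc, ← pow_add, show N + (m - N) = m by omega]
    exact AdjoinRoot.mk_self
  have h5 : mk m (X ^ N) * (AdjoinRoot.mk (ff m) p - mk m P * mk m (r / P)) =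
      mk m (X ^ N) * mk m (r % P) := by
    have e1 : AdjoinRoot.mk (ff m) p = mk m P * mk m (r / P) + mk m (r % P) +
        mk m h * mk m (p /ₘ h) := by
      rw [← map_mul, ← map_mul, ← map_add, ← map_add, h3, h2]
    rw [e1]
    linear_combination (mk m (p /ₘ h)) * h4
  rw [h5, two_mul]
  refine mulD (by simp) (memD.2 ⟨r % P, ?_, rfl⟩)
  refine lt_of_lt_of_le (degree_mod_lt r h0) ?_
  rw [degree_eq_natDegree h0]
  exact_mod_cast hP

lemma F2 {m N : ℕ} {P : ℚ[X]} (h0 : P ≠ 0) (hP : P.natDegree ≤ N) {z : A m}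
    (hz : z ∈ D m (2 * m - 2 * N)) (h : mk m P * (mk m (X ^ N) * z) ∈ D m N) : z = 0 := by
  obtain ⟨q, hq, rfl⟩ := memD.1 hz
  by_cases hq0 : q = 0
  · simp [hq0]
  exfalso
  rw [degree_eq_natDegree hq0] at hq
  norm_cast at hq
  have hX : (X ^ N : ℚ[X]) ≠ 0 := pow_ne_zero _ X_ne_zero
  have hd : (P * (X ^ N * q)).natDegree = P.natDegree + (N + q.natDegree) := by
    rw [natDegree_mul h0 (mul_ne_zero hX hq0), natDegree_mul hX hq0, natDegree_X_pow]
  rw [← map_mul, ← map_mul] at h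
  exact K1 (mul_ne_zero h0 (mul_ne_zero hX hq0)) (by omega) (by omega) h

end Pool.Agent.H67.UR
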