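import Mathlib
import Pool.Agent.H67.UR1

namespace Pool.Agent.H67.UR

open Polynomial

abbrev E (m : ℕ) := Module.End ℚ (A m)

structure St (m N : ℕ) (P Q : ℚ[X]) (s : E m) : Prop where
  q0 : Q ≠ 0
  dP : P.natDegree ≤ N
  dQ : Q.natDegree ≤ N
  l : ∀ v, mk m Q * s v - mk m P * v ∈ D m N
  r : ∀ z ∈ D m (2 * m - N), s (mk m Q * z) = mk m P * z

variable {m N : ℕ} {P Q P' Q' : ℚ[X]} {s t : E m}

lemma St.mono (h : St m N P Q s) {M : ℕ} (hM : N ≤ M) : St m M P Q s :=
  ⟨h.q0, h.dP.trans hM, h.dQ.trans hM, fun v => D_mono hM (h.l v),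
    fun z hz => h.r z (D_mono (by omega) hz)⟩

lemma St.one : St m N 1 1 (1 : E m) :=
  ⟨one_ne_zero, by simp, by simp, fun v => by simp, fun z _ => by simp⟩

lemma St.zero : St m N 0 1 (0 : E m) :=
  ⟨one_ne_zero, by simp, by simp, fun v => by simp, fun z _ => by simp⟩

lemma St.neg (h : St m N P Q s) : St m N (-P) Q (-s) := by
  refine ⟨h.q0, by simpa using h.dP, h.dQ, fun v => ?_, fun z hz => ?_⟩
  · have := Submodule.neg_mem _ (h.l v)
    convert this using 1
    simp only [LinearMap.neg_apply, map_neg]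
    ring
  · simp [h.r z hz]

lemma St.add (h : St m N P Q s) (h' : St m N P' Q' t) :
    St m (2 * N) (P * Q' + P' * Q) (Q * Q') (s + t) := by
  have a1 := h.dP
  have a2 := h.dQ
  have a3 := h'.dP
  have a4 := h'.dQ
  refine ⟨mul_ne_zero h.q0 h'.q0, ?_, ?_, fun v => ?_, fun z hz => ?_⟩
  · refine (natDegree_add_le _ _).trans (max_le ?_ ?_) <;>
      refine natDegree_mul_le.trans (by omega)
  · exact natDegree_mul_le.trans (by omega)
  · have h1 := mulD h'.dQ (h.l v)
    have h2 := mulD h.dQ (h'.l v)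
    have := Submodule.add_mem _ h1 h2
    rw [two_mul]
    convert this using 1
    simp only [LinearMap.add_apply, map_add, map_mul]
    ring
  · rw [two_mul N] at hz
    have h1 := h.r _ (mulD' h'.dQ hz)
    have h2 := h'.r _ (mulD' h.dQ hz)
    simp only [LinearMap.add_apply, map_add, map_mul]
    have e1 : UR.mk m Q * UR.mk m Q' * z = UR.mk m Q * (UR.mk m Q' * z) := by ring
    have e2 : UR.mk m Q * UR.mk m Q' * z = UR.mk m Q' * (UR.mk m Q * z) := by ring
    rw [show s (UR.mk m Q * UR.mk m Q' * z) = UR.mk m P * (UR.mk m Q' * z) by rw [e1, h1],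
      show t (UR.mk m Q * UR.mk m Q' * z) = UR.mk m P' * (UR.mk m Q * z) by rw [e2, h2]]
    ring

lemma St.mul (h : St m N P Q s) (h' : St m N P' Q' t) :
    St m (2 * N) (P * P') (Q * Q') (s * t) := by
  have a1 := h.dP
  have a2 := h.dQ
  have a3 := h'.dP
  have a4 := h'.dQ
  refine ⟨mul_ne_zero h.q0 h'.q0, natDegree_mul_le.trans (by omega),
    natDegree_mul_le.trans (by omega), fun v => ?_, fun z hz => ?_⟩
  · have h1 := mulD h'.dQ (h.l (t v))
    have h2 := mulD h.dP (h'.l v)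
    have := Submodule.add_mem _ h1 h2
    rw [two_mul]
    convert this using 1
    simp only [Module.End.mul_apply, map_mul]
    ring
  · rw [two_mul N] at hz
    have h1 := h'.r _ (mulD' h.dQ hz)
    have h2 := h.r _ (mulD' h'.dP hz)
    simp only [Module.End.mul_apply, map_mul]
    have e1 : UR.mk m Q * UR.mk m Q' * z = UR.mk m Q' * (UR.mk m Q * z) := by ring
    have e2 : UR.mk m P' * (UR.mk m Q * z) = UR.mk m Q * (UR.mk m P' * z) := by ring
    rw [e1, h1, e2, h2]
    ring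

lemma St.inv (h : St m N P Q s) (hP : P ≠ 0) {u : E m} (h1 : u * s = 1) (h2 : s * u = 1) :
    St m N Q P u := by
  refine ⟨hP, h.dQ, h.dP, fun v => ?_, fun z hz => ?_⟩
  · have := Submodule.neg_mem _ (h.l (u v))
    have e : s (u v) = v := by rw [← Module.End.mul_apply, h2]; rfl
    rw [e] at this
    convert this using 1
    ring
  · rw [← h.r z hz, ← Module.End.mul_apply, h1]; rfl

lemma St.triv (hm : 2 * m ≤ N) (s : E m) : St m N 0 (ff m) s := by
  have : UR.mk m (ff m) = 0 := AdjoinRoot.mk_self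
  exact ⟨(ff_monic m).ne_zero, by simp, by rw [ff_deg]; exact hm, fun v => by simp [this],
    fun z _ => by simp [this]⟩

noncomputable def WW (m N : ℕ) : Submodule ℚ (A m) :=
  (D m (2 * N)).comap (LinearMap.mulLeft ℚ (mk m (X ^ N)))

noncomputable def ZZ (m N : ℕ) : Submodule ℚ (A m) :=
  (D m (2 * m - 2 * N)).map (LinearMap.mulLeft ℚ (mk m (X ^ N)))

lemma St.small (h1 : ∀ v, t v ∈ WW m N) (h2 : ∀ z ∈ ZZ m N, t z = 0) :
    St m (2 * N) 0 (X ^ N) t := by
  refine ⟨pow_ne_zero _ X_ne_zero, by simp, by simp; omega, fun v => ?_, fun z hz => ?_⟩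
  · have := h1 v
    simpa [WW] using this
  · have := h2 _ ⟨z, hz, rfl⟩
    rw [LinearMap.mulLeft_apply] at this
    rw [this]; simp

lemma codis (hP : P ≠ 0) (hd : P.natDegree ≤ N) (hN : N ≤ m) (I : Submodule ℚ (A m))
    (hI : ∀ z ∈ D m (2 * m - N), mk m P * z ∈ I) : Codisjoint (WW m N) I := by
  rw [codisjoint_iff, eq_top_iff]
  intro v _
  obtain ⟨z, hz, h⟩ := F1 hP hd hN v
  rw [Submodule.mem_sup]
  exact ⟨v - mk m P * z, h, mk m P * z, hI z hz, by ring⟩

lemma dis (hP : P ≠ 0) (hd : P.natDegree ≤ N) (I : Submodule ℚ (A m))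
    (hI : ∀ v ∈ I, mk m P * v ∈ D m N) : Disjoint (ZZ m N) I := by
  rw [Submodule.disjoint_def]
  rintro _ ⟨z, hz, rfl⟩ hv
  have := F2 hP hd hz (hI _ hv)
  simp [this]

def S (m N : ℕ) (s : E m) : Prop := ∃ P Q, St m N P Q s

lemma big (h : St m N P Q s) (hP : P ≠ 0) (hN : N ≤ m) :
    ∃ u v : E m, u * v = 1 ∧ v * u = 1 ∧ s * u * s = s ∧ S m (4 * N) u ∧ S m (4 * N) v := by
  obtain ⟨t, u, h1, h2, h3, h4, h5⟩ := lemT s (WW m N) (ZZ m N)
    (codis hP h.dP hN _ (fun z hz => ⟨_, h.r z hz⟩))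
    (dis hP h.dP _ (fun v hv => by
      have := Submodule.neg_mem _ (h.l v)
      rw [LinearMap.mem_ker.1 hv] at this
      simpa using this))
  have ht := St.small h1 h2
  have hs := (h.mono (M := 2 * N) (by omega)).add ht
  have hP' : P * X ^ N + 0 * Q ≠ 0 := by
    simp [hP]
  rw [show 2 * (2 * N) = 4 * N by ring] at hs
  exact ⟨u, s + t, h3, h4, h5, ⟨_, _, hs.inv hP' h3 h4⟩, ⟨_, _, hs⟩⟩

lemma S.mono (h : S m N s) {M : ℕ} (hM : N ≤ M) : S m M s := by
  obtain ⟨P, Q, h⟩ := h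
  exact ⟨P, Q, h.mono hM⟩

lemma ringlem {R : Type*} [Ring R] (s y u : R) (h3 : s * y * s = s)
    (g3 : (s + (1 + -(s * y)) * (1 + -(y * s))) * u * (s + (1 + -(s * y)) * (1 + -(y * s))) =
      s + (1 + -(s * y)) * (1 + -(y * s))) : s * u * s = s := by
  set s' := s + (1 + -(s * y)) * (1 + -(y * s)) with hs'
  have k1 : s * y * s' = s := by
    rw [hs']
    have : s * y * (1 + -(s * y)) = 0 := by
      rw [mul_add, mul_one, mul_neg, ← mul_assoc, h3, add_neg_cancel]
    rw [mul_add, h3, ← mul_assoc, this, zero_mul, add_zero]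
  have k2 : s' * (y * s) = s := by
    rw [hs']
    have : (1 + -(y * s)) * (y * s) = 0 := by
      rw [add_mul, one_mul, neg_mul, mul_assoc, ← mul_assoc s, h3, add_neg_cancel]
    rw [add_mul, ← mul_assoc s, h3, mul_assoc, this, mul_zero, add_zero]
  calc s * u * s = (s * y * s') * u * (s' * (y * s)) := by rw [k1, k2]
    _ = s * y * (s' * u * s') * (y * s) := by simp only [mul_assoc]
    _ = s * y * s' * (y * s) := by rw [g3]
    _ = s := by rw [k1, ← mul_assoc, h3]

lemma unif (h : S m N s) :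
    ∃ u v : E m, u * v = 1 ∧ v * u = 1 ∧ s * u * s = s ∧ S m (128 * N) u ∧ S m (128 * N) v := by
  by_cases hm : m < 32 * N
  · obtain ⟨t, u, -, -, h3, h4, h5⟩ := lemT s ⊤ ⊥ codisjoint_top_left disjoint_bot_left
    exact ⟨u, s + t, h3, h4, h5, ⟨_, _, St.triv (by omega) _⟩, ⟨_, _, St.triv (by omega) _⟩⟩
  obtain ⟨P, Q, h⟩ := h
  by_cases hP : P = 0
  swap
  · obtain ⟨u, v, h1, h2, h3, h4, h5⟩ := big h hP (by omega)
    exact ⟨u, v, h1, h2, h3, h4.mono (by omega), h5.mono (by omega)⟩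
  subst hP
  obtain ⟨y, h1, h2, h3⟩ := lemY s (WW m N) (ZZ m N)
    (codis h.q0 h.dQ (by omega) _ (fun z hz => by
      rw [LinearMap.mem_ker, h.r z hz]; simp))
    (dis h.q0 h.dQ _ (by
      rintro _ ⟨v, rfl⟩
      simpa using h.l v))
  have hy := St.small h1 h2
  have hs2 := h.mono (M := 2 * N) (by omega)
  have e1 := St.one.add (hs2.mul hy).neg
  have e2 := St.one.add (hy.mul hs2).neg
  have e3 := (h.mono (M := 2 * (2 * (2 * (2 * N)))) (by omega)).add (e1.mul e2)
  have hq := h.q0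
  obtain ⟨u, v, g1, g2, g3, g4, g5⟩ := big e3 (by simp [hq]) (by omega)
  refine ⟨u, v, g1, g2, ?_, g4.mono (by omega), g5.mono (by omega)⟩
  exact ringlem s y u h3 g3

noncomputable def aa (m : ℕ) : E m := LinearMap.mulLeft ℚ (mk m X)

lemma aa_St (hN : 1 ≤ N) : St m N X 1 (aa m) :=
  ⟨one_ne_zero, by simpa using hN, by simp, fun v => by simp [aa], fun z _ => by simp [aa]⟩

lemma aa_pow (k : ℕ) (v : A m) : (aa m ^ k) v = mk m X ^ k * v := by
  induction k with
  | zero => simp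
  | succ k ih => rw [pow_succ', Module.End.mul_apply, ih, pow_succ', mul_assoc]; rfl

lemma cop (j k : ℕ) : IsCoprime (X ^ j : ℚ[X]) ((X - 1) ^ k) := by
  have : IsCoprime (X : ℚ[X]) (X - 1) := ⟨1, -1, by ring⟩
  exact this.pow

lemma nogood {w : E m} (hN : 1 ≤ N) (hm : 4 * N + 1 ≤ m) (h : St m N P Q w)
    (H : ∀ k, 1 ≤ k → aa m ^ k * w ^ k * aa m ^ k = aa m ^ k) : False := by
  set x := mk m X with hx
  have H' : ∀ k v, x ^ k * (w ^ k) (x ^ k * v) = x ^ k * v := by
    intro k v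
    rcases Nat.eq_zero_or_pos k with rfl | hk
    · simp
    have := congrArg (fun g : E m => g v) (H k hk)
    simpa only [Module.End.mul_apply, aa_pow] using this
  have H1 : ∀ v, x * w (x * v) = x * v := by simpa using H' 1
  have hff : x ^ m * (x - 1) ^ m = 0 := by
    have : mk m (ff m) = 0 := AdjoinRoot.mk_self
    simpa [ff, hx] using this
  obtain ⟨P1, Q1, e1⟩ : S m (2 * (2 * N)) (1 + -(aa m * w)) :=
    ⟨_, _, St.one.add ((aa_St hN).mul h).neg⟩
  obtain ⟨P2, Q2, e2⟩ : S m (2 * (2 * N)) (1 + -(w * aa m)) :=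
    ⟨_, _, St.one.add (h.mul (aa_St hN)).neg⟩
  have s1 : ∀ v, (1 + -(aa m * w) : E m) v = v - x * w v := by
    intro v; simp [aa, hx, sub_eq_add_neg]
  have s2 : ∀ v, (1 + -(w * aa m) : E m) v = v - w (x * v) := by
    intro v; simp [aa, hx, sub_eq_add_neg]
  set g := 1 - x * w 1 with hg
  by_cases hA : ∃ k, x ^ k * g = 0
  · obtain ⟨k, hk⟩ := hA
    have a1 := e1.dP
    have a2 := e1.dQ
    have p0 : P1 = 0 := by
      have := e1.r x (memD.2 ⟨X, by
        rw [degree_X]; exact_mod_cast (by omega : 1 < 2 * m - 2 * (2 * N)), rfl⟩)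
      rw [s1, mul_comm (mk m Q1) x, H1, sub_self, hx, ← map_mul] at this
      have h2 := K0 (m := m) (p := P1 * X)
        (lt_of_le_of_lt natDegree_mul_le (by rw [natDegree_X]; omega)) this.symm
      simpa using h2
    have := e1.l 1
    rw [s1, p0, ← hg] at this
    simp only [map_zero, zero_mul, sub_zero] at this
    obtain ⟨p, hp, hpe⟩ := memD.1 this
    have h3 : mk m (X ^ k * p) = 0 := by
      rw [map_mul, hpe, map_pow, ← hx]; linear_combination (mk m Q1) * hk
    have h4 : (X - 1 : ℚ[X]) ^ m ∣ p :=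
      (cop k m).symm.dvd_of_dvd_mul_left
        ((Dvd.intro_left _ rfl).trans (AdjoinRoot.mk_eq_zero.1 h3))
    have h5 : p = 0 := by
      refine eq_zero_of_dvd_of_degree_lt h4 (lt_of_lt_of_le hp ?_)
      rw [degree_eq_natDegree (monic_sub.pow m).ne_zero, monic_sub.natDegree_pow, natDegree_sub1]
      exact_mod_cast (by omega)
    obtain ⟨y, hy⟩ := AdjoinRoot.mk_surjective (w 1)
    have h6 : mk m (Q1 * (1 - X * y)) = 0 := by
      rw [h5, map_zero, hg, ← hy] at hpe
      rw [map_mul, map_sub, map_one, map_mul, ← hx]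
      exact hpe.symm
    have h7 : IsCoprime (X ^ m : ℚ[X]) (1 - X * y) :=
      IsCoprime.pow_left ⟨y, 1, by ring⟩
    have h8 : (X : ℚ[X]) ^ m ∣ Q1 :=
      h7.dvd_of_dvd_mul_right ((Dvd.intro _ rfl).trans (AdjoinRoot.mk_eq_zero.1 h6))
    exact e1.q0 (eq_zero_of_dvd_of_natDegree_lt h8 (by rw [natDegree_X_pow]; omega))
  push Not at hA
  have a1 := e2.dP
  have a2 := e2.dQ
  have hc : ∀ v, ∃ c : ℚ, v - x * w v = c • g := by
    intro v
    obtain ⟨p, rfl⟩ := AdjoinRoot.mk_surjective v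
    refine ⟨p.coeff 0, ?_⟩
    have e : AdjoinRoot.mk (ff m) p = x * mk m (divX p) + p.coeff 0 • (1 : A m) := by
      conv_lhs => rw [← X_mul_divX_add p]
      rw [map_add, map_mul, AdjoinRoot.mk_C, Algebra.smul_def, mul_one]
      rfl
    rw [e, map_add, map_smul, mul_add, H1, hg, smul_sub, mul_smul_comm]
    abel
  obtain ⟨α, γ, hαγ⟩ := cop 1 m
  have hβ : x ^ m = x * mk m α * x ^ m := by
    have := congrArg (mk m) hαγ
    simp only [map_add, map_mul, map_pow, map_sub, map_one, ← hx] at this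
    linear_combination (- x ^ m) * this + mk m γ * hff
  have hβk : ∀ k, x ^ m = x ^ k * (mk m α ^ k * x ^ m) := by
    intro k
    induction k with
    | zero => simp
    | succ k ih =>
      calc x ^ m = x ^ k * (mk m α ^ k * x ^ m) := ih
        _ = x ^ k * (mk m α ^ k * (x * mk m α * x ^ m)) := by rw [← hβ]
        _ = _ := by ring
  have hL : ∀ k c, x ^ k * (w ^ k) (x ^ m * c) = x ^ m * c := by
    intro k c
    have : x ^ m * c = x ^ k * (mk m α ^ k * x ^ m * c) := by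
      conv_lhs => rw [hβk k]
      ring
    rw [this, H']
  have hstep : ∀ k c, (w ^ k) (x ^ m * c) = x * (w ^ (k + 1)) (x ^ m * c) := by
    intro k c
    obtain ⟨d, hd⟩ := hc ((w ^ k) (x ^ m * c))
    have e : w ((w ^ k) (x ^ m * c)) = (w ^ (k + 1)) (x ^ m * c) := by
      rw [pow_succ', Module.End.mul_apply]
    rw [e] at hd
    have h1 : d • (x ^ k * g) = 0 := by
      rw [← mul_smul_comm, ← hd, mul_sub, hL, ← mul_assoc, ← pow_succ, hL, sub_self]
    rcases smul_eq_zero.1 h1 with h2 | h2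
    · rw [h2, zero_smul, sub_eq_zero] at hd
      exact hd
    · exact absurd h2 (hA k)
  have hwL : ∀ j c, w (x ^ m * c) = x ^ j * (w ^ (j + 1)) (x ^ m * c) := by
    intro j c
    induction j with
    | zero => simp
    | succ j ih => rw [ih, hstep (j + 1), ← mul_assoc, ← pow_succ]
  have k1 : ∀ c, x ^ m * c - w (x * (x ^ m * c)) = 0 := by
    intro c
    have e1 := hwL m (x * c)
    have e2 := H1 (x ^ m * c)
    have e3 : x * (x ^ m * c) = x ^ m * (x * c) := by ring
    rw [e3] at e2 ⊢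
    rw [e1] at e2 ⊢
    set e := (w ^ (m + 1)) (x ^ m * (x * c))
    linear_combination (c - e) * hβ - mk m α * e2
  have p0 : P2 = 0 := by
    by_contra hP
    have h1 := mulD (P := X) (N := 1) (by simp) (e2.l (mk m (X ^ (2 * (2 * N)))))
    rw [s2] at h1
    have h2 : mk m X * (mk m Q2 * (mk m (X ^ (2 * (2 * N))) - w (x * mk m (X ^ (2 * (2 * N))))) -
        mk m P2 * mk m (X ^ (2 * (2 * N)))) = - mk m (X * (P2 * X ^ (2 * (2 * N)))) := by
      have := H1 (mk m (X ^ (2 * (2 * N))))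
      rw [map_mul (mk m), map_mul (mk m), ← hx]
      linear_combination (- mk m Q2) * this
    rw [h2, Submodule.neg_mem_iff] at h1
    have hX : (X ^ (2 * (2 * N)) : ℚ[X]) ≠ 0 := pow_ne_zero _ X_ne_zero
    have hd : (X * (P2 * X ^ (2 * (2 * N)))).natDegree = 1 + (P2.natDegree + 2 * (2 * N)) := by
      rw [natDegree_mul X_ne_zero (mul_ne_zero hP hX), natDegree_mul hP hX, natDegree_X_pow,
        natDegree_X]
    exact K1 (mul_ne_zero X_ne_zero (mul_ne_zero hP hX)) (by omega) (by omega) h1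
  have k2 : ∀ c, mk m Q2 * c - w (x * (mk m Q2 * c)) = 0 := by
    intro c
    obtain ⟨p, rfl⟩ := AdjoinRoot.mk_surjective c
    have h1 := modByMonic_add_div p (X ^ m)
    have h2 := degree_modByMonic_lt p (monic_X_pow m)
    rw [degree_X_pow] at h2
    have h3 := e2.r (mk m (p %ₘ X ^ m)) (memD.2 ⟨_, lt_of_lt_of_le h2
      (by exact_mod_cast (by omega)), rfl⟩)
    rw [s2, p0, map_zero, zero_mul] at h3
    have h4 := k1 (mk m Q2 * mk m (p /ₘ X ^ m))
    have e : mk m Q2 * AdjoinRoot.mk (ff m) p =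
        mk m Q2 * mk m (p %ₘ X ^ m) + x ^ m * (mk m Q2 * mk m (p /ₘ X ^ m)) := by
      conv_lhs => rw [← h1]
      simp only [map_add, map_mul, map_pow, hx]
      ring
    rw [e, mul_add, map_add]
    linear_combination h3 + h4
  obtain ⟨Q3, hQ3, hnd⟩ := exists_eq_pow_rootMultiplicity_mul_and_not_dvd Q2 e2.q0 0
  simp only [map_zero, sub_zero] at hQ3 hnd
  set j := rootMultiplicity 0 Q2
  have hj : j ≤ 2 * (2 * N) := by
    have := natDegree_le_of_dvd (Dvd.intro _ hQ3.symm) e2.q0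
    rw [natDegree_X_pow] at this
    omega
  have hcop : IsCoprime (X ^ m : ℚ[X]) Q3 :=
    IsCoprime.pow_left ((irreducible_X.coprime_iff_not_dvd).2 hnd)
  obtain ⟨δ, ε, hδ⟩ := hcop
  obtain ⟨i, hi⟩ : ∃ i, m = i + j + 1 := ⟨m - j - 1, by omega⟩
  have k3 : mk m (X ^ (i + j) * (X - 1) ^ m) =
      x ^ m * mk m (δ * X ^ (i + j) * (X - 1) ^ m) + mk m Q2 * mk m (ε * X ^ i * (X - 1) ^ m) := by
    rw [hx, ← map_pow, ← map_mul, ← map_mul, ← map_add]
    congr 1
    rw [hQ3]
    linear_combination (- X ^ (i + j) * (X - 1) ^ m) * hδ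
  have k4 : x * mk m (X ^ (i + j) * (X - 1) ^ m) = 0 := by
    rw [map_mul, map_pow, map_pow, map_sub, map_one, ← hx, ← mul_assoc, ← pow_succ', ← hi, hff]
  have k5 : mk m (X ^ (i + j) * (X - 1) ^ m) = 0 := by
    have h1 := k1 (mk m (δ * X ^ (i + j) * (X - 1) ^ m))
    have h2 := k2 (mk m (ε * X ^ i * (X - 1) ^ m))
    have h3 : w (x * mk m (X ^ (i + j) * (X - 1) ^ m)) = 0 := by rw [k4, map_zero]
    rw [k3, mul_add, map_add] at h3
    rw [k3]
    linear_combination h1 + h2 + h3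
  exact (hh_monic (i + j) m).ne_zero (K0 (m := m) (by rw [hh_deg]; omega) k5)

end Pool.Agent.H67.UR
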